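import Pool.Agent.W868.Cohen

/-!
# Collapsing the continuum with countable conditions
-/

set_option autoImplicit false
set_option linter.unreachableTactic false
set_option linter.unusedTactic false
set_option linter.unusedSectionVars false

namespace Pool.Agent.W868

open PName
open ZFSet (pair)
open Cardinal

/-- Every descending sequence has a lower bound. -/
def SClosed (P : Type) [Preorder P] : Prop :=
  ∀ p : ℕ → P, (∀ n, p (n + 1) ≤ p n) → ∃ q, ∀ n, q ≤ p n

/-- Meeting countably many dense sets. -/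
theorem SClosed.meet {P : Type} [Preorder P] (hP : SClosed P) {α : Type*} (p : P)
    (D : ℕ → α → P → Prop) (hD : ∀ n, ∀ q ≤ p, ∃ q' ≤ q, ∃ a, D n a q') :
    ∃ (q : P) (a : ℕ → α), q ≤ p ∧ ∀ n, ∃ q', q ≤ q' ∧ D n (a n) q' := by
  have hD' : ∀ (n : ℕ) (q : {q // q ≤ p}), ∃ (q' : {q // q ≤ p}) (a : α),
      q'.1 ≤ q.1 ∧ D n a q'.1 := by
    intro n q
    obtain ⟨q', h1, a, h2⟩ := hD n q.1 q.2
    exact ⟨⟨q', h1.trans q.2⟩, a, h1, h2⟩
  choose F A hF hA using hD'
  let s : ℕ → {q // q ≤ p} := fun n => Nat.rec ⟨p, le_rfl⟩ (fun k q => F k q) n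
  have hs : ∀ n, s (n + 1) = F n (s n) := fun n => rfl
  obtain ⟨q, hq⟩ := hP (fun n => (s n).1) fun n => by
    rw [hs]
    exact hF n (s n)
  refine ⟨q, fun n => A n (s n), hq 0, fun n => ⟨(s (n + 1)).1, hq (n + 1), ?_⟩⟩
  rw [hs]
  exact hA n (s n)

theorem exists_not_mem_Om1 (a : ℕ → ZFSet.{0}) : ∃ b ∈ Om1, ∀ n, b ≠ a n := by
  obtain ⟨b, hb, h⟩ := exists_not_mem (A := {∅}) (B := Om1) (fun _ => Set.range a)
    (fun _ _ => Set.countable_range a) (by
      rw [ZFSet.card_singleton, one_mul, card_Om1]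
      exact Cardinal.aleph0_lt_aleph_one)
  exact ⟨b, hb, fun n hn => h ∅ (by simp) ⟨n, hn.symm⟩⟩

theorem empty_mem_Om1 : ∅ ∈ Om1 := by
  rw [Om1, Ordinal.mem_toZFSet_iff]
  refine ⟨0, ?_, Ordinal.toZFSet_zero⟩
  rw [Cardinal.lt_ord, Ordinal.card_zero]
  exact Cardinal.aleph_pos 1

theorem aleph1_W_of_sclosed {P : Type} [Preorder P] [OrderTop P] (hP : SClosed P) (π : Pkg P)
    (h1 : Om1 ∈ π.Z) : IsAleph1 π.W (π.hat Om1) := by
  refine ⟨π.V_subset_W (π.of_hat_mem_V h1), π.hat_isOrdinal ord_Om1, ?_, ?_⟩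
  · rintro ⟨_, ⟨τ, hτ, rfl⟩, hinj⟩
    set S : Set (PName P) := {τ, check Om1, check ZFSet.omega} with hS
    have s1 : τ ∈ S := by simp [hS]
    have s2 : check Om1 ∈ S := by simp [hS]
    have s3 : check ZFSet.omega ∈ S := by simp [hS]
    have hSπ : S ⊆ π.N := by
      rintro x (rfl | rfl | rfl)
      · exact hτ
      · exact h1
      · exact π.omega_Z
    have hd : NDfn S fun π (_ : Fin 0 → ZFSet.{0}) =>
        (∀ a ∈ π.hat Om1, ∃ n ∈ π.hat ZFSet.omega, pair a n ∈ π.val τ) ∧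
        ∀ a ∈ π.hat Om1, ∀ b ∈ π.hat Om1, ∀ n ∈ π.hat ZFSet.omega,
          pair a n ∈ π.val τ → pair b n ∈ π.val τ → a = b := by
      (repeat' first
      | assumption
      | exact NDfnF.proj _
      | exact NDfnF.val (by assumption)
      | exact NDfnF.hat (by assumption)
      | apply NDfn.not | apply NDfn.and | apply NDfn.or | apply NDfn.imp | apply NDfn.iff
      | apply NDfn.bex | apply NDfn.ball | apply NDfn.ex | apply NDfn.all
      | apply NDfn.eq | apply NDfn.mem | apply NDfnF.pair)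
    obtain ⟨k, hk⟩ := forcing_theorem hd π hSπ (by
      rw [π.hat_omega]
      refine ⟨fun a ha => ?_, fun a _ b _ n _ h2 h3 => hinj.2 a b n h2 h3⟩
      obtain ⟨n, hn, -⟩ := hinj.1.2 a ha
      exact ⟨n, (ZFSet.pair_mem_prod.1 (hinj.1.1 hn)).2, hn⟩)
    obtain ⟨q, a, hqp, hq⟩ := hP.meet (π.g k) (fun n a q => ∀ π' : Pkg P, S ⊆ π'.N →
      check a ∈ π'.N → (∃ m, π'.g m ≤ q) →
        ∀ b ∈ π'.hat Om1, pair b (nat n) ∈ π'.val τ → b = π'.hat a) (by
      intro n q hq
      obtain ⟨π', h2, h3⟩ := exists_pkg' S (Set.toFinite _).countable q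
      have h4 := hk π' h2 ⟨0, by
        rw [h3]
        exact hq⟩
      have h5 : ∃ a ∈ π'.Z, ∀ b ∈ π'.hat Om1, pair b (π'.hat (nat n)) ∈ π'.val τ →
          b = π'.hat a := by
        by_cases h6 : ∃ b ∈ π'.hat Om1, pair b (π'.hat (nat n)) ∈ π'.val τ
        · obtain ⟨b, hb, h7⟩ := h6
          obtain ⟨a, -, haZ, rfl⟩ := π'.mem_hat.1 hb
          refine ⟨a, haZ, fun b' hb' h8 => ?_⟩
          exact h4.2 b' hb' _ hb (π'.hat (nat n)) ((π'.hat_mem_hat (π'.nat_Z n) π'.omega_Z).2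
            (mem_omega_iff.2 ⟨n, rfl⟩)) h8 h7
        · exact ⟨∅, π'.empty_Z, fun b hb h7 => absurd ⟨b, hb, h7⟩ h6⟩
      obtain ⟨a, haZ, h6⟩ := h5
      have hd2 : NDfn (S ∪ {check a, check (nat n)}) fun π (_ : Fin 0 → ZFSet.{0}) =>
          ∀ b ∈ π.hat Om1, pair b (π.hat (nat n)) ∈ π.val τ → b = π.hat a := by
        have t1 : τ ∈ S ∪ {check a, check (nat n)} := Or.inl s1
        have t2 : check Om1 ∈ S ∪ {check a, check (nat n)} := Or.inl s2
        have t3 : check a ∈ S ∪ {check a, check (nat n)} := Or.inr (by simp)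
        have t4 : check (nat n) ∈ S ∪ {check a, check (nat n)} := Or.inr (by simp)
        (repeat' first
      | assumption
      | exact NDfnF.proj _
      | exact NDfnF.val (by assumption)
      | exact NDfnF.hat (by assumption)
      | apply NDfn.not | apply NDfn.and | apply NDfn.or | apply NDfn.imp | apply NDfn.iff
      | apply NDfn.bex | apply NDfn.ball | apply NDfn.ex | apply NDfn.all
      | apply NDfn.eq | apply NDfn.mem | apply NDfnF.pair)
      obtain ⟨m, hm⟩ := forcing_theorem hd2 π' (by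
        rintro x (hx | rfl | rfl)
        · exact h2 hx
        · exact haZ
        · exact π'.nat_Z n) h6
      refine ⟨π'.g m, ?_, a, ?_⟩
      · rw [← h3]
        exact π'.g_anti (Nat.zero_le m)
      · intro π'' h7 h8 h9
        have h10 := hm π'' (by
          rintro x (hx | rfl | rfl)
          · exact h7 hx
          · exact h8
          · exact π''.nat_Z n) h9
        rw [π''.hat_nat] at h10
        exact h10)
    obtain ⟨b, hb, hba⟩ := exists_not_mem_Om1 a
    obtain ⟨π', h2, h3⟩ := exists_pkg' (S ∪ ({check b} ∪ Set.range fun n => check (a n)))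
      ((Set.toFinite _).countable.union ((Set.countable_singleton _).union
        (Set.countable_range _))) q
    have hSπ' : S ⊆ π'.N := fun x hx => h2 (Or.inl hx)
    have hbZ : b ∈ π'.Z := h2 (Or.inr (Or.inl rfl))
    have haZ : ∀ n, a n ∈ π'.Z := fun n => h2 (Or.inr (Or.inr ⟨n, rfl⟩))
    have h4 := hk π' hSπ' ⟨0, by
      rw [h3]
      exact hqp⟩
    obtain ⟨n', hn', h5⟩ := h4.1 (π'.hat b) ((π'.hat_mem_hat hbZ (hSπ' s2)).2 hb)
    rw [π'.hat_omega] at hn'
    obtain ⟨n, rfl⟩ := mem_omega_iff.1 hn'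
    obtain ⟨q', hqq', h6⟩ := hq n
    have h7 := h6 π' hSπ' (haZ n) ⟨0, by
      rw [h3]
      exact hqq'⟩ (π'.hat b) ((π'.hat_mem_hat hbZ (hSπ' s2)).2 hb) h5
    exact hba n ((π'.hat_inj hbZ (haZ n)).1 h7)
  · intro α hα
    obtain ⟨a, ha, haZ, rfl⟩ := π.mem_hat.1 hα
    obtain ⟨f, hf, h2⟩ := π.exists_inj_V haZ π.omega_Z (inj_of_mem_Om1 ha)
    rw [π.hat_omega] at h2
    exact ⟨f, π.V_subset_W hf, h2⟩

/-! ### The collapse -/

/-- Countable partial functions from `I` to the sets of natural numbers. -/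
def Col (I : Type) : Type :=
  {p : Set (I × Set ℕ) // p.Countable ∧ ∀ i s s', (i, s) ∈ p → (i, s') ∈ p → s = s'}

namespace Col

variable {I : Type}

instance : Preorder (Col I) where
  le p q := q.1 ⊆ p.1
  le_refl p := subset_rfl
  le_trans p q r h1 h2 := h2.trans h1

instance : OrderTop (Col I) where
  top := ⟨∅, Set.countable_empty, fun _ _ _ h => h.elim⟩
  le_top _ := Set.empty_subset _

theorem le_def {p q : Col I} : p ≤ q ↔ q.1 ⊆ p.1 := Iff.rfl

/-- The condition with one value. -/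
def single (t : I × Set ℕ) : Col I := ⟨{t}, Set.countable_singleton _, fun _ _ _ h h' =>
  (Prod.mk.inj (h.trans h'.symm)).2⟩

theorem le_single {p : Col I} {t : I × Set ℕ} : p ≤ single t ↔ t ∈ p.1 := by
  rw [le_def, single, Set.singleton_subset_iff]

theorem sclosed : SClosed (Col I) := by
  intro p hp
  have ha : Antitone p := antitone_nat_of_succ_le hp
  refine ⟨⟨⋃ n, (p n).1, Set.countable_iUnion fun n => (p n).2.1, ?_⟩, fun n => ?_⟩
  · intro i s s' h h'
    obtain ⟨n, hn⟩ := Set.mem_iUnion.1 h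
    obtain ⟨m, hm⟩ := Set.mem_iUnion.1 h'
    exact (p (max n m)).2.2 i s s' (ha (le_max_left n m) hn) (ha (le_max_right n m) hm)
  · exact Set.subset_iUnion (fun n => (p n).1) n

end Col

/-- The name of the generic relation. -/
noncomputable def GamC : PName (Col (Ty Om1)) :=
  mk {t : (Ty Om1 × Set ℕ) × ℕ // t.2 ∈ t.1.2}
    (fun t => opN (check (el t.1.1.1)) (check (nat t.1.2))) fun t => Col.single t.1.1

theorem mem_GamC (π : Pkg (Col (Ty Om1))) {i : Ty Om1} {n : ℕ} (hi : el i ∈ π.Z) :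
    pair (π.hat (el i)) (nat n) ∈ π.val GamC ↔ ∃ m s, n ∈ s ∧ (i, s) ∈ (π.g m).1 := by
  rw [Pkg.mem_val]
  constructor
  · rintro ⟨t, ht, c, hc, ⟨m, hm⟩, he⟩
    obtain ⟨⟨⟨⟨j, s⟩, k⟩, hk⟩, rfl, rfl⟩ := el_mk.1 hc
    have h1 : el j ∈ π.Z := π.fst_mem ht
    have h2 := π.val_opN h1 (π.snd_mem ht)
    have he' : π.val (opN (check (el j)) (check (nat k))) = pair (π.hat (el i)) (nat n) := he
    rw [he'] at h2
    obtain ⟨h3, h4⟩ := ZFSet.pair_inj.1 h2
    have h5 : nat n = π.hat (nat k) := h4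
    rw [π.hat_nat] at h5
    obtain rfl := nat_injective h5
    obtain rfl := el_injective ((π.hat_inj hi h1).1 h3)
    exact ⟨m, s, hk, Col.le_single.1 hm⟩
  · rintro ⟨m, s, hns, hm⟩
    refine ⟨opN (check (el i)) (check (nat n)), π.opN_mem hi (π.nat_Z n), _,
      el_mk.2 ⟨⟨((i, s), n), hns⟩, rfl, rfl⟩, ⟨m, Col.le_single.2 hm⟩, ?_⟩
    rw [π.val_opN hi (π.nat_Z n)]
    have h5 : π.val (check (nat n)) = nat n := π.hat_nat n
    rw [h5]
    rfl

theorem coll_cover (π : Pkg (Col (Ty Om1))) (hΓ : GamC ∈ π.N) (h1 : Om1 ∈ π.Z) :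
    Cover π.W (π.hat Om1) := by
  classical
  refine ⟨_, π.val_mem_W hΓ, ?_⟩
  rintro _ ⟨ρ, hρ, rfl⟩ -
  by_contra hcon
  set S : Set (PName (Col (Ty Om1))) := {ρ, GamC, check Om1, check ZFSet.omega} with hS
  have s1 : ρ ∈ S := by simp [hS]
  have s2 : GamC ∈ S := by simp [hS]
  have s3 : check Om1 ∈ S := by simp [hS]
  have s4 : check ZFSet.omega ∈ S := by simp [hS]
  have hSπ : S ⊆ π.N := by
    rintro x (rfl | rfl | rfl | rfl)
    · exact hρ
    · exact hΓ
    · exact h1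
    · exact π.omega_Z
  have hd : NDfn S fun π (_ : Fin 0 → ZFSet.{0}) => ∀ a ∈ π.hat Om1,
      ∃ n ∈ π.hat ZFSet.omega, ¬ (pair a n ∈ π.val GamC ↔ n ∈ π.val ρ) := by
    (repeat' first
      | assumption
      | exact NDfnF.proj _
      | exact NDfnF.val (by assumption)
      | exact NDfnF.hat (by assumption)
      | apply NDfn.not | apply NDfn.and | apply NDfn.or | apply NDfn.imp | apply NDfn.iff
      | apply NDfn.bex | apply NDfn.ball | apply NDfn.ex | apply NDfn.all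
      | apply NDfn.eq | apply NDfn.mem | apply NDfnF.pair)
  obtain ⟨k, hk⟩ := forcing_theorem hd π hSπ (by
    intro a ha
    by_contra h2
    refine hcon ⟨a, ha, fun n hn _ _ => ?_⟩
    by_contra h3
    refine h2 ⟨n, ?_, h3⟩
    rw [π.hat_omega]
    exact hn)
  obtain ⟨q, b, hqp, hq⟩ := Col.sclosed.meet (π.g k) (fun n (b : Prop) q =>
    ∀ π' : Pkg (Col (Ty Om1)), S ⊆ π'.N → (∃ m, π'.g m ≤ q) → (nat n ∈ π'.val ρ ↔ b)) (by
    intro n q hq
    obtain ⟨π', h2, h3⟩ := exists_pkg' S (Set.toFinite _).countable q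
    have t1 : ρ ∈ S ∪ {check (nat n)} := Or.inl s1
    have t2 : check (nat n) ∈ S ∪ {check (nat n)} := Or.inr (by simp)
    have h5 : ∀ π' : Pkg (Col (Ty Om1)), S ⊆ π'.N → S ∪ {check (nat n)} ⊆ π'.N := by
      rintro π' h6 x (hx | rfl)
      · exact h6 hx
      · exact π'.nat_Z n
    by_cases h4 : nat n ∈ π'.val ρ
    · have hd2 : NDfn (S ∪ {check (nat n)}) fun π (_ : Fin 0 → ZFSet.{0}) =>
          π.hat (nat n) ∈ π.val ρ := by
        (repeat' first
      | assumption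
      | exact NDfnF.proj _
      | exact NDfnF.val (by assumption)
      | exact NDfnF.hat (by assumption)
      | apply NDfn.not | apply NDfn.and | apply NDfn.or | apply NDfn.imp | apply NDfn.iff
      | apply NDfn.bex | apply NDfn.ball | apply NDfn.ex | apply NDfn.all
      | apply NDfn.eq | apply NDfn.mem | apply NDfnF.pair)
      obtain ⟨m, hm⟩ := forcing_theorem hd2 π' (h5 π' h2) (by
        rw [π'.hat_nat]
        exact h4)
      refine ⟨π'.g m, ?_, True, fun π'' h6 h7 => ?_⟩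
      · rw [← h3]
        exact π'.g_anti (Nat.zero_le m)
      · have h8 := hm π'' (h5 π'' h6) h7
        rw [π''.hat_nat] at h8
        simpa using h8
    · have hd2 : NDfn (S ∪ {check (nat n)}) fun π (_ : Fin 0 → ZFSet.{0}) =>
          ¬ π.hat (nat n) ∈ π.val ρ := by
        (repeat' first
      | assumption
      | exact NDfnF.proj _
      | exact NDfnF.val (by assumption)
      | exact NDfnF.hat (by assumption)
      | apply NDfn.not | apply NDfn.and | apply NDfn.or | apply NDfn.imp | apply NDfn.iff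
      | apply NDfn.bex | apply NDfn.ball | apply NDfn.ex | apply NDfn.all
      | apply NDfn.eq | apply NDfn.mem | apply NDfnF.pair)
      obtain ⟨m, hm⟩ := forcing_theorem hd2 π' (h5 π' h2) (by
        rw [π'.hat_nat]
        exact h4)
      refine ⟨π'.g m, ?_, False, fun π'' h6 h7 => ?_⟩
      · rw [← h3]
        exact π'.g_anti (Nat.zero_le m)
      · have h8 := hm π'' (h5 π'' h6) h7
        rw [π''.hat_nat] at h8
        simpa using h8)
  obtain ⟨i, hi⟩ : ∃ i : Ty Om1, ∀ s, (i, s) ∉ q.1 := by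
    by_contra h2
    push Not at h2
    have h3 : (Set.univ : Set (Ty Om1)).Countable := by
      refine (q.2.1.image Prod.fst).mono fun i _ => ?_
      obtain ⟨s, hs⟩ := h2 i
      exact ⟨(i, s), hs, rfl⟩
    have h4 : #(Ty Om1) ≤ ℵ₀ := Cardinal.mk_le_aleph0_iff.2 (Set.countable_univ_iff.1 h3)
    have h5 : #(Ty Om1) = ℵ₁ := card_Om1
    rw [h5] at h4
    exact absurd h4 (not_le.2 Cardinal.aleph0_lt_aleph_one)
  set r : Set ℕ := {n | b n} with hr
  let q' : Col (Ty Om1) := ⟨insert (i, r) q.1, q.2.1.insert _, by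
    intro j s s' h h'
    rcases h with h | h
    · rcases h' with h' | h'
      · exact (Prod.mk.inj (h.trans h'.symm)).2
      · rw [(Prod.mk.inj h).1] at h'
        exact absurd h' (hi _)
    · rcases h' with h' | h'
      · rw [(Prod.mk.inj h').1] at h
        exact absurd h (hi _)
      · exact q.2.2 j s s' h h'⟩
  have hq'q : q' ≤ q := Set.subset_insert _ _
  obtain ⟨π', h2, h3⟩ := exists_pkg' (S ∪ {check (el i)})
    ((Set.toFinite _).countable.union (Set.countable_singleton _)) q'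
  have hSπ' : S ⊆ π'.N := fun x hx => h2 (Or.inl hx)
  have hiZ : el i ∈ π'.Z := h2 (Or.inr rfl)
  obtain ⟨n', hn', h4⟩ := hk π' hSπ' ⟨0, by
    rw [h3]
    exact hq'q.trans hqp⟩ (π'.hat (el i)) ((π'.hat_mem_hat hiZ (hSπ' s3)).2 (el_mem i))
  rw [π'.hat_omega] at hn'
  obtain ⟨n, rfl⟩ := mem_omega_iff.1 hn'
  apply h4
  obtain ⟨q'', hqq'', h5⟩ := hq n
  rw [h5 π' hSπ' ⟨0, by
    rw [h3]
    exact hq'q.trans hqq''⟩, mem_GamC π' hiZ]
  have h6 : (i, r) ∈ (π'.g 0).1 := by
    rw [h3]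
    exact Set.mem_insert _ _
  constructor
  · rintro ⟨m, s, hns, hm⟩
    have h7 : (i, r) ∈ (π'.g m).1 := π'.g_anti (Nat.zero_le m) h6
    rw [(π'.g m).2.2 i s r hm h7] at hns
    exact hns
  · intro h7
    exact ⟨0, r, h7, h6⟩

/-- If CH fails, then `Cover` fails in the ground model. -/
theorem not_cover_V {P : Type} [Preorder P] [OrderTop P] (π : Pkg P) (h1 : Om1 ∈ π.Z)
    (hCH : (2 : Cardinal.{0}) ^ (ℵ₀ : Cardinal.{0}) ≠ ℵ₁) : ¬ Cover π.V (π.hat Om1) := by
  rintro ⟨_, ⟨c, hc, rfl⟩, hcov⟩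
  have hB := isBase_univ
  have hω := π.omega_Z
  have hn0 := π.nat_Z 0
  have hn1 := π.nat_Z 1
  have h2 : ∃ r : ZFSet.{0}, r ⊆ ZFSet.omega ∧ ∀ a ∈ Om1, ∃ n ∈ ZFSet.omega, n ≠ nat 0 ∧
      n ≠ nat 1 ∧ ¬ (pair a n ∈ c ↔ n ∈ r) := by
    by_contra h3
    push Not at h3
    have h4 : ∀ s : Set ℕ, ∃ a : Ty Om1, ∀ n, pair (el a) (nat (n + 2)) ∈ c ↔ n ∈ s := by
      intro s
      obtain ⟨a, ha, h5⟩ := h3 (ZFSet.sep (fun x => ∃ n ∈ s, x = nat (n + 2)) ZFSet.omega)
        (fun x hx => (ZFSet.mem_sep.1 hx).1)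
      obtain ⟨i, rfl⟩ := exists_el ha
      refine ⟨i, fun n => ?_⟩
      have hn : nat (n + 2) ∈ ZFSet.omega := mem_omega_iff.2 ⟨_, rfl⟩
      have h6 := h5 (nat (n + 2)) hn (fun h => by
        have := nat_injective h
        omega) (fun h => by
        have := nat_injective h
        omega)
      constructor
      · intro h7
        by_contra h8
        have h9 : nat (n + 2) ∉ ZFSet.sep (fun x => ∃ n ∈ s, x = nat (n + 2)) ZFSet.omega := by
          intro h10
          obtain ⟨-, m, hm, h11⟩ := ZFSet.mem_sep.1 h10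
          have := nat_injective h11
          have h12 : n = m := by omega
          exact h8 (h12 ▸ hm)
        exact h9 (h6.1 h7)
      · intro h7
        have h9 : nat (n + 2) ∈ ZFSet.sep (fun x => ∃ n ∈ s, x = nat (n + 2)) ZFSet.omega :=
          ZFSet.mem_sep.2 ⟨hn, n, h7, rfl⟩
        exact h6.2 h9
    choose f hf using h4
    have hinj : Function.Injective f := by
      intro s s' h
      ext n
      rw [← hf s n, ← hf s' n, h]
    have h5 := Cardinal.mk_le_of_injective hinj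
    have h6 : #(Ty Om1) = ℵ₁ := card_Om1
    rw [h6, Cardinal.mk_set, Cardinal.mk_nat] at h5
    refine hCH (le_antisymm h5 ?_)
    rw [Cardinal.two_power_aleph0]
    exact Cardinal.aleph_one_le_continuum
  have hd : Dfn π.Z Set.univ fun w : Fin 1 → ZFSet.{0} => w 0 ⊆ ZFSet.omega ∧
      ∀ a ∈ Om1, ∃ n ∈ ZFSet.omega, n ≠ nat 0 ∧ n ≠ nat 1 ∧ ¬ (pair a n ∈ c ↔ n ∈ w 0) := by
    apply Dfn.and
    · exact hB.subset' (DfnF.proj 0) (DfnF.const' trivial hω)
    (repeat' first
      | assumption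
      | exact DfnF.proj _
      | exact DfnF.const (by assumption)
      | exact DfnF.const' (by first | assumption | trivial) (by first | assumption | trivial)
      | exact Dfn.prop _
      | apply Dfn.not | apply Dfn.and | apply Dfn.or | apply Dfn.imp | apply Dfn.iff
      | apply hB.bex | apply hB.ball | apply Dfn.ex | apply Dfn.all
      | apply Dfn.eq | apply Dfn.mem | apply hB.pair')
  obtain ⟨r, hr, h3, h4⟩ := π.exists_Z (Q := fun r => r ⊆ ZFSet.omega ∧
      ∀ a ∈ Om1, ∃ n ∈ ZFSet.omega, n ≠ nat 0 ∧ n ≠ nat 1 ∧ ¬ (pair a n ∈ c ↔ n ∈ r)) hd h2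
  obtain ⟨a', ha', h5⟩ := hcov (π.hat r) (π.of_hat_mem_V hr) (by
    rw [← π.hat_omega]
    exact π.hat_subset h3)
  obtain ⟨a, ha, haZ, rfl⟩ := π.mem_hat.1 ha'
  obtain ⟨n, hn, hne0, hne1, h6⟩ := h4 a ha
  apply h6
  have h7 := h5 n hn hne0 hne1
  obtain ⟨m, rfl⟩ := mem_omega_iff.1 hn
  rw [← π.pair_mem_hat haZ (π.nat_Z m) hc, ← π.hat_mem_hat (π.nat_Z m) hr, π.hat_nat]
  exact h7

end Pool.Agent.W868
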