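import Pool.Agent.W868.Phi
import Pool.Agent.W868.Coll

/-!
# The amalgamation property of the sentence
-/

set_option autoImplicit false
set_option linter.unreachableTactic false
set_option linter.unusedTactic false

namespace Pool.Agent.W868

open ZFSet (pair)

theorem isFunc_exists {x y f a : ZFSet.{0}} (h : ZFSet.IsFunc x y f) (ha : a ∈ x) :
    ∃ b ∈ y, pair a b ∈ f := by
  obtain ⟨b, hb, -⟩ := h.2 a ha
  exact ⟨b, (ZFSet.pair_mem_prod.1 (h.1 hb)).2, hb⟩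

theorem isFunc_uniq {x y f a b b' : ZFSet.{0}} (h : ZFSet.IsFunc x y f) (hb : pair a b ∈ f)
    (hb' : pair a b' ∈ f) : b = b' := by
  obtain ⟨w, -, hw⟩ := h.2 a (ZFSet.pair_mem_prod.1 (h.1 hb)).1
  rw [hw b hb, hw b' hb']

section

variable {M : Set ZFSet.{0}} (hM : IsZF M)

theorem aleph1_unique {κ κ' : ZFSet.{0}} (h : IsAleph1 M κ) (h' : IsAleph1 M κ') : κ = κ' := by
  rcases ZFSet.IsOrdinal.mem_trichotomous h.2.1 h'.2.1 with h1 | h1 | h1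
  · exact absurd (h'.2.2.2 κ h1) h.2.2.1
  · exact h1
  · exact absurd (h.2.2.2 κ' h1) h'.2.2.1

theorem size_iff {κ D : ZFSet.{0}} (h : IsAleph1 M κ) :
    SizeAleph1 M D ↔ ∃ f ∈ M, IsBij D κ f := by
  constructor
  · rintro ⟨κ', h1, h2⟩
    rwa [aleph1_unique h h1]
  · exact fun h1 => ⟨κ, h, h1⟩

include hM

theorem not_ap_of_cover {κ : ZFSet.{0}} (hκ : IsAleph1 M κ)
    (he : ∃ e ∈ M, IsBij (ZFSet.prod κ (nat 3)) κ e)
    (he1 : ∃ e ∈ M, IsBij (insert (ZFSet.prod κ (nat 3)) (ZFSet.prod κ (nat 3))) κ e)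
    (hcov : Cover M κ) : ¬ Aleph1InAPSpec M phi := by
  rintro ⟨-, hap⟩
  have hB := hM.base
  obtain ⟨c, hc, hcov⟩ := hcov
  have hκM := hκ.1
  have hω := hM.infinity
  have n0 := hM.nat_mem 0
  have n1 := hM.nat_mem 1
  set X := ZFSet.prod κ (nat 3) with hX
  have hXM : X ∈ M := hM.prod_mem hκM (hM.nat_mem 3)
  have hd : Dfn M M fun w : Fin 2 → ZFSet.{0} => ∃ a ∈ M, ∃ i ∈ M, w 0 = pair a i ∧
      w 1 ≠ nat 0 ∧ w 1 ≠ nat 1 ∧ pair a (w 1) ∈ c := by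
    (repeat' first
      | assumption
      | exact DfnF.proj _
      | exact DfnF.const (by assumption)
      | exact DfnF.const' (by first | assumption | trivial) (by first | assumption | trivial)
      | exact Dfn.prop _
      | apply hB.isFunc' | apply hB.isInj' | apply hB.isBij' | apply hB.subset' | apply hB.pair' | apply hB.single' | apply hB.upair' | apply hB.insert' | apply hB.union'
      | apply Dfn.not | apply Dfn.and | apply Dfn.or | apply Dfn.imp | apply Dfn.iff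
      | apply hB.bex | apply hB.ball | apply Dfn.ex | apply Dfn.all
      | apply Dfn.eq | apply Dfn.mem | apply hB.pair')
  obtain ⟨c0, hc0, -, h0⟩ := hM.rel_mem hXM hω (Q := fun p n => ∃ a ∈ M, ∃ i ∈ M, p = pair a i ∧
      n ≠ nat 0 ∧ n ≠ nat 1 ∧ pair a n ∈ c) hd
  have hc0' : ∀ a ∈ κ, ∀ i ∈ nat 3, ∀ n ∈ ZFSet.omega, n ≠ nat 0 → n ≠ nat 1 →
      (pair (pair a i) n ∈ c0 ↔ pair a n ∈ c) := by
    intro a ha i hi n hn hn0 hn1
    rw [h0]
    constructor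
    · rintro ⟨-, -, a', -, i', -, h1, -, -, h2⟩
      rw [(ZFSet.pair_inj.1 h1).1]
      exact h2
    · intro h1
      exact ⟨ZFSet.pair_mem_prod.2 ⟨ha, hi⟩, hn, a, hM.trans _ hκM _ ha, i,
        hM.trans _ (hM.nat_mem 3) _ hi, rfl, hn0, hn1, h1⟩
  have hXX : insert X X ∈ M := hM.insert_mem hXM hXM
  have hnot : ∀ x n, pair x n ∈ c0 → n ≠ nat 0 ∧ n ≠ nat 1 := by
    intro x n h
    obtain ⟨-, -, a, -, i, -, -, h1, h2, -⟩ := (h0 _ _).1 h
    exact ⟨h1, h2⟩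
  have m0 : Mod1 M phi X c0 := by
    refine ⟨hXM, hc0, (size_iff hκ).2 he, (models_phi hM hXM hc0).2 (Or.inl ?_)⟩
    rintro ⟨d, -, h⟩
    exact (hnot _ _ h).1 rfl
  have hci : ∀ i : ℕ, insert (pair X (nat i)) c0 ∈ M := fun i =>
    hM.insert_mem (hM.pair_mem hXM (hM.nat_mem i)) hc0
  have m1 : Mod1 M phi (insert X X) (insert (pair X (nat 0)) c0) := by
    refine ⟨hXX, hci 0, (size_iff hκ).2 he1, (models_phi hM hXX (hci 0)).2 (Or.inr (Or.inl ?_))⟩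
    rintro ⟨d, -, h⟩
    rcases ZFSet.mem_insert_iff.1 h with h | h
    · exact nat_ne (by decide) (ZFSet.pair_inj.1 h).2
    · exact (hnot _ _ h).2 rfl
  have m2 : Mod1 M phi (insert X X) (insert (pair X (nat 1)) c0) := by
    refine ⟨hXX, hci 1, (size_iff hκ).2 he1, (models_phi hM hXX (hci 1)).2 (Or.inl ?_)⟩
    rintro ⟨d, -, h⟩
    rcases ZFSet.mem_insert_iff.1 h with h | h
    · exact nat_ne (by decide) (ZFSet.pair_inj.1 h).2
    · exact (hnot _ _ h).1 rfl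
  have hsub : ∀ i : ℕ, IsSub X c0 (insert X X) (insert (pair X (nat i)) c0) := by
    intro i
    refine ⟨fun x hx => ZFSet.mem_insert_of_mem _ hx, fun x hx k _ => ?_⟩
    rw [ZFSet.mem_insert_iff]
    constructor
    · exact Or.inr
    · rintro (h | h)
      · rw [(ZFSet.pair_inj.1 h).1] at hx
        exact absurd hx (ZFSet.mem_irrefl _)
      · exact h
  obtain ⟨D, c', hm, f1, -, f2, -, e1, e2, -⟩ := hap _ _ _ _ _ _ m0 m1 m2 (hsub 0) (hsub 1)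
  have hK : K D c' := (models_phi hM hm.1 hm.2.1).1 hm.2.2.2
  have w0 : nat 0 ∈ ZFSet.omega := mem_omega_iff.2 ⟨0, rfl⟩
  have w1 : nat 1 ∈ ZFSet.omega := mem_omega_iff.2 ⟨1, rfl⟩
  rcases hK with hK | hK | ⟨x, hx, hK⟩
  · obtain ⟨y, hy, hxy⟩ := isFunc_exists e1.1.1 (ZFSet.mem_insert X X)
    exact hK ⟨y, hy, (e1.2 _ _ hxy _ w0).1 (ZFSet.mem_insert _ _)⟩
  · obtain ⟨y, hy, hxy⟩ := isFunc_exists e2.1.1 (ZFSet.mem_insert X X)
    exact hK ⟨y, hy, (e2.2 _ _ hxy _ w1).1 (ZFSet.mem_insert _ _)⟩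
  · have hc' := hm.2.1
    have hxM := hM.trans _ hm.1 _ hx
    have hd2 : Dfn M M fun w : Fin 1 → ZFSet.{0} => pair x (w 0) ∈ c' := by
      (repeat' first
      | assumption
      | exact DfnF.proj _
      | exact DfnF.const (by assumption)
      | exact DfnF.const' (by first | assumption | trivial) (by first | assumption | trivial)
      | exact Dfn.prop _
      | apply hB.isFunc' | apply hB.isInj' | apply hB.isBij' | apply hB.subset' | apply hB.pair' | apply hB.single' | apply hB.upair' | apply hB.insert' | apply hB.union'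
      | apply Dfn.not | apply Dfn.and | apply Dfn.or | apply Dfn.imp | apply Dfn.iff
      | apply hB.bex | apply hB.ball | apply Dfn.ex | apply Dfn.all
      | apply Dfn.eq | apply Dfn.mem | apply hB.pair')
    obtain ⟨a, ha, h3⟩ := hcov _ (hM.sep_mem (Q := fun n => pair x n ∈ c') hd2 hω)
      (fun n hn => (ZFSet.mem_sep.1 hn).1)
    have key : ∀ i ∈ nat 3, ∀ y ∈ D, pair (pair a i) y ∈ f1 → y = x := by
      intro i hi y hy hf
      by_contra hne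
      obtain ⟨n, hn, hn0, hn1, h4⟩ := hK y hy hne
      apply h4
      rw [← e1.2 _ _ hf n hn, ← (hsub 0).2 _ (ZFSet.pair_mem_prod.2 ⟨ha, hi⟩) n hn,
        hc0' a ha i hi n hn hn0 hn1, h3 n hn hn0 hn1, ZFSet.mem_sep]
      exact ⟨fun h => ⟨hn, h⟩, fun h => h.2⟩
    have i0 : nat 0 ∈ nat 3 := by
      rw [nat_eq, nat_eq, Ordinal.toZFSet_mem_toZFSet_iff]
      exact_mod_cast (by norm_num : 0 < 3)
    have i1 : nat 1 ∈ nat 3 := by
      rw [nat_eq, nat_eq, Ordinal.toZFSet_mem_toZFSet_iff]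
      exact_mod_cast (by norm_num : 1 < 3)
    obtain ⟨y0, hy0, hf0⟩ := isFunc_exists e1.1.1
      (ZFSet.mem_insert_of_mem X (ZFSet.pair_mem_prod.2 ⟨ha, i0⟩))
    obtain ⟨y1, hy1, hf1⟩ := isFunc_exists e1.1.1
      (ZFSet.mem_insert_of_mem X (ZFSet.pair_mem_prod.2 ⟨ha, i1⟩))
    rw [key _ i0 y0 hy0 hf0] at hf0
    rw [key _ i1 y1 hy1 hf1] at hf1
    exact nat_ne (by decide) (ZFSet.pair_inj.1 (e1.1.2 _ _ _ hf0 hf1)).2

theorem ap_of_not_cover {κ : ZFSet.{0}} (hκ : IsAleph1 M κ)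
    (he : ∃ e ∈ M, IsBij (ZFSet.prod κ (nat 3)) κ e)
    (hcov : ¬ Cover M κ) : Aleph1InAPSpec M phi := by
  have hB := hM.base
  have hκM := hκ.1
  have hω := hM.infinity
  have n0 := hM.nat_mem 0
  have n1 := hM.nat_mem 1
  have n2 := hM.nat_mem 2
  have i0 : nat 0 ∈ nat 3 := by
    rw [nat_eq, nat_eq, Ordinal.toZFSet_mem_toZFSet_iff]
    exact_mod_cast (by norm_num : 0 < 3)
  have i1 : nat 1 ∈ nat 3 := by
    rw [nat_eq, nat_eq, Ordinal.toZFSet_mem_toZFSet_iff]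
    exact_mod_cast (by norm_num : 1 < 3)
  have i2 : nat 2 ∈ nat 3 := by
    rw [nat_eq, nat_eq, Ordinal.toZFSet_mem_toZFSet_iff]
    exact_mod_cast (by norm_num : 2 < 3)
  set X := ZFSet.prod κ (nat 3) with hX
  have hXM : X ∈ M := hM.prod_mem hκM (hM.nat_mem 3)
  have hXs : SizeAleph1 M X := (size_iff hκ).2 he
  obtain ⟨e, heM, hebij⟩ := he
  refine ⟨⟨X, ∅, hXM, hM.empty_mem, hXs, (models_phi hM hXM hM.empty_mem).2
    (Or.inl fun ⟨d, _, h⟩ => ZFSet.notMem_empty _ h)⟩, ?_⟩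
  intro D0 c0 D1 c1 D2 c2 m0 m1 m2 s1 s2
  obtain ⟨h1, h1M, hb1⟩ := (size_iff hκ).1 m1.2.2.1
  obtain ⟨h2, h2M, hb2⟩ := (size_iff hκ).1 m2.2.2.1
  have hD0 := m0.1
  have hD1 := m1.1
  have hD2 := m2.1
  have hc1 := m1.2.1
  have hc2 := m2.2.1
  obtain ⟨a0, ha0⟩ : ∃ a, a ∈ κ := by
    by_contra h
    push Not at h
    have h3 : κ = ∅ := ZFSet.eq_empty _ |>.2 h
    exact hκ.2.2.1 ⟨∅, hM.empty_mem, by
      rw [h3]
      exact ⟨isFunc_empty _, fun a b c h => absurd h (ZFSet.notMem_empty _)⟩⟩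
  have ha0M := hM.trans _ hκM _ ha0
  -- the predicates on the disjoint union of the two structures
  have hd : Dfn M M fun w : Fin 2 → ZFSet.{0} =>
      (∃ a ∈ κ, w 0 = pair a (nat 0) ∧ ∃ x ∈ D1, pair x a ∈ h1 ∧ pair x (w 1) ∈ c1) ∨
      (∃ a ∈ κ, w 0 = pair a (nat 1) ∧ ∃ x ∈ D2, pair x a ∈ h2 ∧ pair x (w 1) ∈ c2) := by
    (repeat' first
      | assumption
      | exact DfnF.proj _
      | exact DfnF.const (by assumption)
      | exact DfnF.const' (by first | assumption | trivial) (by first | assumption | trivial)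
      | exact Dfn.prop _
      | apply hB.isFunc' | apply hB.isInj' | apply hB.isBij' | apply hB.subset' | apply hB.pair' | apply hB.single' | apply hB.upair' | apply hB.insert' | apply hB.union'
      | apply Dfn.not | apply Dfn.and | apply Dfn.or | apply Dfn.imp | apply Dfn.iff
      | apply hB.bex | apply hB.ball | apply Dfn.ex | apply Dfn.all
      | apply Dfn.eq | apply Dfn.mem | apply hB.pair')
  obtain ⟨b, hb, -, hbQ⟩ := hM.rel_mem hXM hω (Q := fun p n =>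
      (∃ a ∈ κ, p = pair a (nat 0) ∧ ∃ x ∈ D1, pair x a ∈ h1 ∧ pair x n ∈ c1) ∨
      (∃ a ∈ κ, p = pair a (nat 1) ∧ ∃ x ∈ D2, pair x a ∈ h2 ∧ pair x n ∈ c2)) hd
  have hd2 : Dfn M M fun w : Fin 2 → ZFSet.{0} => ∃ p ∈ X, pair p (w 0) ∈ e ∧
      pair p (w 1) ∈ b := by
    (repeat' first
      | assumption
      | exact DfnF.proj _
      | exact DfnF.const (by assumption)
      | exact DfnF.const' (by first | assumption | trivial) (by first | assumption | trivial)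
      | exact Dfn.prop _
      | apply hB.isFunc' | apply hB.isInj' | apply hB.isBij' | apply hB.subset' | apply hB.pair' | apply hB.single' | apply hB.upair' | apply hB.insert' | apply hB.union'
      | apply Dfn.not | apply Dfn.and | apply Dfn.or | apply Dfn.imp | apply Dfn.iff
      | apply hB.bex | apply hB.ball | apply Dfn.ex | apply Dfn.all
      | apply Dfn.eq | apply Dfn.mem | apply hB.pair')
  obtain ⟨c'', hc'', -, hcQ⟩ := hM.rel_mem hκM hω (Q := fun α n => ∃ p ∈ X, pair p α ∈ e ∧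
      pair p n ∈ b) hd2
  -- a new real
  obtain ⟨r, hr, hrω, hnew⟩ : ∃ r ∈ M, r ⊆ ZFSet.omega ∧ ∀ α ∈ κ, ∃ n ∈ ZFSet.omega,
      n ≠ nat 0 ∧ n ≠ nat 1 ∧ ¬ (pair α n ∈ c'' ↔ n ∈ r) := by
    by_contra h
    refine hcov ⟨c'', hc'', fun r hr hrω => ?_⟩
    by_contra h3
    refine h ⟨r, hr, hrω, fun α hα => ?_⟩
    by_contra h4
    refine h3 ⟨α, hα, fun n hn hn0 hn1 => ?_⟩
    by_contra h5
    exact h4 ⟨n, hn, hn0, hn1, h5⟩
  have hd3 : Dfn M M fun w : Fin 2 → ZFSet.{0} => pair (w 0) (w 1) ∈ b ∨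
      (w 0 = pair a0 (nat 2) ∧ w 1 ∈ r) := by
    (repeat' first
      | assumption
      | exact DfnF.proj _
      | exact DfnF.const (by assumption)
      | exact DfnF.const' (by first | assumption | trivial) (by first | assumption | trivial)
      | exact Dfn.prop _
      | apply hB.isFunc' | apply hB.isInj' | apply hB.isBij' | apply hB.subset' | apply hB.pair' | apply hB.single' | apply hB.upair' | apply hB.insert' | apply hB.union'
      | apply Dfn.not | apply Dfn.and | apply Dfn.or | apply Dfn.imp | apply Dfn.iff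
      | apply hB.bex | apply hB.ball | apply Dfn.ex | apply Dfn.all
      | apply Dfn.eq | apply Dfn.mem | apply hB.pair')
  obtain ⟨c, hc, -, hcc⟩ := hM.rel_mem hXM hω (Q := fun p n => pair p n ∈ b ∨
      (p = pair a0 (nat 2) ∧ n ∈ r)) hd3
  have hb0 : ∀ a ∈ κ, ∀ x, pair x a ∈ h1 → ∀ k ∈ ZFSet.omega,
      (pair (pair a (nat 0)) k ∈ c ↔ pair x k ∈ c1) := by
    intro a ha x hx k hk
    rw [hcc, hbQ]
    constructor
    · rintro ⟨-, -, ⟨-, -, ⟨a', -, h3, x', -, h4, h5⟩ | ⟨a', -, h3, -⟩⟩ | ⟨h3, -⟩⟩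
      · obtain ⟨rfl, -⟩ := ZFSet.pair_inj.1 h3
        rw [hb1.1.2 _ _ _ hx h4]
        exact h5
      · exact absurd (ZFSet.pair_inj.1 h3).2 (nat_ne (by decide))
      · exact absurd (ZFSet.pair_inj.1 h3).2 (nat_ne (by decide))
    · intro h3
      have h4 : pair a (nat 0) ∈ X := ZFSet.pair_mem_prod.2 ⟨ha, i0⟩
      exact ⟨h4, hk, Or.inl ⟨h4, hk, Or.inl ⟨a, ha, rfl, x,
        (ZFSet.pair_mem_prod.1 (hb1.1.1.1 hx)).1, hx, h3⟩⟩⟩
  have hb1' : ∀ a ∈ κ, ∀ x, pair x a ∈ h2 → ∀ k ∈ ZFSet.omega,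
      (pair (pair a (nat 1)) k ∈ c ↔ pair x k ∈ c2) := by
    intro a ha x hx k hk
    rw [hcc, hbQ]
    constructor
    · rintro ⟨-, -, ⟨-, -, ⟨a', -, h3, -⟩ | ⟨a', -, h3, x', -, h4, h5⟩⟩ | ⟨h3, -⟩⟩
      · exact absurd (ZFSet.pair_inj.1 h3).2 (nat_ne (by decide))
      · obtain ⟨rfl, -⟩ := ZFSet.pair_inj.1 h3
        rw [hb2.1.2 _ _ _ hx h4]
        exact h5
      · exact absurd (ZFSet.pair_inj.1 h3).2 (nat_ne (by decide))
    · intro h3
      have h4 : pair a (nat 1) ∈ X := ZFSet.pair_mem_prod.2 ⟨ha, i1⟩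
      exact ⟨h4, hk, Or.inl ⟨h4, hk, Or.inr ⟨a, ha, rfl, x,
        (ZFSet.pair_mem_prod.1 (hb2.1.1.1 hx)).1, hx, h3⟩⟩⟩
  have hq : pair a0 (nat 2) ∈ X := ZFSet.pair_mem_prod.2 ⟨ha0, i2⟩
  have hbq : ∀ n, pair (pair a0 (nat 2)) n ∉ b := by
    intro n h
    obtain ⟨-, -, ⟨a', -, h3, -⟩ | ⟨a', -, h3, -⟩⟩ := (hbQ _ _).1 h
    · exact absurd (ZFSet.pair_inj.1 h3).2 (nat_ne (by decide))
    · exact absurd (ZFSet.pair_inj.1 h3).2 (nat_ne (by decide))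
  have hK : K X c := by
    refine Or.inr (Or.inr ⟨pair a0 (nat 2), hq, fun p hp hne => ?_⟩)
    obtain ⟨α, hα, hpα⟩ := isFunc_exists hebij.1.1 hp
    obtain ⟨n, hn, hn0, hn1, h3⟩ := hnew α hα
    refine ⟨n, hn, hn0, hn1, fun h4 => h3 ?_⟩
    have h5 : pair α n ∈ c'' ↔ pair p n ∈ c := by
      rw [hcQ, hcc]
      constructor
      · rintro ⟨-, -, p', -, h6, h7⟩
        rw [hebij.1.2 _ _ _ hpα h6]
        exact ⟨((hbQ _ _).1 h7).1, hn, Or.inl h7⟩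
      · rintro ⟨-, -, h6 | h6⟩
        · exact ⟨hα, hn, p, hp, hpα, h6⟩
        · exact absurd h6.1 hne
    have h6 : pair (pair a0 (nat 2)) n ∈ c ↔ n ∈ r := by
      rw [hcc]
      constructor
      · rintro ⟨-, -, h6 | h6⟩
        · exact absurd h6 (hbq n)
        · exact h6.2
      · exact fun h6 => ⟨hq, hn, Or.inr ⟨rfl, h6⟩⟩
    rw [h5, ← h4, h6]
  have hd4 : Dfn M M fun w : Fin 2 → ZFSet.{0} => ∃ a ∈ κ, pair (w 0) a ∈ h1 ∧
      w 1 = pair a (nat 0) := by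
    (repeat' first
      | assumption
      | exact DfnF.proj _
      | exact DfnF.const (by assumption)
      | exact DfnF.const' (by first | assumption | trivial) (by first | assumption | trivial)
      | exact Dfn.prop _
      | apply hB.isFunc' | apply hB.isInj' | apply hB.isBij' | apply hB.subset' | apply hB.pair' | apply hB.single' | apply hB.upair' | apply hB.insert' | apply hB.union'
      | apply Dfn.not | apply Dfn.and | apply Dfn.or | apply Dfn.imp | apply Dfn.iff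
      | apply hB.bex | apply hB.ball | apply Dfn.ex | apply Dfn.all
      | apply Dfn.eq | apply Dfn.mem | apply hB.pair')
  obtain ⟨f1, hf1, hf1s, hf1Q⟩ := hM.rel_mem hD1 hXM (Q := fun x y => ∃ a ∈ κ, pair x a ∈ h1 ∧
      y = pair a (nat 0)) hd4
  have hd5 : Dfn M M fun w : Fin 2 → ZFSet.{0} =>
      (w 0 ∈ D0 ∧ ∃ a ∈ κ, pair (w 0) a ∈ h1 ∧ w 1 = pair a (nat 0)) ∨
      (¬ w 0 ∈ D0 ∧ ∃ a ∈ κ, pair (w 0) a ∈ h2 ∧ w 1 = pair a (nat 1)) := by
    (repeat' first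
      | assumption
      | exact DfnF.proj _
      | exact DfnF.const (by assumption)
      | exact DfnF.const' (by first | assumption | trivial) (by first | assumption | trivial)
      | exact Dfn.prop _
      | apply hB.isFunc' | apply hB.isInj' | apply hB.isBij' | apply hB.subset' | apply hB.pair' | apply hB.single' | apply hB.upair' | apply hB.insert' | apply hB.union'
      | apply Dfn.not | apply Dfn.and | apply Dfn.or | apply Dfn.imp | apply Dfn.iff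
      | apply hB.bex | apply hB.ball | apply Dfn.ex | apply Dfn.all
      | apply Dfn.eq | apply Dfn.mem | apply hB.pair')
  obtain ⟨f2, hf2, hf2s, hf2Q⟩ := hM.rel_mem hD2 hXM (Q := fun x y =>
      (x ∈ D0 ∧ ∃ a ∈ κ, pair x a ∈ h1 ∧ y = pair a (nat 0)) ∨
      (¬ x ∈ D0 ∧ ∃ a ∈ κ, pair x a ∈ h2 ∧ y = pair a (nat 1))) hd5
  refine ⟨X, c, ⟨hXM, hc, hXs, (models_phi hM hXM hc).2 hK⟩, f1, hf1, f2, hf2,
    ⟨⟨⟨hf1s, ?_⟩, ?_⟩, ?_⟩, ⟨⟨⟨hf2s, ?_⟩, ?_⟩, ?_⟩, ?_⟩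
  · intro x hx
    obtain ⟨a, ha, hxa⟩ := isFunc_exists hb1.1.1 hx
    refine ⟨pair a (nat 0), (hf1Q _ _).2 ⟨hx, ZFSet.pair_mem_prod.2 ⟨ha, i0⟩, a, ha, hxa, rfl⟩,
      fun y hy => ?_⟩
    obtain ⟨-, -, a', -, h3, rfl⟩ := (hf1Q _ _).1 hy
    rw [isFunc_uniq hb1.1.1 hxa h3]
  · intro x x' y hx hx'
    obtain ⟨-, -, a, -, h3, rfl⟩ := (hf1Q _ _).1 hx
    obtain ⟨-, -, a', -, h4, h5⟩ := (hf1Q _ _).1 hx'
    rw [(ZFSet.pair_inj.1 h5).1] at h3
    exact hb1.1.2 _ _ _ h3 h4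
  · intro x y hxy k hk
    obtain ⟨-, -, a, ha, h3, rfl⟩ := (hf1Q _ _).1 hxy
    exact (hb0 a ha x h3 k hk).symm
  · intro x hx
    by_cases hx0 : x ∈ D0
    · obtain ⟨a, ha, hxa⟩ := isFunc_exists hb1.1.1 (s1.1 hx0)
      refine ⟨pair a (nat 0), (hf2Q _ _).2 ⟨hx, ZFSet.pair_mem_prod.2 ⟨ha, i0⟩,
        Or.inl ⟨hx0, a, ha, hxa, rfl⟩⟩, fun y hy => ?_⟩
      obtain ⟨-, -, ⟨-, a', -, h3, rfl⟩ | ⟨h3, -⟩⟩ := (hf2Q _ _).1 hy
      · rw [isFunc_uniq hb1.1.1 hxa h3]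
      · exact absurd hx0 h3
    · obtain ⟨a, ha, hxa⟩ := isFunc_exists hb2.1.1 hx
      refine ⟨pair a (nat 1), (hf2Q _ _).2 ⟨hx, ZFSet.pair_mem_prod.2 ⟨ha, i1⟩,
        Or.inr ⟨hx0, a, ha, hxa, rfl⟩⟩, fun y hy => ?_⟩
      obtain ⟨-, -, ⟨h3, -⟩ | ⟨-, a', -, h3, rfl⟩⟩ := (hf2Q _ _).1 hy
      · exact absurd h3 hx0
      · rw [isFunc_uniq hb2.1.1 hxa h3]
  · intro x x' y hx hx'
    obtain ⟨-, -, ⟨-, a, -, h3, rfl⟩ | ⟨-, a, -, h3, rfl⟩⟩ := (hf2Q _ _).1 hx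
    · obtain ⟨-, -, ⟨-, a', -, h4, h5⟩ | ⟨-, a', -, h4, h5⟩⟩ := (hf2Q _ _).1 hx'
      · rw [(ZFSet.pair_inj.1 h5).1] at h3
        exact hb1.1.2 _ _ _ h3 h4
      · exact absurd (ZFSet.pair_inj.1 h5).2 (nat_ne (by decide))
    · obtain ⟨-, -, ⟨-, a', -, h4, h5⟩ | ⟨-, a', -, h4, h5⟩⟩ := (hf2Q _ _).1 hx'
      · exact absurd (ZFSet.pair_inj.1 h5).2 (nat_ne (by decide))
      · rw [(ZFSet.pair_inj.1 h5).1] at h3
        exact hb2.1.2 _ _ _ h3 h4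
  · intro x y hxy k hk
    obtain ⟨-, -, ⟨hx0, a, ha, h3, rfl⟩ | ⟨-, a, ha, h3, rfl⟩⟩ := (hf2Q _ _).1 hxy
    · rw [hb0 a ha x h3 k hk, ← s2.2 x hx0 k hk, ← s1.2 x hx0 k hk]
    · exact (hb1' a ha x h3 k hk).symm
  · intro x hx0 y
    rw [hf1Q, hf2Q]
    constructor
    · rintro ⟨-, h3, h4⟩
      exact ⟨s2.1 hx0, h3, Or.inl ⟨hx0, h4⟩⟩
    · rintro ⟨-, h3, ⟨-, h4⟩ | ⟨h4, -⟩⟩
      · exact ⟨s1.1 hx0, h3, h4⟩
      · exact absurd hx0 h4

/-- The sentence has `ℵ₁` in its amalgamation spectrum if and only if `Cover` fails. -/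
theorem ap_iff {κ : ZFSet.{0}} (hκ : IsAleph1 M κ)
    (he : ∃ e ∈ M, IsBij (ZFSet.prod κ (nat 3)) κ e)
    (he1 : ∃ e ∈ M, IsBij (insert (ZFSet.prod κ (nat 3)) (ZFSet.prod κ (nat 3))) κ e) :
    Aleph1InAPSpec M phi ↔ ¬ Cover M κ :=
  ⟨fun h h' => not_ap_of_cover hM hκ he he1 h' h, ap_of_not_cover hM hκ he⟩

end

/-! ### The two extensions -/

section final

variable {P : Type} [Preorder P] [OrderTop P]

open Cardinal

theorem bij_prod (π : Pkg P) (h1 : Om1 ∈ π.Z) :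
    ∃ e ∈ π.V, IsBij (ZFSet.prod (π.hat Om1) (nat 3)) (π.hat Om1) e := by
  have h2 : ∃ f, IsBij (ZFSet.prod Om1 (nat 3)) Om1 f := by
    refine exists_isBij ?_
    rw [card_prod, card_nat, card_Om1]
    exact Cardinal.mul_eq_left (Cardinal.aleph0_lt_aleph_one).le
      ((Cardinal.natCast_lt_aleph0 (n := 3)).le.trans (Cardinal.aleph0_lt_aleph_one).le)
      (by norm_num)
  obtain ⟨e, he, h3⟩ := π.exists_bij_V (π.prod_Z h1 (π.nat_Z 3)) h1 h2
  rw [π.hat_prod h1 (π.nat_Z 3), π.hat_nat] at h3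
  exact ⟨e, he, h3⟩

theorem bij_insert (π : Pkg P) (h1 : Om1 ∈ π.Z) :
    ∃ e ∈ π.V, IsBij (insert (ZFSet.prod (π.hat Om1) (nat 3)) (ZFSet.prod (π.hat Om1) (nat 3)))
      (π.hat Om1) e := by
  have h3 : (ZFSet.prod Om1 (nat 3)).card = ℵ₁ := by
    rw [card_prod, card_nat, card_Om1]
    exact Cardinal.mul_eq_left (Cardinal.aleph0_lt_aleph_one).le
      ((Cardinal.natCast_lt_aleph0 (n := 3)).le.trans (Cardinal.aleph0_lt_aleph_one).le)
      (by norm_num)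
  have h2 : ∃ f, IsBij (insert (ZFSet.prod Om1 (nat 3)) (ZFSet.prod Om1 (nat 3))) Om1 f := by
    refine exists_isBij ?_
    rw [ZFSet.card_insert (ZFSet.mem_irrefl _), h3, card_Om1]
    exact Cardinal.add_eq_left (Cardinal.aleph0_lt_aleph_one).le
      (Cardinal.one_le_aleph0.trans (Cardinal.aleph0_lt_aleph_one).le)
  have hX := π.prod_Z h1 (π.nat_Z 3)
  obtain ⟨e, he, h4⟩ := π.exists_bij_V (π.insert_Z hX hX) h1 h2
  rw [π.hat_insert hX, π.hat_prod h1 (π.nat_Z 3), π.hat_nat] at h4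
  exact ⟨e, he, h4⟩

theorem ap_V_iff (π : Pkg P) (h1 : Om1 ∈ π.Z) (hκ : IsAleph1 π.W (π.hat Om1)) :
    Aleph1InAPSpec π.V phi ↔ ¬ Cover π.V (π.hat Om1) :=
  ap_iff π.isZF_V (aleph1_V π h1 hκ) (bij_prod π h1) (bij_insert π h1)

theorem ap_W_iff (π : Pkg P) (h1 : Om1 ∈ π.Z) (hκ : IsAleph1 π.W (π.hat Om1)) :
    Aleph1InAPSpec π.W phi ↔ ¬ Cover π.W (π.hat Om1) := by
  obtain ⟨e, he, h2⟩ := bij_prod π h1
  obtain ⟨e', he', h3⟩ := bij_insert π h1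
  exact ap_iff π.isZF_W hκ ⟨e, π.V_subset_W he, h2⟩ ⟨e', π.V_subset_W he', h3⟩

/-- The main theorem. -/
theorem main : ∃ V W : Set ZFSet.{0}, V.Countable ∧ W.Countable ∧ IsZFC V ∧ IsZFC W ∧ V ⊆ W ∧
    (∀ α : ZFSet.{0}, α.IsOrdinal → (α ∈ V ↔ α ∈ W)) ∧
    (∃ κ, IsAleph1 V κ ∧ IsAleph1 W κ) ∧
    ∃ φ ∈ V, IsSentence V φ ∧ ¬ (Aleph1InAPSpec V φ ↔ Aleph1InAPSpec W φ) := by
  by_cases hCH : (2 : Cardinal.{0}) ^ (ℵ₀ : Cardinal.{0}) = ℵ₁
  · obtain ⟨π, h1, -⟩ := exists_pkg' ({Gam Om2, check Om1, check Om2} :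
      Set (PName (Coh (Ty Om2 × ℕ)))) (Set.toFinite _).countable ⊤
    have hΓ : Gam Om2 ∈ π.N := h1 (by simp)
    have h2 : Om1 ∈ π.Z := h1 (by simp)
    have h3 : Om2 ∈ π.Z := h1 (by simp)
    have hκ := aleph1_W_of_ccc Coh.ccc π h2
    refine ⟨π.V, π.W, π.countable_W.mono π.V_subset_W, π.countable_W, π.isZFC_V, π.isZFC_W,
      π.V_subset_W, fun α hα => ⟨fun h => π.V_subset_W h, π.ord_V hα⟩,
      ⟨_, aleph1_V π h2 hκ, hκ⟩, phi, phi_mem π.isZF_V, isSentence_phi π.isZF_V, ?_⟩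
    rw [ap_V_iff π h2 hκ, ap_W_iff π h2 hκ]
    have h4 := cover_V_of_ch π h2 hCH
    have h5 := cohen_not_cover π hΓ h2 h3
    tauto
  · obtain ⟨π, h1, -⟩ := exists_pkg' ({GamC, check Om1} :
      Set (PName (Col (Ty Om1)))) (Set.toFinite _).countable ⊤
    have hΓ : GamC ∈ π.N := h1 (by simp)
    have h2 : Om1 ∈ π.Z := h1 (by simp)
    have hκ := aleph1_W_of_sclosed Col.sclosed π h2
    refine ⟨π.V, π.W, π.countable_W.mono π.V_subset_W, π.countable_W, π.isZFC_V, π.isZFC_W,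
      π.V_subset_W, fun α hα => ⟨fun h => π.V_subset_W h, π.ord_V hα⟩,
      ⟨_, aleph1_V π h2 hκ, hκ⟩, phi, phi_mem π.isZF_V, isSentence_phi π.isZF_V, ?_⟩
    rw [ap_V_iff π h2 hκ, ap_W_iff π h2 hκ]
    have h4 := not_cover_V π h2 hCH
    have h5 := coll_cover π hΓ h2
    tauto

end final

end Pool.Agent.W868
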