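import Pool.Agent.W868.Sig

/-!
# Amalgamation for the sentence
-/

set_option autoImplicit false
set_option linter.unreachableTactic false
set_option linter.unusedTactic false

namespace Pool.Agent.W868

open ZFSet (pair)

/-- The real coded by an element. -/
noncomputable def rl (J c x : ZFSet.{0}) : ZFSet.{0} :=
  ZFSet.sep (fun p => pair x (jj J (fs p) (sn p)) ∈ c) (ZFSet.prod ZFSet.omega ZFSet.omega)

theorem mem_rl {J c x k l : ZFSet.{0}} (hk : k ∈ ZFSet.omega) (hl : l ∈ ZFSet.omega) :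
    pair k l ∈ rl J c x ↔ pair x (jj J k l) ∈ c := by
  rw [rl, ZFSet.mem_sep, fs_pair, sn_pair, ZFSet.pair_mem_prod]
  exact ⟨fun h => h.2, fun h => ⟨⟨hk, hl⟩, h⟩⟩

/-- The statement about the sets of pairs of natural numbers of a model. -/
def St (ψ : Fml Empty 3) (Pw E a : ZFSet.{0}) : Prop :=
  Sg ψ (fun x => x ∈ Pw) (fun x k l => pair k l ∈ x) E a

section

variable {C : Set ZFSet.{0}} (hM : IsZF C) {e : ZFSet.{0} → ZFSet.{0}} (hg : GC C e)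
  {J E a : ZFSet.{0}} (hJ : J ∈ C) (hE : E ∈ C) (ha : a ∈ C)
  (hJi : IsInj (ZFSet.prod ZFSet.omega ZFSet.omega) ZFSet.omega J)
  {Pw : ZFSet.{0}} (hPw : Pw ∈ C)
  (hPw' : ∀ z, z ∈ Pw ↔ z ∈ C ∧ z ⊆ ZFSet.prod ZFSet.omega ZFSet.omega)
  {κ : ZFSet.{0}} (hκ : IsInfCard C κ)

include hM

include hJ in
theorem rl_mem {c x : ZFSet.{0}} (hc : c ∈ C) (hx : x ∈ C) : rl J c x ∈ C := by
  refine hM.sep_mem (Q := fun p => pair x (jj J (fs p) (sn p)) ∈ c) ?_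
    (hM.prod_mem hM.infinity hM.infinity)
  exact Dfn.mem (hM.base.pair' (DfnF.const hx) (dfn_jj hM hJ (hM.fs' (DfnF.proj 0))
    (hM.sn' (DfnF.proj 0)))) (DfnF.const hc)

include hJ hE ha hJi in
theorem modK_iff {ψ : Fml Empty 3} {D c : ZFSet.{0}} :
    ModK C κ (cdB J E a (fPhi ψ) Fin.elim0) D c ↔
      D ∈ C ∧ c ∈ C ∧ Bij C D κ ∧ KK ψ J E a D c := by
  constructor
  · rintro ⟨h1, h2, h3, h4⟩
    rw [models_cdB hM hJ hE ha hJi _ h1 h2, bsat_phi] at h4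
    exact ⟨h1, h2, h3, h4⟩
  · rintro ⟨h1, h2, h3, h4⟩
    refine ⟨h1, h2, h3, ?_⟩
    rw [models_cdB hM hJ hE ha hJi _ h1 h2, bsat_phi]
    exact h4

include hJ hE ha hJi hκ in
/-- There are models of size `κ`. -/
theorem exists_modK {ψ : Fml Empty 3} :
    ∃ D c, ModK C κ (cdB J E a (fPhi ψ) Fin.elim0) D c := by
  have hid : Inj C κ κ := Inj.of_subset hM hκ.1.1 hκ.1.1 fun _ h => h
  refine ⟨κ, ∅, (modK_iff hM hJ hE ha hJi).2 ⟨hκ.1.1, hM.empty_mem,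
    bij_card' hM hκ.1.1 hκ.1 hid hid, ?_⟩⟩
  rintro ⟨⟨x, -, h⟩, -⟩
  exact ZFSet.notMem_empty _ h

/-- The identity function. -/
theorem idf {x y : ZFSet.{0}} (hx : x ∈ C) (h : x ⊆ y) :
    gr (fun u => u) x ∈ C ∧ IsInj x y (gr (fun u => u) x) := by
  refine ⟨hM.im_mem hx (h := fun u => pair u u) (hM.base.pair' (DfnF.proj 0) (DfnF.proj 0)),
    ⟨⟨fun p hp => ?_, fun z hz => ?_⟩, fun u u' w h1 h2 => ?_⟩⟩
  · obtain ⟨u, hu, rfl⟩ := mem_gr.1 hp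
    exact ZFSet.pair_mem_prod.2 ⟨hu, h hu⟩
  · exact ⟨z, pair_mem_gr.2 ⟨hz, rfl⟩, fun w hw => (pair_mem_gr.1 hw).2⟩
  · rw [← (pair_mem_gr.1 h1).2, ← (pair_mem_gr.1 h2).2]

include hg hJ hE ha hJi hPw hPw' hκ in
/-- If the statement is true, amalgamation fails. -/
theorem not_ap {ψ : Fml Empty 3} (hPκ : Inj C Pw κ) (hSt : St ψ Pw E a) :
    ¬ AP C κ (cdB J E a (fPhi ψ) Fin.elim0) := by
  have hB := hM.base
  have hκC := hκ.1.1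
  have hκo := hκ.1.2.1
  have hω := hκ.2
  have hom := hM.infinity
  set X : ZFSet.{0} := Pw ∪ κ with hX
  have hXC : X ∈ C := hM.union_mem hPw hκC
  have hXX : (insert X X : ZFSet.{0}) ∈ C := hM.insert_mem hXC hXC
  have hPX : Pw ⊆ X := fun _ h => ZFSet.mem_union.2 (Or.inl h)
  have hκX : κ ⊆ X := fun _ h => ZFSet.mem_union.2 (Or.inr h)
  have hid : Inj C κ κ := Inj.of_subset hM hκC hκC fun _ h => h
  have hXκ : Inj C X κ := Inj.union hM hg hκC hκo hω hPw hκC hPκ hid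
  have hXb : Bij C X κ := bij_card' hM hXC hκ.1 hXκ (Inj.of_subset hM hκC hXC hκX)
  have hXXb : Bij C (insert X X : ZFSet.{0}) κ :=
    bij_card' hM hXX hκ.1 (Inj.insert hM hg hκC hκo hω hXC hXC hXκ)
      (Inj.of_subset hM hκC hXX fun _ h => ZFSet.mem_insert_of_mem _ (hκX h))
  have h2C := sq_mem hM hJ 2
  have hQ : Dfn C C fun w : Fin 1 → ZFSet.{0} => ∃ r ∈ Pw, fs (w 0) = r ∧ (sn (w 0) = sq J 2 ∨
      ∃ k ∈ ZFSet.omega, ∃ l ∈ ZFSet.omega, pair k l ∈ r ∧ sn (w 0) = jj J k l) := by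
    apply hB.bex (DfnF.const hPw)
    apply Dfn.and
    · exact Dfn.eq (hM.fs' (DfnF.proj 1)) (DfnF.proj 0)
    apply Dfn.or
    · exact Dfn.eq (hM.sn' (DfnF.proj 1)) (DfnF.const h2C)
    apply hB.bex (DfnF.const hom)
    apply hB.bex (DfnF.const hom)
    apply Dfn.and
    · exact Dfn.mem (hB.pair' (DfnF.proj 1) (DfnF.proj 0)) (DfnF.proj 2)
    · exact Dfn.eq (hM.sn' (DfnF.proj 3)) (dfn_jj hM hJ (DfnF.proj 1) (DfnF.proj 0))
  set c0 : ZFSet.{0} := ZFSet.sep (fun p => ∃ r ∈ Pw, fs p = r ∧ (sn p = sq J 2 ∨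
      ∃ k ∈ ZFSet.omega, ∃ l ∈ ZFSet.omega, pair k l ∈ r ∧ sn p = jj J k l))
      (ZFSet.prod X ZFSet.omega) with hc0
  have hc0C : c0 ∈ C := hM.sep_mem (Q := fun p => ∃ r ∈ Pw, fs p = r ∧ (sn p = sq J 2 ∨
      ∃ k ∈ ZFSet.omega, ∃ l ∈ ZFSet.omega, pair k l ∈ r ∧ sn p = jj J k l)) hQ
      (hM.prod_mem hXC hom)
  have m0 : ∀ x i, pair x i ∈ c0 ↔ x ∈ Pw ∧ i ∈ ZFSet.omega ∧ (i = sq J 2 ∨
      ∃ k ∈ ZFSet.omega, ∃ l ∈ ZFSet.omega, pair k l ∈ x ∧ i = jj J k l) := by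
    intro x i
    rw [hc0, ZFSet.mem_sep, fs_pair, sn_pair, ZFSet.pair_mem_prod]
    constructor
    · rintro ⟨⟨-, h1⟩, r, hr, rfl, h2⟩
      exact ⟨hr, h1, h2⟩
    · rintro ⟨h1, h2, h3⟩
      exact ⟨⟨hPX h1, h2⟩, x, h1, rfl, h3⟩
  have m0A : ∀ x ∈ Pw, pair x (sq J 2) ∈ c0 := fun x hx =>
    (m0 _ _).2 ⟨hx, sq_omega hJi 2, Or.inl rfl⟩
  have m0R : ∀ x ∈ Pw, ∀ k ∈ ZFSet.omega, ∀ l ∈ ZFSet.omega,
      (pair x (jj J k l) ∈ c0 ↔ pair k l ∈ x) := by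
    intro x hx k hk l hl
    rw [m0]
    constructor
    · rintro ⟨-, -, h | ⟨k', hk', l', hl', h1, h2⟩⟩
      · exact absurd h (jj_ne_sq hJi hk hl 2)
      · obtain ⟨rfl, rfl⟩ := jj_inj hJi hk hl hk' hl' h2
        exact h1
    · exact fun h => ⟨hx, jj_omega hJi hk hl, Or.inr ⟨k, hk, l, hl, h, rfl⟩⟩
  have m0S : ∀ i, i ≠ 2 → ∀ x, pair x (sq J i) ∉ c0 := by
    intro i hi x h
    rcases ((m0 _ _).1 h).2.2 with h1 | ⟨k, hk, l, hl, -, h1⟩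
    · exact hi (sq_inj' hJi h1)
    · exact jj_ne_sq hJi hk hl i h1.symm
  have mi : ∀ i x j, pair x j ∈ (insert (pair X (sq J i)) c0 : ZFSet.{0}) ↔
      (x = X ∧ j = sq J i) ∨ pair x j ∈ c0 := by
    intro i x j
    rw [ZFSet.mem_insert_iff, ZFSet.pair_inj]
  have hci : ∀ i, (insert (pair X (sq J i)) c0 : ZFSet.{0}) ∈ C := fun i =>
    hM.insert_mem (hM.pair_mem hXC (sq_mem hM hJ i)) hc0C
  -- the three models
  have hM0 : ModK C κ (cdB J E a (fPhi ψ) Fin.elim0) X c0 := by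
    rw [modK_iff hM hJ hE ha hJi]
    refine ⟨hXC, hc0C, hXb, ?_⟩
    rintro ⟨⟨x, -, h⟩, -⟩
    exact m0S 0 (by decide) x h
  have hM1 : ModK C κ (cdB J E a (fPhi ψ) Fin.elim0) (insert X X)
      (insert (pair X (sq J 0)) c0) := by
    rw [modK_iff hM hJ hE ha hJi]
    refine ⟨hXX, hci 0, hXXb, ?_⟩
    rintro ⟨-, ⟨x, -, h⟩, -⟩
    rcases (mi _ _ _).1 h with ⟨-, h⟩ | h
    · exact absurd (sq_inj' hJi h) (by decide)
    · exact m0S 1 (by decide) x h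
  have hM2 : ModK C κ (cdB J E a (fPhi ψ) Fin.elim0) (insert X X)
      (insert (pair X (sq J 1)) c0) := by
    rw [modK_iff hM hJ hE ha hJi]
    refine ⟨hXX, hci 1, hXXb, ?_⟩
    rintro ⟨⟨x, -, h⟩, -⟩
    rcases (mi _ _ _).1 h with ⟨-, h⟩ | h
    · exact absurd (sq_inj' hJi h) (by decide)
    · exact m0S 0 (by decide) x h
  obtain ⟨hfC, hfi⟩ := idf hM hXC (y := (insert X X : ZFSet.{0}))
    (fun _ h => ZFSet.mem_insert_of_mem _ h)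
  have hemb : ∀ i, IsEmb X c0 (insert X X) (insert (pair X (sq J i)) c0) (gr (fun u => u) X) := by
    intro i
    refine ⟨hfi, fun x y hxy k hk => ?_⟩
    obtain ⟨hx, rfl⟩ := pair_mem_gr.1 hxy
    rw [mi]
    constructor
    · exact Or.inr
    · rintro (⟨h, -⟩ | h)
      · exact absurd (h ▸ hx) (ZFSet.mem_irrefl _)
      · exact h
  intro hAP
  obtain ⟨D, c, g1, g2, hmod, hg1, hg2, he1, he2, -⟩ :=
    hAP X c0 _ _ _ _ _ _ hM0 hM1 hM2 hfC hfC (hemb 0) (hemb 1)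
  rw [modK_iff hM hJ hE ha hJi] at hmod
  obtain ⟨hD, hc, -, hK⟩ := hmod
  -- the reals are realized
  have hreal : ∀ r ∈ Pw, ∃ y ∈ D, pair y (sq J 2) ∈ c ∧ ∀ k ∈ ZFSet.omega, ∀ l ∈ ZFSet.omega,
      (pair k l ∈ r ↔ pair y (jj J k l) ∈ c) := by
    intro r hr
    have hrX := hPX hr
    have hne : r ≠ X := fun h => ZFSet.mem_irrefl _ (h ▸ hrX)
    obtain ⟨y, hy, h1⟩ := fun_exists he1.1.1 (ZFSet.mem_insert_of_mem X hrX)
    have h2 := he1.2 _ _ h1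
    have h3 : ∀ k, (pair r k ∈ (insert (pair X (sq J 0)) c0 : ZFSet.{0}) ↔ pair r k ∈ c0) := by
      intro k
      rw [mi]
      exact ⟨fun h => h.resolve_left fun h => hne h.1, Or.inr⟩
    refine ⟨y, hy, ?_, fun k hk l hl => ?_⟩
    · rw [← h2 _ (sq_omega hJi 2), h3]
      exact m0A r hr
    · rw [← h2 _ (jj_omega hJi hk hl), h3]
      exact (m0R r hr k hk l hl).symm
  have hrlP : ∀ x ∈ D, rl J c x ∈ Pw := by
    intro x hx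
    refine (hPw' _).2 ⟨rl_mem hM hJ hc (hM.trans _ hD _ hx), fun p hp => (ZFSet.mem_sep.1 hp).1⟩
  refine hK ⟨?_, ?_, ?_, ?_⟩
  · obtain ⟨y, hy, h1⟩ := fun_exists he1.1.1 (ZFSet.mem_insert X X)
    refine ⟨y, hy, ?_⟩
    rw [← he1.2 _ _ h1 _ (sq_omega hJi 0), mi]
    exact Or.inl ⟨rfl, rfl⟩
  · obtain ⟨y, hy, h1⟩ := fun_exists he2.1.1 (ZFSet.mem_insert X X)
    refine ⟨y, hy, ?_⟩
    rw [← he2.2 _ _ h1 _ (sq_omega hJi 1), mi]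
    exact Or.inl ⟨rfl, rfl⟩
  · rintro ⟨x, hx, -, h⟩
    obtain ⟨y, hy, h1, h2⟩ := hreal _ (hrlP x hx)
    obtain ⟨k, hk, l, hl, h3⟩ := h y hy h1
    apply h3
    rw [← h2 k hk l hl, mem_rl hk hl]
  · refine sg_congr ?_ ?_ hSt
    · intro r hr
      obtain ⟨y, hy, h1, h2⟩ := hreal r hr
      exact ⟨y, ⟨hy, h1⟩, h2⟩
    · rintro x ⟨hx, -⟩
      exact ⟨rl J c x, hrlP x hx, fun k hk l hl => mem_rl hk hl⟩

include hg hJ hE ha hJi hPw hPw' hκ in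
/-- If the statement is false, amalgamation holds. -/
theorem ap_of_not {ψ : Fml Empty 3} (hSt : ¬ St ψ Pw E a) :
    AP C κ (cdB J E a (fPhi ψ) Fin.elim0) := by
  have hB := hM.base
  have hκC := hκ.1.1
  have hκo := hκ.1.2.1
  have hω := hκ.2
  have hom := hM.infinity
  have n0 := hM.empty_mem
  have n1 := hM.nat_mem 1
  have n2 := hM.nat_mem 2
  intro D0 c0 D1 c1 D2 c2 f1 f2 hm0 hm1 hm2 hf1 hf2 he1 he2
  rw [modK_iff hM hJ hE ha hJi] at hm0 hm1 hm2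
  obtain ⟨hD0, hc0, hb0, hK0⟩ := hm0
  obtain ⟨hD1, hc1, hb1, hK1⟩ := hm1
  obtain ⟨hD2, hc2, hb2, hK2⟩ := hm2
  have d12 : (nat 1 : ZFSet.{0}) ≠ nat 2 := nat_ne (by decide)
  have d01 : (∅ : ZFSet.{0}) ≠ nat 1 := nat_ne (m := 0) (n := 1) (by decide)
  have d02 : (∅ : ZFSet.{0}) ≠ nat 2 := nat_ne (m := 0) (n := 2) (by decide)
  -- the new real
  obtain ⟨r, hr, hr'⟩ : ∃ r ∈ Pw, (∀ d c, (d ∈ D1 ∧ c = c1 ∨ d ∈ D2 ∧ c = c2) →
      pair d (sq J 2) ∈ c → ¬ ∀ k ∈ ZFSet.omega, ∀ l ∈ ZFSet.omega,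
        (pair k l ∈ r ↔ pair d (jj J k l) ∈ c)) ∨
      ∀ r ∈ Pw, ∃ d c, (d ∈ D1 ∧ c = c1 ∨ d ∈ D2 ∧ c = c2) ∧
      pair d (sq J 2) ∈ c ∧ ∀ k ∈ ZFSet.omega, ∀ l ∈ ZFSet.omega,
        (pair k l ∈ r ↔ pair d (jj J k l) ∈ c) := by
    by_cases h : ∃ r ∈ Pw, ∀ d c, (d ∈ D1 ∧ c = c1 ∨ d ∈ D2 ∧ c = c2) →
      pair d (sq J 2) ∈ c → ¬ ∀ k ∈ ZFSet.omega, ∀ l ∈ ZFSet.omega,
        (pair k l ∈ r ↔ pair d (jj J k l) ∈ c)
    · obtain ⟨r, hr, h1⟩ := h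
      exact ⟨r, hr, Or.inl h1⟩
    · refine ⟨∅, (hPw' _).2 ⟨n0, ZFSet.empty_subset _⟩, Or.inr fun r hr => ?_⟩
      by_contra h1
      exact h ⟨r, hr, fun d c h2 h3 h4 => h1 ⟨d, c, h2, h3, h4⟩⟩
  have hrC := hM.trans _ hPw _ hr
  -- the set D
  have hQ2 : Dfn C C fun w : Fin 1 → ZFSet.{0} => ¬ ∃ u ∈ D0, pair u (w 0) ∈ f2 := by
    (repeat' first
      | assumption
      | exact DfnF.proj _
      | exact DfnF.const (by assumption)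
      | exact DfnF.const' (by first | assumption | trivial) (by first | assumption | trivial)
      | exact Dfn.prop _
      | apply Dfn.not | apply Dfn.and | apply Dfn.or | apply Dfn.imp | apply Dfn.iff
      | apply hB.bex | apply hB.ball | apply Dfn.ex | apply Dfn.all
      | apply Dfn.eq | apply Dfn.mem | apply hB.pair')
  set D2' : ZFSet.{0} := ZFSet.sep (fun x => ¬ ∃ u ∈ D0, pair u x ∈ f2) D2 with hD2'
  have hD2C : D2' ∈ C := hM.sep_mem (Q := fun x => ¬ ∃ u ∈ D0, pair u x ∈ f2) hQ2 hD2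
  have hX1 := hM.prod_mem hD1 (hM.single_mem n0)
  have hX2 := hM.prod_mem hD2C (hM.single_mem n1)
  have hX3 := hM.single_mem (hM.pair_mem n0 n2)
  set D : ZFSet.{0} := ZFSet.prod D1 {∅} ∪ (ZFSet.prod D2' {nat 1} ∪ {pair ∅ (nat 2)}) with hD
  have hX23 := hM.union_mem hX2 hX3
  have hDC : D ∈ C := hM.union_mem hX1 hX23
  have mD : ∀ y, y ∈ D ↔ (∃ x ∈ D1, y = pair x ∅) ∨ (∃ x ∈ D2', y = pair x (nat 1)) ∨
      y = pair ∅ (nat 2) := by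
    intro y
    rw [hD, ZFSet.mem_union, ZFSet.mem_union, ZFSet.mem_singleton, ZFSet.mem_prod, ZFSet.mem_prod]
    simp only [ZFSet.mem_singleton, exists_eq_left]
  -- its structure
  have hQc : Dfn C C fun w : Fin 1 → ZFSet.{0} =>
      (∃ x ∈ D1, fs (w 0) = pair x ∅ ∧ pair x (sn (w 0)) ∈ c1) ∨
      (∃ x ∈ D2, fs (w 0) = pair x (nat 1) ∧ pair x (sn (w 0)) ∈ c2) ∨
      (fs (w 0) = pair ∅ (nat 2) ∧ ∃ k ∈ ZFSet.omega, ∃ l ∈ ZFSet.omega, pair k l ∈ r ∧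
        sn (w 0) = jj J k l) := by
    apply Dfn.or
    · apply hB.bex (DfnF.const hD1)
      apply Dfn.and
      · exact Dfn.eq (hM.fs' (DfnF.proj 1)) (hB.pair' (DfnF.proj 0) (DfnF.const n0))
      · exact Dfn.mem (hB.pair' (DfnF.proj 0) (hM.sn' (DfnF.proj 1))) (DfnF.const hc1)
    apply Dfn.or
    · apply hB.bex (DfnF.const hD2)
      apply Dfn.and
      · exact Dfn.eq (hM.fs' (DfnF.proj 1)) (hB.pair' (DfnF.proj 0) (DfnF.const n1))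
      · exact Dfn.mem (hB.pair' (DfnF.proj 0) (hM.sn' (DfnF.proj 1))) (DfnF.const hc2)
    apply Dfn.and
    · exact Dfn.eq (hM.fs' (DfnF.proj 0)) (hB.pair' (DfnF.const n0) (DfnF.const n2))
    apply hB.bex (DfnF.const hom)
    apply hB.bex (DfnF.const hom)
    apply Dfn.and
    · exact Dfn.mem (hB.pair' (DfnF.proj 1) (DfnF.proj 0)) (DfnF.const hrC)
    · exact Dfn.eq (hM.sn' (DfnF.proj 2)) (dfn_jj hM hJ (DfnF.proj 1) (DfnF.proj 0))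
  set c : ZFSet.{0} := ZFSet.sep (fun p =>
      (∃ x ∈ D1, fs p = pair x ∅ ∧ pair x (sn p) ∈ c1) ∨
      (∃ x ∈ D2, fs p = pair x (nat 1) ∧ pair x (sn p) ∈ c2) ∨
      (fs p = pair ∅ (nat 2) ∧ ∃ k ∈ ZFSet.omega, ∃ l ∈ ZFSet.omega, pair k l ∈ r ∧
        sn p = jj J k l)) (ZFSet.prod D ZFSet.omega) with hcdef
  have hcC : c ∈ C := hM.sep_mem (Q := fun p =>
      (∃ x ∈ D1, fs p = pair x ∅ ∧ pair x (sn p) ∈ c1) ∨
      (∃ x ∈ D2, fs p = pair x (nat 1) ∧ pair x (sn p) ∈ c2) ∨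
      (fs p = pair ∅ (nat 2) ∧ ∃ k ∈ ZFSet.omega, ∃ l ∈ ZFSet.omega, pair k l ∈ r ∧
        sn p = jj J k l)) hQc (hM.prod_mem hDC hom)
  have mc1 : ∀ x ∈ D1, ∀ i ∈ ZFSet.omega, (pair (pair x ∅) i ∈ c ↔ pair x i ∈ c1) := by
    intro x hx i hi
    rw [hcdef, ZFSet.mem_sep, fs_pair, sn_pair, ZFSet.pair_mem_prod]
    constructor
    · rintro ⟨-, ⟨x', -, h1, h2⟩ | ⟨x', -, h1, -⟩ | ⟨h1, -⟩⟩
      · obtain ⟨rfl, -⟩ := ZFSet.pair_inj.1 h1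
        exact h2
      · exact absurd (ZFSet.pair_inj.1 h1).2 d01
      · exact absurd (ZFSet.pair_inj.1 h1).2 d02
    · exact fun h => ⟨⟨(mD _).2 (Or.inl ⟨x, hx, rfl⟩), hi⟩, Or.inl ⟨x, hx, rfl, h⟩⟩
  have mc2 : ∀ x ∈ D2', ∀ i ∈ ZFSet.omega, (pair (pair x (nat 1)) i ∈ c ↔ pair x i ∈ c2) := by
    intro x hx i hi
    rw [hcdef, ZFSet.mem_sep, fs_pair, sn_pair, ZFSet.pair_mem_prod]
    constructor
    · rintro ⟨-, ⟨x', -, h1, h2⟩ | ⟨x', -, h1, h2⟩ | ⟨h1, -⟩⟩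
      · exact absurd (ZFSet.pair_inj.1 h1).2 d01.symm
      · obtain ⟨rfl, -⟩ := ZFSet.pair_inj.1 h1
        exact h2
      · exact absurd (ZFSet.pair_inj.1 h1).2 d12
    · exact fun h => ⟨⟨(mD _).2 (Or.inr (Or.inl ⟨x, hx, rfl⟩)), hi⟩,
        Or.inr (Or.inl ⟨x, (ZFSet.mem_sep.1 hx).1, rfl, h⟩)⟩
  have mc3 : ∀ i ∈ ZFSet.omega, (pair (pair ∅ (nat 2)) i ∈ c ↔ ∃ k ∈ ZFSet.omega,
      ∃ l ∈ ZFSet.omega, pair k l ∈ r ∧ i = jj J k l) := by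
    intro i hi
    rw [hcdef, ZFSet.mem_sep, fs_pair, sn_pair, ZFSet.pair_mem_prod]
    constructor
    · rintro ⟨-, ⟨x', -, h1, h2⟩ | ⟨x', -, h1, h2⟩ | ⟨-, h2⟩⟩
      · exact absurd (ZFSet.pair_inj.1 h1).2 d02.symm
      · exact absurd (ZFSet.pair_inj.1 h1).2 d12.symm
      · exact h2
    · exact fun h => ⟨⟨(mD _).2 (Or.inr (Or.inr rfl)), hi⟩, Or.inr (Or.inr ⟨rfl, h⟩)⟩
  -- the first embedding
  have hgi1 : DfnF C C fun w : Fin 1 → ZFSet.{0} => pair (w 0) ∅ :=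
    hB.pair' (DfnF.proj 0) (DfnF.const n0)
  set g1 : ZFSet.{0} := gr (fun x => pair x ∅) D1 with hg1
  have hg1C : g1 ∈ C := hM.im_mem hD1 (h := fun x => pair x (pair x ∅))
    (hB.pair' (DfnF.proj 0) hgi1)
  have hE1 : IsEmb D1 c1 D c g1 := by
    refine ⟨⟨⟨fun p hp => ?_, fun z hz => ?_⟩, fun u u' w h1 h2 => ?_⟩, fun x y hxy k hk => ?_⟩
    · obtain ⟨u, hu, rfl⟩ := mem_gr.1 hp
      exact ZFSet.pair_mem_prod.2 ⟨hu, (mD _).2 (Or.inl ⟨u, hu, rfl⟩)⟩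
    · exact ⟨_, pair_mem_gr.2 ⟨hz, rfl⟩, fun w hw => (pair_mem_gr.1 hw).2⟩
    · have h3 := (pair_mem_gr.1 h1).2.symm.trans (pair_mem_gr.1 h2).2
      exact (ZFSet.pair_inj.1 h3).1
    · obtain ⟨hx, rfl⟩ := pair_mem_gr.1 hxy
      exact (mc1 x hx k hk).symm
  -- the second embedding
  have hR2 : Dfn C C fun w : Fin 2 → ZFSet.{0} =>
      ((¬ ∃ u ∈ D0, pair u (w 0) ∈ f2) ∧ w 1 = pair (w 0) (nat 1)) ∨
      ∃ u ∈ D0, pair u (w 0) ∈ f2 ∧ ∃ z ∈ D1, pair u z ∈ f1 ∧ w 1 = pair z ∅ := by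
    (repeat' first
      | assumption
      | exact DfnF.proj _
      | exact DfnF.const (by assumption)
      | exact DfnF.const' (by first | assumption | trivial) (by first | assumption | trivial)
      | exact Dfn.prop _
      | apply Dfn.not | apply Dfn.and | apply Dfn.or | apply Dfn.imp | apply Dfn.iff
      | apply hB.bex | apply hB.ball | apply Dfn.ex | apply Dfn.all
      | apply Dfn.eq | apply Dfn.mem | apply hB.pair')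
  have hex2 : ∀ x ∈ D2, ∃ y ∈ D, ((¬ ∃ u ∈ D0, pair u x ∈ f2) ∧ y = pair x (nat 1)) ∨
      ∃ u ∈ D0, pair u x ∈ f2 ∧ ∃ z ∈ D1, pair u z ∈ f1 ∧ y = pair z ∅ := by
    intro x hx
    by_cases h : ∃ u ∈ D0, pair u x ∈ f2
    · obtain ⟨u, hu, h1⟩ := h
      obtain ⟨z, hz, h2⟩ := fun_exists he1.1.1 hu
      exact ⟨pair z ∅, (mD _).2 (Or.inl ⟨z, hz, rfl⟩), Or.inr ⟨u, hu, h1, z, hz, h2, rfl⟩⟩
    · exact ⟨pair x (nat 1), (mD _).2 (Or.inr (Or.inl ⟨x, ZFSet.mem_sep.2 ⟨hx, h⟩, rfl⟩)),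
        Or.inl ⟨h, rfl⟩⟩
  obtain ⟨g2, hg2C, hg2i, hg2⟩ := inj_of_rel hM hD2 hDC (R := fun x y =>
      ((¬ ∃ u ∈ D0, pair u x ∈ f2) ∧ y = pair x (nat 1)) ∨
      ∃ u ∈ D0, pair u x ∈ f2 ∧ ∃ z ∈ D1, pair u z ∈ f1 ∧ y = pair z ∅) hR2 hex2 (by
      rintro x - y - y' - (⟨h1, rfl⟩ | ⟨u, hu, h1, z, hz, h2, rfl⟩)
        (⟨h3, rfl⟩ | ⟨u', hu', h3, z', hz', h4, rfl⟩)
      · rfl
      · exact absurd ⟨u', hu', h3⟩ h1
      · exact absurd ⟨u, hu, h1⟩ h3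
      · obtain rfl := he2.1.2 _ _ _ h1 h3
        rw [fun_unique he1.1.1 h2 h4]) (by
      rintro x - x' - y - (⟨h1, rfl⟩ | ⟨u, hu, h1, z, hz, h2, rfl⟩)
        (⟨h3, h5⟩ | ⟨u', hu', h3, z', hz', h4, h5⟩)
      · exact (ZFSet.pair_inj.1 h5).1
      · exact absurd (ZFSet.pair_inj.1 h5).2.symm d01
      · exact absurd (ZFSet.pair_inj.1 h5).2 d01
      · obtain ⟨rfl, -⟩ := ZFSet.pair_inj.1 h5
        obtain rfl := he1.1.2 _ _ _ h2 h4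
        exact fun_unique he2.1.1 h1 h3)
  have hE2 : IsEmb D2 c2 D c g2 := by
    refine ⟨hg2i, fun x y hxy k hk => ?_⟩
    obtain ⟨hx, -, ⟨h1, rfl⟩ | ⟨u, hu, h1, z, hz, h2, rfl⟩⟩ := (hg2 _ _).1 hxy
    · exact (mc2 x (ZFSet.mem_sep.2 ⟨hx, h1⟩) k hk).symm
    · rw [mc1 z hz k hk, ← he1.2 _ _ h2 k hk, he2.2 _ _ h1 k hk]
  -- the size
  have hDκ : Inj C D κ := by
    have hfs : DfnF C C fun w : Fin 1 → ZFSet.{0} => fs (w 0) := hM.fs' (DfnF.proj 0)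
    have hp : ∀ {x y : ZFSet.{0}}, x ∈ C → y ∈ C → Inj C x κ → Inj C (ZFSet.prod x {y}) κ := by
      intro x y hx hy h
      refine Inj.trans hM (hM.prod_mem hx (hM.single_mem hy)) hκC
        (Inj.of_fun hM (hM.prod_mem hx (hM.single_mem hy)) hx (h := fs) hfs ?_ ?_) h
      · intro p hp
        obtain ⟨u, hu, w, -, rfl⟩ := ZFSet.mem_prod.1 hp
        rwa [fs_pair]
      · intro p hp p' hp' h1
        obtain ⟨u, hu, w, hw, rfl⟩ := ZFSet.mem_prod.1 hp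
        obtain ⟨u', hu', w', hw', rfl⟩ := ZFSet.mem_prod.1 hp'
        rw [fs_pair, fs_pair] at h1
        rw [ZFSet.mem_singleton] at hw hw'
        rw [h1, hw, hw']
    have i1 := hp hD1 n0 hb1.inj
    have i2 := hp hD2C n1 (inj_mono hM hD2C hD2 hκC (fun x hx => (ZFSet.mem_sep.1 hx).1) hb2.inj)
    have i3 := Inj.single hM hg hκC hκo hω (hM.pair_mem n0 n2)
    exact Inj.union hM hg hκC hκo hω hX1 hX23 i1 (Inj.union hM hg hκC hκo hω hX2 hX3 i2 i3)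
  have hκD : Inj C κ D := Inj.trans hM hκC hDC (hb1.symm hM hD1 hκC).inj ⟨g1, hg1C, hE1.1⟩
  refine ⟨D, c, g1, g2, ?_, hg1C, hg2C, hE1, hE2, ?_⟩
  · rw [modK_iff hM hJ hE ha hJi]
    refine ⟨hDC, hcC, bij_card' hM hDC hκ.1 hDκ hκD, ?_⟩
    rintro ⟨-, -, hnew, hSg⟩
    rcases hr' with hr' | hr'
    · apply hnew
      refine ⟨pair ∅ (nat 2), (mD _).2 (Or.inr (Or.inr rfl)), ?_, fun y hy hyA => ?_⟩
      · rw [mc3 _ (sq_omega hJi 2)]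
        rintro ⟨k, hk, l, hl, -, h⟩
        exact jj_ne_sq hJi hk hl 2 h.symm
      · by_contra hcon
        have h1 : ∀ k ∈ ZFSet.omega, ∀ l ∈ ZFSet.omega,
            (pair k l ∈ r ↔ pair y (jj J k l) ∈ c) := by
          intro k hk l hl
          have h2 : pair (pair ∅ (nat 2)) (jj J k l) ∈ c ↔ pair k l ∈ r := by
            rw [mc3 _ (jj_omega hJi hk hl)]
            constructor
            · rintro ⟨k', hk', l', hl', h3, h4⟩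
              obtain ⟨rfl, rfl⟩ := jj_inj hJi hk hl hk' hl' h4
              exact h3
            · exact fun h => ⟨k, hk, l, hl, h, rfl⟩
          rw [← h2]
          by_contra h3
          exact hcon ⟨k, hk, l, hl, h3⟩
        rcases (mD _).1 hy with ⟨x, hx, rfl⟩ | ⟨x, hx, rfl⟩ | rfl
        · rw [mc1 x hx _ (sq_omega hJi 2)] at hyA
          refine hr' x c1 (Or.inl ⟨hx, rfl⟩) hyA fun k hk l hl => ?_
          rw [h1 k hk l hl, mc1 x hx _ (jj_omega hJi hk hl)]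
        · rw [mc2 x hx _ (sq_omega hJi 2)] at hyA
          refine hr' x c2 (Or.inr ⟨(ZFSet.mem_sep.1 hx).1, rfl⟩) hyA fun k hk l hl => ?_
          rw [h1 k hk l hl, mc2 x hx _ (jj_omega hJi hk hl)]
        · rw [mc3 _ (sq_omega hJi 2)] at hyA
          obtain ⟨k, hk, l, hl, -, h⟩ := hyA
          exact jj_ne_sq hJi hk hl 2 h.symm
    · apply hSt
      refine sg_congr ?_ ?_ hSg
      · rintro x ⟨hx, -⟩
        exact ⟨rl J c x, (hPw' _).2 ⟨rl_mem hM hJ hcC (hM.trans _ hDC _ hx),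
          fun p hp => (ZFSet.mem_sep.1 hp).1⟩, fun k hk l hl => (mem_rl hk hl).symm⟩
      · intro r' hr1
        obtain ⟨d, c', hd, hdA, hdR⟩ := hr' r' hr1
        have key : ∀ (D' g : ZFSet.{0}), d ∈ D' → IsEmb D' c' D c g → ∃ x,
            (x ∈ D ∧ pair x (sq J 2) ∈ c) ∧ ∀ k ∈ ZFSet.omega, ∀ l ∈ ZFSet.omega,
              (pair x (jj J k l) ∈ c ↔ pair k l ∈ r') := by
          intro D' g hdD hEg
          obtain ⟨x, hx, h1⟩ := fun_exists hEg.1.1 hdD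
          refine ⟨x, ⟨hx, (hEg.2 _ _ h1 _ (sq_omega hJi 2)).1 hdA⟩, fun k hk l hl => ?_⟩
          rw [hdR k hk l hl, hEg.2 _ _ h1 _ (jj_omega hJi hk hl)]
        rcases hd with ⟨hd, rfl⟩ | ⟨hd, rfl⟩
        · exact key D1 g1 hd hE1
        · exact key D2 g2 hd hE2
  · intro x u w y z h1 h2 h3 h4
    obtain ⟨-, rfl⟩ := pair_mem_gr.1 h3
    obtain ⟨-, -, ⟨h5, -⟩ | ⟨u', hu', h5, z', hz', h6, rfl⟩⟩ := (hg2 _ _).1 h4
    · exact absurd ⟨x, (ZFSet.pair_mem_prod.1 (he2.1.1.1 h2)).1, h2⟩ h5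
    · obtain rfl := he2.1.2 _ _ _ h2 h5
      rw [fun_unique he1.1.1 h1 h6]

end

end Pool.Agent.W868
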