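import Pool.Agent.W868.Gch

/-!
# Infinitary formulas about countably many numbers and reals
-/

set_option autoImplicit false
set_option linter.unreachableTactic false
set_option linter.unusedTactic false

namespace Pool.Agent.W868

open ZFSet (pair)

/-- Formulas with `n` variables for numbers and `m` variables for elements. -/
inductive BF : ℕ → ℕ → Type
  | sp {n m : ℕ} (a : ℕ) (i : Fin m) : BF n m
  | cc {n m : ℕ} (k l : Fin n) (i : Fin m) : BF n m
  | ee {n m : ℕ} (k l : Fin n) : BF n m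
  | eqn {n m : ℕ} (k l : Fin n) : BF n m
  | num {n m : ℕ} (k : Fin n) : BF n m
  | neg {n m : ℕ} (φ : BF n m) : BF n m
  | and {n m : ℕ} (φ ψ : BF n m) : BF n m
  | exN {n m : ℕ} (φ : BF (n + 1) m) : BF n m
  | exV {n m : ℕ} (φ : BF n (m + 1)) : BF n m

/-- The number of a special predicate. -/
noncomputable def sq (J : ZFSet.{0}) (a : ℕ) : ZFSet.{0} := ap J (pair ∅ (nat a))

/-- The number of the predicate for a pair of numbers. -/
noncomputable def jj (J k l : ZFSet.{0}) : ZFSet.{0} := ap J (pair (sc k) l)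

section sem

variable (J E a D c : ZFSet.{0})

/-- The meaning of a formula. -/
def BSat : {n m : ℕ} → BF n m → (Fin n → ZFSet.{0}) → (ℕ → ZFSet.{0}) → Prop
  | _, _, .sp a' i, _, d => pair (d i) (sq J a') ∈ c
  | _, _, .cc k l i, v, d => pair (d i) (jj J (v k) (v l)) ∈ c
  | _, _, .ee k l, v, _ => pair (v k) (v l) ∈ E
  | _, _, .eqn k l, v, _ => v k = v l
  | _, _, .num k, v, _ => v k = a
  | _, _, .neg φ, v, d => ¬ BSat φ v d
  | _, _, .and φ ψ, v, d => BSat φ v d ∧ BSat ψ v d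
  | _, _, .exN φ, v, d => ∃ k ∈ ZFSet.omega, BSat φ (Fin.cons k v) d
  | _, m, .exV φ, v, d => ∃ x ∈ D, BSat φ v (Function.update d m x)

open Classical in
/-- The code of the truth value of a statement. -/
noncomputable def tvl (p : Prop) : ZFSet.{0} := if p then cAnd ∅ else cNot (cAnd ∅)

/-- The code of a formula. -/
noncomputable def cdB : {n m : ℕ} → BF n m → (Fin n → ZFSet.{0}) → ZFSet.{0}
  | _, _, .sp a' i, _ => cP (sq J a') (nat i)
  | _, _, .cc k l i, v => cP (jj J (v k) (v l)) (nat i)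
  | _, _, .ee k l, v => tvl (pair (v k) (v l) ∈ E)
  | _, _, .eqn k l, v => tvl (v k = v l)
  | _, _, .num k, v => tvl (v k = a)
  | _, _, .neg φ, v => cNot (cdB φ v)
  | _, _, .and φ ψ, v => cAnd {cdB φ v, cdB ψ v}
  | _, _, .exN φ, v => cNot (cAnd (im (fun k => cNot (cdB φ (Fin.cons k v))) ZFSet.omega))
  | _, _, .exV φ, v => cEx (cdB φ v)

end sem

/-- The assignment. -/
noncomputable def asg (d : ℕ → ZFSet.{0}) : ℕ → ZFSet.{0}
  | 0 => ∅
  | m + 1 => insert (pair (nat m) (d m)) (asg d m)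

theorem asg_congr {d d' : ℕ → ZFSet.{0}} : {m : ℕ} → (∀ i < m, d i = d' i) → asg d m = asg d' m
  | 0, _ => rfl
  | m + 1, h => by
    rw [asg, asg, h m (by omega), asg_congr fun i hi => h i (by omega)]

theorem asg_update {d : ℕ → ZFSet.{0}} {m : ℕ} {x : ZFSet.{0}} :
    asg (Function.update d m x) (m + 1) = insert (pair (nat m) x) (asg d m) := by
  rw [asg, Function.update_self]
  congr 1
  exact asg_congr fun i hi => by rw [Function.update_of_ne (by omega)]

theorem pair_mem_asg {d : ℕ → ZFSet.{0}} {m : ℕ} {i : ℕ} (hi : i < m) {x : ZFSet.{0}} :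
    pair (nat i) x ∈ asg d m ↔ x = d i := by
  induction m with
  | zero => omega
  | succ m ih =>
    rw [asg, ZFSet.mem_insert_iff, ZFSet.pair_inj]
    constructor
    · rintro (⟨h1, h2⟩ | h)
      · rw [nat_injective h1]
        exact h2
      · rcases Nat.lt_succ_iff_lt_or_eq.1 hi with h3 | rfl
        · exact (ih h3).1 h
        · exfalso
          have key : ∀ m' : ℕ, ∀ y z, pair y z ∈ asg d m' → ∃ j < m', y = nat j := by
            intro m'
            induction m' with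
            | zero => exact fun y z h => absurd h (ZFSet.notMem_empty _)
            | succ m' ih' =>
              intro y z h
              rw [asg, ZFSet.mem_insert_iff, ZFSet.pair_inj] at h
              rcases h with ⟨rfl, -⟩ | h
              · exact ⟨m', by omega, rfl⟩
              · obtain ⟨j, hj, h⟩ := ih' y z h
                exact ⟨j, by omega, h⟩
          obtain ⟨j, hj, h4⟩ := key _ _ _ h
          have := nat_injective h4
          omega
    · rintro rfl
      rcases Nat.lt_succ_iff_lt_or_eq.1 hi with h3 | rfl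
      · exact Or.inr ((ih h3).2 rfl)
      · exact Or.inl ⟨rfl, rfl⟩

theorem asg_func {d : ℕ → ZFSet.{0}} {D : ZFSet.{0}} : {m : ℕ} → (∀ i < m, d i ∈ D) →
    ZFSet.IsFunc (nat m) D (asg d m)
  | 0, _ => isFunc_empty D
  | m + 1, h => isFunc_insert (asg_func fun i hi => h i (by omega)) (h m (by omega))

theorem nat_mem_nat {i m : ℕ} (h : i < m) : nat i ∈ nat m := by
  rw [nat_eq, nat_eq, Ordinal.mem_toZFSet_iff]
  exact ⟨i, by exact_mod_cast h, rfl⟩

section

variable {M : Set ZFSet.{0}} (hM : IsZF M)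

include hM

theorem asg_mem {d : ℕ → ZFSet.{0}} {D : ZFSet.{0}} (hD : D ∈ M) : {m : ℕ} →
    (∀ i < m, d i ∈ D) → asg d m ∈ M
  | 0, _ => hM.empty_mem
  | m + 1, h => hM.insert_mem (hM.pair_mem (hM.nat_mem m) (hM.trans _ hD _ (h m (by omega))))
      (asg_mem hD fun i hi => h i (by omega))

variable {J E a : ZFSet.{0}} (hJ : J ∈ M) (hE : E ∈ M) (ha : a ∈ M)

omit hM in
theorem dfn_tvl {l : ℕ} {Q : (Fin l → ZFSet.{0}) → Prop} (hM : IsZF M) (hQ : Dfn M M Q) :
    DfnF M M fun w => tvl (Q w) := by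
  unfold tvl
  exact DfnF.ite hQ (DfnF.const (cAnd_mem hM hM.empty_mem))
    (DfnF.const (cNot_mem hM (cAnd_mem hM hM.empty_mem)))

include hJ in
theorem dfn_jj {l : ℕ} {F G : (Fin l → ZFSet.{0}) → ZFSet.{0}} (hF : DfnF M M F)
    (hG : DfnF M M G) : DfnF M M fun w => jj J (F w) (G w) :=
  hM.ap' (DfnF.const hJ) (hM.base.pair' (hM.base.insert' hF hF) hG)

include hJ in
theorem sq_mem (i : ℕ) : sq J i ∈ M :=
  (hM.ap' (DfnF.const hJ) (DfnF.const (n := 0) (hM.pair_mem hM.empty_mem (hM.nat_mem i)))).1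
    Fin.elim0 fun i => i.elim0

include hJ hE ha in
theorem dfn_cdB : {n m : ℕ} → (φ : BF n m) → {l : ℕ} →
    (G : Fin n → (Fin l → ZFSet.{0}) → ZFSet.{0}) → (∀ i, DfnF M M (G i)) →
    DfnF M M fun w => cdB J E a φ fun i => G i w
  | _, _, .sp a' i, l, G, hG =>
    hM.base.pair' (DfnF.const (hM.nat_mem 0)) (hM.base.pair' (DfnF.const (sq_mem hM hJ a'))
      (DfnF.const (hM.nat_mem i)))
  | _, _, .cc k k' i, l, G, hG =>
    hM.base.pair' (DfnF.const (hM.nat_mem 0)) (hM.base.pair' (dfn_jj hM hJ (hG k) (hG k'))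
      (DfnF.const (hM.nat_mem i)))
  | _, _, .ee k k', l, G, hG =>
    dfn_tvl hM (Dfn.mem (hM.base.pair' (hG k) (hG k')) (DfnF.const hE))
  | _, _, .eqn k k', l, G, hG => dfn_tvl hM (Dfn.eq (hG k) (hG k'))
  | _, _, .num k, l, G, hG => dfn_tvl hM (Dfn.eq (hG k) (DfnF.const ha))
  | _, _, .neg φ, l, G, hG => hM.base.pair' (DfnF.const (hM.nat_mem 2)) (dfn_cdB φ G hG)
  | _, _, .and φ ψ, l, G, hG =>
    hM.base.pair' (DfnF.const (hM.nat_mem 3)) (hM.base.upair' (dfn_cdB φ G hG) (dfn_cdB ψ G hG))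
  | n, _, .exN φ, l, G, hG => by
    have h1 := dfn_cdB φ (l := l + 1) (Fin.cons (fun w => w 0) fun i w => G i (Fin.tail w)) (by
      intro i
      refine Fin.cases ?_ (fun i => ?_) i
      · exact DfnF.proj 0
      · exact (hG i).tail)
    have h2 : DfnF M M fun w : Fin (l + 1) → ZFSet.{0} =>
        cdB J E a φ (Fin.cons (w 0) fun i => G i (Fin.tail w)) := by
      refine h1.congr fun w _ => ?_
      congr 1
      funext i
      refine Fin.cases ?_ (fun i => ?_) i
      · rfl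
      · rfl
    exact hM.base.pair' (DfnF.const (hM.nat_mem 2)) (hM.base.pair' (DfnF.const (hM.nat_mem 3))
      (hM.im' (h := fun k w => cNot (cdB J E a φ (Fin.cons k fun i => G i w)))
        (DfnF.const hM.infinity) (hM.base.pair' (DfnF.const (hM.nat_mem 2)) h2)))
  | _, _, .exV φ, l, G, hG => hM.base.pair' (DfnF.const (hM.nat_mem 4)) (dfn_cdB φ G hG)

include hJ hE ha in
theorem dfn_cdB_ut {n m : ℕ} (φ : BF n m) :
    DfnF M M fun w : Fin 1 → ZFSet.{0} => cdB J E a φ (ut n (w 0)) :=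
  dfn_cdB hM hJ hE ha φ (fun i w => ut n (w 0) i) fun i => dfn_ut hM (DfnF.proj 0) n i

/-- Adding a family of formulas. -/
theorem Good.addT {F : ZFSet.{0}} (h : Good M F) {n m : ℕ} {f : ZFSet.{0} → ZFSet.{0}}
    (hf : DfnF M M fun w : Fin 1 → ZFSet.{0} => f (w 0))
    (hp : ∀ v : Fin n → ZFSet.{0}, (∀ i, v i ∈ ZFSet.omega) →
      Form M F (pair (f (tup v)) (nat m))) :
    ∃ F', Good M F' ∧ F ⊆ F' ∧ ∀ v : Fin n → ZFSet.{0}, (∀ i, v i ∈ ZFSet.omega) →
      pair (f (tup v)) (nat m) ∈ F' := by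
  have hpw : pw ZFSet.omega n ∈ M :=
    (dfn_pw hM n (DfnF.proj (0 : Fin 1))).1 (fun _ => ZFSet.omega) fun _ => hM.infinity
  have h1 : im (fun p => pair (f p) (nat m)) (pw ZFSet.omega n) ∈ M :=
    hM.im_mem hpw (hM.base.pair' hf (DfnF.const (hM.nat_mem m)))
  refine ⟨_, h.extend hM h1 ?_, fun x hx => ZFSet.mem_union.2 (Or.inl hx), ?_⟩
  · intro q hq
    obtain ⟨p, hp', rfl⟩ := mem_im.1 hq
    obtain ⟨v, hv, rfl⟩ := mem_pw.1 hp'
    exact hp v hv
  · intro v hv
    exact ZFSet.mem_union.2 (Or.inr (mem_im.2 ⟨_, mem_pw.2 ⟨v, hv, rfl⟩, rfl⟩))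

omit hM in
theorem form_And0 {F : ZFSet.{0}} {n : ℕ} (hM : IsZF M) : Form M F (pair (cAnd ∅) (nat n)) :=
  form_And ⟨∅, hM.empty_mem, ⟨⟨fun _ h => absurd h (ZFSet.notMem_empty _), fun _ h =>
    absurd h (ZFSet.notMem_empty _)⟩, fun _ _ _ h => absurd h (ZFSet.notMem_empty _)⟩⟩
    fun _ h => absurd h (ZFSet.notMem_empty _)

theorem good_tvl {F : ZFSet.{0}} (h : Good M F) (m : ℕ) :
    ∃ F', Good M F' ∧ F ⊆ F' ∧ ∀ p : Prop, pair (tvl p) (nat m) ∈ F' := by
  obtain ⟨F1, g1, s1, a1⟩ := h.add hM (n := m) (cAnd_mem hM hM.empty_mem) (form_And0 hM)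
  obtain ⟨F2, g2, s2, a2⟩ := g1.add hM (n := m) (cNot_mem hM (cAnd_mem hM hM.empty_mem))
    (form_Not a1)
  refine ⟨F2, g2, fun _ h => s2 (s1 h), fun p => ?_⟩
  unfold tvl
  split_ifs
  · exact s2 a1
  · exact a2

variable (hJi : IsInj (ZFSet.prod ZFSet.omega ZFSet.omega) ZFSet.omega J)

omit hM in
include hJi in
theorem ap_J {k l : ZFSet.{0}} (hk : k ∈ ZFSet.omega) (hl : l ∈ ZFSet.omega) :
    ap J (pair k l) ∈ ZFSet.omega ∧ pair (pair k l) (ap J (pair k l)) ∈ J := by
  obtain ⟨b, hb, h⟩ := fun_exists hJi.1 (ZFSet.pair_mem_prod.2 ⟨hk, hl⟩)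
  rw [ap_func hJi.1 h]
  exact ⟨hb, h⟩

omit hM in
include hJi in
theorem jj_omega {k l : ZFSet.{0}} (hk : k ∈ ZFSet.omega) (hl : l ∈ ZFSet.omega) :
    jj J k l ∈ ZFSet.omega := (ap_J hJi (ZFSet.omega_succ hk) hl).1

omit hM in
include hJi in
theorem sq_omega (i : ℕ) : sq J i ∈ ZFSet.omega :=
  (ap_J hJi ZFSet.omega_zero (nat_mem_omega i)).1

omit hM in
include hJi in
theorem jj_inj {k l k' l' : ZFSet.{0}} (hk : k ∈ ZFSet.omega) (hl : l ∈ ZFSet.omega)
    (hk' : k' ∈ ZFSet.omega) (hl' : l' ∈ ZFSet.omega) (h : jj J k l = jj J k' l') :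
    k = k' ∧ l = l' := by
  have h1 := (ap_J hJi (ZFSet.omega_succ hk) hl).2
  have h2 := (ap_J hJi (ZFSet.omega_succ hk') hl').2
  have h3 : ap J (pair (insert k k) l) = ap J (pair (insert k' k') l') := h
  rw [h3] at h1
  obtain ⟨h4, h5⟩ := ZFSet.pair_inj.1 (hJi.2 _ _ _ h1 h2)
  refine ⟨?_, h5⟩
  have h6 : k ∈ (insert k' k' : ZFSet.{0}) := h4 ▸ ZFSet.mem_insert _ _
  have h7 : k' ∈ (insert k k : ZFSet.{0}) := h4 ▸ ZFSet.mem_insert _ _
  rcases ZFSet.mem_insert_iff.1 h6 with h6 | h6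
  · exact h6
  rcases ZFSet.mem_insert_iff.1 h7 with h7 | h7
  · exact h7.symm
  exact absurd h7 (ZFSet.mem_asymm h6)

omit hM in
include hJi in
theorem jj_ne_sq {k l : ZFSet.{0}} (hk : k ∈ ZFSet.omega) (hl : l ∈ ZFSet.omega) (i : ℕ) :
    jj J k l ≠ sq J i := by
  intro h
  have h1 := (ap_J hJi (ZFSet.omega_succ hk) hl).2
  have h2 := (ap_J hJi ZFSet.omega_zero (nat_mem_omega i)).2
  have h3 : ap J (pair (insert k k) l) = ap J (pair ∅ (nat i)) := h
  rw [h3] at h1
  obtain ⟨h4, -⟩ := ZFSet.pair_inj.1 (hJi.2 _ _ _ h1 h2)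
  exact ZFSet.notMem_empty k (h4 ▸ ZFSet.mem_insert _ _)

omit hM in
include hJi in
theorem sq_inj' {i i' : ℕ} (h : sq J i = sq J i') : i = i' := by
  have h1 := (ap_J hJi ZFSet.omega_zero (nat_mem_omega i)).2
  have h2 := (ap_J hJi ZFSet.omega_zero (nat_mem_omega i')).2
  have h3 : ap J (pair ∅ (nat i)) = ap J (pair ∅ (nat i')) := h
  rw [h3] at h1
  exact nat_injective (ZFSet.pair_inj.1 (hJi.2 _ _ _ h1 h2)).2

include hJ hE ha hJi in
/-- Sets of formulas that contain the codes. -/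
theorem good_cdB : {n m : ℕ} → (φ : BF n m) → ∀ F0, Good M F0 →
    ∃ F, Good M F ∧ F0 ⊆ F ∧ ∀ v : Fin n → ZFSet.{0}, (∀ i, v i ∈ ZFSet.omega) →
      pair (cdB J E a φ v) (nat m) ∈ F := by
  intro n m φ
  induction φ with
  | @sp n m a' i =>
    intro F0 h
    obtain ⟨F, g, s, h1⟩ := h.add hM (ψ := cP (sq J a') (nat i)) (n := m)
      (hM.pair_mem (hM.nat_mem 0) (hM.pair_mem (sq_mem hM hJ a') (hM.nat_mem i)))
      (form_P (sq_omega hJi a') (nat_mem_nat i.2))
    exact ⟨F, g, s, fun v hv => h1⟩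
  | @cc n m k l i =>
    intro F0 h
    obtain ⟨F, g, s, h1⟩ := h.addT hM (n := n) (m := m)
      (f := fun p => cdB J E a (.cc k l i : BF n m) (ut n p))
      (dfn_cdB_ut hM hJ hE ha (.cc k l i)) (by
        intro v hv
        rw [ut_tup]
        exact form_P (jj_omega hJi (hv k) (hv l)) (nat_mem_nat i.2))
    refine ⟨F, g, s, fun v hv => ?_⟩
    have h2 := h1 v hv
    rwa [ut_tup] at h2
  | @ee n m k l =>
    intro F0 h
    obtain ⟨F, g, s, h1⟩ := good_tvl hM h m
    exact ⟨F, g, s, fun v hv => h1 _⟩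
  | @eqn n m k l =>
    intro F0 h
    obtain ⟨F, g, s, h1⟩ := good_tvl hM h m
    exact ⟨F, g, s, fun v hv => h1 _⟩
  | @num n m k =>
    intro F0 h
    obtain ⟨F, g, s, h1⟩ := good_tvl hM h m
    exact ⟨F, g, s, fun v hv => h1 _⟩
  | @neg n m φ ih =>
    intro F0 h
    obtain ⟨F1, g1, s1, h1⟩ := ih F0 h
    obtain ⟨F, g, s, h2⟩ := g1.addT hM (n := n) (m := m)
      (f := fun p => cdB J E a (.neg φ : BF n m) (ut n p))
      (dfn_cdB_ut hM hJ hE ha (.neg φ)) (by
        intro v hv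
        rw [ut_tup]
        exact form_Not (h1 v hv))
    refine ⟨F, g, fun _ h => s (s1 h), fun v hv => ?_⟩
    have h3 := h2 v hv
    rwa [ut_tup] at h3
  | @and n m φ ψ ih1 ih2 =>
    intro F0 h
    obtain ⟨F1, g1, s1, h1⟩ := ih1 F0 h
    obtain ⟨F2, g2, s2, h2⟩ := ih2 F1 g1
    obtain ⟨F, g, s, h3⟩ := g2.addT hM (n := n) (m := m)
      (f := fun p => cdB J E a (.and φ ψ : BF n m) (ut n p))
      (dfn_cdB_ut hM hJ hE ha (.and φ ψ)) (by
        intro v hv
        rw [ut_tup]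
        exact form_And2 hM g2.1 (s2 (h1 v hv)) (h2 v hv))
    refine ⟨F, g, fun _ h => s (s2 (s1 h)), fun v hv => ?_⟩
    have h3 := h3 v hv
    rwa [ut_tup] at h3
  | @exN n m φ ih =>
    intro F0 h
    obtain ⟨F1, g1, s1, h1⟩ := ih F0 h
    obtain ⟨F2, g2, s2, h2⟩ := g1.addT hM (n := n + 1) (m := m)
      (f := fun p => cdB J E a (.neg φ : BF (n + 1) m) (ut (n + 1) p))
      (dfn_cdB_ut hM hJ hE ha (.neg φ)) (by
        intro v hv
        rw [ut_tup]
        exact form_Not (h1 v hv))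
    have hcons : ∀ v : Fin n → ZFSet.{0}, (∀ i, v i ∈ ZFSet.omega) → ∀ k ∈ ZFSet.omega,
        ∀ i, (Fin.cons k v : Fin (n + 1) → ZFSet.{0}) i ∈ ZFSet.omega := by
      intro v hv k hk i
      refine Fin.cases ?_ (fun i => ?_) i
      · exact hk
      · exact hv i
    have hd : ∀ v : Fin n → ZFSet.{0}, (∀ i, v i ∈ ZFSet.omega) →
        DfnF M M fun w : Fin 1 → ZFSet.{0} => cNot (cdB J E a φ (Fin.cons (w 0) v)) := by
      intro v hv
      have h4 := dfn_cdB hM hJ hE ha (.neg φ) (l := 1) (Fin.cons (fun w => w 0) fun i _ => v i) (by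
        intro i
        refine Fin.cases ?_ (fun i => ?_) i
        · exact DfnF.proj 0
        · exact DfnF.const (hM.trans _ hM.infinity _ (hv i)))
      refine h4.congr fun w _ => ?_
      change cNot _ = cNot _
      congr 2
      funext i
      refine Fin.cases ?_ (fun i => ?_) i
      · rfl
      · rfl
    have hd2 : DfnF M M fun w : Fin 1 → ZFSet.{0} =>
        cAnd (im (fun k => cNot (cdB J E a φ (Fin.cons k (ut n (w 0))))) ZFSet.omega) := by
      refine hM.base.pair' (DfnF.const (hM.nat_mem 3)) ?_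
      refine hM.im' (h := fun k w => cNot (cdB J E a φ (Fin.cons k (ut n (w 0)))))
        (DfnF.const hM.infinity) ?_
      have h4 := dfn_cdB hM hJ hE ha (.neg φ) (l := 2)
        (Fin.cons (fun w => w 0) fun i w => ut n (w 1) i) (by
          intro i
          refine Fin.cases ?_ (fun i => ?_) i
          · exact DfnF.proj 0
          · exact dfn_ut hM (DfnF.proj 1) n i)
      refine h4.congr fun w _ => ?_
      change cNot _ = cNot _
      congr 2
      funext i
      refine Fin.cases ?_ (fun i => ?_) i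
      · rfl
      · rfl
    obtain ⟨F3, g3, s3, h3⟩ := g2.addT hM (n := n) (m := m)
      (f := fun p => cAnd (im (fun k => cNot (cdB J E a φ (Fin.cons k (ut n p)))) ZFSet.omega))
      hd2 (by
        intro v hv
        rw [ut_tup]
        refine form_And ?_ ?_
        · exact Inj.image hM hM.infinity hM.infinity isOrdinal_omega
            (Inj.of_subset hM hM.infinity hM.infinity fun _ h => h) (hd v hv)
        · intro χ hχ
          obtain ⟨k, hk, rfl⟩ := mem_im.1 hχ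
          have h4 := h2 (Fin.cons k v) (hcons v hv k hk)
          rwa [ut_tup] at h4)
    obtain ⟨F, g, s, h5⟩ := g3.addT hM (n := n) (m := m)
      (f := fun p => cdB J E a (.exN φ : BF n m) (ut n p))
      (dfn_cdB_ut hM hJ hE ha (.exN φ)) (by
        intro v hv
        rw [ut_tup]
        refine form_Not ?_
        have h4 := h3 v hv
        rwa [ut_tup] at h4)
    refine ⟨F, g, fun _ h => s (s3 (s2 (s1 h))), fun v hv => ?_⟩
    have h6 := h5 v hv
    rwa [ut_tup] at h6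
  | @exV n m φ ih =>
    intro F0 h
    obtain ⟨F1, g1, s1, h1⟩ := ih F0 h
    obtain ⟨F, g, s, h2⟩ := g1.addT hM (n := n) (m := m)
      (f := fun p => cdB J E a (.exV φ : BF n m) (ut n p))
      (dfn_cdB_ut hM hJ hE ha (.exV φ)) (by
        intro v hv
        rw [ut_tup]
        exact form_Ex (h1 v hv))
    refine ⟨F, g, fun _ h => s (s1 h), fun v hv => ?_⟩
    have h3 := h2 v hv
    rwa [ut_tup] at h3

/-- The value of the code of a formula. -/
theorem eval_cdB {F D c T : ZFSet.{0}} (hD : D ∈ M) (hF : IsFmlSet M F)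
    (hT : IsTruth M F D c T) : {n m : ℕ} → (φ : BF n m) → (v : Fin n → ZFSet.{0}) →
    (d : ℕ → ZFSet.{0}) → (∀ i < m, d i ∈ D) → pair (cdB J E a φ v) (nat m) ∈ F →
    (pair (pair (cdB J E a φ v) (nat m)) (asg d m) ∈ T ↔ BSat J E a D c φ v d) := by
  intro n m φ
  have htv : ∀ (p : Prop) (m : ℕ) (d : ℕ → ZFSet.{0}), (∀ i < m, d i ∈ D) →
      pair (tvl p) (nat m) ∈ F → (pair (pair (tvl p) (nat m)) (asg d m) ∈ T ↔ p) := by
    intro p m d hd hp
    unfold tvl at hp ⊢
    split_ifs with h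
    · rw [if_pos h] at hp
      rw [hT _ _ hp _ (asg_mem hM hD hd) (asg_func hd), clause_And]
      exact ⟨fun _ => h, fun _ _ h' => absurd h' (ZFSet.notMem_empty _)⟩
    · rw [if_neg h] at hp
      have hp' := mem_not hF hp
      rw [hT _ _ hp _ (asg_mem hM hD hd) (asg_func hd), clause_Not,
        hT _ _ hp' _ (asg_mem hM hD hd) (asg_func hd), clause_And]
      exact ⟨fun h1 => absurd (fun _ h' => absurd h' (ZFSet.notMem_empty _)) h1,
        fun h1 => absurd h1 h⟩
  induction φ with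
  | @sp n m a' i =>
    intro v d hd hp
    rw [cdB] at hp ⊢
    rw [hT _ _ hp _ (asg_mem hM hD hd) (asg_func hd), clause_P]
    constructor
    · rintro ⟨x, h1, h2⟩
      rw [pair_mem_asg i.2] at h1
      subst h1
      exact h2
    · exact fun h => ⟨d i, (pair_mem_asg i.2).2 rfl, h⟩
  | @cc n m k l i =>
    intro v d hd hp
    rw [cdB] at hp ⊢
    rw [hT _ _ hp _ (asg_mem hM hD hd) (asg_func hd), clause_P]
    constructor
    · rintro ⟨x, h1, h2⟩
      rw [pair_mem_asg i.2] at h1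
      subst h1
      exact h2
    · exact fun h => ⟨d i, (pair_mem_asg i.2).2 rfl, h⟩
  | @ee n m k l => exact fun v d hd hp => htv _ m d hd hp
  | @eqn n m k l => exact fun v d hd hp => htv _ m d hd hp
  | @num n m k => exact fun v d hd hp => htv _ m d hd hp
  | @neg n m φ ih =>
    intro v d hd hp
    rw [cdB] at hp ⊢
    rw [hT _ _ hp _ (asg_mem hM hD hd) (asg_func hd), clause_Not]
    exact not_congr (ih v d hd (mem_not hF hp))
  | @and n m φ ψ ih1 ih2 =>
    intro v d hd hp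
    rw [cdB] at hp ⊢
    rw [hT _ _ hp _ (asg_mem hM hD hd) (asg_func hd), clause_And]
    have h1 := ih1 v d hd (mem_and hF hp _ (ZFSet.mem_pair.2 (Or.inl rfl)))
    have h2 := ih2 v d hd (mem_and hF hp _ (ZFSet.mem_pair.2 (Or.inr rfl)))
    rw [BSat, ← h1, ← h2]
    constructor
    · intro h
      exact ⟨h _ (ZFSet.mem_pair.2 (Or.inl rfl)), h _ (ZFSet.mem_pair.2 (Or.inr rfl))⟩
    · rintro ⟨h3, h4⟩ χ hχ
      rcases ZFSet.mem_pair.1 hχ with rfl | rfl
      · exact h3
      · exact h4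
  | @exN n m φ ih =>
    intro v d hd hp
    rw [cdB] at hp ⊢
    have hp' := mem_not hF hp
    have hp2 := mem_and hF hp'
    rw [hT _ _ hp _ (asg_mem hM hD hd) (asg_func hd), clause_Not,
      hT _ _ hp' _ (asg_mem hM hD hd) (asg_func hd), clause_And, BSat]
    have key : ∀ k ∈ ZFSet.omega, (pair (pair (cNot (cdB J E a φ (Fin.cons k v))) (nat m))
        (asg d m) ∈ T ↔ ¬ BSat J E a D c φ (Fin.cons k v) d) := by
      intro k hk
      have h1 := hp2 _ (mem_im.2 ⟨k, hk, rfl⟩)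
      rw [hT _ _ h1 _ (asg_mem hM hD hd) (asg_func hd), clause_Not]
      exact not_congr (ih _ d hd (mem_not hF h1))
    constructor
    · intro h
      by_contra h1
      refine h fun χ hχ => ?_
      obtain ⟨k, hk, rfl⟩ := mem_im.1 hχ
      exact (key k hk).2 fun h2 => h1 ⟨k, hk, h2⟩
    · rintro ⟨k, hk, h1⟩ h2
      exact (key k hk).1 (h2 _ (mem_im.2 ⟨k, hk, rfl⟩)) h1
  | @exV n m φ ih =>
    intro v d hd hp
    rw [cdB] at hp ⊢
    have hp' := mem_ex hF hp
    rw [hT _ _ hp _ (asg_mem hM hD hd) (asg_func hd), clause_Ex, BSat]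
    refine exists_congr fun x => and_congr_right fun hx => ?_
    rw [← ih v (Function.update d m x) ?_ hp', asg_update]
    · rfl
    · intro i hi
      rcases Nat.lt_succ_iff_lt_or_eq.1 hi with h3 | rfl
      · rw [Function.update_of_ne (by omega)]
        exact hd i h3
      · rw [Function.update_self]
        exact hx

include hJ hE ha hJi in
theorem isSentence_cdB (φ : BF 0 0) : IsSentence M (cdB J E a φ Fin.elim0) := by
  obtain ⟨F, g, -, h⟩ := good_cdB hM hJ hE ha hJi φ ∅ (good_empty hM)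
  exact ⟨F, g.1, g.2.1, h Fin.elim0 fun i => i.elim0⟩

include hJ hE ha in
theorem cdB_mem (φ : BF 0 0) : cdB J E a φ Fin.elim0 ∈ M := by
  have h := dfn_cdB hM hJ hE ha φ (l := 0) (fun _ _ => ∅) fun i => i.elim0
  have h1 : cdB J E a φ (fun _ => ∅) ∈ M := h.1 Fin.elim0 fun i => i.elim0
  have h2 : (fun _ : Fin 0 => (∅ : ZFSet.{0})) = Fin.elim0 := funext fun i => i.elim0
  rwa [h2] at h1

include hJ hE ha hJi in
theorem models_cdB (φ : BF 0 0) {D c : ZFSet.{0}} (hD : D ∈ M) (hc : c ∈ M) :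
    Models M D c (cdB J E a φ Fin.elim0) ↔ BSat J E a D c φ Fin.elim0 fun _ => ∅ := by
  have e : ∀ F T, IsFmlSet M F → IsTruth M F D c T →
      pair (cdB J E a φ Fin.elim0) (nat 0) ∈ F →
      (pair (pair (cdB J E a φ Fin.elim0) (nat 0)) ∅ ∈ T ↔
        BSat J E a D c φ Fin.elim0 fun _ => ∅) := by
    intro F T hF hT hp
    exact eval_cdB hM hD hF hT φ Fin.elim0 (fun _ => ∅) (fun i hi => absurd hi (Nat.not_lt_zero i))
      hp
  constructor
  · rintro ⟨F, -, T, -, h1, h2, h3, h4⟩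
    exact (e F T h1 h3 h2).1 h4
  · intro h
    obtain ⟨F, g, -, h1⟩ := good_cdB hM hJ hE ha hJi φ ∅ (good_empty hM)
    obtain ⟨T, hT, h2⟩ := g.2.2 D hD c hc
    have h3 := h1 Fin.elim0 fun i => i.elim0
    exact ⟨F, g.1, T, hT, g.2.1, h3, h2, (e F T g.2.1 h2 h3).2 h⟩

end

end Pool.Agent.W868
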