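import Pool.Agent.W868.NDfn

/-!
# Cardinalities, the collapse map, and the covering lemma for ccc forcing
-/

set_option autoImplicit false
set_option linter.unreachableTactic false
set_option linter.unusedTactic false
set_option linter.unusedSectionVars false

namespace Pool.Agent.W868

open PName
open ZFSet (pair)
open Cardinal

/-! ### Cardinalities -/

theorem exists_isInj {x y : ZFSet.{0}} (h : x.card ≤ y.card) : ∃ f, IsInj x y f := by
  obtain ⟨e⟩ := Cardinal.le_def _ _ |>.1 h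
  let e' : {z // z ∈ x} → {z // z ∈ y} := fun z =>
    (equivShrink {z // z ∈ y}).symm (e (equivShrink {z // z ∈ x} z))
  have he : Function.Injective e' := fun a b hab =>
    (equivShrink _).injective (e.injective ((equivShrink _).symm.injective hab))
  refine ⟨ZFSet.range fun z : {z // z ∈ x} => pair z.1 (e' z).1, ⟨?_, ?_⟩, ?_⟩
  · intro p hp
    obtain ⟨z, rfl⟩ := ZFSet.mem_range.1 hp
    exact ZFSet.pair_mem_prod.2 ⟨z.2, (e' z).2⟩
  · intro z hz
    refine ⟨(e' ⟨z, hz⟩).1, ZFSet.mem_range.2 ⟨⟨z, hz⟩, rfl⟩, fun w hw => ?_⟩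
    obtain ⟨z', h1⟩ := ZFSet.mem_range.1 hw
    obtain ⟨h2, h3⟩ := ZFSet.pair_inj.1 h1
    subst h2
    exact h3.symm
  · intro a b c ha hb
    obtain ⟨a', h1⟩ := ZFSet.mem_range.1 ha
    obtain ⟨b', h2⟩ := ZFSet.mem_range.1 hb
    obtain ⟨h3, h4⟩ := ZFSet.pair_inj.1 h1
    obtain ⟨h5, h6⟩ := ZFSet.pair_inj.1 h2
    have h7 := he (Subtype.ext (h4.trans h6.symm))
    rw [← h3, ← h5, h7]

theorem exists_isBij {x y : ZFSet.{0}} (h : x.card = y.card) : ∃ f, IsBij x y f := by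
  obtain ⟨e⟩ := Cardinal.eq.1 h
  let e' : {z // z ∈ x} ≃ {z // z ∈ y} :=
    (equivShrink {z // z ∈ x}).trans (e.trans (equivShrink {z // z ∈ y}).symm)
  refine ⟨ZFSet.range fun z : {z // z ∈ x} => pair z.1 (e' z).1, ⟨⟨?_, ?_⟩, ?_⟩, ?_⟩
  · intro p hp
    obtain ⟨z, rfl⟩ := ZFSet.mem_range.1 hp
    exact ZFSet.pair_mem_prod.2 ⟨z.2, (e' z).2⟩
  · intro z hz
    refine ⟨(e' ⟨z, hz⟩).1, ZFSet.mem_range.2 ⟨⟨z, hz⟩, rfl⟩, fun w hw => ?_⟩
    obtain ⟨z', h1⟩ := ZFSet.mem_range.1 hw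
    obtain ⟨h2, h3⟩ := ZFSet.pair_inj.1 h1
    subst h2
    exact h3.symm
  · intro a b c ha hb
    obtain ⟨a', h1⟩ := ZFSet.mem_range.1 ha
    obtain ⟨b', h2⟩ := ZFSet.mem_range.1 hb
    obtain ⟨h3, h4⟩ := ZFSet.pair_inj.1 h1
    obtain ⟨h5, h6⟩ := ZFSet.pair_inj.1 h2
    have h7 := e'.injective (Subtype.ext (h4.trans h6.symm))
    rw [← h3, ← h5, h7]
  · intro b hb
    refine ⟨(e'.symm ⟨b, hb⟩).1, (e'.symm ⟨b, hb⟩).2,
      ZFSet.mem_range.2 ⟨e'.symm ⟨b, hb⟩, ?_⟩⟩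
    rw [e'.apply_symm_apply]

theorem card_prod (x y : ZFSet.{0}) : (ZFSet.prod x y).card = x.card * y.card := by
  rw [ZFSet.card, ZFSet.card, ZFSet.card, Cardinal.mul_def]
  refine Cardinal.mk_congr ?_
  refine (equivShrink {z // z ∈ ZFSet.prod x y}).symm.trans ?_
  have e : {z // z ∈ x} × {z // z ∈ y} ≃ {z // z ∈ ZFSet.prod x y} :=
    Equiv.ofBijective (fun t => ⟨pair t.1.1 t.2.1, ZFSet.pair_mem_prod.2 ⟨t.1.2, t.2.2⟩⟩) (by
      constructor
      · rintro ⟨⟨a, ha⟩, ⟨b, hb⟩⟩ ⟨⟨a', ha'⟩, ⟨b', hb'⟩⟩ h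
        obtain ⟨h1, h2⟩ := ZFSet.pair_inj.1 (Subtype.ext_iff.1 h)
        simp only at h1 h2
        subst h1
        subst h2
        rfl
      · rintro ⟨z, hz⟩
        obtain ⟨a, ha, b, hb, rfl⟩ := ZFSet.mem_prod.1 hz
        exact ⟨(⟨a, ha⟩, ⟨b, hb⟩), rfl⟩)
  exact e.symm.trans (Equiv.prodCongr (equivShrink _) (equivShrink _))

theorem card_nat (n : ℕ) : (nat n).card = n := by
  rw [nat_eq, Ordinal.card_toZFSet, Ordinal.card_nat]

theorem card_omega : (ZFSet.omega : ZFSet.{0}).card = ℵ₀ := by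
  rw [omega_eq, Ordinal.card_toZFSet, Ordinal.card_omega0]

/-- The first uncountable ordinal. -/
noncomputable def Om1 : ZFSet.{0} := (Cardinal.aleph 1).ord.toZFSet

/-- The second uncountable initial ordinal. -/
noncomputable def Om2 : ZFSet.{0} := (Cardinal.aleph 2).ord.toZFSet

theorem card_Om1 : Om1.card = ℵ₁ := by
  rw [Om1, Ordinal.card_toZFSet, Cardinal.card_ord]

theorem card_Om2 : Om2.card = Cardinal.aleph 2 := by
  rw [Om2, Ordinal.card_toZFSet, Cardinal.card_ord]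

theorem ord_Om1 : Om1.IsOrdinal := ZFSet.isOrdinal_toZFSet _

theorem inj_of_mem_Om1 {x : ZFSet.{0}} (hx : x ∈ Om1) : ∃ f, IsInj x ZFSet.omega f := by
  obtain ⟨a, ha, rfl⟩ := Ordinal.mem_toZFSet_iff.1 hx
  refine exists_isInj ?_
  rw [Ordinal.card_toZFSet, card_omega]
  have h := Cardinal.lt_ord.1 ha
  rwa [← Cardinal.succ_aleph0, Order.lt_succ_iff] at h

/-- A set too large to be covered. -/
theorem exists_not_mem {A B : ZFSet.{0}} (T : ZFSet.{0} → Set ZFSet.{0})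
    (hT : ∀ a ∈ A, (T a).Countable) (h : A.card * ℵ₀ < B.card) : ∃ b ∈ B, ∀ a ∈ A, b ∉ T a := by
  by_contra hc
  push Not at hc
  refine absurd h (not_lt.2 ?_)
  rw [← Cardinal.lift_le.{1}, ← ZFSet.cardinalMk_coe_sort, Cardinal.lift_mul,
    ← ZFSet.cardinalMk_coe_sort, Cardinal.lift_aleph0]
  have h1 : (B : Set ZFSet.{0}) ⊆ ⋃ a : {z // z ∈ A}, T a.1 := by
    intro b hb
    obtain ⟨a, ha, hba⟩ := hc b hb
    exact Set.mem_iUnion.2 ⟨⟨a, ha⟩, hba⟩
  refine (Cardinal.mk_le_mk_of_subset h1).trans ?_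
  refine (Cardinal.mk_iUnion_le_sum_mk).trans ?_
  refine (Cardinal.sum_le_sum _ (fun _ => ℵ₀) fun a => ?_).trans ?_
  · exact Cardinal.mk_le_aleph0_iff.2 (hT a.1 a.2).to_subtype
  · rw [Cardinal.sum_const, Cardinal.lift_id, Cardinal.lift_id]

variable {P : Type} [Preorder P] [OrderTop P]

namespace Pkg

variable (π : Pkg P)

/-! ### The collapse map preserves elementary notions -/

theorem prod_Z {x y : ZFSet.{0}} (hx : x ∈ π.Z) (hy : y ∈ π.Z) : ZFSet.prod x y ∈ π.Z := by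
  have hB := isBase_univ
  have hd : Dfn π.Z Set.univ fun w : Fin 1 → ZFSet.{0} =>
      (∀ p ∈ w 0, ∃ a ∈ x, ∃ b ∈ y, p = pair a b) ∧ ∀ a ∈ x, ∀ b ∈ y, pair a b ∈ w 0 := by
    (repeat' first
      | assumption
      | exact DfnF.proj _
      | exact DfnF.const (by assumption)
      | exact DfnF.const' (by first | assumption | trivial) (by first | assumption | trivial)
      | exact Dfn.prop _
      | apply Dfn.not | apply Dfn.and | apply Dfn.or | apply Dfn.imp | apply Dfn.iff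
      | apply hB.bex | apply hB.ball | apply Dfn.ex | apply Dfn.all
      | apply Dfn.eq | apply Dfn.mem | apply hB.pair')
  obtain ⟨z, hz, h1, h2⟩ := π.exists_Z (Q := fun z =>
      (∀ p ∈ z, ∃ a ∈ x, ∃ b ∈ y, p = pair a b) ∧ ∀ a ∈ x, ∀ b ∈ y, pair a b ∈ z) hd
    ⟨ZFSet.prod x y, fun p hp => ZFSet.mem_prod.1 hp,
      fun a ha b hb => ZFSet.pair_mem_prod.2 ⟨ha, hb⟩⟩
  have h3 : z = ZFSet.prod x y := by
    ext p
    rw [ZFSet.mem_prod]
    constructor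
    · exact h1 p
    · rintro ⟨a, ha, b, hb, rfl⟩
      exact h2 a ha b hb
  exact h3 ▸ hz

theorem of_pair_Z {x y : ZFSet.{0}} (h : pair x y ∈ π.Z) : x ∈ π.Z ∧ y ∈ π.Z := by
  have hB := isBase_univ
  constructor
  · have hd : Dfn π.Z Set.univ fun w : Fin 1 → ZFSet.{0} =>
        ∃ b ∈ Set.univ, pair x y = pair (w 0) b := by
      (repeat' first
      | assumption
      | exact DfnF.proj _
      | exact DfnF.const (by assumption)
      | exact DfnF.const' (by first | assumption | trivial) (by first | assumption | trivial)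
      | exact Dfn.prop _
      | apply Dfn.not | apply Dfn.and | apply Dfn.or | apply Dfn.imp | apply Dfn.iff
      | apply hB.bex | apply hB.ball | apply Dfn.ex | apply Dfn.all
      | apply Dfn.eq | apply Dfn.mem | apply hB.pair')
    obtain ⟨z, hz, b, -, h1⟩ := π.exists_Z
      (Q := fun z => ∃ b ∈ Set.univ, pair x y = pair z b) hd ⟨x, y, trivial, rfl⟩
    rwa [(ZFSet.pair_inj.1 h1).1]
  · have hd : Dfn π.Z Set.univ fun w : Fin 1 → ZFSet.{0} =>
        ∃ a ∈ Set.univ, pair x y = pair a (w 0) := by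
      (repeat' first
      | assumption
      | exact DfnF.proj _
      | exact DfnF.const (by assumption)
      | exact DfnF.const' (by first | assumption | trivial) (by first | assumption | trivial)
      | exact Dfn.prop _
      | apply Dfn.not | apply Dfn.and | apply Dfn.or | apply Dfn.imp | apply Dfn.iff
      | apply hB.bex | apply hB.ball | apply Dfn.ex | apply Dfn.all
      | apply Dfn.eq | apply Dfn.mem | apply hB.pair')
    obtain ⟨z, hz, b, -, h1⟩ := π.exists_Z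
      (Q := fun z => ∃ a ∈ Set.univ, pair x y = pair a z) hd ⟨y, x, trivial, rfl⟩
    rwa [(ZFSet.pair_inj.1 h1).2]

theorem hat_prod {x y : ZFSet.{0}} (hx : x ∈ π.Z) (hy : y ∈ π.Z) :
    π.hat (ZFSet.prod x y) = ZFSet.prod (π.hat x) (π.hat y) := by
  ext z
  rw [mem_hat, ZFSet.mem_prod]
  constructor
  · rintro ⟨p, hp, hpZ, rfl⟩
    obtain ⟨a, ha, b, hb, rfl⟩ := ZFSet.mem_prod.1 hp
    obtain ⟨haZ, hbZ⟩ := π.of_pair_Z hpZ
    exact ⟨π.hat a, (π.hat_mem_hat haZ hx).2 ha, π.hat b, (π.hat_mem_hat hbZ hy).2 hb,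
      π.hat_pair haZ hbZ⟩
  · rintro ⟨a', ha', b', hb', rfl⟩
    obtain ⟨a, ha, haZ, rfl⟩ := π.mem_hat.1 ha'
    obtain ⟨b, hb, hbZ, rfl⟩ := π.mem_hat.1 hb'
    exact ⟨pair a b, ZFSet.pair_mem_prod.2 ⟨ha, hb⟩, π.pair_mem_Z haZ hbZ, π.hat_pair haZ hbZ⟩

theorem pair_mem_hat {a b f : ZFSet.{0}} (ha : a ∈ π.Z) (hb : b ∈ π.Z) (hf : f ∈ π.Z) :
    pair (π.hat a) (π.hat b) ∈ π.hat f ↔ pair a b ∈ f := by
  rw [← π.hat_pair ha hb, π.hat_mem_hat (π.pair_mem_Z ha hb) hf]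

theorem of_pair_mem_hat {a b f : ZFSet.{0}} (hf : f ∈ π.Z) (h : pair a b ∈ π.hat f) :
    ∃ a' ∈ π.Z, ∃ b' ∈ π.Z, a = π.hat a' ∧ b = π.hat b' ∧ pair a' b' ∈ f := by
  have h1 : pair a b ∈ π.V := π.trans_V (π.of_hat_mem_V hf) h
  obtain ⟨⟨a', ha', rfl⟩, ⟨b', hb', rfl⟩⟩ := π.isZF_V.of_pair_mem h1
  exact ⟨a', ha', b', hb', rfl, rfl, (π.pair_mem_hat ha' hb' hf).1 h⟩

theorem hat_subset {x y : ZFSet.{0}} (h : x ⊆ y) : π.hat x ⊆ π.hat y := by
  intro z hz
  obtain ⟨w, hw, hwZ, rfl⟩ := π.mem_hat.1 hz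
  exact π.mem_hat.2 ⟨w, h hw, hwZ, rfl⟩

theorem hat_isInj {x y f : ZFSet.{0}} (hx : x ∈ π.Z) (hy : y ∈ π.Z) (hf : f ∈ π.Z)
    (h : IsInj x y f) : IsInj (π.hat x) (π.hat y) (π.hat f) := by
  have hB := isBase_univ
  refine ⟨⟨?_, ?_⟩, ?_⟩
  · rw [← π.hat_prod hx hy]
    exact π.hat_subset h.1.1
  · intro a' ha'
    obtain ⟨a, ha, haZ, rfl⟩ := π.mem_hat.1 ha'
    have hd : Dfn π.Z Set.univ fun w : Fin 1 → ZFSet.{0} => pair a (w 0) ∈ f := by
      (repeat' first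
      | assumption
      | exact DfnF.proj _
      | exact DfnF.const (by assumption)
      | exact DfnF.const' (by first | assumption | trivial) (by first | assumption | trivial)
      | exact Dfn.prop _
      | apply Dfn.not | apply Dfn.and | apply Dfn.or | apply Dfn.imp | apply Dfn.iff
      | apply hB.bex | apply hB.ball | apply Dfn.ex | apply Dfn.all
      | apply Dfn.eq | apply Dfn.mem | apply hB.pair')
    obtain ⟨b', hb', huniq⟩ := h.1.2 a ha
    obtain ⟨b, hb, h1⟩ := π.exists_Z (Q := fun b => pair a b ∈ f) hd ⟨b', hb'⟩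
    refine ⟨π.hat b, (π.pair_mem_hat haZ hb hf).2 h1, fun c hc => ?_⟩
    obtain ⟨a2, ha2, c2, hc2, h2, rfl, h3⟩ := π.of_pair_mem_hat hf hc
    obtain rfl := (π.hat_inj haZ ha2).1 h2
    rw [huniq c2 h3, huniq b h1]
  · intro a b c ha hb
    obtain ⟨a', ha', c', hc', rfl, rfl, h1⟩ := π.of_pair_mem_hat hf ha
    obtain ⟨b', hb', c2, hc2, rfl, h2, h3⟩ := π.of_pair_mem_hat hf hb
    obtain rfl := (π.hat_inj hc' hc2).1 h2
    rw [h.2 a' b' c' h1 h3]

theorem hat_isBij {x y f : ZFSet.{0}} (hx : x ∈ π.Z) (hy : y ∈ π.Z) (hf : f ∈ π.Z)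
    (h : IsBij x y f) : IsBij (π.hat x) (π.hat y) (π.hat f) := by
  have hB := isBase_univ
  refine ⟨π.hat_isInj hx hy hf h.1, fun b' hb' => ?_⟩
  obtain ⟨b, hb, hbZ, rfl⟩ := π.mem_hat.1 hb'
  obtain ⟨a', ha', h1⟩ := h.2 b hb
  have hd : Dfn π.Z Set.univ fun w : Fin 1 → ZFSet.{0} => w 0 ∈ x ∧ pair (w 0) b ∈ f := by
    (repeat' first
      | assumption
      | exact DfnF.proj _
      | exact DfnF.const (by assumption)
      | exact DfnF.const' (by first | assumption | trivial) (by first | assumption | trivial)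
      | exact Dfn.prop _
      | apply Dfn.not | apply Dfn.and | apply Dfn.or | apply Dfn.imp | apply Dfn.iff
      | apply hB.bex | apply hB.ball | apply Dfn.ex | apply Dfn.all
      | apply Dfn.eq | apply Dfn.mem | apply hB.pair')
  obtain ⟨a, ha, h2, h3⟩ := π.exists_Z (Q := fun a => a ∈ x ∧ pair a b ∈ f) hd ⟨a', ha', h1⟩
  exact ⟨π.hat a, (π.hat_mem_hat ha hx).2 h2, (π.pair_mem_hat ha hbZ hf).2 h3⟩

theorem exists_inj_V {x y : ZFSet.{0}} (hx : x ∈ π.Z) (hy : y ∈ π.Z) (h : ∃ f, IsInj x y f) :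
    ∃ f ∈ π.V, IsInj (π.hat x) (π.hat y) f := by
  have hB := isBase_univ
  have hd : Dfn π.Z Set.univ fun w : Fin 1 → ZFSet.{0} => IsInj x y (w 0) :=
    hB.isInj' (DfnF.const' trivial hx) (DfnF.const' trivial hy) (DfnF.proj 0)
  obtain ⟨f, hf, h1⟩ := π.exists_Z (Q := fun f => IsInj x y f) hd h
  exact ⟨_, π.of_hat_mem_V hf, π.hat_isInj hx hy hf h1⟩

theorem exists_bij_V {x y : ZFSet.{0}} (hx : x ∈ π.Z) (hy : y ∈ π.Z) (h : ∃ f, IsBij x y f) :
    ∃ f ∈ π.V, IsBij (π.hat x) (π.hat y) f := by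
  have hB := isBase_univ
  have hd : Dfn π.Z Set.univ fun w : Fin 1 → ZFSet.{0} => IsBij x y (w 0) :=
    hB.isBij' (DfnF.const' trivial hx) (DfnF.const' trivial hy) (DfnF.proj 0)
  obtain ⟨f, hf, h1⟩ := π.exists_Z (Q := fun f => IsBij x y f) hd h
  exact ⟨_, π.of_hat_mem_V hf, π.hat_isBij hx hy hf h1⟩

end Pkg

/-! ### The countable chain condition -/

/-- The countable chain condition. -/
def CCC (P : Type) [Preorder P] : Prop :=
  ∀ s : Set P, (∀ p ∈ s, ∀ q ∈ s, p ≠ q → ¬ ∃ r, r ≤ p ∧ r ≤ q) → s.Countable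

/-- The covering lemma for forcing notions with the countable chain condition. -/
theorem covering (hP : CCC P) (π : Pkg P) {A B R : ZFSet.{0}} (hA : A ∈ π.Z) (hB : B ∈ π.Z)
    (hR : R ∈ π.W) (hf : ∀ a ∈ π.hat A, ∀ b ∈ π.hat B, ∀ b' ∈ π.hat B,
      pair a b ∈ R → pair a b' ∈ R → b = b')
    (hc : ∀ b ∈ π.hat B, ∃ a ∈ π.hat A, pair a b ∈ R) : B.card ≤ A.card * ℵ₀ := by
  classical
  obtain ⟨τ, hτ, rfl⟩ := hR
  set S : Set (PName P) := {τ, check A, check B} with hS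
  have hτS : τ ∈ S := by simp [hS]
  have hAS : check A ∈ S := by simp [hS]
  have hBS : check B ∈ S := by simp [hS]
  have hSπ : S ⊆ π.N := by
    rintro x (rfl | rfl | rfl)
    · exact hτ
    · exact hA
    · exact hB
  have hd : NDfn S fun π (_ : Fin 0 → ZFSet.{0}) =>
      (∀ a ∈ π.hat A, ∀ b ∈ π.hat B, ∀ b' ∈ π.hat B,
        pair a b ∈ π.val τ → pair a b' ∈ π.val τ → b = b') ∧
      ∀ b ∈ π.hat B, ∃ a ∈ π.hat A, pair a b ∈ π.val τ := by
    (repeat' first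
      | assumption
      | exact NDfnF.proj _
      | exact NDfnF.val (by assumption)
      | exact NDfnF.hat (by assumption)
      | apply NDfn.not | apply NDfn.and | apply NDfn.or | apply NDfn.imp | apply NDfn.iff
      | apply NDfn.bex | apply NDfn.ball | apply NDfn.ex | apply NDfn.all
      | apply NDfn.eq | apply NDfn.mem | apply NDfnF.pair)
  obtain ⟨k, hk⟩ := forcing_theorem hd π hSπ ⟨hf, hc⟩
  set p := π.g k with hp
  let D : ZFSet.{0} → ZFSet.{0} → P → Prop := fun a b q => ∀ π' : Pkg P,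
    S ⊆ π'.N → check a ∈ π'.N → check b ∈ π'.N → (∃ m, π'.g m ≤ q) →
      pair (π'.hat a) (π'.hat b) ∈ π'.val τ
  have hT : ∀ a ∈ A, {b | b ∈ B ∧ ∃ q ≤ p, D a b q}.Countable := by
    intro a ha
    choose! q hq1 hq2 using fun b (hb : b ∈ B ∧ ∃ q ≤ p, D a b q) => hb.2
    have hcomp : ∀ b b' : ZFSet.{0}, (b ∈ B ∧ ∃ q ≤ p, D a b q) →
        (b' ∈ B ∧ ∃ q ≤ p, D a b' q) → (∃ r, r ≤ q b ∧ r ≤ q b') → b = b' := by
      rintro b b' hb hb' ⟨r, hr, hr'⟩
      obtain ⟨π', h1, h2⟩ := exists_pkg' (S ∪ {check a, check b, check b'})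
        ((Set.toFinite S).countable.union (Set.toFinite _).countable) r
      have hSπ' : S ⊆ π'.N := fun x hx => h1 (Or.inl hx)
      have haZ : a ∈ π'.Z := h1 (Or.inr (by simp))
      have hbZ : b ∈ π'.Z := h1 (Or.inr (by simp))
      have hbZ' : b' ∈ π'.Z := h1 (Or.inr (by simp))
      have h3 := hk π' hSπ' ⟨0, by
        rw [h2]
        exact hr.trans (hq1 b hb)⟩
      have h4 := hq2 b hb π' hSπ' haZ hbZ ⟨0, by
        rw [h2]
        exact hr⟩
      have h5 := hq2 b' hb' π' hSπ' haZ hbZ' ⟨0, by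
        rw [h2]
        exact hr'⟩
      have h6 := h3.1 _ ((π'.hat_mem_hat haZ (hSπ' hAS)).2 ha) _
        ((π'.hat_mem_hat hbZ (hSπ' hBS)).2 hb.1) _
        ((π'.hat_mem_hat hbZ' (hSπ' hBS)).2 hb'.1) h4 h5
      exact (π'.hat_inj hbZ hbZ').1 h6
    have hinj : Set.InjOn q {b | b ∈ B ∧ ∃ q ≤ p, D a b q} := by
      intro b hb b' hb' h
      exact hcomp b b' hb hb' ⟨q b, le_rfl, h.le⟩
    refine Set.countable_of_injective_of_countable_image hinj (hP _ ?_)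
    rintro _ ⟨b, hb, rfl⟩ _ ⟨b', hb', rfl⟩ hne hr
    exact hne (by rw [hcomp b b' hb hb' hr])
  by_contra hlt
  obtain ⟨b, hb, hbT⟩ := exists_not_mem (fun a => {b | b ∈ B ∧ ∃ q ≤ p, D a b q}) hT
    (not_le.1 hlt)
  obtain ⟨π', h1, h2⟩ := exists_pkg' (S ∪ {check b})
    ((Set.toFinite S).countable.union (Set.toFinite _).countable) p
  have hSπ' : S ⊆ π'.N := fun x hx => h1 (Or.inl hx)
  have hbZ : b ∈ π'.Z := h1 (Or.inr (by simp))
  have h3 := hk π' hSπ' ⟨0, h2.le⟩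
  obtain ⟨a', ha', h4⟩ := h3.2 (π'.hat b) ((π'.hat_mem_hat hbZ (hSπ' hBS)).2 hb)
  obtain ⟨a, ha, haZ, rfl⟩ := π'.mem_hat.1 ha'
  have hd2 : NDfn (S ∪ {check a, check b}) fun π (_ : Fin 0 → ZFSet.{0}) =>
      pair (π.hat a) (π.hat b) ∈ π.val τ := by
    have haS : check a ∈ S ∪ {check a, check b} := Or.inr (by simp)
    have hbS : check b ∈ S ∪ {check a, check b} := Or.inr (by simp)
    have hτS' : τ ∈ S ∪ {check a, check b} := Or.inl hτS
    exact NDfn.mem ((NDfnF.hat haS).pair (NDfnF.hat hbS)) (NDfnF.val hτS')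
  obtain ⟨m, hm⟩ := forcing_theorem hd2 π' (by
    rintro x (hx | rfl | rfl)
    · exact hSπ' hx
    · exact haZ
    · exact hbZ) h4
  refine hbT a ha ⟨hb, π'.g m, ?_, ?_⟩
  · rw [← h2]
    exact π'.g_anti (Nat.zero_le m)
  · intro π'' h5 h6 h7 h8
    refine hm π'' ?_ h8
    rintro x (hx | rfl | rfl)
    · exact h5 hx
    · exact h6
    · exact h7

end Pool.Agent.W868
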