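import Pool.Agent.W868.Lev

/-!
# Classes closed under the basic operations, and definable subsets
-/

set_option autoImplicit false
set_option linter.unreachableTactic false
set_option linter.unusedTactic false

namespace Pool.Agent.W868

open ZFSet (pair)

/-- A transitive class closed under the basic operations. -/
structure Gd (A : ZFSet.{0}) (C : Set ZFSet.{0}) : Prop where
  trans : ∀ x ∈ C, ∀ y ∈ x, y ∈ C
  ne : ∃ x, x ∈ C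
  cl : ∀ i < 10, ∀ a ∈ C, ∀ b ∈ C, ∃ y ∈ C, ∀ u, u ∈ y ↔ GR A i u a b

/-- The code of a tuple. -/
noncomputable def tup : {n : ℕ} → (Fin n → ZFSet.{0}) → ZFSet.{0}
  | 0, _ => ∅
  | _ + 1, v => pair (v 0) (tup (Fin.tail v))

theorem tup_inj : {n : ℕ} → {v w : Fin n → ZFSet.{0}} → tup v = tup w → v = w
  | 0, v, w, _ => funext fun i => i.elim0
  | n + 1, v, w, h => by
    obtain ⟨h1, h2⟩ := ZFSet.pair_inj.1 h
    have h3 := tup_inj h2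
    rw [← Fin.cons_self_tail v, ← Fin.cons_self_tail w, h1, h3]

theorem tup_cons {n : ℕ} (a : ZFSet.{0}) (v : Fin n → ZFSet.{0}) :
    tup (Fin.cons a v : Fin (n + 1) → ZFSet.{0}) = pair a (tup v) := rfl

/-- `p` is the code of an `n`-tuple from `X`. -/
def IsTup (X : ZFSet.{0}) (n : ℕ) (p : ZFSet.{0}) (v : Fin n → ZFSet.{0}) : Prop :=
  (∀ i, v i ∈ X) ∧ p = tup v

theorem isTup_succ {X p : ZFSet.{0}} {n : ℕ} {Q : (Fin (n + 1) → ZFSet.{0}) → Prop} :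
    (∃ v, IsTup X (n + 1) p v ∧ Q v) ↔
      ∃ x ∈ X, ∃ q, p = pair x q ∧ ∃ w, IsTup X n q w ∧ Q (Fin.cons x w) := by
  constructor
  · rintro ⟨v, ⟨h1, rfl⟩, h2⟩
    refine ⟨v 0, h1 0, tup (Fin.tail v), rfl, Fin.tail v, ⟨fun i => h1 _, rfl⟩, ?_⟩
    rwa [Fin.cons_self_tail]
  · rintro ⟨x, hx, q, rfl, w, ⟨h1, rfl⟩, h2⟩
    refine ⟨Fin.cons x w, ⟨fun i => ?_, rfl⟩, h2⟩
    refine Fin.cases ?_ (fun i => ?_) i
    · exact hx
    · exact h1 i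

namespace Gd

variable {A : ZFSet.{0}} {C : Set ZFSet.{0}} (hC : Gd A C)

include hC

theorem empty_mem : ∅ ∈ C := by
  obtain ⟨x, hx⟩ := hC.ne
  obtain ⟨y, hy, h⟩ := hC.cl 3 (by omega) x hx x hx
  have h1 : y = ∅ := by
    rw [ZFSet.eq_empty]
    intro u hu
    have h2 := (h u).1 hu
    exact h2.2 h2.1
  exact h1 ▸ hy

theorem upair_mem {a b : ZFSet.{0}} (ha : a ∈ C) (hb : b ∈ C) : ({a, b} : ZFSet.{0}) ∈ C := by
  obtain ⟨y, hy, h⟩ := hC.cl 1 (by omega) a ha b hb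
  have h1 : y = {a, b} := by
    ext u
    rw [h, ZFSet.mem_pair]
    rfl
  exact h1 ▸ hy

theorem single_mem {a : ZFSet.{0}} (ha : a ∈ C) : ({a} : ZFSet.{0}) ∈ C := by
  have h := hC.upair_mem ha ha
  rwa [ZFSet.pair_eq_singleton] at h

theorem sUnion_mem {a : ZFSet.{0}} (ha : a ∈ C) : (ZFSet.sUnion a : ZFSet.{0}) ∈ C := by
  obtain ⟨y, hy, h⟩ := hC.cl 2 (by omega) a ha a ha
  have h1 : y = ZFSet.sUnion a := by
    ext u
    rw [h, ZFSet.mem_sUnion]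
    rfl
  exact h1 ▸ hy

theorem diff_mem {a b : ZFSet.{0}} (ha : a ∈ C) (hb : b ∈ C) : a \ b ∈ C := by
  obtain ⟨y, hy, h⟩ := hC.cl 3 (by omega) a ha b hb
  have h1 : y = a \ b := by
    ext u
    rw [h, ZFSet.mem_sdiff]
    rfl
  exact h1 ▸ hy

theorem inter_mem {a b : ZFSet.{0}} (ha : a ∈ C) (hb : b ∈ C) : a ∩ b ∈ C := by
  have h := hC.diff_mem ha (hC.diff_mem ha hb)
  have h1 : a \ (a \ b) = a ∩ b := by
    ext u
    simp only [ZFSet.mem_sdiff, ZFSet.mem_inter]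
    tauto
  exact h1 ▸ h

theorem prod_mem {a b : ZFSet.{0}} (ha : a ∈ C) (hb : b ∈ C) : ZFSet.prod a b ∈ C := by
  obtain ⟨y, hy, h⟩ := hC.cl 4 (by omega) a ha b hb
  have h1 : y = ZFSet.prod a b := by
    ext u
    rw [h, ZFSet.mem_prod]
    rfl
  exact h1 ▸ hy

/-- The set of all tuples. -/
theorem exists_pows {X : ZFSet.{0}} (hX : X ∈ C) : ∀ n : ℕ,
    ∃ P ∈ C, ∀ p, p ∈ P ↔ ∃ v, IsTup X n p v
  | 0 => by
    refine ⟨{∅}, hC.single_mem hC.empty_mem, fun p => ?_⟩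
    rw [ZFSet.mem_singleton]
    constructor
    · rintro rfl
      exact ⟨Fin.elim0, fun i => i.elim0, rfl⟩
    · rintro ⟨v, -, rfl⟩
      rfl
  | n + 1 => by
    obtain ⟨P, hP, h⟩ := exists_pows hX n
    refine ⟨_, hC.prod_mem hX hP, fun p => ?_⟩
    have h1 := isTup_succ (X := X) (p := p) (n := n) (Q := fun _ => True)
    simp only [and_true] at h1
    rw [h1, ZFSet.mem_prod]
    constructor
    · rintro ⟨x, hx, q, hq, h2⟩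
      exact ⟨x, hx, q, h2, (h q).1 hq⟩
    · rintro ⟨x, hx, q, h2, hq⟩
      exact ⟨x, hx, q, (h q).2 hq, h2⟩

/-- The graph of a term. -/
theorem exists_var {X : ZFSet.{0}} (hX : X ∈ C) : ∀ (n : ℕ) (i : Fin n),
    ∃ I ∈ C, ∀ q, q ∈ I ↔ ∃ p v, q = pair (v i) p ∧ IsTup X n p v
  | 0, i => i.elim0
  | n + 1, i => by
    refine Fin.cases ?_ (fun i => ?_) i
    · obtain ⟨P, hP, h⟩ := hC.exists_pows hX n
      obtain ⟨y, hy, h'⟩ := hC.cl 7 (by omega) X hX P hP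
      refine ⟨y, hy, fun q => ?_⟩
      rw [h']
      constructor
      · rintro ⟨x, hx, r, hr, c, d, rfl, rfl, rfl⟩
        obtain ⟨v, hv, rfl⟩ := (h r).1 hr
        refine ⟨_, Fin.cons c v, rfl, fun i => ?_, rfl⟩
        refine Fin.cases ?_ (fun i => ?_) i
        · exact hx
        · exact hv i
      · rintro ⟨p, v, rfl, hv, rfl⟩
        exact ⟨v 0, hv 0, tup (Fin.tail v), (h _).2 ⟨_, fun i => hv _, rfl⟩, _, _, rfl, rfl, rfl⟩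
    · obtain ⟨I, hI, h⟩ := exists_var hX n i
      obtain ⟨y, hy, h'⟩ := hC.cl 8 (by omega) X hX I hI
      refine ⟨y, hy, fun q => ?_⟩
      rw [h']
      constructor
      · rintro ⟨z, hz, p, hp, x, r, rfl, c, d, rfl, rfl, rfl⟩
        obtain ⟨p', v, h1, hv, rfl⟩ := (h _).1 hp
        obtain ⟨rfl, rfl⟩ := ZFSet.pair_inj.1 h1
        refine ⟨_, Fin.cons z v, rfl, fun i => ?_, rfl⟩
        refine Fin.cases ?_ (fun i => ?_) i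
        · exact hz
        · exact hv i
      · rintro ⟨p, v, rfl, hv, rfl⟩
        exact ⟨v 0, hv 0, pair (Fin.tail v i) (tup (Fin.tail v)),
          (h _).2 ⟨_, _, rfl, fun i => hv _, rfl⟩, _, _, rfl, _, _, rfl, rfl, rfl⟩

theorem exists_term {X : ZFSet.{0}} (hX : X ∈ C) {n : ℕ} (s : Fin n ⊕ ZFSet.{0})
    (hs : TOver {x | x ∈ X} s) :
    ∃ I ∈ C, ∀ q, q ∈ I ↔ ∃ p v, q = pair (Sum.elim v id s) p ∧ IsTup X n p v := by
  cases s with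
  | inl i => exact hC.exists_var hX n i
  | inr a =>
    have ha : a ∈ X := hs a rfl
    have haC := hC.trans _ hX _ ha
    obtain ⟨P, hP, h⟩ := hC.exists_pows hX n
    refine ⟨_, hC.prod_mem (hC.single_mem haC) hP, fun q => ?_⟩
    rw [ZFSet.mem_prod]
    constructor
    · rintro ⟨x, hx, p, hp, rfl⟩
      rw [ZFSet.mem_singleton] at hx
      subst hx
      obtain ⟨v, hv⟩ := (h p).1 hp
      exact ⟨p, v, rfl, hv⟩
    · rintro ⟨p, v, rfl, hv⟩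
      exact ⟨a, ZFSet.mem_singleton.2 rfl, p, (h p).2 ⟨v, hv⟩, rfl⟩

/-- The set of the tuples that satisfy a formula. -/
theorem exists_sat {X : ZFSet.{0}} (hX : X ∈ C) : {n : ℕ} → (φ : Fml ZFSet.{0} n) →
    φ.Over {x | x ∈ X} → ∃ D ∈ C, ∀ p, p ∈ D ↔ ∃ v, IsTup X n p v ∧ Sat {x | x ∈ X} id φ v
  | n, .mem s t, h => by
    obtain ⟨I, hI, h1⟩ := hC.exists_term hX s h.1
    obtain ⟨J, hJ, h2⟩ := hC.exists_term hX t h.2
    obtain ⟨y, hy, h'⟩ := hC.cl 9 (by omega) I hI J hJ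
    refine ⟨y, hy, fun p => ?_⟩
    rw [h']
    constructor
    · rintro ⟨q, hq, q', hq', a, r, rfl, rfl, a', r', rfl, rfl, h3⟩
      obtain ⟨p, v, h4, hv, rfl⟩ := (h1 _).1 hq
      obtain ⟨p', v', h5, hv', rfl⟩ := (h2 _).1 hq'
      obtain ⟨rfl, rfl⟩ := ZFSet.pair_inj.1 h4
      obtain ⟨rfl, h6⟩ := ZFSet.pair_inj.1 h5
      obtain rfl := tup_inj h6
      exact ⟨v, ⟨hv, rfl⟩, h3⟩
    · rintro ⟨v, hv, h3⟩
      exact ⟨_, (h1 _).2 ⟨p, v, rfl, hv⟩, _, (h2 _).2 ⟨p, v, rfl, hv⟩, _, _, rfl, rfl, _, _, rfl,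
        rfl, h3⟩
  | n, .eq s t, h => by
    obtain ⟨I, hI, h1⟩ := hC.exists_term hX s h.1
    obtain ⟨J, hJ, h2⟩ := hC.exists_term hX t h.2
    obtain ⟨y, hy, h'⟩ := hC.cl 5 (by omega) _ (hC.inter_mem hI hJ) _ hI
    refine ⟨y, hy, fun p => ?_⟩
    rw [h']
    constructor
    · rintro ⟨q, hq, a, r, rfl, rfl⟩
      rw [ZFSet.mem_inter] at hq
      obtain ⟨p, v, h4, hv, rfl⟩ := (h1 _).1 hq.1
      obtain ⟨p', v', h5, hv', rfl⟩ := (h2 _).1 hq.2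
      obtain ⟨rfl, rfl⟩ := ZFSet.pair_inj.1 h4
      obtain ⟨h7, h6⟩ := ZFSet.pair_inj.1 h5
      obtain rfl := tup_inj h6
      exact ⟨v, ⟨hv, rfl⟩, h7⟩
    · rintro ⟨v, hv, h3⟩
      refine ⟨pair (Sum.elim v id s) p, ZFSet.mem_inter.2 ⟨(h1 _).2 ⟨p, v, rfl, hv⟩, ?_⟩, _, _,
        rfl, rfl⟩
      have h4 : Sum.elim v id s = Sum.elim v id t := h3
      rw [h4]
      exact (h2 _).2 ⟨p, v, rfl, hv⟩
  | n, .neg φ, h => by
    obtain ⟨P, hP, h1⟩ := hC.exists_pows hX n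
    obtain ⟨D, hD, h2⟩ := exists_sat hX φ h
    refine ⟨_, hC.diff_mem hP hD, fun p => ?_⟩
    rw [ZFSet.mem_sdiff, h1, h2]
    constructor
    · rintro ⟨⟨v, hv⟩, h3⟩
      exact ⟨v, hv, fun h4 => h3 ⟨v, hv, h4⟩⟩
    · rintro ⟨v, hv, h3⟩
      refine ⟨⟨v, hv⟩, ?_⟩
      rintro ⟨v', hv', h4⟩
      obtain rfl := tup_inj (hv.2.symm.trans hv'.2)
      exact h3 h4
  | n, .and φ ψ, h => by
    obtain ⟨D, hD, h1⟩ := exists_sat hX φ h.1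
    obtain ⟨E, hE, h2⟩ := exists_sat hX ψ h.2
    refine ⟨_, hC.inter_mem hD hE, fun p => ?_⟩
    rw [ZFSet.mem_inter, h1, h2]
    constructor
    · rintro ⟨⟨v, hv, h3⟩, ⟨v', hv', h4⟩⟩
      obtain rfl := tup_inj (hv.2.symm.trans hv'.2)
      exact ⟨v, hv, h3, h4⟩
    · rintro ⟨v, hv, h3, h4⟩
      exact ⟨⟨v, hv, h3⟩, ⟨v, hv, h4⟩⟩
  | n, .ex φ, h => by
    obtain ⟨D, hD, h1⟩ := exists_sat hX φ h
    obtain ⟨y, hy, h'⟩ := hC.cl 5 (by omega) D hD D hD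
    refine ⟨y, hy, fun p => ?_⟩
    rw [h']
    constructor
    · rintro ⟨q, hq, a, r, rfl, rfl⟩
      obtain ⟨a', ha, q, h2, w, hw, h3⟩ := isTup_succ.1 ((h1 _).1 hq)
      obtain ⟨rfl, rfl⟩ := ZFSet.pair_inj.1 h2
      exact ⟨w, hw, a, ha, h3⟩
    · rintro ⟨v, hv, a, ha, h3⟩
      exact ⟨pair a p, (h1 _).2 (isTup_succ.2 ⟨a, ha, p, rfl, v, hv, h3⟩), _, _, rfl, rfl⟩

/-- Definable subsets. -/
theorem sep {X : ZFSet.{0}} (hX : X ∈ C) (φ : Fml ZFSet.{0} 1) (hφ : φ.Over {x | x ∈ X}) :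
    ∃ y ∈ C, ∀ z, z ∈ y ↔ z ∈ X ∧ Sat {x | x ∈ X} id φ ![z] := by
  obtain ⟨D, hD, h1⟩ := hC.exists_sat hX φ hφ
  obtain ⟨y, hy, h'⟩ := hC.cl 6 (by omega) D hD D hD
  refine ⟨y, hy, fun z => ?_⟩
  have hv : ∀ (x : ZFSet.{0}) (w : Fin 0 → ZFSet.{0}),
      (Fin.cons x w : Fin 1 → ZFSet.{0}) = ![x] := by
    intro x w
    funext i
    fin_cases i
    rfl
  rw [h']
  constructor
  · rintro ⟨q, hq, a, r, rfl, rfl⟩
    obtain ⟨a', ha, q, h2, w, hw, h3⟩ := isTup_succ.1 ((h1 _).1 hq)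
    obtain ⟨rfl, rfl⟩ := ZFSet.pair_inj.1 h2
    rw [hv] at h3
    exact ⟨ha, h3⟩
  · rintro ⟨hz, h3⟩
    refine ⟨pair z ∅, (h1 _).2 (isTup_succ.2 ⟨z, hz, ∅, rfl, Fin.elim0, ⟨fun i => i.elim0, rfl⟩,
      ?_⟩), _, _, rfl, rfl⟩
    rw [hv]
    exact h3

end Gd

/-! ### The constructible sets of a model -/

/-- The sets of `M` that are constructible relative to `A`. -/
def LC (M : Set ZFSet.{0}) (A : ZFSet.{0}) : Set ZFSet.{0} :=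
  {x | ∃ ξ ∈ M, ξ.IsOrdinal ∧ x ∈ Lv A ξ}

/-- The successor. -/
noncomputable def sc (z : ZFSet.{0}) : ZFSet.{0} := insert z z

theorem Lv_sc {A z : ZFSet.{0}} : Lv A (sc z) = step A (Lv A z) := Lv_succ

theorem upair_mem_Lv {A ξ x y : ZFSet.{0}} (hx : x ∈ Lv A ξ) (hy : y ∈ Lv A ξ) :
    ({x, y} : ZFSet.{0}) ∈ Lv A (sc ξ) := by
  rw [Lv_sc]
  refine mem_step.2 (Or.inr ⟨1, by omega, x, ZFSet.mem_insert_of_mem _ hx, y,
    ZFSet.mem_insert_of_mem _ hy, fun u => ?_⟩)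
  rw [ZFSet.mem_pair]
  constructor
  · rintro (rfl | rfl)
    · exact ⟨hx, Or.inl rfl⟩
    · exact ⟨hy, Or.inr rfl⟩
  · exact fun h => h.2

theorem pair_mem_Lv {A ξ x y : ZFSet.{0}} (hx : x ∈ Lv A ξ) (hy : y ∈ Lv A ξ) :
    pair x y ∈ Lv A (sc (sc ξ)) := by
  have h1 := upair_mem_Lv hx hx
  rw [ZFSet.pair_eq_singleton] at h1
  exact upair_mem_Lv h1 (upair_mem_Lv hx hy)

theorem Lv_sub_sc {A ξ : ZFSet.{0}} : Lv A ξ ⊆ Lv A (sc ξ) := Lv_subset (ZFSet.mem_insert _ _)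

theorem Lv_sub_sc2 {A ξ : ZFSet.{0}} : Lv A ξ ⊆ Lv A (sc (sc ξ)) :=
  fun _ h => Lv_sub_sc (Lv_sub_sc h)

theorem of_pair_mem_Lv {A ξ x y : ZFSet.{0}} (h : pair x y ∈ Lv A ξ) : x ∈ Lv A ξ ∧ y ∈ Lv A ξ := by
  have h1 : ({x, y} : ZFSet.{0}) ∈ Lv A ξ := Lv_trans _ _ h _ (by simp [pair])
  exact ⟨Lv_trans _ _ h1 _ (by simp), Lv_trans _ _ h1 _ (by simp)⟩

theorem GR_bound {A ξ a b u : ZFSet.{0}} (ha : a ∈ Lv A ξ) (hb : b ∈ Lv A ξ) :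
    ∀ i < 10, GR A i u a b → u ∈ Lv A (sc (sc (sc (sc ξ)))) := by
  intro i hi h
  have tr : ∀ {x y : ZFSet.{0}}, x ∈ y → y ∈ Lv A ξ → x ∈ Lv A ξ := fun hx hy =>
    Lv_trans _ _ hy _ hx
  have up : ∀ {x : ZFSet.{0}}, x ∈ Lv A ξ → x ∈ Lv A (sc (sc (sc (sc ξ)))) := fun hx =>
    Lv_sub_sc2 (Lv_sub_sc2 hx)
  match i, hi, h with
  | 0, _, h => exact up (tr h ha)
  | 1, _, h =>
    rcases h with rfl | rfl
    · exact up ha
    · exact up hb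
  | 2, _, h =>
    obtain ⟨x, hx, h⟩ := h
    exact up (tr h (tr hx ha))
  | 3, _, h => exact up (tr h.1 ha)
  | 4, _, h =>
    obtain ⟨x, hx, y, hy, rfl⟩ := h
    exact Lv_sub_sc2 (pair_mem_Lv (tr hx ha) (tr hy hb))
  | 5, _, h =>
    obtain ⟨p, hp, x, y, rfl, rfl⟩ := h
    exact up (of_pair_mem_Lv (tr hp ha)).2
  | 6, _, h =>
    obtain ⟨p, hp, x, y, rfl, rfl⟩ := h
    exact up (of_pair_mem_Lv (tr hp ha)).1
  | 7, _, h =>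
    obtain ⟨x, hx, y, hy, c, d, rfl, rfl, rfl⟩ := h
    exact pair_mem_Lv (Lv_sub_sc2 (tr hx ha)) (pair_mem_Lv (tr hx ha) (tr hy hb))
  | 8, _, h =>
    obtain ⟨z, hz, p, hp, x, y, rfl, c, d, rfl, rfl, rfl⟩ := h
    have h1 := of_pair_mem_Lv (tr hp hb)
    exact pair_mem_Lv (Lv_sub_sc2 h1.1) (pair_mem_Lv (tr hz ha) h1.2)
  | 9, _, h =>
    obtain ⟨p, hp, q, hq, x, y, rfl, rfl, -⟩ := h
    exact up (of_pair_mem_Lv (tr hp ha)).2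

section LC

variable {M : Set ZFSet.{0}} (hM : IsZF M) {A : ZFSet.{0}}

include hM

theorem IsZF.sc_mem {z : ZFSet.{0}} (hz : z ∈ M) : sc z ∈ M := hM.insert_mem hz hz

theorem gd_LC : Gd A (LC M A) := by
  have hsc : ∀ ξ ∈ M, sc ξ ∈ M := fun ξ h => hM.sc_mem h
  have hso : ∀ {ξ : ZFSet.{0}}, ξ.IsOrdinal → (sc ξ).IsOrdinal := fun h => ZFSet.isOrdinal_succ h
  refine ⟨?_, ?_, ?_⟩
  · rintro x ⟨ξ, h1, h2, h3⟩ y hy
    exact ⟨ξ, h1, h2, Lv_trans _ _ h3 _ hy⟩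
  · refine ⟨Lv A ∅, sc ∅, hsc _ hM.empty_mem, hso ZFSet.isOrdinal_empty,
      Lv_mem (ZFSet.mem_insert _ _)⟩
  · rintro i hi a ⟨ξ, h1, h2, ha⟩ b ⟨η, h3, h4, hb⟩
    obtain ⟨ζ, hζ, hζo, ha', hb'⟩ : ∃ ζ ∈ M, ζ.IsOrdinal ∧ a ∈ Lv A ζ ∧ b ∈ Lv A ζ := by
      rcases h2.subset_total h4 with h5 | h5
      · exact ⟨η, h3, h4, Lv_mono h5 ha, hb⟩
      · exact ⟨ξ, h1, h2, ha, Lv_mono h5 hb⟩
    set δ := sc (sc (sc (sc ζ))) with hδ
    have hδM : δ ∈ M := hsc _ (hsc _ (hsc _ (hsc _ hζ)))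
    have hδo : δ.IsOrdinal := hso (hso (hso (hso hζo)))
    have up : ∀ {x : ZFSet.{0}}, x ∈ Lv A ζ → x ∈ Lv A δ := fun hx =>
      Lv_sub_sc2 (Lv_sub_sc2 hx)
    refine ⟨ZFSet.sep (fun u => GR A i u a b) (Lv A δ), ⟨sc δ, hsc _ hδM, hso hδo, ?_⟩, ?_⟩
    · rw [Lv_sc]
      refine mem_step.2 (Or.inr ⟨i, by omega, a, ZFSet.mem_insert_of_mem _ (up ha'), b,
        ZFSet.mem_insert_of_mem _ (up hb'), fun u => ?_⟩)
      rw [ZFSet.mem_sep]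
    · intro u
      rw [ZFSet.mem_sep]
      exact ⟨fun h => h.2, fun h => ⟨GR_bound ha' hb' i hi h, h⟩⟩

end LC

end Pool.Agent.W868
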