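import Pool.Agent.W868.Base2

/-!
# Cohen forcing
-/

set_option autoImplicit false
set_option linter.unreachableTactic false
set_option linter.unusedTactic false
set_option linter.unusedSectionVars false

namespace Pool.Agent.W868

open PName
open ZFSet (pair)
open Cardinal

/-- In `M`, the sets `{n | (a, n) ∈ c}`, `a ∈ κ`, are up to their elements `0`, `1` all the sets
of natural numbers, for a suitable `c`. -/
def Cover (M : Set ZFSet.{0}) (κ : ZFSet.{0}) : Prop :=
  ∃ c ∈ M, ∀ r ∈ M, r ⊆ ZFSet.omega → ∃ a ∈ κ, ∀ n ∈ ZFSet.omega, n ≠ nat 0 → n ≠ nat 1 →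
    (pair a n ∈ c ↔ n ∈ r)

/-! ### The forcing notion -/

/-- Finite partial functions from `I` to the booleans. -/
def Coh (I : Type) : Type := {p : Finset (I × Bool) // ∀ i, ¬ ((i, true) ∈ p ∧ (i, false) ∈ p)}

namespace Coh

variable {I : Type}

instance : Preorder (Coh I) where
  le p q := q.1 ⊆ p.1
  le_refl p := Finset.Subset.refl _
  le_trans p q r h1 h2 := Finset.Subset.trans h2 h1

instance : OrderTop (Coh I) where
  top := ⟨∅, fun i => by simp⟩
  le_top p := Finset.empty_subset _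

theorem le_def {p q : Coh I} : p ≤ q ↔ q.1 ⊆ p.1 := Iff.rfl

/-- The condition with one value. -/
def single (t : I × Bool) : Coh I := ⟨{t}, fun i h => by
  obtain ⟨i', b⟩ := t
  simp only [Finset.mem_singleton, Prod.mk.injEq] at h
  have h1 := h.1.2.trans h.2.2.symm
  cases h1⟩

theorem le_single {p : Coh I} {t : I × Bool} : p ≤ single t ↔ t ∈ p.1 := by
  rw [le_def, single, Finset.singleton_subset_iff]

theorem not_both (p : Coh I) {i : I} (h1 : (i, true) ∈ p.1) (h2 : (i, false) ∈ p.1) : False :=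
  p.2 i ⟨h1, h2⟩

/-- Adding a value at a new index. -/
def add [DecidableEq I] (p : Coh I) (i : I) (b : Bool) (h : (i, !b) ∉ p.1) : Coh I :=
  ⟨insert (i, b) p.1, fun j hj => by
    obtain ⟨h1, h2⟩ := hj
    rw [Finset.mem_insert] at h1 h2
    rcases h1 with h1 | h1
    · rcases h2 with h2 | h2
      · have h3 := (Prod.mk.inj h1).2.trans (Prod.mk.inj h2).2.symm
        cases h3
      · obtain ⟨rfl, rfl⟩ := Prod.mk.inj h1
        exact h h2
    · rcases h2 with h2 | h2
      · obtain ⟨rfl, rfl⟩ := Prod.mk.inj h2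
        exact h h1
      · exact p.2 j ⟨h1, h2⟩⟩

theorem antichain_card [DecidableEq I] (n : ℕ) : ∀ s : Set (Coh I),
    (∀ p ∈ s, p.1.card = n) → (∀ p ∈ s, ∀ q ∈ s, p ≠ q → ¬ ∃ r, r ≤ p ∧ r ≤ q) →
      s.Countable := by
  induction n with
  | zero =>
    intro s hs _
    refine Set.Subsingleton.countable fun p hp q hq => Subtype.ext ?_
    rw [Finset.card_eq_zero.1 (hs p hp), Finset.card_eq_zero.1 (hs q hq)]
  | succ n ih =>
    intro s hs ha
    rcases s.eq_empty_or_nonempty with rfl | ⟨p, hp⟩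
    · exact Set.countable_empty
    have h1 : s ⊆ {p} ∪ ⋃ t ∈ p.1, {q | q ∈ s ∧ (t.1, !t.2) ∈ q.1} := by
      intro q hq
      by_cases hpq : q = p
      · exact Or.inl hpq
      refine Or.inr ?_
      by_contra h2
      simp only [Set.mem_iUnion, not_exists] at h2
      refine ha p hp q hq (Ne.symm hpq) ⟨⟨p.1 ∪ q.1, fun i hi => ?_⟩, ?_, ?_⟩
      · obtain ⟨h3, h4⟩ := hi
        rw [Finset.mem_union] at h3 h4
        rcases h3 with h3 | h3
        · rcases h4 with h4 | h4
          · exact p.not_both h3 h4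
          · exact h2 (i, true) h3 ⟨hq, h4⟩
        · rcases h4 with h4 | h4
          · exact h2 (i, false) h4 ⟨hq, h3⟩
          · exact q.not_both h3 h4
      · exact Finset.subset_union_left
      · exact Finset.subset_union_right
    refine Set.Countable.mono h1 ((Set.countable_singleton _).union
      (Set.Countable.biUnion p.1.countable_toSet fun t _ => ?_))
    let er : Coh I → Coh I := fun q => ⟨q.1.erase (t.1, !t.2), fun i hi =>
      q.2 i ⟨Finset.mem_of_mem_erase hi.1, Finset.mem_of_mem_erase hi.2⟩⟩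
    have hinj : Set.InjOn er {q | q ∈ s ∧ (t.1, !t.2) ∈ q.1} := by
      intro q hq q' hq' h
      have h3 : q.1.erase (t.1, !t.2) = q'.1.erase (t.1, !t.2) := congrArg Subtype.val h
      refine Subtype.ext ?_
      rw [← Finset.insert_erase hq.2, ← Finset.insert_erase hq'.2, h3]
    refine Set.countable_of_injective_of_countable_image hinj (ih _ ?_ ?_)
    · rintro _ ⟨q, hq, rfl⟩
      have h3 := Finset.card_erase_of_mem hq.2
      rw [hs q hq.1] at h3
      exact h3
    · rintro _ ⟨q, hq, rfl⟩ _ ⟨q', hq', rfl⟩ hne ⟨r, hr1, hr2⟩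
      refine ha q hq.1 q' hq'.1 (fun h => hne (by rw [h])) ?_
      have h3 : (t.1, t.2) ∉ q.1 := by
        intro h4
        cases ht : t.2 with
        | true =>
          have := hq.2
          rw [ht] at h4 this
          exact q.not_both h4 this
        | false =>
          have := hq.2
          rw [ht] at h4 this
          exact q.not_both this h4
      have h4 : (t.1, t.2) ∉ q'.1 := by
        intro h4
        cases ht : t.2 with
        | true =>
          have := hq'.2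
          rw [ht] at h4 this
          exact q'.not_both h4 this
        | false =>
          have := hq'.2
          rw [ht] at h4 this
          exact q'.not_both this h4
      have hc : ∀ i, ¬ ((i, true) ∈ q.1 ∪ q'.1 ∧ (i, false) ∈ q.1 ∪ q'.1) := by
        rintro i ⟨h5, h6⟩
        by_cases hi : i = t.1
        · subst hi
          cases ht : t.2 with
          | true =>
            rw [ht] at h3 h4
            rw [Finset.mem_union] at h5
            exact h5.elim h3 h4
          | false =>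
            rw [ht] at h3 h4
            rw [Finset.mem_union] at h6
            exact h6.elim h3 h4
        · have h7 : ∀ b, (i, b) ∈ q.1 ∪ q'.1 → (i, b) ∈ r.1 := by
            intro b hb
            rw [Finset.mem_union] at hb
            rcases hb with hb | hb
            · exact hr1 (Finset.mem_erase.2 ⟨fun h => hi (Prod.mk.inj h).1, hb⟩)
            · exact hr2 (Finset.mem_erase.2 ⟨fun h => hi (Prod.mk.inj h).1, hb⟩)
          exact r.not_both (h7 _ h5) (h7 _ h6)
      exact ⟨⟨q.1 ∪ q'.1, hc⟩, Finset.subset_union_left, Finset.subset_union_right⟩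

theorem ccc : CCC (Coh I) := by
  classical
  intro s hs
  have h : s = ⋃ n : ℕ, {p | p ∈ s ∧ p.1.card = n} := by
    ext p
    simp
  rw [h]
  refine Set.countable_iUnion fun n => antichain_card n _ (fun p hp => hp.2) ?_
  intro p hp q hq
  exact hs p hp.1 q hq.1

end Coh

/-! ### The index set -/

/-- The type of the elements of a set. -/
abbrev Ty (B : ZFSet.{0}) : Type := Shrink.{0} {z // z ∈ B}

/-- The element. -/
noncomputable def el {B : ZFSet.{0}} (i : Ty B) : ZFSet.{0} :=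
  ((equivShrink {z // z ∈ B}).symm i).1

theorem el_mem {B : ZFSet.{0}} (i : Ty B) : el i ∈ B := ((equivShrink {z // z ∈ B}).symm i).2

theorem el_injective {B : ZFSet.{0}} : Function.Injective (el : Ty B → ZFSet.{0}) :=
  fun _ _ h => (equivShrink _).symm.injective (Subtype.ext h)

theorem exists_el {B z : ZFSet.{0}} (hz : z ∈ B) : ∃ i : Ty B, el i = z := by
  refine ⟨equivShrink _ ⟨z, hz⟩, ?_⟩
  rw [el, Equiv.symm_apply_apply]

/-! ### The generic reals -/

section cohen

variable {B : ZFSet.{0}}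

/-- The name of the generic relation. -/
noncomputable def Gam (B : ZFSet.{0}) : PName (Coh (Ty B × ℕ)) :=
  mk (Ty B × ℕ) (fun t => opN (check (el t.1)) (check (nat t.2)))
    fun t => Coh.single (t, true)

variable (π : Pkg (Coh (Ty B × ℕ)))

theorem mem_Gam {i : Ty B} {n : ℕ} (hi : el i ∈ π.Z) :
    pair (π.hat (el i)) (nat n) ∈ π.val (Gam B) ↔ ∃ m, ((i, n), true) ∈ (π.g m).1 := by
  rw [Pkg.mem_val]
  constructor
  · rintro ⟨t, ht, c, hc, ⟨m, hm⟩, he⟩
    obtain ⟨⟨j, k⟩, rfl, rfl⟩ := el_mk.1 hc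
    have h1 : el j ∈ π.Z := π.fst_mem ht
    have h2 := π.val_opN h1 (π.snd_mem ht)
    rw [he] at h2
    obtain ⟨h3, h4⟩ := ZFSet.pair_inj.1 h2
    have h5 : nat n = π.hat (nat k) := h4
    rw [π.hat_nat] at h5
    obtain rfl := nat_injective h5
    obtain rfl := el_injective ((π.hat_inj hi h1).1 h3)
    exact ⟨m, Coh.le_single.1 hm⟩
  · rintro ⟨m, hm⟩
    refine ⟨opN (check (el i)) (check (nat n)), π.opN_mem hi (π.nat_Z n), _,
      el_mk.2 ⟨(i, n), rfl, rfl⟩, ⟨m, Coh.le_single.2 hm⟩, ?_⟩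
    rw [π.val_opN hi (π.nat_Z n)]
    have h5 : π.val (check (nat n)) = nat n := π.hat_nat n
    rw [h5]
    rfl

theorem cohen_distinct (hΓ : Gam B ∈ π.N) {b b' : ZFSet.{0}} (hb : b ∈ B) (hbZ : b ∈ π.Z)
    (hb' : b' ∈ B) (hbZ' : b' ∈ π.Z) (hne : b ≠ b') :
    ∃ n ∈ ZFSet.omega, n ≠ nat 0 ∧ n ≠ nat 1 ∧
      ¬ (pair (π.hat b) n ∈ π.val (Gam B) ↔ pair (π.hat b') n ∈ π.val (Gam B)) := by
  classical
  by_contra hcon
  set S : Set (PName (Coh (Ty B × ℕ))) := {Gam B, check b, check b', check ZFSet.omega,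
    check (nat 0), check (nat 1)} with hS
  have s1 : Gam B ∈ S := by simp [hS]
  have s2 : check b ∈ S := by simp [hS]
  have s3 : check b' ∈ S := by simp [hS]
  have s4 : check ZFSet.omega ∈ S := by simp [hS]
  have s5 : check (nat 0) ∈ S := by simp [hS]
  have s6 : check (nat 1) ∈ S := by simp [hS]
  have hSπ : S ⊆ π.N := by
    rintro x (rfl | rfl | rfl | rfl | rfl | rfl)
    · exact hΓ
    · exact hbZ
    · exact hbZ'
    · exact π.omega_Z
    · exact π.nat_Z 0
    · exact π.nat_Z 1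
  have hd : NDfn S fun π (_ : Fin 0 → ZFSet.{0}) => ∀ n ∈ π.hat ZFSet.omega,
      n ≠ π.hat (nat 0) → n ≠ π.hat (nat 1) →
        (pair (π.hat b) n ∈ π.val (Gam B) ↔ pair (π.hat b') n ∈ π.val (Gam B)) := by
    (repeat' first
      | assumption
      | exact NDfnF.proj _
      | exact NDfnF.val (by assumption)
      | exact NDfnF.hat (by assumption)
      | apply NDfn.not | apply NDfn.and | apply NDfn.or | apply NDfn.imp | apply NDfn.iff
      | apply NDfn.bex | apply NDfn.ball | apply NDfn.ex | apply NDfn.all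
      | apply NDfn.eq | apply NDfn.mem | apply NDfnF.pair)
  obtain ⟨k, hk⟩ := forcing_theorem hd π hSπ (by
    intro n hn h0 h1
    rw [π.hat_omega] at hn
    rw [π.hat_nat] at h0 h1
    by_contra h2
    exact hcon ⟨n, hn, h0, h1, h2⟩)
  obtain ⟨i, rfl⟩ := exists_el hb
  obtain ⟨j, rfl⟩ := exists_el hb'
  have hij : i ≠ j := fun h => hne (by rw [h])
  obtain ⟨n, hn⟩ : ∃ n : ℕ, ∀ t ∈ (π.g k).1, t.1.2 < n := by
    refine ⟨((π.g k).1.sup fun t => t.1.2) + 1, fun t ht => ?_⟩
    exact Nat.lt_succ_of_le (Finset.le_sup (f := fun t => t.1.2) ht)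
  set m := n + 2 with hm
  have hm' : ∀ l b, ((l, m), b) ∉ (π.g k).1 := by
    intro l b h
    have h1 : m < n := hn _ h
    omega
  set q := (π.g k).add (i, m) true (hm' _ _) with hq
  have h1 : ((j, m), !false) ∉ q.1 := by
    intro h
    rw [hq] at h
    rcases Finset.mem_insert.1 h with h | h
    · exact hij (Prod.mk.inj (Prod.mk.inj h).1).1.symm
    · exact hm' _ _ h
  set r := q.add (j, m) false h1 with hr
  obtain ⟨π', h2, h3⟩ := exists_pkg' S (Set.toFinite _).countable r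
  have hrq : r ≤ q := Finset.subset_insert _ _
  have hqp : q ≤ π.g k := Finset.subset_insert _ _
  have h4 := hk π' h2 ⟨0, by
    rw [h3]
    exact hrq.trans hqp⟩
  have hiZ : el i ∈ π'.Z := h2 s2
  have hjZ : el j ∈ π'.Z := h2 s3
  have h5 := h4 (nat m) (by
    rw [π'.hat_omega]
    exact mem_omega_iff.2 ⟨m, rfl⟩) (by
    rw [π'.hat_nat]
    intro h
    have := nat_injective h
    omega) (by
    rw [π'.hat_nat]
    intro h
    have := nat_injective h
    omega)
  rw [mem_Gam π' hiZ, mem_Gam π' hjZ] at h5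
  have h6 : ((i, m), true) ∈ (π'.g 0).1 := by
    rw [h3]
    exact hrq (Finset.mem_insert_self _ _)
  obtain ⟨l, hl⟩ := h5.1 ⟨0, h6⟩
  have h7 : ((j, m), false) ∈ (π'.g l).1 := by
    have h8 : ((j, m), false) ∈ (π'.g 0).1 := by
      rw [h3]
      exact Finset.mem_insert_self _ _
    exact π'.g_anti (Nat.zero_le l) h8
  exact (π'.g l).not_both hl h7

/-- In a ccc extension, `Om1` is preserved. -/
theorem aleph1_W_of_ccc {P : Type} [Preorder P] [OrderTop P] (hP : CCC P) (π : Pkg P)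
    (h1 : Om1 ∈ π.Z) : IsAleph1 π.W (π.hat Om1) := by
  have hM := π.isZF_W
  have hB := hM.base
  refine ⟨π.V_subset_W (π.of_hat_mem_V h1), π.hat_isOrdinal ord_Om1, ?_, ?_⟩
  · rintro ⟨f, hf, hinj⟩
    have hd : Dfn π.W π.W fun w : Fin 2 → ZFSet.{0} => pair (w 1) (w 0) ∈ f := by
      (repeat' first
      | assumption
      | exact DfnF.proj _
      | exact DfnF.const (by assumption)
      | exact DfnF.const' (by first | assumption | trivial) (by first | assumption | trivial)
      | exact Dfn.prop _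
      | apply Dfn.not | apply Dfn.and | apply Dfn.or | apply Dfn.imp | apply Dfn.iff
      | apply hB.bex | apply hB.ball | apply Dfn.ex | apply Dfn.all
      | apply Dfn.eq | apply Dfn.mem | apply hB.pair')
    have hκ : π.hat Om1 ∈ π.W := π.V_subset_W (π.of_hat_mem_V h1)
    obtain ⟨R, hR, -, hR'⟩ := hM.rel_mem hM.infinity hκ (Q := fun a b => pair b a ∈ f) hd
    have h2 := covering hP π π.omega_Z h1 hR (by
      intro a ha b hb b' hb' h2 h3
      exact hinj.2 b b' a ((hR' a b).1 h2).2.2 ((hR' a b').1 h3).2.2) (by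
      intro b hb
      obtain ⟨n, hn, -⟩ := hinj.1.2 b hb
      have h3 := (ZFSet.pair_mem_prod.1 (hinj.1.1 hn)).2
      refine ⟨n, ?_, (hR' n b).2 ⟨h3, hb, hn⟩⟩
      rw [π.hat_omega]
      exact h3)
    rw [card_Om1, card_omega, Cardinal.aleph0_mul_aleph0] at h2
    exact absurd h2 (not_le.2 Cardinal.aleph0_lt_aleph_one)
  · intro α hα
    obtain ⟨a, ha, haZ, rfl⟩ := π.mem_hat.1 hα
    obtain ⟨f, hf, h2⟩ := π.exists_inj_V haZ π.omega_Z (inj_of_mem_Om1 ha)
    rw [π.hat_omega] at h2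
    exact ⟨f, π.V_subset_W hf, h2⟩

theorem aleph1_V {P : Type} [Preorder P] [OrderTop P] (π : Pkg P)
    (h1 : Om1 ∈ π.Z) (h : IsAleph1 π.W (π.hat Om1)) : IsAleph1 π.V (π.hat Om1) := by
  refine ⟨π.of_hat_mem_V h1, h.2.1, ?_, ?_⟩
  · rintro ⟨f, hf, hinj⟩
    exact h.2.2.1 ⟨f, π.V_subset_W hf, hinj⟩
  · intro α hα
    obtain ⟨a, ha, haZ, rfl⟩ := π.mem_hat.1 hα
    obtain ⟨f, hf, h2⟩ := π.exists_inj_V haZ π.omega_Z (inj_of_mem_Om1 ha)
    rw [π.hat_omega] at h2
    exact ⟨f, hf, h2⟩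

/-- In the Cohen extension there is no cover of the reals by `Om1` reals. -/
theorem cohen_not_cover (π : Pkg (Coh (Ty Om2 × ℕ))) (hΓ : Gam Om2 ∈ π.N) (h1 : Om1 ∈ π.Z)
    (h2 : Om2 ∈ π.Z) : ¬ Cover π.W (π.hat Om1) := by
  have hM := π.isZF_W
  have hB := hM.base
  rintro ⟨c, hc, hcov⟩
  have hκ : π.hat Om1 ∈ π.W := π.V_subset_W (π.of_hat_mem_V h1)
  have hκ2 : π.hat Om2 ∈ π.W := π.V_subset_W (π.of_hat_mem_V h2)
  have hω : ZFSet.omega ∈ π.W := hM.infinity
  have hΓW : π.val (Gam Om2) ∈ π.W := π.val_mem_W hΓ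
  have hn0 : nat 0 ∈ π.W := hM.nat_mem 0
  have hn1 : nat 1 ∈ π.W := hM.nat_mem 1
  have hd : Dfn π.W π.W fun w : Fin 2 → ZFSet.{0} => ∀ n ∈ ZFSet.omega, n ≠ nat 0 → n ≠ nat 1 →
      (pair (w 0) n ∈ c ↔ pair (w 1) n ∈ π.val (Gam Om2)) := by
    (repeat' first
      | assumption
      | exact DfnF.proj _
      | exact DfnF.const (by assumption)
      | exact DfnF.const' (by first | assumption | trivial) (by first | assumption | trivial)
      | exact Dfn.prop _
      | apply Dfn.not | apply Dfn.and | apply Dfn.or | apply Dfn.imp | apply Dfn.iff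
      | apply hB.bex | apply hB.ball | apply Dfn.ex | apply Dfn.all
      | apply Dfn.eq | apply Dfn.mem | apply hB.pair')
  obtain ⟨R, hR, -, hR'⟩ := hM.rel_mem hκ hκ2 (Q := fun a b => ∀ n ∈ ZFSet.omega, n ≠ nat 0 →
    n ≠ nat 1 → (pair a n ∈ c ↔ pair b n ∈ π.val (Gam Om2))) hd
  have h3 := covering Coh.ccc π h1 h2 hR (by
    intro a ha b hb b' hb' h4 h5
    obtain ⟨-, -, h4⟩ := (hR' a b).1 h4
    obtain ⟨-, -, h5⟩ := (hR' a b').1 h5
    by_contra hne
    obtain ⟨β, hβ, hβZ, rfl⟩ := π.mem_hat.1 hb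
    obtain ⟨β', hβ', hβZ', rfl⟩ := π.mem_hat.1 hb'
    obtain ⟨n, hn, hne0, hne1, h6⟩ := cohen_distinct π hΓ hβ hβZ hβ' hβZ'
      (fun h => hne (by rw [h]))
    exact h6 ((h4 n hn hne0 hne1).symm.trans (h5 n hn hne0 hne1))) (by
    intro b hb
    have hbW := hM.trans _ hκ2 _ hb
    have hd2 : Dfn π.W π.W fun w : Fin 1 → ZFSet.{0} => pair b (w 0) ∈ π.val (Gam Om2) := by
      (repeat' first
      | assumption
      | exact DfnF.proj _
      | exact DfnF.const (by assumption)
      | exact DfnF.const' (by first | assumption | trivial) (by first | assumption | trivial)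
      | exact Dfn.prop _
      | apply Dfn.not | apply Dfn.and | apply Dfn.or | apply Dfn.imp | apply Dfn.iff
      | apply hB.bex | apply hB.ball | apply Dfn.ex | apply Dfn.all
      | apply Dfn.eq | apply Dfn.mem | apply hB.pair')
    obtain ⟨a, ha, h4⟩ := hcov _ (hM.sep_mem (Q := fun n => pair b n ∈ π.val (Gam Om2)) hd2 hω)
      (fun n hn => (ZFSet.mem_sep.1 hn).1)
    refine ⟨a, ha, (hR' a b).2 ⟨ha, hb, fun n hn hn0 hn1 => ?_⟩⟩
    rw [h4 n hn hn0 hn1, ZFSet.mem_sep]
    exact ⟨fun h => h.2, fun h => ⟨hn, h⟩⟩)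
  rw [card_Om1, card_Om2, Cardinal.mul_aleph0_eq (Cardinal.aleph0_lt_aleph_one).le] at h3
  exact absurd h3 (not_le.2 (Cardinal.aleph_lt_aleph.2 (by norm_num)))

end cohen

/-- Under CH, the ground model satisfies `Cover`. -/
theorem cover_V_of_ch {P : Type} [Preorder P] [OrderTop P] (π : Pkg P) (h1 : Om1 ∈ π.Z)
    (hCH : (2 : Cardinal.{0}) ^ (ℵ₀ : Cardinal.{0}) = ℵ₁) : Cover π.V (π.hat Om1) := by
  have hB := isBase_univ
  have h2 : ∃ f, IsBij Om1 (ZFSet.powerset ZFSet.omega) f := by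
    refine exists_isBij ?_
    rw [ZFSet.card_powerset, card_omega, hCH, card_Om1]
  have hω := π.omega_Z
  obtain ⟨f, hf⟩ := h2
  have h3 : ∃ c : ZFSet.{0}, ∀ r ∈ Set.univ, r ⊆ ZFSet.omega → ∃ a ∈ Om1,
      ∀ n ∈ ZFSet.omega, (pair a n ∈ c ↔ n ∈ r) := by
    refine ⟨ZFSet.sep (fun p => ∃ a n r, p = pair a n ∧ pair a r ∈ f ∧ n ∈ r)
      (ZFSet.prod Om1 ZFSet.omega), fun r _ hr => ?_⟩
    obtain ⟨a, ha, har⟩ := hf.2 r (ZFSet.mem_powerset.2 hr)
    refine ⟨a, ha, fun n hn => ?_⟩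
    rw [ZFSet.mem_sep]
    constructor
    · rintro ⟨-, a', n', r', h4, h5, h6⟩
      obtain ⟨rfl, rfl⟩ := ZFSet.pair_inj.1 h4
      obtain ⟨w, -, hw⟩ := hf.1.1.2 a ha
      rwa [hw r har, ← hw r' h5]
    · intro hnr
      exact ⟨ZFSet.pair_mem_prod.2 ⟨ha, hn⟩, a, n, r, rfl, har, hnr⟩
  have hd : Dfn π.Z Set.univ fun w : Fin 1 → ZFSet.{0} => ∀ r ∈ Set.univ, r ⊆ ZFSet.omega →
      ∃ a ∈ Om1, ∀ n ∈ ZFSet.omega, (pair a n ∈ w 0 ↔ n ∈ r) := by
    apply Dfn.all
    apply Dfn.imp
    · exact hB.subset' (DfnF.proj 0) (DfnF.const' trivial hω)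
    (repeat' first
      | assumption
      | exact DfnF.proj _
      | exact DfnF.const (by assumption)
      | exact DfnF.const' (by first | assumption | trivial) (by first | assumption | trivial)
      | exact Dfn.prop _
      | apply Dfn.not | apply Dfn.and | apply Dfn.or | apply Dfn.imp | apply Dfn.iff
      | apply hB.bex | apply hB.ball | apply Dfn.ex | apply Dfn.all
      | apply Dfn.eq | apply Dfn.mem | apply hB.pair')
  obtain ⟨c, hc, h4⟩ := π.exists_Z (Q := fun c => ∀ r ∈ Set.univ, r ⊆ ZFSet.omega →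
      ∃ a ∈ Om1, ∀ n ∈ ZFSet.omega, (pair a n ∈ c ↔ n ∈ r)) hd h3
  refine ⟨_, π.of_hat_mem_V hc, ?_⟩
  rintro _ ⟨r, hr, rfl⟩ hrω
  rw [← π.hat_omega] at hrω
  have h5 := π.subset_of_hat hω hr hrω
  have hd2 : Dfn π.Z Set.univ fun w : Fin 1 → ZFSet.{0} => w 0 ∈ Om1 ∧
      ∀ n ∈ ZFSet.omega, (pair (w 0) n ∈ c ↔ n ∈ r) := by
    (repeat' first
      | assumption
      | exact DfnF.proj _
      | exact DfnF.const (by assumption)
      | exact DfnF.const' (by first | assumption | trivial) (by first | assumption | trivial)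
      | exact Dfn.prop _
      | apply Dfn.not | apply Dfn.and | apply Dfn.or | apply Dfn.imp | apply Dfn.iff
      | apply hB.bex | apply hB.ball | apply Dfn.ex | apply Dfn.all
      | apply Dfn.eq | apply Dfn.mem | apply hB.pair')
  obtain ⟨a, haZ, ha, h6⟩ := π.exists_Z (Q := fun a => a ∈ Om1 ∧
      ∀ n ∈ ZFSet.omega, (pair a n ∈ c ↔ n ∈ r)) hd2 (h4 r trivial h5)
  refine ⟨π.hat a, (π.hat_mem_hat haZ h1).2 ha, fun n hn _ _ => ?_⟩
  obtain ⟨m, rfl⟩ := mem_omega_iff.1 hn
  have h7 : pair (π.hat a) (nat m) = pair (π.hat a) (π.hat (nat m)) := by rw [π.hat_nat]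
  rw [h7, π.pair_mem_hat haZ (π.nat_Z m) hc, h6 _ hn, ← π.hat_mem_hat (π.nat_Z m) hr, π.hat_nat]

end Pool.Agent.W868
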