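import Pool.Agent.W868.Mos

/-!
# Condensation
-/

set_option autoImplicit false
set_option linter.unreachableTactic false
set_option linter.unusedTactic false

namespace Pool.Agent.W868

open ZFSet (pair)

theorem D0.ballIns {n : ℕ} {F : (Fin n → ZFSet.{0}) → ZFSet.{0}}
    {Q : ZFSet.{0} → (Fin n → ZFSet.{0}) → Prop} (hF : D0v F)
    (h : D0 fun w : Fin (n + 1) → ZFSet.{0} => Q (w 0) (Fin.tail w)) :
    D0 fun v => ∀ a ∈ (insert (F v) (F v) : ZFSet.{0}), Q a v := by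
  have h1 : D0 fun v => Q (F v) v ∧ ∀ a ∈ F v, Q a v := by
    refine D0.and ?_ (D0.ball hF h)
    obtain ⟨i, hi⟩ := hF
    refine (h.comp (Fin.cons i id)).congr fun v => ?_
    rw [hi]
    rfl
  refine h1.congr fun v => ?_
  constructor
  · rintro ⟨h2, h3⟩ a ha
    rcases ZFSet.mem_insert_iff.1 ha with rfl | ha
    · exact h2
    · exact h3 a ha
  · intro h2
    exact ⟨h2 _ (ZFSet.mem_insert _ _), fun a ha => h2 a (ZFSet.mem_insert_of_mem _ ha)⟩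

theorem D0.bexIns {n : ℕ} {F : (Fin n → ZFSet.{0}) → ZFSet.{0}}
    {Q : ZFSet.{0} → (Fin n → ZFSet.{0}) → Prop} (hF : D0v F)
    (h : D0 fun w : Fin (n + 1) → ZFSet.{0} => Q (w 0) (Fin.tail w)) :
    D0 fun v => ∃ a ∈ (insert (F v) (F v) : ZFSet.{0}), Q a v := by
  have h1 := (D0.ballIns (Q := fun a v => ¬ Q a v) hF h.not).not
  refine h1.congr fun v => ?_
  constructor
  · intro h2
    by_contra h3
    exact h2 fun a ha h4 => h3 ⟨a, ha, h4⟩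
  · rintro ⟨a, ha, h2⟩ h3
    exact h3 a ha h2

/-- `y` is the value of the operation number `i` at `a`, `b`, within `X`. -/
def Vl (A X y a b : ZFSet.{0}) (i : ℕ) : Prop := ∀ u, u ∈ y ↔ u ∈ X ∧ GR A i u a b

theorem d0_Vl {n : ℕ} {F G H K L : (Fin n → ZFSet.{0}) → ZFSet.{0}} (hF : D0v F)
    (hG : D0v G) (hH : D0v H) (hK : D0v K) (hL : D0v L) (i : ℕ) :
    D0 fun v => Vl (F v) (G v) (H v) (K v) (L v) i := by
  have h1 : D0 fun v => (∀ u ∈ H v, u ∈ G v ∧ GR (F v) i u (K v) (L v)) ∧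
      ∀ u ∈ G v, GR (F v) i u (K v) (L v) → u ∈ H v := by
    apply D0.and
    · apply D0.ball hH
      exact D0.and (D0.mem (D0v.proj 0) hG.tail)
        (d0_GR' i hF.tail (D0v.proj 0) hK.tail hL.tail)
    · apply D0.ball hG
      exact D0.imp (d0_GR' i hF.tail (D0v.proj 0) hK.tail hL.tail)
        (D0.mem (D0v.proj 0) hH.tail)
  refine h1.congr fun v => ?_
  constructor
  · rintro ⟨h2, h3⟩ u
    exact ⟨h2 u, fun h => h3 u h.1 h.2⟩
  · intro h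
    exact ⟨fun u hu => (h u).1 hu, fun u h2 h3 => (h u).2 ⟨h2, h3⟩⟩

theorem d0_memStep {n : ℕ} {F G H : (Fin n → ZFSet.{0}) → ZFSet.{0}} (hF : D0v F)
    (hG : D0v G) (hH : D0v H) : D0 fun v => H v ∈ step (F v) (G v) := by
  have h1 : D0 fun v => H v ∈ G v ∨ ∃ i < 11, ∃ a ∈ (insert (G v) (G v) : ZFSet.{0}),
      ∃ b ∈ (insert (G v) (G v) : ZFSet.{0}), Vl (F v) (G v) (H v) a b i := by
    apply D0.or (D0.mem hH hG)
    apply D0.exLt
    intro i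
    apply D0.bexIns hG
    apply D0.bexIns hG.tail
    exact d0_Vl hF.tail.tail hG.tail.tail hH.tail.tail (D0v.proj 1) (D0v.proj 0) i
  exact h1.congr fun v => mem_step.symm

theorem d0_stepSub {n : ℕ} {F G H : (Fin n → ZFSet.{0}) → ZFSet.{0}} (hF : D0v F)
    (hG : D0v G) (hH : D0v H) : D0 fun v => step (F v) (G v) ⊆ H v := by
  have h1 : D0 fun v => G v ⊆ H v ∧ ∀ i < 11, ∀ a ∈ (insert (G v) (G v) : ZFSet.{0}),
      ∀ b ∈ (insert (G v) (G v) : ZFSet.{0}), ∃ y ∈ H v, Vl (F v) (G v) y a b i := by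
    apply D0.and (D0.subset hG hH)
    apply D0.allLt
    intro i
    apply D0.ballIns hG
    apply D0.ballIns hG.tail
    apply D0.bex hH.tail.tail
    exact d0_Vl hF.tail.tail.tail hG.tail.tail.tail (D0v.proj 0) (D0v.proj 2) (D0v.proj 1) i
  refine h1.congr fun v => ?_
  constructor
  · rintro ⟨h2, h3⟩ y hy
    rcases mem_step.1 hy with h4 | ⟨i, hi, a, ha, b, hb, h4⟩
    · exact h2 h4
    · obtain ⟨y', h5, h6⟩ := h3 i hi a ha b hb
      have h7 : y = y' := by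
        ext u
        rw [h4, h6]
      exact h7 ▸ h5
  · intro h2
    refine ⟨fun y hy => h2 (subset_step hy), fun i hi a ha b hb => ?_⟩
    have h3 : Vl (F v) (G v) (ZFSet.sep (fun u => GR (F v) i u a b) (G v)) a b i := by
      intro u
      rw [ZFSet.mem_sep]
    exact ⟨_, h2 (mem_step.2 (Or.inr ⟨i, hi, a, ha, b, hb, h3⟩)), h3⟩

/-- `f` is an initial segment of the hierarchy. -/
def Sq (A f : ZFSet.{0}) : Prop :=
  ∀ p ∈ f, ∃ ξ X, p = pair ξ X ∧ ξ.IsOrdinal ∧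
    (∀ η ∈ ξ, ∃ q ∈ f, ∃ η' Y, q = pair η' Y ∧ η' = η) ∧
    (∀ y ∈ X, ∃ q ∈ f, ∃ η Y, q = pair η Y ∧ η ∈ ξ ∧ y ∈ step A Y) ∧
    ∀ q ∈ f, ∃ η Y, q = pair η Y ∧ (η ∈ ξ → step A Y ⊆ X)

/-- `f` is a witness for the constructibility of `x`. -/
def Psi (A x f : ZFSet.{0}) : Prop := Sq A f ∧ ∃ p ∈ f, ∃ ξ X, p = pair ξ X ∧ x ∈ X

theorem d0_Psi : D0 fun v : Fin 3 → ZFSet.{0} => Psi (v 0) (v 1) (v 2) := by
  unfold Psi Sq
  (repeat' first
      | assumption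
      | exact D0v.proj _
      | apply d0_memStep | apply d0_stepSub
      | apply D0.and | apply D0.expair
      | apply D0.bex | apply D0.ball | apply D0.imp
      | apply D0.eq | apply D0.mem | apply D0.isOrdinal)

theorem Sq.eq {A f : ZFSet.{0}} (h : Sq A f) : ∀ ξ X, pair ξ X ∈ f → X = Lv A ξ := by
  intro ξ
  induction ξ using ZFSet.inductionOn with
  | _ ξ ih =>
  intro X hX
  obtain ⟨ξ', X', h1, -, h2, h3, h4⟩ := h _ hX
  obtain ⟨rfl, rfl⟩ := ZFSet.pair_inj.1 h1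
  ext y
  rw [mem_Lv]
  constructor
  · intro hy
    obtain ⟨q, hq, η, Y, rfl, h5, h6⟩ := h3 y hy
    rw [ih η h5 Y hq] at h6
    exact ⟨η, h5, h6⟩
  · rintro ⟨η, h5, h6⟩
    obtain ⟨q, hq, η', Y, rfl, rfl⟩ := h2 η h5
    obtain ⟨η'', Y', h7, h8⟩ := h4 _ hq
    obtain ⟨rfl, rfl⟩ := ZFSet.pair_inj.1 h7
    rw [ih _ h5 _ hq] at h8
    exact h8 h5 h6

theorem Psi.spec {A x f : ZFSet.{0}} (h : Psi A x f) :
    ∃ ξ X, pair ξ X ∈ f ∧ ξ.IsOrdinal ∧ x ∈ Lv A ξ := by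
  obtain ⟨h1, p, hp, ξ, X, rfl, h2⟩ := h
  refine ⟨ξ, X, hp, ?_, h1.eq ξ X hp ▸ h2⟩
  obtain ⟨ξ', X', h3, h4, -⟩ := h1 _ hp
  obtain ⟨rfl, rfl⟩ := ZFSet.pair_inj.1 h3
  exact h4

theorem sq_gr {A δ : ZFSet.{0}} (hδ : δ.IsOrdinal) : Sq A (gr (Lv A) δ) := by
  intro p hp
  obtain ⟨ξ, hξ, rfl⟩ := mem_gr.1 hp
  refine ⟨ξ, _, rfl, hδ.mem hξ, fun η hη => ?_, fun y hy => ?_, fun q hq => ?_⟩
  · exact ⟨_, mem_gr.2 ⟨η, hδ.mem_trans hη hξ, rfl⟩, η, _, rfl, rfl⟩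
  · obtain ⟨η, hη, h⟩ := mem_Lv.1 hy
    exact ⟨_, mem_gr.2 ⟨η, hδ.mem_trans hη hξ, rfl⟩, η, _, rfl, hη, h⟩
  · obtain ⟨η, hη, rfl⟩ := mem_gr.1 hq
    exact ⟨η, _, rfl, fun h => step_subset_Lv h⟩

theorem psi_gr {A x ξ : ZFSet.{0}} (hξ : ξ.IsOrdinal) (h : x ∈ Lv A ξ) :
    Psi A x (gr (Lv A) (sc ξ)) :=
  ⟨sq_gr (isOrdinal_sc hξ), _, mem_gr.2 ⟨ξ, ZFSet.mem_insert _ _, rfl⟩, ξ, _, rfl, h⟩

section

variable {A : ZFSet.{0}} {C : Set ZFSet.{0}} (hL : IsLA A C)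

include hL

theorem exists_Psi {x : ZFSet.{0}} (hx : x ∈ C) : ∃ f ∈ C, Psi A x f := by
  have hM := hL.zf
  have hB := hM.base
  obtain ⟨ξ, h1, h2, h3⟩ := hL.lev x hx
  refine ⟨_, ?_, psi_gr h2 h3⟩
  refine hM.im_mem (hM.sc_mem h1) (h := fun u => pair u (Lv A u)) ?_
  exact hB.pair' (DfnF.proj 0) (DfnF.comp1 (f := Lv A) (dfn_Lv hM hL.mem) (DfnF.proj 0))

/-- Condensation. -/
theorem condensation {κ a : ZFSet.{0}} (hκ : κ ∈ C) (hκo : κ.IsOrdinal)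
    (hω : ZFSet.omega ⊆ κ) (ha : a ∈ C) (hat : ∀ x ∈ a, ∀ y ∈ x, y ∈ a) (hA : A ∈ a)
    (h1 : Inj C a κ) :
    ∃ N ∈ C, (∀ x ∈ N, ∀ y ∈ x, y ∈ N) ∧ a ⊆ N ∧ Inj C N κ ∧ ∀ x ∈ N, ∃ f ∈ N, Psi A x f := by
  have hM := hL.zf
  obtain ⟨ψ, hψ⟩ := d0_Psi
  -- the formula of extensionality
  let θ : Fml Empty 2 := .ex (.neg (.and (.neg (.and (.mem (Sum.inl 0) (Sum.inl 1))
    (.neg (.mem (Sum.inl 0) (Sum.inl 2))))) (.neg (.and (.mem (Sum.inl 0) (Sum.inl 2))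
    (.neg (.mem (Sum.inl 0) (Sum.inl 1)))))))
  let φ : Fml ZFSet.{0} 2 := .and (Fml.map Empty.elim θ) (Fml.map Empty.elim (.ex (ψ.subst
    fun i => Sum.inl ((![2, 1, 0] : Fin 3 → Fin 3) i))))
  have hover : ∀ {m : ℕ} (χ : Fml Empty m), (χ.map (Empty.elim : Empty → ZFSet.{0})).Over C := by
    intro m χ
    rw [over_map]
    induction χ with
    | mem s t => exact ⟨fun a => a.elim, fun a => a.elim⟩
    | eq s t => exact ⟨fun a => a.elim, fun a => a.elim⟩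
    | neg φ ih => exact ih
    | and φ ψ ih1 ih2 => exact ⟨ih1, ih2⟩
    | ex φ ih => exact ih
  obtain ⟨H, hH, haH, hHκ, hcl⟩ := exists_small_hull hM hL.gc hκ hκo hω ha h1 φ
    ⟨hover _, hover _⟩
  have hHC : {x | x ∈ H} ⊆ C := fun x hx => hM.trans _ hH _ hx
  have he : (id ∘ Empty.elim : Empty → ZFSet.{0}) = Empty.elim := funext fun a => a.elim
  have hsat : ∀ {m : ℕ} (χ : Fml Empty m) (X : Set ZFSet.{0}) (v : Fin m → ZFSet.{0}),
      Sat X id (χ.map Empty.elim) v ↔ Sat X Empty.elim χ v := by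
    intro m χ X v
    rw [sat_map, he]
  -- extensionality
  have hXt : Xt H := by
    intro x hx y hy h
    by_contra hne
    obtain ⟨z, hz⟩ : ∃ z, ¬ (z ∈ x ↔ z ∈ y) := by
      by_contra h2
      push Not at h2
      exact hne (ZFSet.ext h2)
    have h2 : ∃ a ∈ C, Sat C id (Fml.map Empty.elim (.neg (.and (.neg (.and
        (.mem (Sum.inl 0) (Sum.inl 1)) (.neg (.mem (Sum.inl 0) (Sum.inl 2))))) (.neg (.and
        (.mem (Sum.inl 0) (Sum.inl 2)) (.neg (.mem (Sum.inl 0) (Sum.inl 1)))))) :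
          Fml Empty 3)) (Fin.cons a ![x, y]) := by
      have hzC : z ∈ C := by
        by_cases h3 : z ∈ x
        · exact hM.trans _ (hHC hx) _ h3
        · by_cases h4 : z ∈ y
          · exact hM.trans _ (hHC hy) _ h4
          · exact absurd (iff_of_false h3 h4) hz
      refine ⟨z, hzC, ?_⟩
      rw [hsat]
      intro h3
      apply hz
      have h4 : ¬ (z ∈ x ∧ ¬ z ∈ y) := h3.1
      have h5 : ¬ (z ∈ y ∧ ¬ z ∈ x) := h3.2
      tauto
    obtain ⟨a, ha', h3⟩ := hcl.1.2 ![x, y] (by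
      intro i
      fin_cases i
      exacts [hx, hy]) h2
    rw [hsat] at h3
    apply h3
    have h4 := h a ha'
    exact ⟨fun h5 => h5.2 (h4.1 h5.1), fun h5 => h5.2 (h4.2 h5.1)⟩
  refine ⟨im (col H) H, col_im_mem hM hH, col_trans, ?_, ?_, ?_⟩
  · intro x hx
    exact mem_im.2 ⟨x, haH hx, (col_fix hat haH x hx).symm⟩
  · exact Inj.image hM hH hκ hκo hHκ (dfn_col hM hH)
  · intro x0 hx0
    obtain ⟨x, hx, rfl⟩ := mem_im.1 hx0
    obtain ⟨f, hf, h2⟩ := exists_Psi hL (hHC hx)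
    -- the witness is in the hull
    have h3 : ∀ (X : Set ZFSet.{0}) (f : ZFSet.{0}), Sat X id (Fml.map Empty.elim (ψ.subst
        fun i => Sum.inl ((![2, 1, 0] : Fin 3 → Fin 3) i))) (Fin.cons f ![x, A]) ↔
        Sat X Empty.elim ψ ![A, x, f] := by
      intro X f
      rw [hsat, sat_subst]
      have h4 : (fun k => Sum.elim (Fin.cons f ![x, A] : Fin 3 → ZFSet.{0}) Empty.elim
          (Sum.inl ((![2, 1, 0] : Fin 3 → Fin 3) k))) = ![A, x, f] := by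
        funext i
        fin_cases i <;> rfl
      rw [h4]
    have hAH := haH hA
    have hxC := hHC hx
    have h4 : ∃ a ∈ C, Sat C id (Fml.map Empty.elim (ψ.subst
        fun i => Sum.inl ((![2, 1, 0] : Fin 3 → Fin 3) i))) (Fin.cons a ![x, A]) := by
      refine ⟨f, hf, (h3 _ _).2 ((hψ C hM.trans _ ?_).2 h2)⟩
      intro i
      fin_cases i
      exacts [hL.mem, hxC, hf]
    have hv : ∀ i, (![x, A] : Fin 2 → ZFSet.{0}) i ∈ {x | x ∈ H} := by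
      intro i
      fin_cases i
      exacts [hx, hAH]
    obtain ⟨f', hf', h5⟩ := hcl.2.2 ![x, A] hv h4
    have hv' : ∀ i, (Fin.cons f' ![x, A] : Fin 3 → ZFSet.{0}) i ∈ {x | x ∈ H} := by
      intro i
      refine Fin.cases ?_ (fun i => ?_) i
      · exact hf'
      · exact hv i
    rw [← CL_sat hHC _ hcl.2.1 _ hv', h3] at h5
    rw [← sat_col hXt ψ ![A, x, f'] (by
      intro i
      fin_cases i
      exacts [hAH, hx, hf'])] at h5
    refine ⟨col H f', mem_im.2 ⟨f', hf', rfl⟩, ?_⟩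
    have h6 := (hψ {x | x ∈ im (col H) H} col_trans _ (by
      intro i
      fin_cases i
      exacts [mem_im.2 ⟨_, hAH, rfl⟩, mem_im.2 ⟨_, hx, rfl⟩, mem_im.2 ⟨_, hf', rfl⟩])).1 h5
    have h7 : col H A = A := col_fix hat haH A hA
    have h8 : Psi (col H A) (col H x) (col H f') := h6
    rwa [h7] at h8

end

end Pool.Agent.W868
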