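import Pool.Agent.W868.Im

/-!
# Relations that are defined by one formula in all transitive classes
-/

set_option autoImplicit false
set_option linter.unreachableTactic false
set_option linter.unusedTactic false

namespace Pool.Agent.W868

open ZFSet (pair)

/-- `R` is defined by one formula without parameters in all transitive classes. -/
def D0 {n : ℕ} (R : (Fin n → ZFSet.{0}) → Prop) : Prop :=
  ∃ φ : Fml Empty n, ∀ M : Set ZFSet.{0}, (∀ x ∈ M, ∀ y ∈ x, y ∈ M) →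
    ∀ v, (∀ i, v i ∈ M) → (Sat M Empty.elim φ v ↔ R v)

/-- `F` is a projection. -/
def D0v {n : ℕ} (F : (Fin n → ZFSet.{0}) → ZFSet.{0}) : Prop := ∃ i, ∀ v, F v = v i

section

variable {n : ℕ} {R T : (Fin n → ZFSet.{0}) → Prop} {F G H : (Fin n → ZFSet.{0}) → ZFSet.{0}}

theorem D0v.proj (i : Fin n) : D0v fun v => v i := ⟨i, fun _ => rfl⟩

theorem D0v.tail (h : D0v F) : D0v fun w : Fin (n + 1) → ZFSet.{0} => F (Fin.tail w) := by
  obtain ⟨i, hi⟩ := h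
  exact ⟨i.succ, fun v => hi _⟩

theorem D0.congr (h : D0 R) (h' : ∀ v, R v ↔ T v) : D0 T := by
  obtain ⟨φ, hφ⟩ := h
  exact ⟨φ, fun M hM v hv => (hφ M hM v hv).trans (h' v)⟩

theorem D0.not (h : D0 R) : D0 fun v => ¬ R v := by
  obtain ⟨φ, hφ⟩ := h
  exact ⟨.neg φ, fun M hM v hv => not_congr (hφ M hM v hv)⟩

theorem D0.and (h : D0 R) (h' : D0 T) : D0 fun v => R v ∧ T v := by
  obtain ⟨φ, hφ⟩ := h
  obtain ⟨ψ, hψ⟩ := h'
  exact ⟨.and φ ψ, fun M hM v hv => and_congr (hφ M hM v hv) (hψ M hM v hv)⟩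

theorem D0.or (h : D0 R) (h' : D0 T) : D0 fun v => R v ∨ T v :=
  (h.not.and h'.not).not.congr fun v => by tauto

theorem D0.imp (h : D0 R) (h' : D0 T) : D0 fun v => R v → T v :=
  (h.and h'.not).not.congr fun v => by tauto

theorem D0.iff (h : D0 R) (h' : D0 T) : D0 fun v => R v ↔ T v :=
  ((h.imp h').and (h'.imp h)).congr fun v => by tauto

theorem D0.comp (h : D0 R) {m : ℕ} (ρ : Fin n → Fin m) :
    D0 fun v : Fin m → ZFSet.{0} => R fun i => v (ρ i) := by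
  obtain ⟨φ, hφ⟩ := h
  refine ⟨φ.subst fun i => Sum.inl (ρ i), fun M hM v hv => ?_⟩
  rw [sat_subst]
  exact hφ M hM _ fun i => hv _

theorem D0.tail (h : D0 R) : D0 fun w : Fin (n + 1) → ZFSet.{0} => R (Fin.tail w) :=
  h.comp Fin.succ

theorem D0.mem (hF : D0v F) (hG : D0v G) : D0 fun v => F v ∈ G v := by
  obtain ⟨i, hi⟩ := hF
  obtain ⟨j, hj⟩ := hG
  refine ⟨.mem (Sum.inl i) (Sum.inl j), fun M _ v _ => ?_⟩
  beta_reduce
  rw [hi, hj]
  rfl

theorem D0.eq (hF : D0v F) (hG : D0v G) : D0 fun v => F v = G v := by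
  obtain ⟨i, hi⟩ := hF
  obtain ⟨j, hj⟩ := hG
  refine ⟨.eq (Sum.inl i) (Sum.inl j), fun M _ v _ => ?_⟩
  beta_reduce
  rw [hi, hj]
  rfl

theorem D0.bex {Q : ZFSet.{0} → (Fin n → ZFSet.{0}) → Prop} (hF : D0v F)
    (h : D0 fun w : Fin (n + 1) → ZFSet.{0} => Q (w 0) (Fin.tail w)) :
    D0 fun v => ∃ a ∈ F v, Q a v := by
  obtain ⟨i, hi⟩ := hF
  obtain ⟨φ, hφ⟩ := h
  refine ⟨.ex (.and (.mem (Sum.inl 0) (Sum.inl i.succ)) φ), fun M hM v hv => ?_⟩
  beta_reduce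
  rw [hi]
  simp only [Sat]
  have hc : ∀ a ∈ M, ∀ k, (Fin.cons a v : Fin (n + 1) → ZFSet.{0}) k ∈ M := by
    intro a ha k
    refine Fin.cases ?_ (fun k => ?_) k
    · exact ha
    · exact hv k
  constructor
  · rintro ⟨a, ha, h1, h2⟩
    exact ⟨a, h1, (hφ M hM _ (hc a ha)).1 h2⟩
  · rintro ⟨a, h1, h2⟩
    have ha := hM _ (hv i) a h1
    exact ⟨a, ha, h1, (hφ M hM _ (hc a ha)).2 h2⟩

theorem D0.ball {Q : ZFSet.{0} → (Fin n → ZFSet.{0}) → Prop} (hF : D0v F)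
    (h : D0 fun w : Fin (n + 1) → ZFSet.{0} => Q (w 0) (Fin.tail w)) :
    D0 fun v => ∀ a ∈ F v, Q a v := by
  have h1 : D0 fun v => ∃ a ∈ F v, ¬ Q a v := D0.bex (Q := fun a v => ¬ Q a v) hF h.not
  exact h1.not.congr fun v => by
    constructor
    · intro h2 a ha
      by_contra h3
      exact h2 ⟨a, ha, h3⟩
    · rintro h2 ⟨a, ha, h3⟩
      exact h3 (h2 a ha)

theorem D0.tt : D0 fun _ : Fin n → ZFSet.{0} => True := by
  by_cases h : n = 0
  · subst h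
    exact ⟨.neg (.ex (.neg (.eq (Sum.inl 0) (Sum.inl 0)))), fun M _ v _ => by simp [Sat]⟩
  · have : NeZero n := ⟨h⟩
    exact ⟨.eq (Sum.inl 0) (Sum.inl 0), fun M _ v _ => by simp [Sat]⟩

theorem D0.exLt {R : ℕ → (Fin n → ZFSet.{0}) → Prop} (h : ∀ i, D0 (R i)) (k : ℕ) :
    D0 fun v => ∃ i < k, R i v := by
  induction k with
  | zero => exact D0.tt.not.congr fun v => by simp
  | succ k ih =>
    refine (ih.or (h k)).congr fun v => ?_
    constructor
    · rintro (⟨i, hi, h1⟩ | h1)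
      · exact ⟨i, by omega, h1⟩
      · exact ⟨k, by omega, h1⟩
    · rintro ⟨i, hi, h1⟩
      rcases Nat.lt_succ_iff_lt_or_eq.1 hi with h2 | rfl
      · exact Or.inl ⟨i, h2, h1⟩
      · exact Or.inr h1

theorem D0.allLt {R : ℕ → (Fin n → ZFSet.{0}) → Prop} (h : ∀ i, D0 (R i)) (k : ℕ) :
    D0 fun v => ∀ i < k, R i v :=
  (D0.exLt (fun i => (h i).not) k).not.congr fun v => by
    constructor
    · intro h2 a ha
      by_contra h3
      exact h2 ⟨a, ha, h3⟩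
    · rintro h2 ⟨a, ha, h3⟩
      exact h3 (h2 a ha)

theorem D0.dfn (h : D0 R) {S M : Set ZFSet.{0}} (hM : ∀ x ∈ M, ∀ y ∈ x, y ∈ M) : Dfn S M R := by
  obtain ⟨φ, hφ⟩ := h
  refine ⟨φ.map Empty.elim, ?_, fun v hv => ?_⟩
  · rw [over_map]
    have h1 : ∀ {m : ℕ} (ψ : Fml Empty m), ψ.Over (Empty.elim ⁻¹' S) := by
      intro m ψ
      induction ψ with
      | mem s t => exact ⟨fun a => a.elim, fun a => a.elim⟩
      | eq s t => exact ⟨fun a => a.elim, fun a => a.elim⟩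
      | neg φ ih => exact ih
      | and φ ψ ih1 ih2 => exact ⟨ih1, ih2⟩
      | ex φ ih => exact ih
    exact h1 φ
  · rw [sat_map, ← hφ M hM v hv]
    have h2 : (id ∘ Empty.elim : Empty → ZFSet.{0}) = Empty.elim := funext fun a => a.elim
    rw [h2]

theorem D0.isPair (hF : D0v F) (hG : D0v G) (hH : D0v H) : D0 fun v => F v = pair (G v) (H v) := by
  have h1 : D0 fun v => (∃ p ∈ F v, G v ∈ p ∧ ∀ u ∈ p, u = G v) ∧
      (∃ q ∈ F v, G v ∈ q ∧ H v ∈ q ∧ ∀ u ∈ q, u = G v ∨ u = H v) ∧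
      ∀ r ∈ F v, (G v ∈ r ∧ ∀ u ∈ r, u = G v) ∨
        (G v ∈ r ∧ H v ∈ r ∧ ∀ u ∈ r, u = G v ∨ u = H v) := by
    have h1 := hG.tail
    have h2 := hH.tail
    have h3 := h1.tail
    have h4 := h2.tail
    (repeat' first
      | assumption
      | exact D0v.proj _
      | apply D0.not | apply D0.and | apply D0.or | apply D0.imp | apply D0.iff
      | apply D0.bex | apply D0.ball
      | apply D0.eq | apply D0.mem)
  refine h1.congr fun v => ?_
  have s1 : ∀ p a : ZFSet.{0}, (a ∈ p ∧ ∀ u ∈ p, u = a) ↔ p = {a} := by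
    intro p a
    constructor
    · rintro ⟨h2, h3⟩
      ext u
      rw [ZFSet.mem_singleton]
      exact ⟨h3 u, fun h => h ▸ h2⟩
    · rintro rfl
      exact ⟨ZFSet.mem_singleton.2 rfl, fun u hu => ZFSet.mem_singleton.1 hu⟩
  have s2 : ∀ p a b : ZFSet.{0}, (a ∈ p ∧ b ∈ p ∧ ∀ u ∈ p, u = a ∨ u = b) ↔ p = {a, b} := by
    intro p a b
    constructor
    · rintro ⟨h2, h3, h4⟩
      ext u
      rw [ZFSet.mem_pair]
      exact ⟨h4 u, fun h => h.elim (fun h => h ▸ h2) (fun h => h ▸ h3)⟩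
    · rintro rfl
      exact ⟨ZFSet.mem_pair.2 (Or.inl rfl), ZFSet.mem_pair.2 (Or.inr rfl),
        fun u hu => ZFSet.mem_pair.1 hu⟩
  simp only [s1, s2]
  constructor
  · rintro ⟨⟨p, hp, rfl⟩, ⟨q, hq, rfl⟩, h4⟩
    ext r
    rw [pair, ZFSet.mem_pair]
    exact ⟨h4 r, fun h => h.elim (fun h => h ▸ hp) (fun h => h ▸ hq)⟩
  · intro h
    rw [h, pair]
    exact ⟨⟨_, ZFSet.mem_pair.2 (Or.inl rfl), rfl⟩, ⟨_, ZFSet.mem_pair.2 (Or.inr rfl), rfl⟩,
      fun r hr => ZFSet.mem_pair.1 hr⟩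

/-- Quantification over the components of a pair. -/
theorem D0.expair {Q : ZFSet.{0} → ZFSet.{0} → (Fin n → ZFSet.{0}) → Prop} (hF : D0v F)
    (h : D0 fun w : Fin (n + 2) → ZFSet.{0} => Q (w 1) (w 0) (Fin.tail (Fin.tail w))) :
    D0 fun v => ∃ x y, F v = pair x y ∧ Q x y v := by
  have h1 : D0 fun v => ∃ q ∈ F v, ∃ x ∈ q, ∃ y ∈ q, F v = pair x y ∧ Q x y v := by
    apply D0.bex hF
    apply D0.bex (D0v.proj 0)
    apply D0.bex (D0v.proj 1)
    apply D0.and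
    · exact D0.isPair hF.tail.tail.tail (D0v.proj 1) (D0v.proj 0)
    · exact h.comp (Fin.cons 0 (Fin.cons 1 fun i => i.succ.succ.succ))
  refine h1.congr fun v => ?_
  constructor
  · rintro ⟨q, -, x, -, y, -, h2⟩
    exact ⟨x, y, h2⟩
  · rintro ⟨x, y, h2⟩
    refine ⟨{x, y}, ?_, x, ZFSet.mem_pair.2 (Or.inl rfl), y, ZFSet.mem_pair.2 (Or.inr rfl), h2⟩
    rw [h2.1, pair]
    exact ZFSet.mem_pair.2 (Or.inr rfl)

theorem D0.pairMem (hF : D0v F) (hG : D0v G) (hH : D0v H) : D0 fun v => pair (F v) (G v) ∈ H v := by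
  have h1 : D0 fun v => ∃ p ∈ H v, p = pair (F v) (G v) := by
    apply D0.bex hH
    exact D0.isPair (D0v.proj 0) hF.tail hG.tail
  exact h1.congr fun v => ⟨fun ⟨p, hp, h⟩ => h ▸ hp, fun h => ⟨_, h, rfl⟩⟩

theorem D0.subset (hF : D0v F) (hG : D0v G) : D0 fun v => F v ⊆ G v := by
  have h1 : D0 fun v => ∀ x ∈ F v, x ∈ G v := D0.ball hF (D0.mem (D0v.proj 0) hG.tail)
  exact h1

theorem D0.isOrdinal (hF : D0v F) : D0 fun v => (F v).IsOrdinal := by
  have h : D0 fun v => (∀ y ∈ F v, ∀ z ∈ y, z ∈ F v) ∧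
      ∀ y ∈ F v, ∀ z ∈ y, ∀ u ∈ z, u ∈ y := by
    have h1 := hF.tail.tail
    (repeat' first
      | assumption
      | exact D0v.proj _
      | apply D0.not | apply D0.and | apply D0.or | apply D0.imp | apply D0.iff
      | apply D0.bex | apply D0.ball
      | apply D0.eq | apply D0.mem)
  refine h.congr fun v => ?_
  constructor
  · rintro ⟨h1, h2⟩
    exact ⟨fun y hy z hz => h1 y hy z hz, fun {y z w} h3 h4 h5 => h2 w h5 z h4 y h3⟩
  · rintro ⟨h1, h2⟩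
    exact ⟨fun y hy z hz => h1.mem_trans hz hy, fun y hy z hz u hu => h2 hu hz hy⟩

theorem D0.isTransitive (hF : D0v F) : D0 fun v => (F v).IsTransitive := by
  have h : D0 fun v => ∀ y ∈ F v, ∀ z ∈ y, z ∈ F v := by
    have h1 := hF.tail.tail
    (repeat' first
      | assumption
      | exact D0v.proj _
      | apply D0.ball | apply D0.mem)
  exact h

end

end Pool.Agent.W868
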