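import Mathlib

/-!
# Absoluteness of amalgamation: the definitions

Everything takes place inside the type `ZFSet.{0}` of all sets. A set (in the sense of Mathlib)
`M : Set ZFSet.{0}` is viewed as the structure `(M, ∈)`.

* `Fml`, `Sat`, `Fml.Over`: first order formulas of set theory with parameters, and their truth
  in `(M, ∈)`.
* `IsZF`, `IsZFC`: transitive models of ZF and ZFC.
* `IsAleph1`, `SizeAleph1`: the first uncountable ordinal of a model, and the sets of this size.
* `cP`, `cEq`, `cNot`, `cAnd`, `cEx`, `IsFmlSet`, `IsSentence`: the sets that a model regards as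
  sentences of the infinitary logic with countable conjunctions and finite strings of quantifiers
  in the vocabulary that consists of unary predicate symbols `P 0, P 1, P 2, ...`.
* `Clause`, `IsTruth`, `Models`: the satisfaction relation, evaluated in a model of set theory.
* `IsSub`, `IsEmb`, `Aleph1InAPSpec`: substructures, embeddings and the amalgamation spectrum,
  evaluated in a model of set theory.
-/

set_option autoImplicit false

namespace Pool.Agent.W868

open ZFSet (pair)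

universe u

/-! ### Formulas of set theory and their truth -/

/-- Formulas of the language of set theory with free variables `0, ..., n - 1` and parameters
from `A`. In `ex φ` the variable `0` of `φ` is bound, and the variable `i + 1` of `φ` is the
variable `i` of `ex φ`. -/
inductive Fml (A : Type u) : ℕ → Type u
  | mem {n : ℕ} (s t : Fin n ⊕ A) : Fml A n
  | eq {n : ℕ} (s t : Fin n ⊕ A) : Fml A n
  | neg {n : ℕ} (φ : Fml A n) : Fml A n
  | and {n : ℕ} (φ ψ : Fml A n) : Fml A n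
  | ex {n : ℕ} (φ : Fml A (n + 1)) : Fml A n

/-- Truth of a formula in the structure `(M, ∈)`, where the parameters are interpreted by `i` and
the free variables by `v`. -/
def Sat {A : Type u} (M : Set ZFSet.{0}) (i : A → ZFSet.{0}) :
    {n : ℕ} → Fml A n → (Fin n → ZFSet.{0}) → Prop
  | _, .mem s t, v => Sum.elim v i s ∈ Sum.elim v i t
  | _, .eq s t, v => Sum.elim v i s = Sum.elim v i t
  | _, .neg φ, v => ¬ Sat M i φ v
  | _, .and φ ψ, v => Sat M i φ v ∧ Sat M i ψ v
  | _, .ex φ, v => ∃ a ∈ M, Sat M i φ (Fin.cons a v)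

/-- The term is a variable or a parameter from `S`. -/
def TOver {A : Type u} (S : Set A) {n : ℕ} (s : Fin n ⊕ A) : Prop :=
  ∀ a, s = Sum.inr a → a ∈ S

/-- All parameters of the formula are in `S`. -/
def Fml.Over {A : Type u} (S : Set A) : {n : ℕ} → Fml A n → Prop
  | _, .mem s t => TOver S s ∧ TOver S t
  | _, .eq s t => TOver S s ∧ TOver S t
  | _, .neg φ => φ.Over S
  | _, .and φ ψ => φ.Over S ∧ ψ.Over S
  | _, .ex φ => φ.Over S

/-! ### Transitive models -/

/-- `M` is a transitive model of ZF: a transitive class of sets that satisfies the axioms of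
pairing, union, infinity and power set, and the schemes of separation and replacement for all
formulas with parameters from `M` (extensionality and foundation hold in every transitive
class; pairs, unions, the set of natural numbers and subsets mean the same in `M` and outside). -/
structure IsZF (M : Set ZFSet.{0}) : Prop where
  trans : ∀ x ∈ M, ∀ y ∈ x, y ∈ M
  pairing : ∀ x ∈ M, ∀ y ∈ M, ({x, y} : ZFSet.{0}) ∈ M
  union : ∀ x ∈ M, ZFSet.sUnion x ∈ M
  infinity : ZFSet.omega ∈ M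
  power : ∀ x ∈ M, ∃ y ∈ M, ∀ z, z ∈ y ↔ z ∈ M ∧ z ⊆ x
  separation : ∀ φ : Fml ZFSet.{0} 1, φ.Over M → ∀ x ∈ M, ∃ y ∈ M, ∀ z,
    z ∈ y ↔ z ∈ x ∧ Sat M id φ ![z]
  replacement : ∀ φ : Fml ZFSet.{0} 2, φ.Over M → ∀ x ∈ M,
    (∀ z ∈ x, ∃! w, w ∈ M ∧ Sat M id φ ![z, w]) →
      ∃ y ∈ M, ∀ w, w ∈ y ↔ w ∈ M ∧ ∃ z ∈ x, Sat M id φ ![z, w]

/-- `M` is a transitive model of ZFC: a transitive model of ZF in which every family of nonempty
pairwise disjoint sets has a choice set. -/
structure IsZFC (M : Set ZFSet.{0}) : Prop extends IsZF M where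
  choice : ∀ x ∈ M, (∀ y ∈ x, ∃ z, z ∈ y) → (∀ y ∈ x, ∀ y' ∈ x, ∀ z, z ∈ y → z ∈ y' → y = y') →
    ∃ c ∈ M, ∀ y ∈ x, ∃! z, z ∈ y ∧ z ∈ c

/-- The natural numbers as sets: `0 = ∅` and `n + 1 = n ∪ {n}`. -/
noncomputable def nat : ℕ → ZFSet.{0}
  | 0 => ∅
  | n + 1 => insert (nat n) (nat n)

/-! ### Cardinality in a model -/

/-- `f` is an injective function from `x` to `y`. -/
def IsInj (x y f : ZFSet.{0}) : Prop :=
  ZFSet.IsFunc x y f ∧ ∀ a b c, pair a c ∈ f → pair b c ∈ f → a = b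

/-- `f` is a bijective function from `x` to `y`. -/
def IsBij (x y f : ZFSet.{0}) : Prop :=
  IsInj x y f ∧ ∀ b ∈ y, ∃ a ∈ x, pair a b ∈ f

/-- `κ` is the cardinal `ℵ₁` of the transitive model `M`, that is, the first ordinal of `M` that
is uncountable in `M`. -/
def IsAleph1 (M : Set ZFSet.{0}) (κ : ZFSet.{0}) : Prop :=
  κ ∈ M ∧ κ.IsOrdinal ∧ (¬ ∃ f ∈ M, IsInj κ ZFSet.omega f) ∧
    ∀ α ∈ κ, ∃ f ∈ M, IsInj α ZFSet.omega f

/-- In `M`, the set `D` has size `ℵ₁`. -/
def SizeAleph1 (M : Set ZFSet.{0}) (D : ZFSet.{0}) : Prop :=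
  ∃ κ, IsAleph1 M κ ∧ ∃ f ∈ M, IsBij D κ f

/-! ### Infinitary formulas

The vocabulary has the unary predicate symbols `P k` for `k ∈ ω`, the variables are `v i` for
`i ∈ ω`. Formulas are coded by sets as follows. A formula is considered together with a natural
number `n`, its context: all its free variables are among `v 0, ..., v (n - 1)`. In context `n`
the quantifier binds the variable `v n`. -/

/-- The atomic formula `P k (v i)`. -/
noncomputable def cP (k i : ZFSet.{0}) : ZFSet.{0} := pair (nat 0) (pair k i)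

/-- The atomic formula `v i = v j`. -/
noncomputable def cEq (i j : ZFSet.{0}) : ZFSet.{0} := pair (nat 1) (pair i j)

/-- The negation of the formula `ψ`. -/
noncomputable def cNot (ψ : ZFSet.{0}) : ZFSet.{0} := pair (nat 2) ψ

/-- The conjunction of the set of formulas `Φ`. -/
noncomputable def cAnd (Φ : ZFSet.{0}) : ZFSet.{0} := pair (nat 3) Φ

/-- The existential quantification of `ψ`. In context `n` this is `∃ v n, ψ`, where `ψ` has the
context `n + 1`. -/
noncomputable def cEx (ψ : ZFSet.{0}) : ZFSet.{0} := pair (nat 4) ψ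

/-- In `M`, all elements of `F` are pairs of an infinitary formula and a context of it, and `F`
contains all the immediate constituents of these formulas, with their contexts. Conjunctions are
over sets that are countable in `M`. -/
def IsFmlSet (M : Set ZFSet.{0}) (F : ZFSet.{0}) : Prop :=
  ∀ p ∈ F, ∃ ψ n, p = pair ψ n ∧ n ∈ ZFSet.omega ∧
    ((∃ k ∈ ZFSet.omega, ∃ i ∈ n, ψ = cP k i) ∨
     (∃ i ∈ n, ∃ j ∈ n, ψ = cEq i j) ∨
     (∃ χ, ψ = cNot χ ∧ pair χ n ∈ F) ∨
     (∃ Φ, ψ = cAnd Φ ∧ (∃ f ∈ M, IsInj Φ ZFSet.omega f) ∧ ∀ χ ∈ Φ, pair χ n ∈ F) ∨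
     (∃ χ, ψ = cEx χ ∧ pair χ (insert n n) ∈ F))

/-- `M` regards `φ` as a sentence of the infinitary logic: in `M`, it is a formula in the
context `0`. -/
def IsSentence (M : Set ZFSet.{0}) (φ : ZFSet.{0}) : Prop :=
  ∃ F ∈ M, IsFmlSet M F ∧ pair φ (nat 0) ∈ F

/-! ### Structures and satisfaction

A structure is given by its underlying set `D` and a set `c`; an element `d` of `D` satisfies
the predicate `P k` if `(d, k) ∈ c`. -/

/-- Tarski's clauses: what the truth of the formula `ψ` with context `n` under the assignment `s`,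
a function from `n = {0, ..., n - 1}` to `D`, should be according to the set `T`. -/
def Clause (D c T ψ n s : ZFSet.{0}) : Prop :=
  (∃ k i d, ψ = cP k i ∧ pair i d ∈ s ∧ pair d k ∈ c) ∨
  (∃ i j d, ψ = cEq i j ∧ pair i d ∈ s ∧ pair j d ∈ s) ∨
  (∃ χ, ψ = cNot χ ∧ pair (pair χ n) s ∉ T) ∨
  (∃ Φ, ψ = cAnd Φ ∧ ∀ χ ∈ Φ, pair (pair χ n) s ∈ T) ∨
  (∃ χ, ψ = cEx χ ∧ ∃ d ∈ D, pair (pair χ (insert n n)) (insert (pair n d) s) ∈ T)

/-- In `M`, the set `T` is the satisfaction relation of the structure `(D, c)` for the formulas in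
`F`: for the formulas `ψ` with context `n` in `F` and the assignments `s : n → D`, the triples
`((ψ, n), s)` in `T` are given by Tarski's clauses. -/
def IsTruth (M : Set ZFSet.{0}) (F D c T : ZFSet.{0}) : Prop :=
  ∀ ψ n, pair ψ n ∈ F → ∀ s ∈ M, ZFSet.IsFunc n D s →
    (pair (pair ψ n) s ∈ T ↔ Clause D c T ψ n s)

/-- In `M`, the structure `(D, c)` is a model of the sentence `φ`. -/
def Models (M : Set ZFSet.{0}) (D c φ : ZFSet.{0}) : Prop :=
  ∃ F ∈ M, ∃ T ∈ M, IsFmlSet M F ∧ pair φ (nat 0) ∈ F ∧ IsTruth M F D c T ∧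
    pair (pair φ (nat 0)) ∅ ∈ T

/-- The structure `(D, c)` is a substructure of the structure `(D', c')`. -/
def IsSub (D c D' c' : ZFSet.{0}) : Prop :=
  D ⊆ D' ∧ ∀ x ∈ D, ∀ k ∈ ZFSet.omega, (pair x k ∈ c ↔ pair x k ∈ c')

/-- `f` is an embedding of the structure `(D, c)` into the structure `(D', c')`. -/
def IsEmb (D c D' c' f : ZFSet.{0}) : Prop :=
  IsInj D D' f ∧ ∀ x y, pair x y ∈ f → ∀ k ∈ ZFSet.omega, (pair x k ∈ c ↔ pair y k ∈ c')

/-- In `M`, the structure `(D, c)` is a model of the sentence `φ` of size `ℵ₁`. -/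
def Mod1 (M : Set ZFSet.{0}) (φ D c : ZFSet.{0}) : Prop :=
  D ∈ M ∧ c ∈ M ∧ SizeAleph1 M D ∧ Models M D c φ

/-- In `M`, the cardinal `ℵ₁` is in the amalgamation spectrum of the sentence `φ`: there is a
model of `φ` of size `ℵ₁`, and for all models `(D₀, c₀) ⊆ (D₁, c₁)`, `(D₀, c₀) ⊆ (D₂, c₂)` of
`φ` of size `ℵ₁` there are a model `(D, c)` of `φ` of size `ℵ₁` and embeddings `f₁`, `f₂` of
`(D₁, c₁)` and `(D₂, c₂)` into `(D, c)` that agree on `D₀`. -/
def Aleph1InAPSpec (M : Set ZFSet.{0}) (φ : ZFSet.{0}) : Prop :=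
  (∃ D c, Mod1 M φ D c) ∧
  ∀ D₀ c₀ D₁ c₁ D₂ c₂, Mod1 M φ D₀ c₀ → Mod1 M φ D₁ c₁ → Mod1 M φ D₂ c₂ →
    IsSub D₀ c₀ D₁ c₁ → IsSub D₀ c₀ D₂ c₂ →
      ∃ D c, Mod1 M φ D c ∧ ∃ f₁ ∈ M, ∃ f₂ ∈ M, IsEmb D₁ c₁ D c f₁ ∧ IsEmb D₂ c₂ D c f₂ ∧
        ∀ x ∈ D₀, ∀ y, pair x y ∈ f₁ ↔ pair x y ∈ f₂

end Pool.Agent.W868
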