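import Pool.Agent.W868.Fml

/-!
# Transitive models of set theory and definable relations
-/

set_option autoImplicit false

namespace Pool.Agent.W868

universe u

/-! ### Substitution -/

section subst

variable {A : Type u}

/-- Substitution in a term. -/
def tsubst {n m : ℕ} (σ : Fin n → Fin m ⊕ A) : Fin n ⊕ A → Fin m ⊕ A := Sum.elim σ Sum.inr

/-- The substitution under a quantifier. -/
def lift {n m : ℕ} (σ : Fin n → Fin m ⊕ A) : Fin (n + 1) → Fin (m + 1) ⊕ A :=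
  Fin.cons (Sum.inl 0) fun i => Sum.map Fin.succ id (σ i)

/-- Substitution in a formula. -/
def Fml.subst : {n m : ℕ} → (Fin n → Fin m ⊕ A) → Fml A n → Fml A m
  | _, _, σ, .mem s t => .mem (tsubst σ s) (tsubst σ t)
  | _, _, σ, .eq s t => .eq (tsubst σ s) (tsubst σ t)
  | _, _, σ, .neg φ => .neg (φ.subst σ)
  | _, _, σ, .and φ ψ => .and (φ.subst σ) (ψ.subst σ)
  | _, _, σ, .ex φ => .ex (φ.subst (lift σ))

theorem tsubst_elim {n m : ℕ} (σ : Fin n → Fin m ⊕ A) (i : A → ZFSet.{0})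
    (v : Fin m → ZFSet.{0}) (s : Fin n ⊕ A) :
    Sum.elim v i (tsubst σ s) = Sum.elim (fun k => Sum.elim v i (σ k)) i s := by
  cases s <;> rfl

theorem lift_elim {n m : ℕ} (σ : Fin n → Fin m ⊕ A) (i : A → ZFSet.{0})
    (v : Fin m → ZFSet.{0}) (a : ZFSet.{0}) :
    (fun k => Sum.elim (Fin.cons a v : Fin (m + 1) → ZFSet.{0}) i (lift σ k)) =
      Fin.cons a (fun k => Sum.elim v i (σ k)) := by
  funext k
  refine Fin.cases ?_ (fun k => ?_) k
  · rfl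
  · simp only [lift, Fin.cons_succ]
    cases σ k <;> rfl

theorem sat_subst (M : Set ZFSet.{0}) (i : A → ZFSet.{0}) : {n m : ℕ} → (φ : Fml A n) →
    (σ : Fin n → Fin m ⊕ A) → (v : Fin m → ZFSet.{0}) →
    (Sat M i (φ.subst σ) v ↔ Sat M i φ fun k => Sum.elim v i (σ k))
  | _, _, .mem s t, σ, v => by simp only [Fml.subst, Sat, tsubst_elim]
  | _, _, .eq s t, σ, v => by simp only [Fml.subst, Sat, tsubst_elim]
  | _, _, .neg φ, σ, v => by simp only [Fml.subst, Sat, sat_subst M i φ]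
  | _, _, .and φ ψ, σ, v => by simp only [Fml.subst, Sat, sat_subst M i φ, sat_subst M i ψ]
  | _, _, .ex φ, σ, v => by simp only [Fml.subst, Sat, sat_subst M i φ, lift_elim]

theorem tOver_subst {S : Set A} {n m : ℕ} {σ : Fin n → Fin m ⊕ A} (hσ : ∀ k, TOver S (σ k))
    {s : Fin n ⊕ A} (hs : TOver S s) : TOver S (tsubst σ s) := by
  cases s with
  | inl k => exact hσ k
  | inr a => exact tOver_inr.2 (hs a rfl)

theorem tOver_lift {S : Set A} {n m : ℕ} {σ : Fin n → Fin m ⊕ A} (hσ : ∀ k, TOver S (σ k)) :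
    ∀ k, TOver S (lift σ k) := by
  intro k
  refine Fin.cases ?_ (fun k => ?_) k
  · exact TOver.inl 0
  · simp only [lift, Fin.cons_succ]
    have h := hσ k
    cases h1 : σ k with
    | inl j => exact TOver.inl _
    | inr a =>
      rw [h1] at h
      exact tOver_inr.2 (h a rfl)

theorem over_subst {S : Set A} : {n m : ℕ} → (φ : Fml A n) → (σ : Fin n → Fin m ⊕ A) →
    (∀ k, TOver S (σ k)) → φ.Over S → (φ.subst σ).Over S
  | _, _, .mem _ _, _, hσ, h => ⟨tOver_subst hσ h.1, tOver_subst hσ h.2⟩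
  | _, _, .eq _ _, _, hσ, h => ⟨tOver_subst hσ h.1, tOver_subst hσ h.2⟩
  | _, _, .neg φ, σ, hσ, h => over_subst φ σ hσ h
  | _, _, .and φ ψ, σ, hσ, h => ⟨over_subst φ σ hσ h.1, over_subst ψ σ hσ h.2⟩
  | _, _, .ex φ, σ, hσ, h => over_subst φ (lift σ) (tOver_lift hσ) h

end subst

/-! ### Definable relations and functions -/

section dfn

/-- `R` is definable over `M` with parameters from `S`. -/
def Dfn (S M : Set ZFSet.{0}) {n : ℕ} (R : (Fin n → ZFSet.{0}) → Prop) : Prop :=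
  ∃ φ : Fml ZFSet.{0} n, φ.Over S ∧ ∀ v, (∀ i, v i ∈ M) → (Sat M id φ v ↔ R v)

/-- `F` is a definable operation on `M`. -/
def DfnF (S M : Set ZFSet.{0}) {n : ℕ} (F : (Fin n → ZFSet.{0}) → ZFSet.{0}) : Prop :=
  (∀ v, (∀ i, v i ∈ M) → F v ∈ M) ∧
    Dfn S M (fun w : Fin (n + 1) → ZFSet.{0} => w 0 = F (Fin.tail w))

variable {S M : Set ZFSet.{0}} {n : ℕ} {R T : (Fin n → ZFSet.{0}) → Prop}

theorem Dfn.congr (h : Dfn S M R) (h' : ∀ v, (∀ i, v i ∈ M) → (R v ↔ T v)) : Dfn S M T := by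
  obtain ⟨φ, h1, h2⟩ := h
  exact ⟨φ, h1, fun v hv => (h2 v hv).trans (h' v hv)⟩

theorem Dfn.not (h : Dfn S M R) : Dfn S M fun v => ¬ R v := by
  obtain ⟨φ, h1, h2⟩ := h
  exact ⟨.neg φ, h1, fun v hv => not_congr (h2 v hv)⟩

theorem Dfn.and (h : Dfn S M R) (h' : Dfn S M T) : Dfn S M fun v => R v ∧ T v := by
  obtain ⟨φ, h1, h2⟩ := h
  obtain ⟨ψ, h3, h4⟩ := h'
  exact ⟨.and φ ψ, ⟨h1, h3⟩, fun v hv => and_congr (h2 v hv) (h4 v hv)⟩

theorem Dfn.or (h : Dfn S M R) (h' : Dfn S M T) : Dfn S M fun v => R v ∨ T v :=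
  (h.not.and h'.not).not.congr fun v _ => by tauto

theorem Dfn.imp (h : Dfn S M R) (h' : Dfn S M T) : Dfn S M fun v => R v → T v :=
  (h.and h'.not).not.congr fun v _ => by tauto

theorem Dfn.iff (h : Dfn S M R) (h' : Dfn S M T) : Dfn S M fun v => R v ↔ T v :=
  ((h.imp h').and (h'.imp h)).congr fun v _ => by tauto

theorem Dfn.tt : Dfn S M fun _ : Fin n → ZFSet.{0} => True := by
  by_cases h : n = 0
  · subst h
    exact ⟨.neg (.ex (.neg (.eq (Sum.inl 0) (Sum.inl 0)))), ⟨TOver.inl _, TOver.inl _⟩,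
      fun v _ => by simp [Sat]⟩
  · have : NeZero n := ⟨h⟩
    exact ⟨.eq (Sum.inl 0) (Sum.inl 0), ⟨TOver.inl _, TOver.inl _⟩, fun v _ => by simp [Sat]⟩

theorem Dfn.prop (p : Prop) : Dfn S M fun _ : Fin n → ZFSet.{0} => p := by
  by_cases h : p
  · exact Dfn.tt.congr fun v _ => by simp [h]
  · exact Dfn.tt.not.congr fun v _ => by simp [h]

theorem Dfn.ex {Q : ZFSet.{0} → (Fin n → ZFSet.{0}) → Prop}
    (h : Dfn S M fun w : Fin (n + 1) → ZFSet.{0} => Q (w 0) (Fin.tail w)) :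
    Dfn S M fun v => ∃ a ∈ M, Q a v := by
  obtain ⟨φ, h1, h2⟩ := h
  refine ⟨.ex φ, h1, fun v hv => ?_⟩
  simp only [Sat]
  constructor
  · rintro ⟨a, ha, h3⟩
    refine ⟨a, ha, (h2 _ ?_).1 h3⟩
    intro i
    refine Fin.cases ?_ (fun i => ?_) i
    · exact ha
    · exact hv i
  · rintro ⟨a, ha, h3⟩
    refine ⟨a, ha, (h2 _ ?_).2 h3⟩
    intro i
    refine Fin.cases ?_ (fun i => ?_) i
    · exact ha
    · exact hv i

theorem Dfn.all {Q : ZFSet.{0} → (Fin n → ZFSet.{0}) → Prop}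
    (h : Dfn S M fun w : Fin (n + 1) → ZFSet.{0} => Q (w 0) (Fin.tail w)) :
    Dfn S M fun v => ∀ a ∈ M, Q a v := by
  have h1 : Dfn S M fun v => ∃ a ∈ M, ¬ Q a v := Dfn.ex h.not
  exact h1.not.congr fun v _ => by
    constructor
    · intro h2 a ha
      by_contra h3
      exact h2 ⟨a, ha, h3⟩
    · rintro h2 ⟨a, ha, h3⟩
      exact h3 (h2 a ha)

theorem Dfn.comp (h : Dfn S M R) {m : ℕ} (ρ : Fin n → Fin m) :
    Dfn S M fun v : Fin m → ZFSet.{0} => R fun i => v (ρ i) := by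
  obtain ⟨φ, h1, h2⟩ := h
  refine ⟨φ.subst fun i => Sum.inl (ρ i), over_subst _ _ (fun k => TOver.inl _) h1, ?_⟩
  intro v hv
  rw [sat_subst]
  exact h2 _ fun i => hv _

theorem Dfn.tail {Q : (Fin n → ZFSet.{0}) → Prop} (h : Dfn S M Q) :
    Dfn S M fun w : Fin (n + 1) → ZFSet.{0} => Q (Fin.tail w) := h.comp Fin.succ

theorem DfnF.tail {F : (Fin n → ZFSet.{0}) → ZFSet.{0}} (h : DfnF S M F) :
    DfnF S M fun w : Fin (n + 1) → ZFSet.{0} => F (Fin.tail w) := by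
  refine ⟨fun v hv => h.1 _ fun i => hv _, ?_⟩
  have h2 := h.2.comp (Fin.cons 0 fun i : Fin n => i.succ.succ : Fin (n + 1) → Fin (n + 2))
  exact h2

theorem DfnF.proj (i : Fin n) : DfnF S M fun v => v i := by
  refine ⟨fun v hv => hv i, .eq (Sum.inl 0) (Sum.inl i.succ), ⟨TOver.inl _, TOver.inl _⟩, ?_⟩
  intro v _
  rfl

theorem DfnF.const' {a : ZFSet.{0}} (ha : a ∈ M) (ha' : a ∈ S) :
    DfnF S M fun _ : Fin n → ZFSet.{0} => a := by
  refine ⟨fun v hv => ha, .eq (Sum.inl 0) (Sum.inr a), ⟨TOver.inl _, tOver_inr.2 ha'⟩, ?_⟩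
  intro v _
  rfl

theorem Dfn.subst {Q : ZFSet.{0} → (Fin n → ZFSet.{0}) → Prop}
    {F : (Fin n → ZFSet.{0}) → ZFSet.{0}}
    (h : Dfn S M fun w : Fin (n + 1) → ZFSet.{0} => Q (w 0) (Fin.tail w)) (hF : DfnF S M F) :
    Dfn S M fun v => Q (F v) v := by
  have h1 : Dfn S M fun v => ∃ a ∈ M, a = F v ∧ Q a v := Dfn.ex (hF.2.and h)
  exact h1.congr fun v hv => by
    constructor
    · rintro ⟨a, _, rfl, h2⟩
      exact h2
    · intro h2
      exact ⟨F v, hF.1 v hv, rfl, h2⟩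

theorem Dfn.comp1 {Q : ZFSet.{0} → Prop} {F : (Fin n → ZFSet.{0}) → ZFSet.{0}}
    (h : Dfn S M fun w : Fin 1 → ZFSet.{0} => Q (w 0)) (hF : DfnF S M F) :
    Dfn S M fun v => Q (F v) := by
  have h1 := h.comp (fun _ => 0 : Fin 1 → Fin (n + 1))
  exact Dfn.subst (Q := fun a _ => Q a) h1 hF

theorem Dfn.comp2 {Q : ZFSet.{0} → ZFSet.{0} → Prop} {F G : (Fin n → ZFSet.{0}) → ZFSet.{0}}
    (h : Dfn S M fun w : Fin 2 → ZFSet.{0} => Q (w 0) (w 1)) (hF : DfnF S M F) (hG : DfnF S M G) :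
    Dfn S M fun v => Q (F v) (G v) := by
  refine Dfn.subst (Q := fun a v => Q a (G v)) ?_ hF
  refine Dfn.subst (Q := fun a v => Q (v 0) a) ?_ hG.tail
  exact h.comp ![1, 0]

theorem Dfn.comp3 {Q : ZFSet.{0} → ZFSet.{0} → ZFSet.{0} → Prop}
    {F G H : (Fin n → ZFSet.{0}) → ZFSet.{0}}
    (h : Dfn S M fun w : Fin 3 → ZFSet.{0} => Q (w 0) (w 1) (w 2)) (hF : DfnF S M F) (hG : DfnF S M G)
    (hH : DfnF S M H) : Dfn S M fun v => Q (F v) (G v) (H v) := by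
  refine Dfn.subst (Q := fun a v => Q a (G v) (H v)) ?_ hF
  refine Dfn.subst (Q := fun a v => Q (v 0) a (H (Fin.tail v))) ?_ hG.tail
  refine Dfn.subst (Q := fun a v => Q (v 1) (v 0) a) ?_ hH.tail.tail
  exact h.comp ![2, 1, 0]

theorem Dfn.comp4 {Q : ZFSet.{0} → ZFSet.{0} → ZFSet.{0} → ZFSet.{0} → Prop}
    {F G H K : (Fin n → ZFSet.{0}) → ZFSet.{0}}
    (h : Dfn S M fun w : Fin 4 → ZFSet.{0} => Q (w 0) (w 1) (w 2) (w 3)) (hF : DfnF S M F)
    (hG : DfnF S M G) (hH : DfnF S M H) (hK : DfnF S M K) :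
    Dfn S M fun v => Q (F v) (G v) (H v) (K v) := by
  refine Dfn.subst (Q := fun a v => Q a (G v) (H v) (K v)) ?_ hF
  refine Dfn.subst (Q := fun a v => Q (v 0) a (H (Fin.tail v)) (K (Fin.tail v))) ?_ hG.tail
  refine Dfn.subst (Q := fun a v => Q (v 1) (v 0) a (K (Fin.tail (Fin.tail v)))) ?_ hH.tail.tail
  refine Dfn.subst (Q := fun a v => Q (v 2) (v 1) (v 0) a) ?_ hK.tail.tail.tail
  exact h.comp ![3, 2, 1, 0]

theorem Dfn.mem {F G : (Fin n → ZFSet.{0}) → ZFSet.{0}} (hF : DfnF S M F) (hG : DfnF S M G) :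
    Dfn S M fun v => F v ∈ G v := by
  refine Dfn.comp2 (Q := fun a b => a ∈ b) ?_ hF hG
  exact ⟨.mem (Sum.inl 0) (Sum.inl 1), ⟨TOver.inl _, TOver.inl _⟩, fun v _ => Iff.rfl⟩

theorem Dfn.eq {F G : (Fin n → ZFSet.{0}) → ZFSet.{0}} (hF : DfnF S M F) (hG : DfnF S M G) :
    Dfn S M fun v => F v = G v := by
  refine Dfn.comp2 (Q := fun a b => a = b) ?_ hF hG
  exact ⟨.eq (Sum.inl 0) (Sum.inl 1), ⟨TOver.inl _, TOver.inl _⟩, fun v _ => Iff.rfl⟩

theorem DfnF.comp1 {f : ZFSet.{0} → ZFSet.{0}} {F : (Fin n → ZFSet.{0}) → ZFSet.{0}}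
    (h : DfnF S M fun w : Fin 1 → ZFSet.{0} => f (w 0)) (hF : DfnF S M F) :
    DfnF S M fun v => f (F v) := by
  refine ⟨fun v hv => h.1 (fun _ => F v) fun _ => hF.1 v hv, ?_⟩
  exact Dfn.comp2 (Q := fun a b => a = f b) h.2 (DfnF.proj 0) hF.tail

theorem DfnF.comp2 {f : ZFSet.{0} → ZFSet.{0} → ZFSet.{0}}
    {F G : (Fin n → ZFSet.{0}) → ZFSet.{0}}
    (h : DfnF S M fun w : Fin 2 → ZFSet.{0} => f (w 0) (w 1)) (hF : DfnF S M F) (hG : DfnF S M G) :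
    DfnF S M fun v => f (F v) (G v) := by
  refine ⟨fun v hv => h.1 ![F v, G v] ?_, ?_⟩
  · intro i
    fin_cases i
    · exact hF.1 v hv
    · exact hG.1 v hv
  · exact Dfn.comp3 (Q := fun a b c => a = f b c) h.2 (DfnF.proj 0) hF.tail hG.tail

theorem DfnF.const {a : ZFSet.{0}} (ha : a ∈ M) : DfnF M M fun _ : Fin n → ZFSet.{0} => a :=
  DfnF.const' ha ha

end dfn

/-! ### Consequences of the axioms -/

/-- A transitive class closed under pairs and unions. -/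
structure IsBase (M : Set ZFSet.{0}) : Prop where
  trans : ∀ x ∈ M, ∀ y ∈ x, y ∈ M
  pairing : ∀ x ∈ M, ∀ y ∈ M, ({x, y} : ZFSet.{0}) ∈ M
  union : ∀ x ∈ M, ZFSet.sUnion x ∈ M

theorem IsZF.base {M : Set ZFSet.{0}} (hM : IsZF M) : IsBase M := ⟨hM.trans, hM.pairing, hM.union⟩

theorem isBase_univ : IsBase Set.univ := ⟨fun _ _ _ _ => trivial, fun _ _ _ _ => trivial,
  fun _ _ => trivial⟩

namespace IsBase

variable {S M : Set ZFSet.{0}} (hM : IsBase M) {n : ℕ}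

include hM

theorem bex {F : (Fin n → ZFSet.{0}) → ZFSet.{0}} {Q : ZFSet.{0} → (Fin n → ZFSet.{0}) → Prop}
    (hF : DfnF S M F) (h : Dfn S M fun w : Fin (n + 1) → ZFSet.{0} => Q (w 0) (Fin.tail w)) :
    Dfn S M fun v => ∃ a ∈ F v, Q a v := by
  have h1 : Dfn S M fun v => ∃ a ∈ M, a ∈ F v ∧ Q a v :=
    Dfn.ex (Q := fun a v => a ∈ F v ∧ Q a v) ((Dfn.mem (DfnF.proj 0) hF.tail).and h)
  exact h1.congr fun v hv => by
    constructor
    · rintro ⟨a, _, h2⟩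
      exact ⟨a, h2⟩
    · rintro ⟨a, h2, h3⟩
      exact ⟨a, hM.trans _ (hF.1 v hv) a h2, h2, h3⟩

theorem ball {F : (Fin n → ZFSet.{0}) → ZFSet.{0}} {Q : ZFSet.{0} → (Fin n → ZFSet.{0}) → Prop}
    (hF : DfnF S M F) (h : Dfn S M fun w : Fin (n + 1) → ZFSet.{0} => Q (w 0) (Fin.tail w)) :
    Dfn S M fun v => ∀ a ∈ F v, Q a v := by
  have h1 : Dfn S M fun v => ∃ a ∈ F v, ¬ Q a v := hM.bex (Q := fun a v => ¬ Q a v) hF h.not
  exact h1.not.congr fun v _ => by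
    constructor
    · intro h2 a ha
      by_contra h3
      exact h2 ⟨a, ha, h3⟩
    · rintro h2 ⟨a, ha, h3⟩
      exact h3 (h2 a ha)

theorem dfn_upair : DfnF S M fun w : Fin 2 → ZFSet.{0} => ({w 0, w 1} : ZFSet.{0}) := by
  refine ⟨fun v hv => hM.pairing _ (hv 0) _ (hv 1), ?_⟩
  have h1 : Dfn S M fun w : Fin 3 → ZFSet.{0} => w 1 ∈ w 0 ∧ w 2 ∈ w 0 ∧
      ∀ x ∈ w 0, x = w 1 ∨ x = w 2 := by
    refine (Dfn.mem (DfnF.proj _) (DfnF.proj _)).and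
      ((Dfn.mem (DfnF.proj _) (DfnF.proj _)).and ?_)
    refine hM.ball (DfnF.proj _) ?_
    exact (Dfn.eq (DfnF.proj _) (DfnF.proj 2)).or (Dfn.eq (DfnF.proj _) (DfnF.proj 3))
  exact h1.congr fun v hv => by
    constructor
    · rintro ⟨h2, h3, h4⟩
      ext z
      rw [ZFSet.mem_pair]
      exact ⟨fun hz => h4 z hz, fun hz => hz.elim (fun h => h ▸ h2) (fun h => h ▸ h3)⟩
    · intro h2
      have h3 : ∀ z, z ∈ v 0 ↔ z = v 1 ∨ z = v 2 := by
        intro z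
        rw [h2, ZFSet.mem_pair]
        rfl
      exact ⟨(h3 _).2 (Or.inl rfl), (h3 _).2 (Or.inr rfl), fun x hx => (h3 x).1 hx⟩

theorem dfn_single : DfnF S M fun w : Fin 1 → ZFSet.{0} => ({w 0} : ZFSet.{0}) := by
  have h := DfnF.comp2 (S := S) (f := fun a b => ({a, b} : ZFSet.{0})) hM.dfn_upair
    (DfnF.proj (0 : Fin 1)) (DfnF.proj (0 : Fin 1))
  simpa only [ZFSet.pair_eq_singleton] using h

theorem pair' {F G : (Fin n → ZFSet.{0}) → ZFSet.{0}} (hF : DfnF S M F) (hG : DfnF S M G) :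
    DfnF S M fun v => ZFSet.pair (F v) (G v) := by
  refine DfnF.comp2 (f := ZFSet.pair) ?_ hF hG
  unfold ZFSet.pair
  refine DfnF.comp2 (f := fun a b => ({a, b} : ZFSet.{0})) hM.dfn_upair ?_ ?_
  · exact DfnF.comp1 (f := fun a => ({a} : ZFSet.{0})) hM.dfn_single (DfnF.proj (0 : Fin 2))
  · exact DfnF.comp2 (f := fun a b => ({a, b} : ZFSet.{0})) hM.dfn_upair (DfnF.proj 0)
      (DfnF.proj 1)

end IsBase

namespace IsZF

variable {M : Set ZFSet.{0}} (hM : IsZF M) {n : ℕ}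

include hM

theorem pair_mem {x y : ZFSet.{0}} (hx : x ∈ M) (hy : y ∈ M) : ZFSet.pair x y ∈ M :=
  (hM.base.pair' (DfnF.const hx) (DfnF.const hy)).1 Fin.elim0 fun i => i.elim0

theorem of_pair_mem {x y : ZFSet.{0}} (h : ZFSet.pair x y ∈ M) : x ∈ M ∧ y ∈ M := by
  have h1 : ({x, y} : ZFSet.{0}) ∈ M := hM.trans _ h _ (by simp [ZFSet.pair])
  exact ⟨hM.trans _ h1 _ (by simp), hM.trans _ h1 _ (by simp)⟩

theorem sep_mem {Q : ZFSet.{0} → Prop} (h : Dfn M M fun w : Fin 1 → ZFSet.{0} => Q (w 0))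
    {x : ZFSet.{0}} (hx : x ∈ M) : ZFSet.sep Q x ∈ M := by
  obtain ⟨φ, h1, h2⟩ := h
  obtain ⟨y, hy, h3⟩ := hM.separation φ h1 x hx
  have h4 : y = ZFSet.sep Q x := by
    ext z
    rw [h3, ZFSet.mem_sep]
    refine and_congr_right fun hz => h2 ![z] fun i => ?_
    fin_cases i
    exact hM.trans _ hx z hz
  exact h4 ▸ hy

theorem empty_mem : ∅ ∈ M := hM.trans _ hM.infinity _ ZFSet.omega_zero

theorem union_mem {x y : ZFSet.{0}} (hx : x ∈ M) (hy : y ∈ M) : x ∪ y ∈ M := by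
  have h := hM.union _ (hM.pairing _ hx _ hy)
  rwa [ZFSet.sUnion_pair] at h

theorem single_mem {x : ZFSet.{0}} (hx : x ∈ M) : ({x} : ZFSet.{0}) ∈ M := by
  have h := hM.pairing _ hx _ hx
  rwa [ZFSet.pair_eq_singleton] at h

theorem insert_mem {x y : ZFSet.{0}} (hx : x ∈ M) (hy : y ∈ M) : insert x y ∈ M := by
  have h := hM.union_mem (hM.single_mem hx) hy
  have h1 : ({x} ∪ y : ZFSet.{0}) = insert x y := by
    ext z
    simp
  rwa [h1] at h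

end IsZF

end Pool.Agent.W868
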