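import Pool.Agent.W868.God

/-!
# A definable well-ordering of the constructible sets
-/

set_option autoImplicit false
set_option linter.unreachableTactic false
set_option linter.unusedTactic false

namespace Pool.Agent.W868

open ZFSet (pair)

/-- `C` is a model of ZF in which every set is constructible relative to `A`. -/
structure IsLA (A : ZFSet.{0}) (C : Set ZFSet.{0}) : Prop where
  zf : IsZF C
  mem : A ∈ C
  lev : ∀ y ∈ C, ∃ ξ ∈ C, ξ.IsOrdinal ∧ y ∈ Lv A ξ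

theorem isLA_LC {M : Set ZFSet.{0}} (hM : IsZF M) {A δ : ZFSet.{0}} (hA : A ∈ M) (hδ : δ ∈ M)
    (hδo : δ.IsOrdinal) (h : A ⊆ Lv A δ) : IsLA A (LC M A) := by
  refine ⟨isZF_LC hM hA, LC_of_subset hM hδ hδo h, ?_⟩
  rintro y ⟨ξ, h1, h2, h3⟩
  exact ⟨ξ, ord_LC hM hA h1 h2, h2, h3⟩

/-- The value of a function at a point. -/
noncomputable def ap (g a : ZFSet.{0}) : ZFSet.{0} :=
  ZFSet.sUnion (im sn (ZFSet.sep (fun q => fs q = a) g))

theorem ap_gr {F : ZFSet.{0} → ZFSet.{0}} {x a : ZFSet.{0}} (h : a ∈ x) :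
    ap (gr F x) a = F a := by
  have h1 : im sn (ZFSet.sep (fun q => fs q = a) (gr F x)) = {F a} := by
    ext z
    rw [mem_im, ZFSet.mem_singleton]
    constructor
    · rintro ⟨p, hp, rfl⟩
      rw [ZFSet.mem_sep] at hp
      obtain ⟨h2, h3⟩ := hp
      obtain ⟨u, hu, rfl⟩ := mem_gr.1 h2
      rw [fs_pair] at h3
      rw [sn_pair, h3]
    · rintro rfl
      refine ⟨pair a (F a), ZFSet.mem_sep.2 ⟨mem_gr.2 ⟨a, h, rfl⟩, ?_⟩, ?_⟩
      · rw [fs_pair]
      · rw [sn_pair]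
  rw [ap, h1, ZFSet.sUnion_singleton]

/-- The least element of a set of ordinals. -/
noncomputable def mn (S : ZFSet.{0}) : ZFSet.{0} :=
  ZFSet.sep (fun z => ∀ s ∈ S, z ∈ s) (ZFSet.sUnion S)

theorem mn_mem {S : ZFSet.{0}} (hS : ∀ s ∈ S, s.IsOrdinal) (hne : ∃ s, s ∈ S) : mn S ∈ S := by
  have hne' : {s | s ∈ S}.Nonempty := hne
  have h1 : ZFSet.mem_wf.min _ hne' ∈ S := ZFSet.mem_wf.min_mem _ hne'
  have h2 : mn S = ZFSet.mem_wf.min _ hne' := by
    ext z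
    rw [mn, ZFSet.mem_sep, ZFSet.mem_sUnion]
    constructor
    · exact fun h => h.2 _ h1
    · refine fun h => ⟨⟨_, h1, h⟩, fun s hs => ?_⟩
      rcases (hS _ h1).mem_or_subset (hS s hs) with h3 | h3
      · exact (hS s hs).subset_of_mem h3 h
      · rcases (ZFSet.IsOrdinal.subset_iff_eq_or_mem (hS s hs) (hS _ h1)).1 h3 with h4 | h4
        · rw [h4]
          exact h
        · exact absurd h4 (ZFSet.mem_wf.not_lt_min {s | s ∈ S} hs)
  rw [h2]
  exact h1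

theorem isOrdinal_mn {S : ZFSet.{0}} (hS : ∀ s ∈ S, s.IsOrdinal) : (mn S).IsOrdinal := by
  by_cases hne : ∃ s, s ∈ S
  · exact hS _ (mn_mem hS hne)
  · have h : mn S = ∅ := by
      rw [ZFSet.eq_empty]
      intro z hz
      rw [mn, ZFSet.mem_sep, ZFSet.mem_sUnion] at hz
      obtain ⟨⟨s, hs, -⟩, -⟩ := hz
      exact hne ⟨s, hs⟩
    rw [h]
    exact ZFSet.isOrdinal_empty

section eo

variable (C : Set ZFSet.{0}) (A : ZFSet.{0})

/-- The level of a set. -/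
noncomputable def rho (y : ZFSet.{0}) : ZFSet.{0} := lo C fun ξ => y ∈ step A (Lv A ξ)

/-- The code of a component. -/
noncomputable def e1 (y g a : ZFSet.{0}) : ZFSet.{0} :=
  open Classical in if a = Lv A (rho C A y) then ∅ else insert (ap g a) (ap g a)

/-- The code of a set. -/
noncomputable def cd (y g : ZFSet.{0}) (i : ℕ) (p : ZFSet.{0}) : ZFSet.{0} :=
  gp (rho C A y) (gp (nat i) (gp (e1 C A y g (fs p)) (e1 C A y g (sn p))))

/-- The pair `p` and the number `i` determine `y`. -/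
def IsCd (y : ZFSet.{0}) (i : ℕ) (p : ZFSet.{0}) : Prop :=
  (∀ u ∈ y, u ∈ Lv A (rho C A y) ∧ GR A i u (fs p) (sn p)) ∧
    ∀ u ∈ Lv A (rho C A y), GR A i u (fs p) (sn p) → u ∈ y

/-- The set of the codes of a set. -/
noncomputable def cds (y g : ZFSet.{0}) : ℕ → ZFSet.{0}
  | 0 => ∅
  | k + 1 => cds y g k ∪ im (cd C A y g k) (ZFSet.sep (IsCd C A y k)
      (ZFSet.prod (insert (Lv A (rho C A y)) (Lv A (rho C A y)))
        (insert (Lv A (rho C A y)) (Lv A (rho C A y)))))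

theorem mem_cds {y g z : ZFSet.{0}} {k : ℕ} : z ∈ cds C A y g k ↔ ∃ i < k,
    ∃ a ∈ insert (Lv A (rho C A y)) (Lv A (rho C A y)),
    ∃ b ∈ insert (Lv A (rho C A y)) (Lv A (rho C A y)),
      IsCd C A y i (pair a b) ∧ z = cd C A y g i (pair a b) := by
  induction k with
  | zero => simp [cds]
  | succ k ih =>
    rw [cds, ZFSet.mem_union, ih, mem_im]
    constructor
    · rintro (⟨i, hi, h⟩ | ⟨p, hp, rfl⟩)
      · exact ⟨i, by omega, h⟩
      · rw [ZFSet.mem_sep, ZFSet.mem_prod] at hp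
        obtain ⟨⟨a, ha, b, hb, rfl⟩, hp⟩ := hp
        exact ⟨k, by omega, a, ha, b, hb, hp, rfl⟩
    · rintro ⟨i, hi, a, ha, b, hb, h1, h2⟩
      rcases Nat.lt_succ_iff_lt_or_eq.1 hi with h3 | rfl
      · exact Or.inl ⟨i, h3, a, ha, b, hb, h1, h2⟩
      · exact Or.inr ⟨_, ZFSet.mem_sep.2 ⟨ZFSet.pair_mem_prod.2 ⟨ha, hb⟩, h1⟩, h2⟩

theorem isOrdinal_cds {y g z : ZFSet.{0}} {k : ℕ} (h : z ∈ cds C A y g k) : z.IsOrdinal := by
  obtain ⟨i, -, a, -, b, -, -, rfl⟩ := (mem_cds C A).1 h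
  exact isOrdinal_gp

theorem rho_wf (hC : ∀ x ∈ C, ∀ y ∈ x, y ∈ C) :
    WellFounded fun u y => u ∈ Lv A (rho C A y) := by
  refine Subrelation.wf ?_ (InvImage.wf (fun y : ZFSet.{0} => (rho C A y).rank) Ordinal.lt_wf)
  intro u y h
  obtain ⟨w, hw, h1⟩ := mem_Lv.1 h
  by_cases h2 : ∃ ζ ∈ C, ζ.IsOrdinal ∧ y ∈ step A (Lv A ζ)
  · obtain ⟨h3, h4, -⟩ := lo_spec h2
    have h5 : rho C A u ⊆ w := lo_subset (hC _ h3 _ hw) (h4.mem hw) h1
    exact (ZFSet.rank_mono h5).trans_lt (ZFSet.rank_lt_of_mem hw)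
  · have h3 : rho C A y = ∅ := lo_none h2
    rw [h3] at hw
    exact absurd hw (ZFSet.notMem_empty _)

/-- The definable well-ordering, given by an injection into the ordinals. -/
noncomputable def eo (hC : ∀ x ∈ C, ∀ y ∈ x, y ∈ C) : ZFSet.{0} → ZFSet.{0} :=
  wfF (fun y => Lv A (rho C A y)) (rho_wf C A hC) fun y g => mn (cds C A y g 11)

theorem eo_eq (hC : ∀ x ∈ C, ∀ y ∈ x, y ∈ C) (y : ZFSet.{0}) :
    eo C A hC y = mn (cds C A y (gr (eo C A hC) (Lv A (rho C A y))) 11) := by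
  rw [eo, wfF_eq]

theorem isOrdinal_eo (hC : ∀ x ∈ C, ∀ y ∈ x, y ∈ C) (y : ZFSet.{0}) :
    (eo C A hC y).IsOrdinal := by
  rw [eo_eq]
  exact isOrdinal_mn fun s hs => isOrdinal_cds C A hs

end eo

section

variable {C : Set ZFSet.{0}} {A : ZFSet.{0}} (hL : IsLA A C)

include hL

theorem rho_spec {y : ZFSet.{0}} (hy : y ∈ C) : rho C A y ∈ C ∧ (rho C A y).IsOrdinal ∧
    y ∈ step A (Lv A (rho C A y)) := by
  obtain ⟨ξ, h1, h2, h3⟩ := hL.lev y hy
  obtain ⟨u, hu, h4⟩ := mem_Lv.1 h3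
  exact lo_spec ⟨u, hL.zf.trans _ h1 _ hu, h2.mem hu, h4⟩

theorem exists_cd {y : ZFSet.{0}} (hy : y ∈ C) (g : ZFSet.{0}) :
    ∃ z, z ∈ cds C A y g 11 := by
  obtain ⟨h1, h2, h3⟩ := rho_spec hL hy
  rcases mem_step.1 h3 with h4 | ⟨i, hi, a, ha, b, hb, h4⟩
  · obtain ⟨u, hu, h5⟩ := mem_Lv.1 h4
    exact absurd hu (lo_min (hL.zf.trans _ h1 _ hu) (h2.mem hu) h5)
  · refine ⟨_, (mem_cds C A).2 ⟨i, hi, a, ha, b, hb, ⟨fun u hu => ?_, fun u hu hu' => ?_⟩, rfl⟩⟩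
    · rw [fs_pair, sn_pair]
      exact (h4 u).1 hu
    · rw [fs_pair, sn_pair] at hu'
      exact (h4 u).2 ⟨hu, hu'⟩

theorem eo_inj (hC : ∀ x ∈ C, ∀ y ∈ x, y ∈ C) : ∀ y ∈ C, ∀ y' ∈ C,
    eo C A hC y = eo C A hC y' → y = y' := by
  intro y
  induction y using (rho_wf C A hC).induction with
  | _ y ih =>
  intro hy y' hy' h
  have h1 := mn_mem (fun s hs => isOrdinal_cds C A hs)
    (exists_cd hL hy (gr (eo C A hC) (Lv A (rho C A y))))
  have h2 := mn_mem (fun s hs => isOrdinal_cds C A hs)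
    (exists_cd hL hy' (gr (eo C A hC) (Lv A (rho C A y'))))
  rw [← eo_eq] at h1 h2
  obtain ⟨i, hi, a, ha, b, hb, h3, h4⟩ := (mem_cds C A).1 h1
  obtain ⟨i', hi', a', ha', b', hb', h5, h6⟩ := (mem_cds C A).1 h2
  rw [h4, h6] at h
  unfold cd at h
  rw [fs_pair, sn_pair, fs_pair, sn_pair] at h
  have hno : ∀ n, (nat n).IsOrdinal := fun n => by
    rw [nat_eq]
    exact ZFSet.isOrdinal_toZFSet _
  have he1 : ∀ y a, a ∈ insert (Lv A (rho C A y)) (Lv A (rho C A y)) →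
      (e1 C A y (gr (eo C A hC) (Lv A (rho C A y))) a).IsOrdinal := by
    intro y a ha
    unfold e1
    split_ifs with h
    · exact ZFSet.isOrdinal_empty
    · rw [ap_gr ((ZFSet.mem_insert_iff.1 ha).resolve_left h)]
      exact isOrdinal_sc (isOrdinal_eo C A hC a)
  obtain ⟨h7, h8⟩ := gp_inj (lo_isOrdinal) isOrdinal_gp lo_isOrdinal isOrdinal_gp h
  obtain ⟨h9, h10⟩ := gp_inj (hno _) isOrdinal_gp (hno _) isOrdinal_gp h8
  obtain ⟨h11, h12⟩ := gp_inj (he1 _ _ ha) (he1 _ _ hb) (he1 _ _ ha') (he1 _ _ hb') h10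
  have h9' := nat_injective h9
  subst h9'
  have key : ∀ a ∈ insert (Lv A (rho C A y)) (Lv A (rho C A y)),
      ∀ a' ∈ insert (Lv A (rho C A y')) (Lv A (rho C A y')),
      e1 C A y (gr (eo C A hC) (Lv A (rho C A y))) a =
        e1 C A y' (gr (eo C A hC) (Lv A (rho C A y'))) a' → a = a' := by
    intro a ha a' ha' h
    have h7' : rho C A y = rho C A y' := h7
    unfold e1 at h
    rw [← h7'] at h ha'
    have hX : Lv A (rho C A y) ∈ C := Lv_mem_M hL.zf hL.mem (rho_spec hL hy).1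
    split_ifs at h with c1 c2 c2
    · rw [c1, c2]
    · exact absurd (h ▸ ZFSet.mem_insert _ _) (ZFSet.notMem_empty _)
    · exact absurd (h ▸ ZFSet.mem_insert _ _) (ZFSet.notMem_empty _)
    · have ha1 := (ZFSet.mem_insert_iff.1 ha).resolve_left c1
      have ha2 := (ZFSet.mem_insert_iff.1 ha').resolve_left c2
      rw [ap_gr ha1, ap_gr ha2] at h
      have h13 : eo C A hC a = eo C A hC a' := by
        have h14 : eo C A hC a ∈ (insert (eo C A hC a') (eo C A hC a') : ZFSet.{0}) :=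
          h ▸ ZFSet.mem_insert _ _
        have h15 : eo C A hC a' ∈ (insert (eo C A hC a) (eo C A hC a) : ZFSet.{0}) :=
          h ▸ ZFSet.mem_insert _ _
        rcases ZFSet.mem_insert_iff.1 h14 with h16 | h16
        · exact h16
        rcases ZFSet.mem_insert_iff.1 h15 with h17 | h17
        · exact h17.symm
        exact absurd h17 (ZFSet.mem_asymm h16)
      exact ih a ha1 (hC _ hX _ ha1) a' (hC _ hX _ ha2) h13
  have ha' := key a ha a' ha' h11
  have hb' := key b hb b' hb' h12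
  subst ha'
  subst hb'
  have h7' : rho C A y = rho C A y' := h7
  ext u
  constructor
  · intro hu
    obtain ⟨h13, h14⟩ := h3.1 u hu
    exact h5.2 u (h7' ▸ h13) h14
  · intro hu
    obtain ⟨h13, h14⟩ := h5.1 u hu
    exact h3.2 u (h7' ▸ h13) h14

theorem dfn_rho : DfnF C C fun w : Fin 1 → ZFSet.{0} => rho C A (w 0) := by
  refine hL.zf.lo' (Q := fun ξ w => w 0 ∈ step A (Lv A ξ)) ?_
  exact Dfn.mem (DfnF.proj 1) (DfnF.comp1 (f := step A) (dfn_step hL.zf hL.mem)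
    (DfnF.comp1 (f := Lv A) (dfn_Lv hL.zf hL.mem) (DfnF.proj 0)))

theorem dfn_cds (k : ℕ) : DfnF C C fun w : Fin 2 → ZFSet.{0} => cds C A (w 0) (w 1) k := by
  have hM := hL.zf
  have hB := hM.base
  induction k with
  | zero => exact DfnF.const hM.empty_mem
  | succ k ih =>
    have hrho := dfn_rho hL
    have hLv := dfn_Lv hL.zf hL.mem
    have hX : ∀ {m : ℕ} (i : Fin m), DfnF C C fun w : Fin m → ZFSet.{0} =>
        Lv A (rho C A (w i)) := fun i =>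
      DfnF.comp1 (f := fun y => Lv A (rho C A y)) (DfnF.comp1 (f := Lv A) hLv hrho) (DfnF.proj i)
    have hX' : ∀ {m : ℕ} (i : Fin m), DfnF C C fun w : Fin m → ZFSet.{0} =>
        (insert (Lv A (rho C A (w i))) (Lv A (rho C A (w i))) : ZFSet.{0}) := fun i =>
      hB.insert' (hX i) (hX i)
    refine hB.union' ih ?_
    refine hM.im' (h := fun p w => cd C A (w 0) (w 1) k p) ?_ ?_
    · refine hM.sep' (Q := fun p w => IsCd C A (w 0) k p) (hM.prod' (hX' 0) (hX' 0)) ?_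
      unfold IsCd
      apply Dfn.and
      · apply hB.ball (DfnF.proj _)
        apply Dfn.and
        · exact Dfn.mem (DfnF.proj 0) (hX 2)
        · exact dfn_GR hL.zf hL.mem k (DfnF.proj 0) (hM.fs' (DfnF.proj 1)) (hM.sn' (DfnF.proj 1))
      · apply hB.ball (hX 1)
        apply Dfn.imp
        · exact dfn_GR hL.zf hL.mem k (DfnF.proj 0) (hM.fs' (DfnF.proj 1)) (hM.sn' (DfnF.proj 1))
        · exact Dfn.mem (DfnF.proj 0) (DfnF.proj 2)
    · have hap : ∀ {m : ℕ} {F G : (Fin m → ZFSet.{0}) → ZFSet.{0}}, DfnF C C F → DfnF C C G →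
          DfnF C C fun w => ap (F w) (G w) := by
        intro m F G hF hG
        refine hB.sUnion' (hM.im' (h := fun q _ => sn q) (hM.sep' (Q := fun q w => fs q = G w) hF
          ?_) (hM.sn' (DfnF.proj 0)))
        exact Dfn.eq (hM.fs' (DfnF.proj 0)) hG.tail
      have he1 : ∀ {F : (Fin 3 → ZFSet.{0}) → ZFSet.{0}}, DfnF C C F →
          DfnF C C fun w => e1 C A (w 1) (w 2) (F w) := by
        intro F hF
        unfold e1
        refine DfnF.ite (Dfn.eq hF (hX 1)) (DfnF.const hM.empty_mem) ?_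
        have h1 := hap (DfnF.proj (2 : Fin 3)) hF
        exact hB.insert' h1 h1
      have h0 := hM.nat_mem k
      change DfnF C C fun w : Fin 3 → ZFSet.{0} => cd C A (w 1) (w 2) k (w 0)
      unfold cd
      exact hM.gp' (DfnF.comp1 (f := rho C A) hrho (DfnF.proj 1))
        (hM.gp' (DfnF.const h0) (hM.gp' (he1 (hM.fs' (DfnF.proj 0))) (he1 (hM.sn' (DfnF.proj 0)))))

theorem dfn_eo (hC : ∀ x ∈ C, ∀ y ∈ x, y ∈ C) :
    DfnF C C fun w : Fin 1 → ZFSet.{0} => eo C A hC (w 0) := by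
  have hM := hL.zf
  have hB := hM.base
  refine hM.wfrec (pr := fun y => Lv A (rho C A y)) (rho_wf C A hC) ?_
    (G := fun y g => mn (cds C A y g 11)) ?_ fun z => eo_eq C A hC z
  · exact DfnF.comp1 (f := Lv A) (dfn_Lv hL.zf hL.mem) (dfn_rho hL)
  · have h1 := dfn_cds hL 11
    refine hM.sep' (Q := fun z w => ∀ s ∈ cds C A (w 0) (w 1) 11, z ∈ s) (hB.sUnion' h1) ?_
    apply hB.ball
    · exact h1.tail
    · exact Dfn.mem (DfnF.proj 1) (DfnF.proj 0)

end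

/-! ### Global choice -/

/-- `e` is a definable injection of `C` into the ordinals. -/
structure GC (C : Set ZFSet.{0}) (e : ZFSet.{0} → ZFSet.{0}) : Prop where
  dfn : DfnF C C fun w : Fin 1 → ZFSet.{0} => e (w 0)
  ord : ∀ x, (e x).IsOrdinal
  inj : ∀ x ∈ C, ∀ y ∈ C, e x = e y → x = y

theorem IsLA.gc {C : Set ZFSet.{0}} {A : ZFSet.{0}} (hL : IsLA A C) :
    GC C (eo C A hL.zf.trans) :=
  ⟨dfn_eo hL _, isOrdinal_eo C A _, eo_inj hL _⟩

/-- The `e`-least element of `C` with the property `P`. -/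
noncomputable def chs (C : Set ZFSet.{0}) (e : ZFSet.{0} → ZFSet.{0}) (P : ZFSet.{0} → Prop) :
    ZFSet.{0} :=
  open Classical in
  if h : {x : ZFSet.{0} | x ∈ C ∧ P x}.Nonempty then
    (InvImage.wf e ZFSet.mem_wf).min _ h else ∅

section gc

variable {C : Set ZFSet.{0}} (hM : IsZF C) {e : ZFSet.{0} → ZFSet.{0}} (hg : GC C e)

theorem chs_spec {P : ZFSet.{0} → Prop} (h : ∃ x ∈ C, P x) :
    chs C e P ∈ C ∧ P (chs C e P) := by
  have h' : {x : ZFSet.{0} | x ∈ C ∧ P x}.Nonempty := h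
  rw [chs, dif_pos h']
  exact (InvImage.wf e ZFSet.mem_wf).min_mem _ h'

theorem chs_min {P : ZFSet.{0} → Prop} {x : ZFSet.{0}} (h1 : x ∈ C) (h2 : P x) :
    e x ∉ e (chs C e P) := by
  have h' : {x : ZFSet.{0} | x ∈ C ∧ P x}.Nonempty := ⟨x, h1, h2⟩
  rw [chs, dif_pos h']
  have h3 : x ∈ {x : ZFSet.{0} | x ∈ C ∧ P x} := ⟨h1, h2⟩
  exact (InvImage.wf e ZFSet.mem_wf).not_lt_min _ h3

theorem chs_none {P : ZFSet.{0} → Prop} (h : ¬ ∃ x ∈ C, P x) : chs C e P = ∅ := by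
  have h' : ¬ {x : ZFSet.{0} | x ∈ C ∧ P x}.Nonempty := h
  rw [chs, dif_neg h']

include hM hg

theorem IsZF.chs' {n : ℕ} {Q : ZFSet.{0} → (Fin n → ZFSet.{0}) → Prop}
    (hQ : Dfn C C fun w : Fin (n + 1) → ZFSet.{0} => Q (w 0) (Fin.tail w)) :
    DfnF C C fun v => chs C e fun x => Q x v := by
  have hB := hM.base
  have h0 := hM.empty_mem
  have he : ∀ {m : ℕ} (i : Fin m), DfnF C C fun w : Fin m → ZFSet.{0} => e (w i) := fun i =>
    DfnF.comp1 (f := e) hg.dfn (DfnF.proj i)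
  refine DfnF.of_unique (R := fun y v => (Q y v ∧ ∀ x ∈ C, Q x v → ¬ e x ∈ e y) ∨
    (y = ∅ ∧ ¬ ∃ x ∈ C, Q x v)) ?_ ?_
  · have h1 : Dfn C C fun w : Fin (n + 2) → ZFSet.{0} => Q (w 0) (Fin.tail (Fin.tail w)) :=
      hQ.comp (Fin.cons 0 fun i => i.succ.succ)
    apply Dfn.or
    · apply Dfn.and hQ
      apply Dfn.all
      apply Dfn.imp h1
      exact (Dfn.mem (he 0) (he 1)).not
    · apply Dfn.and (Dfn.eq (DfnF.proj 0) (DfnF.const h0))
      apply Dfn.not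
      apply Dfn.ex
      exact h1
  · intro v hv
    by_cases h : ∃ x ∈ C, Q x v
    · obtain ⟨h1, h2⟩ := chs_spec (e := e) h
      refine ⟨h1, fun y hy => ?_⟩
      constructor
      · rintro (⟨h4, h5⟩ | ⟨-, h4⟩)
        · apply hg.inj y hy _ h1
          rcases (hg.ord y).mem_trichotomous (hg.ord (chs C e fun x => Q x v)) with h6 | h6 | h6
          · exact absurd h6 (chs_min hy h4)
          · exact h6
          · exact absurd h6 (h5 _ h1 h2)
        · exact absurd h h4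
      · rintro rfl
        exact Or.inl ⟨h2, fun x hx h3 => chs_min hx h3⟩
    · rw [chs_none h]
      refine ⟨h0, fun y hy => ?_⟩
      constructor
      · rintro (⟨h4, -⟩ | ⟨h4, -⟩)
        · exact absurd ⟨y, hy, h4⟩ h
        · exact h4
      · rintro rfl
        exact Or.inr ⟨rfl, h⟩

theorem isZFC_of_gc : IsZFC C := by
  have hB := hM.base
  refine ⟨hM, fun x hx hne hdis => ?_⟩
  have he : ∀ {m : ℕ} (i : Fin m), DfnF C C fun w : Fin m → ZFSet.{0} => e (w i) := fun i =>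
    DfnF.comp1 (f := e) hg.dfn (DfnF.proj i)
  have hQ : Dfn C C fun w : Fin 1 → ZFSet.{0} => ∃ y ∈ x, w 0 ∈ y ∧ ∀ z ∈ y, ¬ e z ∈ e (w 0) := by
    apply hB.bex (DfnF.const hx)
    apply Dfn.and (Dfn.mem (DfnF.proj 1) (DfnF.proj 0))
    apply hB.ball (DfnF.proj 0)
    exact (Dfn.mem (he 0) (he 2)).not
  refine ⟨_, hM.sep_mem (Q := fun w => ∃ y ∈ x, w ∈ y ∧ ∀ z ∈ y, ¬ e z ∈ e w) hQ
    (hM.union _ hx), fun y hy => ?_⟩
  have hyC := hM.trans _ hx _ hy
  obtain ⟨z, hz⟩ := hne y hy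
  obtain ⟨h1, h2⟩ := chs_spec (C := C) (e := e) (P := fun z => z ∈ y) ⟨z, hM.trans _ hyC _ hz, hz⟩
  refine ⟨chs C e fun z => z ∈ y, ⟨h2, ZFSet.mem_sep.2 ⟨ZFSet.mem_sUnion.2 ⟨y, hy, h2⟩, y, hy, h2,
    fun z hz => chs_min (hM.trans _ hyC _ hz) hz⟩⟩, ?_⟩
  rintro w ⟨hw, hw'⟩
  obtain ⟨-, y', hy', hwy', h3⟩ := ZFSet.mem_sep.1 hw'
  obtain rfl := hdis y hy y' hy' w hw hwy'
  have hwC := hM.trans _ hyC _ hw
  apply hg.inj w hwC _ h1
  rcases (hg.ord w).mem_trichotomous (hg.ord (chs C e fun z => z ∈ y)) with h6 | h6 | h6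
  · exact absurd h6 (chs_min (P := fun z => z ∈ y) hwC hw)
  · exact h6
  · exact absurd h6 (h3 _ h2)

end gc

end Pool.Agent.W868
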