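import Pool.Agent.W868.Defs

/-!
# The natural numbers as sets
-/

set_option autoImplicit false

namespace Pool.Agent.W868

theorem mem_omega_iff {x : ZFSet.{0}} : x ∈ ZFSet.omega ↔ ∃ n, x = nat n := by
  have h : ∀ n, ZFSet.mk (PSet.ofNat n) = nat n := by
    intro n
    induction n with
    | zero => rfl
    | succ n ih =>
      rw [nat, ← ih]
      rfl
  constructor
  · refine Quotient.inductionOn x fun y => ?_
    rintro ⟨⟨n⟩, hn⟩
    refine ⟨n, ?_⟩
    rw [← h]
    exact ZFSet.sound hn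
  · rintro ⟨n, rfl⟩
    rw [← h]
    exact ⟨⟨n⟩, PSet.Equiv.rfl⟩

theorem nat_eq (n : ℕ) : nat n = (n : Ordinal.{0}).toZFSet := by
  induction n with
  | zero => simp [nat]
  | succ n ih => rw [nat, ih, Nat.cast_succ, Ordinal.toZFSet_add_one]

theorem omega_eq : ZFSet.omega = Ordinal.omega0.{0}.toZFSet := by
  ext x
  rw [mem_omega_iff, Ordinal.mem_toZFSet_iff]
  constructor
  · rintro ⟨n, rfl⟩
    exact ⟨n, Ordinal.natCast_lt_omega0 n, (nat_eq n).symm⟩
  · rintro ⟨a, ha, rfl⟩
    obtain ⟨n, rfl⟩ := Ordinal.lt_omega0.1 ha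
    exact ⟨n, (nat_eq n).symm⟩

theorem nat_injective : Function.Injective nat := by
  intro m n h
  rw [nat_eq, nat_eq] at h
  exact Nat.cast_injective (R := Ordinal.{0}) (Ordinal.toZFSet_injective h)

end Pool.Agent.W868
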