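import Pool.Agent.W868.Dfn
import Pool.Agent.W868.Nat

/-!
# More definable relations and closure properties of transitive models
-/

set_option autoImplicit false
set_option linter.unreachableTactic false
set_option linter.unusedTactic false

namespace Pool.Agent.W868

open ZFSet (pair)

namespace IsBase

variable {S M : Set ZFSet.{0}} (hB : IsBase M) {n : ℕ}
  {F G H : (Fin n → ZFSet.{0}) → ZFSet.{0}}

include hB

theorem subset' (hF : DfnF S M F) (hG : DfnF S M G) : Dfn S M fun v => F v ⊆ G v := by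
  have h : Dfn S M fun w : Fin 2 → ZFSet.{0} => ∀ x ∈ w 0, x ∈ w 1 := by
    (repeat' first
      | assumption
      | exact DfnF.proj _
      | exact DfnF.const (by assumption)
      | exact DfnF.const' (by first | assumption | trivial) (by first | assumption | trivial)
      | exact Dfn.prop _
      | apply Dfn.not | apply Dfn.and | apply Dfn.or | apply Dfn.imp | apply Dfn.iff
      | apply hB.bex | apply hB.ball | apply Dfn.ex | apply Dfn.all
      | apply Dfn.eq | apply Dfn.mem | apply hB.pair')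
  exact Dfn.comp2 (Q := fun a b => a ⊆ b) h hF hG

theorem dfn_sUnion : DfnF S M fun w : Fin 1 → ZFSet.{0} => (ZFSet.sUnion (w 0) : ZFSet.{0}) := by
  refine ⟨fun v hv => hB.union _ (hv 0), ?_⟩
  have h : Dfn S M fun w : Fin 2 → ZFSet.{0} => (∀ x ∈ w 0, ∃ y ∈ w 1, x ∈ y) ∧
      ∀ y ∈ w 1, ∀ x ∈ y, x ∈ w 0 := by
    (repeat' first
      | assumption
      | exact DfnF.proj _
      | exact DfnF.const (by assumption)
      | exact DfnF.const' (by first | assumption | trivial) (by first | assumption | trivial)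
      | exact Dfn.prop _
      | apply Dfn.not | apply Dfn.and | apply Dfn.or | apply Dfn.imp | apply Dfn.iff
      | apply hB.bex | apply hB.ball | apply Dfn.ex | apply Dfn.all
      | apply Dfn.eq | apply Dfn.mem | apply hB.pair')
  exact h.congr fun v hv => by
    constructor
    · rintro ⟨h1, h2⟩
      ext z
      rw [ZFSet.mem_sUnion]
      exact ⟨fun hz => h1 z hz, fun ⟨y, hy, hz⟩ => h2 y hy z hz⟩
    · intro h1
      have h2 : ∀ z, z ∈ v 0 ↔ ∃ y ∈ v 1, z ∈ y := by
        intro z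
        rw [h1, ZFSet.mem_sUnion]
        rfl
      exact ⟨fun x hx => (h2 x).1 hx, fun y hy x hx => (h2 x).2 ⟨y, hy, hx⟩⟩

theorem sUnion' (hF : DfnF S M F) : DfnF S M fun v => (ZFSet.sUnion (F v) : ZFSet.{0}) :=
  DfnF.comp1 (f := fun a => (ZFSet.sUnion a : ZFSet.{0})) hB.dfn_sUnion hF

theorem upair' (hF : DfnF S M F) (hG : DfnF S M G) :
    DfnF S M fun v => ({F v, G v} : ZFSet.{0}) :=
  DfnF.comp2 (f := fun a b => ({a, b} : ZFSet.{0})) hB.dfn_upair hF hG

theorem single' (hF : DfnF S M F) : DfnF S M fun v => ({F v} : ZFSet.{0}) :=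
  DfnF.comp1 (f := fun a => ({a} : ZFSet.{0})) hB.dfn_single hF

theorem union' (hF : DfnF S M F) (hG : DfnF S M G) : DfnF S M fun v => F v ∪ G v := by
  have h := hB.sUnion' (hB.upair' hF hG)
  simpa only [ZFSet.sUnion_pair] using h

theorem insert' (hF : DfnF S M F) (hG : DfnF S M G) :
    DfnF S M fun v => (insert (F v) (G v) : ZFSet.{0}) := by
  have h := hB.union' (hB.single' hF) hG
  have h1 : ∀ v, ({F v} ∪ G v : ZFSet.{0}) = insert (F v) (G v) := by
    intro v
    ext z
    simp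
  simpa only [h1] using h

theorem isFunc' (hF : DfnF S M F) (hG : DfnF S M G) (hH : DfnF S M H) :
    Dfn S M fun v => ZFSet.IsFunc (F v) (G v) (H v) := by
  have h : Dfn S M fun w : Fin 3 → ZFSet.{0} =>
      (∀ p ∈ w 2, ∃ a ∈ w 0, ∃ b ∈ w 1, p = pair a b) ∧
      ∀ a ∈ w 0, ∃ b ∈ w 1, pair a b ∈ w 2 ∧ ∀ c ∈ w 1, pair a c ∈ w 2 → c = b := by
    (repeat' first
      | assumption
      | exact DfnF.proj _
      | exact DfnF.const (by assumption)
      | exact DfnF.const' (by first | assumption | trivial) (by first | assumption | trivial)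
      | exact Dfn.prop _
      | apply Dfn.not | apply Dfn.and | apply Dfn.or | apply Dfn.imp | apply Dfn.iff
      | apply hB.bex | apply hB.ball | apply Dfn.ex | apply Dfn.all
      | apply Dfn.eq | apply Dfn.mem | apply hB.pair')
  refine Dfn.comp3 (Q := fun a b c => ZFSet.IsFunc a b c) (h.congr fun v _ => ?_) hF hG hH
  constructor
  · rintro ⟨h1, h2⟩
    have h3 : v 2 ⊆ ZFSet.prod (v 0) (v 1) := by
      intro p hp
      obtain ⟨a, ha, b, hb, rfl⟩ := h1 p hp
      exact ZFSet.mem_prod.2 ⟨a, ha, b, hb, rfl⟩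
    refine ⟨h3, fun z hz => ?_⟩
    obtain ⟨b, hb, h4, h5⟩ := h2 z hz
    exact ⟨b, h4, fun c hc => h5 c (ZFSet.pair_mem_prod.1 (h3 hc)).2 hc⟩
  · rintro ⟨h1, h2⟩
    refine ⟨fun p hp => ZFSet.mem_prod.1 (h1 hp), fun a ha => ?_⟩
    obtain ⟨b, hb, h3⟩ := h2 a ha
    exact ⟨b, (ZFSet.pair_mem_prod.1 (h1 hb)).2, hb, fun c _ hc => h3 c hc⟩

theorem isInj' (hF : DfnF S M F) (hG : DfnF S M G) (hH : DfnF S M H) :
    Dfn S M fun v => IsInj (F v) (G v) (H v) := by
  have h : Dfn S M fun w : Fin 3 → ZFSet.{0} => ZFSet.IsFunc (w 0) (w 1) (w 2) ∧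
      ∀ a ∈ w 0, ∀ b ∈ w 0, ∀ c ∈ w 1, pair a c ∈ w 2 → pair b c ∈ w 2 → a = b := by
    refine (hB.isFunc' (DfnF.proj _) (DfnF.proj _) (DfnF.proj _)).and ?_
    (repeat' first
      | assumption
      | exact DfnF.proj _
      | exact DfnF.const (by assumption)
      | exact DfnF.const' (by first | assumption | trivial) (by first | assumption | trivial)
      | exact Dfn.prop _
      | apply Dfn.not | apply Dfn.and | apply Dfn.or | apply Dfn.imp | apply Dfn.iff
      | apply hB.bex | apply hB.ball | apply Dfn.ex | apply Dfn.all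
      | apply Dfn.eq | apply Dfn.mem | apply hB.pair')
  refine Dfn.comp3 (Q := fun a b c => IsInj a b c) (h.congr fun v _ => ?_) hF hG hH
  constructor
  · rintro ⟨h1, h2⟩
    refine ⟨h1, fun a b c ha hb => ?_⟩
    have h3 := ZFSet.pair_mem_prod.1 (h1.1 ha)
    have h4 := ZFSet.pair_mem_prod.1 (h1.1 hb)
    exact h2 a h3.1 b h4.1 c h3.2 ha hb
  · rintro ⟨h1, h2⟩
    exact ⟨h1, fun a _ b _ c _ h3 h4 => h2 a b c h3 h4⟩

theorem isBij' (hF : DfnF S M F) (hG : DfnF S M G) (hH : DfnF S M H) :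
    Dfn S M fun v => IsBij (F v) (G v) (H v) := by
  have h : Dfn S M fun w : Fin 3 → ZFSet.{0} => IsInj (w 0) (w 1) (w 2) ∧
      ∀ b ∈ w 1, ∃ a ∈ w 0, pair a b ∈ w 2 := by
    refine (hB.isInj' (DfnF.proj _) (DfnF.proj _) (DfnF.proj _)).and ?_
    (repeat' first
      | assumption
      | exact DfnF.proj _
      | exact DfnF.const (by assumption)
      | exact DfnF.const' (by first | assumption | trivial) (by first | assumption | trivial)
      | exact Dfn.prop _
      | apply Dfn.not | apply Dfn.and | apply Dfn.or | apply Dfn.imp | apply Dfn.iff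
      | apply hB.bex | apply hB.ball | apply Dfn.ex | apply Dfn.all
      | apply Dfn.eq | apply Dfn.mem | apply hB.pair')
  exact Dfn.comp3 (Q := fun a b c => IsBij a b c) h hF hG hH

theorem isOrdinal' (hF : DfnF S M F) : Dfn S M fun v => (F v).IsOrdinal := by
  have h : Dfn S M fun w : Fin 1 → ZFSet.{0} => (∀ y ∈ w 0, ∀ z ∈ y, z ∈ w 0) ∧
      ∀ y ∈ w 0, ∀ z ∈ y, ∀ u ∈ z, u ∈ y := by
    (repeat' first
      | assumption
      | exact DfnF.proj _
      | exact DfnF.const (by assumption)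
      | exact DfnF.const' (by first | assumption | trivial) (by first | assumption | trivial)
      | exact Dfn.prop _
      | apply Dfn.not | apply Dfn.and | apply Dfn.or | apply Dfn.imp | apply Dfn.iff
      | apply hB.bex | apply hB.ball | apply Dfn.ex | apply Dfn.all
      | apply Dfn.eq | apply Dfn.mem | apply hB.pair')
  refine Dfn.comp1 (Q := fun a => a.IsOrdinal) (h.congr fun v _ => ?_) hF
  constructor
  · rintro ⟨h1, h2⟩
    exact ⟨fun y hy z hz => h1 y hy z hz, fun {y z w} h3 h4 h5 => h2 w h5 z h4 y h3⟩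
  · rintro ⟨h1, h2⟩
    exact ⟨fun y hy z hz => h1.mem_trans hz hy, fun y hy z hz u hu => h2 hu hz hy⟩

end IsBase

namespace IsZF

variable {M : Set ZFSet.{0}} (hM : IsZF M) {n : ℕ}
  {F G H : (Fin n → ZFSet.{0}) → ZFSet.{0}}

include hM

theorem nat_mem (n : ℕ) : nat n ∈ M :=
  hM.trans _ hM.infinity _ (mem_omega_iff.2 ⟨n, rfl⟩)

/-- The power set in `M`. -/
theorem exists_pow {x : ZFSet.{0}} (hx : x ∈ M) : ∃ y ∈ M, ∀ z, z ∈ y ↔ z ∈ M ∧ z ⊆ x :=
  hM.power x hx

theorem prod_mem {x y : ZFSet.{0}} (hx : x ∈ M) (hy : y ∈ M) : ZFSet.prod x y ∈ M := by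
  have hB := hM.base
  obtain ⟨p, hp, h1⟩ := hM.power _ (hM.union_mem hx hy)
  obtain ⟨q, hq, h2⟩ := hM.power _ hp
  have h : Dfn M M fun w : Fin 1 → ZFSet.{0} => ∃ a ∈ x, ∃ b ∈ y, w 0 = pair a b := by
    (repeat' first
      | assumption
      | exact DfnF.proj _
      | exact DfnF.const (by assumption)
      | exact DfnF.const' (by first | assumption | trivial) (by first | assumption | trivial)
      | exact Dfn.prop _
      | apply Dfn.not | apply Dfn.and | apply Dfn.or | apply Dfn.imp | apply Dfn.iff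
      | apply hB.bex | apply hB.ball | apply Dfn.ex | apply Dfn.all
      | apply Dfn.eq | apply Dfn.mem | apply hB.pair')
  have h3 := hM.sep_mem (Q := fun z => ∃ a ∈ x, ∃ b ∈ y, z = pair a b) h hq
  have h4 : ZFSet.sep (fun z => ∃ a ∈ x, ∃ b ∈ y, z = pair a b) q = ZFSet.prod x y := by
    ext z
    rw [ZFSet.mem_sep, ZFSet.mem_prod]
    constructor
    · exact fun h => h.2
    · rintro ⟨a, ha, b, hb, rfl⟩
      refine ⟨(h2 _).2 ⟨hM.pair_mem (hM.trans _ hx _ ha) (hM.trans _ hy _ hb), ?_⟩,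
        a, ha, b, hb, rfl⟩
      intro z hz
      have haM := hM.trans _ hx _ ha
      have hbM := hM.trans _ hy _ hb
      rw [pair, ZFSet.mem_pair] at hz
      rcases hz with rfl | rfl
      · refine (h1 _).2 ⟨hM.single_mem haM, fun u hu => ?_⟩
        rw [ZFSet.mem_singleton] at hu
        subst hu
        exact ZFSet.mem_union.2 (Or.inl ha)
      · refine (h1 _).2 ⟨hM.pairing _ haM _ hbM, fun u hu => ?_⟩
        rcases ZFSet.mem_pair.1 hu with rfl | rfl
        · exact ZFSet.mem_union.2 (Or.inl ha)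
        · exact ZFSet.mem_union.2 (Or.inr hb)
  rwa [h4] at h3

/-- Separation for sets of pairs. -/
theorem rel_mem {x y : ZFSet.{0}} (hx : x ∈ M) (hy : y ∈ M) {Q : ZFSet.{0} → ZFSet.{0} → Prop}
    (h : Dfn M M fun w : Fin 2 → ZFSet.{0} => Q (w 0) (w 1)) :
    ∃ f ∈ M, f ⊆ ZFSet.prod x y ∧ ∀ a b, pair a b ∈ f ↔ a ∈ x ∧ b ∈ y ∧ Q a b := by
  have hB := hM.base
  have h1 : Dfn M M fun w : Fin 1 → ZFSet.{0} => ∃ a ∈ x, ∃ b ∈ y, w 0 = pair a b ∧ Q a b := by
    apply hB.bex
    · (repeat' first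
      | assumption
      | exact DfnF.proj _
      | exact DfnF.const (by assumption)
      | exact DfnF.const' (by first | assumption | trivial) (by first | assumption | trivial)
      | exact Dfn.prop _
      | apply Dfn.not | apply Dfn.and | apply Dfn.or | apply Dfn.imp | apply Dfn.iff
      | apply hB.bex | apply hB.ball | apply Dfn.ex | apply Dfn.all
      | apply Dfn.eq | apply Dfn.mem | apply hB.pair')
    apply hB.bex
    · (repeat' first
      | assumption
      | exact DfnF.proj _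
      | exact DfnF.const (by assumption)
      | exact DfnF.const' (by first | assumption | trivial) (by first | assumption | trivial)
      | exact Dfn.prop _
      | apply Dfn.not | apply Dfn.and | apply Dfn.or | apply Dfn.imp | apply Dfn.iff
      | apply hB.bex | apply hB.ball | apply Dfn.ex | apply Dfn.all
      | apply Dfn.eq | apply Dfn.mem | apply hB.pair')
    apply Dfn.and
    · (repeat' first
      | assumption
      | exact DfnF.proj _
      | exact DfnF.const (by assumption)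
      | exact DfnF.const' (by first | assumption | trivial) (by first | assumption | trivial)
      | exact Dfn.prop _
      | apply Dfn.not | apply Dfn.and | apply Dfn.or | apply Dfn.imp | apply Dfn.iff
      | apply hB.bex | apply hB.ball | apply Dfn.ex | apply Dfn.all
      | apply Dfn.eq | apply Dfn.mem | apply hB.pair')
    · exact Dfn.comp2 (Q := Q) h (DfnF.proj 1) (DfnF.proj 0)
  refine ⟨_, hM.sep_mem (Q := fun z => ∃ a ∈ x, ∃ b ∈ y, z = pair a b ∧ Q a b) h1
    (hM.prod_mem hx hy), fun z hz => (ZFSet.mem_sep.1 hz).1, fun a b => ?_⟩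
  rw [ZFSet.mem_sep, ZFSet.pair_mem_prod]
  constructor
  · rintro ⟨-, a', ha, b', hb, h2, h3⟩
    obtain ⟨rfl, rfl⟩ := ZFSet.pair_inj.1 h2
    exact ⟨ha, hb, h3⟩
  · rintro ⟨ha, hb, h3⟩
    exact ⟨⟨ha, hb⟩, a, ha, b, hb, rfl, h3⟩

/-- Replacement for definable functions. -/
theorem image_mem {x : ZFSet.{0}} (hx : x ∈ M) {f : ZFSet.{0} → ZFSet.{0}}
    (h : DfnF M M fun w : Fin 1 → ZFSet.{0} => f (w 0)) :
    ∃ y ∈ M, ∀ w, w ∈ y ↔ ∃ z ∈ x, w = f z := by
  obtain ⟨h1, φ, h2, h3⟩ := h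
  have h4 : ∀ z ∈ M, ∀ w ∈ M, (Sat M id (φ.subst ![Sum.inl 1, Sum.inl 0]) ![z, w] ↔ w = f z) := by
    intro z hz w hw
    rw [sat_subst]
    have h5 : (fun k : Fin 2 => Sum.elim (![z, w] : Fin 2 → ZFSet.{0}) id
        ((![Sum.inl 1, Sum.inl 0] : Fin 2 → Fin 2 ⊕ ZFSet.{0}) k)) = ![w, z] := by
      funext i
      fin_cases i <;> rfl
    rw [h5, h3]
    · rfl
    · intro i
      fin_cases i
      · exact hw
      · exact hz
  have h6 : ∀ z ∈ M, f z ∈ M := fun z hz => h1 (fun _ => z) fun _ => hz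
  obtain ⟨y, hy, h7⟩ := hM.replacement (φ.subst ![Sum.inl 1, Sum.inl 0]) (by
    refine over_subst _ _ (fun k => ?_) h2
    fin_cases k
    · exact TOver.inl _
    · exact TOver.inl _) x hx (by
    intro z hz
    have hzM := hM.trans _ hx _ hz
    exact ⟨f z, ⟨h6 z hzM, (h4 z hzM _ (h6 z hzM)).2 rfl⟩, fun w hw => (h4 z hzM w hw.1).1 hw.2⟩)
  refine ⟨y, hy, fun w => ?_⟩
  rw [h7]
  constructor
  · rintro ⟨hw, z, hz, h8⟩
    exact ⟨z, hz, (h4 z (hM.trans _ hx _ hz) w hw).1 h8⟩
  · rintro ⟨z, hz, rfl⟩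
    have hzM := hM.trans _ hx _ hz
    exact ⟨h6 z hzM, z, hz, (h4 z hzM _ (h6 z hzM)).2 rfl⟩

end IsZF

end Pool.Agent.W868
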