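import Pool.Agent.W868.Ground
import Pool.Agent.W868.Tool

/-!
# The generic extension is a model of ZFC
-/

set_option autoImplicit false
set_option linter.unreachableTactic false
set_option linter.unusedTactic false

namespace Pool.Agent.W868

open PName

variable {P : Type} [Preorder P] [OrderTop P]

namespace Pkg

variable (π : Pkg P)

theorem g_le_top (n : ℕ) : π.g n ≤ ⊤ := le_top

theorem pairN_mem {x y : PName P} (hx : x ∈ π.N) (hy : y ∈ π.N) : pairN x y ∈ π.N :=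
  (π.closed rPair (by simp [baseRules]) _ (query2 hx hy (π.gC 0))).1

theorem opN_mem {x y : PName P} (hx : x ∈ π.N) (hy : y ∈ π.N) : opN x y ∈ π.N :=
  π.pairN_mem (π.pairN_mem hx hx) (π.pairN_mem hx hy)

theorem unionN_mem {x : PName P} (hx : x ∈ π.N) : unionN x ∈ π.N :=
  (π.closed rUnion (by simp [baseRules]) _ (query2 hx hx (π.gC 0))).1

theorem powN_mem {x : PName P} (hx : x ∈ π.N) : powN x ∈ π.N :=
  (π.closed rPow (by simp [baseRules]) _ (query2 hx hx (π.gC 0))).1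

theorem enumN_mem {x : PName P} (hx : x ∈ π.N) : enumN x ∈ π.N :=
  (π.closed rEnum (by simp [baseRules]) _ (query2 hx hx (π.gC 0))).1

theorem sepN_mem {n : ℕ} {φ : Fml (PName P) (n + 1)} {v : Fin n → PName P} {x : PName P}
    (hφ : φ.Over π.N) (hv : ∀ i, v i ∈ π.N) (hx : x ∈ π.N) : sepN φ v x ∈ π.N :=
  (π.closed rSep (by simp [baseRules]) ⟨n + 1, φ, Fin.cons x v, π.g 0⟩
    ⟨hφ, cons_mem hx hv, π.gC 0⟩).1

theorem collN_mem {n : ℕ} {φ : Fml (PName P) (n + 2)} {v : Fin n → PName P} {x : PName P}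
    (hφ : φ.Over π.N) (hv : ∀ i, v i ∈ π.N) (hx : x ∈ π.N) : collN φ v x ∈ π.N :=
  (π.closed rColl (by simp [baseRules]) ⟨n + 1, .ex φ, Fin.cons x v, π.g 0⟩
    ⟨hφ, cons_mem hx hv, π.gC 0⟩).1

theorem witN_mem {n : ℕ} {φ : Fml (PName P) (n + 1)} {v : Fin n → PName P} (hφ : φ.Over π.N)
    (hv : ∀ i, v i ∈ π.N) (k : ℕ) : witN φ v (π.g k) ∈ π.N :=
  (π.closed rWit (by simp [baseRules]) ⟨n, .ex φ, v, π.g k⟩ ⟨hφ, hv, π.gC k⟩).1

theorem fst_mem {x y : PName P} (h : opN x y ∈ π.N) : x ∈ π.N := by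
  have h1 := (π.closed rFst (by simp [baseRules]) _ (query2 h h (π.gC 0))).1
  have h2 : ∃ a b, tv (Fin.elim0 : Fin 0 → PName P) (Sum.inr (opN x y)) = opN a b :=
    ⟨x, y, rfl⟩
  unfold rFst at h1
  simp only [dif_pos h2] at h1
  obtain ⟨b, hb⟩ := h2.choose_spec
  have h3 : opN x y = opN h2.choose b := hb
  rw [(opN_inj h3).1]
  exact h1

theorem snd_mem {x y : PName P} (h : opN x y ∈ π.N) : y ∈ π.N := by
  have h1 := (π.closed rSnd (by simp [baseRules]) _ (query2 h h (π.gC 0))).1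
  have h2 : ∃ b a, tv (Fin.elim0 : Fin 0 → PName P) (Sum.inr (opN x y)) = opN a b :=
    ⟨y, x, rfl⟩
  unfold rSnd at h1
  simp only [dif_pos h2] at h1
  obtain ⟨b, hb⟩ := h2.choose_spec
  have h3 : opN x y = opN b h2.choose := hb
  rw [(opN_inj h3).2]
  exact h1

theorem ordI_mem {x y : PName P} {c : P} (hx : x ∈ π.N) (hy : y ∈ π.N) (h : El x y c) :
    ∃ j, x.chd j = y ∧ check (ordI x j).toZFSet ∈ π.N := by
  have h1 := (π.closed rOrd (by simp [baseRules]) _ (query2 hx hy (π.gC 0))).1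
  have h2 : ∃ j, (tv (Fin.elim0 : Fin 0 → PName P) (Sum.inr x)).chd j =
      tv (Fin.elim0 : Fin 0 → PName P) (Sum.inr y) := by
    obtain ⟨j, hj, -⟩ := h
    exact ⟨j, hj⟩
  unfold rOrd at h1
  simp only [dif_pos h2] at h1
  exact ⟨h2.choose, h2.choose_spec, h1⟩

/-! ### Values -/

theorem val_pairN {x y : PName P} (hx : x ∈ π.N) (hy : y ∈ π.N) :
    π.val (pairN x y) = {π.val x, π.val y} := by
  ext z
  rw [mem_val, ZFSet.mem_pair]
  constructor
  · rintro ⟨w, hw, c, hc, -, rfl⟩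
    obtain ⟨rfl | rfl, -⟩ := el_pairN.1 hc
    · exact Or.inl rfl
    · exact Or.inr rfl
  · rintro (rfl | rfl)
    · exact ⟨x, hx, ⊤, el_pairN.2 ⟨Or.inl rfl, rfl⟩, ⟨0, le_top⟩, rfl⟩
    · exact ⟨y, hy, ⊤, el_pairN.2 ⟨Or.inr rfl, rfl⟩, ⟨0, le_top⟩, rfl⟩

theorem val_opN {x y : PName P} (hx : x ∈ π.N) (hy : y ∈ π.N) :
    π.val (opN x y) = ZFSet.pair (π.val x) (π.val y) := by
  rw [opN, π.val_pairN (π.pairN_mem hx hx) (π.pairN_mem hx hy), π.val_pairN hx hx,
    π.val_pairN hx hy, ZFSet.pair, ZFSet.pair_eq_singleton]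

theorem val_sepN {n : ℕ} {φ : Fml (PName P) (n + 1)} {v : Fin n → PName P} {x : PName P}
    (hφ : φ.Over π.N) (hv : ∀ i, v i ∈ π.N) {z : ZFSet.{0}} :
    z ∈ π.val (sepN φ v x) ↔ z ∈ π.val x ∧ Sat π.W π.val φ (Fin.cons z (π.val ∘ v)) := by
  constructor
  · intro h
    obtain ⟨w, hw, r, hr, ⟨n, hn⟩, rfl⟩ := π.mem_val.1 h
    obtain ⟨c, hc, hrc, hf⟩ := el_subN.1 hr
    refine ⟨π.val_mem_val hw hc (hn.trans hrc), ?_⟩
    rw [← comp_cons, π.sat_iff φ hφ _ (cons_mem hw hv)]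
    exact ⟨n, Forces.mono hf hn⟩
  · rintro ⟨h1, h2⟩
    obtain ⟨w, hw, c, hc, ⟨n, hn⟩, rfl⟩ := π.mem_val.1 h1
    rw [← comp_cons, π.sat_iff φ hφ _ (cons_mem hw hv)] at h2
    obtain ⟨m, hm⟩ := h2
    refine π.val_mem_val (c := π.g (max n m)) (n := max n m) hw ?_ le_rfl
    exact el_subN.2 ⟨c, hc, (π.g_le_left _ _).trans hn, Forces.mono hm (π.g_le_right _ _)⟩

theorem exists_fml {n : ℕ} (φ : Fml ZFSet.{0} n) (hφ : φ.Over π.W) :
    ∃ ψ : Fml (PName P) n, ψ.Over π.N ∧ ∀ v, Sat π.W π.val ψ v ↔ Sat π.W id φ v := by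
  have h : ∀ a : ZFSet.{0}, ∃ x : PName P, a ∈ π.W → x ∈ π.N ∧ π.val x = a := by
    intro a
    by_cases ha : a ∈ π.W
    · obtain ⟨x, hx, hxa⟩ := ha
      exact ⟨x, fun _ => ⟨hx, hxa⟩⟩
    · exact ⟨emp, fun h => absurd h ha⟩
  choose f hf using h
  refine ⟨φ.map f, (over_map f φ).2 (Fml.Over.mono (fun a ha => (hf a ha).1) hφ), fun v => ?_⟩
  rw [sat_map]
  exact sat_congr _ (fun a ha => (hf a ha).2) φ hφ v

theorem isZF_W : IsZF π.W where
  trans x hx y hy := π.trans_W hx hy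
  pairing := by
    rintro _ ⟨x, hx, rfl⟩ _ ⟨y, hy, rfl⟩
    exact ⟨_, π.pairN_mem hx hy, π.val_pairN hx hy⟩
  union := by
    rintro _ ⟨x, hx, rfl⟩
    refine ⟨_, π.unionN_mem hx, ?_⟩
    ext z
    rw [ZFSet.mem_sUnion]
    constructor
    · intro hz
      obtain ⟨w, hw, r, hr, ⟨n, hn⟩, rfl⟩ := π.mem_val.1 hz
      obtain ⟨y, c, d, h1, h2, h3, h4⟩ := el_unionN.1 hr
      have hφ : (Fml.ex (.and (.mem (Sum.inl 0) (Sum.inr x))
          (.mem (Sum.inr w) (Sum.inl 0))) : Fml (PName P) 0).Over π.N := by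
        simp only [Fml.Over]
        exact ⟨⟨TOver.inl _, tOver_inr.2 hx⟩, ⟨tOver_inr.2 hw, TOver.inl _⟩⟩
      have h6 : Forces (Fml.ex (.and (.mem (Sum.inl 0) (Sum.inr x))
          (.mem (Sum.inr w) (Sum.inl 0))) : Fml (PName P) 0) Fin.elim0 (π.g n) := by
        intro q hq
        refine ⟨q, le_rfl, y, ?_, ?_⟩
        · exact fmem_iff.2 fun s hs => ⟨s, le_rfl, y, c, h1,
            (hs.trans (hq.trans hn)).trans h3, Feq.refl _ _⟩
        · exact fmem_iff.2 fun s hs => ⟨s, le_rfl, w, d, h2,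
            (hs.trans (hq.trans hn)).trans h4, Feq.refl _ _⟩
      obtain ⟨a, -, ha⟩ := (π.sat_iff _ hφ Fin.elim0 fun i => i.elim0).2 ⟨n, h6⟩
      exact ⟨a, ha⟩
    · rintro ⟨y, hy, hz⟩
      obtain ⟨y, hyN, c, hc, ⟨n, hn⟩, rfl⟩ := π.mem_val.1 hy
      obtain ⟨w, hw, d, hd, ⟨m, hm⟩, rfl⟩ := π.mem_val.1 hz
      refine π.val_mem_val (c := π.g (max n m)) (n := max n m) hw ?_ le_rfl
      exact el_unionN.2 ⟨y, c, d, hc, hd, (π.g_le_left _ _).trans hn, (π.g_le_right _ _).trans hm⟩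
  infinity := by
    rw [← π.hat_omega]
    exact π.V_subset_W (π.of_hat_mem_V π.omega_Z)
  power := by
    rintro _ ⟨x, hx, rfl⟩
    have h : ∀ z, z ∈ π.W → z ⊆ π.val x → z ∈ π.val (powN x) := by
      rintro _ ⟨y, hy, rfl⟩ hyx
      have hφ : (Fml.mem (Sum.inl 0) (Sum.inr y) : Fml (PName P) 1).Over π.N :=
        ⟨TOver.inl _, tOver_inr.2 hy⟩
      have h1 : π.val (sepN (.mem (Sum.inl 0) (Sum.inr y)) Fin.elim0 x) = π.val y := by
        ext z
        rw [π.val_sepN hφ fun i => i.elim0]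
        exact ⟨fun h => h.2, fun h => ⟨hyx h, h⟩⟩
      rw [← h1]
      exact π.val_mem_val (n := 0) (π.sepN_mem hφ (fun i => i.elim0) hx) (el_powN_subN _ _) le_top
    have hφ : (Fml.neg (.ex (.and (.mem (Sum.inl 0) (Sum.inl 1))
        (.neg (.mem (Sum.inl 0) (Sum.inr x))))) : Fml (PName P) 1).Over π.N := by
      simp only [Fml.Over]
      exact ⟨⟨TOver.inl _, TOver.inl _⟩, ⟨TOver.inl _, tOver_inr.2 hx⟩⟩
    refine ⟨_, π.val_mem_W (π.sepN_mem (v := Fin.elim0) hφ (fun i => i.elim0) (π.powN_mem hx)),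
      fun z => ?_⟩
    rw [π.val_sepN hφ fun i => i.elim0]
    constructor
    · rintro ⟨h1, h2⟩
      have hz := π.trans_W (π.val_mem_W (π.powN_mem hx)) h1
      refine ⟨hz, fun w hw => ?_⟩
      by_contra h3
      exact h2 ⟨w, π.trans_W hz hw, hw, h3⟩
    · rintro ⟨h1, h2⟩
      refine ⟨h z h1 h2, ?_⟩
      rintro ⟨w, -, h3, h4⟩
      exact h4 (h2 h3)
  separation := by
    rintro φ hφ _ ⟨x, hx, rfl⟩
    obtain ⟨ψ, h1, h2⟩ := π.exists_fml φ hφ
    refine ⟨_, π.val_mem_W (π.sepN_mem h1 (v := Fin.elim0) (fun i => i.elim0) hx), fun z => ?_⟩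
    rw [π.val_sepN h1 fun i => i.elim0, h2]
    have h3 : (Fin.cons z (π.val ∘ Fin.elim0) : Fin 1 → ZFSet.{0}) = ![z] := by
      funext i
      fin_cases i
      rfl
    rw [h3]
  replacement := by
    rintro φ hφ _ ⟨x, hx, rfl⟩ hf
    have hφ1 : (φ.subst (![Sum.inl 1, Sum.inl 0] : Fin 2 → Fin 2 ⊕ ZFSet.{0})).Over π.W := by
      refine over_subst _ _ (fun k => ?_) hφ
      fin_cases k
      · exact TOver.inl _
      · exact TOver.inl _
    obtain ⟨ψ, h1, h2⟩ := π.exists_fml _ hφ1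
    have hc : ∀ z ∈ π.val x, ∀ w ∈ π.W, Sat π.W id φ ![z, w] →
        ∃ w ∈ π.val (collN ψ Fin.elim0 x), Sat π.W id φ ![z, w] := by
      intro z hz w hw hs
      obtain ⟨a, ha, c, hc, ⟨n, hn⟩, rfl⟩ := π.mem_val.1 hz
      obtain ⟨b, hb, rfl⟩ := hw
      have h3 : ∀ u : PName P, u ∈ π.N → (Sat π.W id φ ![π.val a, π.val u] ↔
          ∃ k, Forces ψ (Fin.cons u (Fin.cons a Fin.elim0)) (π.g k)) := by
        intro u hu
        rw [← π.sat_iff ψ h1 _ (cons_mem hu (cons_mem ha fun i => i.elim0)), h2, sat_subst]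
        have h4 : (fun k : Fin 2 => Sum.elim (π.val ∘ (Fin.cons u (Fin.cons a Fin.elim0) :
            Fin 2 → PName P)) id ((![Sum.inl 1, Sum.inl 0] : Fin 2 → Fin 2 ⊕ ZFSet.{0}) k)) =
            ![π.val a, π.val u] := by
          funext i
          fin_cases i <;> rfl
        rw [h4]
      obtain ⟨k, hk⟩ := (h3 b hb).1 hs
      have hk' := Forces.mono hk (π.g_le_right n k)
      have h5 := el_collN hc ((π.g_le_left n k).trans hn) ⟨b, hk'⟩
      have h6 := π.witN_mem (φ := ψ) (v := Fin.cons a Fin.elim0) h1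
        (cons_mem ha fun i => i.elim0) (max n k)
      exact ⟨_, π.val_mem_val h6 h5 le_rfl, (h3 _ h6).2 ⟨_, witN_spec ⟨b, hk'⟩⟩⟩
    have hφ2 : (Fml.ex (.and (.mem (Sum.inl 0) (Sum.inr (π.val x))) φ) :
        Fml ZFSet.{0} 1).Over π.W := ⟨⟨TOver.inl _, tOver_inr.2 (π.val_mem_W hx)⟩, hφ⟩
    obtain ⟨χ, h3, h4⟩ := π.exists_fml _ hφ2
    refine ⟨_, π.val_mem_W (π.sepN_mem h3 (v := Fin.elim0) (fun i => i.elim0)
      (π.collN_mem h1 (v := Fin.elim0) (fun i => i.elim0) hx)), fun w => ?_⟩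
    rw [π.val_sepN h3 fun i => i.elim0, h4]
    have h5 : ∀ z, (Fin.cons z (Fin.cons w (π.val ∘ Fin.elim0)) : Fin 2 → ZFSet.{0}) =
        ![z, w] := by
      intro z
      funext i
      fin_cases i <;> rfl
    constructor
    · rintro ⟨h6, z, hz, h7, h8⟩
      refine ⟨π.trans_W (π.val_mem_W (π.collN_mem h1 (fun i => i.elim0) hx)) h6, z, h7, ?_⟩
      rw [h5] at h8
      exact h8
    · rintro ⟨h6, z, hz, h7⟩
      obtain ⟨w', hw', h8⟩ := hc z hz w h6 h7
      obtain ⟨w'', -, h9⟩ := hf z hz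
      have h10 : w' = w := by
        rw [h9 w' ⟨π.trans_W (π.val_mem_W (π.collN_mem h1 (fun i => i.elim0) hx)) hw', h8⟩,
          h9 w ⟨h6, h7⟩]
      subst h10
      refine ⟨hw', z, π.trans_W (π.val_mem_W hx) hz, hz, ?_⟩
      rw [h5]
      exact h7

theorem mem_enum {x : PName P} {p : ZFSet.{0}} (h : p ∈ π.val (enumN x)) :
    ∃ j, check (ordI x j).toZFSet ∈ π.N ∧ x.chd j ∈ π.N ∧
      p = ZFSet.pair (π.hat (ordI x j).toZFSet) (π.val (x.chd j)) := by
  obtain ⟨t, ht, c, hc, -, rfl⟩ := π.mem_val.1 h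
  obtain ⟨j, rfl, rfl⟩ := el_mk.1 hc
  exact ⟨j, π.fst_mem ht, π.snd_mem ht, π.val_opN (π.fst_mem ht) (π.snd_mem ht)⟩

theorem isZFC_W : IsZFC π.W := by
  have hM := π.isZF_W
  refine ⟨hM, ?_⟩
  intro X hX hne hdis
  have hB := hM.base
  obtain ⟨x, hx, hxu⟩ := hM.union _ hX
  have hfM : π.val (enumN x) ∈ π.W := π.val_mem_W (π.enumN_mem hx)
  set f := π.val (enumN x) with hf
  have F2 : ∀ a b b', ZFSet.pair a b ∈ f → ZFSet.pair a b' ∈ f → b = b' := by
    intro a b b' h1 h2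
    obtain ⟨j, h3, -, h4⟩ := π.mem_enum h1
    obtain ⟨j', h5, -, h6⟩ := π.mem_enum h2
    rw [ZFSet.pair_inj] at h4 h6
    have h7 : π.hat (ordI x j).toZFSet = π.hat (ordI x j').toZFSet := h4.1.symm.trans h6.1
    rw [π.hat_inj h3 h5] at h7
    have h8 := ordI_injective x (Ordinal.toZFSet_injective h7)
    subst h8
    rw [h4.2, h6.2]
  have F3 : ∀ z ∈ π.val x, ∃ a ∈ π.W, ZFSet.pair a z ∈ f := by
    intro z hz
    obtain ⟨y, hy, c, hc, -, rfl⟩ := π.mem_val.1 hz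
    obtain ⟨j, h1, h2⟩ := π.ordI_mem hx hy hc
    refine ⟨π.hat (ordI x j).toZFSet, π.V_subset_W (π.of_hat_mem_V h2), ?_⟩
    rw [hat, ← π.val_opN h2 hy]
    exact π.val_mem_val (n := 0) (π.opN_mem h2 hy)
      (el_mk.2 ⟨j, by rw [h1], rfl⟩ : El (enumN x) _ ⊤) le_top
  have F4 : ∀ a a' b b', ZFSet.pair a b ∈ f → ZFSet.pair a' b' ∈ f →
      a ∈ a' ∨ a = a' ∨ a' ∈ a := by
    intro a a' b b' h1 h2
    obtain ⟨j, h3, -, h4⟩ := π.mem_enum h1
    obtain ⟨j', h5, -, h6⟩ := π.mem_enum h2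
    rw [ZFSet.pair_inj] at h4 h6
    rw [h4.1, h6.1, π.hat_mem_hat h3 h5, π.hat_mem_hat h5 h3, π.hat_inj h3 h5]
    rcases lt_trichotomy (ordI x j) (ordI x j') with h | h | h
    · exact Or.inl (Ordinal.toZFSet_mem_toZFSet_iff.2 h)
    · exact Or.inr (Or.inl (by rw [h]))
    · exact Or.inr (Or.inr (Ordinal.toZFSet_mem_toZFSet_iff.2 h))
  have hd : Dfn π.W π.W fun w : Fin 1 → ZFSet.{0} => ∃ y ∈ X, w 0 ∈ y ∧ ∃ a ∈ π.W,
      ZFSet.pair a (w 0) ∈ f ∧ ∀ z ∈ y, ∀ b ∈ π.W, ZFSet.pair b z ∈ f → b ∉ a := by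
    (repeat' first
      | assumption
      | exact DfnF.proj _
      | exact DfnF.const (by assumption)
      | exact DfnF.const' (by first | assumption | trivial) (by first | assumption | trivial)
      | exact Dfn.prop _
      | apply Dfn.not | apply Dfn.and | apply Dfn.or | apply Dfn.imp | apply Dfn.iff
      | apply hB.bex | apply hB.ball | apply Dfn.ex | apply Dfn.all
      | apply Dfn.eq | apply Dfn.mem | apply hB.pair')
  refine ⟨_, hM.sep_mem (Q := fun z => ∃ y ∈ X, z ∈ y ∧ ∃ a ∈ π.W,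
      ZFSet.pair a z ∈ f ∧ ∀ z' ∈ y, ∀ b ∈ π.W, ZFSet.pair b z' ∈ f → b ∉ a) hd
      (hM.union _ hX), fun y hy => ?_⟩
  have hyM := hM.trans _ hX _ hy
  have hmin : ∃ a, (∃ z ∈ y, ZFSet.pair a z ∈ f) ∧
      ∀ b, (∃ z ∈ y, ZFSet.pair b z ∈ f) → b ∉ a := by
    have h1 : ({a | ∃ z ∈ y, ZFSet.pair a z ∈ f} : Set ZFSet.{0}).Nonempty := by
      obtain ⟨z, hz⟩ := hne y hy
      obtain ⟨a, -, ha⟩ := F3 z (by
        rw [hxu]
        exact ZFSet.mem_sUnion.2 ⟨y, hy, hz⟩)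
      exact ⟨a, z, hz, ha⟩
    obtain ⟨a, ha, h2⟩ := ZFSet.mem_wf.has_min _ h1
    exact ⟨a, ha, fun b hb => h2 b hb⟩
  obtain ⟨a, ⟨z, hz, ha⟩, h2⟩ := hmin
  refine ⟨z, ⟨hz, ZFSet.mem_sep.2 ⟨ZFSet.mem_sUnion.2 ⟨y, hy, hz⟩, y, hy, hz, a, ?_, ha,
    fun z' hz' b _ hb => h2 b ⟨z', hz', hb⟩⟩⟩, ?_⟩
  · exact (hM.of_pair_mem (hM.trans _ hfM _ ha)).1
  · rintro z' ⟨hz', hc⟩
    obtain ⟨-, y', hy', hzy', a', -, ha', h3⟩ := ZFSet.mem_sep.1 hc
    obtain rfl := hdis y' hy' y hy z' hzy' hz'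
    have h4 : a ∉ a' := h3 z hz a (hM.of_pair_mem (hM.trans _ hfM _ ha)).1 ha
    have h5 : a' ∉ a := h2 a' ⟨z', hz', ha'⟩
    rcases F4 a a' z z' ha ha' with h | h | h
    · exact absurd h h4
    · subst h
      exact F2 a z' z ha' ha
    · exact absurd h h5

/-- Elementarity of `Z`. -/
theorem exists_Z {Q : ZFSet.{0} → Prop}
    (h : Dfn π.Z Set.univ fun w : Fin 1 → ZFSet.{0} => Q (w 0)) (h' : ∃ a, Q a) :
    ∃ a ∈ π.Z, Q a := by
  obtain ⟨φ, h1, h2⟩ := h
  obtain ⟨a, ha⟩ := h'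
  obtain ⟨b, hb, h3⟩ := π.wit_Z (n := 0) (φ := φ) (v := Fin.elim0) h1 (fun i => i.elim0)
    ⟨a, (h2 _ fun _ => trivial).2 ha⟩
  exact ⟨b, hb, (h2 _ fun _ => trivial).1 h3⟩

theorem forall_Z {Q : ZFSet.{0} → Prop}
    (h : Dfn π.Z Set.univ fun w : Fin 1 → ZFSet.{0} => Q (w 0)) (h' : ∀ a ∈ π.Z, Q a) :
    ∀ a, Q a := by
  by_contra h1
  push Not at h1
  obtain ⟨a, ha, h2⟩ := π.exists_Z h.not h1
  exact h2 (h' a ha)

theorem isZF_V : IsZF π.V where
  trans x hx y hy := π.trans_V hx hy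
  pairing := by
    rintro _ ⟨x, hx, rfl⟩ _ ⟨y, hy, rfl⟩
    exact ⟨_, π.pair_Z hx hy, π.hat_pairset hx hy⟩
  union := by
    rintro _ ⟨x, hx, rfl⟩
    refine ⟨_, π.union_Z hx, ?_⟩
    have hB := isBase_univ
    ext z
    rw [ZFSet.mem_sUnion, mem_hat]
    constructor
    · rintro ⟨y, hy, hyZ, rfl⟩
      obtain ⟨u, hu, hyu⟩ := ZFSet.mem_sUnion.1 hy
      have hd : Dfn π.Z Set.univ fun w : Fin 1 → ZFSet.{0} => w 0 ∈ x ∧ y ∈ w 0 := by
        (repeat' first
      | assumption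
      | exact DfnF.proj _
      | exact DfnF.const (by assumption)
      | exact DfnF.const' (by first | assumption | trivial) (by first | assumption | trivial)
      | exact Dfn.prop _
      | apply Dfn.not | apply Dfn.and | apply Dfn.or | apply Dfn.imp | apply Dfn.iff
      | apply hB.bex | apply hB.ball | apply Dfn.ex | apply Dfn.all
      | apply Dfn.eq | apply Dfn.mem | apply hB.pair')
      obtain ⟨u, huZ, h1, h2⟩ := π.exists_Z (Q := fun u => u ∈ x ∧ y ∈ u) hd ⟨u, hu, hyu⟩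
      exact ⟨π.hat u, (π.hat_mem_hat huZ hx).2 h1, (π.hat_mem_hat hyZ huZ).2 h2⟩
    · rintro ⟨u, hu, hz⟩
      obtain ⟨u, hux, huZ, rfl⟩ := π.mem_hat.1 hu
      obtain ⟨z, hzu, hzZ, rfl⟩ := π.mem_hat.1 hz
      exact ⟨z, ZFSet.mem_sUnion.2 ⟨u, hux, hzu⟩, hzZ, rfl⟩
  infinity := by
    rw [← π.hat_omega]
    exact π.of_hat_mem_V π.omega_Z
  power := by
    rintro _ ⟨x, hx, rfl⟩
    refine ⟨_, π.of_hat_mem_V (π.pow_Z hx), fun z => ?_⟩
    rw [mem_hat]
    constructor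
    · rintro ⟨y, hy, hyZ, rfl⟩
      refine ⟨π.of_hat_mem_V hyZ, fun w hw => ?_⟩
      obtain ⟨w, hwy, hwZ, rfl⟩ := π.mem_hat.1 hw
      exact (π.hat_mem_hat hwZ hx).2 (ZFSet.mem_powerset.1 hy hwy)
    · rintro ⟨⟨y, hyZ, rfl⟩, h⟩
      exact ⟨y, ZFSet.mem_powerset.2 (π.subset_of_hat hx hyZ h), hyZ, rfl⟩
  separation := by
    rintro φ hφ _ ⟨x, hx, rfl⟩
    obtain ⟨ψ, h1, h2⟩ := π.exists_fml_V φ hφ
    have h3 := π.ground (F := gSep) (by simp [baseRules]) (φ := ψ) (v := ![x]) h1 (by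
      intro i
      fin_cases i
      exact hx)
    refine ⟨_, π.of_hat_mem_V h3, fun z => ?_⟩
    simp only [gSep]
    have h4 : ∀ y ∈ π.Z, (Sat Set.univ id ψ (Fin.cons y (Fin.tail ![x])) ↔
        Sat π.V id φ ![π.hat y]) := by
      intro y hy
      rw [← h2, ← π.sat_V ψ h1 _ (cons_mem hy fun i => i.elim0)]
      have h5 : π.hat ∘ (Fin.cons y (Fin.tail ![x]) : Fin 1 → ZFSet.{0}) = ![π.hat y] := by
        funext i
        fin_cases i
        rfl
      rw [h5]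
    rw [mem_hat, mem_hat]
    constructor
    · rintro ⟨y, hy, hyZ, rfl⟩
      obtain ⟨h6, h7⟩ := ZFSet.mem_sep.1 hy
      exact ⟨⟨y, h6, hyZ, rfl⟩, (h4 y hyZ).1 h7⟩
    · rintro ⟨⟨y, hy, hyZ, rfl⟩, h6⟩
      exact ⟨y, ZFSet.mem_sep.2 ⟨hy, (h4 y hyZ).2 h6⟩, hyZ, rfl⟩
  replacement := by
    rintro φ hφ _ ⟨x, hx, rfl⟩ hf
    obtain ⟨ψ, h1, h2⟩ := π.exists_fml_V φ hφ
    have h1' : (ψ.subst (![Sum.inl 1, Sum.inl 0] : Fin 2 → Fin 2 ⊕ ZFSet.{0})).Over π.Z := by
      refine over_subst _ _ (fun k => ?_) h1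
      fin_cases k
      · exact TOver.inl _
      · exact TOver.inl _
    have h3 := π.ground (F := gRepl) (by simp [baseRules])
      (φ := .ex (ψ.subst ![Sum.inl 1, Sum.inl 0])) (v := ![x]) h1' (by
      intro i
      fin_cases i
      exact hx)
    simp only [gRepl] at h3
    have h4 : ∀ z w : ZFSet.{0}, Sat Set.univ id (ψ.subst ![Sum.inl 1, Sum.inl 0])
        (Fin.cons w (Fin.cons z (Fin.tail ![x]))) ↔ Sat Set.univ id ψ ![z, w] := by
      intro z w
      rw [sat_subst]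
      have h5 : (fun k : Fin 2 => Sum.elim (Fin.cons w (Fin.cons z (Fin.tail ![x])) :
          Fin 2 → ZFSet.{0}) id ((![Sum.inl 1, Sum.inl 0] : Fin 2 → Fin 2 ⊕ ZFSet.{0}) k)) =
          ![z, w] := by
        funext i
        fin_cases i <;> rfl
      rw [h5]
    have h5 : ∀ z ∈ π.Z, ∀ w ∈ π.Z, (Sat Set.univ id ψ ![z, w] ↔
        Sat π.V id φ ![π.hat z, π.hat w]) := by
      intro z hz w hw
      rw [← h2, ← π.sat_V ψ h1]
      · have h6 : π.hat ∘ (![z, w] : Fin 2 → ZFSet.{0}) = ![π.hat z, π.hat w] := by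
          funext i
          fin_cases i <;> rfl
        rw [h6]
      · intro i
        fin_cases i
        · exact hz
        · exact hw
    have h6 : ∀ z ∈ x, ∃! w, Sat Set.univ id ψ ![z, w] := by
      have hB := isBase_univ
      have hψ : ∀ {n : ℕ} {F G : (Fin n → ZFSet.{0}) → ZFSet.{0}}, DfnF π.Z Set.univ F →
          DfnF π.Z Set.univ G → Dfn π.Z Set.univ fun v => Sat Set.univ id ψ ![F v, G v] := by
        intro n F G hF hG
        refine Dfn.comp2 (Q := fun a b => Sat Set.univ id ψ ![a, b]) ⟨ψ, h1, fun v _ => ?_⟩ hF hG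
        have h6 : v = ![v 0, v 1] := by
          funext i
          fin_cases i <;> rfl
        rw [h6]
        rfl
      have hd : Dfn π.Z Set.univ fun v : Fin 1 → ZFSet.{0} => v 0 ∈ x →
          ∃ w ∈ Set.univ, Sat Set.univ id ψ ![v 0, w] ∧
            ∀ w' ∈ Set.univ, Sat Set.univ id ψ ![v 0, w'] → w' = w := by
        apply Dfn.imp
        · (repeat' first
      | assumption
      | exact DfnF.proj _
      | exact DfnF.const (by assumption)
      | exact DfnF.const' (by first | assumption | trivial) (by first | assumption | trivial)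
      | exact Dfn.prop _
      | apply Dfn.not | apply Dfn.and | apply Dfn.or | apply Dfn.imp | apply Dfn.iff
      | apply hB.bex | apply hB.ball | apply Dfn.ex | apply Dfn.all
      | apply Dfn.eq | apply Dfn.mem | apply hB.pair')
        apply Dfn.ex
        apply Dfn.and
        · exact hψ (DfnF.proj 1) (DfnF.proj 0)
        apply Dfn.all
        apply Dfn.imp
        · exact hψ (DfnF.proj 2) (DfnF.proj 0)
        · (repeat' first
      | assumption
      | exact DfnF.proj _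
      | exact DfnF.const (by assumption)
      | exact DfnF.const' (by first | assumption | trivial) (by first | assumption | trivial)
      | exact Dfn.prop _
      | apply Dfn.not | apply Dfn.and | apply Dfn.or | apply Dfn.imp | apply Dfn.iff
      | apply hB.bex | apply hB.ball | apply Dfn.ex | apply Dfn.all
      | apply Dfn.eq | apply Dfn.mem | apply hB.pair')
      have h7 := π.forall_Z (Q := fun z => z ∈ x →
          ∃ w ∈ Set.univ, Sat Set.univ id ψ ![z, w] ∧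
            ∀ w' ∈ Set.univ, Sat Set.univ id ψ ![z, w'] → w' = w) hd (by
        intro z hz hzx
        obtain ⟨w, ⟨⟨w, hw, rfl⟩, h7⟩, h8⟩ := hf (π.hat z) ((π.hat_mem_hat hz hx).2 hzx)
        refine ⟨w, trivial, (h5 z hz w hw).2 h7, ?_⟩
        have hd2 : Dfn π.Z Set.univ fun v : Fin 1 → ZFSet.{0} =>
            Sat Set.univ id ψ ![z, v 0] → v 0 = w := by
          apply Dfn.imp
          · exact hψ (DfnF.const' trivial hz) (DfnF.proj 0)
          · (repeat' first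
      | assumption
      | exact DfnF.proj _
      | exact DfnF.const (by assumption)
      | exact DfnF.const' (by first | assumption | trivial) (by first | assumption | trivial)
      | exact Dfn.prop _
      | apply Dfn.not | apply Dfn.and | apply Dfn.or | apply Dfn.imp | apply Dfn.iff
      | apply hB.bex | apply hB.ball | apply Dfn.ex | apply Dfn.all
      | apply Dfn.eq | apply Dfn.mem | apply hB.pair')
        have h9 := π.forall_Z (Q := fun w' => Sat Set.univ id ψ ![z, w'] → w' = w) hd2 (by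
          intro w' hw' h9
          have h10 := h8 (π.hat w') ⟨π.of_hat_mem_V hw', (h5 z hz w' hw').1 h9⟩
          exact (π.hat_inj hw' hw).1 h10)
        exact fun w' _ => h9 w')
      intro z hz
      obtain ⟨w, -, h8, h9⟩ := h7 z hz
      exact ⟨w, h8, fun w' h10 => h9 w' trivial h10⟩
    refine ⟨_, π.of_hat_mem_V h3, fun w => ?_⟩
    rw [mem_hat]
    have h7 : ∀ z ∈ x, ∀ h : ∃ w, Sat Set.univ id (ψ.subst ![Sum.inl 1, Sum.inl 0])
        (Fin.cons w (Fin.cons z (Fin.tail ![x]))), Sat Set.univ id ψ ![z, h.choose] :=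
      fun z _ h => (h4 z _).1 h.choose_spec
    constructor
    · rintro ⟨w, hw, hwZ, rfl⟩
      obtain ⟨⟨z, hz⟩, hzw⟩ := ZFSet.mem_range.1 hw
      have hz' : z ∈ x := hz
      have h8 : ∃ w, Sat Set.univ id (ψ.subst ![Sum.inl 1, Sum.inl 0])
          (Fin.cons w (Fin.cons z (Fin.tail ![x]))) := by
        obtain ⟨w, h9, -⟩ := h6 z hz'
        exact ⟨w, (h4 z w).2 h9⟩
      rw [dif_pos h8] at hzw
      have h9 := h7 z hz' h8
      rw [hzw] at h9
      have hd : Dfn π.Z Set.univ fun v : Fin 1 → ZFSet.{0} =>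
          v 0 ∈ x ∧ Sat Set.univ id ψ ![v 0, w] := by
        apply Dfn.and
        · have hB := isBase_univ
          (repeat' first
      | assumption
      | exact DfnF.proj _
      | exact DfnF.const (by assumption)
      | exact DfnF.const' (by first | assumption | trivial) (by first | assumption | trivial)
      | exact Dfn.prop _
      | apply Dfn.not | apply Dfn.and | apply Dfn.or | apply Dfn.imp | apply Dfn.iff
      | apply hB.bex | apply hB.ball | apply Dfn.ex | apply Dfn.all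
      | apply Dfn.eq | apply Dfn.mem | apply hB.pair')
        · refine Dfn.comp2 (Q := fun a b => Sat Set.univ id ψ ![a, b]) ⟨ψ, h1, fun v _ => ?_⟩
            (DfnF.proj 0) (DfnF.const' trivial hwZ)
          have h6 : v = ![v 0, v 1] := by
            funext i
            fin_cases i <;> rfl
          rw [h6]
          rfl
      obtain ⟨z', hz'Z, hz'x, h10⟩ := π.exists_Z
        (Q := fun z => z ∈ x ∧ Sat Set.univ id ψ ![z, w]) hd ⟨z, hz', h9⟩
      exact ⟨π.of_hat_mem_V hwZ, π.hat z', (π.hat_mem_hat hz'Z hx).2 hz'x,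
        (h5 z' hz'Z w hwZ).1 h10⟩
    · rintro ⟨⟨w, hwZ, rfl⟩, z, hz, h8⟩
      obtain ⟨z, hzx, hzZ, rfl⟩ := π.mem_hat.1 hz
      rw [← h5 z hzZ w hwZ] at h8
      refine ⟨w, ZFSet.mem_range.2 ⟨⟨z, hzx⟩, ?_⟩, hwZ, rfl⟩
      have h9 : ∃ w, Sat Set.univ id (ψ.subst ![Sum.inl 1, Sum.inl 0])
          (Fin.cons w (Fin.cons z (Fin.tail ![x]))) := ⟨w, (h4 z w).2 h8⟩
      rw [dif_pos h9]
      obtain ⟨w', -, h10⟩ := h6 z hzx
      rw [h10 _ (h7 z hzx h9), h10 _ h8]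

theorem isZFC_V : IsZFC π.V := by
  refine ⟨π.isZF_V, ?_⟩
  rintro _ ⟨X, hX, rfl⟩ hne hdis
  have hB := isBase_univ
  have h1 : ∀ y ∈ X, ∃ z ∈ y, True := by
    have hd : Dfn π.Z Set.univ fun v : Fin 1 → ZFSet.{0} => v 0 ∈ X → ∃ z ∈ v 0, True := by
      (repeat' first
      | assumption
      | exact DfnF.proj _
      | exact DfnF.const (by assumption)
      | exact DfnF.const' (by first | assumption | trivial) (by first | assumption | trivial)
      | exact Dfn.prop _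
      | apply Dfn.not | apply Dfn.and | apply Dfn.or | apply Dfn.imp | apply Dfn.iff
      | apply hB.bex | apply hB.ball | apply Dfn.ex | apply Dfn.all
      | apply Dfn.eq | apply Dfn.mem | apply hB.pair')
    refine π.forall_Z (Q := fun y => y ∈ X → ∃ z ∈ y, True) hd ?_
    intro y hy hyX
    obtain ⟨z, hz⟩ := hne (π.hat y) ((π.hat_mem_hat hy hX).2 hyX)
    obtain ⟨z, hz, -, -⟩ := π.mem_hat.1 hz
    exact ⟨z, hz, trivial⟩
  have h2 : ∀ y ∈ X, ∀ y' ∈ X, ∀ z ∈ y, z ∈ y' → y = y' := by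
    have hd : Dfn π.Z Set.univ fun v : Fin 1 → ZFSet.{0} => v 0 ∈ X →
        ∀ y' ∈ X, ∀ z ∈ v 0, z ∈ y' → v 0 = y' := by
      (repeat' first
      | assumption
      | exact DfnF.proj _
      | exact DfnF.const (by assumption)
      | exact DfnF.const' (by first | assumption | trivial) (by first | assumption | trivial)
      | exact Dfn.prop _
      | apply Dfn.not | apply Dfn.and | apply Dfn.or | apply Dfn.imp | apply Dfn.iff
      | apply hB.bex | apply hB.ball | apply Dfn.ex | apply Dfn.all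
      | apply Dfn.eq | apply Dfn.mem | apply hB.pair')
    refine π.forall_Z (Q := fun y => y ∈ X → ∀ y' ∈ X, ∀ z ∈ y, z ∈ y' → y = y') hd ?_
    intro y hy hyX
    have hd : Dfn π.Z Set.univ fun v : Fin 1 → ZFSet.{0} => v 0 ∈ X →
        ∀ z ∈ y, z ∈ v 0 → y = v 0 := by
      (repeat' first
      | assumption
      | exact DfnF.proj _
      | exact DfnF.const (by assumption)
      | exact DfnF.const' (by first | assumption | trivial) (by first | assumption | trivial)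
      | exact Dfn.prop _
      | apply Dfn.not | apply Dfn.and | apply Dfn.or | apply Dfn.imp | apply Dfn.iff
      | apply hB.bex | apply hB.ball | apply Dfn.ex | apply Dfn.all
      | apply Dfn.eq | apply Dfn.mem | apply hB.pair')
    refine π.forall_Z (Q := fun y' => y' ∈ X → ∀ z ∈ y, z ∈ y' → y = y') hd ?_
    intro y' hy' hyX'
    have hd : Dfn π.Z Set.univ fun v : Fin 1 → ZFSet.{0} => v 0 ∈ y → v 0 ∈ y' → y = y' := by
      (repeat' first
      | assumption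
      | exact DfnF.proj _
      | exact DfnF.const (by assumption)
      | exact DfnF.const' (by first | assumption | trivial) (by first | assumption | trivial)
      | exact Dfn.prop _
      | apply Dfn.not | apply Dfn.and | apply Dfn.or | apply Dfn.imp | apply Dfn.iff
      | apply hB.bex | apply hB.ball | apply Dfn.ex | apply Dfn.all
      | apply Dfn.eq | apply Dfn.mem | apply hB.pair')
    refine π.forall_Z (Q := fun z => z ∈ y → z ∈ y' → y = y') hd ?_
    intro z hz hzy hzy'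
    have h3 := hdis (π.hat y) ((π.hat_mem_hat hy hX).2 hyX) (π.hat y')
      ((π.hat_mem_hat hy' hX).2 hyX') (π.hat z) ((π.hat_mem_hat hz hy).2 hzy)
      ((π.hat_mem_hat hz hy').2 hzy')
    exact (π.hat_inj hy hy').1 h3
  have h3 : ∃ c : ZFSet.{0}, ∀ y ∈ X, ∃ z ∈ y, z ∈ c ∧ ∀ z' ∈ y, z' ∈ c → z' = z := by
    choose! f hf using h1
    refine ⟨ZFSet.range fun y : {y // y ∈ X} => f y.1, fun y hy => ?_⟩
    refine ⟨f y, (hf y hy).1, ZFSet.mem_range.2 ⟨⟨y, hy⟩, rfl⟩, ?_⟩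
    intro z' hz' hc
    obtain ⟨⟨y', hy'⟩, rfl⟩ := ZFSet.mem_range.1 hc
    have h3 := h2 y' hy' y hy (f y') (hf y' hy').1 hz'
    subst h3
    rfl
  have hd : Dfn π.Z Set.univ fun v : Fin 1 → ZFSet.{0} => ∀ y ∈ X, ∃ z ∈ y, z ∈ v 0 ∧
      ∀ z' ∈ y, z' ∈ v 0 → z' = z := by
    (repeat' first
      | assumption
      | exact DfnF.proj _
      | exact DfnF.const (by assumption)
      | exact DfnF.const' (by first | assumption | trivial) (by first | assumption | trivial)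
      | exact Dfn.prop _
      | apply Dfn.not | apply Dfn.and | apply Dfn.or | apply Dfn.imp | apply Dfn.iff
      | apply hB.bex | apply hB.ball | apply Dfn.ex | apply Dfn.all
      | apply Dfn.eq | apply Dfn.mem | apply hB.pair')
  obtain ⟨c, hc, h4⟩ := π.exists_Z (Q := fun c => ∀ y ∈ X, ∃ z ∈ y, z ∈ c ∧
      ∀ z' ∈ y, z' ∈ c → z' = z) hd h3
  refine ⟨_, π.of_hat_mem_V hc, fun y hy => ?_⟩
  obtain ⟨y, hyX, hyZ, rfl⟩ := π.mem_hat.1 hy
  have hd : Dfn π.Z Set.univ fun v : Fin 1 → ZFSet.{0} => v 0 ∈ y ∧ v 0 ∈ c := by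
    (repeat' first
      | assumption
      | exact DfnF.proj _
      | exact DfnF.const (by assumption)
      | exact DfnF.const' (by first | assumption | trivial) (by first | assumption | trivial)
      | exact Dfn.prop _
      | apply Dfn.not | apply Dfn.and | apply Dfn.or | apply Dfn.imp | apply Dfn.iff
      | apply hB.bex | apply hB.ball | apply Dfn.ex | apply Dfn.all
      | apply Dfn.eq | apply Dfn.mem | apply hB.pair')
  obtain ⟨z, hz, h5, h6⟩ := π.exists_Z (Q := fun z => z ∈ y ∧ z ∈ c) hd (by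
    obtain ⟨z, h5, h6, -⟩ := h4 y hyX
    exact ⟨z, h5, h6⟩)
  refine ⟨π.hat z, ⟨(π.hat_mem_hat hz hyZ).2 h5, (π.hat_mem_hat hz hc).2 h6⟩, ?_⟩
  rintro z' ⟨h7, h8⟩
  obtain ⟨z', h9, hz', rfl⟩ := π.mem_hat.1 h7
  rw [π.hat_mem_hat hz' hc] at h8
  obtain ⟨w, h10, h11, h12⟩ := h4 y hyX
  rw [h12 z h5 h6, h12 z' h9 h8]

end Pkg

end Pool.Agent.W868
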