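import Pool.Agent.W868.Stf
import Pool.Agent.W868.Cohen

/-!
# The two models
-/

set_option autoImplicit false
set_option linter.unreachableTactic false
set_option linter.unusedTactic false

namespace Pool.Agent.W868

open PName
open ZFSet (pair)

/-! ### Countable transitive sets -/

theorem pair_eq_upair (x y : ZFSet.{0}) : pair x y = {{x}, {x, y}} := rfl

/-- The transitive closure. -/
theorem tcl_trans {A α : ZFSet.{0}} (hαo : α.IsOrdinal)
    (hAs : A ⊆ ZFSet.prod (sc α) ZFSet.omega) :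
    ∀ x ∈ (insert A (A ∪ (ZFSet.sUnion A ∪ (sc α ∪ ZFSet.omega))) : ZFSet.{0}), ∀ y ∈ x,
      y ∈ (insert A (A ∪ (ZFSet.sUnion A ∪ (sc α ∪ ZFSet.omega))) : ZFSet.{0}) := by
  intro x hx y hy
  rw [ZFSet.mem_insert_iff, ZFSet.mem_union, ZFSet.mem_union, ZFSet.mem_union]
  rw [ZFSet.mem_insert_iff, ZFSet.mem_union, ZFSet.mem_union, ZFSet.mem_union] at hx
  rcases hx with rfl | hx | hx | hx | hx
  · exact Or.inr (Or.inl hy)
  · exact Or.inr (Or.inr (Or.inl (ZFSet.mem_sUnion.2 ⟨x, hx, hy⟩)))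
  · obtain ⟨p, hp, hxp⟩ := ZFSet.mem_sUnion.1 hx
    obtain ⟨u, hu, w, hw, rfl⟩ := ZFSet.mem_prod.1 (hAs hp)
    rw [pair_eq_upair] at hxp
    rcases ZFSet.mem_pair.1 hxp with rfl | rfl
    · rw [ZFSet.mem_singleton.1 hy]
      exact Or.inr (Or.inr (Or.inr (Or.inl hu)))
    · rcases ZFSet.mem_pair.1 hy with rfl | rfl
      · exact Or.inr (Or.inr (Or.inr (Or.inl hu)))
      · exact Or.inr (Or.inr (Or.inr (Or.inr hw)))
  · exact Or.inr (Or.inr (Or.inr (Or.inl ((isOrdinal_sc hαo).mem_trans hy hx))))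
  · exact Or.inr (Or.inr (Or.inr (Or.inr (isOrdinal_omega.mem_trans hy hx))))

theorem exists_T {C : Set ZFSet.{0}} (hM : IsZF C) {e : ZFSet.{0} → ZFSet.{0}} (hg : GC C e)
    {A α : ZFSet.{0}} (hA : A ∈ C) (hα : α ∈ C) (hαo : α.IsOrdinal)
    (hAs : A ⊆ ZFSet.prod (sc α) ZFSet.omega) (hαω : Inj C α ZFSet.omega) :
    ∃ T ∈ C, (∀ x ∈ T, ∀ y ∈ x, y ∈ T) ∧ A ∈ T ∧ Inj C T ZFSet.omega ∧ ZFSet.omega ⊆ T := by
  have hom := hM.infinity
  have hωω : (ZFSet.omega : ZFSet.{0}) ⊆ ZFSet.omega := fun _ h => h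
  have hsα : sc α ∈ C := hM.sc_mem hα
  have h1 : Inj C (sc α) ZFSet.omega :=
    Inj.insert hM hg hom isOrdinal_omega hωω hα hα hαω
  have h2 : Inj C ZFSet.omega ZFSet.omega := Inj.of_subset hM hom hom hωω
  have hp := hM.prod_mem hsα hom
  have h3 : Inj C (ZFSet.prod (sc α) ZFSet.omega) ZFSet.omega :=
    Inj.trans hM hp hom (Inj.prod hM hsα hom hom hom h1 h2) (sq_inj hM hom isOrdinal_omega hωω)
  have h4 : Inj C A ZFSet.omega := inj_mono hM hA hp hom hAs h3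
  have hid : im (fun u => u) A = A := by
    ext z
    rw [mem_im]
    exact ⟨fun ⟨p, hp, h⟩ => h ▸ hp, fun h => ⟨z, h, rfl⟩⟩
  have h5 : Inj C (ZFSet.sUnion A : ZFSet.{0}) ZFSet.omega := by
    have h6 := Inj.iUnion hM hg hom isOrdinal_omega hωω hA h4 (F := fun u => u)
      (DfnF.proj 0) (by
        intro p hp
        obtain ⟨u, hu, w, hw, rfl⟩ := ZFSet.mem_prod.1 (hAs hp)
        have hu' := hM.trans _ hsα _ hu
        have hw' := hM.trans _ hom _ hw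
        rw [pair_eq_upair]
        exact upair_countable hM (hM.single_mem hu') (hM.pairing _ hu' _ hw'))
    rwa [hid] at h6
  have hUA := hM.union _ hA
  have hm1 := hM.union_mem hsα hom
  have hm2 := hM.union_mem hUA hm1
  have hm3 := hM.union_mem hA hm2
  have i1 := Inj.union hM hg hom isOrdinal_omega hωω hsα hom h1 h2
  have i2 := Inj.union hM hg hom isOrdinal_omega hωω hUA hm1 h5 i1
  have i3 := Inj.union hM hg hom isOrdinal_omega hωω hA hm2 h4 i2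
  refine ⟨_, hM.insert_mem hA hm3, tcl_trans hαo hAs, ZFSet.mem_insert _ _,
    Inj.insert hM hg hom isOrdinal_omega hωω hA hm3 i3, fun n hn => ?_⟩
  rw [ZFSet.mem_insert_iff, ZFSet.mem_union, ZFSet.mem_union, ZFSet.mem_union]
  exact Or.inr (Or.inr (Or.inr (Or.inr hn)))

theorem isLA_of_sub {M : Set ZFSet.{0}} (hM : IsZF M) {A α : ZFSet.{0}} (hA : A ∈ M)
    (hα : α ∈ M) (hαo : α.IsOrdinal) (hAs : A ⊆ ZFSet.prod (sc α) ZFSet.omega) :
    IsLA A (LC M A) := by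
  have hZ := isZF_LC hM hA
  obtain ⟨δ, h1, h2, h3⟩ := exists_level hM hA hA (Q := fun w z => w = z)
    (Dfn.eq (DfnF.proj 0) (DfnF.proj 1))
  refine isLA_LC hM hA h1 h2 fun p hp => ?_
  obtain ⟨u, hu, w, hw, rfl⟩ := ZFSet.mem_prod.1 (hAs hp)
  have hu' : u ∈ LC M A := ord_LC hM hA (hM.trans _ (hM.sc_mem hα) _ hu)
    ((isOrdinal_sc hαo).mem hu)
  have hw' : w ∈ LC M A := hZ.trans _ hZ.infinity _ hw
  obtain ⟨w', h4, rfl⟩ := h3 _ hp ⟨_, hZ.pair_mem hu' hw', rfl⟩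
  exact h4

/-! ### A new real -/

section cohen

variable {B : ZFSet.{0}} (π : Pkg (Coh (Ty B × ℕ)))

theorem cohen_new (hΓ : Gam B ∈ π.N) {b x : ZFSet.{0}} (hb : b ∈ B) (hbZ : b ∈ π.Z)
    (hx : x ∈ π.Z) :
    ¬ ∀ n ∈ ZFSet.omega, (pair (π.hat b) n ∈ π.val (Gam B) ↔ n ∈ π.hat x) := by
  classical
  intro hcon
  set S : Set (PName (Coh (Ty B × ℕ))) := {Gam B, check b, check x, check ZFSet.omega} with hS
  have s1 : Gam B ∈ S := by simp [hS]
  have s2 : check b ∈ S := by simp [hS]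
  have s3 : check x ∈ S := by simp [hS]
  have s4 : check ZFSet.omega ∈ S := by simp [hS]
  have hSπ : S ⊆ π.N := by
    rintro x (rfl | rfl | rfl | rfl)
    · exact hΓ
    · exact hbZ
    · exact hx
    · exact π.omega_Z
  have hd : NDfn S fun π (_ : Fin 0 → ZFSet.{0}) => ∀ n ∈ π.hat ZFSet.omega,
        (pair (π.hat b) n ∈ π.val (Gam B) ↔ n ∈ π.hat x) := by
    (repeat' first
      | assumption
      | exact NDfnF.proj _
      | exact NDfnF.val (by assumption)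
      | exact NDfnF.hat (by assumption)
      | apply NDfn.not | apply NDfn.and | apply NDfn.or | apply NDfn.imp | apply NDfn.iff
      | apply NDfn.bex | apply NDfn.ball | apply NDfn.ex | apply NDfn.all
      | apply NDfn.eq | apply NDfn.mem | apply NDfnF.pair)
  obtain ⟨k, hk⟩ := forcing_theorem hd π hSπ (by
    intro n hn
    rw [π.hat_omega] at hn
    exact hcon n hn)
  obtain ⟨i, rfl⟩ := exists_el hb
  obtain ⟨m, hm⟩ : ∃ n : ℕ, ∀ t ∈ (π.g k).1, t.1.2 < n := by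
    refine ⟨((π.g k).1.sup fun t => t.1.2) + 1, fun t ht => ?_⟩
    exact Nat.lt_succ_of_le (Finset.le_sup (f := fun t => t.1.2) ht)
  have hm' : ∀ l b, ((l, m), b) ∉ (π.g k).1 := by
    intro l b h
    have h1 : m < m := hm _ h
    omega
  by_cases hmx : nat m ∈ x
  · set q := (π.g k).add (i, m) false (hm' _ _) with hq
    obtain ⟨π', h2, h3⟩ := exists_pkg' S (Set.toFinite _).countable q
    have hqp : q ≤ π.g k := Finset.subset_insert _ _
    have h4 := hk π' h2 ⟨0, by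
      rw [h3]
      exact hqp⟩
    have hiZ : el i ∈ π'.Z := h2 s2
    have hxZ : x ∈ π'.Z := h2 s3
    have h5 := h4 (nat m) (by
      rw [π'.hat_omega]
      exact mem_omega_iff.2 ⟨m, rfl⟩)
    have h6 : nat m ∈ π'.hat x := by
      have h7 := (π'.hat_mem_hat (π'.nat_Z m) hxZ).2 hmx
      rwa [π'.hat_nat] at h7
    rw [mem_Gam π' hiZ] at h5
    obtain ⟨l, hl⟩ := h5.2 h6
    have h7 : ((i, m), false) ∈ (π'.g l).1 := by
      have h8 : ((i, m), false) ∈ (π'.g 0).1 := by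
        rw [h3]
        exact Finset.mem_insert_self _ _
      exact π'.g_anti (Nat.zero_le l) h8
    exact (π'.g l).not_both hl h7
  · set q := (π.g k).add (i, m) true (hm' _ _) with hq
    obtain ⟨π', h2, h3⟩ := exists_pkg' S (Set.toFinite _).countable q
    have hqp : q ≤ π.g k := Finset.subset_insert _ _
    have h4 := hk π' h2 ⟨0, by
      rw [h3]
      exact hqp⟩
    have hiZ : el i ∈ π'.Z := h2 s2
    have hxZ : x ∈ π'.Z := h2 s3
    have h5 := h4 (nat m) (by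
      rw [π'.hat_omega]
      exact mem_omega_iff.2 ⟨m, rfl⟩)
    rw [mem_Gam π' hiZ] at h5
    have h6 : nat m ∈ π'.hat x := h5.1 ⟨0, by
      rw [h3]
      exact Finset.mem_insert_self _ _⟩
    apply hmx
    rw [← π'.hat_nat] at h6
    exact (π'.hat_mem_hat (π'.nat_Z m) hxZ).1 h6

end cohen

/-! ### Names of hereditarily countable sets -/

theorem countable_tcl {A α : ZFSet.{0}} (hα : {x | x ∈ α}.Countable)
    (hAs : A ⊆ ZFSet.prod (sc α) ZFSet.omega) :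
    {x | x ∈ (insert A (A ∪ (ZFSet.sUnion A ∪ (sc α ∪ ZFSet.omega))) : ZFSet.{0})}.Countable := by
  have hω : {x : ZFSet.{0} | x ∈ ZFSet.omega}.Countable := by
    refine (Set.countable_range nat).mono fun x hx => ?_
    obtain ⟨n, rfl⟩ := mem_omega_iff.1 hx
    exact ⟨n, rfl⟩
  have hs : {x : ZFSet.{0} | x ∈ sc α}.Countable := by
    refine (hα.insert α).mono fun x hx => ?_
    rcases ZFSet.mem_insert_iff.1 hx with h | h
    · exact Or.inl h
    · exact Or.inr h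
  have hA : {x : ZFSet.{0} | x ∈ A}.Countable := by
    refine ((hs.prod hω).image fun p => pair p.1 p.2).mono fun x hx => ?_
    obtain ⟨u, hu, w, hw, rfl⟩ := ZFSet.mem_prod.1 (hAs hx)
    exact ⟨(u, w), ⟨hu, hw⟩, rfl⟩
  have hU : {x : ZFSet.{0} | x ∈ ZFSet.sUnion A}.Countable := by
    have h1 : {x : ZFSet.{0} | x ∈ ZFSet.sUnion A} ⊆ ⋃ p ∈ {x : ZFSet.{0} | x ∈ A},
        {x | x ∈ p} := by
      intro x hx
      obtain ⟨p, hp, hxp⟩ := ZFSet.mem_sUnion.1 hx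
      exact Set.mem_biUnion (show p ∈ {x : ZFSet.{0} | x ∈ A} from hp) hxp
    refine (hA.biUnion fun p hp => ?_).mono h1
    obtain ⟨u, hu, w, hw, rfl⟩ := ZFSet.mem_prod.1 (hAs hp)
    have h2 : {x | x ∈ pair u w} ⊆ ({{u}, {u, w}} : Set ZFSet.{0}) := by
      intro x hx
      have hx' : x ∈ pair u w := hx
      rw [pair_eq_upair, ZFSet.mem_pair] at hx'
      exact hx'
    exact (Set.toFinite _).countable.mono h2
  refine ((((hA.union (hU.union (hs.union hω)))).insert A)).mono fun x hx => ?_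
  have hx' : x ∈ (insert A (A ∪ (ZFSet.sUnion A ∪ (sc α ∪ ZFSet.omega))) : ZFSet.{0}) := hx
  rw [ZFSet.mem_insert_iff, ZFSet.mem_union, ZFSet.mem_union, ZFSet.mem_union] at hx'
  exact hx'

theorem hat_eq_self {P : Type} [Preorder P] [OrderTop P] (π : Pkg P) {T : ZFSet.{0}}
    (hT : ∀ x ∈ T, ∀ y ∈ x, y ∈ T) (hZ : ∀ x ∈ T, x ∈ π.Z) : ∀ x ∈ T, π.hat x = x := by
  intro x
  induction x using ZFSet.inductionOn with
  | _ x ih =>
  intro hx
  ext y
  rw [π.mem_hat]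
  constructor
  · rintro ⟨z, hz, -, rfl⟩
    rw [ih z hz (hT x hx z hz)]
    exact hz
  · intro hy
    exact ⟨y, hy, hZ y (hT x hx y hy), ih y hy (hT x hx y hy)⟩

/-! ### The main theorem -/

theorem pow_inj {C : Set ZFSet.{0}} (hM : IsZF C) {J P Pw : ZFSet.{0}} (hJ : J ∈ C)
    (hJi : IsInj (ZFSet.prod ZFSet.omega ZFSet.omega) ZFSet.omega J) (hP : P ∈ C)
    (hP' : ∀ z, z ∈ P ↔ z ∈ C ∧ z ⊆ ZFSet.omega) (hPw : Pw ∈ C)
    (hPw' : ∀ z, z ∈ Pw ↔ z ∈ C ∧ z ⊆ ZFSet.prod ZFSet.omega ZFSet.omega) : Inj C Pw P := by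
  have hd : DfnF C C fun w : Fin 2 → ZFSet.{0} => ap J (w 0) :=
    hM.ap' (DfnF.const hJ) (DfnF.proj 0)
  have hd' : DfnF C C fun w : Fin 1 → ZFSet.{0} => im (ap J) (w 0) :=
    hM.im' (h := fun p _ => ap J p) (DfnF.proj 0) hd
  have hap : ∀ p ∈ ZFSet.prod ZFSet.omega ZFSet.omega, ap J p ∈ ZFSet.omega ∧
      pair p (ap J p) ∈ J := by
    intro p hp
    obtain ⟨b, hb, h⟩ := fun_exists hJi.1 hp
    rw [ap_func hJi.1 h]
    exact ⟨hb, h⟩
  refine Inj.of_fun hM hPw hP (h := fun x => im (ap J) x) hd' ?_ ?_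
  · intro x hx
    obtain ⟨h1, h2⟩ := (hPw' x).1 hx
    refine (hP' _).2 ⟨hd'.1 (fun _ => x) fun _ => h1, fun z hz => ?_⟩
    obtain ⟨p, hp, rfl⟩ := mem_im.1 hz
    exact (hap p (h2 hp)).1
  · have key : ∀ x ∈ Pw, ∀ x' ∈ Pw, im (ap J) x = im (ap J) x' → x ⊆ x' := by
      intro x hx x' hx' h p hp
      obtain ⟨-, h2⟩ := (hPw' x).1 hx
      obtain ⟨-, h4⟩ := (hPw' x').1 hx'
      have h5 : ap J p ∈ im (ap J) x' := h ▸ mem_im.2 ⟨p, hp, rfl⟩
      obtain ⟨p', hp', h6⟩ := mem_im.1 h5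
      have h7 := (hap p (h2 hp)).2
      rw [h6] at h7
      rw [hJi.2 _ _ _ h7 (hap p' (h4 hp')).2]
      exact hp'
    intro x hx x' hx' h
    apply ZFSet.ext
    intro z
    exact ⟨fun hz => key x hx x' hx' h hz, fun hz => key x' hx' x hx h.symm hz⟩

/-- The main theorem. -/
theorem mainG (α : ZFSet.{0}) (hαo : α.IsOrdinal) (hαc : {x | x ∈ α}.Countable)
    (hα0 : ∃ β, β ∈ α) :
    ∃ V W : Set ZFSet.{0}, V.Countable ∧ W.Countable ∧ IsZFC V ∧ IsZFC W ∧ GCH V ∧ GCH W ∧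
      V ⊆ W ∧ (∀ x : ZFSet.{0}, x.IsOrdinal → (x ∈ V ↔ x ∈ W)) ∧ α ∈ V ∧
      (∃ f ∈ V, IsInj α ZFSet.omega f) ∧ (∃ κ, IsAleph V α κ) ∧ (∃ κ, IsAleph W α κ) ∧
      ∃ φ ∈ V, IsSentence V φ ∧ IsSentence W φ ∧
        (∀ κ, IsAleph V α κ → (∃ D c, ModK V κ φ D c) ∧ ¬ AP V κ φ) ∧
        ∀ κ, IsAleph W α κ → (∃ D c, ModK W κ φ D c) ∧ AP W κ φ := by
  classical
  -- an enumeration of α
  obtain ⟨b, hb⟩ : ∃ b, IsInj α ZFSet.omega b := by
    refine exists_isInj ?_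
    rw [card_omega, ZFSet.card, Cardinal.mk_le_aleph0_iff]
    have h1 : Countable {z // z ∈ α} := hαc.to_subtype
    exact Countable.of_equiv _ (equivShrink {z // z ∈ α})
  have hbs : b ⊆ ZFSet.prod (sc α) ZFSet.omega := by
    intro p hp
    obtain ⟨u, hu, w, hw, rfl⟩ := ZFSet.mem_prod.1 (hb.1.1 hp)
    exact ZFSet.pair_mem_prod.2 ⟨ZFSet.mem_insert_of_mem _ hu, hw⟩
  set T0 : ZFSet.{0} := insert b (b ∪ (ZFSet.sUnion b ∪ (sc α ∪ ZFSet.omega))) with hT0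
  have hT0c := countable_tcl hαc hbs
  have hT0t := tcl_trans hαo hbs
  -- the generic extension
  obtain ⟨π, h1, -⟩ := exists_pkg' (insert (Gam (nat 1)) (check '' {x | x ∈ T0}) :
    Set (PName (Coh (Ty (nat 1) × ℕ)))) ((hT0c.image _).insert _) ⊤
  have hΓ : Gam (nat 1) ∈ π.N := h1 (Or.inl rfl)
  have hTZ : ∀ x ∈ T0, x ∈ π.Z := fun x hx => h1 (Or.inr ⟨x, hx, rfl⟩)
  have hhat := hat_eq_self π hT0t hTZ
  have hT0V : ∀ x ∈ T0, x ∈ π.V := fun x hx => ⟨x, hTZ x hx, hhat x hx⟩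
  have hMV := π.isZF_V
  have hMW := π.isZF_W
  have hbV : b ∈ π.V := hT0V b (ZFSet.mem_insert _ _)
  have hαT0 : α ∈ T0 := by
    rw [hT0, ZFSet.mem_insert_iff, ZFSet.mem_union, ZFSet.mem_union, ZFSet.mem_union]
    exact Or.inr (Or.inr (Or.inr (Or.inl (ZFSet.mem_insert _ _))))
  have hαV0 : α ∈ π.V := hT0V α hαT0
  have hαW0 : α ∈ π.W := π.V_subset_W hαV0
  -- the new real
  have hΓW : π.val (Gam (nat 1)) ∈ π.W := π.val_mem_W hΓ
  have hBW := hMW.base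
  set c : ZFSet.{0} := ZFSet.sep (fun n => pair ∅ n ∈ π.val (Gam (nat 1))) ZFSet.omega with hc
  have hcW0 : c ∈ π.W := by
    refine hMW.sep_mem (Q := fun n => pair ∅ n ∈ π.val (Gam (nat 1))) ?_ hMW.infinity
    exact Dfn.mem (hBW.pair' (DfnF.const hMW.empty_mem) (DfnF.proj 0)) (DfnF.const hΓW)
  have hcω : c ⊆ ZFSet.omega := fun n hn => (ZFSet.mem_sep.1 hn).1
  have hcV0 : c ∉ π.V := by
    rintro ⟨x, hx, hxc⟩
    refine cohen_new π hΓ (b := nat 0) (x := x) (mem_one_iff.2 rfl) (π.nat_Z 0) hx ?_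
    intro n hn
    rw [hxc, π.hat_nat]
    rw [hc, ZFSet.mem_sep]
    exact ⟨fun h => ⟨hn, h⟩, fun h => h.2⟩
  -- the small model
  set V : Set ZFSet.{0} := LC π.V b with hV
  have hLV : IsLA b V := isLA_of_sub hMV hbV hαV0 hαo hbs
  have hZV := hLV.zf
  have hgV := hLV.gc
  have hbVV := hLV.mem
  have hαV : α ∈ V := ord_LC hMV hbV hαV0 hαo
  have hαωV : Inj V α ZFSet.omega := ⟨b, hbVV, hb⟩
  obtain ⟨T, hT, hTt, hbT, hTω, hωT⟩ := exists_T hZV hgV hbVV hαV hαo hbs hαωV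
  have hVV0 : V ⊆ π.V := LC_subset hMV hbV
  -- the large model
  set A : ZFSet.{0} := b ∪ ZFSet.prod {α} c with hA
  have hAW0 : A ∈ π.W := hMW.union_mem (π.V_subset_W hbV)
    (hMW.prod_mem (hMW.single_mem hαW0) hcW0)
  have hAs : A ⊆ ZFSet.prod (sc α) ZFSet.omega := by
    intro p hp
    rcases ZFSet.mem_union.1 hp with hp | hp
    · exact hbs hp
    · obtain ⟨u, hu, w, hw, rfl⟩ := ZFSet.mem_prod.1 hp
      rw [ZFSet.mem_singleton] at hu
      exact ZFSet.pair_mem_prod.2 ⟨hu ▸ ZFSet.mem_insert _ _, hcω hw⟩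
  set W : Set ZFSet.{0} := LC π.W A with hW
  have hLW : IsLA A W := isLA_of_sub hMW hAW0 hαW0 hαo hAs
  have hZW := hLW.zf
  have hgW := hLW.gc
  have hAW := hLW.mem
  have hαW : α ∈ W := ord_LC hMW hAW0 hαW0 hαo
  have hWW0 : W ⊆ π.W := LC_subset hMW hAW0
  have hBW' := hZW.base
  have hbW : b ∈ W := by
    have h2 : ZFSet.sep (fun p => fs p ∈ α) A = b := by
      ext p
      rw [ZFSet.mem_sep, hA, ZFSet.mem_union]
      constructor
      · rintro ⟨hp | hp, h3⟩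
        · exact hp
        · obtain ⟨u, hu, w, hw, rfl⟩ := ZFSet.mem_prod.1 hp
          rw [ZFSet.mem_singleton] at hu
          rw [fs_pair, hu] at h3
          exact absurd h3 (ZFSet.mem_irrefl _)
      · intro hp
        obtain ⟨u, hu, w, hw, rfl⟩ := ZFSet.mem_prod.1 (hb.1.1 hp)
        rw [fs_pair]
        exact ⟨Or.inl hp, hu⟩
    rw [← h2]
    exact hZW.sep_mem (Q := fun p => fs p ∈ α)
      (Dfn.mem (hZW.fs' (DfnF.proj 0)) (DfnF.const hαW)) hAW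
  have hcW : c ∈ W := by
    have h2 : ZFSet.sep (fun n => pair α n ∈ A) ZFSet.omega = c := by
      ext n
      rw [ZFSet.mem_sep, hA, ZFSet.mem_union]
      constructor
      · rintro ⟨hn, hp | hp⟩
        · exact absurd (ZFSet.pair_mem_prod.1 (hb.1.1 hp)).1 (ZFSet.mem_irrefl _)
        · exact (ZFSet.pair_mem_prod.1 hp).2
      · intro hn
        exact ⟨hcω hn, Or.inr (ZFSet.pair_mem_prod.2 ⟨ZFSet.mem_singleton.2 rfl, hn⟩)⟩
    rw [← h2]
    exact hZW.sep_mem (Q := fun n => pair α n ∈ A)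
      (Dfn.mem (hBW'.pair' (DfnF.const hαW) (DfnF.proj 0)) (DfnF.const hAW)) hZW.infinity
  have hVW : V ⊆ W := by
    rintro x ⟨ξ, h2, h3, h4⟩
    have h5 : ξ ∈ W := ord_LC hMW hAW0 (π.V_subset_W h2) h3
    exact hZW.trans _ (Lv_mem_M hZW hbW h5) _ h4
  have hord : ∀ x : ZFSet.{0}, x.IsOrdinal → (x ∈ V ↔ x ∈ W) := by
    intro x hx
    exact ⟨fun h => hVW h, fun h => ord_LC hMV hbV (π.ord_V hx (hWW0 h)) hx⟩
  obtain ⟨T', hT', hTt', hbT', hTω', -⟩ := exists_T hZW hgW hAW hαW hαo hAs ⟨b, hbW, hb⟩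
  -- the parameters of the sentence
  obtain ⟨i, hi, hib⟩ := exists_enum hZV hT hTω hωT
  obtain ⟨-, i2, -⟩ := bij_ap hib
  obtain ⟨a, ha, hab⟩ := i2 b hbT
  obtain ⟨J, hJ, hJi⟩ := sq_inj hZV hZV.infinity isOrdinal_omega fun _ h => h
  have hEV : E0 i ∈ V := E0_mem hZV hi
  have haV : a ∈ V := hZV.trans _ hZV.infinity _ ha
  obtain ⟨Pw, hPw, hPw'⟩ := hZV.power _ (hZV.prod_mem hZV.infinity hZV.infinity)
  obtain ⟨Pw2, hPw2, hPw2'⟩ := hZW.power _ (hZW.prod_mem hZW.infinity hZW.infinity)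
  obtain ⟨P, hP, hP'⟩ := hZV.power _ hZV.infinity
  have hGV : GCH V := gch_of_isLA hLV hT hTt hbT hTω
  have hGW : GCH W := gch_of_isLA hLW hT' hTt' hbT' hTω'
  refine ⟨V, W, π.countable_W.mono (hVW.trans hWW0), π.countable_W.mono hWW0,
    isZFC_of_gc hZV hgV, isZFC_of_gc hZW hgW, hGV, hGW, hVW, hord, hαV, ⟨b, hbVV, hb⟩,
    exists_isAleph hZV hαV hαo, exists_isAleph hZW hαW hαo,
    cdB J (E0 i) a (fPhi psi0) Fin.elim0, cdB_mem hZV hJ hEV haV _,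
    isSentence_cdB hZV hJ hEV haV hJi _, isSentence_cdB hZW (hVW hJ) (hVW hEV) (hVW haV) hJi _,
    ?_, ?_⟩
  · intro κ hκ
    refine ⟨exists_modK hZV hJ hEV haV hJi hκ.1, ?_⟩
    have hPκ : Inj V Pw κ := Inj.trans hZV hPw hκ.1.1.1 (pow_inj hZV hJ hJi hP hP' hPw hPw')
      (aleph_pow hZV hGV hα0 hκ hP hP')
    exact not_ap hZV hgV hJ hEV haV hJi hPw hPw' hκ.1 hPκ
      (st_true hLV hT hTt hbT hTω hωT hi hib ha hab hPw')
  · intro κ hκ
    refine ⟨exists_modK hZW (hVW hJ) (hVW hEV) (hVW haV) hJi hκ.1, ?_⟩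
    refine ap_of_not hZW hgW (hVW hJ) (hVW hEV) (hVW haV) hJi hPw2 hPw2' hκ.1 ?_
    intro hSt
    obtain ⟨ξ, h2, h3, h4⟩ := st_imp hZW hTt (hVW hi) hib hab hPw2' hSt hcW
      (fun n hn => hωT (hcω hn))
    exact hcV0 (hVV0 ⟨ξ, π.ord_V h3 (hWW0 h2), h3, h4⟩)

end Pool.Agent.W868
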