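import Pool.Agent.W868.Defs

/-!
# Formulas of set theory with parameters, and truth in a transitive class of sets
-/

set_option autoImplicit false

namespace Pool.Agent.W868

universe u v

/-- Change of parameters. -/
def Fml.map {A : Type u} {B : Type v} (f : A → B) : {n : ℕ} → Fml A n → Fml B n
  | _, .mem s t => .mem (Sum.map id f s) (Sum.map id f t)
  | _, .eq s t => .eq (Sum.map id f s) (Sum.map id f t)
  | _, .neg φ => .neg (φ.map f)
  | _, .and φ ψ => .and (φ.map f) (ψ.map f)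
  | _, .ex φ => .ex (φ.map f)

section basic

variable {A : Type u} {B : Type v}

theorem TOver.inl {S : Set A} {n : ℕ} (i : Fin n) : TOver S (Sum.inl i : Fin n ⊕ A) := by
  intro a h
  cases h

theorem tOver_inr {S : Set A} {n : ℕ} {a : A} : TOver S (Sum.inr a : Fin n ⊕ A) ↔ a ∈ S := by
  constructor
  · intro h
    exact h a rfl
  · intro h b hb
    cases hb
    exact h

theorem TOver.mono {S T : Set A} (h : S ⊆ T) {n : ℕ} {s : Fin n ⊕ A} (hs : TOver S s) :
    TOver T s := fun a ha => h (hs a ha)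

theorem Fml.Over.mono {S T : Set A} (h : S ⊆ T) : {n : ℕ} → {φ : Fml A n} → φ.Over S → φ.Over T
  | _, .mem _ _, hφ => ⟨hφ.1.mono h, hφ.2.mono h⟩
  | _, .eq _ _, hφ => ⟨hφ.1.mono h, hφ.2.mono h⟩
  | _, .neg φ, hφ => Fml.Over.mono (φ := φ) h hφ
  | _, .and φ ψ, hφ => ⟨Fml.Over.mono (φ := φ) h hφ.1, Fml.Over.mono (φ := ψ) h hφ.2⟩
  | _, .ex φ, hφ => Fml.Over.mono (φ := φ) h hφ

theorem elim_map {n : ℕ} (f : A → B) (i : B → ZFSet.{0}) (v : Fin n → ZFSet.{0})
    (s : Fin n ⊕ A) : Sum.elim v i (Sum.map id f s) = Sum.elim v (i ∘ f) s := by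
  cases s <;> rfl

theorem sat_map (M : Set ZFSet.{0}) (f : A → B) (i : B → ZFSet.{0}) : {n : ℕ} →
    (φ : Fml A n) → (v : Fin n → ZFSet.{0}) → (Sat M i (φ.map f) v ↔ Sat M (i ∘ f) φ v)
  | _, .mem s t, v => by simp only [Fml.map, Sat, elim_map]
  | _, .eq s t, v => by simp only [Fml.map, Sat, elim_map]
  | _, .neg φ, v => by simp only [Fml.map, Sat, sat_map M f i φ]
  | _, .and φ ψ, v => by simp only [Fml.map, Sat, sat_map M f i φ, sat_map M f i ψ]
  | _, .ex φ, v => by simp only [Fml.map, Sat, sat_map M f i φ]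

theorem elim_congr {S : Set A} {i j : A → ZFSet.{0}} (h : ∀ a ∈ S, i a = j a) {n : ℕ}
    {s : Fin n ⊕ A} (hs : TOver S s) (v : Fin n → ZFSet.{0}) :
    Sum.elim v i s = Sum.elim v j s := by
  cases s with
  | inl k => rfl
  | inr a => exact h a (hs a rfl)

theorem sat_congr (M : Set ZFSet.{0}) {S : Set A} {i j : A → ZFSet.{0}}
    (h : ∀ a ∈ S, i a = j a) : {n : ℕ} → (φ : Fml A n) → φ.Over S → (v : Fin n → ZFSet.{0}) →
    (Sat M i φ v ↔ Sat M j φ v)
  | _, .mem s t, hφ, v => by simp only [Sat, elim_congr h hφ.1, elim_congr h hφ.2]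
  | _, .eq s t, hφ, v => by simp only [Sat, elim_congr h hφ.1, elim_congr h hφ.2]
  | _, .neg φ, hφ, v => by simp only [Sat, sat_congr M h φ hφ]
  | _, .and φ ψ, hφ, v => by simp only [Sat, sat_congr M h φ hφ.1, sat_congr M h ψ hφ.2]
  | _, .ex φ, hφ, v => by simp only [Sat, sat_congr M h φ hφ]

theorem tOver_map {S : Set B} (f : A → B) {n : ℕ} {s : Fin n ⊕ A} :
    TOver S (Sum.map id f s) ↔ TOver (f ⁻¹' S) s := by
  cases s with
  | inl k => exact ⟨fun _ => TOver.inl k, fun _ => TOver.inl k⟩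
  | inr a =>
    change TOver S (Sum.inr (f a) : Fin n ⊕ B) ↔ _
    rw [tOver_inr, tOver_inr]
    rfl

theorem over_map {S : Set B} (f : A → B) : {n : ℕ} → (φ : Fml A n) →
    ((φ.map f).Over S ↔ φ.Over (f ⁻¹' S))
  | _, .mem s t => by simp only [Fml.map, Fml.Over, tOver_map]
  | _, .eq s t => by simp only [Fml.map, Fml.Over, tOver_map]
  | _, .neg φ => by simp only [Fml.map, Fml.Over, over_map f φ]
  | _, .and φ ψ => by simp only [Fml.map, Fml.Over, over_map f φ, over_map f ψ]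
  | _, .ex φ => by simp only [Fml.map, Fml.Over, over_map f φ]

theorem map_map {C : Type*} (f : A → B) (g : B → C) : {n : ℕ} → (φ : Fml A n) →
    (φ.map f).map g = φ.map (g ∘ f)
  | _, .mem s t => by simp [Fml.map]
  | _, .eq s t => by simp [Fml.map]
  | _, .neg φ => by simp [Fml.map, map_map f g φ]
  | _, .and φ ψ => by simp [Fml.map, map_map f g φ, map_map f g ψ]
  | _, .ex φ => by simp [Fml.map, map_map f g φ]

theorem map_id' : {n : ℕ} → (φ : Fml A n) → φ.map id = φ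
  | _, .mem s t => by simp [Fml.map]
  | _, .eq s t => by simp [Fml.map]
  | _, .neg φ => by simp [Fml.map, map_id' φ]
  | _, .and φ ψ => by simp [Fml.map, map_id' φ, map_id' ψ]
  | _, .ex φ => by simp [Fml.map, map_id' φ]

theorem map_left_inverse {f : A → B} {g : B → A} (h : ∀ a, g (f a) = a) {n : ℕ} (φ : Fml A n) :
    (φ.map f).map g = φ := by
  rw [map_map, show g ∘ f = id from funext h, map_id']

/-! ### Countability -/

/-- The depth of a formula. -/
def Fml.depth : {n : ℕ} → Fml A n → ℕ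
  | _, .mem _ _ => 0
  | _, .eq _ _ => 0
  | _, .neg φ => φ.depth + 1
  | _, .and φ ψ => max φ.depth ψ.depth + 1
  | _, .ex φ => φ.depth + 1

theorem countable_terms {S : Set A} (hS : S.Countable) (n : ℕ) :
    {s : Fin n ⊕ A | TOver S s}.Countable := by
  have h : {s : Fin n ⊕ A | TOver S s} ⊆ Set.range (Sum.inl : Fin n → Fin n ⊕ A) ∪
      Sum.inr '' S := by
    rintro (k | a) hs
    · exact Or.inl ⟨k, rfl⟩
    · exact Or.inr ⟨a, hs a rfl, rfl⟩
  exact ((Set.countable_range _).union (hS.image _)).mono h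

theorem countable_depth {S : Set A} (hS : S.Countable) (k : ℕ) : ∀ n,
    {φ : Fml A n | φ.Over S ∧ φ.depth ≤ k}.Countable := by
  induction k with
  | zero =>
    intro n
    have h : {φ : Fml A n | φ.Over S ∧ φ.depth ≤ 0} ⊆
        (fun p : (Fin n ⊕ A) × (Fin n ⊕ A) => Fml.mem p.1 p.2) ''
          ({s | TOver S s} ×ˢ {s | TOver S s}) ∪
        (fun p : (Fin n ⊕ A) × (Fin n ⊕ A) => Fml.eq p.1 p.2) ''
          ({s | TOver S s} ×ˢ {s | TOver S s}) := by
      rintro φ ⟨h1, h2⟩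
      cases φ with
      | mem s t => exact Or.inl ⟨(s, t), ⟨h1.1, h1.2⟩, rfl⟩
      | eq s t => exact Or.inr ⟨(s, t), ⟨h1.1, h1.2⟩, rfl⟩
      | neg φ => simp [Fml.depth] at h2
      | and φ ψ => simp [Fml.depth] at h2
      | ex φ => simp [Fml.depth] at h2
    have hc := (countable_terms hS n).prod (countable_terms hS n)
    exact ((hc.image _).union (hc.image _)).mono h
  | succ k ih =>
    intro n
    have h : {φ : Fml A n | φ.Over S ∧ φ.depth ≤ k + 1} ⊆
        {φ : Fml A n | φ.Over S ∧ φ.depth ≤ k} ∪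
        (Fml.neg '' {φ : Fml A n | φ.Over S ∧ φ.depth ≤ k} ∪
        ((fun p : Fml A n × Fml A n => Fml.and p.1 p.2) ''
          ({φ : Fml A n | φ.Over S ∧ φ.depth ≤ k} ×ˢ {φ : Fml A n | φ.Over S ∧ φ.depth ≤ k}) ∪
        Fml.ex '' {φ : Fml A (n + 1) | φ.Over S ∧ φ.depth ≤ k})) := by
      rintro φ ⟨h1, h2⟩
      cases φ with
      | mem s t => exact Or.inl ⟨h1, Nat.zero_le _⟩
      | eq s t => exact Or.inl ⟨h1, Nat.zero_le _⟩
      | neg φ =>
        refine Or.inr (Or.inl ⟨φ, ⟨h1, ?_⟩, rfl⟩)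
        simpa [Fml.depth] using h2
      | and φ ψ =>
        refine Or.inr (Or.inr (Or.inl ⟨(φ, ψ), ⟨⟨h1.1, ?_⟩, ⟨h1.2, ?_⟩⟩, rfl⟩))
        · have h3 : max φ.depth ψ.depth + 1 ≤ k + 1 := h2
          exact (le_max_left _ _).trans (Nat.le_of_succ_le_succ h3)
        · have h3 : max φ.depth ψ.depth + 1 ≤ k + 1 := h2
          exact (le_max_right _ _).trans (Nat.le_of_succ_le_succ h3)
      | ex φ =>
        refine Or.inr (Or.inr (Or.inr ⟨φ, ⟨h1, ?_⟩, rfl⟩))
        simpa [Fml.depth] using h2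
    exact ((ih n).union (((ih n).image _).union
      ((((ih n).prod (ih n)).image _).union ((ih (n + 1)).image _)))).mono h

theorem countable_fml {S : Set A} (hS : S.Countable) (n : ℕ) :
    {φ : Fml A n | φ.Over S}.Countable := by
  have h : {φ : Fml A n | φ.Over S} = ⋃ k, {φ : Fml A n | φ.Over S ∧ φ.depth ≤ k} := by
    ext φ
    simp only [Set.mem_ofPred_eq, Set.mem_iUnion]
    exact ⟨fun h => ⟨φ.depth, h, le_rfl⟩, fun ⟨_, h, _⟩ => h⟩
  rw [h]
  exact Set.countable_iUnion fun k => countable_depth hS k n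

theorem tOver_iUnion {S : ℕ → Set A} {n : ℕ} {s : Fin n ⊕ A}
    (h : TOver (⋃ k, S k) s) : ∃ k, TOver (S k) s := by
  cases s with
  | inl i => exact ⟨0, TOver.inl i⟩
  | inr a =>
    obtain ⟨k, hk⟩ := Set.mem_iUnion.1 (h a rfl)
    exact ⟨k, tOver_inr.2 hk⟩

theorem over_iUnion {S : ℕ → Set A} (hS : Monotone S) : {n : ℕ} → (φ : Fml A n) →
    φ.Over (⋃ k, S k) → ∃ k, φ.Over (S k)
  | _, .mem s t, h => by
    obtain ⟨k, hk⟩ := tOver_iUnion h.1
    obtain ⟨l, hl⟩ := tOver_iUnion h.2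
    exact ⟨max k l, hk.mono (hS (le_max_left _ _)), hl.mono (hS (le_max_right _ _))⟩
  | _, .eq s t, h => by
    obtain ⟨k, hk⟩ := tOver_iUnion h.1
    obtain ⟨l, hl⟩ := tOver_iUnion h.2
    exact ⟨max k l, hk.mono (hS (le_max_left _ _)), hl.mono (hS (le_max_right _ _))⟩
  | _, .neg φ, h => over_iUnion hS φ h
  | _, .and φ ψ, h => by
    obtain ⟨k, hk⟩ := over_iUnion hS φ h.1
    obtain ⟨l, hl⟩ := over_iUnion hS ψ h.2
    exact ⟨max k l, Fml.Over.mono (φ := φ) (hS (le_max_left _ _)) hk,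
      Fml.Over.mono (φ := ψ) (hS (le_max_right _ _)) hl⟩
  | _, .ex φ, h => over_iUnion hS φ h

end basic

end Pool.Agent.W868
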