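import Pool.Agent.W868.Defs

/-!
# Amalgamation in aleph_alpha: the definitions

This file uses the definitions of `Pool.Agent.W868.Defs`: transitive models of ZFC, formulas of
the infinitary logic with countable conjunctions in the vocabulary of the unary predicate
symbols `P k` for `k ∈ ω`, their models and embeddings, everything evaluated in a transitive
model `M` of set theory.
-/

set_option autoImplicit false

namespace Pool.Agent.W868

open ZFSet (pair)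

/-- `κ` is a cardinal of `M`: an ordinal of `M` that has no injection into a smaller ordinal
in `M`. -/
def IsCard (M : Set ZFSet.{0}) (κ : ZFSet.{0}) : Prop :=
  κ ∈ M ∧ κ.IsOrdinal ∧ ∀ β ∈ κ, ¬ ∃ f ∈ M, IsInj κ β f

/-- `κ` is an infinite cardinal of `M`. -/
def IsInfCard (M : Set ZFSet.{0}) (κ : ZFSet.{0}) : Prop := IsCard M κ ∧ ZFSet.omega ⊆ κ

/-- `κ` is the next cardinal after `μ` in `M`. -/
def IsNextCard (M : Set ZFSet.{0}) (μ κ : ZFSet.{0}) : Prop :=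
  IsCard M κ ∧ μ ∈ κ ∧ ∀ ν ∈ κ, IsCard M ν → ν ∈ μ ∨ ν = μ

/-- The generalized continuum hypothesis holds in `M`: for every infinite cardinal `μ` of `M`,
the power set `P` of `μ` in `M` has in `M` the same size as the next cardinal after `μ`. -/
def GCH (M : Set ZFSet.{0}) : Prop :=
  ∀ μ κ P, IsInfCard M μ → IsNextCard M μ κ → P ∈ M → (∀ z, z ∈ P ↔ z ∈ M ∧ z ⊆ μ) →
    ∃ f ∈ M, IsBij P κ f

/-- `κ` is the cardinal `ℵ_α` of `M`: it is an infinite cardinal of `M`, and there is in `M` an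
order isomorphism `f` of `α` onto the set `s` of the infinite cardinals of `M` that are smaller
than `κ`. -/
def IsAleph (M : Set ZFSet.{0}) (α κ : ZFSet.{0}) : Prop :=
  IsInfCard M κ ∧ ∃ s ∈ M, (∀ ν, ν ∈ s ↔ ν ∈ κ ∧ IsInfCard M ν) ∧ ∃ f ∈ M, IsBij α s f ∧
    ∀ β γ ν ρ, pair β ν ∈ f → pair γ ρ ∈ f → (β ∈ γ ↔ ν ∈ ρ)

/-- In `M`, the structure `(D, c)` is a model of the sentence `φ` of size `κ`. -/
def ModK (M : Set ZFSet.{0}) (κ φ D c : ZFSet.{0}) : Prop :=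
  D ∈ M ∧ c ∈ M ∧ (∃ f ∈ M, IsBij D κ f) ∧ Models M D c φ

/-- In `M`, the models of `φ` of size `κ` satisfy amalgamation: for all models `(D₀, c₀)`,
`(D₁, c₁)`, `(D₂, c₂)` of `φ` of size `κ` and all embeddings `f₁`, `f₂` of `(D₀, c₀)` into
`(D₁, c₁)` and into `(D₂, c₂)` there are a model `(D, c)` of `φ` of size `κ` and embeddings `g₁`,
`g₂` of `(D₁, c₁)` and `(D₂, c₂)` into `(D, c)` such that `g₁ ∘ f₁ = g₂ ∘ f₂`. -/
def AP (M : Set ZFSet.{0}) (κ φ : ZFSet.{0}) : Prop :=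
  ∀ D₀ c₀ D₁ c₁ D₂ c₂ f₁ f₂, ModK M κ φ D₀ c₀ → ModK M κ φ D₁ c₁ → ModK M κ φ D₂ c₂ →
    f₁ ∈ M → f₂ ∈ M → IsEmb D₀ c₀ D₁ c₁ f₁ → IsEmb D₀ c₀ D₂ c₂ f₂ →
      ∃ D c g₁ g₂, ModK M κ φ D c ∧ g₁ ∈ M ∧ g₂ ∈ M ∧ IsEmb D₁ c₁ D c g₁ ∧
        IsEmb D₂ c₂ D c g₂ ∧
        ∀ x a b y z, pair x a ∈ f₁ → pair x b ∈ f₂ → pair a y ∈ g₁ → pair b z ∈ g₂ → y = z

end Pool.Agent.W868
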