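import Pool.Agent.W868.Im

/-!
# Definition by recursion in a transitive model
-/

set_option autoImplicit false
set_option linter.unreachableTactic false
set_option linter.unusedTactic false

namespace Pool.Agent.W868

open ZFSet (pair)

/-- The restriction of a class function to a set. -/
noncomputable def gr (F : ZFSet.{0} → ZFSet.{0}) (x : ZFSet.{0}) : ZFSet.{0} :=
  im (fun u => pair u (F u)) x

theorem mem_gr {F : ZFSet.{0} → ZFSet.{0}} {x p : ZFSet.{0}} :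
    p ∈ gr F x ↔ ∃ u ∈ x, p = pair u (F u) := mem_im

theorem pair_mem_gr {F : ZFSet.{0} → ZFSet.{0}} {x u y : ZFSet.{0}} :
    pair u y ∈ gr F x ↔ u ∈ x ∧ y = F u := by
  rw [mem_gr]
  constructor
  · rintro ⟨u', h, h'⟩
    obtain ⟨rfl, rfl⟩ := ZFSet.pair_inj.1 h'
    exact ⟨h, rfl⟩
  · rintro ⟨h, rfl⟩
    exact ⟨u, h, rfl⟩

/-- The function defined by recursion. The set `pr z` is the set of the predecessors of `z`. -/
noncomputable def wfF (pr : ZFSet.{0} → ZFSet.{0}) (hwf : WellFounded fun u z => u ∈ pr z)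
    (G : ZFSet.{0} → ZFSet.{0} → ZFSet.{0}) : ZFSet.{0} → ZFSet.{0} :=
  hwf.fix fun z r => G z (ZFSet.range fun p : pr z => pair p.1 (r p.1 p.2))

theorem wfF_eq (pr : ZFSet.{0} → ZFSet.{0}) (hwf : WellFounded fun u z => u ∈ pr z)
    (G : ZFSet.{0} → ZFSet.{0} → ZFSet.{0}) (z : ZFSet.{0}) :
    wfF pr hwf G z = G z (gr (wfF pr hwf G) (pr z)) := by
  rw [wfF, hwf.fix_eq]
  rfl

section recursion

variable {M : Set ZFSet.{0}} (hM : IsZF M) {pr F : ZFSet.{0} → ZFSet.{0}}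
  {G : ZFSet.{0} → ZFSet.{0} → ZFSet.{0}}

/-- `k` is a part of the function that is to be defined, closed under predecessors. -/
def Approx (M : Set ZFSet.{0}) (pr : ZFSet.{0} → ZFSet.{0})
    (G : ZFSet.{0} → ZFSet.{0} → ZFSet.{0}) (k : ZFSet.{0}) : Prop :=
  ∀ p ∈ k, ∃ u ∈ M, ∃ y ∈ M, p = pair u y ∧ ∃ g ∈ M,
    (∀ q ∈ g, q ∈ k ∧ ∃ u' ∈ pr u, ∃ y' ∈ M, q = pair u' y') ∧
    (∀ u' ∈ pr u, ∃ y' ∈ M, pair u' y' ∈ g) ∧
    y = G u g

theorem approx_eq (hwf : WellFounded fun u z => u ∈ pr z)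
    (hF : ∀ z, F z = G z (gr F (pr z))) {k : ZFSet.{0}} (hk : Approx M pr G k) :
    ∀ z, ∀ y, pair z y ∈ k → y = F z ∧ ∀ u ∈ pr z, ∃ y', pair u y' ∈ k := by
  intro z
  induction z using hwf.induction with
  | _ z ih =>
  intro y hy
  obtain ⟨u, -, y1, -, h1, g, -, h2, h3, h4⟩ := hk _ hy
  obtain ⟨rfl, rfl⟩ := ZFSet.pair_inj.1 h1
  have h5 : g = gr F (pr z) := by
    ext q
    rw [mem_gr]
    constructor
    · intro hq
      obtain ⟨h6, u', hu', y', -, rfl⟩ := h2 q hq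
      exact ⟨u', hu', by rw [(ih u' hu' y' h6).1]⟩
    · rintro ⟨u', hu', rfl⟩
      obtain ⟨y', -, hy'⟩ := h3 u' hu'
      rwa [(ih u' hu' y' (h2 _ hy').1).1] at hy'
  refine ⟨by rw [h4, h5, ← hF], fun u hu => ?_⟩
  obtain ⟨y', -, hy'⟩ := h3 u hu
  exact ⟨y', (h2 _ hy').1⟩

/-- The restriction of `F` to the closure of `{z}` under predecessors. -/
noncomputable def rcl (pr : ZFSet.{0} → ZFSet.{0}) (hwf : WellFounded fun u z => u ∈ pr z)
    (F : ZFSet.{0} → ZFSet.{0}) : ZFSet.{0} → ZFSet.{0} :=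
  wfF pr hwf fun z g => insert (pair z (F z)) (ZFSet.sUnion (im sn g))

theorem mem_rcl {hwf : WellFounded fun u z => u ∈ pr z} {z p : ZFSet.{0}} :
    p ∈ rcl pr hwf F z ↔ p = pair z (F z) ∨ ∃ u ∈ pr z, p ∈ rcl pr hwf F u := by
  rw [rcl, wfF_eq, ← rcl, ZFSet.mem_insert_iff, ZFSet.mem_sUnion]
  refine or_congr Iff.rfl ?_
  constructor
  · rintro ⟨w, hw, hp⟩
    obtain ⟨q, hq, rfl⟩ := mem_im.1 hw
    obtain ⟨u, hu, rfl⟩ := mem_gr.1 hq
    rw [sn_pair] at hp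
    exact ⟨u, hu, hp⟩
  · rintro ⟨u, hu, hp⟩
    exact ⟨_, mem_im.2 ⟨_, mem_gr.2 ⟨u, hu, rfl⟩, (sn_pair _ _).symm⟩, hp⟩

theorem rcl_eq {hwf : WellFounded fun u z => u ∈ pr z} (z : ZFSet.{0}) :
    rcl pr hwf F z = insert (pair z (F z)) (ZFSet.sUnion (im (rcl pr hwf F) (pr z))) := by
  ext p
  rw [mem_rcl, ZFSet.mem_insert_iff, ZFSet.mem_sUnion]
  refine or_congr Iff.rfl ?_
  constructor
  · rintro ⟨u, hu, hp⟩
    exact ⟨_, mem_im.2 ⟨u, hu, rfl⟩, hp⟩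
  · rintro ⟨w, hw, hp⟩
    obtain ⟨u, hu, rfl⟩ := mem_im.1 hw
    exact ⟨u, hu, hp⟩

theorem rcl_form (hwf : WellFounded fun u z => u ∈ pr z) (z : ZFSet.{0}) :
    ∀ p ∈ rcl pr hwf F z, ∃ u, p = pair u (F u) := by
  induction z using hwf.induction with
  | _ z ih =>
  intro p hp
  rcases mem_rcl.1 hp with rfl | ⟨u, hu, hp⟩
  · exact ⟨z, rfl⟩
  · exact ih u hu p hp

theorem rcl_self {hwf : WellFounded fun u z => u ∈ pr z} (z : ZFSet.{0}) :
    pair z (F z) ∈ rcl pr hwf F z := mem_rcl.2 (Or.inl rfl)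

theorem rcl_closed (hwf : WellFounded fun u z => u ∈ pr z) (z : ZFSet.{0}) :
    ∀ u y, pair u y ∈ rcl pr hwf F z → ∀ u' ∈ pr u, pair u' (F u') ∈ rcl pr hwf F z := by
  induction z using hwf.induction with
  | _ z ih =>
  intro u y hu u' hu'
  rcases mem_rcl.1 hu with h | ⟨w, hw, hp⟩
  · obtain ⟨rfl, -⟩ := ZFSet.pair_inj.1 h
    exact mem_rcl.2 (Or.inr ⟨u', hu', rcl_self u'⟩)
  · exact mem_rcl.2 (Or.inr ⟨w, hw, ih w hw u y hp u' hu'⟩)

theorem rcl_min (hwf : WellFounded fun u z => u ∈ pr z) (hF : ∀ z, F z = G z (gr F (pr z)))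
    {k : ZFSet.{0}} (hk : Approx M pr G k) :
    ∀ z, (∃ y, pair z y ∈ k) → rcl pr hwf F z ⊆ k := by
  intro z
  induction z using hwf.induction with
  | _ z ih =>
  rintro ⟨y, hy⟩ p hp
  obtain ⟨h1, h2⟩ := approx_eq hwf hF hk z y hy
  rcases mem_rcl.1 hp with rfl | ⟨u, hu, hp⟩
  · exact h1 ▸ hy
  · exact ih u hu (h2 u hu) hp

include hM

theorem dfn_approx (hpr : DfnF M M fun w : Fin 1 → ZFSet.{0} => pr (w 0))
    (hG : DfnF M M fun w : Fin 2 → ZFSet.{0} => G (w 0) (w 1)) :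
    Dfn M M fun w : Fin 1 → ZFSet.{0} => Approx M pr G (w 0) := by
  have hB := hM.base
  unfold Approx
  (repeat' first
      | assumption
      | exact DfnF.proj _
      | apply Dfn.not | apply Dfn.and | apply Dfn.or | apply Dfn.imp | apply Dfn.iff
      | apply hB.bex | apply hB.ball | apply Dfn.ex | apply Dfn.all
      | apply Dfn.eq | apply Dfn.mem | apply hB.pair'
      | exact DfnF.comp1 (f := pr) hpr (DfnF.proj _)
      | exact DfnF.comp2 (f := G) hG (DfnF.proj _) (DfnF.proj _))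

theorem rec_aux (hwf : WellFounded fun u z => u ∈ pr z)
    (hpr : DfnF M M fun w : Fin 1 → ZFSet.{0} => pr (w 0))
    (hG : DfnF M M fun w : Fin 2 → ZFSet.{0} => G (w 0) (w 1))
    (hF : ∀ z, F z = G z (gr F (pr z))) (z : ZFSet.{0}) (hz : z ∈ M) :
    rcl pr hwf F z ∈ M ∧ Approx M pr G (rcl pr hwf F z) := by
  have hB := hM.base
  induction z using hwf.induction with
  | _ z ih =>
  have hpz : pr z ∈ M := hpr.1 (fun _ => z) fun _ => hz
  have ih1 : ∀ u ∈ pr z, rcl pr hwf F u ∈ M ∧ Approx M pr G (rcl pr hwf F u) := fun u hu =>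
    ih u hu (hM.trans _ hpz _ hu)
  -- the family of these sets is in M
  have hd : Dfn M M fun w : Fin 2 → ZFSet.{0} => Approx M pr G (w 1) ∧
      (∃ y ∈ M, pair (w 0) y ∈ w 1) ∧ ∀ k ∈ M, Approx M pr G k → (∃ y ∈ M, pair (w 0) y ∈ k) →
        w 1 ⊆ k := by
    have ha := dfn_approx hM hpr hG
    apply Dfn.and
    · exact Dfn.comp1 (Q := Approx M pr G) ha (DfnF.proj 1)
    apply Dfn.and
    · (repeat' first
      | exact DfnF.proj _
      | apply Dfn.ex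
      | apply Dfn.mem | apply hB.pair')
    apply Dfn.all
    apply Dfn.imp
    · exact Dfn.comp1 (Q := Approx M pr G) ha (DfnF.proj 0)
    (repeat' first
      | exact DfnF.proj _
      | apply Dfn.imp
      | apply Dfn.ex | apply hB.subset'
      | apply Dfn.mem | apply hB.pair')
  obtain ⟨φ, hφ, hφ'⟩ := hd
  have key : ∀ u ∈ pr z, ∀ w ∈ M, Sat M id φ ![u, w] ↔ w = rcl pr hwf F u := by
    intro u hu w hw
    have huM := hM.trans _ hpz _ hu
    rw [hφ' ![u, w] (by intro i; fin_cases i; exacts [huM, hw])]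
    obtain ⟨h1, h2⟩ := ih1 u hu
    have hFu : ∃ y ∈ M, pair u y ∈ rcl pr hwf F u :=
      ⟨F u, (hM.of_pair_mem (hM.trans _ h1 _ (rcl_self u))).2, rcl_self u⟩
    constructor
    · rintro ⟨h3, ⟨y, -, h4⟩, h5⟩
      apply ZFSet.ext
      intro p
      exact ⟨fun hp => h5 _ h1 h2 hFu hp, fun hp => rcl_min hwf hF h3 u ⟨y, h4⟩ hp⟩
    · rintro rfl
      exact ⟨h2, hFu, fun k _ hk ⟨y, _, hy⟩ => rcl_min hwf hF hk u ⟨y, hy⟩⟩
  obtain ⟨S, hS, hS'⟩ := hM.replacement φ hφ _ hpz (by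
    intro u hu
    exact ⟨rcl pr hwf F u, ⟨(ih1 u hu).1, (key u hu _ (ih1 u hu).1).2 rfl⟩,
      fun w hw => (key u hu w hw.1).1 hw.2⟩)
  have hS1 : S = im (rcl pr hwf F) (pr z) := by
    ext w
    rw [hS', mem_im]
    constructor
    · rintro ⟨hw, u, hu, h⟩
      exact ⟨u, hu, (key u hu w hw).1 h⟩
    · rintro ⟨u, hu, rfl⟩
      exact ⟨(ih1 u hu).1, u, hu, (key u hu _ (ih1 u hu).1).2 rfl⟩
  have hU : ZFSet.sUnion S ∈ M := hM.union _ hS
  have hd2 : Dfn M M fun w : Fin 1 → ZFSet.{0} => ∃ u ∈ pr z, ∃ y ∈ M, w 0 = pair u y := by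
    have h1 := hpz
    (repeat' first
      | assumption
      | exact DfnF.proj _
      | exact DfnF.const (by assumption)
      | exact DfnF.const' (by first | assumption | trivial) (by first | assumption | trivial)
      | exact Dfn.prop _
      | apply Dfn.not | apply Dfn.and | apply Dfn.or | apply Dfn.imp | apply Dfn.iff
      | apply hB.bex | apply hB.ball | apply Dfn.ex | apply Dfn.all
      | apply Dfn.eq | apply Dfn.mem | apply hB.pair')
  have hgr : gr F (pr z) ∈ M := by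
    have h1 := hM.sep_mem (Q := fun p => ∃ u ∈ pr z, ∃ y ∈ M, p = pair u y) hd2 hU
    have h2 : ZFSet.sep (fun p => ∃ u ∈ pr z, ∃ y ∈ M, p = pair u y) (ZFSet.sUnion S) =
        gr F (pr z) := by
      ext p
      rw [ZFSet.mem_sep, mem_gr, ZFSet.mem_sUnion]
      constructor
      · rintro ⟨⟨w, hw, hp⟩, u, hu, y, -, rfl⟩
        rw [hS1, mem_im] at hw
        obtain ⟨u', hu', rfl⟩ := hw
        obtain ⟨u'', h3⟩ := rcl_form hwf _ _ hp
        obtain ⟨rfl, rfl⟩ := ZFSet.pair_inj.1 h3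
        exact ⟨u, hu, rfl⟩
      · rintro ⟨u, hu, rfl⟩
        have h3 := (hM.of_pair_mem (hM.trans _ (ih1 u hu).1 _ (rcl_self u))).2
        exact ⟨⟨rcl pr hwf F u, hS1 ▸ mem_im.2 ⟨u, hu, rfl⟩, rcl_self u⟩, u, hu, F u, h3, rfl⟩
    exact h2 ▸ h1
  have hFz : F z ∈ M := by
    rw [hF]
    exact hG.1 ![z, gr F (pr z)] (by intro i; fin_cases i; exacts [hz, hgr])
  have hcl : rcl pr hwf F z ∈ M := by
    rw [rcl_eq, ← hS1]
    exact hM.insert_mem (hM.pair_mem hz hFz) hU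
  refine ⟨hcl, fun p hp => ?_⟩
  rcases mem_rcl.1 hp with rfl | ⟨u, hu, hp'⟩
  · refine ⟨z, hz, F z, hFz, rfl, gr F (pr z), hgr, ?_, ?_, hF z⟩
    · intro q hq
      obtain ⟨u, hu, rfl⟩ := mem_gr.1 hq
      have h3 := (hM.of_pair_mem (hM.trans _ (ih1 u hu).1 _ (rcl_self u))).2
      exact ⟨mem_rcl.2 (Or.inr ⟨u, hu, rcl_self u⟩), u, hu, F u, h3, rfl⟩
    · intro u hu
      have h3 := (hM.of_pair_mem (hM.trans _ (ih1 u hu).1 _ (rcl_self u))).2
      exact ⟨F u, h3, mem_gr.2 ⟨u, hu, rfl⟩⟩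
  · obtain ⟨u', hu', y', hy', h1, g, hg, h2, h3⟩ := (ih1 u hu).2 p hp'
    exact ⟨u', hu', y', hy', h1, g, hg, fun q hq =>
      ⟨mem_rcl.2 (Or.inr ⟨u, hu, (h2 q hq).1⟩), (h2 q hq).2⟩, h3⟩

/-- The recursion theorem. -/
theorem IsZF.wfrec (hwf : WellFounded fun u z => u ∈ pr z)
    (hpr : DfnF M M fun w : Fin 1 → ZFSet.{0} => pr (w 0))
    (hG : DfnF M M fun w : Fin 2 → ZFSet.{0} => G (w 0) (w 1))
    (hF : ∀ z, F z = G z (gr F (pr z))) : DfnF M M fun w : Fin 1 → ZFSet.{0} => F (w 0) := by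
  have hB := hM.base
  have ha := dfn_approx hM hpr hG
  refine DfnF.of_unique (R := fun y v => ∃ k ∈ M, Approx M pr G k ∧ pair (v 0) y ∈ k) ?_ ?_
  · apply Dfn.ex
    apply Dfn.and
    · exact Dfn.comp1 (Q := Approx M pr G) ha (DfnF.proj 0)
    · (repeat' first
      | exact DfnF.proj _
      | apply Dfn.mem | apply hB.pair')
  · intro v hv
    obtain ⟨h1, h2⟩ := rec_aux hM hwf hpr hG hF (v 0) (hv 0)
    refine ⟨(hM.of_pair_mem (hM.trans _ h1 _ (rcl_self _))).2, fun y _ => ?_⟩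
    constructor
    · rintro ⟨k, -, h3, h4⟩
      exact (approx_eq hwf hF h3 _ _ h4).1
    · rintro rfl
      exact ⟨_, h1, h2, rcl_self _⟩

/-- Recursion along the membership relation. -/
theorem IsZF.memrec (hG : DfnF M M fun w : Fin 2 → ZFSet.{0} => G (w 0) (w 1))
    (hF : ∀ z, F z = G z (gr F z)) : DfnF M M fun w : Fin 1 → ZFSet.{0} => F (w 0) :=
  hM.wfrec (pr := fun z => z) ZFSet.mem_wf (DfnF.proj 0) hG hF

end recursion

end Pool.Agent.W868
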