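import Pool.Agent.W868.Hart

/-!
# The generalized continuum hypothesis
-/

set_option autoImplicit false
set_option linter.unreachableTactic false
set_option linter.unusedTactic false

namespace Pool.Agent.W868

open ZFSet (pair)

section

variable {A : ZFSet.{0}} {C : Set ZFSet.{0}} (hL : IsLA A C) {μ : ZFSet.{0}} (hμ : μ ∈ C)
  (hμo : μ.IsOrdinal) (hω : ZFSet.omega ⊆ μ)

include hL hμ hμo hω

theorem stepN_small {X : ZFSet.{0}} (hX : X ∈ C) (h : Inj C X μ) (k : ℕ) :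
    Inj C (stepN A X k) μ := by
  have hM := hL.zf
  have hB := hM.base
  have hg := hL.gc
  induction k with
  | zero => exact h
  | succ k ih =>
    have hX' : (insert X X : ZFSet.{0}) ∈ C := hM.insert_mem hX hX
    have h1 : Inj C (insert X X : ZFSet.{0}) μ := Inj.insert hM hg hμ hμo hω hX hX h
    have h2 : Inj C (ZFSet.prod (insert X X) (insert X X)) μ := Inj.pair_into hM hμ hμo hω hX' h1
    have h3 : stepN A X k ∈ C := (dfn_stepN hM hL.mem k).1 (fun _ => X) fun _ => hX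
    have h4 : DfnF C C fun w : Fin 1 → ZFSet.{0} =>
        ZFSet.sep (fun u => GR A k u (fs (w 0)) (sn (w 0))) X := by
      refine hM.sep' (Q := fun u w => GR A k u (fs (w 0)) (sn (w 0))) (DfnF.const hX) ?_
      exact dfn_GR hM hL.mem k (DfnF.proj 0) (hM.fs' (DfnF.proj 1)) (hM.sn' (DfnF.proj 1))
    have hp : ZFSet.prod (insert X X) (insert X X) ∈ C := hM.prod_mem hX' hX'
    have h5 : Inj C (im (fun p => ZFSet.sep (fun u => GR A k u (fs p) (sn p)) X)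
        (ZFSet.prod (insert X X) (insert X X))) μ := Inj.image hM hp hμ hμo h2 h4
    exact Inj.union hM hg hμ hμo hω h3 (hM.im_mem hp h4) ih h5

theorem step_small {X : ZFSet.{0}} (hX : X ∈ C) (h : Inj C X μ) : Inj C (step A X) μ :=
  stepN_small hL hμ hμo hω hX h 11

theorem Lv_small {ξ : ZFSet.{0}} (hξ : ξ ∈ C) (hξo : ξ.IsOrdinal) (h : Inj C ξ μ) :
    Inj C (Lv A ξ) μ := by
  have hM := hL.zf
  have hd : DfnF C C fun w : Fin 1 → ZFSet.{0} => step A (Lv A (w 0)) :=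
    DfnF.comp1 (f := step A) (dfn_step hM hL.mem) (dfn_Lv hM hL.mem)
  induction ξ using ZFSet.inductionOn with
  | _ ξ ih =>
  have h1 : Lv A ξ = ZFSet.sUnion (im (fun u => step A (Lv A u)) ξ) := by
    ext y
    rw [mem_Lv, ZFSet.mem_sUnion]
    constructor
    · rintro ⟨u, hu, h⟩
      exact ⟨_, mem_im.2 ⟨u, hu, rfl⟩, h⟩
    · rintro ⟨w, hw, h⟩
      obtain ⟨u, hu, rfl⟩ := mem_im.1 hw
      exact ⟨u, hu, h⟩
  rw [h1]
  refine Inj.iUnion hM hL.gc hμ hμo hω hξ h hd fun u hu => ?_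
  have huC := hM.trans _ hξ _ hu
  have h2 := ih u hu huC (hξo.mem hu) (inj_mono hM huC hξ hμ (hξo.subset_of_mem hu) h)
  exact step_small hL hμ hμo hω (Lv_mem_M hM hL.mem huC) h2

/-- The subsets of `μ` are in the levels of size `μ`. -/
theorem sub_level {T : ZFSet.{0}} (hT : T ∈ C) (hTt : ∀ x ∈ T, ∀ y ∈ x, y ∈ T) (hAT : A ∈ T)
    (hTω : Inj C T ZFSet.omega) {y : ZFSet.{0}} (hy : y ∈ C) (hyμ : y ⊆ μ) :
    ∃ ξ ∈ C, ξ.IsOrdinal ∧ Inj C ξ μ ∧ y ∈ Lv A ξ := by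
  have hM := hL.zf
  have hg := hL.gc
  have h1 : Inj C T μ := Inj.trans hM hT hμ hTω (Inj.of_subset hM hM.infinity hμ hω)
  have h2 : Inj C μ μ := Inj.of_subset hM hμ hμ fun _ h => h
  have hTμ := hM.union_mem hT hμ
  have h3 : Inj C (T ∪ μ) μ := Inj.union hM hg hμ hμo hω hT hμ h1 h2
  have h4 : Inj C (insert y (T ∪ μ) : ZFSet.{0}) μ := Inj.insert hM hg hμ hμo hω hy hTμ h3
  obtain ⟨N, hN, hNt, haN, hNμ, hΨ⟩ := condensation hL hμ hμo hω (hM.insert_mem hy hTμ) (by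
    intro x hx z hz
    rcases ZFSet.mem_insert_iff.1 hx with rfl | hx
    · exact ZFSet.mem_insert_of_mem _ (ZFSet.mem_union.2 (Or.inr (hyμ hz)))
    rcases ZFSet.mem_union.1 hx with hx | hx
    · exact ZFSet.mem_insert_of_mem _ (ZFSet.mem_union.2 (Or.inl (hTt x hx z hz)))
    · exact ZFSet.mem_insert_of_mem _ (ZFSet.mem_union.2 (Or.inr (hμo.mem_trans hz hx))))
    (ZFSet.mem_insert_of_mem _ (ZFSet.mem_union.2 (Or.inl hAT))) h4
  obtain ⟨f, hf, h5⟩ := hΨ y (haN (ZFSet.mem_insert _ _))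
  obtain ⟨ξ, X, h6, h7, h8⟩ := h5.spec
  have h9 : ξ ∈ N := by
    have h10 : pair ξ X ∈ N := hNt _ hf _ h6
    have h11 : ({ξ} : ZFSet.{0}) ∈ N := hNt _ h10 _ (by simp [pair])
    exact hNt _ h11 _ (ZFSet.mem_singleton.2 rfl)
  have h10 : ξ ∈ C := hM.trans _ hN _ h9
  exact ⟨ξ, h10, h7, inj_mono hM h10 hN hμ (fun z hz => hNt _ h9 _ hz) hNμ, h8⟩

end

theorem gch_of_isLA {A : ZFSet.{0}} {C : Set ZFSet.{0}} (hL : IsLA A C) {T : ZFSet.{0}}
    (hT : T ∈ C) (hTt : ∀ x ∈ T, ∀ y ∈ x, y ∈ T) (hAT : A ∈ T) (hTω : Inj C T ZFSet.omega) :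
    GCH C := by
  intro μ κ P hμ hκ hP hP'
  have hM := hL.zf
  obtain ⟨⟨hμC, hμo, -⟩, hω⟩ := hμ
  have hκC := hκ.1.1
  have hκo := hκ.1.2.1
  have hμκ : μ ⊆ κ := hκo.subset_of_mem hκ.2.1
  have hωκ : ZFSet.omega ⊆ κ := fun _ h => hμκ (hω h)
  have hin := hκ.inj hM hμC hμo
  -- every subset of μ is in Lv A κ
  have h1 : P ⊆ Lv A κ := by
    intro y hy
    obtain ⟨hyC, hyμ⟩ := (hP' y).1 hy
    obtain ⟨ξ, h2, h3, h4, h5⟩ := sub_level hL hμC hμo hω hT hTt hAT hTω hyC hyμ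
    have h6 : ξ ∈ κ := by
      rcases h3.mem_or_subset hκo with h6 | h6
      · exact h6
      · exact absurd (inj_mono hM hκC h2 hμC h6 h4) (hκ.1.2.2 μ hκ.2.1)
    exact Lv_mono (hκo.subset_of_mem h6) h5
  have h2 : Inj C (Lv A κ) κ :=
    Lv_small hL hκC hκo hωκ hκC hκo (Inj.of_subset hM hκC hκC fun _ h => h)
  have h3 : Inj C P κ := inj_mono hM hP (Lv_mem_M hM hL.mem hκC) hκC h1 h2
  have h4 := cantor hM hμC hP hP'
  exact bij_card hM hP hκ.1 h3 fun β hβ h5 => h4 (Inj.trans hM hP hμC h5 (hin β hβ))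

/-! ### The alephs -/

section

variable {M : Set ZFSet.{0}} (hM : IsZF M)

theorem al_wf : WellFounded fun u z : ZFSet.{0} => u ∈ z := ZFSet.mem_wf

/-- The infinite cardinals of `M` in increasing order. -/
noncomputable def al (M : Set ZFSet.{0}) : ZFSet.{0} → ZFSet.{0} :=
  wfF (fun z => z) ZFSet.mem_wf fun _ g =>
    lo M fun ν => IsInfCard M ν ∧ ∀ p ∈ g, sn p ∈ ν

theorem al_eq (M : Set ZFSet.{0}) (z : ZFSet.{0}) :
    al M z = lo M fun ν => IsInfCard M ν ∧ ∀ u ∈ z, al M u ∈ ν := by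
  have h : al M z = lo M fun ν => IsInfCard M ν ∧ ∀ p ∈ gr (al M) z, sn p ∈ ν := by
    rw [al, wfF_eq]
  rw [h]
  congr 1
  funext ν
  apply propext
  apply and_congr Iff.rfl
  constructor
  · intro h u hu
    have := h _ (mem_gr.2 ⟨u, hu, rfl⟩)
    rwa [sn_pair] at this
  · intro h p hp
    obtain ⟨u, hu, rfl⟩ := mem_gr.1 hp
    rw [sn_pair]
    exact h u hu

include hM

theorem dfn_isInfCard {n : ℕ} {F : (Fin n → ZFSet.{0}) → ZFSet.{0}} (hF : DfnF M M F) :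
    Dfn M M fun v => IsInfCard M (F v) := by
  have hB := hM.base
  have h1 : Dfn M M fun v => (F v).IsOrdinal ∧ (∀ β ∈ F v, ¬ ∃ f ∈ M, IsInj (F v) β f) ∧
      ZFSet.omega ⊆ F v := by
    apply Dfn.and
    · exact hB.isOrdinal' hF
    apply Dfn.and
    · apply hB.ball hF
      apply Dfn.not
      apply Dfn.ex
      exact hB.isInj' hF.tail.tail (DfnF.proj 1) (DfnF.proj 0)
    · exact hB.subset' (DfnF.const hM.infinity) hF
  refine h1.congr fun v hv => ?_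
  constructor
  · rintro ⟨h2, h3, h4⟩
    exact ⟨⟨hF.1 v hv, h2, h3⟩, h4⟩
  · rintro ⟨⟨-, h2, h3⟩, h4⟩
    exact ⟨h2, h3, h4⟩

theorem dfn_al : DfnF M M fun w : Fin 1 → ZFSet.{0} => al M (w 0) := by
  have hB := hM.base
  refine hM.memrec (G := fun _ g => lo M fun ν => IsInfCard M ν ∧ ∀ p ∈ g, sn p ∈ ν) ?_ ?_
  · refine hM.lo' (Q := fun ν w => IsInfCard M ν ∧ ∀ p ∈ w 1, sn p ∈ ν) ?_
    apply Dfn.and (dfn_isInfCard hM (DfnF.proj 0))
    apply hB.ball (DfnF.proj 2)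
    exact Dfn.mem (hM.sn' (DfnF.proj 0)) (DfnF.proj 1)
  · intro z
    rw [al, wfF_eq]

theorem al_mem {z : ZFSet.{0}} (hz : z ∈ M) : al M z ∈ M :=
  (dfn_al hM).1 (fun _ => z) fun _ => hz

theorem al_spec {z : ZFSet.{0}} (hz : z ∈ M) :
    IsInfCard M (al M z) ∧ ∀ u ∈ z, al M u ∈ al M z := by
  have hB := hM.base
  -- an ordinal that is larger than all values
  have hsc : DfnF M M fun w : Fin 1 → ZFSet.{0} => sc (al M (w 0)) :=
    hB.insert' (dfn_al hM) (dfn_al hM)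
  have hS := hM.union_mem (hM.union _ (hM.im_mem (h := fun u => sc (al M u)) hz hsc)) hM.infinity
  have hSo : (ZFSet.sUnion (im (fun u => sc (al M u)) z) ∪ ZFSet.omega : ZFSet.{0}).IsOrdinal := by
    refine isOrdinal_union (isOrdinal_sUnion fun y hy => ?_) isOrdinal_omega
    obtain ⟨u, -, rfl⟩ := mem_im.1 hy
    rw [al_eq]
    exact isOrdinal_sc lo_isOrdinal
  obtain ⟨κ, h1, h2, -⟩ := exists_next hM hS hSo
  have h3 := h1.2.1.subset_of_mem h2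
  rw [al_eq M z]
  refine (lo_spec (M := M) (P := fun ν => IsInfCard M ν ∧ ∀ u ∈ z, al M u ∈ ν)
    ⟨κ, h1.1, h1.2.1, ⟨h1, fun u hu => h3 (ZFSet.mem_union.2 (Or.inr hu))⟩, fun u hu =>
      h3 (ZFSet.mem_union.2 (Or.inl (ZFSet.mem_sUnion.2 ⟨_, mem_im.2 ⟨u, hu, rfl⟩,
        ZFSet.mem_insert _ _⟩)))⟩).2.2

theorem al_surj {α ν : ZFSet.{0}} (hα : α ∈ M) (hαo : α.IsOrdinal) (hν : IsInfCard M ν)
    (h : ν ∈ al M α) : ∃ β ∈ α, ν = al M β := by
  by_contra hne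
  have key : ∀ β ∈ α, al M β ∈ ν := by
    intro β
    induction β using ZFSet.inductionOn with
    | _ β ih =>
    intro hβ
    have h1 : al M β ⊆ ν := by
      rw [al_eq M β]
      exact lo_subset hν.1.1 hν.1.2.1 ⟨hν, fun γ hγ => ih γ hγ (hαo.mem_trans hγ hβ)⟩
    have h2 := (al_spec hM (hM.trans _ hα _ hβ)).1.1.2.1
    rcases (h2.subset_iff_eq_or_mem hν.1.2.1).1 h1 with h3 | h3
    · exact absurd ⟨β, hβ, h3.symm⟩ hne
    · exact h3
  have h1 : al M α ⊆ ν := by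
    rw [al_eq M α]
    exact lo_subset hν.1.1 hν.1.2.1 ⟨hν, key⟩
  exact ZFSet.mem_irrefl _ (h1 h)

theorem exists_isAleph {α : ZFSet.{0}} (hα : α ∈ M) (hαo : α.IsOrdinal) : ∃ κ, IsAleph M α κ := by
  have hal := dfn_al hM
  have hs := hM.im_mem hα hal
  obtain ⟨f, hf, h1, h2⟩ := bij_of_fun hM hα hs hal (fun a ha => mem_im.2 ⟨a, ha, rfl⟩) (by
    intro a ha a' ha' h
    rcases (hαo.mem ha).mem_trichotomous (hαo.mem ha') with h1 | h1 | h1
    · have h2 := (al_spec hM (hM.trans _ hα _ ha')).2 _ h1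
      rw [h] at h2
      exact absurd h2 (ZFSet.mem_irrefl _)
    · exact h1
    · have h2 := (al_spec hM (hM.trans _ hα _ ha)).2 _ h1
      rw [h] at h2
      exact absurd h2 (ZFSet.mem_irrefl _)) (by
    intro b hb
    obtain ⟨a, ha, rfl⟩ := mem_im.1 hb
    exact ⟨a, ha, rfl⟩)
  refine ⟨al M α, (al_spec hM hα).1, _, hs, fun ν => ?_, f, hf, h1, ?_⟩
  · rw [mem_im]
    constructor
    · rintro ⟨β, hβ, rfl⟩
      exact ⟨(al_spec hM hα).2 β hβ, (al_spec hM (hM.trans _ hα _ hβ)).1⟩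
    · rintro ⟨h3, h4⟩
      exact al_surj hM hα hαo h4 h3
  · intro β γ ν ρ h3 h4
    obtain ⟨hβ, rfl⟩ := (h2 _ _).1 h3
    obtain ⟨hγ, rfl⟩ := (h2 _ _).1 h4
    constructor
    · exact (al_spec hM (hM.trans _ hα _ hγ)).2 β
    · intro h5
      rcases (hαo.mem hβ).mem_trichotomous (hαo.mem hγ) with h6 | h6 | h6
      · exact h6
      · rw [h6] at h5
        exact absurd h5 (ZFSet.mem_irrefl _)
      · exact absurd h5 (ZFSet.mem_asymm ((al_spec hM (hM.trans _ hα _ hβ)).2 γ h6))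

/-- In a model of GCH there are at most `ℵ_α` reals, for `α ≥ 1`. -/
theorem aleph_pow (hG : GCH M) {α κ P : ZFSet.{0}} (hα : ∃ β, β ∈ α)
    (hκ : IsAleph M α κ) (hP : P ∈ M) (hP' : ∀ z, z ∈ P ↔ z ∈ M ∧ z ⊆ ZFSet.omega) :
    Inj M P κ := by
  obtain ⟨h1, s, hs, h2, f, hf, h3, -⟩ := hκ
  obtain ⟨β, hβ⟩ := hα
  obtain ⟨ν, hν, -⟩ := fun_exists h3.1.1 hβ
  obtain ⟨h4, h5⟩ := (h2 ν).1 hν
  obtain ⟨ρ, h6, h7, h8⟩ := exists_next hM hM.infinity isOrdinal_omega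
  have hωc : IsInfCard M ZFSet.omega := by
    refine ⟨⟨hM.infinity, isOrdinal_omega, ?_⟩, fun _ h => h⟩
    rintro β hβ ⟨g, -, hg⟩
    obtain ⟨n, rfl⟩ := mem_omega_iff.1 hβ
    exact not_le_nat (fun _ h => h) (card_le_of_isInj hg) (card_nat n).le
  have h9 : IsNextCard M ZFSet.omega ρ := by
    refine ⟨h6, h7, fun ν hν h10 => ?_⟩
    by_contra h11
    push Not at h11
    have h12 : ZFSet.omega ∈ ν := by
      rcases h10.2.1.mem_trichotomous isOrdinal_omega with h13 | h13 | h13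
      · exact absurd h13 h11.1
      · exact absurd h13 h11.2
      · exact h13
    exact h10.2.2 _ h12 (h8 ν hν)
  obtain ⟨g, hg, h10⟩ := hG _ _ P hωc h9 hP hP'
  refine Inj.trans hM hP h1.1.1 ⟨g, hg, h10.1⟩ ?_
  refine Inj.of_subset hM h6.1 h1.1.1 ?_
  -- ρ ⊆ κ
  rcases h6.2.1.mem_or_subset h1.1.2.1 with h11 | h11
  · exact h1.1.2.1.subset_of_mem h11
  · rcases (h1.1.2.1.subset_iff_eq_or_mem h6.2.1).1 h11 with h12 | h12
    · rw [h12]
    · exfalso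
      have h13 : Inj M κ ZFSet.omega := h8 κ h12
      exact h1.1.2.2 ν h4 (Inj.trans hM h1.1.1 h5.1.1 h13
        (Inj.of_subset hM hM.infinity h5.1.1 h5.2))

end

end Pool.Agent.W868
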