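import Pool.Agent.W868.Inj

/-!
# The canonical pairing of ordinals, and the square of an infinite ordinal, in a transitive model
-/

set_option autoImplicit false
set_option linter.unreachableTactic false
set_option linter.unusedTactic false

namespace Pool.Agent.W868

open ZFSet (pair)

/-- The canonical order of pairs of ordinals. -/
def Glt (q p : ZFSet.{0}) : Prop :=
  fs q ∪ sn q ∈ fs p ∪ sn p ∨ (fs q ∪ sn q = fs p ∪ sn p ∧
    (fs q ∈ fs p ∨ (fs q = fs p ∧ sn q ∈ sn p)))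

/-- The set of the predecessors of a pair of ordinals. -/
noncomputable def gpr (p : ZFSet.{0}) : ZFSet.{0} :=
  ZFSet.sep (fun q => (fs p).IsOrdinal ∧ (sn p).IsOrdinal ∧ Glt q p)
    (ZFSet.prod (insert (fs p ∪ sn p) (fs p ∪ sn p)) (insert (fs p ∪ sn p) (fs p ∪ sn p)))

theorem mem_gpr {q p : ZFSet.{0}} : q ∈ gpr p ↔ ∃ c d, q = pair c d ∧ c ∈ sc (fs p ∪ sn p) ∧
    d ∈ sc (fs p ∪ sn p) ∧ (fs p).IsOrdinal ∧ (sn p).IsOrdinal ∧ Glt q p := by
  rw [gpr, ZFSet.mem_sep, ZFSet.mem_prod]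
  constructor
  · rintro ⟨⟨c, hc, d, hd, rfl⟩, h⟩
    exact ⟨c, d, rfl, hc, hd, h⟩
  · rintro ⟨c, d, rfl, hc, hd, h⟩
    exact ⟨⟨c, hc, d, hd, rfl⟩, h⟩

theorem gpr_ord {q p : ZFSet.{0}} (h : q ∈ gpr p) : (fs q).IsOrdinal ∧ (sn q).IsOrdinal := by
  obtain ⟨c, d, rfl, hc, hd, h1, h2, -⟩ := mem_gpr.1 h
  have h3 := isOrdinal_sc (isOrdinal_union h1 h2)
  rw [fs_pair, sn_pair]
  exact ⟨h3.mem hc, h3.mem hd⟩

theorem gpr_wf : WellFounded fun q p => q ∈ gpr p := by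
  have h1 : WellFounded (Prod.Lex (fun a b : Ordinal.{0} => a < b)
      (Prod.Lex (fun a b : Ordinal.{0} => a < b) fun a b : Ordinal.{0} => a < b)) :=
    WellFounded.prod_lex Ordinal.lt_wf (WellFounded.prod_lex Ordinal.lt_wf Ordinal.lt_wf)
  refine Subrelation.wf ?_ (InvImage.wf (fun p : ZFSet.{0} =>
    ((fs p ∪ sn p).rank, (fs p).rank, (sn p).rank)) h1)
  intro q p h
  obtain ⟨c, d, -, -, -, -, -, h2⟩ := mem_gpr.1 h
  rcases h2 with h2 | ⟨h2, h3 | ⟨h3, h4⟩⟩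
  · exact Prod.Lex.left _ _ (ZFSet.rank_lt_of_mem h2)
  · have h5 : (fs q ∪ sn q).rank = (fs p ∪ sn p).rank := by rw [h2]
    simp only [InvImage]
    rw [h5]
    exact Prod.Lex.right _ (Prod.Lex.left _ _ (ZFSet.rank_lt_of_mem h3))
  · have h5 : (fs q ∪ sn q).rank = (fs p ∪ sn p).rank := by rw [h2]
    have h6 : (fs q).rank = (fs p).rank := by rw [h3]
    simp only [InvImage]
    rw [h5, h6]
    exact Prod.Lex.right _ (Prod.Lex.right _ (ZFSet.rank_lt_of_mem h4))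

/-- The rank of a pair in the canonical order. -/
noncomputable def Gm : ZFSet.{0} → ZFSet.{0} := wfF gpr gpr_wf fun _ g => im sn g

theorem Gm_eq (p : ZFSet.{0}) : Gm p = im sn (gr Gm (gpr p)) := by
  rw [Gm, wfF_eq]

theorem mem_Gm {p y : ZFSet.{0}} : y ∈ Gm p ↔ ∃ q ∈ gpr p, y = Gm q := by
  rw [Gm_eq, mem_im]
  constructor
  · rintro ⟨r, hr, rfl⟩
    obtain ⟨q, hq, rfl⟩ := mem_gr.1 hr
    exact ⟨q, hq, by rw [sn_pair]⟩
  · rintro ⟨q, hq, rfl⟩
    exact ⟨_, mem_gr.2 ⟨q, hq, rfl⟩, by rw [sn_pair]⟩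

theorem Gm_im (p : ZFSet.{0}) : Gm p = im Gm (gpr p) := by
  ext y
  rw [mem_Gm, mem_im]

theorem gpr_trans {r q p : ZFSet.{0}} (h1 : r ∈ gpr q) (h2 : q ∈ gpr p) : r ∈ gpr p := by
  obtain ⟨c, d, rfl, hc, hd, hcq, hdq, h3⟩ := mem_gpr.1 h1
  obtain ⟨a, b, rfl, ha, hb, hap, hbp, h4⟩ := mem_gpr.1 h2
  rw [fs_pair] at hcq
  rw [sn_pair] at hdq
  unfold Glt at h3 h4
  simp only [fs_pair, sn_pair] at h3 h4 hc hd
  have hpo := isOrdinal_union hap hbp
  have hqo := isOrdinal_union hcq hdq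
  have hsub : sc (a ∪ b) ⊆ sc (fs p ∪ sn p) := by
    rcases h4 with h4 | ⟨h4, -⟩
    · intro z hz
      rcases ZFSet.mem_insert_iff.1 hz with rfl | hz
      · exact ZFSet.mem_insert_of_mem _ h4
      · exact ZFSet.mem_insert_of_mem _ (hpo.mem_trans hz h4)
    · rw [h4]
  refine mem_gpr.2 ⟨c, d, rfl, hsub hc, hsub hd, hap, hbp, ?_⟩
  unfold Glt
  simp only [fs_pair, sn_pair]
  rcases h3 with h3 | ⟨h3, h5⟩ <;> rcases h4 with h4 | ⟨h4, h6⟩
  · exact Or.inl (hpo.mem_trans h3 h4)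
  · exact Or.inl (h4 ▸ h3)
  · exact Or.inl (h3 ▸ h4)
  · refine Or.inr ⟨h3.trans h4, ?_⟩
    rcases h5 with h5 | ⟨rfl, h5⟩ <;> rcases h6 with h6 | ⟨h6, h7⟩
    · exact Or.inl (hap.mem_trans h5 h6)
    · exact Or.inl (h6 ▸ h5)
    · exact Or.inl h6
    · exact Or.inr ⟨h6, hbp.mem_trans h5 h7⟩

theorem isOrdinal_Gm (p : ZFSet.{0}) : (Gm p).IsOrdinal := by
  induction p using gpr_wf.induction with
  | _ p ih =>
  rw [ZFSet.isOrdinal_iff_forall_mem_isOrdinal]
  refine ⟨fun y hy w hw => ?_, fun y hy => ?_⟩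
  · obtain ⟨q, hq, rfl⟩ := mem_Gm.1 hy
    obtain ⟨r, hr, rfl⟩ := mem_Gm.1 hw
    exact mem_Gm.2 ⟨r, gpr_trans hr hq, rfl⟩
  · obtain ⟨q, hq, rfl⟩ := mem_Gm.1 hy
    exact ih q hq

/-- The pairing of ordinals. -/
noncomputable def gp (a b : ZFSet.{0}) : ZFSet.{0} := Gm (pair a b)

theorem isOrdinal_gp {a b : ZFSet.{0}} : (gp a b).IsOrdinal := isOrdinal_Gm _

theorem gpr_total {a b c d : ZFSet.{0}} (ha : a.IsOrdinal) (hb : b.IsOrdinal) (hc : c.IsOrdinal)
    (hd : d.IsOrdinal) : (a = c ∧ b = d) ∨ pair a b ∈ gpr (pair c d) ∨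
      pair c d ∈ gpr (pair a b) := by
  have hab := isOrdinal_union ha hb
  have hcd := isOrdinal_union hc hd
  have key : ∀ {a b c d : ZFSet.{0}}, a.IsOrdinal → b.IsOrdinal → c.IsOrdinal → d.IsOrdinal →
      Glt (pair a b) (pair c d) → pair a b ∈ gpr (pair c d) := by
    intro a b c d ha hb hc hd h
    have hab := isOrdinal_union ha hb
    have hcd := isOrdinal_union hc hd
    have h1 : a ∪ b ⊆ c ∪ d := by
      unfold Glt at h
      simp only [fs_pair, sn_pair] at h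
      rcases h with h | ⟨h, -⟩
      · exact hcd.subset_of_mem h
      · rw [h]
    have h2 : ∀ x : ZFSet.{0}, x.IsOrdinal → x ⊆ a ∪ b → x ∈ sc (c ∪ d) := by
      intro x hx hxs
      have h3 : x ⊆ c ∪ d := fun z hz => h1 (hxs hz)
      rcases (ZFSet.IsOrdinal.subset_iff_eq_or_mem hx hcd).1 h3 with rfl | h4
      · exact ZFSet.mem_insert _ _
      · exact ZFSet.mem_insert_of_mem _ h4
    refine mem_gpr.2 ⟨a, b, rfl, ?_, ?_, ?_, ?_, h⟩
    · rw [fs_pair, sn_pair]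
      exact h2 a ha fun z hz => ZFSet.mem_union.2 (Or.inl hz)
    · rw [fs_pair, sn_pair]
      exact h2 b hb fun z hz => ZFSet.mem_union.2 (Or.inr hz)
    · rwa [fs_pair]
    · rwa [sn_pair]
  have hGlt : ∀ {a b c d : ZFSet.{0}}, Glt (pair a b) (pair c d) ↔ (a ∪ b ∈ c ∪ d ∨
      (a ∪ b = c ∪ d ∧ (a ∈ c ∨ (a = c ∧ b ∈ d)))) := by
    intro a b c d
    unfold Glt
    simp only [fs_pair, sn_pair]
  rcases hab.mem_trichotomous hcd with h | h | h
  · exact Or.inr (Or.inl (key ha hb hc hd (hGlt.2 (Or.inl h))))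
  · rcases ha.mem_trichotomous hc with h1 | h1 | h1
    · exact Or.inr (Or.inl (key ha hb hc hd (hGlt.2 (Or.inr ⟨h, Or.inl h1⟩))))
    · rcases hb.mem_trichotomous hd with h2 | h2 | h2
      · exact Or.inr (Or.inl (key ha hb hc hd (hGlt.2 (Or.inr ⟨h, Or.inr ⟨h1, h2⟩⟩))))
      · exact Or.inl ⟨h1, h2⟩
      · exact Or.inr (Or.inr (key hc hd ha hb (hGlt.2 (Or.inr ⟨h.symm, Or.inr ⟨h1.symm, h2⟩⟩))))
    · exact Or.inr (Or.inr (key hc hd ha hb (hGlt.2 (Or.inr ⟨h.symm, Or.inl h1⟩))))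
  · exact Or.inr (Or.inr (key hc hd ha hb (hGlt.2 (Or.inl h))))

theorem gp_inj {a b c d : ZFSet.{0}} (ha : a.IsOrdinal) (hb : b.IsOrdinal) (hc : c.IsOrdinal)
    (hd : d.IsOrdinal) (h : gp a b = gp c d) : a = c ∧ b = d := by
  rcases gpr_total ha hb hc hd with h1 | h1 | h1
  · exact h1
  · have h2 : gp a b ∈ gp c d := mem_Gm.2 ⟨_, h1, rfl⟩
    exact absurd (h ▸ h2) (ZFSet.mem_irrefl _)
  · have h2 : gp c d ∈ gp a b := mem_Gm.2 ⟨_, h1, rfl⟩
    exact absurd (h ▸ h2) (ZFSet.mem_irrefl _)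

section

variable {M : Set ZFSet.{0}} (hM : IsZF M)

include hM

theorem dfn_gpr : DfnF M M fun w : Fin 1 → ZFSet.{0} => gpr (w 0) := by
  have hB := hM.base
  have h1 : DfnF M M fun w : Fin 1 → ZFSet.{0} => fs (w 0) := hM.fs' (DfnF.proj 0)
  have h2 : DfnF M M fun w : Fin 1 → ZFSet.{0} => sn (w 0) := hM.sn' (DfnF.proj 0)
  have h3 := hB.union' h1 h2
  have h4 := hB.insert' h3 h3
  have f0 : DfnF M M fun w : Fin 2 → ZFSet.{0} => fs (w 0) := hM.fs' (DfnF.proj 0)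
  have s0 : DfnF M M fun w : Fin 2 → ZFSet.{0} => sn (w 0) := hM.sn' (DfnF.proj 0)
  have f1 : DfnF M M fun w : Fin 2 → ZFSet.{0} => fs (w 1) := hM.fs' (DfnF.proj 1)
  have s1 : DfnF M M fun w : Fin 2 → ZFSet.{0} => sn (w 1) := hM.sn' (DfnF.proj 1)
  refine hM.sep' (Q := fun q w => (fs (w 0)).IsOrdinal ∧ (sn (w 0)).IsOrdinal ∧ Glt q (w 0))
    (hM.prod' h4 h4) ?_
  apply Dfn.and (hB.isOrdinal' f1)
  apply Dfn.and (hB.isOrdinal' s1)
  unfold Glt
  apply Dfn.or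
  · exact Dfn.mem (hB.union' f0 s0) (hB.union' f1 s1)
  apply Dfn.and
  · exact Dfn.eq (hB.union' f0 s0) (hB.union' f1 s1)
  exact (Dfn.mem f0 f1).or ((Dfn.eq f0 f1).and (Dfn.mem s0 s1))

theorem dfn_Gm : DfnF M M fun w : Fin 1 → ZFSet.{0} => Gm (w 0) := by
  refine hM.wfrec gpr_wf (dfn_gpr hM) (G := fun _ g => im sn g) ?_ fun z => Gm_eq z
  exact hM.im' (h := fun p _ => sn p) (DfnF.proj 1) (hM.sn' (DfnF.proj 0))

theorem IsZF.gp' {n : ℕ} {F G : (Fin n → ZFSet.{0}) → ZFSet.{0}} (hF : DfnF M M F)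
    (hG : DfnF M M G) : DfnF M M fun v => gp (F v) (G v) :=
  DfnF.comp1 (f := Gm) (dfn_Gm hM) (hM.base.pair' hF hG)

theorem Gm_mem {p : ZFSet.{0}} (hp : p ∈ M) : Gm p ∈ M := (dfn_Gm hM).1 (fun _ => p) fun _ => hp

/-- The square of an infinite ordinal. -/
theorem sq_inj {κ : ZFSet.{0}} (hκ : κ ∈ M) (hκo : κ.IsOrdinal) (hω : ZFSet.omega ⊆ κ) :
    Inj M (ZFSet.prod κ κ) κ := by
  induction κ using ZFSet.inductionOn with
  | _ κ ih =>
  have hB := hM.base
  by_cases hc : ∃ μ ∈ κ, Inj M κ μ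
  · obtain ⟨μ, hμ, f, hf, h1⟩ := hc
    have hμo := hκo.mem hμ
    have hμM := hM.trans _ hκ _ hμ
    have hωμ : ZFSet.omega ⊆ μ := by
      rcases hμo.mem_or_subset isOrdinal_omega with h2 | h2
      · obtain ⟨k, rfl⟩ := mem_omega_iff.1 h2
        exact (not_le_nat hω (card_le_of_isInj h1) (card_nat k).le).elim
      · exact h2
    have h2 : Inj M κ μ := ⟨f, hf, h1⟩
    have h3 := Inj.prod hM hκ hκ hμM hμM h2 h2
    have h4 := ih μ hμ hμM hμo hωμ
    have h5 := Inj.trans hM (hM.prod_mem hκ hκ) hμM h3 h4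
    exact Inj.trans hM (hM.prod_mem hκ hκ) hκ h5
      (Inj.of_subset hM hμM hκ (hκo.subset_of_mem hμ))
  · push Not at hc
    have hlim : ∀ μ ∈ κ, sc μ ∈ κ := by
      intro μ hμ
      have hμo := hκo.mem hμ
      have hμM := hM.trans _ hκ _ hμ
      rcases (isOrdinal_sc hμo).mem_trichotomous hκo with h1 | h1 | h1
      · exact h1
      · exfalso
        have hωμ : ZFSet.omega ⊆ μ := by
          rcases hμo.mem_or_subset isOrdinal_omega with h2 | h2
          · have h3 := hω (ZFSet.omega_succ h2)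
            change sc μ ∈ κ at h3
            rw [h1] at h3
            exact absurd h3 (ZFSet.mem_irrefl _)
          · exact h2
        exact hc μ hμ (h1 ▸ Inj.sc hM hμM hμo hωμ)
      · exfalso
        rcases ZFSet.mem_insert_iff.1 h1 with h1 | h1
        · rw [h1] at hμ
          exact ZFSet.mem_irrefl _ hμ
        · exact ZFSet.mem_asymm h1 hμ
    have key : ∀ a ∈ κ, ∀ b ∈ κ, gp a b ∈ κ := by
      intro a ha b hb
      have hao := hκo.mem ha
      have hbo := hκo.mem hb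
      have hmo := isOrdinal_union hao hbo
      have hm : a ∪ b ∈ κ := by
        rcases hao.subset_total hbo with h1 | h1
        · have h2 : a ∪ b = b := by
            ext z
            rw [ZFSet.mem_union]
            exact ⟨fun h => h.elim (fun h => h1 h) id, Or.inr⟩
          rw [h2]
          exact hb
        · have h2 : a ∪ b = a := by
            ext z
            rw [ZFSet.mem_union]
            exact ⟨fun h => h.elim id (fun h => h1 h), Or.inl⟩
          rw [h2]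
          exact ha
      set ν := sc (a ∪ b) with hν
      have hνκ : ν ∈ κ := hlim _ hm
      have hνM := hM.trans _ hκ _ hνκ
      have hνo : ν.IsOrdinal := isOrdinal_sc hmo
      have hpM : pair a b ∈ M := hM.pair_mem (hM.trans _ hκ _ ha) (hM.trans _ hκ _ hb)
      have hgM : gpr (pair a b) ∈ M := (dfn_gpr hM).1 (fun _ => pair a b) fun _ => hpM
      have hgs : gpr (pair a b) ⊆ ZFSet.prod ν ν := by
        intro q hq
        obtain ⟨c, d, rfl, h1, h2, -⟩ := mem_gpr.1 hq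
        rw [fs_pair, sn_pair] at h1 h2
        exact ZFSet.pair_mem_prod.2 ⟨h1, h2⟩
      by_contra hcon
      have hsub : κ ⊆ gp a b := by
        rcases hκo.mem_or_subset (isOrdinal_gp (a := a) (b := b)) with h1 | h1
        · exact isOrdinal_gp.subset_of_mem h1
        · rcases (ZFSet.IsOrdinal.subset_iff_eq_or_mem isOrdinal_gp hκo).1 h1 with h2 | h2
          · rw [h2]
          · exact absurd h2 hcon
      rcases hνo.mem_or_subset isOrdinal_omega with h1 | h1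
      · obtain ⟨k, hk⟩ := mem_omega_iff.1 h1
        refine not_le_nat (x := gp a b) (y := gpr (pair a b)) (n := k * k)
          (fun z hz => hsub (hω hz)) ?_ ?_
        · rw [gp, Gm_im]
          exact card_im_le
        · refine (ZFSet.card_mono hgs).trans ?_
          rw [card_prod, hk, card_nat]
          push_cast
          exact le_refl _
      · have h2 := ih ν hνκ hνM hνo h1
        have h3 : Inj M (gpr (pair a b)) ν :=
          Inj.trans hM hgM hνM (Inj.of_subset hM hgM (hM.prod_mem hνM hνM) hgs) h2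
        have h4 : Inj M (gp a b) ν := by
          rw [gp, Gm_im]
          exact Inj.image hM hgM hνM hνo h3 (dfn_Gm hM)
        have h5 : gp a b ∈ M := Gm_mem hM hpM
        exact hc ν hνκ (Inj.trans hM hκ hνM (Inj.of_subset hM hκ h5 hsub) h4)
    refine Inj.of_fun hM (hM.prod_mem hκ hκ) hκ (h := Gm) (dfn_Gm hM) ?_ ?_
    · intro p hp
      obtain ⟨a, ha, b, hb, rfl⟩ := ZFSet.mem_prod.1 hp
      exact key a ha b hb
    · intro p hp q hq h
      obtain ⟨a, ha, b, hb, rfl⟩ := ZFSet.mem_prod.1 hp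
      obtain ⟨c, hc', d, hd, rfl⟩ := ZFSet.mem_prod.1 hq
      obtain ⟨rfl, rfl⟩ := gp_inj (hκo.mem ha) (hκo.mem hb) (hκo.mem hc') (hκo.mem hd) h
      rfl

end

end Pool.Agent.W868
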