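import Pool.Agent.W868.Val
import Pool.Agent.W868.Dfn
import Pool.Agent.W868.Nat

/-!
# The ground model of a generic package
-/

set_option autoImplicit false

namespace Pool.Agent.W868

open PName

variable {P : Type} [Preorder P] [OrderTop P]

namespace Pkg

variable (π : Pkg P)

/-- The sets of the ground model (before the collapse). -/
def Z : Set ZFSet.{0} := {x | (check x : PName P) ∈ π.N}

/-- The collapse of the ground model. -/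
noncomputable def hat (x : ZFSet.{0}) : ZFSet.{0} := π.val (check x)

/-- The ground model. -/
def V : Set ZFSet.{0} := π.hat '' π.Z

theorem mem_hat {x z : ZFSet.{0}} : z ∈ π.hat x ↔ ∃ y ∈ x, y ∈ π.Z ∧ π.hat y = z := by
  rw [hat, mem_val]
  constructor
  · rintro ⟨w, hw, c, hc, -, rfl⟩
    obtain ⟨y, hy, rfl, rfl⟩ := el_check.1 hc
    exact ⟨y, hy, hw, rfl⟩
  · rintro ⟨y, hy, hyZ, rfl⟩
    exact ⟨check y, hyZ, ⊤, el_check.2 ⟨y, hy, rfl, rfl⟩, ⟨0, le_top⟩, rfl⟩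

theorem hat_mem_hat {x y : ZFSet.{0}} (hx : x ∈ π.Z) (hy : y ∈ π.Z) :
    π.hat x ∈ π.hat y ↔ x ∈ y := by
  rw [hat, hat, π.val_mem_iff hx hy]
  simp only [fmem_check]
  exact ⟨fun ⟨_, h⟩ => h, fun h => ⟨0, h⟩⟩

theorem hat_inj {x y : ZFSet.{0}} (hx : x ∈ π.Z) (hy : y ∈ π.Z) :
    π.hat x = π.hat y ↔ x = y := by
  rw [hat, hat, π.val_eq_iff hx hy]
  simp only [feq_check]
  exact ⟨fun ⟨_, h⟩ => h, fun h => ⟨0, h⟩⟩

theorem V_subset_W : π.V ⊆ π.W := by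
  rintro _ ⟨x, hx, rfl⟩
  exact ⟨_, hx, rfl⟩

/-- Closure of `Z` under an operation. -/
theorem ground {F : (n : ℕ) → Fml ZFSet.{0} n → (Fin n → ZFSet.{0}) → ZFSet.{0}}
    (hF : (gRule F : Rule P) ∈ (baseRules : Set (Rule P))) {n : ℕ} {φ : Fml ZFSet.{0} n}
    {v : Fin n → ZFSet.{0}} (hφ : φ.Over π.Z) (hv : ∀ i, v i ∈ π.Z) : F n φ v ∈ π.Z := by
  have h := (π.closed _ hF ⟨n, φ.map check, check ∘ v, π.g 0⟩
    ⟨(over_map _ _).2 hφ, hv, π.gC 0⟩).1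
  have h1 : (fun x => dec (check x : PName P)) = id := funext fun x => dec_check x
  have h2 : dec ∘ (check : ZFSet.{0} → PName P) ∘ v = v := by
    funext i
    exact dec_check _
  simp only [gRule] at h
  rw [map_left_inverse (fun a => dec_check a), h2] at h
  exact h

theorem ground2 {F : (n : ℕ) → Fml ZFSet.{0} n → (Fin n → ZFSet.{0}) → ZFSet.{0}}
    (hF : (gRule F : Rule P) ∈ (baseRules : Set (Rule P))) {x y : ZFSet.{0}}
    (hx : x ∈ π.Z) (hy : y ∈ π.Z) :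
    F 0 (.mem (Sum.inr x) (Sum.inr y)) Fin.elim0 ∈ π.Z :=
  π.ground hF (φ := .mem (Sum.inr x) (Sum.inr y)) ⟨tOver_inr.2 hx, tOver_inr.2 hy⟩
    fun i => i.elim0

theorem omega_Z : ZFSet.omega ∈ π.Z := π.om

theorem pair_Z {x y : ZFSet.{0}} (hx : x ∈ π.Z) (hy : y ∈ π.Z) : {x, y} ∈ π.Z :=
  π.ground2 (F := gPair) (by simp [baseRules]) hx hy

theorem union_Z {x : ZFSet.{0}} (hx : x ∈ π.Z) : ZFSet.sUnion x ∈ π.Z :=
  π.ground2 (F := gUnion) (by simp [baseRules]) hx hx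

theorem pow_Z {x : ZFSet.{0}} (hx : x ∈ π.Z) : ZFSet.powerset x ∈ π.Z :=
  π.ground2 (F := gPow) (by simp [baseRules]) hx hx

/-- Elementarity: witnesses. -/
theorem wit_Z {n : ℕ} {φ : Fml ZFSet.{0} (n + 1)} {v : Fin n → ZFSet.{0}} (hφ : φ.Over π.Z)
    (hv : ∀ i, v i ∈ π.Z) (h : ∃ a, Sat Set.univ id φ (Fin.cons a v)) :
    ∃ a ∈ π.Z, Sat Set.univ id φ (Fin.cons a v) := by
  have h1 := π.ground (F := gWit) (by simp [baseRules]) (φ := .ex φ) (v := v) hφ hv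
  simp only [gWit] at h1
  rw [dif_pos h] at h1
  exact ⟨_, h1, h.choose_spec⟩

theorem elim_hat {n : ℕ} (v : Fin n → ZFSet.{0}) (s : Fin n ⊕ ZFSet.{0}) :
    Sum.elim (π.hat ∘ v) π.hat s = π.hat (Sum.elim v id s) := by
  cases s <;> rfl

theorem gv_mem {n : ℕ} {v : Fin n → ZFSet.{0}} (hv : ∀ i, v i ∈ π.Z) {s : Fin n ⊕ ZFSet.{0}}
    (hs : TOver π.Z s) : Sum.elim v id s ∈ π.Z := by
  cases s with
  | inl i => exact hv i
  | inr a => exact hs a rfl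

theorem hat_cons {n : ℕ} (v : Fin n → ZFSet.{0}) (x : ZFSet.{0}) :
    π.hat ∘ (Fin.cons x v : Fin (n + 1) → ZFSet.{0}) = Fin.cons (π.hat x) (π.hat ∘ v) := by
  funext i
  refine Fin.cases ?_ (fun i => ?_) i
  · rfl
  · rfl

/-- The ground model satisfies what is true in the universe. -/
theorem sat_V : {n : ℕ} → (φ : Fml ZFSet.{0} n) → φ.Over π.Z → (v : Fin n → ZFSet.{0}) →
    (∀ i, v i ∈ π.Z) → (Sat π.V π.hat φ (π.hat ∘ v) ↔ Sat Set.univ id φ v)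
  | _, .mem s t, hφ, v, hv => by
    simp only [Sat, elim_hat]
    exact π.hat_mem_hat (π.gv_mem hv hφ.1) (π.gv_mem hv hφ.2)
  | _, .eq s t, hφ, v, hv => by
    simp only [Sat, elim_hat]
    exact π.hat_inj (π.gv_mem hv hφ.1) (π.gv_mem hv hφ.2)
  | n, .neg φ, hφ, v, hv => not_congr (sat_V φ hφ v hv)
  | _, .and φ ψ, hφ, v, hv => and_congr (sat_V φ hφ.1 v hv) (sat_V ψ hφ.2 v hv)
  | n, .ex φ, hφ, v, hv => by
    have ih := fun x (hx : x ∈ π.Z) => sat_V φ hφ (Fin.cons x v) (cons_mem hx hv)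
    simp only [hat_cons] at ih
    simp only [Sat]
    constructor
    · rintro ⟨_, ⟨x, hx, rfl⟩, hs⟩
      exact ⟨x, trivial, (ih x hx).1 hs⟩
    · rintro ⟨x, -, hs⟩
      obtain ⟨y, hy, h2⟩ := π.wit_Z hφ hv ⟨x, hs⟩
      exact ⟨_, ⟨y, hy, rfl⟩, (ih y hy).2 h2⟩

theorem exists_fml_V {n : ℕ} (φ : Fml ZFSet.{0} n) (hφ : φ.Over π.V) :
    ∃ ψ : Fml ZFSet.{0} n, ψ.Over π.Z ∧ ∀ v, Sat π.V π.hat ψ v ↔ Sat π.V id φ v := by
  have h : ∀ a : ZFSet.{0}, ∃ x : ZFSet.{0}, a ∈ π.V → x ∈ π.Z ∧ π.hat x = a := by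
    intro a
    by_cases ha : a ∈ π.V
    · obtain ⟨x, hx, hxa⟩ := ha
      exact ⟨x, fun _ => ⟨hx, hxa⟩⟩
    · exact ⟨∅, fun h => absurd h ha⟩
  choose f hf using h
  refine ⟨φ.map f, (over_map f φ).2 (Fml.Over.mono (fun a ha => (hf a ha).1) hφ), fun v => ?_⟩
  rw [sat_map]
  exact sat_congr _ (fun a ha => (hf a ha).2) φ hφ v

theorem empty_Z : ∅ ∈ π.Z :=
  π.ground (F := gPair) (by simp [baseRules]) (n := 0) (φ := .eq (Sum.inr ZFSet.omega)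
    (Sum.inr ZFSet.omega)) (v := Fin.elim0) ⟨tOver_inr.2 π.om, tOver_inr.2 π.om⟩
    fun i => i.elim0

theorem insert_Z {x y : ZFSet.{0}} (hx : x ∈ π.Z) (hy : y ∈ π.Z) : insert x y ∈ π.Z := by
  have h := π.union_Z (π.pair_Z (π.pair_Z hx hx) hy)
  have h1 : ZFSet.sUnion {{x, x}, y} = insert x y := by
    ext z
    simp
  rwa [h1] at h

theorem nat_Z (n : ℕ) : nat n ∈ π.Z := by
  induction n with
  | zero => exact π.empty_Z
  | succ n ih => exact π.insert_Z ih ih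

theorem hat_insert {x y : ZFSet.{0}} (hx : x ∈ π.Z) :
    π.hat (insert x y) = insert (π.hat x) (π.hat y) := by
  ext z
  rw [mem_hat, ZFSet.mem_insert_iff, mem_hat]
  constructor
  · rintro ⟨w, hw, hwZ, rfl⟩
    rcases ZFSet.mem_insert_iff.1 hw with rfl | hw
    · exact Or.inl rfl
    · exact Or.inr ⟨w, hw, hwZ, rfl⟩
  · rintro (rfl | ⟨w, hw, hwZ, rfl⟩)
    · exact ⟨x, ZFSet.mem_insert x y, hx, rfl⟩
    · exact ⟨w, ZFSet.mem_insert_of_mem x hw, hwZ, rfl⟩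

theorem hat_empty : π.hat ∅ = ∅ := by
  ext z
  rw [mem_hat]
  simp

theorem hat_nat (n : ℕ) : π.hat (nat n) = nat n := by
  induction n with
  | zero => exact π.hat_empty
  | succ n ih => rw [nat, π.hat_insert (π.nat_Z n), ih]

theorem hat_omega : π.hat ZFSet.omega = ZFSet.omega := by
  ext z
  rw [mem_hat, mem_omega_iff]
  constructor
  · rintro ⟨w, hw, -, rfl⟩
    obtain ⟨n, rfl⟩ := mem_omega_iff.1 hw
    exact ⟨n, π.hat_nat n⟩
  · rintro ⟨n, rfl⟩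
    exact ⟨nat n, mem_omega_iff.2 ⟨n, rfl⟩, π.nat_Z n, π.hat_nat n⟩

theorem hat_pairset {x y : ZFSet.{0}} (hx : x ∈ π.Z) (hy : y ∈ π.Z) :
    π.hat {x, y} = {π.hat x, π.hat y} := by
  ext z
  rw [mem_hat, ZFSet.mem_pair]
  constructor
  · rintro ⟨w, hw, hwZ, rfl⟩
    rcases ZFSet.mem_pair.1 hw with rfl | rfl
    · exact Or.inl rfl
    · exact Or.inr rfl
  · rintro (rfl | rfl)
    · exact ⟨x, ZFSet.mem_pair.2 (Or.inl rfl), hx, rfl⟩
    · exact ⟨y, ZFSet.mem_pair.2 (Or.inr rfl), hy, rfl⟩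

theorem pair_mem_Z {x y : ZFSet.{0}} (hx : x ∈ π.Z) (hy : y ∈ π.Z) : ZFSet.pair x y ∈ π.Z := by
  have h := π.pair_Z (π.pair_Z hx hx) (π.pair_Z hx hy)
  rwa [ZFSet.pair_eq_singleton] at h

theorem hat_pair {x y : ZFSet.{0}} (hx : x ∈ π.Z) (hy : y ∈ π.Z) :
    π.hat (ZFSet.pair x y) = ZFSet.pair (π.hat x) (π.hat y) := by
  have h := π.hat_pairset (π.pair_Z hx hx) (π.pair_Z hx hy)
  rw [π.hat_pairset hx hx, π.hat_pairset hx hy, ZFSet.pair_eq_singleton,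
    ZFSet.pair_eq_singleton] at h
  exact h

theorem of_hat_mem_V {x : ZFSet.{0}} (hx : x ∈ π.Z) : π.hat x ∈ π.V := ⟨x, hx, rfl⟩

theorem trans_V {x y : ZFSet.{0}} (hx : x ∈ π.V) (hy : y ∈ x) : y ∈ π.V := by
  obtain ⟨a, ha, rfl⟩ := hx
  obtain ⟨b, hb, hbZ, rfl⟩ := π.mem_hat.1 hy
  exact π.of_hat_mem_V hbZ

/-- Elementarity for a binary relation. -/
theorem wit_mem_Z {x : ZFSet.{0}} (hx : x ∈ π.Z) {φ : Fml ZFSet.{0} 1} (hφ : φ.Over π.Z)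
    (h : ∃ a ∈ x, Sat Set.univ id φ ![a]) : ∃ a ∈ x, a ∈ π.Z ∧ Sat Set.univ id φ ![a] := by
  have h2 : ∀ a : ZFSet.{0}, (Fin.cons a Fin.elim0 : Fin 1 → ZFSet.{0}) = ![a] := by
    intro a
    funext i
    fin_cases i
    rfl
  obtain ⟨a, ha, h1⟩ := π.wit_Z (n := 0) (φ := .and (.mem (Sum.inl 0) (Sum.inr x)) φ)
    (v := Fin.elim0) ⟨⟨TOver.inl _, tOver_inr.2 hx⟩, hφ⟩ (fun i => i.elim0) (by
      obtain ⟨a, ha, h1⟩ := h
      refine ⟨a, ha, ?_⟩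
      rw [h2]
      exact h1)
  refine ⟨a, h1.1, ha, ?_⟩
  have h3 := h1.2
  rw [h2] at h3
  exact h3

theorem subset_of_hat {x y : ZFSet.{0}} (hx : x ∈ π.Z) (hy : y ∈ π.Z) (h : π.hat y ⊆ π.hat x) :
    y ⊆ x := by
  by_contra h1
  have h2 : ∃ a ∈ y, Sat Set.univ id (.neg (.mem (Sum.inl 0) (Sum.inr x))) ![a] := by
    by_contra h3
    apply h1
    intro a ha
    by_contra h4
    exact h3 ⟨a, ha, h4⟩
  obtain ⟨a, ha, haZ, h3⟩ := π.wit_mem_Z hy (φ := .neg (.mem (Sum.inl 0) (Sum.inr x)))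
    ⟨TOver.inl _, tOver_inr.2 hx⟩ h2
  exact h3 ((π.hat_mem_hat haZ hx).1 (h ((π.hat_mem_hat haZ hy).2 ha)))

end Pkg

end Pool.Agent.W868
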