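import Pool.Agent.W868.Cond
import Pool.Agent.W868.GDefs

/-!
# Cardinals of a transitive model
-/

set_option autoImplicit false
set_option linter.unreachableTactic false
set_option linter.unusedTactic false

namespace Pool.Agent.W868

open ZFSet (pair)

/-- The relation that an injection `f` of `ν` induces. -/
def Rpr (ν f r : ZFSet.{0}) : Prop :=
  ∀ p ∈ r, ∃ a ∈ ν, ∃ b ∈ ν, ∃ q ∈ f, ∃ q' ∈ f, q = pair a (fs p) ∧ q' = pair b (sn p) ∧ ¬ b ∈ a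

/-- `r` is the relation that an injection `f` of `ν` induces. -/
def Rpp (ν f r : ZFSet.{0}) : Prop :=
  ∀ a ∈ ν, ∀ b ∈ ν, ∀ q ∈ f, ∀ q' ∈ f, q = pair a (sn q) → q' = pair b (sn q') →
    (pair (sn q) (sn q') ∈ r ↔ ¬ b ∈ a)

theorem rp_eq {ν ν' δ f f' r : ZFSet.{0}} (hν : ν.IsOrdinal) (hν' : ν'.IsOrdinal)
    (hf : IsInj ν δ f) (hf' : IsInj ν' δ f') (h1 : Rpr ν f r) (h2 : Rpp ν f r)
    (h1' : Rpr ν' f' r) (h2' : Rpp ν' f' r) : ν ⊆ ν' := by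
  have g : ∀ {ν f r : ZFSet.{0}}, Rpp ν f r → ∀ a ∈ ν, ∀ b ∈ ν, ∀ x y, pair a x ∈ f →
      pair b y ∈ f → (pair x y ∈ r ↔ ¬ b ∈ a) := by
    intro ν f r h a ha b hb x y hx hy
    have := h a ha b hb _ hx _ hy (by rw [sn_pair]) (by rw [sn_pair])
    rwa [sn_pair, sn_pair] at this
  have key : ∀ a ∈ ν, ∀ x, pair a x ∈ f → pair a x ∈ f' ∧ a ∈ ν' := by
    intro a
    induction a using ZFSet.inductionOn with
    | _ a ih =>
    intro ha x hx
    have h3 : pair x x ∈ r := (g h2 a ha a ha x x hx hx).2 (ZFSet.mem_irrefl _)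
    obtain ⟨a', ha', -, -, q, hq, -, -, rfl, -, -⟩ := h1' _ h3
    rw [fs_pair] at hq
    have h4 : a = a' := by
      ext b
      constructor
      · intro hb
        have hbν := hν.mem_trans hb ha
        obtain ⟨y, -, hy⟩ := fun_exists hf.1 hbν
        obtain ⟨h5, h6⟩ := ih b hb hbν y hy
        have h7 : pair y x ∈ r := (g h2 b hbν a ha y x hy hx).2 (ZFSet.mem_asymm hb)
        have h8 := (g h2' b h6 a' ha' y x h5 hq).1 h7
        rcases (hν'.mem h6).mem_trichotomous (hν'.mem ha') with h9 | h9 | h9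
        · exact h9
        · subst h9
          have h10 := fun_unique hf'.1 h5 hq
          subst h10
          have h11 := hf.2 _ _ _ hy hx
          subst h11
          exact absurd hb (ZFSet.mem_irrefl _)
        · exact absurd h9 h8
      · intro hb
        have hbν := hν'.mem_trans hb ha'
        obtain ⟨y, -, hy⟩ := fun_exists hf'.1 hbν
        have h7 : pair y x ∈ r := (g h2' b hbν a' ha' y x hy hq).2 (ZFSet.mem_asymm hb)
        obtain ⟨c, hc, d, hd, q1, hq1, q2, hq2, h5, h6, h8⟩ := h1 _ h7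
        rw [fs_pair] at h5
        rw [sn_pair] at h6
        subst h5
        subst h6
        have h9 := hf.2 _ _ _ hx hq2
        subst h9
        rcases (hν.mem hc).mem_trichotomous (hν.mem hd) with h10 | h10 | h10
        · obtain ⟨h11, h12⟩ := ih c h10 hc y hq1
          have h13 := hf'.2 _ _ _ hy h11
          rwa [h13]
        · subst h10
          have h11 := fun_unique hf.1 hx hq1
          subst h11
          have h12 := hf'.2 _ _ _ hy hq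
          subst h12
          exact absurd hb (ZFSet.mem_irrefl _)
        · exact absurd h10 h8
    rw [h4]
    exact ⟨hq, ha'⟩
  intro a ha
  obtain ⟨x, -, hx⟩ := fun_exists hf.1 ha
  exact (key a ha x hx).2

section

variable {M : Set ZFSet.{0}} (hM : IsZF M)

include hM

/-- The theorem of Hartogs. -/
theorem hartogs {δ : ZFSet.{0}} (hδ : δ ∈ M) : ∃ S ∈ M, S.IsOrdinal ∧ ¬ Inj M S δ := by
  have hB := hM.base
  obtain ⟨P, hP, hP'⟩ := hM.power _ (hM.prod_mem hδ hδ)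
  set T : ZFSet.{0} → ZFSet.{0} := fun r => lo M fun ν => ∃ f ∈ M, IsInj ν δ f ∧ Rpr ν f r ∧
    Rpp ν f r with hT
  have hTd : DfnF M M fun w : Fin 1 → ZFSet.{0} => T (w 0) := by
    refine hM.lo' (Q := fun ν w => ∃ f ∈ M, IsInj ν δ f ∧ Rpr ν f (w 0) ∧ Rpp ν f (w 0)) ?_
    apply Dfn.ex
    apply Dfn.and
    · exact hB.isInj' (DfnF.proj 1) (DfnF.const hδ) (DfnF.proj 0)
    apply Dfn.and
    · unfold Rpr
      apply hB.ball (DfnF.proj 2)
      apply hB.bex (DfnF.proj 2)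
      apply hB.bex (DfnF.proj 3)
      apply hB.bex (DfnF.proj 3)
      apply hB.bex (DfnF.proj 4)
      apply Dfn.and
      · exact Dfn.eq (DfnF.proj 1) (hB.pair' (DfnF.proj 3) (hM.fs' (DfnF.proj 4)))
      apply Dfn.and
      · exact Dfn.eq (DfnF.proj 0) (hB.pair' (DfnF.proj 2) (hM.sn' (DfnF.proj 4)))
      · exact (Dfn.mem (DfnF.proj 2) (DfnF.proj 3)).not
    · unfold Rpp
      apply hB.ball (DfnF.proj 1)
      apply hB.ball (DfnF.proj 2)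
      apply hB.ball (DfnF.proj 2)
      apply hB.ball (DfnF.proj 3)
      apply Dfn.imp
      · exact Dfn.eq (DfnF.proj 1) (hB.pair' (DfnF.proj 3) (hM.sn' (DfnF.proj 1)))
      apply Dfn.imp
      · exact Dfn.eq (DfnF.proj 0) (hB.pair' (DfnF.proj 2) (hM.sn' (DfnF.proj 0)))
      apply Dfn.iff
      · exact Dfn.mem (hB.pair' (hM.sn' (DfnF.proj 1)) (hM.sn' (DfnF.proj 0))) (DfnF.proj 6)
      · exact (Dfn.mem (DfnF.proj 2) (DfnF.proj 3)).not
  have hTo : ∀ r, (T r).IsOrdinal := fun r => lo_isOrdinal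
  have hsT : DfnF M M fun w : Fin 1 → ZFSet.{0} => sc (T (w 0)) := hB.insert' hTd hTd
  set S : ZFSet.{0} := ZFSet.sUnion (im (fun r => sc (T r)) P) with hS
  have hSM : S ∈ M := hM.union _ (hM.im_mem hP hsT)
  have hSo : S.IsOrdinal := by
    apply isOrdinal_sUnion
    intro y hy
    obtain ⟨r, -, rfl⟩ := mem_im.1 hy
    exact isOrdinal_sc (hTo r)
  refine ⟨S, hSM, hSo, ?_⟩
  rintro ⟨f, hf, hi⟩
  -- the relation induced by f
  have hrd : Dfn M M fun w : Fin 2 → ZFSet.{0} => ∃ a ∈ S, ∃ b ∈ S, pair a (w 0) ∈ f ∧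
      pair b (w 1) ∈ f ∧ ¬ b ∈ a := by
    (repeat' first
      | assumption
      | exact DfnF.proj _
      | exact DfnF.const (by assumption)
      | exact DfnF.const' (by first | assumption | trivial) (by first | assumption | trivial)
      | exact Dfn.prop _
      | apply Dfn.not | apply Dfn.and | apply Dfn.or | apply Dfn.imp | apply Dfn.iff
      | apply hB.bex | apply hB.ball | apply Dfn.ex | apply Dfn.all
      | apply Dfn.eq | apply Dfn.mem | apply hB.pair')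
  obtain ⟨r, hr, h1, h2⟩ := hM.rel_mem hδ hδ (Q := fun x y => ∃ a ∈ S, ∃ b ∈ S, pair a x ∈ f ∧
    pair b y ∈ f ∧ ¬ b ∈ a) hrd
  have hrP : r ∈ P := (hP' _).2 ⟨hr, h1⟩
  have hfr : Rpr S f r ∧ Rpp S f r := by
    constructor
    · intro p hp
      obtain ⟨x, -, y, -, rfl⟩ := ZFSet.mem_prod.1 (h1 hp)
      obtain ⟨-, -, a, ha, b, hb, h3, h4, h5⟩ := (h2 _ _).1 hp
      exact ⟨a, ha, b, hb, _, h3, _, h4, by rw [fs_pair], by rw [sn_pair], h5⟩
    · intro a ha b hb q hq q' hq' h3 h4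
      obtain ⟨a1, -, x, hx, rfl⟩ := ZFSet.mem_prod.1 (hi.1.1 hq)
      obtain ⟨b1, -, y, hy, rfl⟩ := ZFSet.mem_prod.1 (hi.1.1 hq')
      rw [sn_pair] at h3 h4
      obtain ⟨rfl, -⟩ := ZFSet.pair_inj.1 h3
      obtain ⟨rfl, -⟩ := ZFSet.pair_inj.1 h4
      rw [sn_pair, sn_pair, h2]
      constructor
      · rintro ⟨-, -, a', -, b', -, h5, h6, h7⟩
        rwa [hi.2 _ _ _ h5 hq, hi.2 _ _ _ h6 hq'] at h7
      · intro h5
        exact ⟨hx, hy, a1, ha, b1, hb, hq, hq', h5⟩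
  have h3 : T r = S := by
    obtain ⟨h4, h5, f', hf', hi', h6, h7⟩ := lo_spec (M := M) (P := fun ν => ∃ f ∈ M,
      IsInj ν δ f ∧ Rpr ν f r ∧ Rpp ν f r) ⟨S, hSM, hSo, f, hf, hi, hfr⟩
    apply ZFSet.ext
    intro z
    exact ⟨fun h => rp_eq h5 hSo hi' hi h6 h7 hfr.1 hfr.2 h,
      fun h => rp_eq hSo h5 hi hi' hfr.1 hfr.2 h6 h7 h⟩
  have h4 : T r ∈ S := ZFSet.mem_sUnion.2 ⟨_, mem_im.2 ⟨r, hrP, rfl⟩, ZFSet.mem_insert _ _⟩
  rw [h3] at h4
  exact ZFSet.mem_irrefl _ h4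

/-- The cardinality of an ordinal. -/
theorem exists_card {ξ : ZFSet.{0}} (hξ : ξ ∈ M) (hξo : ξ.IsOrdinal) :
    ∃ ν, IsCard M ν ∧ ν ⊆ ξ ∧ Inj M ξ ν := by
  have h0 : Inj M ξ ξ := Inj.of_subset hM hξ hξ fun _ h => h
  obtain ⟨h1, h2, h3⟩ := lo_spec (M := M) (P := fun ν => Inj M ξ ν) ⟨ξ, hξ, hξo, h0⟩
  refine ⟨_, ⟨h1, h2, ?_⟩, lo_subset hξ hξo h0, h3⟩
  rintro β hβ ⟨f, hf, h4⟩
  have hβM := hM.trans _ h1 _ hβ
  exact lo_min hβM (h2.mem hβ) (Inj.trans hM hξ hβM h3 ⟨f, hf, h4⟩) hβ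

theorem inj_mono {ξ η δ : ZFSet.{0}} (hξ : ξ ∈ M) (hη : η ∈ M) (hδ : δ ∈ M) (h : ξ ⊆ η)
    (h1 : Inj M η δ) : Inj M ξ δ :=
  Inj.trans hM hξ hδ (Inj.of_subset hM hξ hη h) h1

/-- There is a next cardinal. -/
theorem exists_next {μ : ZFSet.{0}} (hμ : μ ∈ M) (hμo : μ.IsOrdinal) :
    ∃ κ, IsCard M κ ∧ μ ∈ κ ∧ ∀ ξ ∈ κ, Inj M ξ μ := by
  obtain ⟨S, hS, hSo, hSn⟩ := hartogs hM hμ
  obtain ⟨h1, h2, h3⟩ := lo_spec (M := M) (P := fun ν => ¬ Inj M ν μ) ⟨S, hS, hSo, hSn⟩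
  have h4 : ∀ ξ ∈ lo M fun ν => ¬ Inj M ν μ, Inj M ξ μ := by
    intro ξ hξ
    by_contra h
    exact lo_min (hM.trans _ h1 _ hξ) (h2.mem hξ) h hξ
  refine ⟨_, ⟨h1, h2, ?_⟩, ?_, h4⟩
  · rintro β hβ h5
    exact h3 (Inj.trans hM h1 hμ h5 (h4 β hβ))
  · rcases hμo.mem_or_subset h2 with h5 | h5
    · exact h5
    · exact absurd (Inj.of_subset hM h1 hμ h5) h3

theorem IsNextCard.inj {μ κ : ZFSet.{0}} (hμ : μ ∈ M) (hμo : μ.IsOrdinal)
    (h : IsNextCard M μ κ) : ∀ ξ ∈ κ, Inj M ξ μ := by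
  intro ξ hξ
  have hξM := hM.trans _ h.1.1 _ hξ
  obtain ⟨ν, h1, h2, h3⟩ := exists_card hM hξM (h.1.2.1.mem hξ)
  have h4 : ν ∈ κ := h1.2.1.mem_of_subset_of_mem h.1.2.1 h2 hξ
  rcases h.2.2 ν h4 h1 with h5 | h5
  · exact Inj.trans hM hξM hμ h3 (Inj.of_subset hM h1.1 hμ (hμo.subset_of_mem h5))
  · rw [h5] at h3
    exact h3

/-- The theorem of Cantor and Bernstein, for cardinals. -/
theorem bij_card {x κ : ZFSet.{0}} (hx : x ∈ M) (hκ : IsCard M κ) (h1 : Inj M x κ)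
    (h2 : ∀ β ∈ κ, ¬ Inj M x β) : Bij M x κ := by
  obtain ⟨τ, hτ, h3, h4, h5⟩ := exists_ord hM hx hκ.1 hκ.2.1 h1
  rcases (h3.subset_iff_eq_or_mem hκ.2.1).1 h4 with h6 | h6
  · rwa [h6] at h5
  · exact absurd h5.inj (h2 τ h6)

theorem bij_card' {x κ : ZFSet.{0}} (hx : x ∈ M) (hκ : IsCard M κ) (h1 : Inj M x κ)
    (h2 : Inj M κ x) : Bij M x κ := by
  refine bij_card hM hx hκ h1 fun β hβ h3 => ?_
  exact hκ.2.2 β hβ (Inj.trans hM hκ.1 (hM.trans _ hκ.1 _ hβ) h2 h3)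

/-- The theorem of Cantor. -/
theorem cantor {μ P : ZFSet.{0}} (hμ : μ ∈ M) (hP : P ∈ M)
    (hP' : ∀ z, z ∈ P ↔ z ∈ M ∧ z ⊆ μ) : ¬ Inj M P μ := by
  have hB := hM.base
  rintro ⟨f, hf, h1⟩
  have hQ : Dfn M M fun w : Fin 1 → ZFSet.{0} => ∃ y ∈ P, pair y (w 0) ∈ f ∧ ¬ w 0 ∈ y := by
    (repeat' first
      | assumption
      | exact DfnF.proj _
      | exact DfnF.const (by assumption)
      | exact DfnF.const' (by first | assumption | trivial) (by first | assumption | trivial)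
      | exact Dfn.prop _
      | apply Dfn.not | apply Dfn.and | apply Dfn.or | apply Dfn.imp | apply Dfn.iff
      | apply hB.bex | apply hB.ball | apply Dfn.ex | apply Dfn.all
      | apply Dfn.eq | apply Dfn.mem | apply hB.pair')
  have hD := hM.sep_mem (Q := fun i => ∃ y ∈ P, pair y i ∈ f ∧ ¬ i ∈ y) hQ hμ
  have hDP : ZFSet.sep (fun i => ∃ y ∈ P, pair y i ∈ f ∧ ¬ i ∈ y) μ ∈ P :=
    (hP' _).2 ⟨hD, fun z hz => (ZFSet.mem_sep.1 hz).1⟩
  obtain ⟨i, hi, h2⟩ := fun_exists h1.1 hDP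
  by_cases h3 : i ∈ ZFSet.sep (fun i => ∃ y ∈ P, pair y i ∈ f ∧ ¬ i ∈ y) μ
  · obtain ⟨-, y, hy, h4, h5⟩ := ZFSet.mem_sep.1 h3
    rw [h1.2 _ _ _ h4 h2] at h5
    exact h5 h3
  · exact h3 (ZFSet.mem_sep.2 ⟨hi, _, hDP, h2, h3⟩)

end

end Pool.Agent.W868
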