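import Pool.Agent.W868.Name

/-!
# Countable sets of names closed under countably many rules
-/

set_option autoImplicit false

namespace Pool.Agent.W868

open PName

/-- The possible inputs of a rule. -/
structure Query (P : Type) where
  n : ℕ
  φ : Fml (PName P) n
  v : Fin n → PName P
  p : P

/-- A rule. -/
abbrev Rule (P : Type) := Query P → PName P × P

variable {P : Type}

/-- The input is in the hull. -/
def Query.In (N : Set (PName P)) (C : Set P) (q : Query P) : Prop :=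
  q.φ.Over N ∧ (∀ i, q.v i ∈ N) ∧ q.p ∈ C

theorem countable_queries {N : Set (PName P)} {C : Set P} (hN : N.Countable) (hC : C.Countable) :
    {q : Query P | q.In N C}.Countable := by
  have h : {q : Query P | q.In N C} = ⋃ n : ℕ,
      (fun t : Fml (PName P) n × (Fin n → PName P) × P => (⟨n, t.1, t.2.1, t.2.2⟩ : Query P)) ''
        ({φ | φ.Over N} ×ˢ ({v | ∀ i, v i ∈ N} ×ˢ C)) := by
    ext q
    simp only [Set.mem_iUnion]
    constructor
    · rintro ⟨h1, h2, h3⟩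
      exact ⟨q.n, (q.φ, q.v, q.p), ⟨h1, h2, h3⟩, rfl⟩
    · rintro ⟨n, ⟨φ, v, p⟩, ⟨h1, h2, h3⟩, rfl⟩
      exact ⟨h1, h2, h3⟩
  rw [h]
  refine Set.countable_iUnion fun n => Set.Countable.image ?_ _
  exact (countable_fml hN n).prod ((Set.countable_pi fun _ => hN).prod hC)

/-- One step of the closure. -/
def hullStep (R : Set (Rule P)) (s : Set (PName P) × Set P) : Set (PName P) × Set P :=
  (s.1 ∪ ⋃ ρ ∈ R, (fun q => (ρ q).1) '' {q | q.In s.1 s.2},
    s.2 ∪ ⋃ ρ ∈ R, (fun q => (ρ q).2) '' {q | q.In s.1 s.2})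

theorem exists_hull (R : Set (Rule P)) (hR : R.Countable) (A : Set (PName P)) (hA : A.Countable)
    (B : Set P) (hB : B.Countable) : ∃ (N : Set (PName P)) (C : Set P), A ⊆ N ∧ B ⊆ C ∧
      N.Countable ∧ C.Countable ∧
      ∀ ρ ∈ R, ∀ q : Query P, q.In N C → (ρ q).1 ∈ N ∧ (ρ q).2 ∈ C := by
  let st : ℕ → Set (PName P) × Set P := fun k => (hullStep R)^[k] (A, B)
  have hs : ∀ k, st (k + 1) = hullStep R (st k) := fun k => Function.iterate_succ_apply' _ _ _
  have hc : ∀ k, (st k).1.Countable ∧ (st k).2.Countable := by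
    intro k
    induction k with
    | zero => exact ⟨hA, hB⟩
    | succ k ih =>
      rw [hs]
      have h1 := countable_queries ih.1 ih.2
      exact ⟨ih.1.union (hR.biUnion fun ρ _ => h1.image _),
        ih.2.union (hR.biUnion fun ρ _ => h1.image _)⟩
  have hm1 : Monotone fun k => (st k).1 := monotone_nat_of_le_succ fun k => by
    rw [hs]
    exact Set.subset_union_left
  have hm2 : Monotone fun k => (st k).2 := monotone_nat_of_le_succ fun k => by
    rw [hs]
    exact Set.subset_union_left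
  refine ⟨⋃ k, (st k).1, ⋃ k, (st k).2, Set.subset_iUnion (fun k => (st k).1) 0,
    Set.subset_iUnion (fun k => (st k).2) 0, Set.countable_iUnion fun k => (hc k).1,
    Set.countable_iUnion fun k => (hc k).2, ?_⟩
  rintro ρ hρ q ⟨h1, h2, h3⟩
  obtain ⟨k1, hk1⟩ := over_iUnion hm1 q.φ h1
  choose f hf using fun i => Set.mem_iUnion.1 (h2 i)
  obtain ⟨k3, hk3⟩ := Set.mem_iUnion.1 h3
  obtain ⟨k2, hk2⟩ : ∃ k, ∀ i, f i ≤ k := by
    refine ⟨Finset.univ.sup f, fun i => Finset.le_sup (Finset.mem_univ i)⟩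
  have hq : q.In (st (max k1 (max k2 k3))).1 (st (max k1 (max k2 k3))).2 := by
    refine ⟨hk1.mono (hm1 (le_max_left _ _)), fun i => ?_, ?_⟩
    · exact hm1 ((hk2 i).trans ((le_max_left _ _).trans (le_max_right _ _))) (hf i)
    · exact hm2 ((le_max_right _ _).trans (le_max_right _ _)) hk3
  constructor
  · refine Set.mem_iUnion.2 ⟨max k1 (max k2 k3) + 1, ?_⟩
    rw [hs]
    exact Or.inr (Set.mem_biUnion hρ ⟨q, hq, rfl⟩)
  · refine Set.mem_iUnion.2 ⟨max k1 (max k2 k3) + 1, ?_⟩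
    rw [hs]
    exact Or.inr (Set.mem_biUnion hρ ⟨q, hq, rfl⟩)

/-- A generic descending sequence for countably many dense sets. -/
theorem exists_generic [Preorder P] {ι : Type*} (I : Set ι) (hI : I.Countable)
    (E : ι → P → Prop) (C : Set P) (hE : ∀ i ∈ I, ∀ p ∈ C, ∃ q ∈ C, q ≤ p ∧ E i q) (p₀ : P)
    (h₀ : p₀ ∈ C) : ∃ g : ℕ → P, g 0 = p₀ ∧ (∀ n, g n ∈ C) ∧ (∀ n, g (n + 1) ≤ g n) ∧
      ∀ i ∈ I, ∃ n, E i (g n) := by
  classical
  rcases I.eq_empty_or_nonempty with hI0 | hI0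
  · subst hI0
    exact ⟨fun _ => p₀, rfl, fun _ => h₀, fun _ => le_rfl, fun i hi => hi.elim⟩
  obtain ⟨f, hf⟩ := hI.exists_eq_range hI0
  have hE' : ∀ (n : ℕ) (p : C), ∃ q : C, q.1 ≤ p.1 ∧ E (f n) q.1 := by
    intro n p
    obtain ⟨q, hq, h1, h2⟩ := hE (f n) (hf ▸ ⟨n, rfl⟩) p.1 p.2
    exact ⟨⟨q, hq⟩, h1, h2⟩
  choose F hF using hE'
  let g : ℕ → C := fun n => Nat.rec ⟨p₀, h₀⟩ (fun k p => F k p) n
  refine ⟨fun n => (g n).1, rfl, fun n => (g n).2, fun n => (hF n (g n)).1, ?_⟩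
  intro i hi
  rw [hf] at hi
  obtain ⟨n, rfl⟩ := hi
  exact ⟨n + 1, (hF n (g n)).2⟩

end Pool.Agent.W868
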