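import Pool.Agent.W868.Tool

/-!
# Images, projections, definition by cases and least ordinals in a transitive model
-/

set_option autoImplicit false
set_option linter.unreachableTactic false
set_option linter.unusedTactic false

namespace Pool.Agent.W868

open ZFSet (pair)

/-- The image of a set. -/
noncomputable def im (h : ZFSet.{0} → ZFSet.{0}) (x : ZFSet.{0}) : ZFSet.{0} :=
  ZFSet.range fun p : x => h p

theorem mem_im {h : ZFSet.{0} → ZFSet.{0}} {x y : ZFSet.{0}} :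
    y ∈ im h x ↔ ∃ p ∈ x, y = h p := by
  rw [im, ZFSet.mem_range]
  constructor
  · rintro ⟨p, rfl⟩
    exact ⟨p, p.2, rfl⟩
  · rintro ⟨p, hp, rfl⟩
    exact ⟨⟨p, hp⟩, rfl⟩

theorem im_congr {h h' : ZFSet.{0} → ZFSet.{0}} {x : ZFSet.{0}} (H : ∀ p ∈ x, h p = h' p) :
    im h x = im h' x := by
  ext y
  rw [mem_im, mem_im]
  exact exists_congr fun p => and_congr_right fun hp => by rw [H p hp]

open Classical in
/-- The first component of a pair. -/
noncomputable def fs (p : ZFSet.{0}) : ZFSet.{0} :=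
  if h : ∃ a b, p = pair a b then h.choose else ∅

open Classical in
/-- The second component of a pair. -/
noncomputable def sn (p : ZFSet.{0}) : ZFSet.{0} :=
  if h : ∃ a b, p = pair a b then h.choose_spec.choose else ∅

@[simp] theorem fs_pair (a b : ZFSet.{0}) : fs (pair a b) = a := by
  have h : ∃ c d, pair a b = pair c d := ⟨a, b, rfl⟩
  rw [fs, dif_pos h]
  exact (ZFSet.pair_inj.1 h.choose_spec.choose_spec).1.symm

@[simp] theorem sn_pair (a b : ZFSet.{0}) : sn (pair a b) = b := by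
  have h : ∃ c d, pair a b = pair c d := ⟨a, b, rfl⟩
  rw [sn, dif_pos h]
  exact (ZFSet.pair_inj.1 h.choose_spec.choose_spec).2.symm

/-- The least ordinal of `M` with the property `P`. -/
noncomputable def lo (M : Set ZFSet.{0}) (P : ZFSet.{0} → Prop) : ZFSet.{0} :=
  open Classical in
  if h : {ζ : ZFSet.{0} | ζ ∈ M ∧ ζ.IsOrdinal ∧ P ζ}.Nonempty then ZFSet.mem_wf.min _ h else ∅

theorem lo_spec {M : Set ZFSet.{0}} {P : ZFSet.{0} → Prop}
    (h : ∃ ζ ∈ M, ζ.IsOrdinal ∧ P ζ) : lo M P ∈ M ∧ (lo M P).IsOrdinal ∧ P (lo M P) := by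
  have h' : {ζ : ZFSet.{0} | ζ ∈ M ∧ ζ.IsOrdinal ∧ P ζ}.Nonempty := h
  rw [lo, dif_pos h']
  exact ZFSet.mem_wf.min_mem _ h'

theorem lo_min {M : Set ZFSet.{0}} {P : ZFSet.{0} → Prop} {ζ : ZFSet.{0}} (h1 : ζ ∈ M)
    (h2 : ζ.IsOrdinal) (h3 : P ζ) : ζ ∉ lo M P := by
  have h' : {ζ : ZFSet.{0} | ζ ∈ M ∧ ζ.IsOrdinal ∧ P ζ}.Nonempty := ⟨ζ, h1, h2, h3⟩
  rw [lo, dif_pos h']
  have h4 : ζ ∈ {ζ : ZFSet.{0} | ζ ∈ M ∧ ζ.IsOrdinal ∧ P ζ} := ⟨h1, h2, h3⟩
  exact ZFSet.mem_wf.not_lt_min _ h4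

theorem lo_none {M : Set ZFSet.{0}} {P : ZFSet.{0} → Prop}
    (h : ¬ ∃ ζ ∈ M, ζ.IsOrdinal ∧ P ζ) : lo M P = ∅ := by
  have h' : ¬ {ζ : ZFSet.{0} | ζ ∈ M ∧ ζ.IsOrdinal ∧ P ζ}.Nonempty := h
  rw [lo, dif_neg h']

theorem lo_isOrdinal {M : Set ZFSet.{0}} {P : ZFSet.{0} → Prop} : (lo M P).IsOrdinal := by
  by_cases h : ∃ ζ ∈ M, ζ.IsOrdinal ∧ P ζ
  · exact (lo_spec h).2.1
  · rw [lo_none h]
    exact ZFSet.isOrdinal_empty

theorem lo_subset {M : Set ZFSet.{0}} {P : ZFSet.{0} → Prop} {ζ : ZFSet.{0}} (h1 : ζ ∈ M)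
    (h2 : ζ.IsOrdinal) (h3 : P ζ) : lo M P ⊆ ζ := by
  rcases h2.mem_or_subset lo_isOrdinal with h | h
  · exact absurd h (lo_min h1 h2 h3)
  · exact h

/-! ### General facts on definable functions -/

section general

variable {S M : Set ZFSet.{0}} {n : ℕ}

theorem DfnF.congr {F G : (Fin n → ZFSet.{0}) → ZFSet.{0}} (h : DfnF S M F)
    (h' : ∀ v, (∀ i, v i ∈ M) → F v = G v) : DfnF S M G := by
  refine ⟨fun v hv => h' v hv ▸ h.1 v hv, h.2.congr fun w hw => ?_⟩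
  rw [h' (Fin.tail w) fun i => hw _]

theorem DfnF.of_unique {F : (Fin n → ZFSet.{0}) → ZFSet.{0}}
    {R : ZFSet.{0} → (Fin n → ZFSet.{0}) → Prop}
    (hR : Dfn S M fun w : Fin (n + 1) → ZFSet.{0} => R (w 0) (Fin.tail w))
    (h : ∀ v, (∀ i, v i ∈ M) → F v ∈ M ∧ ∀ y ∈ M, (R y v ↔ y = F v)) : DfnF S M F := by
  refine ⟨fun v hv => (h v hv).1, hR.congr fun w hw => ?_⟩
  exact (h (Fin.tail w) fun i => hw _).2 (w 0) (hw 0)

open Classical in
theorem DfnF.ite {Q : (Fin n → ZFSet.{0}) → Prop} {F G : (Fin n → ZFSet.{0}) → ZFSet.{0}}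
    (hQ : Dfn S M Q) (hF : DfnF S M F) (hG : DfnF S M G) :
    DfnF S M fun v => if Q v then F v else G v := by
  refine DfnF.of_unique (R := fun y v => (Q v ∧ y = F v) ∨ (¬ Q v ∧ y = G v)) ?_ ?_
  · exact (hQ.tail.and (Dfn.eq (DfnF.proj 0) hF.tail)).or
      (hQ.tail.not.and (Dfn.eq (DfnF.proj 0) hG.tail))
  · intro v hv
    by_cases h : Q v
    · simp only [h, if_true, true_and, not_true, false_and, or_false]
      exact ⟨hF.1 v hv, fun _ _ => trivial⟩
    · simp only [h, if_false, false_and, not_false_eq_true, true_and, false_or]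
      exact ⟨hG.1 v hv, fun _ _ => trivial⟩

theorem Dfn.specN {m : ℕ} {R : (Fin n → ZFSet.{0}) → Prop} (h : Dfn M M R)
    (σ : Fin n → Fin m ⊕ ZFSet.{0}) (hσ : ∀ i, TOver M (σ i)) :
    Dfn M M fun w : Fin m → ZFSet.{0} => R fun i => Sum.elim w id (σ i) := by
  obtain ⟨φ, h1, h2⟩ := h
  refine ⟨φ.subst σ, over_subst _ _ hσ h1, fun v hv => ?_⟩
  rw [sat_subst]
  refine h2 _ fun i => ?_
  have h3 := hσ i
  cases h4 : σ i with
  | inl k => exact hv k
  | inr a =>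
    rw [h4] at h3
    exact h3 a rfl

theorem Dfn.spec {R : ZFSet.{0} → (Fin n → ZFSet.{0}) → Prop}
    (h : Dfn M M fun w : Fin (n + 1) → ZFSet.{0} => R (w 0) (Fin.tail w))
    {v : Fin n → ZFSet.{0}} (hv : ∀ i, v i ∈ M) :
    Dfn M M fun w : Fin 1 → ZFSet.{0} => R (w 0) v := by
  refine h.specN (m := 1) (Fin.cons (Sum.inl 0) fun i => Sum.inr (v i)) fun i => ?_
  refine Fin.cases ?_ (fun i => ?_) i
  · exact TOver.inl _
  · exact tOver_inr.2 (hv i)

theorem Dfn.spec2 {R : ZFSet.{0} → ZFSet.{0} → (Fin n → ZFSet.{0}) → Prop}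
    (h : Dfn M M fun w : Fin (n + 2) → ZFSet.{0} => R (w 0) (w 1) (Fin.tail (Fin.tail w)))
    {v : Fin n → ZFSet.{0}} (hv : ∀ i, v i ∈ M) :
    Dfn M M fun w : Fin 2 → ZFSet.{0} => R (w 0) (w 1) v := by
  refine h.specN (m := 2)
    (Fin.cons (Sum.inl 0) (Fin.cons (Sum.inl 1) fun i => Sum.inr (v i))) fun i => ?_
  refine Fin.cases ?_ (fun i => ?_) i
  · exact TOver.inl _
  · refine Fin.cases ?_ (fun i => ?_) i
    · exact TOver.inl _
    · exact tOver_inr.2 (hv i)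

theorem DfnF.spec {h : ZFSet.{0} → (Fin n → ZFSet.{0}) → ZFSet.{0}}
    (hh : DfnF M M fun w : Fin (n + 1) → ZFSet.{0} => h (w 0) (Fin.tail w))
    {v : Fin n → ZFSet.{0}} (hv : ∀ i, v i ∈ M) :
    DfnF M M fun w : Fin 1 → ZFSet.{0} => h (w 0) v := by
  refine ⟨fun w hw => hh.1 (Fin.cons (w 0) v) fun i => ?_, ?_⟩
  · refine Fin.cases ?_ (fun i => ?_) i
    · exact hw 0
    · exact hv i
  · exact Dfn.spec2 (R := fun y x v => y = h x v) hh.2 hv

end general

namespace IsZF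

variable {M : Set ZFSet.{0}} (hM : IsZF M) {n : ℕ}
  {F G : (Fin n → ZFSet.{0}) → ZFSet.{0}}

include hM

theorem im_mem {h : ZFSet.{0} → ZFSet.{0}} {x : ZFSet.{0}} (hx : x ∈ M)
    (hh : DfnF M M fun w : Fin 1 → ZFSet.{0} => h (w 0)) : im h x ∈ M := by
  obtain ⟨y, hy, h1⟩ := hM.image_mem hx hh
  have h2 : y = im h x := by
    ext z
    rw [h1, mem_im]
  exact h2 ▸ hy

theorem im' (hF : DfnF M M F) {h : ZFSet.{0} → (Fin n → ZFSet.{0}) → ZFSet.{0}}
    (hh : DfnF M M fun w : Fin (n + 1) → ZFSet.{0} => h (w 0) (Fin.tail w)) :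
    DfnF M M fun v => im (fun p => h p v) (F v) := by
  have hB := hM.base
  refine DfnF.of_unique (R := fun y v => (∀ z ∈ y, ∃ p ∈ F v, z = h p v) ∧
    ∀ p ∈ F v, ∃ z ∈ y, z = h p v) ?_ ?_
  · apply Dfn.and
    · apply hB.ball (DfnF.proj _)
      apply hB.bex hF.tail.tail
      refine Dfn.eq (DfnF.proj 1) ?_
      exact ⟨fun v hv => hh.1 (Fin.cons (v 0) (Fin.tail (Fin.tail (Fin.tail v)))) fun i => by
          refine Fin.cases ?_ (fun i => ?_) i
          · exact hv 0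
          · exact hv _,
        hh.2.comp (Fin.cons 0 (Fin.cons 1 fun i => i.succ.succ.succ.succ))⟩
    · apply hB.ball hF.tail
      apply hB.bex (DfnF.proj _)
      refine Dfn.eq (DfnF.proj 0) ?_
      exact ⟨fun v hv => hh.1 (Fin.cons (v 1) (Fin.tail (Fin.tail (Fin.tail v)))) fun i => by
          refine Fin.cases ?_ (fun i => ?_) i
          · exact hv 1
          · exact hv _,
        hh.2.comp (Fin.cons 0 (Fin.cons 2 fun i => i.succ.succ.succ.succ))⟩
  · intro v hv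
    refine ⟨hM.im_mem (hF.1 v hv) (hh.spec hv), fun y hy => ?_⟩
    constructor
    · rintro ⟨h1, h2⟩
      ext z
      rw [mem_im]
      constructor
      · exact h1 z
      · rintro ⟨p, hp, rfl⟩
        obtain ⟨z, hz, hz'⟩ := h2 p hp
        exact hz' ▸ hz
    · rintro rfl
      exact ⟨fun z hz => mem_im.1 hz, fun p hp => ⟨_, mem_im.2 ⟨p, hp, rfl⟩, rfl⟩⟩

theorem sep' (hF : DfnF M M F) {Q : ZFSet.{0} → (Fin n → ZFSet.{0}) → Prop}
    (hQ : Dfn M M fun w : Fin (n + 1) → ZFSet.{0} => Q (w 0) (Fin.tail w)) :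
    DfnF M M fun v => ZFSet.sep (fun p => Q p v) (F v) := by
  have hB := hM.base
  refine DfnF.of_unique (R := fun y v => (∀ z ∈ y, z ∈ F v ∧ Q z v) ∧
    ∀ z ∈ F v, Q z v → z ∈ y) ?_ ?_
  · apply Dfn.and
    · apply hB.ball (DfnF.proj _)
      exact (Dfn.mem (DfnF.proj _) hF.tail.tail).and
        (hQ.comp (Fin.cons 0 fun i => i.succ.succ))
    · apply hB.ball hF.tail
      apply Dfn.imp (hQ.comp (Fin.cons 0 fun i => i.succ.succ))
      exact Dfn.mem (DfnF.proj 0) (DfnF.proj 1)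
  · intro v hv
    refine ⟨hM.sep_mem (Q := fun p => Q p v) (hQ.spec hv) (hF.1 v hv), fun y hy => ?_⟩
    constructor
    · rintro ⟨h1, h2⟩
      ext z
      rw [ZFSet.mem_sep]
      exact ⟨h1 z, fun h => h2 z h.1 h.2⟩
    · rintro rfl
      exact ⟨fun z hz => ZFSet.mem_sep.1 hz, fun z h h' => ZFSet.mem_sep.2 ⟨h, h'⟩⟩

theorem prod' (hF : DfnF M M F) (hG : DfnF M M G) : DfnF M M fun v => ZFSet.prod (F v) (G v) := by
  have hB := hM.base
  refine DfnF.of_unique (R := fun y v => (∀ z ∈ y, ∃ a ∈ F v, ∃ b ∈ G v, z = pair a b) ∧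
    ∀ a ∈ F v, ∀ b ∈ G v, pair a b ∈ y) ?_ ?_
  · have h1 := hF.tail
    have h2 := hG.tail
    have h3 := h1.tail
    have h4 := h2.tail
    have h5 := h4.tail
    (repeat' first
      | assumption
      | exact DfnF.proj _
      | apply Dfn.and
      | apply hB.bex | apply hB.ball
      | apply Dfn.eq | apply Dfn.mem | apply hB.pair')
  · intro v hv
    refine ⟨hM.prod_mem (hF.1 v hv) (hG.1 v hv), fun y hy => ?_⟩
    constructor
    · rintro ⟨h1, h2⟩
      ext z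
      rw [ZFSet.mem_prod]
      constructor
      · exact h1 z
      · rintro ⟨a, ha, b, hb, rfl⟩
        exact h2 a ha b hb
    · rintro rfl
      exact ⟨fun z hz => ZFSet.mem_prod.1 hz, fun a ha b hb => ZFSet.pair_mem_prod.2 ⟨ha, hb⟩⟩

theorem fs' (hF : DfnF M M F) : DfnF M M fun v => fs (F v) := by
  have hB := hM.base
  refine DfnF.comp1 (f := fs) ?_ hF
  refine DfnF.of_unique (R := fun y v => (∃ b ∈ M, v 0 = pair y b) ∨
    (y = ∅ ∧ ¬ ∃ a ∈ M, ∃ b ∈ M, v 0 = pair a b)) ?_ ?_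
  · have h0 := hM.empty_mem
    (repeat' first
      | assumption
      | exact DfnF.proj _
      | exact DfnF.const (by assumption)
      | exact DfnF.const' (by first | assumption | trivial) (by first | assumption | trivial)
      | exact Dfn.prop _
      | apply Dfn.not | apply Dfn.and | apply Dfn.or | apply Dfn.imp | apply Dfn.iff
      | apply hB.bex | apply hB.ball | apply Dfn.ex | apply Dfn.all
      | apply Dfn.eq | apply Dfn.mem | apply hB.pair')
  · intro v hv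
    by_cases h : ∃ a b, v 0 = pair a b
    · obtain ⟨a, b, h1⟩ := h
      have h2 := hM.of_pair_mem (h1 ▸ hv 0)
      rw [h1, fs_pair]
      refine ⟨h2.1, fun y _ => ?_⟩
      constructor
      · rintro (⟨b', -, h3⟩ | ⟨-, h3⟩)
        · exact (ZFSet.pair_inj.1 h3).1.symm
        · exact absurd ⟨a, h2.1, b, h2.2, rfl⟩ h3
      · rintro rfl
        exact Or.inl ⟨b, h2.2, rfl⟩
    · rw [fs, dif_neg h]
      refine ⟨hM.empty_mem, fun y _ => ?_⟩
      constructor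
      · rintro (⟨b', -, h3⟩ | ⟨h3, -⟩)
        · exact absurd ⟨y, b', h3⟩ h
        · exact h3
      · rintro rfl
        exact Or.inr ⟨rfl, fun ⟨a, _, b, _, h3⟩ => h ⟨a, b, h3⟩⟩

theorem sn' (hF : DfnF M M F) : DfnF M M fun v => sn (F v) := by
  have hB := hM.base
  refine DfnF.comp1 (f := sn) ?_ hF
  refine DfnF.of_unique (R := fun y v => (∃ b ∈ M, v 0 = pair b y) ∨
    (y = ∅ ∧ ¬ ∃ a ∈ M, ∃ b ∈ M, v 0 = pair a b)) ?_ ?_
  · have h0 := hM.empty_mem
    (repeat' first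
      | assumption
      | exact DfnF.proj _
      | exact DfnF.const (by assumption)
      | exact DfnF.const' (by first | assumption | trivial) (by first | assumption | trivial)
      | exact Dfn.prop _
      | apply Dfn.not | apply Dfn.and | apply Dfn.or | apply Dfn.imp | apply Dfn.iff
      | apply hB.bex | apply hB.ball | apply Dfn.ex | apply Dfn.all
      | apply Dfn.eq | apply Dfn.mem | apply hB.pair')
  · intro v hv
    by_cases h : ∃ a b, v 0 = pair a b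
    · obtain ⟨a, b, h1⟩ := h
      have h2 := hM.of_pair_mem (h1 ▸ hv 0)
      rw [h1, sn_pair]
      refine ⟨h2.2, fun y _ => ?_⟩
      constructor
      · rintro (⟨b', -, h3⟩ | ⟨-, h3⟩)
        · exact (ZFSet.pair_inj.1 h3).2.symm
        · exact absurd ⟨a, h2.1, b, h2.2, rfl⟩ h3
      · rintro rfl
        exact Or.inl ⟨a, h2.1, rfl⟩
    · rw [sn, dif_neg h]
      refine ⟨hM.empty_mem, fun y _ => ?_⟩
      constructor
      · rintro (⟨b', -, h3⟩ | ⟨h3, -⟩)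
        · exact absurd ⟨b', y, h3⟩ h
        · exact h3
      · rintro rfl
        exact Or.inr ⟨rfl, fun ⟨a, _, b, _, h3⟩ => h ⟨a, b, h3⟩⟩

theorem fs_mem {x : ZFSet.{0}} (hx : x ∈ M) : fs x ∈ M :=
  (hM.fs' (DfnF.const hx)).1 Fin.elim0 fun i => i.elim0

theorem sn_mem {x : ZFSet.{0}} (hx : x ∈ M) : sn x ∈ M :=
  (hM.sn' (DfnF.const hx)).1 Fin.elim0 fun i => i.elim0

theorem lo' {Q : ZFSet.{0} → (Fin n → ZFSet.{0}) → Prop}
    (hQ : Dfn M M fun w : Fin (n + 1) → ZFSet.{0} => Q (w 0) (Fin.tail w)) :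
    DfnF M M fun v => lo M fun ζ => Q ζ v := by
  have hB := hM.base
  have h0 := hM.empty_mem
  refine DfnF.of_unique (R := fun y v => (y.IsOrdinal ∧ Q y v ∧ ∀ ζ ∈ y, ¬ Q ζ v) ∨
    (y = ∅ ∧ ¬ ∃ ζ ∈ M, ζ.IsOrdinal ∧ Q ζ v)) ?_ ?_
  · have h1 : Dfn M M fun w : Fin (n + 2) → ZFSet.{0} => Q (w 0) (Fin.tail (Fin.tail w)) :=
      hQ.comp (Fin.cons 0 fun i => i.succ.succ)
    apply Dfn.or
    · apply Dfn.and (hB.isOrdinal' (DfnF.proj 0))
      apply Dfn.and hQ
      exact hB.ball (DfnF.proj 0) h1.not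
    · apply Dfn.and (Dfn.eq (DfnF.proj 0) (DfnF.const h0))
      apply Dfn.not
      apply Dfn.ex
      exact (hB.isOrdinal' (DfnF.proj 0)).and h1
  · intro v hv
    by_cases h : ∃ ζ ∈ M, ζ.IsOrdinal ∧ Q ζ v
    · obtain ⟨h1, h2, h3⟩ := lo_spec h
      refine ⟨h1, fun y hy => ?_⟩
      constructor
      · rintro (⟨h4, h5, h6⟩ | ⟨-, h4⟩)
        · rcases h4.mem_trichotomous h2 with h7 | h7 | h7
          · exact absurd h7 (lo_min hy h4 h5)
          · exact h7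
          · exact absurd h3 (h6 _ h7)
        · exact absurd h h4
      · rintro rfl
        exact Or.inl ⟨h2, h3, fun ζ hζ h4 => lo_min (hM.trans _ h1 _ hζ) (h2.mem hζ) h4 hζ⟩
    · rw [lo_none h]
      refine ⟨h0, fun y hy => ?_⟩
      constructor
      · rintro (⟨h4, h5, h6⟩ | ⟨h4, -⟩)
        · exact absurd ⟨y, hy, h4, h5⟩ h
        · exact h4
      · rintro rfl
        exact Or.inr ⟨rfl, h⟩

end IsZF

end Pool.Agent.W868
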