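import Pool.Agent.W868.LZF
import Pool.Agent.W868.Base2

/-!
# Injections in a transitive model
-/

set_option autoImplicit false
set_option linter.unreachableTactic false
set_option linter.unusedTactic false

namespace Pool.Agent.W868

open ZFSet (pair)
open Cardinal

theorem card_le_of_isInj {x y f : ZFSet.{0}} (h : IsInj x y f) : x.card ≤ y.card := by
  have h1 : ∀ a : {z // z ∈ x}, ∃ b : {z // z ∈ y}, pair a.1 b.1 ∈ f := by
    rintro ⟨a, ha⟩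
    obtain ⟨b, hb, -⟩ := h.1.2 a ha
    exact ⟨⟨b, (ZFSet.pair_mem_prod.1 (h.1.1 hb)).2⟩, hb⟩
  choose e he using h1
  have h2 : Function.Injective e := by
    intro a a' haa
    have h3 := he a'
    rw [← haa] at h3
    exact Subtype.ext (h.2 _ _ _ (he a) h3)
  rw [ZFSet.card, ZFSet.card]
  exact Cardinal.mk_le_of_injective
    (f := fun a => equivShrink {z // z ∈ y} (e ((equivShrink {z // z ∈ x}).symm a)))
    ((equivShrink _).injective.comp (h2.comp (equivShrink _).symm.injective))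

theorem card_im_le {h : ZFSet.{0} → ZFSet.{0}} {x : ZFSet.{0}} : (im h x).card ≤ x.card := by
  rw [ZFSet.card, ZFSet.card]
  refine Cardinal.mk_le_of_surjective
    (f := fun a => equivShrink {z // z ∈ im h x} ⟨h ((equivShrink {z // z ∈ x}).symm a).1,
      mem_im.2 ⟨_, ((equivShrink {z // z ∈ x}).symm a).2, rfl⟩⟩) ?_
  intro b
  obtain ⟨p, hp, h1⟩ := mem_im.1 ((equivShrink {z // z ∈ im h x}).symm b).2
  refine ⟨equivShrink {z // z ∈ x} ⟨p, hp⟩, ?_⟩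
  simp only [Equiv.symm_apply_apply]
  rw [← Equiv.eq_symm_apply]
  exact Subtype.ext h1.symm

theorem not_le_nat {x y : ZFSet.{0}} {n : ℕ} (hx : ZFSet.omega ⊆ x) (h : x.card ≤ y.card)
    (hy : y.card ≤ (n : Cardinal)) : False := by
  have h1 := (ZFSet.card_mono hx).trans (h.trans hy)
  rw [card_omega] at h1
  exact absurd h1 (not_le.2 (Cardinal.natCast_lt_aleph0 (n := n)))

/-- In `M` there is an injection of `x` into `y`. -/
def Inj (M : Set ZFSet.{0}) (x y : ZFSet.{0}) : Prop := ∃ f ∈ M, IsInj x y f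

theorem fun_exists {x y f a : ZFSet.{0}} (h : ZFSet.IsFunc x y f) (ha : a ∈ x) :
    ∃ b ∈ y, pair a b ∈ f := by
  obtain ⟨b, hb, -⟩ := h.2 a ha
  exact ⟨b, (ZFSet.pair_mem_prod.1 (h.1 hb)).2, hb⟩

theorem fun_unique {x y f a b b' : ZFSet.{0}} (h : ZFSet.IsFunc x y f) (hb : pair a b ∈ f)
    (hb' : pair a b' ∈ f) : b = b' := by
  obtain ⟨w, -, hw⟩ := h.2 a (ZFSet.pair_mem_prod.1 (h.1 hb)).1
  rw [hw b hb, hw b' hb']

section

variable {M : Set ZFSet.{0}} (hM : IsZF M)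

include hM

/-- An injection defined by a relation. -/
theorem inj_of_rel {x y : ZFSet.{0}} (hx : x ∈ M) (hy : y ∈ M)
    {R : ZFSet.{0} → ZFSet.{0} → Prop}
    (hR : Dfn M M fun w : Fin 2 → ZFSet.{0} => R (w 0) (w 1))
    (h1 : ∀ a ∈ x, ∃ b ∈ y, R a b) (h2 : ∀ a ∈ x, ∀ b ∈ y, ∀ b' ∈ y, R a b → R a b' → b = b')
    (h3 : ∀ a ∈ x, ∀ a' ∈ x, ∀ b ∈ y, R a b → R a' b → a = a') :
    ∃ f ∈ M, IsInj x y f ∧ ∀ a b, pair a b ∈ f ↔ a ∈ x ∧ b ∈ y ∧ R a b := by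
  obtain ⟨f, hf, h4, h5⟩ := hM.rel_mem hx hy hR
  refine ⟨f, hf, ⟨⟨h4, fun a ha => ?_⟩, ?_⟩, h5⟩
  · obtain ⟨b, hb, h6⟩ := h1 a ha
    exact ⟨b, (h5 _ _).2 ⟨ha, hb, h6⟩, fun b' hb' =>
      h2 a ha b' ((h5 _ _).1 hb').2.1 b hb ((h5 _ _).1 hb').2.2 h6⟩
  · intro a a' b ha ha'
    rw [h5] at ha ha'
    exact h3 a ha.1 a' ha'.1 b ha.2.1 ha.2.2 ha'.2.2

theorem Inj.of_rel {x y : ZFSet.{0}} (hx : x ∈ M) (hy : y ∈ M)
    {R : ZFSet.{0} → ZFSet.{0} → Prop}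
    (hR : Dfn M M fun w : Fin 2 → ZFSet.{0} => R (w 0) (w 1))
    (h1 : ∀ a ∈ x, ∃ b ∈ y, R a b) (h2 : ∀ a ∈ x, ∀ b ∈ y, ∀ b' ∈ y, R a b → R a b' → b = b')
    (h3 : ∀ a ∈ x, ∀ a' ∈ x, ∀ b ∈ y, R a b → R a' b → a = a') : Inj M x y := by
  obtain ⟨f, hf, h4, -⟩ := inj_of_rel hM hx hy hR h1 h2 h3
  exact ⟨f, hf, h4⟩

theorem Inj.of_fun {x y : ZFSet.{0}} (hx : x ∈ M) (hy : y ∈ M) {h : ZFSet.{0} → ZFSet.{0}}
    (hh : DfnF M M fun w : Fin 1 → ZFSet.{0} => h (w 0)) (h1 : ∀ a ∈ x, h a ∈ y)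
    (h2 : ∀ a ∈ x, ∀ a' ∈ x, h a = h a' → a = a') : Inj M x y := by
  have hR : Dfn M M fun w : Fin 2 → ZFSet.{0} => w 1 = h (w 0) :=
    Dfn.eq (DfnF.proj 1) (DfnF.comp1 (f := h) hh (DfnF.proj 0))
  obtain ⟨f, hf, h3, -⟩ := inj_of_rel hM hx hy (R := fun a b => b = h a) hR
    (fun a ha => ⟨_, h1 a ha, rfl⟩) (fun a _ b _ b' _ h3 h4 => h3.trans h4.symm)
    (fun a ha a' ha' b _ h3 h4 => h2 a ha a' ha' (h3.symm.trans h4))
  exact ⟨f, hf, h3⟩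

theorem Inj.of_subset {x y : ZFSet.{0}} (hx : x ∈ M) (hy : y ∈ M) (h : x ⊆ y) : Inj M x y :=
  Inj.of_fun hM hx hy (h := fun a => a) (DfnF.proj 0) (fun _ ha => h ha) fun _ _ _ _ h => h

theorem Inj.trans {x y z : ZFSet.{0}} (hx : x ∈ M) (hz : z ∈ M) (h1 : Inj M x y)
    (h2 : Inj M y z) : Inj M x z := by
  have hB := hM.base
  obtain ⟨f, hf, h1⟩ := h1
  obtain ⟨g, hg, h2⟩ := h2
  have hR : Dfn M M fun w : Fin 2 → ZFSet.{0} => ∃ b ∈ M, pair (w 0) b ∈ f ∧ pair b (w 1) ∈ g := by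
    (repeat' first
      | assumption
      | exact DfnF.proj _
      | exact DfnF.const (by assumption)
      | exact DfnF.const' (by first | assumption | trivial) (by first | assumption | trivial)
      | exact Dfn.prop _
      | apply Dfn.not | apply Dfn.and | apply Dfn.or | apply Dfn.imp | apply Dfn.iff
      | apply hB.bex | apply hB.ball | apply Dfn.ex | apply Dfn.all
      | apply Dfn.eq | apply Dfn.mem | apply hB.pair')
  have hMb : ∀ {a b}, pair a b ∈ f → b ∈ M := fun h => (hM.of_pair_mem (hM.trans _ hf _ h)).2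
  refine Inj.of_rel hM hx hz
    (R := fun a c => ∃ b ∈ M, pair a b ∈ f ∧ pair b c ∈ g) hR ?_ ?_ ?_
  · intro a ha
    obtain ⟨b, hb, h3⟩ := fun_exists h1.1 ha
    obtain ⟨c, hc, h4⟩ := fun_exists h2.1 hb
    exact ⟨c, hc, b, hMb h3, h3, h4⟩
  · rintro a - c - c' - ⟨b, -, h3, h4⟩ ⟨b', -, h5, h6⟩
    obtain rfl := fun_unique h1.1 h3 h5
    exact fun_unique h2.1 h4 h6
  · rintro a - a' - c - ⟨b, -, h3, h4⟩ ⟨b', -, h5, h6⟩
    obtain rfl := h2.2 _ _ _ h4 h6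
    exact h1.2 _ _ _ h3 h5

theorem Inj.prod {x y x' y' : ZFSet.{0}} (hx : x ∈ M) (hy : y ∈ M) (hx' : x' ∈ M)
    (hy' : y' ∈ M) (h1 : Inj M x x') (h2 : Inj M y y') :
    Inj M (ZFSet.prod x y) (ZFSet.prod x' y') := by
  have hB := hM.base
  obtain ⟨f, hf, h1⟩ := h1
  obtain ⟨g, hg, h2⟩ := h2
  have hR : Dfn M M fun w : Fin 2 → ZFSet.{0} => ∃ a ∈ M, ∃ b ∈ M, ∃ c ∈ M, ∃ d ∈ M,
      w 0 = pair a b ∧ w 1 = pair c d ∧ pair a c ∈ f ∧ pair b d ∈ g := by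
    (repeat' first
      | assumption
      | exact DfnF.proj _
      | exact DfnF.const (by assumption)
      | exact DfnF.const' (by first | assumption | trivial) (by first | assumption | trivial)
      | exact Dfn.prop _
      | apply Dfn.not | apply Dfn.and | apply Dfn.or | apply Dfn.imp | apply Dfn.iff
      | apply hB.bex | apply hB.ball | apply Dfn.ex | apply Dfn.all
      | apply Dfn.eq | apply Dfn.mem | apply hB.pair')
  refine Inj.of_rel hM (hM.prod_mem hx hy) (hM.prod_mem hx' hy')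
    (R := fun p q => ∃ a ∈ M, ∃ b ∈ M, ∃ c ∈ M, ∃ d ∈ M,
      p = pair a b ∧ q = pair c d ∧ pair a c ∈ f ∧ pair b d ∈ g) hR ?_ ?_ ?_
  · intro p hp
    obtain ⟨a, ha, b, hb, rfl⟩ := ZFSet.mem_prod.1 hp
    obtain ⟨c, hc, h3⟩ := fun_exists h1.1 ha
    obtain ⟨d, hd, h4⟩ := fun_exists h2.1 hb
    exact ⟨pair c d, ZFSet.pair_mem_prod.2 ⟨hc, hd⟩, a, hM.trans _ hx _ ha, b, hM.trans _ hy _ hb,
      c, hM.trans _ hx' _ hc, d, hM.trans _ hy' _ hd, rfl, rfl, h3, h4⟩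
  · rintro p - q - q' - ⟨a, -, b, -, c, -, d, -, rfl, rfl, h3, h4⟩
      ⟨a', -, b', -, c', -, d', -, h5, rfl, h6, h7⟩
    obtain ⟨rfl, rfl⟩ := ZFSet.pair_inj.1 h5
    rw [fun_unique h1.1 h3 h6, fun_unique h2.1 h4 h7]
  · rintro p - q - q' - ⟨a, -, b, -, c, -, d, -, rfl, rfl, h3, h4⟩
      ⟨a', -, b', -, c', -, d', -, rfl, h5, h6, h7⟩
    obtain ⟨rfl, rfl⟩ := ZFSet.pair_inj.1 h5
    rw [h1.2 _ _ _ h3 h6, h2.2 _ _ _ h4 h7]

theorem Inj.image {x κ : ZFSet.{0}} (hx : x ∈ M) (hκ : κ ∈ M) (hκo : κ.IsOrdinal)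
    (h1 : Inj M x κ) {h : ZFSet.{0} → ZFSet.{0}}
    (hh : DfnF M M fun w : Fin 1 → ZFSet.{0} => h (w 0)) : Inj M (im h x) κ := by
  have hB := hM.base
  obtain ⟨f, hf, h1⟩ := h1
  have hQ : Dfn M M fun w : Fin 2 → ZFSet.{0} => ∃ p ∈ x, h p = w 0 ∧ pair p (w 1) ∈ f := by
    apply hB.bex (DfnF.const hx)
    apply Dfn.and
    · exact Dfn.eq (DfnF.comp1 (f := h) hh (DfnF.proj 0)) (DfnF.proj 1)
    · exact Dfn.mem (hB.pair' (DfnF.proj 0) (DfnF.proj 2)) (DfnF.const hf)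
  have hR : Dfn M M fun w : Fin 2 → ZFSet.{0} => (∃ p ∈ x, h p = w 0 ∧ pair p (w 1) ∈ f) ∧
      ∀ ζ ∈ w 1, ¬ ∃ p ∈ x, h p = w 0 ∧ pair p ζ ∈ f := by
    apply Dfn.and hQ
    apply hB.ball (DfnF.proj _)
    apply Dfn.not
    exact Dfn.comp2 (Q := fun y ζ => ∃ p ∈ x, h p = y ∧ pair p ζ ∈ f) hQ (DfnF.proj 1)
      (DfnF.proj 0)
  refine Inj.of_rel hM (hM.im_mem hx hh) hκ
    (R := fun y ζ => (∃ p ∈ x, h p = y ∧ pair p ζ ∈ f) ∧
      ∀ ζ' ∈ ζ, ¬ ∃ p ∈ x, h p = y ∧ pair p ζ' ∈ f) hR ?_ ?_ ?_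
  · intro y hy
    obtain ⟨p, hp, rfl⟩ := mem_im.1 hy
    obtain ⟨ζ, hζ, h3⟩ := fun_exists h1.1 hp
    have hne : {ζ : ZFSet.{0} | ∃ q ∈ x, h q = h p ∧ pair q ζ ∈ f}.Nonempty :=
      ⟨ζ, p, hp, rfl, h3⟩
    have h4 := ZFSet.mem_wf.min_mem _ hne
    refine ⟨ZFSet.mem_wf.min _ hne, ?_, h4, fun ζ' h5 h6 => ?_⟩
    · obtain ⟨q, hq, -, h5⟩ := h4
      exact (ZFSet.pair_mem_prod.1 (h1.1.1 h5)).2
    · exact ZFSet.mem_wf.not_lt_min {ζ : ZFSet.{0} | ∃ q ∈ x, h q = h p ∧ pair q ζ ∈ f} h6 h5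
  · rintro y - ζ hζ ζ' hζ' ⟨h3, h4⟩ ⟨h5, h6⟩
    rcases (hκo.mem hζ).mem_trichotomous (hκo.mem hζ') with h7 | h7 | h7
    · exact absurd h3 (h6 _ h7)
    · exact h7
    · exact absurd h5 (h4 _ h7)
  · rintro y - y' - ζ - ⟨⟨p, hp, rfl, h3⟩, -⟩ ⟨⟨q, hq, rfl, h4⟩, -⟩
    rw [h1.2 _ _ _ h3 h4]

/-- The successor of an infinite ordinal. -/
theorem Inj.sc {μ : ZFSet.{0}} (hμ : μ ∈ M) (hμo : μ.IsOrdinal) (hω : ZFSet.omega ⊆ μ) :
    Inj M (sc μ) μ := by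
  have hB := hM.base
  have h0 := hM.empty_mem
  have hω' := hM.infinity
  have hR : Dfn M M fun w : Fin 2 → ZFSet.{0} => (w 0 = μ ∧ w 1 = ∅) ∨
      (w 0 ∈ ZFSet.omega ∧ w 1 = insert (w 0) (w 0)) ∨
      (w 0 ∈ μ ∧ ¬ w 0 ∈ ZFSet.omega ∧ w 1 = w 0) := by
    (repeat' first
      | assumption
      | exact DfnF.proj _
      | exact DfnF.const (by assumption)
      | exact DfnF.const' (by first | assumption | trivial) (by first | assumption | trivial)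
      | exact Dfn.prop _
      | apply hB.isFunc' | apply hB.isInj' | apply hB.isBij' | apply hB.subset' | apply hB.pair' | apply hB.single' | apply hB.upair' | apply hB.insert' | apply hB.union'
      | apply Dfn.not | apply Dfn.and | apply Dfn.or | apply Dfn.imp | apply Dfn.iff
      | apply hB.bex | apply hB.ball | apply Dfn.ex | apply Dfn.all
      | apply Dfn.eq | apply Dfn.mem | apply hB.pair')
  have hsc : ∀ a b : ZFSet.{0}, (insert a a : ZFSet.{0}) = insert b b → a = b := by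
    intro a b h
    have h1 : a ∈ (insert b b : ZFSet.{0}) := h ▸ ZFSet.mem_insert _ _
    have h2 : b ∈ (insert a a : ZFSet.{0}) := h ▸ ZFSet.mem_insert _ _
    rcases ZFSet.mem_insert_iff.1 h1 with h1 | h1
    · exact h1
    rcases ZFSet.mem_insert_iff.1 h2 with h2 | h2
    · exact h2.symm
    exact absurd h2 (ZFSet.mem_asymm h1)
  have hμω : μ ∉ ZFSet.omega := fun h => ZFSet.mem_irrefl _ (hω h)
  have hins : ∀ a : ZFSet.{0}, (insert a a : ZFSet.{0}) ≠ ∅ := fun a h =>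
    ZFSet.notMem_empty a (h ▸ ZFSet.mem_insert _ _)
  refine Inj.of_rel hM (hM.sc_mem hμ) hμ
    (R := fun a b => (a = μ ∧ b = ∅) ∨ (a ∈ ZFSet.omega ∧ b = insert a a) ∨
      (a ∈ μ ∧ ¬ a ∈ ZFSet.omega ∧ b = a)) hR ?_ ?_ ?_
  · intro a ha
    rcases ZFSet.mem_insert_iff.1 ha with rfl | ha
    · exact ⟨∅, hω ZFSet.omega_zero, Or.inl ⟨rfl, rfl⟩⟩
    · by_cases h : a ∈ ZFSet.omega
      · exact ⟨_, hω (ZFSet.omega_succ h), Or.inr (Or.inl ⟨h, rfl⟩)⟩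
      · exact ⟨a, ha, Or.inr (Or.inr ⟨ha, h, rfl⟩)⟩
  · rintro a - b - b' - (⟨rfl, rfl⟩ | ⟨h1, rfl⟩ | ⟨h1, h2, rfl⟩)
      (⟨h3, rfl⟩ | ⟨h3, rfl⟩ | ⟨h3, h4, rfl⟩)
    · rfl
    · exact absurd h3 hμω
    · exact absurd h3 (ZFSet.mem_irrefl _)
    · exact absurd (h3 ▸ h1) hμω
    · rfl
    · exact absurd h1 h4
    · exact absurd (h3 ▸ h1) (ZFSet.mem_irrefl _)
    · exact absurd h3 h2
    · rfl
  · rintro a - a' - b - (⟨rfl, rfl⟩ | ⟨h1, rfl⟩ | ⟨h1, h2, rfl⟩)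
      (⟨rfl, h3⟩ | ⟨h3, h4⟩ | ⟨h3, h4, h5⟩)
    · rfl
    · exact absurd h4.symm (hins _)
    · exact absurd (h5 ▸ ZFSet.omega_zero) h4
    · exact absurd h3 (hins _)
    · exact hsc _ _ h4
    · exact absurd (h5 ▸ ZFSet.omega_succ h1) h4
    · exact absurd (h3 ▸ ZFSet.omega_zero) h2
    · exact absurd (h4 ▸ ZFSet.omega_succ h3) h2
    · exact h5

end

end Pool.Agent.W868
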