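import Pool.Agent.W868.Clo

/-!
# Iterations of length omega, and truth in definable classes
-/

set_option autoImplicit false
set_option linter.unreachableTactic false
set_option linter.unusedTactic false

namespace Pool.Agent.W868

open ZFSet (pair)

/-- Iteration of `T`, starting with the set `a`. -/
noncomputable def itr (T : ZFSet.{0} → ZFSet.{0}) (a : ZFSet.{0}) : ZFSet.{0} → ZFSet.{0} :=
  wfF (fun z => z) ZFSet.mem_wf fun _ g => a ∪ ZFSet.sUnion (im (fun p => T (sn p)) g)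

theorem itr_eq (T : ZFSet.{0} → ZFSet.{0}) (a z : ZFSet.{0}) :
    itr T a z = a ∪ ZFSet.sUnion (im (fun p => T (sn p)) (gr (itr T a) z)) := by
  rw [itr, wfF_eq]

section itr

variable {T : ZFSet.{0} → ZFSet.{0}} {a : ZFSet.{0}}

theorem mem_itr {z y : ZFSet.{0}} : y ∈ itr T a z ↔ y ∈ a ∨ ∃ u ∈ z, y ∈ T (itr T a u) := by
  rw [itr_eq, ZFSet.mem_union, ZFSet.mem_sUnion]
  refine or_congr Iff.rfl ?_
  constructor
  · rintro ⟨w, hw, h⟩
    obtain ⟨p, hp, rfl⟩ := mem_im.1 hw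
    obtain ⟨u, hu, rfl⟩ := mem_gr.1 hp
    rw [sn_pair] at h
    exact ⟨u, hu, h⟩
  · rintro ⟨u, hu, h⟩
    exact ⟨_, mem_im.2 ⟨_, mem_gr.2 ⟨u, hu, rfl⟩, rfl⟩, by rwa [sn_pair]⟩

theorem itr_base {z : ZFSet.{0}} : a ⊆ itr T a z := fun _ h => mem_itr.2 (Or.inl h)

theorem itr_step {z u : ZFSet.{0}} (h : u ∈ z) : T (itr T a u) ⊆ itr T a z :=
  fun _ hy => mem_itr.2 (Or.inr ⟨u, h, hy⟩)

theorem itr_mono {z z' : ZFSet.{0}} (h : z ⊆ z') : itr T a z ⊆ itr T a z' := fun _ hy => by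
  rcases mem_itr.1 hy with h1 | ⟨u, hu, h1⟩
  · exact itr_base h1
  · exact mem_itr.2 (Or.inr ⟨u, h hu, h1⟩)

theorem nat_subset {k l : ℕ} (h : k ≤ l) : nat k ⊆ nat l := by
  rw [nat_eq, nat_eq, Ordinal.toZFSet_subset_toZFSet_iff]
  exact_mod_cast h

theorem nat_subset_omega {k : ℕ} : nat k ⊆ ZFSet.omega := by
  rw [nat_eq, omega_eq, Ordinal.toZFSet_subset_toZFSet_iff]
  exact (Ordinal.natCast_lt_omega0 k).le

theorem nat_mem_omega (k : ℕ) : nat k ∈ ZFSet.omega := mem_omega_iff.2 ⟨k, rfl⟩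

theorem mem_itr_omega {y : ZFSet.{0}} (h : y ∈ itr T a ZFSet.omega) :
    ∃ k : ℕ, y ∈ itr T a (nat k) := by
  rcases mem_itr.1 h with h | ⟨u, hu, h⟩
  · exact ⟨0, itr_base h⟩
  · obtain ⟨k, rfl⟩ := mem_omega_iff.1 hu
    exact ⟨k + 1, itr_step (ZFSet.mem_insert _ _) h⟩

theorem exists_common {P : ℕ → ZFSet.{0} → Prop} (hP : ∀ x k l, k ≤ l → P k x → P l x) {n : ℕ}
    (v : Fin n → ZFSet.{0}) (h : ∀ i, ∃ k, P k (v i)) : ∃ k, ∀ i, P k (v i) := by
  choose f hf using h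
  refine ⟨Finset.univ.sup f, fun i => hP _ _ _ (Finset.le_sup (Finset.mem_univ i)) (hf i)⟩

end itr

/-! ### Tuples -/

/-- The components of a tuple. -/
noncomputable def ut : (n : ℕ) → ZFSet.{0} → Fin n → ZFSet.{0}
  | 0, _ => Fin.elim0
  | n + 1, p => Fin.cons (fs p) (ut n (sn p))

theorem ut_tup : {n : ℕ} → (v : Fin n → ZFSet.{0}) → ut n (tup v) = v
  | 0, v => funext fun i => i.elim0
  | n + 1, v => by
    rw [tup, ut, fs_pair, sn_pair, ut_tup, Fin.cons_self_tail]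

/-- The set of the tuples from `X`. -/
noncomputable def pw (X : ZFSet.{0}) : ℕ → ZFSet.{0}
  | 0 => {∅}
  | n + 1 => ZFSet.prod X (pw X n)

theorem mem_pw {X : ZFSet.{0}} : {n : ℕ} → {p : ZFSet.{0}} →
    (p ∈ pw X n ↔ ∃ v : Fin n → ZFSet.{0}, (∀ i, v i ∈ X) ∧ p = tup v)
  | 0, p => by
    rw [pw, ZFSet.mem_singleton]
    constructor
    · rintro rfl
      exact ⟨Fin.elim0, fun i => i.elim0, rfl⟩
    · rintro ⟨v, -, rfl⟩
      rfl
  | n + 1, p => by
    have h1 := isTup_succ (X := X) (p := p) (n := n) (Q := fun _ => True)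
    simp only [and_true, IsTup] at h1
    rw [h1, pw, ZFSet.mem_prod]
    constructor
    · rintro ⟨x, hx, q, hq, h2⟩
      exact ⟨x, hx, q, h2, mem_pw.1 hq⟩
    · rintro ⟨x, hx, q, h2, hq⟩
      exact ⟨x, hx, q, mem_pw.2 hq, h2⟩

section dfn

variable {M : Set ZFSet.{0}} (hM : IsZF M) {m : ℕ} {F : (Fin m → ZFSet.{0}) → ZFSet.{0}}

include hM

theorem dfn_itr {T : ZFSet.{0} → ZFSet.{0}} {a : ZFSet.{0}} (ha : a ∈ M)
    (hT : DfnF M M fun w : Fin 1 → ZFSet.{0} => T (w 0)) :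
    DfnF M M fun w : Fin 1 → ZFSet.{0} => itr T a (w 0) := by
  have hB := hM.base
  refine hM.memrec (G := fun _ g => a ∪ ZFSet.sUnion (im (fun p => T (sn p)) g)) ?_
    fun z => itr_eq T a z
  refine hB.union' (DfnF.const ha) (hB.sUnion' (hM.im' (h := fun p _ => T (sn p))
    (DfnF.proj 1) ?_))
  exact DfnF.comp1 (f := T) hT (hM.sn' (DfnF.proj 0))

theorem itr_mem_M {T : ZFSet.{0} → ZFSet.{0}} {a z : ZFSet.{0}} (ha : a ∈ M) (hz : z ∈ M)
    (hT : DfnF M M fun w : Fin 1 → ZFSet.{0} => T (w 0)) : itr T a z ∈ M :=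
  (dfn_itr hM ha hT).1 (fun _ => z) fun _ => hz

theorem dfn_pw (n : ℕ) (hF : DfnF M M F) : DfnF M M fun v => pw (F v) n := by
  induction n with
  | zero => exact DfnF.const (hM.single_mem hM.empty_mem)
  | succ n ih => exact hM.prod' hF ih

theorem dfn_ut (hF : DfnF M M F) : ∀ (n : ℕ) (i : Fin n), DfnF M M fun v => ut n (F v) i := by
  intro n
  induction n generalizing m F with
  | zero => exact fun i => i.elim0
  | succ n ih =>
    intro i
    refine Fin.cases ?_ (fun i => ?_) i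
    · exact hM.fs' hF
    · exact ih (hM.sn' hF) i

omit hM in
/-- Truth in a definable class is definable. -/
theorem dfn_sat {C : Set ZFSet.{0}} (hC : Dfn M M fun w : Fin 1 → ZFSet.{0} => w 0 ∈ C)
    (hCM : C ⊆ M) : {n : ℕ} → (φ : Fml ZFSet.{0} n) → φ.Over M → {m : ℕ} →
    (G : Fin n → (Fin m → ZFSet.{0}) → ZFSet.{0}) → (∀ i, DfnF M M (G i)) →
    Dfn M M fun w : Fin m → ZFSet.{0} => Sat C id φ fun i => G i w
  | n, .mem s t, h, m, G, hG => by
    have h1 : ∀ s : Fin n ⊕ ZFSet.{0}, TOver M s →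
        DfnF M M fun w : Fin m → ZFSet.{0} => Sum.elim (fun i => G i w) id s := by
      intro s hs
      cases s with
      | inl i => exact hG i
      | inr a => exact DfnF.const (hs a rfl)
    exact Dfn.mem (h1 s h.1) (h1 t h.2)
  | n, .eq s t, h, m, G, hG => by
    have h1 : ∀ s : Fin n ⊕ ZFSet.{0}, TOver M s →
        DfnF M M fun w : Fin m → ZFSet.{0} => Sum.elim (fun i => G i w) id s := by
      intro s hs
      cases s with
      | inl i => exact hG i
      | inr a => exact DfnF.const (hs a rfl)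
    exact Dfn.eq (h1 s h.1) (h1 t h.2)
  | n, .neg φ, h, m, G, hG => (dfn_sat hC hCM φ h G hG).not
  | n, .and φ ψ, h, m, G, hG => (dfn_sat hC hCM φ h.1 G hG).and (dfn_sat hC hCM ψ h.2 G hG)
  | n, .ex φ, h, m, G, hG => by
    have h1 : Dfn M M fun w : Fin m → ZFSet.{0} => ∃ a ∈ M, a ∈ C ∧
        Sat C id φ (Fin.cons a fun i => G i w) := by
      apply Dfn.ex
      apply Dfn.and
      · exact Dfn.comp1 (Q := fun x => x ∈ C) hC (DfnF.proj 0)
      · have h2 := dfn_sat hC hCM φ h (m := m + 1)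
          (Fin.cons (fun w => w 0) fun i w => G i (Fin.tail w)) (by
            intro i
            refine Fin.cases ?_ (fun i => ?_) i
            · exact DfnF.proj 0
            · exact (hG i).tail)
        refine h2.congr fun w _ => ?_
        have h3 : (fun i => (Fin.cons (fun w => w 0) (fun i w => G i (Fin.tail w)) :
            Fin (n + 1) → (Fin (m + 1) → ZFSet.{0}) → ZFSet.{0}) i w) =
            Fin.cons (w 0) fun i => G i (Fin.tail w) := by
          funext i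
          refine Fin.cases ?_ (fun i => ?_) i
          · rfl
          · rfl
        rw [h3]
    refine h1.congr fun w _ => ?_
    constructor
    · rintro ⟨a, -, ha, h2⟩
      exact ⟨a, ha, h2⟩
    · rintro ⟨a, ha, h2⟩
      exact ⟨a, hCM ha, ha, h2⟩

end dfn

/-! ### Elementary submodels for one formula -/

/-- `X` is closed under witnesses for the subformulas of a formula, whose truth is evaluated in
`C`. -/
def CL (C X : Set ZFSet.{0}) : {n : ℕ} → Fml ZFSet.{0} n → Prop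
  | _, .mem _ _ => True
  | _, .eq _ _ => True
  | _, .neg φ => CL C X φ
  | _, .and φ ψ => CL C X φ ∧ CL C X ψ
  | n, .ex φ => CL C X φ ∧ ∀ v : Fin n → ZFSet.{0}, (∀ i, v i ∈ X) →
      (∃ a ∈ C, Sat C id φ (Fin.cons a v)) → ∃ a ∈ X, Sat C id φ (Fin.cons a v)

theorem CL_sat {C X : Set ZFSet.{0}} (hX : X ⊆ C) : {n : ℕ} → (φ : Fml ZFSet.{0} n) →
    CL C X φ → (v : Fin n → ZFSet.{0}) → (∀ i, v i ∈ X) → (Sat X id φ v ↔ Sat C id φ v)
  | _, .mem _ _, _, _, _ => Iff.rfl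
  | _, .eq _ _, _, _, _ => Iff.rfl
  | _, .neg φ, h, v, hv => not_congr (CL_sat hX φ h v hv)
  | _, .and φ ψ, h, v, hv => and_congr (CL_sat hX φ h.1 v hv) (CL_sat hX ψ h.2 v hv)
  | n, .ex φ, h, v, hv => by
    have hc : ∀ a ∈ X, ∀ k, (Fin.cons a v : Fin (n + 1) → ZFSet.{0}) k ∈ X := by
      intro a ha k
      refine Fin.cases ?_ (fun k => ?_) k
      · exact ha
      · exact hv k
    constructor
    · rintro ⟨a, ha, h1⟩
      exact ⟨a, hX ha, (CL_sat hX φ h.1 _ (hc a ha)).1 h1⟩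
    · intro h1
      obtain ⟨a, ha, h2⟩ := h.2 v hv h1
      exact ⟨a, ha, (CL_sat hX φ h.1 _ (hc a ha)).2 h2⟩

end Pool.Agent.W868
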