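import Pool.Agent.W868.Itr

/-!
# The constructible sets of a model of ZF are a model of ZF
-/

set_option autoImplicit false
set_option linter.unreachableTactic false
set_option linter.unusedTactic false

namespace Pool.Agent.W868

open ZFSet (pair)

theorem isOrdinal_sUnion {x : ZFSet.{0}} (h : ∀ y ∈ x, y.IsOrdinal) :
    (ZFSet.sUnion x : ZFSet.{0}).IsOrdinal := by
  rw [ZFSet.isOrdinal_iff_forall_mem_isOrdinal]
  refine ⟨ZFSet.IsTransitive.sUnion' fun y hy => (h y hy).isTransitive, fun z hz => ?_⟩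
  obtain ⟨y, hy, hz⟩ := ZFSet.mem_sUnion.1 hz
  exact (h y hy).mem hz

theorem isOrdinal_union {x y : ZFSet.{0}} (hx : x.IsOrdinal) (hy : y.IsOrdinal) :
    (x ∪ y).IsOrdinal := by
  rw [← ZFSet.sUnion_pair]
  apply isOrdinal_sUnion
  intro z hz
  rcases ZFSet.mem_pair.1 hz with rfl | rfl
  · exact hx
  · exact hy

theorem isOrdinal_sc {x : ZFSet.{0}} (hx : x.IsOrdinal) : (sc x).IsOrdinal :=
  ZFSet.isOrdinal_succ hx

theorem isOrdinal_omega : ZFSet.omega.{0}.IsOrdinal := by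
  rw [omega_eq]
  exact ZFSet.isOrdinal_toZFSet _

theorem isOrdinal_itr {T : ZFSet.{0} → ZFSet.{0}} {a : ZFSet.{0}} (ha : a.IsOrdinal)
    (hT : ∀ x, x.IsOrdinal → (T x).IsOrdinal) (z : ZFSet.{0}) : (itr T a z).IsOrdinal := by
  induction z using ZFSet.inductionOn with
  | _ z ih =>
  rw [itr_eq]
  apply isOrdinal_union ha
  apply isOrdinal_sUnion
  intro y hy
  obtain ⟨p, hp, rfl⟩ := mem_im.1 hy
  obtain ⟨u, hu, rfl⟩ := mem_gr.1 hp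
  rw [sn_pair]
  exact hT _ (ih u hu)

section LC

variable {M : Set ZFSet.{0}} (hM : IsZF M) {A : ZFSet.{0}} (hA : A ∈ M)

include hM hA

theorem LC_subset : LC M A ⊆ M := by
  rintro x ⟨ξ, h1, -, h3⟩
  exact hM.trans _ (Lv_mem_M hM hA h1) _ h3

theorem dfn_LC : Dfn M M fun w : Fin 1 → ZFSet.{0} => w 0 ∈ LC M A := by
  have hB := hM.base
  have h : Dfn M M fun w : Fin 1 → ZFSet.{0} => ∃ ξ ∈ M, ξ.IsOrdinal ∧ w 0 ∈ Lv A ξ := by
    apply Dfn.ex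
    apply Dfn.and (hB.isOrdinal' (DfnF.proj _))
    exact Dfn.mem (DfnF.proj 1) (DfnF.comp1 (f := Lv A) (dfn_Lv hM hA) (DfnF.proj 0))
  exact h

/-- Levels that contain the values of a function. -/
theorem exists_level {x : ZFSet.{0}} (hx : x ∈ M) {Q : ZFSet.{0} → ZFSet.{0} → Prop}
    (hQ : Dfn M M fun w : Fin 2 → ZFSet.{0} => Q (w 0) (w 1)) :
    ∃ δ ∈ M, δ.IsOrdinal ∧ ∀ z ∈ x, (∃ w ∈ LC M A, Q w z) → ∃ w ∈ Lv A δ, Q w z := by
  have hB := hM.base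
  have h1 : Dfn M M fun w : Fin 2 → ZFSet.{0} => ∃ y ∈ Lv A (w 0), Q y (w 1) := by
    apply hB.bex (DfnF.comp1 (f := Lv A) (dfn_Lv hM hA) (DfnF.proj 0))
    exact Dfn.comp2 (Q := Q) hQ (DfnF.proj 0) (DfnF.proj 2)
  have h2 : DfnF M M fun w : Fin 1 → ZFSet.{0} => lo M fun η => ∃ y ∈ Lv A η, Q y (w 0) :=
    hM.lo' (Q := fun η w => ∃ y ∈ Lv A η, Q y (w 0)) h1
  refine ⟨_, hM.union _ (hM.im_mem (h := fun z => lo M fun η => ∃ y ∈ Lv A η, Q y z) hx h2),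
    isOrdinal_sUnion fun y hy => ?_, ?_⟩
  · obtain ⟨z, -, rfl⟩ := mem_im.1 hy
    exact lo_isOrdinal
  · rintro z hz ⟨w, ⟨ξ, h3, h4, h5⟩, h6⟩
    obtain ⟨-, -, w', h7, h8⟩ := lo_spec (M := M) (P := fun η => ∃ y ∈ Lv A η, Q y z)
      ⟨ξ, h3, h4, w, h5, h6⟩
    exact ⟨w', Lv_mono (fun u hu => ZFSet.mem_sUnion.2 ⟨_, mem_im.2 ⟨z, hz, rfl⟩, hu⟩) h7, h8⟩

omit hA in
theorem Lv_mem_LC {ξ : ZFSet.{0}} (hξ : ξ ∈ M) (hξo : ξ.IsOrdinal) : Lv A ξ ∈ LC M A :=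
  ⟨sc ξ, hM.sc_mem hξ, isOrdinal_sc hξo, Lv_mem (ZFSet.mem_insert _ _)⟩

omit hM hA in
/-- Definable subsets of sets in a closed class. -/
theorem Gd.sepD {C : Set ZFSet.{0}} (hC : Gd A C) {X : ZFSet.{0}} (hX : X ∈ C)
    {Q : ZFSet.{0} → Prop} (hQ : Dfn {x | x ∈ X} {x | x ∈ X} fun w : Fin 1 → ZFSet.{0} => Q (w 0)) :
    ZFSet.sep Q X ∈ C := by
  obtain ⟨φ, h1, h2⟩ := hQ
  obtain ⟨y, hy, h3⟩ := hC.sep hX φ h1
  have h4 : y = ZFSet.sep Q X := by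
    ext z
    rw [h3, ZFSet.mem_sep]
    refine and_congr_right fun hz => h2 ![z] fun i => ?_
    fin_cases i
    exact hz
  exact h4 ▸ hy

/-- All ordinals are constructible. -/
theorem ord_LC {β : ZFSet.{0}} (hβ : β ∈ M) (hβo : β.IsOrdinal) : β ∈ LC M A := by
  induction β using ZFSet.inductionOn with
  | _ β ih =>
  have hC := gd_LC hM (A := A)
  obtain ⟨δ, hδ, hδo, h1⟩ := exists_level hM hA hβ (Q := fun w z => w = z)
    (Dfn.eq (DfnF.proj 0) (DfnF.proj 1))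
  have h2 : β ⊆ Lv A δ := by
    intro z hz
    obtain ⟨w, hw, rfl⟩ := h1 z hz ⟨z, ih z hz (hM.trans _ hβ _ hz) (hβo.mem hz), rfl⟩
    exact hw
  by_cases h3 : β ∈ Lv A δ
  · exact ⟨δ, hδ, hδo, h3⟩
  · have h4 : ZFSet.sep (fun z => z.IsOrdinal) (Lv A δ) = β := by
      ext z
      rw [ZFSet.mem_sep]
      constructor
      · rintro ⟨h5, h6⟩
        rcases h6.mem_trichotomous hβo with h7 | rfl | h7
        · exact h7
        · exact absurd h5 h3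
        · exact absurd (Lv_trans _ _ h5 _ h7) h3
      · exact fun hz => ⟨h2 hz, hβo.mem hz⟩
    have h5 := hC.sepD (Lv_mem_LC hM hδ hδo) (Q := fun z => z.IsOrdinal)
      ((D0.isOrdinal (D0v.proj 0)).dfn (Lv_trans δ))
    rwa [h4] at h5

omit hA in
theorem LC_of_subset {δ : ZFSet.{0}} (hδ : δ ∈ M) (hδo : δ.IsOrdinal) (h : A ⊆ Lv A δ) :
    A ∈ LC M A := by
  refine ⟨sc δ, hM.sc_mem hδ, isOrdinal_sc hδo, ?_⟩
  rw [Lv_sc]
  refine mem_step.2 (Or.inr ⟨10, by omega, Lv A δ, ZFSet.mem_insert _ _, Lv A δ,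
    ZFSet.mem_insert _ _, fun u => ?_⟩)
  exact ⟨fun hu => ⟨h hu, hu⟩, fun hu => hu.2⟩

/-! ### Reflection -/

/-- A bound for the levels of witnesses. -/
noncomputable def bd (M : Set ZFSet.{0}) (A : ZFSet.{0}) :
    {n : ℕ} → Fml ZFSet.{0} n → ZFSet.{0} → ZFSet.{0}
  | _, .mem _ _, _ => ∅
  | _, .eq _ _, _ => ∅
  | _, .neg φ, ξ => bd M A φ ξ
  | _, .and φ ψ, ξ => bd M A φ ξ ∪ bd M A ψ ξ
  | n, .ex φ, ξ => bd M A φ ξ ∪ ZFSet.sUnion (im (fun p => lo M fun η => ∃ a ∈ Lv A η,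
      Sat (LC M A) id φ (Fin.cons a (ut n p))) (pw (Lv A ξ) n))

theorem dfn_bd : {n : ℕ} → (φ : Fml ZFSet.{0} n) → φ.Over M →
    DfnF M M fun w : Fin 1 → ZFSet.{0} => bd M A φ (w 0)
  | _, .mem _ _, _ => DfnF.const hM.empty_mem
  | _, .eq _ _, _ => DfnF.const hM.empty_mem
  | _, .neg φ, h => dfn_bd φ h
  | _, .and φ ψ, h => hM.base.union' (dfn_bd φ h.1) (dfn_bd ψ h.2)
  | n, .ex φ, h => by
    have hB := hM.base
    refine hB.union' (dfn_bd φ h) (hB.sUnion' ?_)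
    refine hM.im' (h := fun p _ => lo M fun η => ∃ a ∈ Lv A η,
      Sat (LC M A) id φ (Fin.cons a (ut n p)))
      (dfn_pw hM n (DfnF.comp1 (f := Lv A) (dfn_Lv hM hA) (DfnF.proj 0))) ?_
    refine hM.lo' (Q := fun η w => ∃ a ∈ Lv A η,
      Sat (LC M A) id φ (Fin.cons a (ut n (w 0)))) ?_
    refine hB.bex (Q := fun a w => Sat (LC M A) id φ (Fin.cons a (ut n (w 1))))
      (DfnF.comp1 (f := Lv A) (dfn_Lv hM hA) (DfnF.proj 0)) ?_
    have h2 := dfn_sat (dfn_LC hM hA) (LC_subset hM hA) φ h (m := 4)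
      (Fin.cons (fun w => w 0) fun i w => ut n (w 2) i) (by
        intro i
        refine Fin.cases ?_ (fun i => ?_) i
        · exact DfnF.proj 0
        · exact dfn_ut hM (DfnF.proj 2) n i)
    refine h2.congr fun w _ => ?_
    have h3 : (fun i => (Fin.cons (fun w => w 0) (fun i w => ut n (w 2) i) :
        Fin (n + 1) → (Fin 4 → ZFSet.{0}) → ZFSet.{0}) i w) = Fin.cons (w 0) (ut n (w 2)) := by
      funext i
      refine Fin.cases ?_ (fun i => ?_) i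
      · rfl
      · rfl
    rw [h3]
    rfl

omit hM hA in
theorem isOrdinal_bd (ξ : ZFSet.{0}) : {n : ℕ} → (φ : Fml ZFSet.{0} n) →
    (bd M A φ ξ).IsOrdinal
  | _, .mem _ _ => ZFSet.isOrdinal_empty
  | _, .eq _ _ => ZFSet.isOrdinal_empty
  | _, .neg φ => isOrdinal_bd ξ φ
  | _, .and φ ψ => isOrdinal_union (isOrdinal_bd ξ φ) (isOrdinal_bd ξ ψ)
  | n, .ex φ => isOrdinal_union (isOrdinal_bd ξ φ) (isOrdinal_sUnion fun y hy => by
      obtain ⟨p, -, rfl⟩ := mem_im.1 hy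
      exact lo_isOrdinal)

omit hM hA in
theorem CL_of_bd {Y : ℕ → ZFSet.{0}} {δ : ZFSet.{0}} (hY : ∀ k, Y k ⊆ δ)
    (hmono : ∀ k l, k ≤ l → Y k ⊆ Y l)
    (hδ : ∀ y ∈ Lv A δ, ∃ k, y ∈ Lv A (Y k)) : {n : ℕ} → (φ : Fml ZFSet.{0} n) →
    (∀ k, bd M A φ (Y k) ⊆ δ) → CL (LC M A) {x | x ∈ Lv A δ} φ
  | _, .mem _ _, _ => trivial
  | _, .eq _ _, _ => trivial
  | _, .neg φ, h => CL_of_bd hY hmono hδ φ h
  | _, .and φ ψ, h =>
    ⟨CL_of_bd hY hmono hδ φ fun k x hx => h k (ZFSet.mem_union.2 (Or.inl hx)),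
      CL_of_bd hY hmono hδ ψ fun k x hx => h k (ZFSet.mem_union.2 (Or.inr hx))⟩
  | n, .ex φ, h => by
    refine ⟨CL_of_bd hY hmono hδ φ fun k x hx => h k (ZFSet.mem_union.2 (Or.inl hx)), ?_⟩
    rintro v hv ⟨a, ⟨ξ, h1, h2, h3⟩, h4⟩
    obtain ⟨k, hk⟩ := exists_common (P := fun k y => y ∈ Lv A (Y k))
      (fun x k l hkl hx => Lv_mono (hmono k l hkl) hx) v fun i => hδ _ (hv i)
    have h5 : tup v ∈ pw (Lv A (Y k)) n := mem_pw.2 ⟨v, hk, rfl⟩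
    obtain ⟨-, -, b, h6, h7⟩ := lo_spec (M := M) (P := fun η => ∃ a ∈ Lv A η,
      Sat (LC M A) id φ (Fin.cons a (ut n (tup v))))
      ⟨ξ, h1, h2, a, h3, by rwa [ut_tup]⟩
    rw [ut_tup] at h7
    refine ⟨b, Lv_mono (fun u hu => h k (ZFSet.mem_union.2 (Or.inr (ZFSet.mem_sUnion.2
      ⟨_, mem_im.2 ⟨_, h5, rfl⟩, hu⟩)))) h6, h7⟩

/-- The reflection principle. -/
theorem reflection {n : ℕ} (φ : Fml ZFSet.{0} n) (hφ : φ.Over M) {ξ : ZFSet.{0}} (hξ : ξ ∈ M)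
    (hξo : ξ.IsOrdinal) :
    ∃ δ ∈ M, δ.IsOrdinal ∧ ξ ⊆ δ ∧ CL (LC M A) {x | x ∈ Lv A δ} φ := by
  have hB := hM.base
  set T : ZFSet.{0} → ZFSet.{0} := fun η => sc (η ∪ bd M A φ η) with hT
  have hTd : DfnF M M fun w : Fin 1 → ZFSet.{0} => T (w 0) := by
    have h1 : DfnF M M fun w : Fin 1 → ZFSet.{0} => w 0 ∪ bd M A φ (w 0) :=
      hB.union' (DfnF.proj 0) (dfn_bd hM hA φ hφ)
    exact hB.insert' h1 h1
  have hTo : ∀ x : ZFSet.{0}, x.IsOrdinal → (T x).IsOrdinal := fun x hx =>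
    isOrdinal_sc (isOrdinal_union hx (isOrdinal_bd x φ))
  have hTsub : ∀ x : ZFSet.{0}, x.IsOrdinal → x ∪ bd M A φ x ⊆ T x := fun x hx z hz =>
    ZFSet.mem_insert_of_mem _ hz
  have hno : ∀ z, (itr T ξ z).IsOrdinal := isOrdinal_itr hξo hTo
  refine ⟨itr T ξ ZFSet.omega, itr_mem_M hM hξ hM.infinity hTd, hno _, itr_base, ?_⟩
  refine CL_of_bd (Y := fun k => itr T ξ (nat k)) (fun k => itr_mono nat_subset_omega)
    (fun k l hkl => itr_mono (nat_subset hkl)) ?_ φ ?_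
  · intro y hy
    obtain ⟨u, hu, h1⟩ := mem_Lv.1 hy
    obtain ⟨k, hk⟩ := mem_itr_omega hu
    exact ⟨k, step_subset_Lv hk h1⟩
  · intro k x hx
    exact itr_step (nat_mem_omega k) (hTsub _ (hno _) (ZFSet.mem_union.2 (Or.inr hx)))

omit hM hA in
theorem over_level_aux {n : ℕ} {s : Fin n ⊕ ZFSet.{0}} (hne : ∃ ξ ∈ M, ξ.IsOrdinal)
    (h : TOver (LC M A) s) : ∃ ξ ∈ M, ξ.IsOrdinal ∧ TOver {x | x ∈ Lv A ξ} s := by
  cases s with
  | inl i =>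
    obtain ⟨ξ, h1, h2⟩ := hne
    exact ⟨ξ, h1, h2, TOver.inl i⟩
  | inr a =>
    obtain ⟨ξ, h1, h2, h3⟩ := h a rfl
    exact ⟨ξ, h1, h2, tOver_inr.2 h3⟩

omit hM hA in
theorem max_level {ξ η : ZFSet.{0}} (h1 : ξ ∈ M) (h2 : ξ.IsOrdinal) (h3 : η ∈ M)
    (h4 : η.IsOrdinal) : ∃ ζ ∈ M, ζ.IsOrdinal ∧ Lv A ξ ⊆ Lv A ζ ∧ Lv A η ⊆ Lv A ζ := by
  rcases h2.subset_total h4 with h5 | h5
  · exact ⟨η, h3, h4, Lv_mono h5, fun _ h => h⟩
  · exact ⟨ξ, h1, h2, fun _ h => h, Lv_mono h5⟩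

omit hM hA in
theorem over_level (hne : ∃ ξ ∈ M, ξ.IsOrdinal) : {n : ℕ} → (φ : Fml ZFSet.{0} n) →
    φ.Over (LC M A) → ∃ ξ ∈ M, ξ.IsOrdinal ∧ φ.Over {x | x ∈ Lv A ξ}
  | _, .mem s t, h => by
    obtain ⟨ξ, h1, h2, h3⟩ := over_level_aux hne h.1
    obtain ⟨η, h4, h5, h6⟩ := over_level_aux hne h.2
    obtain ⟨ζ, h7, h8, h9, h10⟩ := max_level (A := A) h1 h2 h4 h5
    exact ⟨ζ, h7, h8, h3.mono h9, h6.mono h10⟩
  | _, .eq s t, h => by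
    obtain ⟨ξ, h1, h2, h3⟩ := over_level_aux hne h.1
    obtain ⟨η, h4, h5, h6⟩ := over_level_aux hne h.2
    obtain ⟨ζ, h7, h8, h9, h10⟩ := max_level (A := A) h1 h2 h4 h5
    exact ⟨ζ, h7, h8, h3.mono h9, h6.mono h10⟩
  | _, .neg φ, h => over_level hne φ h
  | _, .and φ ψ, h => by
    obtain ⟨ξ, h1, h2, h3⟩ := over_level hne φ h.1
    obtain ⟨η, h4, h5, h6⟩ := over_level hne ψ h.2
    obtain ⟨ζ, h7, h8, h9, h10⟩ := max_level (A := A) h1 h2 h4 h5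
    exact ⟨ζ, h7, h8, Fml.Over.mono (φ := φ) h9 h3, Fml.Over.mono (φ := ψ) h10 h6⟩
  | _, .ex φ, h => over_level hne φ h

theorem separation_LC (φ : Fml ZFSet.{0} 1) (hφ : φ.Over (LC M A)) (x : ZFSet.{0})
    (hx : x ∈ LC M A) : ∃ y ∈ LC M A, ∀ z, z ∈ y ↔ z ∈ x ∧ Sat (LC M A) id φ ![z] := by
  have hC := gd_LC hM (A := A)
  have hsub := LC_subset hM hA
  obtain ⟨ξ, h1, h2, h3⟩ := over_level ⟨∅, hM.empty_mem, ZFSet.isOrdinal_empty⟩ φ hφ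
  obtain ⟨η, h4, h5, h6⟩ := hx
  obtain ⟨ζ, h7, h8, h9, h10⟩ := max_level (A := A) h1 h2 h4 h5
  obtain ⟨δ, h11, h12, h13, h14⟩ := reflection hM hA φ (Fml.Over.mono (φ := φ) hsub hφ) h7 h8
  have hX := Lv_mem_LC hM (A := A) h11 h12
  obtain ⟨y, hy, h15⟩ := hC.sep hX φ
    (Fml.Over.mono (φ := φ) (fun u hu => Lv_mono h13 (h9 hu)) h3)
  have hxX : x ∈ Lv A δ := Lv_mono h13 (h10 h6)
  refine ⟨_, hC.inter_mem (hC.trans _ hX _ hxX) hy, fun z => ?_⟩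
  rw [ZFSet.mem_inter, h15]
  have h16 : z ∈ x → z ∈ Lv A δ := fun hz => Lv_trans _ _ hxX _ hz
  have h17 : z ∈ Lv A δ → (Sat {x | x ∈ Lv A δ} id φ ![z] ↔ Sat (LC M A) id φ ![z]) := by
    intro hz
    refine CL_sat (fun u hu => hC.trans _ hX _ hu) φ h14 _ fun i => ?_
    fin_cases i
    exact hz
  constructor
  · rintro ⟨hz, hz', h18⟩
    exact ⟨hz, (h17 hz').1 h18⟩
  · rintro ⟨hz, h18⟩
    exact ⟨hz, h16 hz, (h17 (h16 hz)).2 h18⟩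

/-- The constructible sets of a model of ZF are a model of ZF. -/
theorem isZF_LC : IsZF (LC M A) := by
  have hC := gd_LC hM (A := A)
  have hB := hM.base
  have hsub := LC_subset hM hA
  refine ⟨hC.trans, fun x hx y hy => hC.upair_mem hx hy, fun x hx => hC.sUnion_mem hx,
    ord_LC hM hA hM.infinity isOrdinal_omega, ?_, separation_LC hM hA, ?_⟩
  · intro x hx
    obtain ⟨p, hp, h1⟩ := hM.power x (hsub hx)
    obtain ⟨δ, hδ, hδo, h2⟩ := exists_level hM hA hp (Q := fun w z => w = z)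
      (Dfn.eq (DfnF.proj 0) (DfnF.proj 1))
    obtain ⟨y, hy, h3⟩ := separation_LC hM hA
      (.neg (.ex (.and (.mem (Sum.inl 0) (Sum.inl 1)) (.neg (.mem (Sum.inl 0) (Sum.inr x))))))
      ⟨⟨TOver.inl _, TOver.inl _⟩, TOver.inl _, tOver_inr.2 hx⟩ _ (Lv_mem_LC hM hδ hδo)
    refine ⟨y, hy, fun z => ?_⟩
    rw [h3]
    constructor
    · rintro ⟨h4, h5⟩
      have hzC := hC.trans _ (Lv_mem_LC hM hδ hδo) _ h4
      refine ⟨hzC, fun u hu => ?_⟩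
      by_contra h6
      exact h5 ⟨u, hC.trans _ hzC _ hu, hu, h6⟩
    · rintro ⟨h4, h5⟩
      obtain ⟨w, hw, rfl⟩ := h2 z ((h1 z).2 ⟨hsub h4, h5⟩) ⟨z, h4, rfl⟩
      refine ⟨hw, ?_⟩
      rintro ⟨u, -, hu, hu'⟩
      exact hu' (h5 hu)
  · intro φ hφ x hx h
    have hQ : Dfn M M fun w : Fin 2 → ZFSet.{0} => Sat (LC M A) id φ ![w 1, w 0] := by
      refine (dfn_sat (dfn_LC hM hA) hsub φ (Fml.Over.mono (φ := φ) hsub hφ)
        ![fun w => w 1, fun w => w 0] ?_).congr fun w _ => ?_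
      · intro i
        fin_cases i
        · exact DfnF.proj 1
        · exact DfnF.proj 0
      · have h1 : (fun i => (![fun w => w 1, fun w => w 0] :
            Fin 2 → (Fin 2 → ZFSet.{0}) → ZFSet.{0}) i w) = ![w 1, w 0] := by
          funext i
          fin_cases i <;> rfl
        rw [h1]
    obtain ⟨δ, hδ, hδo, h2⟩ := exists_level hM hA (hsub hx)
      (Q := fun w z => Sat (LC M A) id φ ![z, w]) hQ
    obtain ⟨y, hy, h3⟩ := separation_LC hM hA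
      (.ex (.and (.mem (Sum.inl 0) (Sum.inr x)) φ)) ⟨⟨TOver.inl _, tOver_inr.2 hx⟩, hφ⟩ _
      (Lv_mem_LC hM hδ hδo)
    have hv : ∀ z w : ZFSet.{0}, (Fin.cons z ![w] : Fin 2 → ZFSet.{0}) = ![z, w] := by
      intro z w
      funext i
      fin_cases i <;> rfl
    refine ⟨y, hy, fun w => ?_⟩
    rw [h3]
    constructor
    · rintro ⟨h4, z, hz, hzx, h5⟩
      rw [hv] at h5
      exact ⟨hC.trans _ (Lv_mem_LC hM hδ hδo) _ h4, z, hzx, h5⟩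
    · rintro ⟨hw, z, hz, h4⟩
      obtain ⟨w', -, hw'⟩ := h z hz
      obtain ⟨w'', h5, h6⟩ := h2 z hz ⟨w, hw, h4⟩
      have h7 := hC.trans _ (Lv_mem_LC hM hδ hδo) _ h5
      have h8 : w'' = w := (hw' w'' ⟨h7, h6⟩).trans (hw' w ⟨hw, h4⟩).symm
      refine ⟨h8 ▸ h5, z, hC.trans _ hx _ hz, hz, ?_⟩
      rw [hv]
      exact h4

end LC

end Pool.Agent.W868
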