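import Pool.Agent.W868.DZero
import Pool.Agent.W868.Rec

/-!
# The constructible hierarchy relative to a set
-/

set_option autoImplicit false
set_option linter.unreachableTactic false
set_option linter.unusedTactic false

namespace Pool.Agent.W868

open ZFSet (pair)

/-- The basic operations: `u` is an element of the value of the operation number `i` at
`a` and `b`. -/
def GR (A : ZFSet.{0}) (i : ℕ) (u a b : ZFSet.{0}) : Prop :=
  match i with
  | 0 => u ∈ a
  | 1 => u = a ∨ u = b
  | 2 => ∃ x ∈ a, u ∈ x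
  | 3 => u ∈ a ∧ ¬ u ∈ b
  | 4 => ∃ x ∈ a, ∃ y ∈ b, u = pair x y
  | 5 => ∃ p ∈ a, ∃ x y, p = pair x y ∧ u = y
  | 6 => ∃ p ∈ a, ∃ x y, p = pair x y ∧ u = x
  | 7 => ∃ x ∈ a, ∃ y ∈ b, ∃ c d, u = pair c d ∧ c = x ∧ d = pair x y
  | 8 => ∃ z ∈ a, ∃ p ∈ b, ∃ x y, p = pair x y ∧ ∃ c d, u = pair c d ∧ c = x ∧ d = pair z y
  | 9 => ∃ p ∈ a, ∃ q ∈ b, ∃ x y, p = pair x y ∧ y = u ∧ ∃ x' y', q = pair x' y' ∧ y' = u ∧
      x ∈ x'
  | _ => u ∈ A

theorem d0_GR : ∀ i : ℕ, D0 fun v : Fin 4 → ZFSet.{0} => GR (v 0) i (v 1) (v 2) (v 3)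
  | 0 => by
    unfold GR
    (repeat' first
      | assumption
      | exact D0v.proj _
      | apply D0.not | apply D0.and | apply D0.expair | apply D0.or | apply D0.isPair | apply D0.pairMem
      | apply D0.bex | apply D0.ball | apply D0.imp | apply D0.iff | apply D0.subset
      | apply D0.eq | apply D0.mem | apply D0.isOrdinal)
  | 1 => by
    unfold GR
    (repeat' first
      | assumption
      | exact D0v.proj _
      | apply D0.not | apply D0.and | apply D0.expair | apply D0.or | apply D0.isPair | apply D0.pairMem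
      | apply D0.bex | apply D0.ball | apply D0.imp | apply D0.iff | apply D0.subset
      | apply D0.eq | apply D0.mem | apply D0.isOrdinal)
  | 2 => by
    unfold GR
    (repeat' first
      | assumption
      | exact D0v.proj _
      | apply D0.not | apply D0.and | apply D0.expair | apply D0.or | apply D0.isPair | apply D0.pairMem
      | apply D0.bex | apply D0.ball | apply D0.imp | apply D0.iff | apply D0.subset
      | apply D0.eq | apply D0.mem | apply D0.isOrdinal)
  | 3 => by
    unfold GR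
    (repeat' first
      | assumption
      | exact D0v.proj _
      | apply D0.not | apply D0.and | apply D0.expair | apply D0.or | apply D0.isPair | apply D0.pairMem
      | apply D0.bex | apply D0.ball | apply D0.imp | apply D0.iff | apply D0.subset
      | apply D0.eq | apply D0.mem | apply D0.isOrdinal)
  | 4 => by
    unfold GR
    (repeat' first
      | assumption
      | exact D0v.proj _
      | apply D0.not | apply D0.and | apply D0.expair | apply D0.or | apply D0.isPair | apply D0.pairMem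
      | apply D0.bex | apply D0.ball | apply D0.imp | apply D0.iff | apply D0.subset
      | apply D0.eq | apply D0.mem | apply D0.isOrdinal)
  | 5 => by
    unfold GR
    (repeat' first
      | assumption
      | exact D0v.proj _
      | apply D0.not | apply D0.and | apply D0.expair | apply D0.or | apply D0.isPair | apply D0.pairMem
      | apply D0.bex | apply D0.ball | apply D0.imp | apply D0.iff | apply D0.subset
      | apply D0.eq | apply D0.mem | apply D0.isOrdinal)
  | 6 => by
    unfold GR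
    (repeat' first
      | assumption
      | exact D0v.proj _
      | apply D0.not | apply D0.and | apply D0.expair | apply D0.or | apply D0.isPair | apply D0.pairMem
      | apply D0.bex | apply D0.ball | apply D0.imp | apply D0.iff | apply D0.subset
      | apply D0.eq | apply D0.mem | apply D0.isOrdinal)
  | 7 => by
    unfold GR
    (repeat' first
      | assumption
      | exact D0v.proj _
      | apply D0.not | apply D0.and | apply D0.expair | apply D0.or | apply D0.isPair | apply D0.pairMem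
      | apply D0.bex | apply D0.ball | apply D0.imp | apply D0.iff | apply D0.subset
      | apply D0.eq | apply D0.mem | apply D0.isOrdinal)
  | 8 => by
    unfold GR
    (repeat' first
      | assumption
      | exact D0v.proj _
      | apply D0.not | apply D0.and | apply D0.expair | apply D0.or | apply D0.isPair | apply D0.pairMem
      | apply D0.bex | apply D0.ball | apply D0.imp | apply D0.iff | apply D0.subset
      | apply D0.eq | apply D0.mem | apply D0.isOrdinal)
  | 9 => by
    unfold GR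
    (repeat' first
      | assumption
      | exact D0v.proj _
      | apply D0.not | apply D0.and | apply D0.expair | apply D0.or | apply D0.isPair | apply D0.pairMem
      | apply D0.bex | apply D0.ball | apply D0.imp | apply D0.iff | apply D0.subset
      | apply D0.eq | apply D0.mem | apply D0.isOrdinal)
  | i + 10 => by
    unfold GR
    (repeat' first
      | assumption
      | exact D0v.proj _
      | apply D0.not | apply D0.and | apply D0.expair | apply D0.or | apply D0.isPair | apply D0.pairMem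
      | apply D0.bex | apply D0.ball | apply D0.imp | apply D0.iff | apply D0.subset
      | apply D0.eq | apply D0.mem | apply D0.isOrdinal)

theorem d0_GR' (i : ℕ) {n : ℕ} {F G H K : (Fin n → ZFSet.{0}) → ZFSet.{0}} (hF : D0v F)
    (hG : D0v G) (hH : D0v H) (hK : D0v K) : D0 fun v => GR (F v) i (G v) (H v) (K v) := by
  obtain ⟨a, ha⟩ := hF
  obtain ⟨b, hb⟩ := hG
  obtain ⟨c, hc⟩ := hH
  obtain ⟨d, hd⟩ := hK
  refine ((d0_GR i).comp ![a, b, c, d]).congr fun v => ?_
  rw [ha, hb, hc, hd]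
  rfl

/-- The sets that are obtained from `X` with the operations number `0, ..., k - 1`. -/
noncomputable def stepN (A X : ZFSet.{0}) : ℕ → ZFSet.{0}
  | 0 => X
  | k + 1 => stepN A X k ∪ im (fun p => ZFSet.sep (fun u => GR A k u (fs p) (sn p)) X)
      (ZFSet.prod (insert X X) (insert X X))

/-- One step of the hierarchy. -/
noncomputable def step (A X : ZFSet.{0}) : ZFSet.{0} := stepN A X 11

/-- `y` is obtained from `X` by one operation. -/
def SR (A X y : ZFSet.{0}) (k : ℕ) : Prop :=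
  ∃ i < k, ∃ a ∈ insert X X, ∃ b ∈ insert X X, ∀ u, u ∈ y ↔ u ∈ X ∧ GR A i u a b

theorem mem_stepN {A X y : ZFSet.{0}} {k : ℕ} : y ∈ stepN A X k ↔ y ∈ X ∨ SR A X y k := by
  induction k with
  | zero => simp [stepN, SR]
  | succ k ih =>
    rw [stepN, ZFSet.mem_union, ih, mem_im]
    constructor
    · rintro ((h | ⟨i, hi, h⟩) | ⟨p, hp, rfl⟩)
      · exact Or.inl h
      · exact Or.inr ⟨i, by omega, h⟩
      · obtain ⟨a, ha, b, hb, rfl⟩ := ZFSet.mem_prod.1 hp
        refine Or.inr ⟨k, by omega, a, ha, b, hb, fun u => ?_⟩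
        rw [ZFSet.mem_sep, fs_pair, sn_pair]
    · rintro (h | ⟨i, hi, a, ha, b, hb, h⟩)
      · exact Or.inl (Or.inl h)
      · rcases Nat.lt_succ_iff_lt_or_eq.1 hi with h2 | rfl
        · exact Or.inl (Or.inr ⟨i, h2, a, ha, b, hb, h⟩)
        · refine Or.inr ⟨pair a b, ZFSet.pair_mem_prod.2 ⟨ha, hb⟩, ?_⟩
          ext u
          rw [h, ZFSet.mem_sep, fs_pair, sn_pair]

theorem mem_step {A X y : ZFSet.{0}} : y ∈ step A X ↔ y ∈ X ∨ SR A X y 11 := mem_stepN

theorem subset_step {A X : ZFSet.{0}} : X ⊆ step A X := fun _ h => mem_step.2 (Or.inl h)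

theorem self_mem_step {A X : ZFSet.{0}} : X ∈ step A X := by
  refine mem_step.2 (Or.inr ⟨0, by omega, X, ZFSet.mem_insert _ _, X, ZFSet.mem_insert _ _,
    fun u => ?_⟩)
  exact ⟨fun h => ⟨h, h⟩, fun h => h.1⟩

theorem step_cases {A X y : ZFSet.{0}} (h : y ∈ step A X) : y ∈ X ∨ y ⊆ X := by
  rcases mem_step.1 h with h | ⟨i, -, a, -, b, -, h⟩
  · exact Or.inl h
  · exact Or.inr fun u hu => ((h u).1 hu).1

/-- The hierarchy. -/
noncomputable def Lv (A : ZFSet.{0}) : ZFSet.{0} → ZFSet.{0} :=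
  wfF (fun z => z) ZFSet.mem_wf fun _ g => ZFSet.sUnion (im (fun p => step A (sn p)) g)

theorem Lv_eq (A z : ZFSet.{0}) :
    Lv A z = ZFSet.sUnion (im (fun p => step A (sn p)) (gr (Lv A) z)) := by
  rw [Lv, wfF_eq]

theorem mem_Lv {A z y : ZFSet.{0}} : y ∈ Lv A z ↔ ∃ u ∈ z, y ∈ step A (Lv A u) := by
  rw [Lv_eq, ZFSet.mem_sUnion]
  constructor
  · rintro ⟨w, hw, h⟩
    obtain ⟨p, hp, rfl⟩ := mem_im.1 hw
    obtain ⟨u, hu, rfl⟩ := mem_gr.1 hp
    rw [sn_pair] at h
    exact ⟨u, hu, h⟩
  · rintro ⟨u, hu, h⟩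
    exact ⟨_, mem_im.2 ⟨_, mem_gr.2 ⟨u, hu, rfl⟩, rfl⟩, by rwa [sn_pair]⟩

theorem step_subset_Lv {A z u : ZFSet.{0}} (h : u ∈ z) : step A (Lv A u) ⊆ Lv A z :=
  fun _ hy => mem_Lv.2 ⟨u, h, hy⟩

theorem Lv_subset {A z u : ZFSet.{0}} (h : u ∈ z) : Lv A u ⊆ Lv A z :=
  fun _ hy => step_subset_Lv h (subset_step hy)

theorem Lv_mem {A z u : ZFSet.{0}} (h : u ∈ z) : Lv A u ∈ Lv A z :=
  step_subset_Lv h self_mem_step

theorem Lv_mono {A z z' : ZFSet.{0}} (h : z ⊆ z') : Lv A z ⊆ Lv A z' := fun _ hy => by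
  obtain ⟨u, hu, h1⟩ := mem_Lv.1 hy
  exact mem_Lv.2 ⟨u, h hu, h1⟩

theorem Lv_trans {A : ZFSet.{0}} (z : ZFSet.{0}) : ∀ y ∈ Lv A z, ∀ w ∈ y, w ∈ Lv A z := by
  induction z using ZFSet.inductionOn with
  | _ z ih =>
  intro y hy w hw
  obtain ⟨u, hu, h⟩ := mem_Lv.1 hy
  rcases step_cases h with h | h
  · exact Lv_subset hu (ih u hu y h w hw)
  · exact Lv_subset hu (h hw)

theorem Lv_succ {A z : ZFSet.{0}} : Lv A (insert z z) = step A (Lv A z) := by
  ext y
  rw [mem_Lv]
  constructor
  · rintro ⟨u, hu, h⟩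
    rcases ZFSet.mem_insert_iff.1 hu with rfl | hu
    · exact h
    · exact subset_step (mem_Lv.2 ⟨u, hu, h⟩)
  · intro h
    exact ⟨z, ZFSet.mem_insert _ _, h⟩

section dfn

variable {M : Set ZFSet.{0}} (hM : IsZF M) {A : ZFSet.{0}} (hA : A ∈ M)

include hM hA

theorem dfn_GR (i : ℕ) {n : ℕ} {G H K : (Fin n → ZFSet.{0}) → ZFSet.{0}} (hG : DfnF M M G)
    (hH : DfnF M M H) (hK : DfnF M M K) : Dfn M M fun v => GR A i (G v) (H v) (K v) :=
  Dfn.comp4 (Q := fun a b c d => GR a i b c d) ((d0_GR i).dfn hM.trans) (DfnF.const hA) hG hH hK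

theorem dfn_stepN (k : ℕ) : DfnF M M fun w : Fin 1 → ZFSet.{0} => stepN A (w 0) k := by
  have hB := hM.base
  induction k with
  | zero => exact DfnF.proj 0
  | succ k ih =>
    refine hB.union' ih ?_
    have h1 : DfnF M M fun w : Fin 1 → ZFSet.{0} => (insert (w 0) (w 0) : ZFSet.{0}) :=
      hB.insert' (DfnF.proj 0) (DfnF.proj 0)
    refine hM.im' (h := fun p w => ZFSet.sep (fun u => GR A k u (fs p) (sn p)) (w 0))
      (hM.prod' h1 h1) ?_
    refine hM.sep' (Q := fun u w => GR A k u (fs (w 0)) (sn (w 0))) (DfnF.proj 1) ?_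
    exact dfn_GR hM hA k (DfnF.proj 0) (hM.fs' (DfnF.proj 1)) (hM.sn' (DfnF.proj 1))

theorem dfn_step : DfnF M M fun w : Fin 1 → ZFSet.{0} => step A (w 0) := dfn_stepN hM hA 11

theorem dfn_Lv : DfnF M M fun w : Fin 1 → ZFSet.{0} => Lv A (w 0) := by
  have hB := hM.base
  refine hM.memrec (G := fun _ g => ZFSet.sUnion (im (fun p => step A (sn p)) g)) ?_
    fun z => Lv_eq A z
  refine hB.sUnion' (hM.im' (h := fun p _ => step A (sn p)) (DfnF.proj 1) ?_)
  exact DfnF.comp1 (f := step A) (dfn_step hM hA) (hM.sn' (DfnF.proj 0))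

theorem Lv_mem_M {z : ZFSet.{0}} (hz : z ∈ M) : Lv A z ∈ M :=
  (dfn_Lv hM hA).1 (fun _ => z) fun _ => hz

end dfn

end Pool.Agent.W868
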