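import Pool.Agent.W868.Small

/-!
# The transitive collapse
-/

set_option autoImplicit false
set_option linter.unreachableTactic false
set_option linter.unusedTactic false

namespace Pool.Agent.W868

open ZFSet (pair)

theorem col_wf (H : ZFSet.{0}) : WellFounded fun u z => u ∈ ZFSet.sep (fun u => u ∈ H) z :=
  Subrelation.wf (fun h => (ZFSet.mem_sep.1 h).1) ZFSet.mem_wf

/-- The transitive collapse of `H`. -/
noncomputable def col (H : ZFSet.{0}) : ZFSet.{0} → ZFSet.{0} :=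
  wfF (fun z => ZFSet.sep (fun u => u ∈ H) z) (col_wf H) fun _ g => im sn g

theorem mem_col {H z y : ZFSet.{0}} : y ∈ col H z ↔ ∃ u ∈ z, u ∈ H ∧ y = col H u := by
  rw [col, wfF_eq, ← col, mem_im]
  constructor
  · rintro ⟨p, hp, rfl⟩
    obtain ⟨u, hu, rfl⟩ := mem_gr.1 hp
    rw [ZFSet.mem_sep] at hu
    exact ⟨u, hu.1, hu.2, sn_pair _ _⟩
  · rintro ⟨u, hu, hu', rfl⟩
    exact ⟨_, mem_gr.2 ⟨u, ZFSet.mem_sep.2 ⟨hu, hu'⟩, rfl⟩, (sn_pair _ _).symm⟩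

theorem col_fix {H a : ZFSet.{0}} (ha : ∀ x ∈ a, ∀ y ∈ x, y ∈ a) (h : a ⊆ H) :
    ∀ x ∈ a, col H x = x := by
  intro x
  induction x using ZFSet.inductionOn with
  | _ x ih =>
  intro hx
  ext y
  rw [mem_col]
  constructor
  · rintro ⟨u, hu, -, rfl⟩
    rwa [ih u hu (ha x hx u hu)]
  · intro hy
    exact ⟨y, hy, h (ha x hx y hy), (ih y hy (ha x hx y hy)).symm⟩

/-- The elements of `H` are determined by their elements in `H`. -/
def Xt (H : ZFSet.{0}) : Prop := ∀ x ∈ H, ∀ y ∈ H, (∀ z ∈ H, z ∈ x ↔ z ∈ y) → x = y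

theorem col_inj {H : ZFSet.{0}} (hH : Xt H) : ∀ x ∈ H, ∀ y ∈ H, col H x = col H y → x = y := by
  intro x
  induction x using ZFSet.inductionOn with
  | _ x ih =>
  intro hx y hy h
  refine hH x hx y hy fun z hz => ?_
  constructor
  · intro hzx
    have h1 : col H z ∈ col H y := h ▸ mem_col.2 ⟨z, hzx, hz, rfl⟩
    obtain ⟨u, hu, hu', h2⟩ := mem_col.1 h1
    exact ih z hzx hz u hu' h2 ▸ hu
  · intro hzy
    have h1 : col H z ∈ col H x := h.symm ▸ mem_col.2 ⟨z, hzy, hz, rfl⟩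
    obtain ⟨u, hu, hu', h2⟩ := mem_col.1 h1
    exact ih u hu hu' z hz h2.symm ▸ hu

theorem col_mem_iff {H x y : ZFSet.{0}} (hH : Xt H) (hx : x ∈ H) :
    col H x ∈ col H y ↔ x ∈ y := by
  rw [mem_col]
  constructor
  · rintro ⟨u, hu, hu', h⟩
    exact col_inj hH x hx u hu' h ▸ hu
  · exact fun h => ⟨x, h, hx, rfl⟩

theorem col_trans {H : ZFSet.{0}} : ∀ x ∈ im (col H) H, ∀ y ∈ x, y ∈ im (col H) H := by
  intro x hx y hy
  obtain ⟨u, hu, rfl⟩ := mem_im.1 hx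
  obtain ⟨w, hw, hw', rfl⟩ := mem_col.1 hy
  exact mem_im.2 ⟨w, hw', rfl⟩

theorem sat_col {H : ZFSet.{0}} (hH : Xt H) : {n : ℕ} → (φ : Fml Empty n) →
    (v : Fin n → ZFSet.{0}) → (∀ i, v i ∈ H) →
    (Sat {x | x ∈ im (col H) H} Empty.elim φ (fun i => col H (v i)) ↔
      Sat {x | x ∈ H} Empty.elim φ v)
  | n, .mem (Sum.inl i) (Sum.inl j), v, hv => col_mem_iff hH (hv i)
  | n, .eq (Sum.inl i) (Sum.inl j), v, hv =>
    ⟨fun h => col_inj hH _ (hv i) _ (hv j) h, fun h => congrArg (col H) h⟩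
  | n, .neg φ, v, hv => not_congr (sat_col hH φ v hv)
  | n, .and φ ψ, v, hv => and_congr (sat_col hH φ v hv) (sat_col hH ψ v hv)
  | n, .ex φ, v, hv => by
    have hc : ∀ a ∈ H, ∀ k, (Fin.cons a v : Fin (n + 1) → ZFSet.{0}) k ∈ H := by
      intro a ha k
      refine Fin.cases ?_ (fun k => ?_) k
      · exact ha
      · exact hv k
    have he : ∀ a, (Fin.cons (col H a) (fun i => col H (v i)) : Fin (n + 1) → ZFSet.{0}) =
        fun i => col H ((Fin.cons a v : Fin (n + 1) → ZFSet.{0}) i) := by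
      intro a
      funext i
      refine Fin.cases ?_ (fun i => ?_) i
      · rfl
      · rfl
    constructor
    · rintro ⟨b, hb, h⟩
      obtain ⟨a, ha, rfl⟩ := mem_im.1 hb
      rw [he] at h
      exact ⟨a, ha, (sat_col hH φ _ (hc a ha)).1 h⟩
    · rintro ⟨a, ha, h⟩
      refine ⟨col H a, mem_im.2 ⟨a, ha, rfl⟩, ?_⟩
      rw [he]
      exact (sat_col hH φ _ (hc a ha)).2 h

/-! ### Order types of sets of ordinals -/

theorem xt_ord {s : ZFSet.{0}} (hs : ∀ x ∈ s, x.IsOrdinal) : Xt s := by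
  intro x hx y hy h
  rcases (hs x hx).mem_trichotomous (hs y hy) with h1 | h1 | h1
  · exact absurd ((h x hx).2 h1) (ZFSet.mem_irrefl _)
  · exact h1
  · exact absurd ((h y hy).1 h1) (ZFSet.mem_irrefl _)

theorem col_ord {s : ZFSet.{0}} (hs : ∀ x ∈ s, x.IsOrdinal) : ∀ x : ZFSet.{0}, x.IsOrdinal →
    (col s x).IsOrdinal ∧ col s x ⊆ x := by
  intro x
  induction x using ZFSet.inductionOn with
  | _ x ih =>
  intro hx
  constructor
  · rw [ZFSet.isOrdinal_iff_forall_mem_isOrdinal]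
    constructor
    · intro y hy z hz
      obtain ⟨u, hu, hu', rfl⟩ := mem_col.1 hy
      obtain ⟨w, hw, hw', rfl⟩ := mem_col.1 hz
      exact mem_col.2 ⟨w, hx.mem_trans hw hu, hw', rfl⟩
    · intro y hy
      obtain ⟨u, hu, hu', rfl⟩ := mem_col.1 hy
      exact (ih u hu (hs u hu')).1
  · intro y hy
    obtain ⟨u, hu, hu', rfl⟩ := mem_col.1 hy
    obtain ⟨h1, h2⟩ := ih u hu (hs u hu')
    exact h1.mem_of_subset_of_mem hx h2 hu

/-- The order type of a set of ordinals. -/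
noncomputable def oty (s : ZFSet.{0}) : ZFSet.{0} := im (col s) s

theorem isOrdinal_oty {s : ZFSet.{0}} (hs : ∀ x ∈ s, x.IsOrdinal) : (oty s).IsOrdinal := by
  rw [ZFSet.isOrdinal_iff_forall_mem_isOrdinal]
  constructor
  · intro y hy z hz
    exact col_trans y hy z hz
  · intro y hy
    obtain ⟨u, hu, rfl⟩ := mem_im.1 hy
    exact (col_ord hs u (hs u hu)).1

theorem oty_subset {s κ : ZFSet.{0}} (hκ : κ.IsOrdinal) (hs : s ⊆ κ) : oty s ⊆ κ := by
  intro y hy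
  obtain ⟨u, hu, rfl⟩ := mem_im.1 hy
  have hs' : ∀ x ∈ s, x.IsOrdinal := fun x hx => hκ.mem (hs hx)
  obtain ⟨h1, h2⟩ := col_ord hs' u (hs' u hu)
  exact h1.mem_of_subset_of_mem hκ h2 (hs hu)

section

variable {M : Set ZFSet.{0}} (hM : IsZF M)

include hM

theorem dfn_col {H : ZFSet.{0}} (hH : H ∈ M) :
    DfnF M M fun w : Fin 1 → ZFSet.{0} => col H (w 0) := by
  refine hM.wfrec (pr := fun z => ZFSet.sep (fun u => u ∈ H) z) (col_wf H)
    (G := fun _ g => im sn g) ?_ ?_ ?_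
  · refine hM.sep' (Q := fun u _ => u ∈ H) (DfnF.proj 0) ?_
    exact Dfn.mem (DfnF.proj 0) (DfnF.const hH)
  · exact hM.im' (h := fun p _ => sn p) (DfnF.proj 1) (hM.sn' (DfnF.proj 0))
  · intro z
    rw [col, wfF_eq]

theorem col_im_mem {H : ZFSet.{0}} (hH : H ∈ M) : im (col H) H ∈ M :=
  hM.im_mem hH (dfn_col hM hH)

theorem bij_of_fun {x y : ZFSet.{0}} (hx : x ∈ M) (hy : y ∈ M) {h : ZFSet.{0} → ZFSet.{0}}
    (hh : DfnF M M fun w : Fin 1 → ZFSet.{0} => h (w 0)) (h1 : ∀ a ∈ x, h a ∈ y)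
    (h2 : ∀ a ∈ x, ∀ a' ∈ x, h a = h a' → a = a') (h4 : ∀ b ∈ y, ∃ a ∈ x, h a = b) :
    ∃ f ∈ M, IsBij x y f ∧ ∀ a b, pair a b ∈ f ↔ a ∈ x ∧ b = h a := by
  have hR : Dfn M M fun w : Fin 2 → ZFSet.{0} => w 1 = h (w 0) :=
    Dfn.eq (DfnF.proj 1) (DfnF.comp1 (f := h) hh (DfnF.proj 0))
  obtain ⟨f, hf, h3, h5⟩ := inj_of_rel hM hx hy (R := fun a b => b = h a) hR
    (fun a ha => ⟨_, h1 a ha, rfl⟩) (fun a _ b _ b' _ h3 h4 => h3.trans h4.symm)
    (fun a ha a' ha' b _ h3 h4 => h2 a ha a' ha' (h3.symm.trans h4))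
  refine ⟨f, hf, ⟨h3, fun b hb => ?_⟩, fun a b => ?_⟩
  · obtain ⟨a, ha, rfl⟩ := h4 b hb
    exact ⟨a, ha, (h5 _ _).2 ⟨ha, h1 a ha, rfl⟩⟩
  · rw [h5]
    constructor
    · rintro ⟨ha, -, h⟩
      exact ⟨ha, h⟩
    · rintro ⟨ha, rfl⟩
      exact ⟨ha, h1 a ha, rfl⟩

/-- In `M` there is a bijection between `x` and `y`. -/
def Bij (M : Set ZFSet.{0}) (x y : ZFSet.{0}) : Prop := ∃ f ∈ M, IsBij x y f

omit hM in
theorem Bij.inj {x y : ZFSet.{0}} (h : Bij M x y) : Inj M x y := by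
  obtain ⟨f, hf, h1, -⟩ := h
  exact ⟨f, hf, h1⟩

theorem Bij.symm {x y : ZFSet.{0}} (hx : x ∈ M) (hy : y ∈ M) (h : Bij M x y) : Bij M y x := by
  have hB := hM.base
  obtain ⟨f, hf, h1, h2⟩ := h
  have hR : Dfn M M fun w : Fin 2 → ZFSet.{0} => pair (w 1) (w 0) ∈ f := by
    (repeat' first
      | assumption
      | exact DfnF.proj _
      | exact DfnF.const (by assumption)
      | exact DfnF.const' (by first | assumption | trivial) (by first | assumption | trivial)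
      | exact Dfn.prop _
      | apply Dfn.not | apply Dfn.and | apply Dfn.or | apply Dfn.imp | apply Dfn.iff
      | apply hB.bex | apply hB.ball | apply Dfn.ex | apply Dfn.all
      | apply Dfn.eq | apply Dfn.mem | apply hB.pair')
  obtain ⟨g, hg, h3, h4⟩ := inj_of_rel hM hy hx (R := fun a b => pair b a ∈ f) hR
    (fun a ha => by
      obtain ⟨b, hb, h5⟩ := h2 a ha
      exact ⟨b, hb, h5⟩)
    (fun a _ b _ b' _ h3 h4 => h1.2 _ _ _ h3 h4)
    (fun a _ a' _ b _ h3 h4 => fun_unique h1.1 h3 h4)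
  refine ⟨g, hg, h3, fun b hb => ?_⟩
  obtain ⟨c, hc, h5⟩ := fun_exists h1.1 hb
  exact ⟨c, hc, (h4 _ _).2 ⟨hc, hb, h5⟩⟩

theorem Bij.trans {x y z : ZFSet.{0}} (hx : x ∈ M) (hz : z ∈ M) (h1 : Bij M x y)
    (h2 : Bij M y z) : Bij M x z := by
  have hB := hM.base
  obtain ⟨f, hf, h1⟩ := h1
  obtain ⟨g, hg, h2⟩ := h2
  have hR : Dfn M M fun w : Fin 2 → ZFSet.{0} => ∃ b ∈ M, pair (w 0) b ∈ f ∧ pair b (w 1) ∈ g := by
    (repeat' first
      | assumption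
      | exact DfnF.proj _
      | exact DfnF.const (by assumption)
      | exact DfnF.const' (by first | assumption | trivial) (by first | assumption | trivial)
      | exact Dfn.prop _
      | apply Dfn.not | apply Dfn.and | apply Dfn.or | apply Dfn.imp | apply Dfn.iff
      | apply hB.bex | apply hB.ball | apply Dfn.ex | apply Dfn.all
      | apply Dfn.eq | apply Dfn.mem | apply hB.pair')
  have hMb : ∀ {a b}, pair a b ∈ f → b ∈ M := fun h => (hM.of_pair_mem (hM.trans _ hf _ h)).2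
  obtain ⟨k, hk, h6, h7⟩ := inj_of_rel hM hx hz
    (R := fun a c => ∃ b ∈ M, pair a b ∈ f ∧ pair b c ∈ g) hR (by
      intro a ha
      obtain ⟨b, hb, h3⟩ := fun_exists h1.1.1 ha
      obtain ⟨c, hc, h4⟩ := fun_exists h2.1.1 hb
      exact ⟨c, hc, b, hMb h3, h3, h4⟩) (by
      rintro a - c - c' - ⟨b, -, h3, h4⟩ ⟨b', -, h5, h6⟩
      obtain rfl := fun_unique h1.1.1 h3 h5
      exact fun_unique h2.1.1 h4 h6) (by
      rintro a - a' - c - ⟨b, -, h3, h4⟩ ⟨b', -, h5, h6⟩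
      obtain rfl := h2.1.2 _ _ _ h4 h6
      exact h1.1.2 _ _ _ h3 h5)
  refine ⟨k, hk, h6, fun c hc => ?_⟩
  obtain ⟨b, hb, h8⟩ := h2.2 c hc
  obtain ⟨a, ha, h9⟩ := h1.2 b hb
  exact ⟨a, ha, (h7 _ _).2 ⟨ha, hc, b, hMb h9, h9, h8⟩⟩

/-- The range of an injection. -/
theorem exists_range {x y : ZFSet.{0}} (hx : x ∈ M) (hy : y ∈ M) (h : Inj M x y) :
    ∃ s ∈ M, s ⊆ y ∧ Bij M x s := by
  have hB := hM.base
  obtain ⟨f, hf, h1⟩ := h
  have hQ : Dfn M M fun w : Fin 1 → ZFSet.{0} => ∃ a ∈ x, pair a (w 0) ∈ f := by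
    (repeat' first
      | assumption
      | exact DfnF.proj _
      | exact DfnF.const (by assumption)
      | exact DfnF.const' (by first | assumption | trivial) (by first | assumption | trivial)
      | exact Dfn.prop _
      | apply Dfn.not | apply Dfn.and | apply Dfn.or | apply Dfn.imp | apply Dfn.iff
      | apply hB.bex | apply hB.ball | apply Dfn.ex | apply Dfn.all
      | apply Dfn.eq | apply Dfn.mem | apply hB.pair')
  have hs := hM.sep_mem (Q := fun b => ∃ a ∈ x, pair a b ∈ f) hQ hy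
  refine ⟨_, hs, fun b hb => (ZFSet.mem_sep.1 hb).1, f, hf, ⟨⟨fun p hp => ?_, h1.1.2⟩, h1.2⟩,
    fun b hb => (ZFSet.mem_sep.1 hb).2⟩
  obtain ⟨a, ha, b, hb, rfl⟩ := ZFSet.mem_prod.1 (h1.1.1 hp)
  exact ZFSet.pair_mem_prod.2 ⟨ha, ZFSet.mem_sep.2 ⟨hb, a, ha, hp⟩⟩

theorem bij_oty {s : ZFSet.{0}} (hsM : s ∈ M) (hs : ∀ x ∈ s, x.IsOrdinal) : Bij M s (oty s) := by
  obtain ⟨f, hf, h1, -⟩ := bij_of_fun hM hsM (col_im_mem hM hsM) (dfn_col hM hsM)
    (fun a ha => mem_im.2 ⟨a, ha, rfl⟩) (fun a ha a' ha' h => col_inj (xt_ord hs) a ha a' ha' h)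
    (fun b hb => by
      obtain ⟨a, ha, rfl⟩ := mem_im.1 hb
      exact ⟨a, ha, rfl⟩)
  exact ⟨f, hf, h1⟩

/-- A set that injects into an ordinal has the size of an ordinal. -/
theorem exists_ord {x κ : ZFSet.{0}} (hx : x ∈ M) (hκ : κ ∈ M) (hκo : κ.IsOrdinal)
    (h : Inj M x κ) : ∃ τ ∈ M, τ.IsOrdinal ∧ τ ⊆ κ ∧ Bij M x τ := by
  obtain ⟨s, hs, hsκ, h1⟩ := exists_range hM hx hκ h
  have hs' : ∀ x ∈ s, x.IsOrdinal := fun x hx => hκo.mem (hsκ hx)
  have ho := col_im_mem hM hs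
  exact ⟨oty s, ho, isOrdinal_oty hs', oty_subset hκo hsκ, Bij.trans hM hx ho h1
    (bij_oty hM hs hs')⟩

end

end Pool.Agent.W868
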