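import Pool.Agent.W868.Ext

/-!
# Uniform definability over the generic extensions, and the forcing theorem
-/

set_option autoImplicit false
set_option linter.unreachableTactic false
set_option linter.unusedTactic false
set_option linter.unusedSectionVars false

namespace Pool.Agent.W868

open PName
open ZFSet (pair)

variable {P : Type} [Preorder P] [OrderTop P]

/-- `R` is uniformly definable in the extensions, with the names in `S` as parameters. -/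
def NDfn (S : Set (PName P)) {n : ℕ} (R : Pkg P → (Fin n → ZFSet.{0}) → Prop) : Prop :=
  ∃ φ : Fml (PName P) n, φ.Over S ∧ ∀ π : Pkg P, S ⊆ π.N → ∀ v, (∀ i, v i ∈ π.W) →
    (Sat π.W π.val φ v ↔ R π v)

/-- `F` is a uniformly definable operation on the extensions. -/
def NDfnF (S : Set (PName P)) {n : ℕ} (F : Pkg P → (Fin n → ZFSet.{0}) → ZFSet.{0}) : Prop :=
  (∀ π : Pkg P, S ⊆ π.N → ∀ v, (∀ i, v i ∈ π.W) → F π v ∈ π.W) ∧
    NDfn S (fun π (w : Fin (n + 1) → ZFSet.{0}) => w 0 = F π (Fin.tail w))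

section

variable {S : Set (PName P)} {n : ℕ} {R T : Pkg P → (Fin n → ZFSet.{0}) → Prop}

theorem NDfn.congr (h : NDfn S R)
    (h' : ∀ π : Pkg P, S ⊆ π.N → ∀ v, (∀ i, v i ∈ π.W) → (R π v ↔ T π v)) : NDfn S T := by
  obtain ⟨φ, h1, h2⟩ := h
  exact ⟨φ, h1, fun π hπ v hv => (h2 π hπ v hv).trans (h' π hπ v hv)⟩

theorem NDfn.mono {S' : Set (PName P)} (h : NDfn S R) (hS : S ⊆ S') : NDfn S' R := by
  obtain ⟨φ, h1, h2⟩ := h
  exact ⟨φ, Fml.Over.mono hS h1, fun π hπ v hv => h2 π (hS.trans hπ) v hv⟩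

theorem NDfn.not (h : NDfn S R) : NDfn S fun π v => ¬ R π v := by
  obtain ⟨φ, h1, h2⟩ := h
  exact ⟨.neg φ, h1, fun π hπ v hv => not_congr (h2 π hπ v hv)⟩

theorem NDfn.and (h : NDfn S R) (h' : NDfn S T) : NDfn S fun π v => R π v ∧ T π v := by
  obtain ⟨φ, h1, h2⟩ := h
  obtain ⟨ψ, h3, h4⟩ := h'
  exact ⟨.and φ ψ, ⟨h1, h3⟩, fun π hπ v hv => and_congr (h2 π hπ v hv) (h4 π hπ v hv)⟩

theorem NDfn.or (h : NDfn S R) (h' : NDfn S T) : NDfn S fun π v => R π v ∨ T π v :=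
  (h.not.and h'.not).not.congr fun π _ v _ => by tauto

theorem NDfn.imp (h : NDfn S R) (h' : NDfn S T) : NDfn S fun π v => R π v → T π v :=
  (h.and h'.not).not.congr fun π _ v _ => by tauto

theorem NDfn.iff (h : NDfn S R) (h' : NDfn S T) : NDfn S fun π v => R π v ↔ T π v :=
  ((h.imp h').and (h'.imp h)).congr fun π _ v _ => by tauto

theorem NDfn.ex {Q : Pkg P → ZFSet.{0} → (Fin n → ZFSet.{0}) → Prop}
    (h : NDfn S fun π (w : Fin (n + 1) → ZFSet.{0}) => Q π (w 0) (Fin.tail w)) :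
    NDfn S fun π v => ∃ a ∈ π.W, Q π a v := by
  obtain ⟨φ, h1, h2⟩ := h
  refine ⟨.ex φ, h1, fun π hπ v hv => ?_⟩
  simp only [Sat]
  constructor
  · rintro ⟨a, ha, h3⟩
    exact ⟨a, ha, (h2 π hπ _ (Pkg.cons_mem ha hv)).1 h3⟩
  · rintro ⟨a, ha, h3⟩
    exact ⟨a, ha, (h2 π hπ _ (Pkg.cons_mem ha hv)).2 h3⟩

theorem NDfn.all {Q : Pkg P → ZFSet.{0} → (Fin n → ZFSet.{0}) → Prop}
    (h : NDfn S fun π (w : Fin (n + 1) → ZFSet.{0}) => Q π (w 0) (Fin.tail w)) :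
    NDfn S fun π v => ∀ a ∈ π.W, Q π a v := by
  have h1 : NDfn S fun π v => ∃ a ∈ π.W, ¬ Q π a v :=
    NDfn.ex (Q := fun π a v => ¬ Q π a v) h.not
  exact h1.not.congr fun π _ v _ => by
    constructor
    · intro h2 a ha
      by_contra h3
      exact h2 ⟨a, ha, h3⟩
    · rintro h2 ⟨a, ha, h3⟩
      exact h3 (h2 a ha)

theorem NDfn.comp (h : NDfn S R) {m : ℕ} (ρ : Fin n → Fin m) :
    NDfn S fun π (v : Fin m → ZFSet.{0}) => R π fun i => v (ρ i) := by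
  obtain ⟨φ, h1, h2⟩ := h
  refine ⟨φ.subst fun i => Sum.inl (ρ i), over_subst _ _ (fun k => TOver.inl _) h1, ?_⟩
  intro π hπ v hv
  rw [sat_subst]
  exact h2 π hπ _ fun i => hv _

theorem NDfnF.tail {F : Pkg P → (Fin n → ZFSet.{0}) → ZFSet.{0}} (h : NDfnF S F) :
    NDfnF S fun π (w : Fin (n + 1) → ZFSet.{0}) => F π (Fin.tail w) := by
  refine ⟨fun π hπ v hv => h.1 π hπ _ fun i => hv _, ?_⟩
  have h2 := h.2.comp (Fin.cons 0 fun i : Fin n => i.succ.succ : Fin (n + 1) → Fin (n + 2))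
  exact h2

theorem NDfnF.proj (i : Fin n) : NDfnF S fun _ v => v i := by
  refine ⟨fun π _ v hv => hv i, .eq (Sum.inl 0) (Sum.inl i.succ), ⟨TOver.inl _, TOver.inl _⟩, ?_⟩
  intro π _ v _
  rfl

theorem NDfnF.val {x : PName P} (hx : x ∈ S) :
    NDfnF S fun π (_ : Fin n → ZFSet.{0}) => π.val x := by
  refine ⟨fun π hπ v hv => π.val_mem_W (hπ hx), .eq (Sum.inl 0) (Sum.inr x),
    ⟨TOver.inl _, tOver_inr.2 hx⟩, ?_⟩
  intro π _ v _
  rfl

theorem NDfnF.hat {x : ZFSet.{0}} (hx : check x ∈ S) :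
    NDfnF S fun π (_ : Fin n → ZFSet.{0}) => π.hat x := NDfnF.val hx

theorem NDfn.subst {Q : Pkg P → ZFSet.{0} → (Fin n → ZFSet.{0}) → Prop}
    {F : Pkg P → (Fin n → ZFSet.{0}) → ZFSet.{0}}
    (h : NDfn S fun π (w : Fin (n + 1) → ZFSet.{0}) => Q π (w 0) (Fin.tail w))
    (hF : NDfnF S F) : NDfn S fun π v => Q π (F π v) v := by
  have h1 : NDfn S fun π v => ∃ a ∈ π.W, a = F π v ∧ Q π a v :=
    NDfn.ex (Q := fun π a v => a = F π v ∧ Q π a v) (hF.2.and h)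
  exact h1.congr fun π hπ v hv => by
    constructor
    · rintro ⟨a, _, rfl, h2⟩
      exact h2
    · intro h2
      exact ⟨F π v, hF.1 π hπ v hv, rfl, h2⟩

theorem NDfn.comp1 {Q : ZFSet.{0} → Prop} {F : Pkg P → (Fin n → ZFSet.{0}) → ZFSet.{0}}
    (h : NDfn S fun _ (w : Fin 1 → ZFSet.{0}) => Q (w 0)) (hF : NDfnF S F) :
    NDfn S fun π v => Q (F π v) := by
  have h1 := h.comp (fun _ => 0 : Fin 1 → Fin (n + 1))
  exact NDfn.subst (Q := fun _ a _ => Q a) h1 hF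

theorem NDfn.comp2 {Q : ZFSet.{0} → ZFSet.{0} → Prop}
    {F G : Pkg P → (Fin n → ZFSet.{0}) → ZFSet.{0}}
    (h : NDfn S fun _ (w : Fin 2 → ZFSet.{0}) => Q (w 0) (w 1)) (hF : NDfnF S F)
    (hG : NDfnF S G) : NDfn S fun π v => Q (F π v) (G π v) := by
  refine NDfn.subst (Q := fun π a v => Q a (G π v)) ?_ hF
  refine NDfn.subst (Q := fun π a v => Q (v 0) a) ?_ hG.tail
  exact h.comp ![1, 0]

theorem NDfn.comp3 {Q : ZFSet.{0} → ZFSet.{0} → ZFSet.{0} → Prop}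
    {F G H : Pkg P → (Fin n → ZFSet.{0}) → ZFSet.{0}}
    (h : NDfn S fun _ (w : Fin 3 → ZFSet.{0}) => Q (w 0) (w 1) (w 2)) (hF : NDfnF S F)
    (hG : NDfnF S G) (hH : NDfnF S H) : NDfn S fun π v => Q (F π v) (G π v) (H π v) := by
  refine NDfn.subst (Q := fun π a v => Q a (G π v) (H π v)) ?_ hF
  refine NDfn.subst (Q := fun π a v => Q (v 0) a (H π (Fin.tail v))) ?_ hG.tail
  refine NDfn.subst (Q := fun π a v => Q (v 1) (v 0) a) ?_ hH.tail.tail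
  exact h.comp ![2, 1, 0]

theorem NDfn.mem {F G : Pkg P → (Fin n → ZFSet.{0}) → ZFSet.{0}} (hF : NDfnF S F)
    (hG : NDfnF S G) : NDfn S fun π v => F π v ∈ G π v := by
  refine NDfn.comp2 (Q := fun a b => a ∈ b) ?_ hF hG
  exact ⟨.mem (Sum.inl 0) (Sum.inl 1), ⟨TOver.inl _, TOver.inl _⟩, fun π _ v _ => Iff.rfl⟩

theorem NDfn.eq {F G : Pkg P → (Fin n → ZFSet.{0}) → ZFSet.{0}} (hF : NDfnF S F)
    (hG : NDfnF S G) : NDfn S fun π v => F π v = G π v := by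
  refine NDfn.comp2 (Q := fun a b => a = b) ?_ hF hG
  exact ⟨.eq (Sum.inl 0) (Sum.inl 1), ⟨TOver.inl _, TOver.inl _⟩, fun π _ v _ => Iff.rfl⟩

theorem NDfnF.comp1 {f : ZFSet.{0} → ZFSet.{0}} {F : Pkg P → (Fin n → ZFSet.{0}) → ZFSet.{0}}
    (h : NDfnF S fun _ (w : Fin 1 → ZFSet.{0}) => f (w 0)) (hF : NDfnF S F) :
    NDfnF S fun π v => f (F π v) := by
  refine ⟨fun π hπ v hv => h.1 π hπ (fun _ => F π v) fun _ => hF.1 π hπ v hv, ?_⟩
  exact NDfn.comp2 (Q := fun a b => a = f b) h.2 (NDfnF.proj 0) hF.tail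

theorem NDfnF.comp2 {f : ZFSet.{0} → ZFSet.{0} → ZFSet.{0}}
    {F G : Pkg P → (Fin n → ZFSet.{0}) → ZFSet.{0}}
    (h : NDfnF S fun _ (w : Fin 2 → ZFSet.{0}) => f (w 0) (w 1)) (hF : NDfnF S F)
    (hG : NDfnF S G) : NDfnF S fun π v => f (F π v) (G π v) := by
  refine ⟨fun π hπ v hv => h.1 π hπ ![F π v, G π v] ?_, ?_⟩
  · intro i
    fin_cases i
    · exact hF.1 π hπ v hv
    · exact hG.1 π hπ v hv
  · exact NDfn.comp3 (Q := fun a b c => a = f b c) h.2 (NDfnF.proj 0) hF.tail hG.tail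

theorem NDfn.bex {F : Pkg P → (Fin n → ZFSet.{0}) → ZFSet.{0}}
    {Q : Pkg P → ZFSet.{0} → (Fin n → ZFSet.{0}) → Prop} (hF : NDfnF S F)
    (h : NDfn S fun π (w : Fin (n + 1) → ZFSet.{0}) => Q π (w 0) (Fin.tail w)) :
    NDfn S fun π v => ∃ a ∈ F π v, Q π a v := by
  have h1 : NDfn S fun π v => ∃ a ∈ π.W, a ∈ F π v ∧ Q π a v :=
    NDfn.ex (Q := fun π a v => a ∈ F π v ∧ Q π a v) ((NDfn.mem (NDfnF.proj 0) hF.tail).and h)
  exact h1.congr fun π hπ v hv => by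
    constructor
    · rintro ⟨a, _, h2⟩
      exact ⟨a, h2⟩
    · rintro ⟨a, h2, h3⟩
      exact ⟨a, π.trans_W (hF.1 π hπ v hv) h2, h2, h3⟩

theorem NDfn.ball {F : Pkg P → (Fin n → ZFSet.{0}) → ZFSet.{0}}
    {Q : Pkg P → ZFSet.{0} → (Fin n → ZFSet.{0}) → Prop} (hF : NDfnF S F)
    (h : NDfn S fun π (w : Fin (n + 1) → ZFSet.{0}) => Q π (w 0) (Fin.tail w)) :
    NDfn S fun π v => ∀ a ∈ F π v, Q π a v := by
  have h1 : NDfn S fun π v => ∃ a ∈ F π v, ¬ Q π a v :=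
    NDfn.bex (Q := fun π a v => ¬ Q π a v) hF h.not
  exact h1.not.congr fun π _ v _ => by
    constructor
    · intro h2 a ha
      by_contra h3
      exact h2 ⟨a, ha, h3⟩
    · rintro h2 ⟨a, ha, h3⟩
      exact h3 (h2 a ha)

theorem NDfnF.upair {F G : Pkg P → (Fin n → ZFSet.{0}) → ZFSet.{0}} (hF : NDfnF S F)
    (hG : NDfnF S G) : NDfnF S fun π v => ({F π v, G π v} : ZFSet.{0}) := by
  refine NDfnF.comp2 (f := fun a b => ({a, b} : ZFSet.{0})) ?_ hF hG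
  refine ⟨fun π hπ v hv => π.isZF_W.pairing _ (hv 0) _ (hv 1), ?_⟩
  have h1 : NDfn S fun _ (w : Fin 3 → ZFSet.{0}) => w 1 ∈ w 0 ∧ w 2 ∈ w 0 ∧
      ∀ x ∈ w 0, x = w 1 ∨ x = w 2 := by
    refine (NDfn.mem (NDfnF.proj _) (NDfnF.proj _)).and
      ((NDfn.mem (NDfnF.proj _) (NDfnF.proj _)).and ?_)
    refine NDfn.ball (NDfnF.proj _) ?_
    exact (NDfn.eq (NDfnF.proj _) (NDfnF.proj 2)).or (NDfn.eq (NDfnF.proj _) (NDfnF.proj 3))
  exact h1.congr fun π _ v hv => by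
    constructor
    · rintro ⟨h2, h3, h4⟩
      ext z
      rw [ZFSet.mem_pair]
      exact ⟨fun hz => h4 z hz, fun hz => hz.elim (fun h => h ▸ h2) (fun h => h ▸ h3)⟩
    · intro h2
      have h3 : ∀ z, z ∈ v 0 ↔ z = v 1 ∨ z = v 2 := by
        intro z
        rw [h2, ZFSet.mem_pair]
        rfl
      exact ⟨(h3 _).2 (Or.inl rfl), (h3 _).2 (Or.inr rfl), fun x hx => (h3 x).1 hx⟩

theorem NDfnF.pair {F G : Pkg P → (Fin n → ZFSet.{0}) → ZFSet.{0}} (hF : NDfnF S F)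
    (hG : NDfnF S G) : NDfnF S fun π v => ZFSet.pair (F π v) (G π v) := by
  have h := (hF.upair hF).upair (hF.upair hG)
  simp only [ZFSet.pair_eq_singleton] at h
  exact h

end

/-- The forcing theorem: what holds in an extension is forced by a condition of the generic
filter. -/
theorem forcing_theorem {S : Set (PName P)} {R : Pkg P → Prop}
    (h : NDfn S fun π (_ : Fin 0 → ZFSet.{0}) => R π) (π : Pkg P) (hS : S ⊆ π.N) (hR : R π) :
    ∃ k, ∀ π' : Pkg P, S ⊆ π'.N → (∃ m, π'.g m ≤ π.g k) → R π' := by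
  obtain ⟨φ, h1, h2⟩ := h
  have h3 : ∀ f : PName P → ZFSet.{0}, f ∘ (Fin.elim0 : Fin 0 → PName P) = Fin.elim0 :=
    fun f => funext fun i => i.elim0
  have h4 := (h2 π hS Fin.elim0 fun i => i.elim0).2 hR
  rw [← h3 π.val, π.sat_iff φ (Fml.Over.mono hS h1) _ fun i => i.elim0] at h4
  obtain ⟨k, hk⟩ := h4
  refine ⟨k, fun π' hS' ⟨m, hm⟩ => ?_⟩
  refine (h2 π' hS' Fin.elim0 fun i => i.elim0).1 ?_
  rw [← h3 π'.val, π'.sat_iff φ (Fml.Over.mono hS' h1) _ fun i => i.elim0]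
  exact ⟨m, Forces.mono hk hm⟩

/-- A package whose generic sequence begins with a given condition. -/
theorem exists_pkg' (A : Set (PName P)) (hA : A.Countable) (p₀ : P) :
    ∃ π : Pkg P, A ⊆ π.N ∧ π.g 0 = p₀ := by
  obtain ⟨π, h1, h2, -⟩ := exists_pkg ∅ Set.countable_empty A hA p₀
  exact ⟨π, h1, h2⟩

namespace Pkg

variable (π : Pkg P)

theorem nrk_Z {x : PName P} (hx : x ∈ π.N) : (nrk x).toZFSet ∈ π.Z :=
  (π.closed rRank (by simp [baseRules]) _ (query2 hx hx (π.gC 0))).1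

theorem rank_le {x : PName P} (hx : x ∈ π.N) :
    (π.val x).rank ≤ (π.hat (nrk x).toZFSet).rank := by
  induction x using el_ind with
  | h x ih =>
    rw [ZFSet.rank_le_iff]
    intro z hz
    obtain ⟨y, hy, c, hc, -, rfl⟩ := π.mem_val.1 hz
    refine (ih y c hc hy).trans_lt (ZFSet.rank_lt_of_mem ?_)
    exact (π.hat_mem_hat (π.nrk_Z hy) (π.nrk_Z hx)).2
      (Ordinal.toZFSet_mem_toZFSet_iff.2 (nrk_lt hc))

theorem hat_isOrdinal {x : ZFSet.{0}} (h : x.IsOrdinal) : (π.hat x).IsOrdinal := by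
  refine ⟨fun y hy z hz => ?_, fun {y z w} h1 h2 h3 => ?_⟩
  · obtain ⟨a, ha, haZ, rfl⟩ := π.mem_hat.1 hy
    obtain ⟨b, hb, hbZ, rfl⟩ := π.mem_hat.1 hz
    exact π.mem_hat.2 ⟨b, h.mem_trans hb ha, hbZ, rfl⟩
  · obtain ⟨a, ha, haZ, rfl⟩ := π.mem_hat.1 h3
    obtain ⟨b, hb, hbZ, rfl⟩ := π.mem_hat.1 h2
    obtain ⟨c, hc, hcZ, rfl⟩ := π.mem_hat.1 h1
    exact π.mem_hat.2 ⟨c, h.mem_trans' hc hb ha, hcZ, rfl⟩

/-- The ground model and the extension have the same ordinals. -/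
theorem ord_V {x : ZFSet.{0}} (h : x.IsOrdinal) (hx : x ∈ π.W) : x ∈ π.V := by
  obtain ⟨a, ha, rfl⟩ := hx
  have h1 := π.rank_le ha
  rw [ZFSet.IsOrdinal.rank_le_iff_subset h (π.hat_isOrdinal (ZFSet.isOrdinal_toZFSet _)),
    ZFSet.IsOrdinal.subset_iff_eq_or_mem h (π.hat_isOrdinal (ZFSet.isOrdinal_toZFSet _))] at h1
  rcases h1 with h1 | h1
  · rw [h1]
    exact π.of_hat_mem_V (π.nrk_Z ha)
  · exact π.trans_V (π.of_hat_mem_V (π.nrk_Z ha)) h1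

theorem countable_W : π.W.Countable := π.cnt.image _

end Pkg

end Pool.Agent.W868
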