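import Pool.Agent.W868.Fml

/-!
# Names for a notion of forcing and the forcing relation
-/

set_option autoImplicit false

namespace Pool.Agent.W868

/-- Names for the notion of forcing `P`: the name `mk ι x c` is the set of the pairs
`(x i, c i)`. -/
inductive PName (P : Type) : Type 1
  | mk (ι : Type) (x : ι → PName P) (c : ι → P) : PName P

namespace PName

variable {P : Type}

/-- The index type. -/
def idx : PName P → Type
  | mk ι _ _ => ι

/-- The names that are elements. -/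
def chd : (x : PName P) → x.idx → PName P
  | mk _ x _ => x

/-- The conditions. -/
def cnd : (x : PName P) → x.idx → P
  | mk _ _ c => c

theorem eta (x : PName P) : mk x.idx x.chd x.cnd = x := by
  cases x
  rfl

/-- The empty name. -/
def emp : PName P := mk Empty Empty.elim Empty.elim

end PName

open PName

variable {P : Type} [Preorder P]

/-- Forced equality. -/
def Feq : PName P → PName P → P → Prop
  | mk _ x c, mk _ y d => fun p =>
    (∀ i, ∀ q ≤ p, q ≤ c i → ∃ s ≤ q, ∃ j, s ≤ d j ∧ Feq (x i) (y j) s) ∧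
    (∀ j, ∀ q ≤ p, q ≤ d j → ∃ s ≤ q, ∃ i, s ≤ c i ∧ Feq (x i) (y j) s)

/-- Forced membership. -/
def Fmem (x y : PName P) (p : P) : Prop :=
  ∀ q ≤ p, ∃ s ≤ q, ∃ j, s ≤ y.cnd j ∧ Feq x (y.chd j) s

theorem feq_iff (x y : PName P) (p : P) : Feq x y p ↔
    (∀ i, ∀ q ≤ p, q ≤ x.cnd i → ∃ s ≤ q, ∃ j, s ≤ y.cnd j ∧ Feq (x.chd i) (y.chd j) s) ∧
    (∀ j, ∀ q ≤ p, q ≤ y.cnd j → ∃ s ≤ q, ∃ i, s ≤ x.cnd i ∧ Feq (x.chd i) (y.chd j) s) := by
  cases x
  cases y
  rfl

theorem Feq.mono {x y : PName P} {p q : P} (h : Feq x y p) (hq : q ≤ p) : Feq x y q := by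
  rw [feq_iff] at h ⊢
  exact ⟨fun i r hr => h.1 i r (hr.trans hq), fun j r hr => h.2 j r (hr.trans hq)⟩

theorem Fmem.mono {x y : PName P} {p q : P} (h : Fmem x y p) (hq : q ≤ p) : Fmem x y q :=
  fun r hr => h r (hr.trans hq)

theorem Feq.refl (x : PName P) (p : P) : Feq x x p := by
  induction x generalizing p with
  | mk ι x c ih =>
    rw [feq_iff]
    exact ⟨fun i q _ hq => ⟨q, le_rfl, i, hq, ih i q⟩, fun i q _ hq => ⟨q, le_rfl, i, hq, ih i q⟩⟩

theorem Feq.symm {x y : PName P} {p : P} (h : Feq x y p) : Feq y x p := by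
  induction x generalizing y p with
  | mk ι x c ih =>
    rw [feq_iff] at h ⊢
    constructor
    · intro j q hq hc
      obtain ⟨s, hs, i, hi, hf⟩ := h.2 j q hq hc
      exact ⟨s, hs, i, hi, ih i hf⟩
    · intro i q hq hc
      obtain ⟨s, hs, j, hj, hf⟩ := h.1 i q hq hc
      exact ⟨s, hs, j, hj, ih i hf⟩

/-- The value of a term. -/
def tv {n : ℕ} (v : Fin n → PName P) : Fin n ⊕ PName P → PName P := Sum.elim v id

/-- The forcing relation. -/
def Forces : {n : ℕ} → Fml (PName P) n → (Fin n → PName P) → P → Prop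
  | _, .mem s t, v, p => Fmem (tv v s) (tv v t) p
  | _, .eq s t, v, p => Feq (tv v s) (tv v t) p
  | _, .neg φ, v, p => ∀ q ≤ p, ¬ Forces φ v q
  | _, .and φ ψ, v, p => Forces φ v p ∧ Forces ψ v p
  | _, .ex φ, v, p => ∀ q ≤ p, ∃ s ≤ q, ∃ x, Forces φ (Fin.cons x v) s

theorem Forces.mono : {n : ℕ} → {φ : Fml (PName P) n} → {v : Fin n → PName P} → {p q : P} →
    Forces φ v p → q ≤ p → Forces φ v q
  | _, .mem _ _, _, _, _, h, hq => Fmem.mono h hq
  | _, .eq _ _, _, _, _, h, hq => Feq.mono h hq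
  | _, .neg _, _, _, _, h, hq => fun r hr => h r (hr.trans hq)
  | _, .and φ ψ, _, _, _, h, hq => ⟨Forces.mono (φ := φ) h.1 hq, Forces.mono (φ := ψ) h.2 hq⟩
  | _, .ex _, _, _, _, h, hq => fun r hr => h r (hr.trans hq)

end Pool.Agent.W868
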