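import Pool.Agent.W868.Hull

/-!
# Operations on names
-/

set_option autoImplicit false

namespace Pool.Agent.W868

open PName

section el

variable {P : Type}

/-- The pair `(z, c)` is an element of the name `x`. -/
def El (x z : PName P) (c : P) : Prop := ∃ i, x.chd i = z ∧ x.cnd i = c

theorem el_mk {ι : Type} {x : ι → PName P} {c : ι → P} {z : PName P} {d : P} :
    El (mk ι x c) z d ↔ ∃ i, x i = z ∧ c i = d := Iff.rfl

theorem el_ind {p : PName P → Prop} (h : ∀ x, (∀ z c, El x z c → p z) → p x) (x : PName P) :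
    p x := by
  induction x with
  | mk ι x c ih =>
    refine h _ ?_
    rintro z d ⟨i, rfl, -⟩
    exact ih i

end el

variable {P : Type} [Preorder P]

theorem fmem_iff {x y : PName P} {p : P} : Fmem x y p ↔
    ∀ q ≤ p, ∃ s ≤ q, ∃ z c, El y z c ∧ s ≤ c ∧ Feq x z s := by
  constructor
  · intro h q hq
    obtain ⟨s, hs, j, hj, hf⟩ := h q hq
    exact ⟨s, hs, _, _, ⟨j, rfl, rfl⟩, hj, hf⟩
  · intro h q hq
    obtain ⟨s, hs, z, c, ⟨j, rfl, rfl⟩, hj, hf⟩ := h q hq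
    exact ⟨s, hs, j, hj, hf⟩

theorem feq_iff' {x y : PName P} {p : P} : Feq x y p ↔
    (∀ z c, El x z c → ∀ q ≤ p, q ≤ c → ∃ s ≤ q, ∃ w d, El y w d ∧ s ≤ d ∧ Feq z w s) ∧
    (∀ w d, El y w d → ∀ q ≤ p, q ≤ d → ∃ s ≤ q, ∃ z c, El x z c ∧ s ≤ c ∧ Feq z w s) := by
  rw [feq_iff]
  constructor
  · rintro ⟨h1, h2⟩
    constructor
    · rintro z c ⟨i, rfl, rfl⟩ q hq hc
      obtain ⟨s, hs, j, hj, hf⟩ := h1 i q hq hc
      exact ⟨s, hs, _, _, ⟨j, rfl, rfl⟩, hj, hf⟩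
    · rintro w d ⟨j, rfl, rfl⟩ q hq hc
      obtain ⟨s, hs, i, hi, hf⟩ := h2 j q hq hc
      exact ⟨s, hs, _, _, ⟨i, rfl, rfl⟩, hi, hf⟩
  · rintro ⟨h1, h2⟩
    constructor
    · intro i q hq hc
      obtain ⟨s, hs, w, d, ⟨j, rfl, rfl⟩, hj, hf⟩ := h1 _ _ ⟨i, rfl, rfl⟩ q hq hc
      exact ⟨s, hs, j, hj, hf⟩
    · intro j q hq hc
      obtain ⟨s, hs, z, c, ⟨i, rfl, rfl⟩, hi, hf⟩ := h2 _ _ ⟨j, rfl, rfl⟩ q hq hc
      exact ⟨s, hs, i, hi, hf⟩

/-- `q` forces that `z` is not an element of `y`. -/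
def NotMem (z y : PName P) (q : P) : Prop := ∀ s ≤ q, ∀ w c, El y w c → s ≤ c → ¬ Feq z w s

/-- `q` forces that `z` is an element of `x` and not an element of `y`. -/
def Wit (x y z : PName P) (q : P) : Prop := (∃ c, El x z c ∧ q ≤ c) ∧ NotMem z y q

theorem exists_wit {x y : PName P} {p : P} (h : ¬ Feq x y p) :
    ∃ q ≤ p, ∃ z, Wit x y z q ∨ Wit y x z q := by
  by_contra hc
  refine h (feq_iff'.2 ⟨?_, ?_⟩)
  · intro z c hz q hq hqc
    by_contra h1
    refine hc ⟨q, hq, z, Or.inl ⟨⟨c, hz, hqc⟩, ?_⟩⟩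
    intro s hs w d hw hd hf
    exact h1 ⟨s, hs, w, d, hw, hd, hf⟩
  · intro w d hw q hq hqd
    by_contra h1
    refine hc ⟨q, hq, w, Or.inr ⟨⟨d, hw, hqd⟩, ?_⟩⟩
    intro s hs z c hz hc hf
    exact h1 ⟨s, hs, z, c, hz, hc, hf.symm⟩

section ops

variable [OrderTop P]

/-- The unordered pair. -/
def pairN (x y : PName P) : PName P := mk Bool (fun b => cond b x y) (fun _ => ⊤)

theorem el_pairN {x y z : PName P} {c : P} : El (pairN x y) z c ↔ (z = x ∨ z = y) ∧ c = ⊤ := by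
  rw [pairN, el_mk]
  constructor
  · rintro ⟨b, rfl, rfl⟩
    cases b
    · exact ⟨Or.inr rfl, rfl⟩
    · exact ⟨Or.inl rfl, rfl⟩
  · rintro ⟨rfl | rfl, rfl⟩
    · exact ⟨true, rfl, rfl⟩
    · exact ⟨false, rfl, rfl⟩

/-- The ordered pair. -/
def opN (x y : PName P) : PName P := pairN (pairN x x) (pairN x y)

theorem pairN_inj {x y x' y' : PName P} (h : pairN x y = pairN x' y') : x = x' ∧ y = y' := by
  unfold pairN at h
  injection h with _ h2
  exact ⟨congrFun h2 true, congrFun h2 false⟩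

theorem opN_inj {x y x' y' : PName P} (h : opN x y = opN x' y') : x = x' ∧ y = y' := by
  obtain ⟨h1, h2⟩ := pairN_inj h
  exact ⟨(pairN_inj h1).1, (pairN_inj h2).2⟩

/-- The union. -/
def unionN (x : PName P) : PName P :=
  mk (Σ (i : x.idx) (j : (x.chd i).idx), {r : P // r ≤ x.cnd i ∧ r ≤ (x.chd i).cnd j})
    (fun t => (x.chd t.1).chd t.2.1) (fun t => t.2.2.1)

theorem el_unionN {x z : PName P} {r : P} : El (unionN x) z r ↔
    ∃ y c d, El x y c ∧ El y z d ∧ r ≤ c ∧ r ≤ d := by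
  rw [unionN, el_mk]
  constructor
  · rintro ⟨⟨i, j, r, h1, h2⟩, rfl, rfl⟩
    exact ⟨_, _, _, ⟨i, rfl, rfl⟩, ⟨j, rfl, rfl⟩, h1, h2⟩
  · rintro ⟨_, _, _, ⟨i, rfl, rfl⟩, ⟨j, rfl, rfl⟩, h1, h2⟩
    exact ⟨⟨i, j, r, h1, h2⟩, rfl, rfl⟩

/-- A part of a name, given by a set of pairs of an index and a condition. -/
def subI (x : PName P) (S : x.idx → P → Prop) : PName P :=
  mk {t : x.idx × P // t.2 ≤ x.cnd t.1 ∧ S t.1 t.2} (fun t => x.chd t.1.1) (fun t => t.1.2)

/-- A part of a name. -/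
def subN (x : PName P) (S : PName P → P → Prop) : PName P := subI x fun i r => S (x.chd i) r

theorem el_subI {x z : PName P} {S : x.idx → P → Prop} {r : P} (h : El (subI x S) z r) :
    ∃ c, El x z c ∧ r ≤ c := by
  obtain ⟨⟨⟨i, r⟩, h1, h2⟩, rfl, rfl⟩ := h
  exact ⟨_, ⟨i, rfl, rfl⟩, h1⟩

theorem el_subN {x z : PName P} {S : PName P → P → Prop} {r : P} :
    El (subN x S) z r ↔ ∃ c, El x z c ∧ r ≤ c ∧ S z r := by
  constructor
  · rintro ⟨⟨⟨i, r⟩, h1, h2⟩, rfl, rfl⟩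
    exact ⟨_, ⟨i, rfl, rfl⟩, h1, h2⟩
  · rintro ⟨_, ⟨i, rfl, rfl⟩, h1, h2⟩
    exact ⟨⟨⟨i, r⟩, h1, h2⟩, rfl, rfl⟩

/-- The power set. -/
def powN (x : PName P) : PName P := mk (x.idx → P → Prop) (fun S => subI x S) (fun _ => ⊤)

theorem el_powN {x z : PName P} {r : P} (h : El (powN x) z r) : ∃ S, z = subI x S := by
  obtain ⟨S, rfl, rfl⟩ := h
  exact ⟨S, rfl⟩

theorem el_powN_subN (x : PName P) (S : PName P → P → Prop) : El (powN x) (subN x S) ⊤ :=
  ⟨_, rfl, rfl⟩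

/-- Separation. -/
def sepN {n : ℕ} (φ : Fml (PName P) (n + 1)) (v : Fin n → PName P) (x : PName P) : PName P :=
  subN x fun z r => Forces φ (Fin.cons z v) r

open Classical in
/-- A witness for an existential formula. -/
noncomputable def witN {n : ℕ} (φ : Fml (PName P) (n + 1)) (v : Fin n → PName P) (p : P) :
    PName P := if h : ∃ w, Forces φ (Fin.cons w v) p then h.choose else emp

theorem witN_spec {n : ℕ} {φ : Fml (PName P) (n + 1)} {v : Fin n → PName P} {p : P}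
    (h : ∃ w, Forces φ (Fin.cons w v) p) : Forces φ (Fin.cons (witN φ v p) v) p := by
  unfold witN
  rw [dif_pos h]
  exact h.choose_spec

/-- Collection. -/
noncomputable def collN {n : ℕ} (φ : Fml (PName P) (n + 2)) (v : Fin n → PName P)
    (x : PName P) : PName P :=
  mk {t : x.idx × P // t.2 ≤ x.cnd t.1 ∧ ∃ w, Forces φ (Fin.cons w (Fin.cons (x.chd t.1) v)) t.2}
    (fun t => witN φ (Fin.cons (x.chd t.1.1) v) t.1.2) (fun t => t.1.2)

theorem el_collN {n : ℕ} {φ : Fml (PName P) (n + 2)} {v : Fin n → PName P} {x z : PName P}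
    {c r : P} (hz : El x z c) (hr : r ≤ c) (h : ∃ w, Forces φ (Fin.cons w (Fin.cons z v)) r) :
    El (collN φ v x) (witN φ (Fin.cons z v) r) r := by
  obtain ⟨i, rfl, rfl⟩ := hz
  exact ⟨⟨⟨i, r⟩, hr, h⟩, rfl, rfl⟩

/-- The name for a set of the ground model. -/
noncomputable def check : ZFSet.{0} → PName P :=
  ZFSet.mem_wf.fix fun x ih => mk (Shrink.{0} {y // y ∈ x})
    (fun i => ih ((equivShrink {y // y ∈ x}).symm i).1 ((equivShrink {y // y ∈ x}).symm i).2)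
    (fun _ => ⊤)

theorem el_check {x : ZFSet.{0}} {z : PName P} {c : P} :
    El (check x) z c ↔ ∃ y ∈ x, z = check y ∧ c = ⊤ := by
  rw [check, ZFSet.mem_wf.fix_eq, el_mk]
  constructor
  · rintro ⟨i, rfl, rfl⟩
    exact ⟨_, ((equivShrink {y // y ∈ x}).symm i).2, rfl, rfl⟩
  · rintro ⟨y, hy, rfl, rfl⟩
    refine ⟨equivShrink {y // y ∈ x} ⟨y, hy⟩, ?_, rfl⟩
    exact congrArg (fun t : {y // y ∈ x} => (check t.1 : PName P))
      ((equivShrink {y // y ∈ x}).symm_apply_apply ⟨y, hy⟩)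

theorem check_injective : Function.Injective (check : ZFSet.{0} → PName P) := by
  intro x
  induction x using ZFSet.inductionOn with
  | _ x ih =>
    intro y h
    ext z
    constructor
    · intro hz
      have h1 : El (check y : PName P) (check z) ⊤ := h ▸ el_check.2 ⟨z, hz, rfl, rfl⟩
      obtain ⟨w, hw, h2, -⟩ := el_check.1 h1
      exact (ih z hz h2) ▸ hw
    · intro hz
      have h1 : El (check x : PName P) (check z) ⊤ := h ▸ el_check.2 ⟨z, hz, rfl, rfl⟩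
      obtain ⟨w, hw, h2, -⟩ := el_check.1 h1
      exact (ih w hw h2.symm) ▸ hw

theorem feq_check (x y : ZFSet.{0}) (p : P) : Feq (check x) (check y) p ↔ x = y := by
  constructor
  · intro h
    induction x using ZFSet.inductionOn generalizing y p with
    | _ x ih =>
      rw [feq_iff'] at h
      ext z
      constructor
      · intro hz
        obtain ⟨s, _, w, d, hw, _, hf⟩ := h.1 (check z) ⊤ (el_check.2 ⟨z, hz, rfl, rfl⟩) p le_rfl
          le_top
        obtain ⟨u, hu, rfl, rfl⟩ := el_check.1 hw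
        exact (ih z hz u s hf) ▸ hu
      · intro hz
        obtain ⟨s, _, w, d, hw, _, hf⟩ := h.2 (check z) ⊤ (el_check.2 ⟨z, hz, rfl, rfl⟩) p le_rfl
          le_top
        obtain ⟨u, hu, rfl, rfl⟩ := el_check.1 hw
        exact (ih u hu z s hf) ▸ hu
  · rintro rfl
    exact Feq.refl _ _

theorem fmem_check (x y : ZFSet.{0}) (p : P) : Fmem (check x) (check y) p ↔ x ∈ y := by
  rw [fmem_iff]
  constructor
  · intro h
    obtain ⟨s, _, z, c, hz, _, hf⟩ := h p le_rfl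
    obtain ⟨w, hw, rfl, rfl⟩ := el_check.1 hz
    exact ((feq_check x w s).1 hf) ▸ hw
  · intro h q _
    exact ⟨q, le_rfl, check x, ⊤, el_check.2 ⟨x, h, rfl, rfl⟩, le_top, Feq.refl _ _⟩

/-- The ground model set with the given name. -/
noncomputable def dec : PName P → ZFSet.{0} := Function.invFun check

@[simp] theorem dec_check (x : ZFSet.{0}) : dec (check x : PName P) = x :=
  Function.leftInverse_invFun check_injective x

/-- A rule given by an operation on the ground model. -/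
noncomputable def gRule (F : (n : ℕ) → Fml ZFSet.{0} n → (Fin n → ZFSet.{0}) → ZFSet.{0}) :
    Rule P := fun q => (check (F q.n (q.φ.map dec) (dec ∘ q.v)), q.p)

theorem pairN_not_check {x y : PName P} {n : ZFSet.{0}} (h : check n = pairN x y) :
    (∃ a ∈ n, x = check a) ∧ ∃ b ∈ n, y = check b := by
  constructor
  · have h1 : El (check n) x ⊤ := h ▸ el_pairN.2 ⟨Or.inl rfl, rfl⟩
    obtain ⟨a, ha, h2, -⟩ := el_check.1 h1
    exact ⟨a, ha, h2⟩
  · have h1 : El (check n) y ⊤ := h ▸ el_pairN.2 ⟨Or.inr rfl, rfl⟩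
    obtain ⟨a, ha, h2, -⟩ := el_check.1 h1
    exact ⟨a, ha, h2⟩

end ops

end Pool.Agent.W868
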