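import Pool.Agent.W868.Truth

/-!
# The sentence
-/

set_option autoImplicit false
set_option linter.unreachableTactic false
set_option linter.unusedTactic false

namespace Pool.Agent.W868

open ZFSet (pair)

/-- `¬ (P k (v 0) ∧ ¬ P k (v 1))`. -/
noncomputable def fU (k : ZFSet.{0}) : ZFSet.{0} :=
  cNot (cAnd {cP k (nat 0), cNot (cP k (nat 1))})

/-- `¬ (¬ P k (v 0) ∧ P k (v 1))`. -/
noncomputable def fW (k : ZFSet.{0}) : ZFSet.{0} :=
  cNot (cAnd {cNot (cP k (nat 0)), cP k (nat 1)})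

/-- `P k (v 0) ↔ P k (v 1)`. -/
noncomputable def fG (k : ZFSet.{0}) : ZFSet.{0} := cAnd {fU k, fW k}

/-- The set of the formulas `P k (v 0) ↔ P k (v 1)` for `k ≥ 2`. -/
noncomputable def setE : ZFSet.{0} := ZFSet.range (fun k : ℕ => fG (nat (k + 2)))

/-- `¬ v 0 = v 1 ∧ ⋀ (P k (v 0) ↔ P k (v 1))`, for `k ≥ 2`. -/
noncomputable def fE : ZFSet.{0} := cAnd {cNot (cEq (nat 0) (nat 1)), cAnd setE}

/-- `∃ x, ¬ ∃ y, y ≠ x ∧ ⋀ (P k x ↔ P k y)`, for `k ≥ 2`. -/
noncomputable def fC : ZFSet.{0} := cEx (cNot (cEx fE))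

/-- The sentence `¬ ((∃ x, P 0 x) ∧ (∃ x, P 1 x) ∧ ¬ fC)`. -/
noncomputable def phi : ZFSet.{0} :=
  cNot (cAnd {cEx (cP (nat 0) (nat 0)), cAnd {cEx (cP (nat 1) (nat 0)), cNot fC}})

/-- What the sentence says about the structure `(D, c)`. -/
def K (D c : ZFSet.{0}) : Prop :=
  (¬ ∃ d ∈ D, pair d (nat 0) ∈ c) ∨ (¬ ∃ d ∈ D, pair d (nat 1) ∈ c) ∨
    ∃ d ∈ D, ∀ e ∈ D, e ≠ d → ∃ n ∈ ZFSet.omega, n ≠ nat 0 ∧ n ≠ nat 1 ∧
      ¬ (pair d n ∈ c ↔ pair e n ∈ c)

theorem mem_setE {χ : ZFSet.{0}} : χ ∈ setE ↔ ∃ k : ℕ, χ = fG (nat (k + 2)) := by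
  rw [setE, ZFSet.mem_range]
  simp only [eq_comm]

theorem mem_two_iff {i : ZFSet.{0}} : i ∈ nat 2 ↔ i = nat 0 ∨ i = nat 1 := by
  have h : nat 2 = insert (nat 1) (insert (nat 0) ∅) := rfl
  rw [h, ZFSet.mem_insert_iff, ZFSet.mem_insert_iff]
  constructor
  · rintro (h | h | h)
    · exact Or.inr h
    · exact Or.inl h
    · exact absurd h (ZFSet.notMem_empty _)
  · rintro (h | h)
    · exact Or.inr (Or.inl h)
    · exact Or.inl h

theorem mem_one_iff {i : ZFSet.{0}} : i ∈ nat 1 ↔ i = nat 0 := by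
  have h : nat 1 = insert (nat 0) ∅ := rfl
  rw [h, ZFSet.mem_insert_iff]
  constructor
  · rintro (h | h)
    · exact h
    · exact absurd h (ZFSet.notMem_empty _)
  · exact Or.inl

/-! ### The value of the sentence -/

section eval

variable {M : Set ZFSet.{0}} (hM : IsZF M) {F D c T : ZFSet.{0}} (hD : D ∈ M)
  (hF : IsFmlSet M F) (hT : IsTruth M F D c T)

include hM hD hF hT

theorem eval_E {d e : ZFSet.{0}} (hd : d ∈ D) (he : e ∈ D) (h : pair fE (nat 2) ∈ F) :
    pair (pair fE (nat 2)) (insert (pair (nat 1) e) (insert (pair (nat 0) d) ∅)) ∈ T ↔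
      e ≠ d ∧ ∀ n ∈ ZFSet.omega, n ≠ nat 0 → n ≠ nat 1 → (pair d n ∈ c ↔ pair e n ∈ c) := by
  have hd' := hM.trans _ hD _ hd
  have he' := hM.trans _ hD _ he
  set s : ZFSet.{0} := insert (pair (nat 1) e) (insert (pair (nat 0) d) ∅) with hs
  have hsM : s ∈ M := hM.insert_mem (hM.pair_mem (hM.nat_mem 1) he')
    (hM.insert_mem (hM.pair_mem (hM.nat_mem 0) hd') hM.empty_mem)
  have hsf : ZFSet.IsFunc (nat 2) D s := isFunc_insert (isFunc_insert (isFunc_empty D) hd) he
  have hs0 : ∀ x, pair (nat 0) x ∈ s ↔ x = d := by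
    intro x
    rw [hs, ZFSet.mem_insert_iff, ZFSet.mem_insert_iff, ZFSet.pair_inj, ZFSet.pair_inj]
    constructor
    · rintro (h | h | h)
      · exact absurd h.1 (nat_ne (by decide))
      · exact h.2
      · exact absurd h (ZFSet.notMem_empty _)
    · exact fun h => Or.inr (Or.inl ⟨rfl, h⟩)
  have hs1 : ∀ x, pair (nat 1) x ∈ s ↔ x = e := by
    intro x
    rw [hs, ZFSet.mem_insert_iff, ZFSet.mem_insert_iff, ZFSet.pair_inj, ZFSet.pair_inj]
    constructor
    · rintro (h | h | h)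
      · exact h.2
      · exact absurd h.1 (nat_ne (by decide))
      · exact absurd h (ZFSet.notMem_empty _)
    · exact fun h => Or.inl ⟨rfl, h⟩
  have hP : ∀ k i x, (∀ y, pair i y ∈ s ↔ y = x) → pair (cP k i) (nat 2) ∈ F →
      (pair (pair (cP k i) (nat 2)) s ∈ T ↔ pair x k ∈ c) := by
    intro k i x hx hp
    rw [hT _ _ hp s hsM hsf, clause_P]
    constructor
    · rintro ⟨y, h1, h2⟩
      rw [hx] at h1
      exact h1 ▸ h2
    · exact fun h => ⟨x, (hx x).2 rfl, h⟩
  have hN : ∀ χ, pair (cNot χ) (nat 2) ∈ F → (pair (pair (cNot χ) (nat 2)) s ∈ T ↔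
      ¬ pair (pair χ (nat 2)) s ∈ T) := by
    intro χ hp
    rw [hT _ _ hp s hsM hsf, clause_Not]
  have hA : ∀ Φ, pair (cAnd Φ) (nat 2) ∈ F → (pair (pair (cAnd Φ) (nat 2)) s ∈ T ↔
      ∀ χ ∈ Φ, pair (pair χ (nat 2)) s ∈ T) := by
    intro Φ hp
    rw [hT _ _ hp s hsM hsf, clause_And]
  have hm1 := mem_and hF h _ (ZFSet.mem_pair.2 (Or.inl rfl))
  have hm2 := mem_and hF h _ (ZFSet.mem_pair.2 (Or.inr rfl))
  have hmem := mem_and hF hm2
  have hU : ∀ k, pair (fU k) (nat 2) ∈ F → (pair (pair (fU k) (nat 2)) s ∈ T ↔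
      ¬ (pair d k ∈ c ∧ ¬ pair e k ∈ c)) := by
    intro k hp
    have h1 := mem_not hF hp
    have h2 := mem_and hF h1 (cP k (nat 0)) (by simp)
    have h3 := mem_and hF h1 (cNot (cP k (nat 1))) (by simp)
    have h4 := mem_not hF h3
    rw [fU, hN _ hp, hA _ h1]
    simp only [ZFSet.mem_pair, forall_eq_or_imp, forall_eq]
    rw [hP k (nat 0) d hs0 h2, hN _ h3, hP k (nat 1) e hs1 h4]
  have hW : ∀ k, pair (fW k) (nat 2) ∈ F → (pair (pair (fW k) (nat 2)) s ∈ T ↔
      ¬ (¬ pair d k ∈ c ∧ pair e k ∈ c)) := by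
    intro k hp
    have h1 := mem_not hF hp
    have h2 := mem_and hF h1 (cNot (cP k (nat 0))) (by simp)
    have h3 := mem_and hF h1 (cP k (nat 1)) (by simp)
    have h4 := mem_not hF h2
    rw [fW, hN _ hp, hA _ h1]
    simp only [ZFSet.mem_pair, forall_eq_or_imp, forall_eq]
    rw [hN _ h2, hP k (nat 0) d hs0 h4, hP k (nat 1) e hs1 h3]
  have hG : ∀ k, pair (fG k) (nat 2) ∈ F → (pair (pair (fG k) (nat 2)) s ∈ T ↔
      (pair d k ∈ c ↔ pair e k ∈ c)) := by
    intro k hp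
    have h1 := mem_and hF hp (fU k) (by simp)
    have h2 := mem_and hF hp (fW k) (by simp)
    rw [fG, hA _ hp]
    simp only [ZFSet.mem_pair, forall_eq_or_imp, forall_eq]
    rw [hU k h1, hW k h2]
    tauto
  have hQ : pair (pair (cNot (cEq (nat 0) (nat 1))) (nat 2)) s ∈ T ↔ e ≠ d := by
    rw [hN _ hm1, hT _ _ (mem_not hF hm1) s hsM hsf, clause_Eq]
    refine not_congr ?_
    constructor
    · rintro ⟨x, h2, h3⟩
      rw [hs0] at h2
      rw [hs1] at h3
      exact h3.symm.trans h2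
    · intro h2
      exact ⟨d, (hs0 d).2 rfl, (hs1 d).2 h2.symm⟩
  have hE := hA _ h
  simp only [ZFSet.mem_pair, forall_eq_or_imp, forall_eq] at hE
  refine hE.trans (and_congr hQ ?_)
  rw [hA _ hm2]
  constructor
  · intro h1 n hn h2 h3
    obtain ⟨m, rfl⟩ := mem_omega_iff.1 hn
    match m, h2, h3 with
    | 0, h2, _ => exact absurd rfl h2
    | 1, _, h3 => exact absurd rfl h3
    | m + 2, _, _ =>
      have h4 : fG (nat (m + 2)) ∈ setE := mem_setE.2 ⟨m, rfl⟩
      exact (hG _ (hmem _ h4)).1 (h1 _ h4)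
  · intro h2 χ hχ
    have h8 := hmem _ hχ
    obtain ⟨k, rfl⟩ := mem_setE.1 hχ
    exact (hG _ h8).2 (h2 (nat (k + 2)) (mem_omega_iff.2 ⟨_, rfl⟩) (nat_ne (by omega))
      (nat_ne (by omega)))

theorem eval_phi (h : pair phi (nat 0) ∈ F) : pair (pair phi (nat 0)) ∅ ∈ T ↔ K D c := by
  have hs1M : ∀ d ∈ D, (insert (pair (nat 0) d) ∅ : ZFSet.{0}) ∈ M := fun d hd =>
    hM.insert_mem (hM.pair_mem (hM.nat_mem 0) (hM.trans _ hD _ hd)) hM.empty_mem
  have hs1f : ∀ d ∈ D, ZFSet.IsFunc (nat 1) D (insert (pair (nat 0) d) ∅) := fun d hd =>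
    isFunc_insert (isFunc_empty D) hd
  have h0 : ZFSet.IsFunc (nat 0) D ∅ := isFunc_empty D
  have hPex : ∀ k, pair (cEx (cP k (nat 0))) (nat 0) ∈ F →
      (pair (pair (cEx (cP k (nat 0))) (nat 0)) ∅ ∈ T ↔ ∃ d ∈ D, pair d k ∈ c) := by
    intro k hp
    rw [hT _ _ hp ∅ hM.empty_mem h0, clause_Ex]
    refine exists_congr fun d => and_congr_right fun hd => ?_
    have h1 : pair (cP k (nat 0)) (nat 1) ∈ F := mem_ex hF hp
    have h2 := hT _ _ h1 _ (hs1M d hd) (hs1f d hd)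
    rw [clause_P] at h2
    refine h2.trans ?_
    constructor
    · rintro ⟨y, h3, h4⟩
      rcases ZFSet.mem_insert_iff.1 h3 with h3 | h3
      · obtain ⟨-, rfl⟩ := ZFSet.pair_inj.1 h3
        exact h4
      · exact absurd h3 (ZFSet.notMem_empty _)
    · exact fun h3 => ⟨d, ZFSet.mem_insert _ _, h3⟩
  have m1 := mem_not hF h
  have m2 := mem_and hF m1 _ (ZFSet.mem_pair.2 (Or.inl rfl))
  have m3 := mem_and hF m1 _ (ZFSet.mem_pair.2 (Or.inr rfl))
  have m4 := mem_and hF m3 _ (ZFSet.mem_pair.2 (Or.inl rfl))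
  have m5 := mem_and hF m3 _ (ZFSet.mem_pair.2 (Or.inr rfl))
  have m6 := mem_not hF m5
  have m7 : pair (cNot (cEx fE)) (nat 1) ∈ F := mem_ex hF m6
  have m8 := mem_not hF m7
  have m9 : pair fE (nat 2) ∈ F := mem_ex hF m8
  have hC : pair (pair fC (nat 0)) ∅ ∈ T ↔ ∃ d ∈ D, ∀ e ∈ D, e ≠ d → ∃ n ∈ ZFSet.omega,
      n ≠ nat 0 ∧ n ≠ nat 1 ∧ ¬ (pair d n ∈ c ↔ pair e n ∈ c) := by
    rw [hT _ _ m6 ∅ hM.empty_mem h0, fC, clause_Ex]
    refine exists_congr fun d => and_congr_right fun hd => ?_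
    have h1 := hT _ _ m7 _ (hs1M d hd) (hs1f d hd)
    rw [clause_Not] at h1
    refine h1.trans ?_
    have h2 := hT _ _ m8 _ (hs1M d hd) (hs1f d hd)
    rw [clause_Ex] at h2
    rw [h2]
    constructor
    · intro h3 e he hne
      by_contra h4
      refine h3 ⟨e, he, (eval_E hM hD hF hT hd he m9).2 ⟨hne, fun n hn h5 h6 => ?_⟩⟩
      by_contra h7
      exact h4 ⟨n, hn, h5, h6, h7⟩
    · rintro h3 ⟨e, he, h4⟩
      obtain ⟨h5, h6⟩ := (eval_E hM hD hF hT hd he m9).1 h4
      obtain ⟨n, hn, h7, h8, h9⟩ := h3 e he h5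
      exact h9 (h6 n hn h7 h8)
  have e1 := hT _ _ h ∅ hM.empty_mem h0
  have e2 := hT _ _ m1 ∅ hM.empty_mem h0
  have e3 := hT _ _ m3 ∅ hM.empty_mem h0
  have e4 := hT _ _ m5 ∅ hM.empty_mem h0
  rw [phi, clause_Not] at e1
  rw [clause_And] at e2 e3
  rw [clause_Not] at e4
  simp only [ZFSet.mem_pair, forall_eq_or_imp, forall_eq] at e2 e3
  rw [phi, e1, e2, e3, e4, hPex _ m2, hPex _ m4, hC, K, not_and_or, not_and_or, not_not]

end eval

/-! ### The sentence is in every model -/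

section good

variable {M : Set ZFSet.{0}} (hM : IsZF M)

include hM

/-- The set of the values of a definable function at the natural numbers. -/
theorem range_mem {f : ZFSet.{0} → ZFSet.{0}}
    (hf : DfnF M M fun w : Fin 1 → ZFSet.{0} => f (w 0)) :
    ZFSet.range (fun k : ℕ => f (nat k)) ∈ M := by
  obtain ⟨y, hy, h⟩ := hM.image_mem hM.infinity hf
  have h1 : y = ZFSet.range (fun k : ℕ => f (nat k)) := by
    ext z
    rw [h, ZFSet.mem_range]
    constructor
    · rintro ⟨n, hn, rfl⟩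
      obtain ⟨m, rfl⟩ := mem_omega_iff.1 hn
      exact ⟨m, rfl⟩
    · rintro ⟨k, rfl⟩
      exact ⟨nat k, mem_omega_iff.2 ⟨k, rfl⟩, rfl⟩
  exact h1 ▸ hy

theorem dfn_fU : DfnF M M fun w : Fin 1 → ZFSet.{0} => fU (w 0) := by
  have hB := hM.base
  have h0 := hM.nat_mem 0
  have h1 := hM.nat_mem 1
  have h2 := hM.nat_mem 2
  have h3 := hM.nat_mem 3
  unfold fU cNot cAnd cP
  (repeat' first
      | assumption
      | exact DfnF.proj _
      | exact DfnF.const (by assumption)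
      | exact DfnF.const' (by first | assumption | trivial) (by first | assumption | trivial)
      | exact Dfn.prop _
      | apply hB.isFunc' | apply hB.isInj' | apply hB.isBij' | apply hB.subset' | apply hB.pair' | apply hB.single' | apply hB.upair' | apply hB.insert' | apply hB.union'
      | apply Dfn.not | apply Dfn.and | apply Dfn.or | apply Dfn.imp | apply Dfn.iff
      | apply hB.bex | apply hB.ball | apply Dfn.ex | apply Dfn.all
      | apply Dfn.eq | apply Dfn.mem | apply hB.pair')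

theorem dfn_fW : DfnF M M fun w : Fin 1 → ZFSet.{0} => fW (w 0) := by
  have hB := hM.base
  have h0 := hM.nat_mem 0
  have h1 := hM.nat_mem 1
  have h2 := hM.nat_mem 2
  have h3 := hM.nat_mem 3
  unfold fW cNot cAnd cP
  (repeat' first
      | assumption
      | exact DfnF.proj _
      | exact DfnF.const (by assumption)
      | exact DfnF.const' (by first | assumption | trivial) (by first | assumption | trivial)
      | exact Dfn.prop _
      | apply hB.isFunc' | apply hB.isInj' | apply hB.isBij' | apply hB.subset' | apply hB.pair' | apply hB.single' | apply hB.upair' | apply hB.insert' | apply hB.union'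
      | apply Dfn.not | apply Dfn.and | apply Dfn.or | apply Dfn.imp | apply Dfn.iff
      | apply hB.bex | apply hB.ball | apply Dfn.ex | apply Dfn.all
      | apply Dfn.eq | apply Dfn.mem | apply hB.pair')

theorem setE_mem : setE ∈ M := by
  have hB := hM.base
  have h : DfnF M M fun w : Fin 1 → ZFSet.{0} =>
      pair (nat 3) {fU (insert (insert (w 0) (w 0)) (insert (w 0) (w 0))),
        fW (insert (insert (w 0) (w 0)) (insert (w 0) (w 0)))} := by
    have h3 := hM.nat_mem 3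
    have h4 : DfnF M M fun w : Fin 1 → ZFSet.{0} =>
        (insert (insert (w 0) (w 0)) (insert (w 0) (w 0)) : ZFSet.{0}) := by
      (repeat' first
      | assumption
      | exact DfnF.proj _
      | exact DfnF.const (by assumption)
      | exact DfnF.const' (by first | assumption | trivial) (by first | assumption | trivial)
      | exact Dfn.prop _
      | apply hB.isFunc' | apply hB.isInj' | apply hB.isBij' | apply hB.subset' | apply hB.pair' | apply hB.single' | apply hB.upair' | apply hB.insert' | apply hB.union'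
      | apply Dfn.not | apply Dfn.and | apply Dfn.or | apply Dfn.imp | apply Dfn.iff
      | apply hB.bex | apply hB.ball | apply Dfn.ex | apply Dfn.all
      | apply Dfn.eq | apply Dfn.mem | apply hB.pair')
    refine hB.pair' (DfnF.const h3) (hB.upair' ?_ ?_)
    · exact DfnF.comp1 (f := fU) (dfn_fU hM) h4
    · exact DfnF.comp1 (f := fW) (dfn_fW hM) h4
  exact range_mem hM (f := fun x => pair (nat 3) {fU (insert (insert x x) (insert x x)),
        fW (insert (insert x x) (insert x x))}) h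

theorem upair_countable {a b : ZFSet.{0}} (ha : a ∈ M) (hb : b ∈ M) :
    ∃ f ∈ M, IsInj {a, b} ZFSet.omega f := by
  have h0 := hM.nat_mem 0
  have h1 := hM.nat_mem 1
  by_cases hab : a = b
  · subst hab
    refine ⟨{pair a (nat 0)}, hM.single_mem (hM.pair_mem ha h0), ⟨?_, ?_⟩, ?_⟩
    · intro p hp
      rw [ZFSet.mem_singleton] at hp
      subst hp
      exact ZFSet.pair_mem_prod.2 ⟨by simp, mem_omega_iff.2 ⟨0, rfl⟩⟩
    · intro z hz
      have hz' : z = a := by simpa using hz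
      subst hz'
      refine ⟨nat 0, by simp, fun w hw => ?_⟩
      beta_reduce at hw
      rw [ZFSet.mem_singleton, ZFSet.pair_inj] at hw
      exact hw.2
    · intro x y z hx hy
      rw [ZFSet.mem_singleton, ZFSet.pair_inj] at hx hy
      rw [hx.1, hy.1]
  · refine ⟨{pair a (nat 0), pair b (nat 1)}, hM.pairing _ (hM.pair_mem ha h0) _
      (hM.pair_mem hb h1), ⟨?_, ?_⟩, ?_⟩
    · intro p hp
      rcases ZFSet.mem_pair.1 hp with rfl | rfl
      · exact ZFSet.pair_mem_prod.2 ⟨by simp, mem_omega_iff.2 ⟨0, rfl⟩⟩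
      · exact ZFSet.pair_mem_prod.2 ⟨by simp, mem_omega_iff.2 ⟨1, rfl⟩⟩
    · intro z hz
      rcases ZFSet.mem_pair.1 hz with rfl | rfl
      · refine ⟨nat 0, by simp, fun w hw => ?_⟩
        beta_reduce at hw
        rw [ZFSet.mem_pair, ZFSet.pair_inj, ZFSet.pair_inj] at hw
        rcases hw with hw | hw
        · exact hw.2
        · exact absurd hw.1 hab
      · refine ⟨nat 1, by simp, fun w hw => ?_⟩
        beta_reduce at hw
        rw [ZFSet.mem_pair, ZFSet.pair_inj, ZFSet.pair_inj] at hw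
        rcases hw with hw | hw
        · exact absurd hw.1.symm hab
        · exact hw.2
    · intro x y z hx hy
      rw [ZFSet.mem_pair, ZFSet.pair_inj, ZFSet.pair_inj] at hx hy
      rcases hx with ⟨hx, hz⟩ | ⟨hx, hz⟩ <;> rcases hy with ⟨hy, hz'⟩ | ⟨hy, hz'⟩
      · rw [hx, hy]
      · exact absurd (hz.symm.trans hz') (nat_ne (by decide))
      · exact absurd (hz.symm.trans hz') (nat_ne (by decide))
      · rw [hx, hy]

omit hM in
theorem fG_inj {k l : ZFSet.{0}} (h : fG k = fG l) : k = l := by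
  have h1 := (ZFSet.pair_inj.1 h).2
  have h2 : fU k ∈ ({fU l, fW l} : ZFSet.{0}) := by
    rw [← h1]
    simp
  have hU : ∀ {k l : ZFSet.{0}}, fU k = fU l → k = l := by
    intro k l h3
    have h4 := (ZFSet.pair_inj.1 (ZFSet.pair_inj.1 h3).2).2
    have h5 : cP k (nat 0) ∈ ({cP l (nat 0), cNot (cP l (nat 1))} : ZFSet.{0}) := by
      rw [← h4]
      simp
    rcases ZFSet.mem_pair.1 h5 with h5 | h5
    · exact (ZFSet.pair_inj.1 (ZFSet.pair_inj.1 h5).2).1
    · exact absurd (ZFSet.pair_inj.1 h5).1 (nat_ne (by decide))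
  rcases ZFSet.mem_pair.1 h2 with h2 | h2
  · exact hU h2
  · have h4 := (ZFSet.pair_inj.1 (ZFSet.pair_inj.1 h2).2).2
    have h5 : cP k (nat 0) ∈ ({cNot (cP l (nat 0)), cP l (nat 1)} : ZFSet.{0}) := by
      rw [← h4]
      simp
    rcases ZFSet.mem_pair.1 h5 with h5 | h5
    · exact absurd (ZFSet.pair_inj.1 h5).1 (nat_ne (by decide))
    · exact (ZFSet.pair_inj.1 (ZFSet.pair_inj.1 h5).2).1

theorem dfn_fG : DfnF M M fun w : Fin 1 → ZFSet.{0} => fG (w 0) :=
  hM.base.pair' (DfnF.const (hM.nat_mem 3)) (hM.base.upair' (dfn_fU hM) (dfn_fW hM))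

theorem setE_countable : ∃ f ∈ M, IsInj setE ZFSet.omega f := by
  have hd : Dfn M M fun w : Fin 2 → ZFSet.{0} => w 0 = fG (w 1) :=
    Dfn.eq (DfnF.proj 0) (DfnF.comp1 (f := fG) (dfn_fG hM) (DfnF.proj 1))
  obtain ⟨f, hf, h1, h2⟩ := hM.rel_mem (setE_mem hM) hM.infinity (Q := fun a b => a = fG b) hd
  refine ⟨f, hf, ⟨h1, ?_⟩, ?_⟩
  · intro z hz
    obtain ⟨k, rfl⟩ := mem_setE.1 hz
    refine ⟨nat (k + 2), (h2 _ _).2 ⟨hz, mem_omega_iff.2 ⟨_, rfl⟩, rfl⟩, fun w hw => ?_⟩
    exact (fG_inj ((h2 _ _).1 hw).2.2).symm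
  · intro a b c ha hb
    rw [((h2 _ _).1 ha).2.2, ((h2 _ _).1 hb).2.2]

/-! ### A set of formulas that contains the sentence -/

/-- Adding one formula. -/
theorem Good.add {F ψ : ZFSet.{0}} {n : ℕ} (h : Good M F) (hψ : ψ ∈ M)
    (hp : Form M F (pair ψ (nat n))) :
    ∃ F', Good M F' ∧ F ⊆ F' ∧ pair ψ (nat n) ∈ F' := by
  have hpM : pair ψ (nat n) ∈ M := hM.pair_mem hψ (hM.nat_mem n)
  refine ⟨F ∪ {pair ψ (nat n)}, h.extend hM (hM.single_mem hpM) ?_, ?_, ?_⟩
  · intro q hq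
    rw [ZFSet.mem_singleton] at hq
    exact hq ▸ hp
  · exact fun x hx => ZFSet.mem_union.2 (Or.inl hx)
  · exact ZFSet.mem_union.2 (Or.inr (ZFSet.mem_singleton.2 rfl))

/-- Adding a family of formulas. -/
theorem Good.addFam {F : ZFSet.{0}} (h : Good M F) {f : ZFSet.{0} → ZFSet.{0}}
    (hf : DfnF M M fun w : Fin 1 → ZFSet.{0} => f (w 0))
    (hp : ∀ k ∈ ZFSet.omega, Form M F (pair (f k) (nat 2))) :
    ∃ F', Good M F' ∧ F ⊆ F' ∧ ∀ k ∈ ZFSet.omega, pair (f k) (nat 2) ∈ F' := by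
  have h1 : ZFSet.range (fun k : ℕ => pair (f (nat k)) (nat 2)) ∈ M :=
    range_mem hM (f := fun x => pair (f x) (nat 2))
      (hM.base.pair' hf (DfnF.const (hM.nat_mem 2)))
  refine ⟨_, h.extend hM h1 ?_, fun x hx => ZFSet.mem_union.2 (Or.inl hx), ?_⟩
  · intro q hq
    obtain ⟨k, rfl⟩ := ZFSet.mem_range.1 hq
    exact hp _ (mem_omega_iff.2 ⟨k, rfl⟩)
  · intro k hk
    obtain ⟨m, rfl⟩ := mem_omega_iff.1 hk
    exact ZFSet.mem_union.2 (Or.inr (ZFSet.mem_range.2 ⟨m, rfl⟩))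

theorem cP_mem (k i : ℕ) : cP (nat k) (nat i) ∈ M :=
  hM.pair_mem (hM.nat_mem 0) (hM.pair_mem (hM.nat_mem k) (hM.nat_mem i))

theorem cNot_mem {χ : ZFSet.{0}} (h : χ ∈ M) : cNot χ ∈ M := hM.pair_mem (hM.nat_mem 2) h

theorem cAnd_mem {Φ : ZFSet.{0}} (h : Φ ∈ M) : cAnd Φ ∈ M := hM.pair_mem (hM.nat_mem 3) h

theorem cAnd2_mem {a b : ZFSet.{0}} (h : a ∈ M) (h' : b ∈ M) : cAnd {a, b} ∈ M :=
  hM.pair_mem (hM.nat_mem 3) (hM.pairing _ h _ h')

theorem cEx_mem {χ : ZFSet.{0}} (h : χ ∈ M) : cEx χ ∈ M := hM.pair_mem (hM.nat_mem 4) h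

theorem cEq_mem (i j : ℕ) : cEq (nat i) (nat j) ∈ M :=
  hM.pair_mem (hM.nat_mem 1) (hM.pair_mem (hM.nat_mem i) (hM.nat_mem j))

omit hM in
theorem form_P {F k i : ZFSet.{0}} {n : ℕ} (hk : k ∈ ZFSet.omega) (hi : i ∈ nat n) :
    Form M F (pair (cP k i) (nat n)) :=
  ⟨_, _, rfl, mem_omega_iff.2 ⟨n, rfl⟩, Or.inl ⟨k, hk, i, hi, rfl⟩⟩

omit hM in
theorem form_Eq {F i j : ZFSet.{0}} {n : ℕ} (hi : i ∈ nat n) (hj : j ∈ nat n) :
    Form M F (pair (cEq i j) (nat n)) :=
  ⟨_, _, rfl, mem_omega_iff.2 ⟨n, rfl⟩, Or.inr (Or.inl ⟨i, hi, j, hj, rfl⟩)⟩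

omit hM in
theorem form_Not {F χ : ZFSet.{0}} {n : ℕ} (h : pair χ (nat n) ∈ F) :
    Form M F (pair (cNot χ) (nat n)) :=
  ⟨_, _, rfl, mem_omega_iff.2 ⟨n, rfl⟩, Or.inr (Or.inr (Or.inl ⟨χ, rfl, h⟩))⟩

omit hM in
theorem form_And {F Φ : ZFSet.{0}} {n : ℕ} (h' : ∃ f ∈ M, IsInj Φ ZFSet.omega f)
    (h : ∀ χ ∈ Φ, pair χ (nat n) ∈ F) : Form M F (pair (cAnd Φ) (nat n)) :=
  ⟨_, _, rfl, mem_omega_iff.2 ⟨n, rfl⟩, Or.inr (Or.inr (Or.inr (Or.inl ⟨Φ, rfl, h', h⟩)))⟩

theorem form_And2 {F a b : ZFSet.{0}} {n : ℕ} (hF : F ∈ M) (ha : pair a (nat n) ∈ F)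
    (hb : pair b (nat n) ∈ F) : Form M F (pair (cAnd {a, b}) (nat n)) := by
  refine form_And (upair_countable hM (hM.of_pair_mem (hM.trans _ hF _ ha)).1
    (hM.of_pair_mem (hM.trans _ hF _ hb)).1) ?_
  intro χ hχ
  rcases ZFSet.mem_pair.1 hχ with rfl | rfl
  · exact ha
  · exact hb

omit hM in
theorem form_Ex {F χ : ZFSet.{0}} {n : ℕ} (h : pair χ (nat (n + 1)) ∈ F) :
    Form M F (pair (cEx χ) (nat n)) :=
  ⟨_, _, rfl, mem_omega_iff.2 ⟨n, rfl⟩, Or.inr (Or.inr (Or.inr (Or.inr ⟨χ, rfl, h⟩)))⟩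

theorem phi_mem : phi ∈ M := by
  refine cNot_mem hM (cAnd2_mem hM (cEx_mem hM (cP_mem hM 0 0)) (cAnd2_mem hM
    (cEx_mem hM (cP_mem hM 1 0)) (cNot_mem hM (cEx_mem hM (cNot_mem hM (cEx_mem hM
      (cAnd2_mem hM (cNot_mem hM (cEq_mem hM 0 1)) (cAnd_mem hM (setE_mem hM)))))))))

/-- There is a set of formulas that contains the sentence and has satisfaction relations. -/
theorem exists_good : ∃ F, Good M F ∧ pair phi (nat 0) ∈ F := by
  have hB := hM.base
  have n0 := hM.nat_mem 0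
  have n1 := hM.nat_mem 1
  have n2 := hM.nat_mem 2
  have n3 := hM.nat_mem 3
  have z2 : nat 0 ∈ nat 2 := mem_two_iff.2 (Or.inl rfl)
  have o2 : nat 1 ∈ nat 2 := mem_two_iff.2 (Or.inr rfl)
  have z1 : nat 0 ∈ nat 1 := mem_one_iff.2 rfl
  have w0 : nat 0 ∈ ZFSet.omega := mem_omega_iff.2 ⟨0, rfl⟩
  have w1 : nat 1 ∈ ZFSet.omega := mem_omega_iff.2 ⟨1, rfl⟩
  -- atomic formulas in context 2
  obtain ⟨F1, g1, -, a1⟩ := (good_empty hM).addFam hM (f := fun k => cP k (nat 0))
    (by unfold cP; (repeat' first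
      | assumption
      | exact DfnF.proj _
      | exact DfnF.const (by assumption)
      | exact DfnF.const' (by first | assumption | trivial) (by first | assumption | trivial)
      | exact Dfn.prop _
      | apply hB.isFunc' | apply hB.isInj' | apply hB.isBij' | apply hB.subset' | apply hB.pair' | apply hB.single' | apply hB.upair' | apply hB.insert' | apply hB.union'
      | apply Dfn.not | apply Dfn.and | apply Dfn.or | apply Dfn.imp | apply Dfn.iff
      | apply hB.bex | apply hB.ball | apply Dfn.ex | apply Dfn.all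
      | apply Dfn.eq | apply Dfn.mem | apply hB.pair')) fun k hk => form_P hk z2
  obtain ⟨F2, g2, s2, a2⟩ := g1.addFam hM (f := fun k => cP k (nat 1))
    (by unfold cP; (repeat' first
      | assumption
      | exact DfnF.proj _
      | exact DfnF.const (by assumption)
      | exact DfnF.const' (by first | assumption | trivial) (by first | assumption | trivial)
      | exact Dfn.prop _
      | apply hB.isFunc' | apply hB.isInj' | apply hB.isBij' | apply hB.subset' | apply hB.pair' | apply hB.single' | apply hB.upair' | apply hB.insert' | apply hB.union'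
      | apply Dfn.not | apply Dfn.and | apply Dfn.or | apply Dfn.imp | apply Dfn.iff
      | apply hB.bex | apply hB.ball | apply Dfn.ex | apply Dfn.all
      | apply Dfn.eq | apply Dfn.mem | apply hB.pair')) fun k hk => form_P hk o2
  -- their negations
  obtain ⟨F3, g3, s3, a3⟩ := g2.addFam hM (f := fun k => cNot (cP k (nat 0)))
    (by unfold cNot cP; (repeat' first
      | assumption
      | exact DfnF.proj _
      | exact DfnF.const (by assumption)
      | exact DfnF.const' (by first | assumption | trivial) (by first | assumption | trivial)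
      | exact Dfn.prop _
      | apply hB.isFunc' | apply hB.isInj' | apply hB.isBij' | apply hB.subset' | apply hB.pair' | apply hB.single' | apply hB.upair' | apply hB.insert' | apply hB.union'
      | apply Dfn.not | apply Dfn.and | apply Dfn.or | apply Dfn.imp | apply Dfn.iff
      | apply hB.bex | apply hB.ball | apply Dfn.ex | apply Dfn.all
      | apply Dfn.eq | apply Dfn.mem | apply hB.pair')) fun k hk => form_Not (s2 (a1 k hk))
  obtain ⟨F4, g4, s4, a4⟩ := g3.addFam hM (f := fun k => cNot (cP k (nat 1)))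
    (by unfold cNot cP; (repeat' first
      | assumption
      | exact DfnF.proj _
      | exact DfnF.const (by assumption)
      | exact DfnF.const' (by first | assumption | trivial) (by first | assumption | trivial)
      | exact Dfn.prop _
      | apply hB.isFunc' | apply hB.isInj' | apply hB.isBij' | apply hB.subset' | apply hB.pair' | apply hB.single' | apply hB.upair' | apply hB.insert' | apply hB.union'
      | apply Dfn.not | apply Dfn.and | apply Dfn.or | apply Dfn.imp | apply Dfn.iff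
      | apply hB.bex | apply hB.ball | apply Dfn.ex | apply Dfn.all
      | apply Dfn.eq | apply Dfn.mem | apply hB.pair')) fun k hk => form_Not (s3 (a2 k hk))
  -- the conjunctions
  obtain ⟨F5, g5, s5, a5⟩ := g4.addFam hM
    (f := fun k => cAnd {cP k (nat 0), cNot (cP k (nat 1))})
    (by unfold cAnd cNot cP; (repeat' first
      | assumption
      | exact DfnF.proj _
      | exact DfnF.const (by assumption)
      | exact DfnF.const' (by first | assumption | trivial) (by first | assumption | trivial)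
      | exact Dfn.prop _
      | apply hB.isFunc' | apply hB.isInj' | apply hB.isBij' | apply hB.subset' | apply hB.pair' | apply hB.single' | apply hB.upair' | apply hB.insert' | apply hB.union'
      | apply Dfn.not | apply Dfn.and | apply Dfn.or | apply Dfn.imp | apply Dfn.iff
      | apply hB.bex | apply hB.ball | apply Dfn.ex | apply Dfn.all
      | apply Dfn.eq | apply Dfn.mem | apply hB.pair'))
    fun k hk => form_And2 hM g4.1 (s4 (s3 (s2 (a1 k hk)))) (a4 k hk)
  obtain ⟨F6, g6, s6, a6⟩ := g5.addFam hM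
    (f := fun k => cAnd {cNot (cP k (nat 0)), cP k (nat 1)})
    (by unfold cAnd cNot cP; (repeat' first
      | assumption
      | exact DfnF.proj _
      | exact DfnF.const (by assumption)
      | exact DfnF.const' (by first | assumption | trivial) (by first | assumption | trivial)
      | exact Dfn.prop _
      | apply hB.isFunc' | apply hB.isInj' | apply hB.isBij' | apply hB.subset' | apply hB.pair' | apply hB.single' | apply hB.upair' | apply hB.insert' | apply hB.union'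
      | apply Dfn.not | apply Dfn.and | apply Dfn.or | apply Dfn.imp | apply Dfn.iff
      | apply hB.bex | apply hB.ball | apply Dfn.ex | apply Dfn.all
      | apply Dfn.eq | apply Dfn.mem | apply hB.pair'))
    fun k hk => form_And2 hM g5.1 (s5 (s4 (a3 k hk))) (s5 (s4 (s3 (a2 k hk))))
  obtain ⟨F7, g7, s7, a7⟩ := g6.addFam hM (f := fU) (dfn_fU hM)
    fun k hk => form_Not (s6 (a5 k hk))
  obtain ⟨F8, g8, s8, a8⟩ := g7.addFam hM (f := fW) (dfn_fW hM)
    fun k hk => form_Not (s7 (a6 k hk))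
  obtain ⟨F9, g9, s9, a9⟩ := g8.addFam hM (f := fG) (dfn_fG hM)
    fun k hk => form_And2 hM g8.1 (s8 (a7 k hk)) (a8 k hk)
  -- the formula fE
  obtain ⟨F10, g10, s10, a10⟩ := g9.add hM (n := 2) (cAnd_mem hM (setE_mem hM))
    (form_And (setE_countable hM) fun χ hχ => by
      obtain ⟨k, rfl⟩ := mem_setE.1 hχ
      exact a9 _ (mem_omega_iff.2 ⟨_, rfl⟩))
  obtain ⟨F11, g11, s11, a11⟩ := g10.add hM (n := 2) (cEq_mem hM 0 1) (form_Eq z2 o2)
  obtain ⟨F12, g12, s12, a12⟩ := g11.add hM (n := 2) (cNot_mem hM (cEq_mem hM 0 1))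
    (form_Not a11)
  have mE : fE ∈ M := cAnd2_mem hM (cNot_mem hM (cEq_mem hM 0 1)) (cAnd_mem hM (setE_mem hM))
  obtain ⟨F13, g13, s13, a13⟩ := g12.add hM (n := 2) mE
    (form_And2 hM g12.1 a12 (s12 (s11 a10)))
  -- the formula fC
  obtain ⟨F14, g14, s14, a14⟩ := g13.add hM (n := 1) (cEx_mem hM mE) (form_Ex a13)
  obtain ⟨F15, g15, s15, a15⟩ := g14.add hM (n := 1) (cNot_mem hM (cEx_mem hM mE))
    (form_Not a14)
  have mC : fC ∈ M := cEx_mem hM (cNot_mem hM (cEx_mem hM mE))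
  obtain ⟨F16, g16, s16, a16⟩ := g15.add hM (n := 0) mC (form_Ex a15)
  obtain ⟨F17, g17, s17, a17⟩ := g16.add hM (n := 0) (cNot_mem hM mC) (form_Not a16)
  -- the other parts
  obtain ⟨F18, g18, s18, a18⟩ := g17.add hM (n := 1) (cP_mem hM 0 0) (form_P w0 z1)
  obtain ⟨F19, g19, s19, a19⟩ := g18.add hM (n := 0) (cEx_mem hM (cP_mem hM 0 0))
    (form_Ex a18)
  obtain ⟨F20, g20, s20, a20⟩ := g19.add hM (n := 1) (cP_mem hM 1 0) (form_P w1 z1)
  obtain ⟨F21, g21, s21, a21⟩ := g20.add hM (n := 0) (cEx_mem hM (cP_mem hM 1 0))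
    (form_Ex a20)
  obtain ⟨F22, g22, s22, a22⟩ := g21.add hM (n := 0)
    (cAnd2_mem hM (cEx_mem hM (cP_mem hM 1 0)) (cNot_mem hM mC))
    (form_And2 hM g21.1 a21 (s21 (s20 (s19 (s18 a17)))))
  obtain ⟨F23, g23, s23, a23⟩ := g22.add hM (n := 0)
    (cAnd2_mem hM (cEx_mem hM (cP_mem hM 0 0))
      (cAnd2_mem hM (cEx_mem hM (cP_mem hM 1 0)) (cNot_mem hM mC)))
    (form_And2 hM g22.1 (s22 (s21 (s20 a19))) a22)
  obtain ⟨F24, g24, s24, a24⟩ := g23.add hM (n := 0) (phi_mem hM) (form_Not a23)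
  exact ⟨F24, g24, a24⟩

theorem isSentence_phi : IsSentence M phi := by
  obtain ⟨F, h1, h2⟩ := exists_good hM
  exact ⟨F, h1.1, h1.2.1, h2⟩

/-- What it means to be a model of the sentence. -/
theorem models_phi {D c : ZFSet.{0}} (hD : D ∈ M) (hc : c ∈ M) : Models M D c phi ↔ K D c := by
  constructor
  · rintro ⟨F, -, T, -, h1, h2, h3, h4⟩
    exact (eval_phi hM hD h1 h3 h2).1 h4
  · intro h
    obtain ⟨F, h1, h2⟩ := exists_good hM
    obtain ⟨T, hT, h3⟩ := h1.2.2 D hD c hc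
    exact ⟨F, h1.1, T, hT, h1.2.1, h2, h3, (eval_phi hM hD h1.2.1 h3 h2).2 h⟩

end good

end Pool.Agent.W868
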