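import Pool.Agent.W868.Ops

/-!
# Generic packages: a countable set of names closed under the basic rules, and a generic sequence
-/

set_option autoImplicit false

namespace Pool.Agent.W868

open PName

variable {P : Type} [Preorder P] [OrderTop P]

/-- The ordinal of an index of a name. -/
noncomputable def ordI (x : PName P) (j : x.idx) : Ordinal.{0} :=
  Ordinal.typein (α := x.idx) WellOrderingRel j

theorem ordI_injective (x : PName P) : Function.Injective (ordI x) :=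
  Ordinal.typein_injective WellOrderingRel

/-- A name for an enumeration of the elements of `x` by ordinals. -/
noncomputable def enumN (x : PName P) : PName P :=
  mk x.idx (fun j => opN (check (ordI x j).toZFSet) (x.chd j)) (fun _ => ⊤)

/-- The rank of a name. -/
noncomputable def nrk : PName P → Ordinal.{0}
  | .mk _ x _ => ⨆ i, Order.succ (nrk (x i))

omit [Preorder P] [OrderTop P] in
theorem nrk_lt {x z : PName P} {c : P} (h : El x z c) : nrk z < nrk x := by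
  cases x with
  | mk ι x c =>
    obtain ⟨i, rfl, -⟩ := h
    rw [nrk]
    exact (Order.lt_succ _).trans_le (le_ciSup (f := fun i => Order.succ (nrk (x i)))
      (Ordinal.bddAbove_of_small) i)

section rules

open Classical

noncomputable def rMem : Rule P := fun q => match q with
  | ⟨_, .mem s t, v, p⟩ =>
    if h : ∃ r : P × PName P, r.1 ≤ p ∧ ∃ c, El (tv v t) r.2 c ∧ r.1 ≤ c ∧ Feq (tv v s) r.2 r.1
    then (h.choose.2, h.choose.1) else (emp, p)
  | q => (emp, q.p)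

noncomputable def rEq : Rule P := fun q => match q with
  | ⟨_, .eq s t, v, p⟩ =>
    if h : ∃ r : P × PName P, r.1 ≤ p ∧
      (Wit (tv v s) (tv v t) r.2 r.1 ∨ Wit (tv v t) (tv v s) r.2 r.1)
    then (h.choose.2, h.choose.1) else (emp, p)
  | q => (emp, q.p)

noncomputable def rEx : Rule P := fun q => match q with
  | ⟨_, .ex φ, v, p⟩ =>
    if h : ∃ r : P × PName P, r.1 ≤ p ∧ Forces φ (Fin.cons r.2 v) r.1
    then (h.choose.2, h.choose.1) else (emp, p)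
  | q => (emp, q.p)

noncomputable def rDec : Rule P := fun q =>
  if h : ∃ r, r ≤ q.p ∧ Forces q.φ q.v r then (emp, h.choose) else (emp, q.p)

noncomputable def rWit : Rule P := fun q => match q with
  | ⟨_, .ex φ, v, p⟩ => (witN φ v p, p)
  | q => (emp, q.p)

def rPair : Rule P := fun q => match q with
  | ⟨_, .mem s t, v, p⟩ => (pairN (tv v s) (tv v t), p)
  | q => (emp, q.p)

def rUnion : Rule P := fun q => match q with
  | ⟨_, .mem s _, v, p⟩ => (unionN (tv v s), p)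
  | q => (emp, q.p)

def rPow : Rule P := fun q => match q with
  | ⟨_, .mem s _, v, p⟩ => (powN (tv v s), p)
  | q => (emp, q.p)

def rSep : Rule P := fun q => match q with
  | ⟨_ + 1, φ, v, p⟩ => (sepN φ (Fin.tail v) (v 0), p)
  | q => (emp, q.p)

noncomputable def rColl : Rule P := fun q => match q with
  | ⟨_ + 1, .ex φ, v, p⟩ => (collN φ (Fin.tail v) (v 0), p)
  | q => (emp, q.p)

noncomputable def rEnum : Rule P := fun q => match q with
  | ⟨_, .mem s _, v, p⟩ => (enumN (tv v s), p)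
  | q => (emp, q.p)

noncomputable def rOrd : Rule P := fun q => match q with
  | ⟨_, .mem s t, v, p⟩ => if h : ∃ j, (tv v s).chd j = tv v t
    then (check (ordI (tv v s) h.choose).toZFSet, p) else (emp, p)
  | q => (emp, q.p)

noncomputable def rFst : Rule P := fun q => match q with
  | ⟨_, .mem s _, v, p⟩ => if h : ∃ a b, tv v s = opN a b then (h.choose, p) else (emp, p)
  | q => (emp, q.p)

noncomputable def rRank : Rule P := fun q => match q with
  | ⟨_, .mem s _, v, p⟩ => (check (nrk (tv v s)).toZFSet, p)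
  | q => (emp, q.p)

noncomputable def rSnd : Rule P := fun q => match q with
  | ⟨_, .mem s _, v, p⟩ => if h : ∃ b a, tv v s = opN a b then (h.choose, p) else (emp, p)
  | q => (emp, q.p)

/-- The value of a term in the ground model. -/
def gv {n : ℕ} (v : Fin n → ZFSet.{0}) : Fin n ⊕ ZFSet.{0} → ZFSet.{0} := Sum.elim v id

noncomputable def gWit : (n : ℕ) → Fml ZFSet.{0} n → (Fin n → ZFSet.{0}) → ZFSet.{0}
  | _, .ex φ, v => if h : ∃ a, Sat Set.univ id φ (Fin.cons a v) then h.choose else ∅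
  | _, _, _ => ∅

noncomputable def gSep : (n : ℕ) → Fml ZFSet.{0} n → (Fin n → ZFSet.{0}) → ZFSet.{0}
  | _ + 1, φ, v => ZFSet.sep (fun z => Sat Set.univ id φ (Fin.cons z (Fin.tail v))) (v 0)
  | 0, _, _ => ∅

noncomputable def gRepl : (n : ℕ) → Fml ZFSet.{0} n → (Fin n → ZFSet.{0}) → ZFSet.{0}
  | _ + 1, .ex φ, v => ZFSet.range fun z : {z // z ∈ v 0} =>
      if h : ∃ w, Sat Set.univ id φ (Fin.cons w (Fin.cons z.1 (Fin.tail v)))
      then h.choose else ∅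
  | _, _, _ => ∅

def gPair : (n : ℕ) → Fml ZFSet.{0} n → (Fin n → ZFSet.{0}) → ZFSet.{0}
  | _, .mem s t, v => {gv v s, gv v t}
  | _, _, _ => ∅

def gUnion : (n : ℕ) → Fml ZFSet.{0} n → (Fin n → ZFSet.{0}) → ZFSet.{0}
  | _, .mem s _, v => ZFSet.sUnion (gv v s)
  | _, _, _ => ∅

def gPow : (n : ℕ) → Fml ZFSet.{0} n → (Fin n → ZFSet.{0}) → ZFSet.{0}
  | _, .mem s _, v => ZFSet.powerset (gv v s)
  | _, _, _ => ∅

noncomputable def gChoice : (n : ℕ) → Fml ZFSet.{0} n → (Fin n → ZFSet.{0}) → ZFSet.{0}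
  | _, .mem s _, v => ZFSet.range fun z : {z // z ∈ gv v s} =>
      ZFSet.pair z.1 (if h : ∃ w, w ∈ z.1 then h.choose else ∅)
  | _, _, _ => ∅

end rules

/-- The basic rules. -/
def baseRules : Set (Rule P) :=
  {rMem, rEq, rEx, rDec, rWit, rPair, rUnion, rPow, rSep, rColl, rEnum, rOrd, rFst, rSnd, rRank,
    gRule gWit, gRule gSep, gRule gRepl, gRule gPair, gRule gUnion, gRule gPow, gRule gChoice}

/-- The genericity condition for a formula. -/
def Gen (N : Set (PName P)) : {n : ℕ} → Fml (PName P) n → (Fin n → PName P) → P → Prop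
  | _, .mem s t, v, r => Fmem (tv v s) (tv v t) r →
      ∃ z ∈ N, ∃ c, El (tv v t) z c ∧ r ≤ c ∧ Feq (tv v s) z r
  | _, .eq s t, v, r => Feq (tv v s) (tv v t) r ∨
      ∃ z ∈ N, Wit (tv v s) (tv v t) z r ∨ Wit (tv v t) (tv v s) z r
  | _, .ex φ, v, r => Forces (.ex φ) v r → ∃ x ∈ N, Forces φ (Fin.cons x v) r
  | _, _, _, _ => True

variable (P) in
/-- A generic package. -/
structure Pkg where
  N : Set (PName P)
  C : Set P
  g : ℕ → P
  cnt : N.Countable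
  closed : ∀ ρ ∈ (baseRules : Set (Rule P)), ∀ q : Query P, q.In N C →
    (ρ q).1 ∈ N ∧ (ρ q).2 ∈ C
  om : check ZFSet.omega ∈ N
  gC : ∀ n, g n ∈ C
  anti : ∀ n, g (n + 1) ≤ g n
  gen : ∀ q : Query P, (q.φ.Over N ∧ ∀ i, q.v i ∈ N) → ∃ k,
    (Forces q.φ q.v (g k) ∨ ∀ r ≤ g k, ¬ Forces q.φ q.v r) ∧ Gen N q.φ q.v (g k)

section closure

variable {N : Set (PName P)} {C : Set P}

theorem query2 {x y : PName P} {p : P} (hx : x ∈ N) (hy : y ∈ N) (hp : p ∈ C) :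
    Query.In N C ⟨0, .mem (Sum.inr x) (Sum.inr y), Fin.elim0, p⟩ :=
  ⟨⟨tOver_inr.2 hx, tOver_inr.2 hy⟩, fun i => i.elim0, hp⟩

theorem query2e {x y : PName P} {p : P} (hx : x ∈ N) (hy : y ∈ N) (hp : p ∈ C) :
    Query.In N C ⟨0, .eq (Sum.inr x) (Sum.inr y), Fin.elim0, p⟩ :=
  ⟨⟨tOver_inr.2 hx, tOver_inr.2 hy⟩, fun i => i.elim0, hp⟩

variable (hcl : ∀ ρ ∈ (baseRules : Set (Rule P)), ∀ q : Query P, q.In N C →
    (ρ q).1 ∈ N ∧ (ρ q).2 ∈ C)

include hcl

theorem cl_mem {n : ℕ} {s t : Fin n ⊕ PName P} {v : Fin n → PName P} {p : P}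
    (hq : Query.In N C ⟨n, .mem s t, v, p⟩) (h : Fmem (tv v s) (tv v t) p) :
    ∃ r ∈ C, r ≤ p ∧ ∃ z ∈ N, ∃ c, El (tv v t) z c ∧ r ≤ c ∧ Feq (tv v s) z r := by
  have h1 : ∃ r : P × PName P, r.1 ≤ p ∧ ∃ c, El (tv v t) r.2 c ∧ r.1 ≤ c ∧
      Feq (tv v s) r.2 r.1 := by
    obtain ⟨r, hr, z, c, hz, hc, hf⟩ := fmem_iff.1 h p le_rfl
    exact ⟨(r, z), hr, c, hz, hc, hf⟩
  have h2 := hcl rMem (by simp [baseRules]) _ hq
  unfold rMem at h2
  simp only [dif_pos h1] at h2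
  obtain ⟨h3, h4⟩ := h2
  have h5 := h1.choose_spec
  exact ⟨_, h4, h5.1, _, h3, h5.2⟩

theorem cl_eq {n : ℕ} {s t : Fin n ⊕ PName P} {v : Fin n → PName P} {p : P}
    (hq : Query.In N C ⟨n, .eq s t, v, p⟩) (h : ¬ Feq (tv v s) (tv v t) p) :
    ∃ r ∈ C, r ≤ p ∧ ∃ z ∈ N, Wit (tv v s) (tv v t) z r ∨ Wit (tv v t) (tv v s) z r := by
  have h1 : ∃ r : P × PName P, r.1 ≤ p ∧
      (Wit (tv v s) (tv v t) r.2 r.1 ∨ Wit (tv v t) (tv v s) r.2 r.1) := by
    obtain ⟨r, hr, z, hz⟩ := exists_wit h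
    exact ⟨(r, z), hr, hz⟩
  have h2 := hcl rEq (by simp [baseRules]) _ hq
  unfold rEq at h2
  simp only [dif_pos h1] at h2
  obtain ⟨h3, h4⟩ := h2
  have h5 := h1.choose_spec
  exact ⟨_, h4, h5.1, _, h3, h5.2⟩

theorem cl_ex {n : ℕ} {φ : Fml (PName P) (n + 1)} {v : Fin n → PName P} {p : P}
    (hq : Query.In N C ⟨n, .ex φ, v, p⟩) (h : Forces (.ex φ) v p) :
    ∃ r ∈ C, r ≤ p ∧ ∃ z ∈ N, Forces φ (Fin.cons z v) r := by
  have h1 : ∃ r : P × PName P, r.1 ≤ p ∧ Forces φ (Fin.cons r.2 v) r.1 := by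
    obtain ⟨r, hr, z, hz⟩ := h p le_rfl
    exact ⟨(r, z), hr, hz⟩
  have h2 := hcl rEx (by simp [baseRules]) _ hq
  unfold rEx at h2
  simp only [dif_pos h1] at h2
  obtain ⟨h3, h4⟩ := h2
  have h5 := h1.choose_spec
  exact ⟨_, h4, h5.1, _, h3, h5.2⟩

theorem cl_dec {n : ℕ} {φ : Fml (PName P) n} {v : Fin n → PName P} {p : P}
    (hq : Query.In N C ⟨n, φ, v, p⟩) (h : ∃ r ≤ p, Forces φ v r) :
    ∃ r ∈ C, r ≤ p ∧ Forces φ v r := by
  have h1 : ∃ r, r ≤ p ∧ Forces φ v r := h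
  have h2 := hcl rDec (by simp [baseRules]) _ hq
  unfold rDec at h2
  simp only [dif_pos h1] at h2
  have h5 := h1.choose_spec
  exact ⟨_, h2.2, h5.1, h5.2⟩

theorem exists_gen_below (q : Query P) (hq : q.In N C) : ∃ r ∈ C, r ≤ q.p ∧
    (Forces q.φ q.v r ∨ ∀ s ≤ r, ¬ Forces q.φ q.v s) ∧ Gen N q.φ q.v r := by
  by_cases h : ∃ r ≤ q.p, Forces q.φ q.v r
  · obtain ⟨n, φ, v, p⟩ := q
    obtain ⟨r, hr, hrp, hf⟩ := cl_dec hcl hq h
    have hq' : Query.In N C ⟨n, φ, v, r⟩ := ⟨hq.1, hq.2.1, hr⟩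
    cases φ with
    | mem s t =>
      obtain ⟨r', hr', h1, h2⟩ := cl_mem hcl hq' hf
      exact ⟨r', hr', h1.trans hrp, Or.inl (Forces.mono hf h1), fun _ => h2⟩
    | eq s t => exact ⟨r, hr, hrp, Or.inl hf, Or.inl hf⟩
    | neg φ => exact ⟨r, hr, hrp, Or.inl hf, trivial⟩
    | and φ ψ => exact ⟨r, hr, hrp, Or.inl hf, trivial⟩
    | ex φ =>
      obtain ⟨r', hr', h1, h2⟩ := cl_ex hcl hq' hf
      exact ⟨r', hr', h1.trans hrp, Or.inl (Forces.mono hf h1), fun _ => h2⟩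
  · push Not at h
    obtain ⟨n, φ, v, p⟩ := q
    cases φ with
    | mem s t => exact ⟨p, hq.2.2, le_rfl, Or.inr h, fun h1 => absurd h1 (h p le_rfl)⟩
    | eq s t =>
      obtain ⟨r, hr, h1, h2⟩ := cl_eq hcl hq (h p le_rfl)
      exact ⟨r, hr, h1, Or.inr fun s hs => h s (hs.trans h1), Or.inr h2⟩
    | neg φ => exact ⟨p, hq.2.2, le_rfl, Or.inr h, trivial⟩
    | and φ ψ => exact ⟨p, hq.2.2, le_rfl, Or.inr h, trivial⟩
    | ex φ => exact ⟨p, hq.2.2, le_rfl, Or.inr h, fun h1 => absurd h1 (h p le_rfl)⟩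

end closure

/-- Existence of generic packages. -/
theorem exists_pkg (R : Set (Rule P)) (hR : R.Countable) (A : Set (PName P)) (hA : A.Countable)
    (p₀ : P) : ∃ π : Pkg P, A ⊆ π.N ∧ π.g 0 = p₀ ∧
      ∀ ρ ∈ R, ∀ q : Query P, q.In π.N π.C → (ρ q).1 ∈ π.N ∧ (ρ q).2 ∈ π.C := by
  have hb : (baseRules : Set (Rule P)).Countable := by
    unfold baseRules
    exact Set.Finite.countable (Set.toFinite _)
  obtain ⟨N, C, hAN, hBC, hN, hC, hcl⟩ := exists_hull (R ∪ baseRules) (hR.union hb)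
    (A ∪ {check ZFSet.omega}) (hA.union (Set.countable_singleton _)) {p₀}
    (Set.countable_singleton _)
  have hcl' : ∀ ρ ∈ (baseRules : Set (Rule P)), ∀ q : Query P, q.In N C →
      (ρ q).1 ∈ N ∧ (ρ q).2 ∈ C := fun ρ hρ => hcl ρ (Or.inr hρ)
  obtain ⟨g, h0, h1, h2, h3⟩ := exists_generic {q : Query P | q.In N C}
    (countable_queries hN hC)
    (fun q r => (Forces q.φ q.v r ∨ ∀ s ≤ r, ¬ Forces q.φ q.v s) ∧ Gen N q.φ q.v r) C
    (fun q hq p hp => exists_gen_below hcl' ⟨q.n, q.φ, q.v, p⟩ ⟨hq.1, hq.2.1, hp⟩) p₀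
    (hBC rfl)
  refine ⟨⟨N, C, g, hN, hcl', hAN (Or.inr rfl), h1, h2, ?_⟩, fun x hx => hAN (Or.inl hx), h0,
    fun ρ hρ => hcl ρ (Or.inl hρ)⟩
  rintro q ⟨hq1, hq2⟩
  obtain ⟨n, hn⟩ := h3 ⟨q.n, q.φ, q.v, p₀⟩ ⟨hq1, hq2, hBC rfl⟩
  exact ⟨n, hn⟩

end Pool.Agent.W868
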