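import Pool.Agent.W868.BFm

/-!
# The sentence
-/

set_option autoImplicit false
set_option linter.unreachableTactic false
set_option linter.unusedTactic false

namespace Pool.Agent.W868

open ZFSet (pair)

namespace BF

variable {n m : ℕ}

/-- For all numbers. -/
def allN (φ : BF (n + 1) m) : BF n m := .neg (.exN (.neg φ))

/-- Implication. -/
def imp (φ ψ : BF n m) : BF n m := .neg (.and φ (.neg ψ))

/-- Equivalence. -/
def iff (φ ψ : BF n m) : BF n m := .and (imp φ ψ) (imp ψ φ)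

/-- There is an element of the special sort. -/
def exA (φ : BF n (m + 1)) : BF n m := .exV (.and (.sp 2 (Fin.last m)) φ)

/-- For all elements of the special sort. -/
def allA (φ : BF n (m + 1)) : BF n m := .neg (exA (.neg φ))

end BF

section

variable {J E a D c : ZFSet.{0}} {n m : ℕ} {v : Fin n → ZFSet.{0}} {d : ℕ → ZFSet.{0}}

theorem bsat_allN {φ : BF (n + 1) m} : BSat J E a D c φ.allN v d ↔
    ∀ k ∈ ZFSet.omega, BSat J E a D c φ (Fin.cons k v) d := by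
  simp only [BF.allN, BSat, not_exists, not_and, not_not]

theorem bsat_imp {φ ψ : BF n m} : BSat J E a D c (φ.imp ψ) v d ↔
    (BSat J E a D c φ v d → BSat J E a D c ψ v d) := by
  simp only [BF.imp, BSat, not_and, not_not]

theorem bsat_iff {φ ψ : BF n m} : BSat J E a D c (φ.iff ψ) v d ↔
    (BSat J E a D c φ v d ↔ BSat J E a D c ψ v d) := by
  simp only [BF.iff, BSat, bsat_imp]
  exact ⟨fun h => ⟨h.1, h.2⟩, fun h => ⟨h.1, h.2⟩⟩

theorem bsat_exA {φ : BF n (m + 1)} : BSat J E a D c φ.exA v d ↔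
    ∃ x ∈ D, pair x (sq J 2) ∈ c ∧ BSat J E a D c φ v (Function.update d m x) := by
  simp only [BF.exA, BSat, Fin.val_last, Function.update_self]

theorem bsat_allA {φ : BF n (m + 1)} : BSat J E a D c φ.allA v d ↔
    ∀ x ∈ D, pair x (sq J 2) ∈ c → BSat J E a D c φ v (Function.update d m x) := by
  simp only [BF.allA, BSat, bsat_exA, not_exists, not_and, not_not]

end

/-! ### Formulas of set theory in a countable structure -/

/-- Truth in the structure `(ω, R)`. -/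
def SatR (R : ZFSet.{0} → ZFSet.{0} → Prop) : {n : ℕ} → Fml Empty n → (Fin n → ZFSet.{0}) → Prop
  | _, .mem s t, v => R (Sum.elim v Empty.elim s) (Sum.elim v Empty.elim t)
  | _, .eq s t, v => Sum.elim v Empty.elim s = Sum.elim v Empty.elim t
  | _, .neg φ, v => ¬ SatR R φ v
  | _, .and φ ψ, v => SatR R φ v ∧ SatR R ψ v
  | _, .ex φ, v => ∃ k ∈ ZFSet.omega, SatR R φ (Fin.cons k v)

/-- The translation. -/
def trl {m : ℕ} (y : Fin m) : {n : ℕ} → Fml Empty n → BF n m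
  | _, .mem (Sum.inl i) (Sum.inl j) => .cc i j y
  | _, .eq (Sum.inl i) (Sum.inl j) => .eqn i j
  | _, .neg φ => .neg (trl y φ)
  | _, .and φ ψ => .and (trl y φ) (trl y ψ)
  | _, .ex φ => .exN (trl y φ)

theorem bsat_trl {J E a D c : ZFSet.{0}} {m : ℕ} (y : Fin m) {d : ℕ → ZFSet.{0}} : {n : ℕ} →
    (φ : Fml Empty n) → (v : Fin n → ZFSet.{0}) → (BSat J E a D c (trl y φ) v d ↔
      SatR (fun k l => pair (d y) (jj J k l) ∈ c) φ v)
  | _, .mem (Sum.inl i) (Sum.inl j), v => Iff.rfl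
  | _, .eq (Sum.inl i) (Sum.inl j), v => Iff.rfl
  | _, .neg φ, v => not_congr (bsat_trl y φ v)
  | _, .and φ ψ, v => and_congr (bsat_trl y φ v) (bsat_trl y ψ v)
  | _, .ex φ, v => exists_congr fun _ => and_congr_right fun _ => bsat_trl y φ _

theorem satR_congr {R R' : ZFSet.{0} → ZFSet.{0} → Prop}
    (h : ∀ k ∈ ZFSet.omega, ∀ l ∈ ZFSet.omega, (R k l ↔ R' k l)) : {n : ℕ} →
    (φ : Fml Empty n) → (v : Fin n → ZFSet.{0}) → (∀ i, v i ∈ ZFSet.omega) →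
    (SatR R φ v ↔ SatR R' φ v)
  | _, .mem (Sum.inl i) (Sum.inl j), v, hv => h _ (hv i) _ (hv j)
  | _, .eq (Sum.inl i) (Sum.inl j), v, hv => Iff.rfl
  | _, .neg φ, v, hv => not_congr (satR_congr h φ v hv)
  | _, .and φ ψ, v, hv => and_congr (satR_congr h φ v hv) (satR_congr h ψ v hv)
  | _, .ex φ, v, hv => exists_congr fun k => and_congr_right fun hk => satR_congr h φ _ (by
      intro i
      refine Fin.cases ?_ (fun i => ?_) i
      · exact hk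
      · exact hv i)

/-! ### The statement about reals -/

/-- The number `a` represents the set `A`, and `(ω, Ry)` is a model of the statement that all
sets are constructible. -/
def Th (ψ : Fml Empty 3) (Ry Rg : ZFSet.{0} → ZFSet.{0} → Prop) (a : ZFSet.{0}) : Prop :=
  ∃ b ∈ ZFSet.omega, ∃ b' ∈ ZFSet.omega, b' = a ∧ Rg b' b ∧ ∀ u ∈ ZFSet.omega,
    ∃ f ∈ ZFSet.omega, SatR Ry (ψ.subst fun i => Sum.inl ((![3, 1, 0] : Fin 3 → Fin 4) i))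
      ![f, u, b', b]

/-- The structure `(ω, Ry)` is extensional, `Rg` is an embedding of `(ω, E)` as a transitive
substructure, and `Rx` is represented. -/
def Bd (Rx Ry Rg : ZFSet.{0} → ZFSet.{0} → Prop) (E : ZFSet.{0}) : Prop :=
  (∀ k ∈ ZFSet.omega, ∀ l ∈ ZFSet.omega, (∀ n ∈ ZFSet.omega, (Ry n k ↔ Ry n l)) → k = l) ∧
  (∀ m ∈ ZFSet.omega, ∃ n ∈ ZFSet.omega, Rg m n) ∧
  (∀ m ∈ ZFSet.omega, ∀ m' ∈ ZFSet.omega, ∀ n ∈ ZFSet.omega, ∀ n' ∈ ZFSet.omega,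
    Rg m n → Rg m' n' → (pair m m' ∈ E ↔ Ry n n')) ∧
  (∀ m ∈ ZFSet.omega, ∀ n ∈ ZFSet.omega, ∀ n' ∈ ZFSet.omega,
    Rg m n → Ry n' n → ∃ m' ∈ ZFSet.omega, Rg m' n') ∧
  (∃ m ∈ ZFSet.omega, ∀ k ∈ ZFSet.omega, (Ry k m ↔ ∃ n ∈ ZFSet.omega, Rx n n ∧ Rg n k))

/-- The set of the `n` with `Rz n n` is empty or has an `Ry`-minimal element. -/
def Wf (Ry Rz : ZFSet.{0} → ZFSet.{0} → Prop) : Prop :=
  (∃ n ∈ ZFSet.omega, Rz n n) → ∃ n ∈ ZFSet.omega, Rz n n ∧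
    ∀ k ∈ ZFSet.omega, Ry k n → ¬ Rz k k

/-- The statement about the reals `x` with `P x`, where `R x` is the relation coded by `x`. -/
def Sg (ψ : Fml Empty 3) (P : ZFSet.{0} → Prop) (R : ZFSet.{0} → ZFSet.{0} → ZFSet.{0} → Prop)
    (E a : ZFSet.{0}) : Prop :=
  ∀ x, P x → ∃ y, P y ∧ ∃ g, P g ∧ Bd (R x) (R y) (R g) E ∧ Th ψ (R y) (R g) a ∧
    ∀ z, P z → Wf (R y) (R z)

theorem bd_congr {Rx Ry Rg Rx' Ry' Rg' : ZFSet.{0} → ZFSet.{0} → Prop} {E : ZFSet.{0}}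
    (hx : ∀ k ∈ ZFSet.omega, ∀ l ∈ ZFSet.omega, (Rx k l ↔ Rx' k l))
    (hy : ∀ k ∈ ZFSet.omega, ∀ l ∈ ZFSet.omega, (Ry k l ↔ Ry' k l))
    (hg : ∀ k ∈ ZFSet.omega, ∀ l ∈ ZFSet.omega, (Rg k l ↔ Rg' k l))
    (h : Bd Rx Ry Rg E) : Bd Rx' Ry' Rg' E := by
  obtain ⟨h1, h2, h3, h4, h5⟩ := h
  refine ⟨fun k hk l hl h => h1 k hk l hl fun n hn => ?_, fun m hm => ?_,
    fun m hm m' hm' n hn n' hn' h6 h7 => ?_, fun m hm n hn n' hn' h6 h7 => ?_, ?_⟩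
  · rw [hy n hn k hk, hy n hn l hl]
    exact h n hn
  · obtain ⟨n, hn, h6⟩ := h2 m hm
    exact ⟨n, hn, (hg m hm n hn).1 h6⟩
  · rw [← hy n hn n' hn']
    exact h3 m hm m' hm' n hn n' hn' ((hg _ hm _ hn).2 h6) ((hg _ hm' _ hn').2 h7)
  · obtain ⟨m', hm', h8⟩ := h4 m hm n hn n' hn' ((hg _ hm _ hn).2 h6) ((hy _ hn' _ hn).2 h7)
    exact ⟨m', hm', (hg _ hm' _ hn').1 h8⟩
  · obtain ⟨m, hm, h6⟩ := h5
    refine ⟨m, hm, fun k hk => ?_⟩
    rw [← hy k hk m hm, h6 k hk]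
    refine exists_congr fun n => and_congr_right fun hn => ?_
    rw [hx n hn n hn, hg n hn k hk]

theorem th_congr {ψ : Fml Empty 3} {Ry Rg Ry' Rg' : ZFSet.{0} → ZFSet.{0} → Prop} {a : ZFSet.{0}}
    (hy : ∀ k ∈ ZFSet.omega, ∀ l ∈ ZFSet.omega, (Ry k l ↔ Ry' k l))
    (hg : ∀ k ∈ ZFSet.omega, ∀ l ∈ ZFSet.omega, (Rg k l ↔ Rg' k l))
    (h : Th ψ Ry Rg a) : Th ψ Ry' Rg' a := by
  obtain ⟨b, hb, b', hb', h1, h2, h3⟩ := h
  refine ⟨b, hb, b', hb', h1, (hg _ hb' _ hb).1 h2, fun u hu => ?_⟩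
  obtain ⟨f, hf, h4⟩ := h3 u hu
  refine ⟨f, hf, (satR_congr hy _ _ ?_).1 h4⟩
  intro i
  fin_cases i
  exacts [hf, hu, hb', hb]

theorem wf_congr {Ry Rz Ry' Rz' : ZFSet.{0} → ZFSet.{0} → Prop}
    (hy : ∀ k ∈ ZFSet.omega, ∀ l ∈ ZFSet.omega, (Ry k l ↔ Ry' k l))
    (hz : ∀ k ∈ ZFSet.omega, ∀ l ∈ ZFSet.omega, (Rz k l ↔ Rz' k l))
    (h : Wf Ry Rz) : Wf Ry' Rz' := by
  rintro ⟨n, hn, h1⟩
  obtain ⟨n', hn', h2, h3⟩ := h ⟨n, hn, (hz _ hn _ hn).2 h1⟩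
  exact ⟨n', hn', (hz _ hn' _ hn').1 h2, fun k hk h4 h5 =>
    h3 k hk ((hy _ hk _ hn').2 h4) ((hz _ hk _ hk).2 h5)⟩

theorem sg_congr {ψ : Fml Empty 3} {P P' : ZFSet.{0} → Prop}
    {R R' : ZFSet.{0} → ZFSet.{0} → ZFSet.{0} → Prop} {E a : ZFSet.{0}}
    (h1 : ∀ x, P x → ∃ x', P' x' ∧ ∀ k ∈ ZFSet.omega, ∀ l ∈ ZFSet.omega, (R x k l ↔ R' x' k l))
    (h2 : ∀ x', P' x' → ∃ x, P x ∧ ∀ k ∈ ZFSet.omega, ∀ l ∈ ZFSet.omega, (R x k l ↔ R' x' k l))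
    (h : Sg ψ P R E a) : Sg ψ P' R' E a := by
  intro x' hx'
  obtain ⟨x, hx, hxx⟩ := h2 x' hx'
  obtain ⟨y, hy, g, hg, h3, h4, h5⟩ := h x hx
  obtain ⟨y', hy', hyy⟩ := h1 y hy
  obtain ⟨g', hg', hgg⟩ := h1 g hg
  refine ⟨y', hy', g', hg', bd_congr hxx hyy hgg h3, th_congr hyy hgg h4, fun z' hz' => ?_⟩
  obtain ⟨z, hz, hzz⟩ := h2 z' hz'
  exact wf_congr hyy hzz (h5 z hz)

/-! ### The formulas -/

open BF

/-- The formula for the first conjunct of `Bd`. -/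
def fB1 : BF 0 3 := allN (allN (imp (allN (iff (.cc 0 2 1) (.cc 0 1 1))) (.eqn 1 0)))

/-- The formula for the second conjunct of `Bd`. -/
def fB2 : BF 0 3 := allN (.exN (.cc 1 0 2))

/-- The formula for the third conjunct of `Bd`. -/
def fB3 : BF 0 3 := allN (allN (allN (allN (imp (.cc 3 1 2) (imp (.cc 2 0 2)
  (iff (.ee 3 2) (.cc 1 0 1)))))))

/-- The formula for the fourth conjunct of `Bd`. -/
def fB4 : BF 0 3 := allN (allN (allN (imp (.cc 2 1 2) (imp (.cc 0 1 1) (.exN (.cc 0 1 2))))))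

/-- The formula for the fifth conjunct of `Bd`. -/
def fB5 : BF 0 3 := .exN (allN (iff (.cc 0 1 1) (.exN (.and (.cc 0 0 0) (.cc 0 1 2)))))

/-- The formula for `Th`. -/
def fTh (ψ : Fml Empty 3) : BF 0 3 := .exN (.exN (.and (.num 0) (.and (.cc 0 1 2)
  (allN (.exN (trl 1 (ψ.subst fun i => Sum.inl ((![3, 1, 0] : Fin 3 → Fin 4) i))))))))

/-- The formula for `Wf`. -/
def fWf : BF 0 4 := imp (.exN (.cc 0 0 3)) (.exN (.and (.cc 0 0 3)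
  (allN (imp (.cc 0 1 1) (.neg (.cc 0 0 3))))))

/-- The formula for `Sg`. -/
def fSg (ψ : Fml Empty 3) : BF 0 0 := allA (exA (exA (.and (.and fB1 (.and fB2 (.and fB3
  (.and fB4 fB5)))) (.and (fTh ψ) (allA fWf)))))

/-- There is an element of the predicate. -/
def fP (a : ℕ) : BF 0 0 := .exV (.sp a 0)

/-- There is a new real. -/
def fNew : BF 0 0 := .exV (.and (.neg (.sp 2 0)) (allA (.exN (.exN
  (.neg (iff (.cc 1 0 0) (.cc 1 0 1)))))))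

/-- The sentence. -/
def fPhi (ψ : Fml Empty 3) : BF 0 0 := .neg (.and (fP 0) (.and (fP 1) (.and (.neg fNew) (fSg ψ))))

section

variable {J E a D c : ZFSet.{0}} {v : Fin 0 → ZFSet.{0}} {d : ℕ → ZFSet.{0}}

theorem bsat_B : BSat J E a D c (.and fB1 (.and fB2 (.and fB3 (.and fB4 fB5)))) v d ↔
    Bd (fun k l => pair (d 0) (jj J k l) ∈ c) (fun k l => pair (d 1) (jj J k l) ∈ c)
      (fun k l => pair (d 2) (jj J k l) ∈ c) E := by
  unfold Bd fB1 fB2 fB3 fB4 fB5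
  simp only [bsat_allN, bsat_imp, bsat_iff, BSat]
  exact Iff.rfl

theorem bsat_Th {ψ : Fml Empty 3} : BSat J E a D c (fTh ψ) v d ↔
    Th ψ (fun k l => pair (d 1) (jj J k l) ∈ c) (fun k l => pair (d 2) (jj J k l) ∈ c) a := by
  unfold Th fTh
  simp only [bsat_allN, BSat, bsat_trl]
  have h : ∀ f u b' b : ZFSet.{0}, (Fin.cons f (Fin.cons u (Fin.cons b' (Fin.cons b v))) :
      Fin 4 → ZFSet.{0}) = ![f, u, b', b] := by
    intro f u b' b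
    funext i
    fin_cases i <;> rfl
  simp only [h]
  exact Iff.rfl

theorem bsat_Wf : BSat J E a D c fWf v d ↔
    Wf (fun k l => pair (d 1) (jj J k l) ∈ c) (fun k l => pair (d 3) (jj J k l) ∈ c) := by
  unfold Wf fWf
  simp only [bsat_allN, bsat_imp, BSat]
  exact Iff.rfl

theorem bsat_Sg {ψ : Fml Empty 3} : BSat J E a D c (fSg ψ) v d ↔
    Sg ψ (fun x => x ∈ D ∧ pair x (sq J 2) ∈ c) (fun x k l => pair x (jj J k l) ∈ c) E a := by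
  unfold fSg Sg
  simp only [bsat_allA, bsat_exA]
  constructor
  · intro h x hx
    obtain ⟨y, hy, hyA, g, hg, hgA, h1, h2, h3⟩ := h x hx.1 hx.2
    rw [bsat_B] at h1
    rw [bsat_Th] at h2
    refine ⟨y, ⟨hy, hyA⟩, g, ⟨hg, hgA⟩, h1, h2, fun z hz => ?_⟩
    rw [bsat_allA] at h3
    have h4 := h3 z hz.1 hz.2
    rw [bsat_Wf] at h4
    exact h4
  · intro h x hx hxA
    obtain ⟨y, ⟨hy, hyA⟩, g, ⟨hg, hgA⟩, h1, h2, h3⟩ := h x ⟨hx, hxA⟩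
    refine ⟨y, hy, hyA, g, hg, hgA, bsat_B.2 h1, bsat_Th.2 h2, ?_⟩
    rw [bsat_allA]
    exact fun z hz hzA => bsat_Wf.2 (h3 z ⟨hz, hzA⟩)

/-- The meaning of the sentence. -/
def KK (ψ : Fml Empty 3) (J E a D c : ZFSet.{0}) : Prop :=
  ¬ ((∃ x ∈ D, pair x (sq J 0) ∈ c) ∧ (∃ x ∈ D, pair x (sq J 1) ∈ c) ∧
    (¬ ∃ x ∈ D, pair x (sq J 2) ∉ c ∧ ∀ y ∈ D, pair y (sq J 2) ∈ c →
      ∃ k ∈ ZFSet.omega, ∃ l ∈ ZFSet.omega, ¬ (pair x (jj J k l) ∈ c ↔ pair y (jj J k l) ∈ c)) ∧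
    Sg ψ (fun x => x ∈ D ∧ pair x (sq J 2) ∈ c) (fun x k l => pair x (jj J k l) ∈ c) E a)

theorem bsat_phi {ψ : Fml Empty 3} : BSat J E a D c (fPhi ψ) v d ↔ KK ψ J E a D c := by
  unfold fPhi KK
  rw [← bsat_Sg (J := J) (D := D) (c := c) (E := E) (a := a) (v := v) (d := d) (ψ := ψ)]
  have h1 : ∀ i, BSat J E a D c (fP i) v d ↔ ∃ x ∈ D, pair x (sq J i) ∈ c := fun i => Iff.rfl
  have h2 : BSat J E a D c fNew v d ↔ ∃ x ∈ D, pair x (sq J 2) ∉ c ∧ ∀ y ∈ D,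
      pair y (sq J 2) ∈ c → ∃ k ∈ ZFSet.omega, ∃ l ∈ ZFSet.omega,
        ¬ (pair x (jj J k l) ∈ c ↔ pair y (jj J k l) ∈ c) := by
    unfold fNew
    simp only [BSat, bsat_allA, bsat_iff]
    exact Iff.rfl
  rw [← h1, ← h1, ← h2]
  exact Iff.rfl

end

end Pool.Agent.W868
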