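import Pool.Agent.W868.Eo
import Pool.Agent.W868.Phi

/-!
# Unions of small families, and elementary submodels
-/

set_option autoImplicit false
set_option linter.unreachableTactic false
set_option linter.unusedTactic false

namespace Pool.Agent.W868

open ZFSet (pair)

theorem ap_func {x y f a b : ZFSet.{0}} (h : ZFSet.IsFunc x y f) (hab : pair a b ∈ f) :
    ap f a = b := by
  have h1 : im sn (ZFSet.sep (fun q => fs q = a) f) = {b} := by
    ext z
    rw [mem_im, ZFSet.mem_singleton]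
    constructor
    · rintro ⟨p, hp, rfl⟩
      rw [ZFSet.mem_sep] at hp
      obtain ⟨h2, h3⟩ := hp
      obtain ⟨u, -, w, -, rfl⟩ := ZFSet.mem_prod.1 (h.1 h2)
      rw [fs_pair] at h3
      rw [sn_pair]
      subst h3
      exact fun_unique h h2 hab
    · rintro rfl
      refine ⟨pair a z, ZFSet.mem_sep.2 ⟨hab, ?_⟩, ?_⟩
      · rw [fs_pair]
      · rw [sn_pair]
  rw [ap, h1, ZFSet.sUnion_singleton]

theorem IsZF.ap' {M : Set ZFSet.{0}} (hM : IsZF M) {m : ℕ}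
    {F G : (Fin m → ZFSet.{0}) → ZFSet.{0}} (hF : DfnF M M F) (hG : DfnF M M G) :
    DfnF M M fun w => ap (F w) (G w) := by
  refine hM.base.sUnion' (hM.im' (h := fun q _ => sn q) (hM.sep' (Q := fun q w => fs q = G w) hF
    ?_) (hM.sn' (DfnF.proj 0)))
  exact Dfn.eq (hM.fs' (DfnF.proj 0)) hG.tail

section

variable {C : Set ZFSet.{0}} (hM : IsZF C) {e : ZFSet.{0} → ZFSet.{0}} (hg : GC C e)
  {κ : ZFSet.{0}} (hκ : κ ∈ C) (hκo : κ.IsOrdinal) (hω : ZFSet.omega ⊆ κ)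

include hM hκ hκo hω

theorem Inj.pair_into {x : ZFSet.{0}} (hx : x ∈ C) (h : Inj C x κ) :
    Inj C (ZFSet.prod x x) κ :=
  Inj.trans hM (hM.prod_mem hx hx) hκ (Inj.prod hM hx hx hκ hκ h h) (sq_inj hM hκ hκo hω)

include hg

theorem Inj.iUnion {x : ZFSet.{0}} (hx : x ∈ C) (h : Inj C x κ) {F : ZFSet.{0} → ZFSet.{0}}
    (hF : DfnF C C fun w : Fin 1 → ZFSet.{0} => F (w 0)) (hF' : ∀ u ∈ x, Inj C (F u) κ) :
    Inj C (ZFSet.sUnion (im F x)) κ := by
  have hB := hM.base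
  have hU : ZFSet.sUnion (im F x) ∈ C := hM.union _ (hM.im_mem hx hF)
  -- the choice of the injections
  have hc : DfnF C C fun w : Fin 1 → ZFSet.{0} => chs C e fun f => IsInj (F (w 0)) κ f := by
    refine hM.chs' hg (Q := fun f w => IsInj (F (w 0)) κ f) ?_
    exact hB.isInj' (DfnF.comp1 (f := F) hF (DfnF.proj 1)) (DfnF.const hκ) (DfnF.proj 0)
  have hi : DfnF C C fun w : Fin 1 → ZFSet.{0} => chs C e fun u => u ∈ x ∧ w 0 ∈ F u := by
    refine hM.chs' hg (Q := fun u w => u ∈ x ∧ w 0 ∈ F u) ?_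
    exact (Dfn.mem (DfnF.proj 0) (DfnF.const hx)).and
      (Dfn.mem (DfnF.proj 1) (DfnF.comp1 (f := F) hF (DfnF.proj 0)))
  set c : ZFSet.{0} → ZFSet.{0} := fun u => chs C e fun f => IsInj (F u) κ f with hcdef
  set i : ZFSet.{0} → ZFSet.{0} := fun y => chs C e fun u => u ∈ x ∧ y ∈ F u with hidef
  have hcs : ∀ u ∈ x, c u ∈ C ∧ IsInj (F u) κ (c u) := by
    intro u hu
    obtain ⟨f, hf, h1⟩ := hF' u hu
    exact chs_spec ⟨f, hf, h1⟩
  have his : ∀ y ∈ ZFSet.sUnion (im F x), i y ∈ x ∧ y ∈ F (i y) := by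
    intro y hy
    obtain ⟨z, hz, hyz⟩ := ZFSet.mem_sUnion.1 hy
    obtain ⟨u, hu, rfl⟩ := mem_im.1 hz
    exact (chs_spec (C := C) (e := e) (P := fun u => u ∈ x ∧ y ∈ F u)
      ⟨u, hM.trans _ hx _ hu, hu, hyz⟩).2
  have hd : DfnF C C fun w : Fin 1 → ZFSet.{0} => pair (i (w 0)) (ap (c (i (w 0))) (w 0)) := by
    refine hB.pair' hi (hM.ap' ?_ (DfnF.proj 0))
    exact DfnF.comp1 (f := c) hc hi
  have hkey : ∀ y ∈ ZFSet.sUnion (im F x), ∃ b ∈ κ, pair y b ∈ c (i y) ∧ ap (c (i y)) y = b := by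
    intro y hy
    obtain ⟨h1, h2⟩ := his y hy
    obtain ⟨h3, h4⟩ := hcs _ h1
    obtain ⟨b, hb, h5⟩ := fun_exists h4.1 h2
    exact ⟨b, hb, h5, ap_func h4.1 h5⟩
  have h1 : Inj C (ZFSet.sUnion (im F x)) (ZFSet.prod x κ) := by
    refine Inj.of_fun hM hU (hM.prod_mem hx hκ) (h := fun y => pair (i y) (ap (c (i y)) y)) hd
      ?_ ?_
    · intro y hy
      obtain ⟨b, hb, -, h5⟩ := hkey y hy
      rw [h5]
      exact ZFSet.pair_mem_prod.2 ⟨(his y hy).1, hb⟩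
    · intro y hy y' hy' h2
      obtain ⟨h3, h4⟩ := ZFSet.pair_inj.1 h2
      obtain ⟨b, hb, h5, h6⟩ := hkey y hy
      obtain ⟨b', hb', h7, h8⟩ := hkey y' hy'
      rw [h6, h8] at h4
      subst h4
      rw [← h3] at h7
      exact (hcs _ (his y hy).1).2.2 _ _ _ h5 h7
  have h2 : Inj C (ZFSet.prod x κ) (ZFSet.prod κ κ) :=
    Inj.prod hM hx hκ hκ hκ h (Inj.of_subset hM hκ hκ fun _ h => h)
  exact Inj.trans hM hU hκ h1
    (Inj.trans hM (hM.prod_mem hx hκ) hκ h2 (sq_inj hM hκ hκo hω))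

theorem Inj.union {x y : ZFSet.{0}} (hx : x ∈ C) (hy : y ∈ C) (h1 : Inj C x κ)
    (h2 : Inj C y κ) : Inj C (x ∪ y) κ := by
  have h3 : Inj C {x, y} κ :=
    Inj.trans hM (hM.pairing _ hx _ hy) hκ (upair_countable hM hx hy)
      (Inj.of_subset hM hM.infinity hκ hω)
  have h4 := Inj.iUnion hM hg hκ hκo hω (hM.pairing _ hx _ hy) h3 (F := fun u => u)
    (DfnF.proj 0) (by
      intro u hu
      rcases ZFSet.mem_pair.1 hu with rfl | rfl
      · exact h1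
      · exact h2)
  have h5 : im (fun u => u) {x, y} = {x, y} := by
    ext z
    rw [mem_im]
    exact ⟨fun ⟨p, hp, h⟩ => h ▸ hp, fun h => ⟨z, h, rfl⟩⟩
  rw [h5, ZFSet.sUnion_pair] at h4
  exact h4

theorem Inj.single {x : ZFSet.{0}} (hx : x ∈ C) : Inj C {x} κ := by
  have h := upair_countable hM hx hx
  rw [ZFSet.pair_eq_singleton] at h
  exact Inj.trans hM (hM.single_mem hx) hκ h (Inj.of_subset hM hM.infinity hκ hω)

theorem Inj.insert {x y : ZFSet.{0}} (hx : x ∈ C) (hy : y ∈ C) (h2 : Inj C y κ) :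
    Inj C (insert x y) κ := by
  have h := Inj.union hM hg hκ hκo hω (hM.single_mem hx) hy (Inj.single hM hg hκ hκo hω hx) h2
  have h1 : ({x} ∪ y : ZFSet.{0}) = Insert.insert x y := by
    ext z
    simp
  rwa [h1] at h

theorem Inj.pw {x : ZFSet.{0}} (hx : x ∈ C) (h1 : Inj C x κ) (n : ℕ) : Inj C (pw x n) κ := by
  induction n with
  | zero => exact Inj.single hM hg hκ hκo hω hM.empty_mem
  | succ n ih =>
    have hpw : Pool.Agent.W868.pw x n ∈ C :=
      (dfn_pw hM n (DfnF.proj (0 : Fin 1))).1 (fun _ => x) fun _ => hx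
    exact Inj.trans hM (hM.prod_mem hx hpw) hκ (Inj.prod hM hx hpw hκ hκ h1 ih)
      (sq_inj hM hκ hκo hω)

end

/-! ### Elementary submodels -/

/-- The witnesses for a formula and its subformulas. -/
noncomputable def hb (C : Set ZFSet.{0}) (e : ZFSet.{0} → ZFSet.{0}) :
    {n : ℕ} → Fml ZFSet.{0} n → ZFSet.{0} → ZFSet.{0}
  | _, .mem _ _, _ => ∅
  | _, .eq _ _, _ => ∅
  | _, .neg φ, Y => hb C e φ Y
  | _, .and φ ψ, Y => hb C e φ Y ∪ hb C e ψ Y
  | n, .ex φ, Y => hb C e φ Y ∪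
      im (fun p => chs C e fun a => Sat C id φ (Fin.cons a (ut n p))) (pw Y n)

section

variable {C : Set ZFSet.{0}} (hM : IsZF C) {e : ZFSet.{0} → ZFSet.{0}} (hg : GC C e)

theorem dfn_self : Dfn C C fun w : Fin 1 → ZFSet.{0} => w 0 ∈ C := by
  exact Dfn.tt.congr fun v hv => by simp [hv 0]

include hM hg

theorem dfn_wit {n : ℕ} (φ : Fml ZFSet.{0} (n + 1)) (h : φ.Over C) :
    DfnF C C fun w : Fin 1 → ZFSet.{0} =>
      chs C e fun a => Sat C id φ (Fin.cons a (ut n (w 0))) := by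
  refine hM.chs' hg (Q := fun a w => Sat C id φ (Fin.cons a (ut n (w 0)))) ?_
  have h2 := dfn_sat dfn_self (fun _ h => h) φ h (m := 2)
    (Fin.cons (fun w => w 0) fun i w => ut n (w 1) i) (by
      intro i
      refine Fin.cases ?_ (fun i => ?_) i
      · exact DfnF.proj 0
      · exact dfn_ut hM (DfnF.proj 1) n i)
  refine h2.congr fun w _ => ?_
  have h3 : (fun i => (Fin.cons (fun w => w 0) (fun i w => ut n (w 1) i) :
      Fin (n + 1) → (Fin 2 → ZFSet.{0}) → ZFSet.{0}) i w) = Fin.cons (w 0) (ut n (w 1)) := by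
    funext i
    refine Fin.cases ?_ (fun i => ?_) i
    · rfl
    · rfl
  rw [h3]
  rfl

theorem dfn_hb : {n : ℕ} → (φ : Fml ZFSet.{0} n) → φ.Over C →
    DfnF C C fun w : Fin 1 → ZFSet.{0} => hb C e φ (w 0)
  | _, .mem _ _, _ => DfnF.const hM.empty_mem
  | _, .eq _ _, _ => DfnF.const hM.empty_mem
  | _, .neg φ, h => dfn_hb φ h
  | _, .and φ ψ, h => hM.base.union' (dfn_hb φ h.1) (dfn_hb ψ h.2)
  | n, .ex φ, h => by
    have hB := hM.base
    refine hB.union' (dfn_hb φ h) ?_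
    refine hM.im' (h := fun p _ => chs C e fun a => Sat C id φ (Fin.cons a (ut n p)))
      (dfn_pw hM n (DfnF.proj 0)) ?_
    exact DfnF.comp1 (f := fun p => chs C e fun a => Sat C id φ (Fin.cons a (ut n p)))
      (dfn_wit hM hg φ h) (DfnF.proj 0)

omit hM hg in
theorem CL_of_hb {Y : ℕ → ZFSet.{0}} {H : ZFSet.{0}} (hmono : ∀ k l, k ≤ l → Y k ⊆ Y l)
    (hH : ∀ y ∈ H, ∃ k, y ∈ Y k) : {n : ℕ} → (φ : Fml ZFSet.{0} n) →
    (∀ k, hb C e φ (Y k) ⊆ H) → CL C {x | x ∈ H} φ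
  | _, .mem _ _, _ => trivial
  | _, .eq _ _, _ => trivial
  | _, .neg φ, h => CL_of_hb hmono hH φ h
  | _, .and φ ψ, h =>
    ⟨CL_of_hb hmono hH φ fun k x hx => h k (ZFSet.mem_union.2 (Or.inl hx)),
      CL_of_hb hmono hH ψ fun k x hx => h k (ZFSet.mem_union.2 (Or.inr hx))⟩
  | n, .ex φ, h => by
    refine ⟨CL_of_hb hmono hH φ fun k x hx => h k (ZFSet.mem_union.2 (Or.inl hx)), ?_⟩
    rintro v hv ⟨a, h1, h4⟩
    obtain ⟨k, hk⟩ := exists_common (P := fun k y => y ∈ Y k)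
      (fun x k l hkl hx => hmono k l hkl hx) v fun i => hH _ (hv i)
    have h5 : tup v ∈ pw (Y k) n := mem_pw.2 ⟨v, hk, rfl⟩
    obtain ⟨h6, h7⟩ := chs_spec (C := C) (e := e) (P := fun a =>
      Sat C id φ (Fin.cons a (ut n (tup v)))) ⟨a, h1, by rwa [ut_tup]⟩
    rw [ut_tup] at h7
    refine ⟨chs C e fun a => Sat C id φ (Fin.cons a v), h k (ZFSet.mem_union.2 (Or.inr
      (mem_im.2 ⟨_, h5, ?_⟩))), h7⟩
    rw [ut_tup]

variable {κ : ZFSet.{0}} (hκ : κ ∈ C) (hκo : κ.IsOrdinal) (hω : ZFSet.omega ⊆ κ)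

include hκ hκo hω

theorem small_hb {Y : ZFSet.{0}} (hY : Y ∈ C) (h1 : Inj C Y κ) : {n : ℕ} →
    (φ : Fml ZFSet.{0} n) → φ.Over C → Inj C (hb C e φ Y) κ
  | _, .mem _ _, _ => Inj.of_subset hM hM.empty_mem hκ (ZFSet.empty_subset _)
  | _, .eq _ _, _ => Inj.of_subset hM hM.empty_mem hκ (ZFSet.empty_subset _)
  | _, .neg φ, h => small_hb hY h1 φ h
  | _, .and φ ψ, h => Inj.union hM hg hκ hκo hω
      ((dfn_hb hM hg φ h.1).1 (fun _ => Y) fun _ => hY)
      ((dfn_hb hM hg ψ h.2).1 (fun _ => Y) fun _ => hY) (small_hb hY h1 φ h.1)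
      (small_hb hY h1 ψ h.2)
  | n, .ex φ, h => by
    have hpw : pw Y n ∈ C := (dfn_pw hM n (DfnF.proj (0 : Fin 1))).1 (fun _ => Y) fun _ => hY
    refine Inj.union hM hg hκ hκo hω ((dfn_hb hM hg φ h).1 (fun _ => Y) fun _ => hY)
      (hM.im_mem hpw (dfn_wit hM hg φ h)) (small_hb hY h1 φ h) ?_
    exact Inj.image hM hpw hκ hκo (Inj.pw hM hg hκ hκo hω hY h1 n) (dfn_wit hM hg φ h)

/-- Small elementary submodels. -/
theorem exists_small_hull {a : ZFSet.{0}} (ha : a ∈ C) (h1 : Inj C a κ) {n : ℕ}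
    (φ : Fml ZFSet.{0} n) (hφ : φ.Over C) :
    ∃ H ∈ C, a ⊆ H ∧ Inj C H κ ∧ CL C {x | x ∈ H} φ := by
  have hB := hM.base
  set T : ZFSet.{0} → ZFSet.{0} := fun Y => Y ∪ hb C e φ Y with hT
  have hTd : DfnF C C fun w : Fin 1 → ZFSet.{0} => T (w 0) :=
    hB.union' (DfnF.proj 0) (dfn_hb hM hg φ hφ)
  have hid := dfn_itr hM ha hTd
  have hsmall : ∀ z : ZFSet.{0}, z ⊆ ZFSet.omega → z ∈ C → Inj C (itr T a z) κ := by
    intro z
    induction z using ZFSet.inductionOn with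
    | _ z ih =>
    intro hz hzC
    have h2 : itr T a z = a ∪ ZFSet.sUnion (im (fun u => T (itr T a u)) z) := by
      ext y
      rw [mem_itr, ZFSet.mem_union, ZFSet.mem_sUnion]
      refine or_congr Iff.rfl ?_
      constructor
      · rintro ⟨u, hu, h⟩
        exact ⟨_, mem_im.2 ⟨u, hu, rfl⟩, h⟩
      · rintro ⟨w, hw, h⟩
        obtain ⟨u, hu, rfl⟩ := mem_im.1 hw
        exact ⟨u, hu, h⟩
    have hd2 : DfnF C C fun w : Fin 1 → ZFSet.{0} => T (itr T a (w 0)) :=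
      DfnF.comp1 (f := T) hTd hid
    rw [h2]
    refine Inj.union hM hg hκ hκo hω ha (hM.union _ (hM.im_mem hzC hd2)) h1 ?_
    refine Inj.iUnion hM hg hκ hκo hω hzC ?_ hd2 ?_
    · exact Inj.of_subset hM hzC hκ fun u hu => hω (hz hu)
    · intro u hu
      have huC := hM.trans _ hzC _ hu
      have h3 := ih u hu (isOrdinal_omega.subset_of_mem (hz hu)) huC
      have h4 : itr T a u ∈ C := itr_mem_M hM ha huC hTd
      exact Inj.union hM hg hκ hκo hω h4 ((dfn_hb hM hg φ hφ).1 (fun _ => itr T a u) fun _ => h4)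
        h3 (small_hb hM hg hκ hκo hω h4 h3 φ hφ)
  refine ⟨itr T a ZFSet.omega, itr_mem_M hM ha hM.infinity hTd, itr_base,
    hsmall _ (fun _ h => h) hM.infinity, ?_⟩
  refine CL_of_hb (C := C) (e := e) (Y := fun k => itr T a (nat k))
    (fun k l hkl => itr_mono (nat_subset hkl)) (fun y hy => mem_itr_omega hy) φ ?_
  intro k x hx
  exact itr_step (nat_mem_omega k) (ZFSet.mem_union.2 (Or.inr hx))

end

end Pool.Agent.W868
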