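import Pool.Agent.W868.Str

/-!
# A consequence of the statement
-/

set_option autoImplicit false
set_option linter.unreachableTactic false
set_option linter.unusedTactic false

namespace Pool.Agent.W868

open ZFSet (pair)

/-- `f` is a part of the collapse of `(ω, y)`. -/
def Ac (C : Set ZFSet.{0}) (y f : ZFSet.{0}) : Prop :=
  ∀ p ∈ f, ∃ n ∈ ZFSet.omega, ∃ u ∈ C, p = pair n u ∧
    (∀ w ∈ u, ∃ k ∈ ZFSet.omega, pair k n ∈ y ∧ pair k w ∈ f) ∧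
    ∀ k ∈ ZFSet.omega, pair k n ∈ y → ∃ w ∈ u, pair k w ∈ f

theorem ac_unique {C : Set ZFSet.{0}} {y f f' : ZFSet.{0}} (h : Ac C y f) (h' : Ac C y f') :
    ∀ u n, pair n u ∈ f → ∀ u', pair n u' ∈ f' → u = u' := by
  intro u
  induction u using ZFSet.inductionOn with
  | _ u ih =>
  intro n hn u' hn'
  obtain ⟨n1, hn1, u1, -, h1, h2, h3⟩ := h _ hn
  obtain ⟨rfl, rfl⟩ := ZFSet.pair_inj.1 h1
  obtain ⟨n2, -, u2, -, h4, h5, h6⟩ := h' _ hn'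
  obtain ⟨rfl, rfl⟩ := ZFSet.pair_inj.1 h4
  ext w
  constructor
  · intro hw
    obtain ⟨k, hk, h7, h8⟩ := h2 w hw
    obtain ⟨w', hw', h9⟩ := h6 k hk h7
    rw [ih w hw k h8 w' h9]
    exact hw'
  · intro hw
    obtain ⟨k, hk, h7, h8⟩ := h5 w hw
    obtain ⟨w', hw', h9⟩ := h3 k hk h7
    rw [← ih w' hw' k h9 w h8]
    exact hw'

open Classical in
/-- The collapse. -/
noncomputable def cl (C : Set ZFSet.{0}) (y n : ZFSet.{0}) : ZFSet.{0} :=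
  if h : ∃ u ∈ C, ∃ f ∈ C, Ac C y f ∧ pair n u ∈ f then h.choose else ∅

theorem cl_of {C : Set ZFSet.{0}} {y n u f : ZFSet.{0}} (hu : u ∈ C) (hf : f ∈ C)
    (h : Ac C y f) (hn : pair n u ∈ f) : cl C y n = u := by
  have h1 : ∃ u ∈ C, ∃ f ∈ C, Ac C y f ∧ pair n u ∈ f := ⟨u, hu, f, hf, h, hn⟩
  rw [cl, dif_pos h1]
  obtain ⟨-, f', hf', h2, h3⟩ := h1.choose_spec
  exact ac_unique h2 h _ _ h3 _ hn

section

variable {C : Set ZFSet.{0}} (hM : IsZF C) {y : ZFSet.{0}} (hy : y ∈ C)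

include hM hy

theorem dfn_ac : Dfn C C fun w : Fin 1 → ZFSet.{0} => Ac C y (w 0) := by
  have hB := hM.base
  have hom := hM.infinity
  unfold Ac
  (repeat' first
      | assumption
      | exact DfnF.proj _
      | exact DfnF.const (by assumption)
      | exact DfnF.const' (by first | assumption | trivial) (by first | assumption | trivial)
      | exact Dfn.prop _
      | apply Dfn.not | apply Dfn.and | apply Dfn.or | apply Dfn.imp | apply Dfn.iff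
      | apply hB.bex | apply hB.ball | apply Dfn.ex | apply Dfn.all
      | apply Dfn.eq | apply Dfn.mem | apply hB.pair')

theorem dfn_dom : Dfn C C fun w : Fin 1 → ZFSet.{0} =>
    ∃ u ∈ C, ∃ f ∈ C, Ac C y f ∧ pair (w 0) u ∈ f := by
  have hB := hM.base
  apply Dfn.ex
  apply Dfn.ex
  apply Dfn.and
  · exact Dfn.comp1 (Q := Ac C y) (dfn_ac hM hy) (DfnF.proj 0)
  · exact Dfn.mem (hB.pair' (DfnF.proj 2) (DfnF.proj 1)) (DfnF.proj 0)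

theorem dfn_cl : DfnF C C fun w : Fin 1 → ZFSet.{0} => cl C y (w 0) := by
  have hB := hM.base
  refine DfnF.of_unique (R := fun u v => (∃ f ∈ C, Ac C y f ∧ pair (v 0) u ∈ f) ∨
    (u = ∅ ∧ ¬ ∃ u ∈ C, ∃ f ∈ C, Ac C y f ∧ pair (v 0) u ∈ f)) ?_ ?_
  · apply Dfn.or
    · apply Dfn.ex
      apply Dfn.and
      · exact Dfn.comp1 (Q := Ac C y) (dfn_ac hM hy) (DfnF.proj 0)
      · exact Dfn.mem (hB.pair' (DfnF.proj 2) (DfnF.proj 1)) (DfnF.proj 0)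
    · apply Dfn.and (Dfn.eq (DfnF.proj 0) (DfnF.const hM.empty_mem))
      apply Dfn.not
      exact Dfn.comp1 (Q := fun n => ∃ u ∈ C, ∃ f ∈ C, Ac C y f ∧ pair n u ∈ f)
        (dfn_dom hM hy) (DfnF.proj 1)
  · intro v hv
    by_cases h : ∃ u ∈ C, ∃ f ∈ C, Ac C y f ∧ pair (v 0) u ∈ f
    · obtain ⟨u, hu, f, hf, h1, h2⟩ := h
      rw [cl_of hu hf h1 h2]
      refine ⟨hu, fun u' hu' => ?_⟩
      constructor
      · rintro (⟨f', hf', h3, h4⟩ | ⟨-, h3⟩)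
        · exact ac_unique h3 h1 _ _ h4 _ h2
        · exact absurd ⟨u, hu, f, hf, h1, h2⟩ h3
      · rintro rfl
        exact Or.inl ⟨f, hf, h1, h2⟩
    · rw [cl, dif_neg h]
      refine ⟨hM.empty_mem, fun u' hu' => ?_⟩
      constructor
      · rintro (⟨f', hf', h3, h4⟩ | ⟨h3, -⟩)
        · exact absurd ⟨u', hu', f', hf', h3, h4⟩ h
        · exact h3
      · rintro rfl
        exact Or.inr ⟨rfl, h⟩

/-- If `(ω, y)` is well-founded in the sense of the model, then it has a collapse. -/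
theorem cl_spec (hwf : ∀ S ∈ C, S ⊆ ZFSet.omega → (∃ n, n ∈ S) → ∃ n ∈ S, ∀ k ∈ ZFSet.omega,
      pair k n ∈ y → k ∉ S) :
    ∀ n ∈ ZFSet.omega, ∀ w, w ∈ cl C y n ↔ ∃ k ∈ ZFSet.omega, pair k n ∈ y ∧ w = cl C y k := by
  have hB := hM.base
  have hom := hM.infinity
  set Q : ZFSet.{0} → Prop := fun n => ∃ u ∈ C, ∃ f ∈ C, Ac C y f ∧ pair n u ∈ f with hQ
  have hQd : Dfn C C fun w : Fin 1 → ZFSet.{0} => Q (w 0) := dfn_dom hM hy
  have hgood : ∀ n, Q n → ∀ w, w ∈ cl C y n ↔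
      ∃ k ∈ ZFSet.omega, pair k n ∈ y ∧ Q k ∧ w = cl C y k := by
    rintro n ⟨u, hu, f, hf, h1, h2⟩ w
    rw [cl_of hu hf h1 h2]
    obtain ⟨n', hn', u', -, h3, h4, h5⟩ := h1 _ h2
    obtain ⟨rfl, rfl⟩ := ZFSet.pair_inj.1 h3
    constructor
    · intro hw
      obtain ⟨k, hk, h6, h7⟩ := h4 w hw
      have hwC := hM.trans _ hu _ hw
      exact ⟨k, hk, h6, ⟨w, hwC, f, hf, h1, h7⟩, (cl_of hwC hf h1 h7).symm⟩
    · rintro ⟨k, hk, h6, -, rfl⟩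
      obtain ⟨w, hw, h7⟩ := h5 k hk h6
      rw [cl_of (hM.trans _ hu _ hw) hf h1 h7]
      exact hw
  have hgood2 : ∀ n, Q n → ∀ k ∈ ZFSet.omega, pair k n ∈ y → Q k := by
    rintro n ⟨u, hu, f, hf, h1, h2⟩ k hk h
    obtain ⟨n', hn', u', -, h3, h4, h5⟩ := h1 _ h2
    obtain ⟨rfl, rfl⟩ := ZFSet.pair_inj.1 h3
    obtain ⟨w, hw, h7⟩ := h5 k hk h
    exact ⟨w, hM.trans _ hu _ hw, f, hf, h1, h7⟩
  have hall : ∀ n ∈ ZFSet.omega, Q n := by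
    by_contra hcon
    push Not at hcon
    obtain ⟨n0, hn0, hQn0⟩ := hcon
    have hSC := hM.sep_mem (Q := fun n => ¬ Q n) hQd.not hom
    obtain ⟨n, hn, hmin⟩ := hwf _ hSC (fun x hx => (ZFSet.mem_sep.1 hx).1)
      ⟨n0, ZFSet.mem_sep.2 ⟨hn0, hQn0⟩⟩
    obtain ⟨hnω, hnQ⟩ := ZFSet.mem_sep.1 hn
    have hpred : ∀ k ∈ ZFSet.omega, pair k n ∈ y → Q k := by
      intro k hk h
      by_contra h1
      exact hmin k hk h (ZFSet.mem_sep.2 ⟨hk, h1⟩)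
    -- the approximation with all values
    have hcl := dfn_cl hM hy
    have hS'C := hM.sep_mem (Q := Q) hQd hom
    set S' : ZFSet.{0} := ZFSet.sep Q ZFSet.omega with hS'
    have hf0C : gr (cl C y) S' ∈ C :=
      hM.im_mem hS'C (h := fun n => pair n (cl C y n)) (hB.pair' (DfnF.proj 0) hcl)
    have hPC := hM.sep_mem (Q := fun k => pair k n ∈ y)
      (Dfn.mem (hB.pair' (DfnF.proj 0) (DfnF.const (hM.trans _ hom _ hnω))) (DfnF.const hy)) hom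
    have huC := hM.im_mem hPC hcl
    set u0 : ZFSet.{0} := im (cl C y) (ZFSet.sep (fun k => pair k n ∈ y) ZFSet.omega) with hu0
    apply hnQ
    refine ⟨u0, huC, insert (pair n u0) (gr (cl C y) S'),
      hM.insert_mem (hM.pair_mem (hM.trans _ hom _ hnω) huC) hf0C, ?_, ZFSet.mem_insert _ _⟩
    intro p hp
    rcases ZFSet.mem_insert_iff.1 hp with rfl | hp
    · refine ⟨n, hnω, u0, huC, rfl, fun w hw => ?_, fun k hk h => ?_⟩
      · obtain ⟨k, hk, rfl⟩ := mem_im.1 hw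
        obtain ⟨hk1, hk2⟩ := ZFSet.mem_sep.1 hk
        exact ⟨k, hk1, hk2, ZFSet.mem_insert_of_mem _ (pair_mem_gr.2
          ⟨ZFSet.mem_sep.2 ⟨hk1, hpred k hk1 hk2⟩, rfl⟩)⟩
      · exact ⟨cl C y k, mem_im.2 ⟨k, ZFSet.mem_sep.2 ⟨hk, h⟩, rfl⟩,
          ZFSet.mem_insert_of_mem _ (pair_mem_gr.2 ⟨ZFSet.mem_sep.2 ⟨hk, hpred k hk h⟩, rfl⟩)⟩
    · obtain ⟨m, hm, rfl⟩ := mem_gr.1 hp
      obtain ⟨hmω, hmQ⟩ := ZFSet.mem_sep.1 hm
      refine ⟨m, hmω, cl C y m, hcl.1 (fun _ => m) fun _ => hM.trans _ hom _ hmω, rfl,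
        fun w hw => ?_, fun k hk h => ?_⟩
      · obtain ⟨k, hk, h1, h2, rfl⟩ := (hgood m hmQ w).1 hw
        exact ⟨k, hk, h1, ZFSet.mem_insert_of_mem _ (pair_mem_gr.2
          ⟨ZFSet.mem_sep.2 ⟨hk, h2⟩, rfl⟩)⟩
      · have h1 := hgood2 m hmQ k hk h
        exact ⟨cl C y k, (hgood m hmQ _).2 ⟨k, hk, h, h1, rfl⟩, ZFSet.mem_insert_of_mem _
          (pair_mem_gr.2 ⟨ZFSet.mem_sep.2 ⟨hk, h1⟩, rfl⟩)⟩
  intro n hn w
  rw [hgood n (hall n hn)]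
  constructor
  · rintro ⟨k, hk, h1, -, h2⟩
    exact ⟨k, hk, h1, h2⟩
  · rintro ⟨k, hk, h1, h2⟩
    exact ⟨k, hk, h1, hall k hk, h2⟩

end

/-- If the statement is true, then every set of natural numbers of the model is constructible
relative to `A`. -/
theorem st_imp {A : ZFSet.{0}} {C : Set ZFSet.{0}} (hM : IsZF C) {T i Pw a c : ZFSet.{0}}
    (hTt : ∀ x ∈ T, ∀ y ∈ x, y ∈ T) (hi : i ∈ C) (hib : IsBij ZFSet.omega T i)
    (haA : ap i a = A)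
    (hPw' : ∀ z, z ∈ Pw ↔ z ∈ C ∧ z ⊆ ZFSet.prod ZFSet.omega ZFSet.omega)
    (hSt : St psi0 Pw (E0 i) a) (hc : c ∈ C) (hcT : c ⊆ T) :
    ∃ ξ ∈ C, ξ.IsOrdinal ∧ c ∈ Lv A ξ := by
  have hB := hM.base
  have hom := hM.infinity
  obtain ⟨i1, i2, i3⟩ := bij_ap hib
  have hQx : Dfn C C fun w : Fin 1 → ZFSet.{0} => fs (w 0) = sn (w 0) ∧ ap i (fs (w 0)) ∈ c := by
    apply Dfn.and
    · exact Dfn.eq (hM.fs' (DfnF.proj 0)) (hM.sn' (DfnF.proj 0))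
    · exact Dfn.mem (hM.ap' (DfnF.const hi) (hM.fs' (DfnF.proj 0))) (DfnF.const hc)
  have hxC := hM.sep_mem (Q := fun p => fs p = sn p ∧ ap i (fs p) ∈ c) hQx
    (hM.prod_mem hom hom)
  set x : ZFSet.{0} := ZFSet.sep (fun p => fs p = sn p ∧ ap i (fs p) ∈ c)
    (ZFSet.prod ZFSet.omega ZFSet.omega) with hx
  have mx : ∀ n ∈ ZFSet.omega, (pair n n ∈ x ↔ ap i n ∈ c) := by
    intro n hn
    rw [hx, ZFSet.mem_sep, fs_pair, sn_pair, ZFSet.pair_mem_prod]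
    exact ⟨fun h => h.2.2, fun h => ⟨⟨hn, hn⟩, rfl, h⟩⟩
  obtain ⟨y, hy, g, hg, ⟨b1, b2, b3, b4, b5⟩, ⟨b, hb, b', hb', h1, h2, h3⟩, h4⟩ :=
    hSt x ((hPw' _).2 ⟨hxC, fun p hp => (ZFSet.mem_sep.1 hp).1⟩)
  beta_reduce at b1 b2 b3 b4 b5 h2 h3 h4
  obtain ⟨hyC, hyω⟩ := (hPw' y).1 hy
  -- well-foundedness
  have hwf : ∀ S ∈ C, S ⊆ ZFSet.omega → (∃ n, n ∈ S) → ∃ n ∈ S, ∀ k ∈ ZFSet.omega,
      pair k n ∈ y → k ∉ S := by
    rintro S hS hSω ⟨n, hn⟩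
    have hQz : Dfn C C fun w : Fin 1 → ZFSet.{0} => fs (w 0) = sn (w 0) ∧ fs (w 0) ∈ S := by
      apply Dfn.and
      · exact Dfn.eq (hM.fs' (DfnF.proj 0)) (hM.sn' (DfnF.proj 0))
      · exact Dfn.mem (hM.fs' (DfnF.proj 0)) (DfnF.const hS)
    have hzC := hM.sep_mem (Q := fun p => fs p = sn p ∧ fs p ∈ S) hQz (hM.prod_mem hom hom)
    have mz : ∀ n ∈ ZFSet.omega, (pair n n ∈ ZFSet.sep (fun p => fs p = sn p ∧ fs p ∈ S)
        (ZFSet.prod ZFSet.omega ZFSet.omega) ↔ n ∈ S) := by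
      intro n hn
      rw [ZFSet.mem_sep, fs_pair, sn_pair, ZFSet.pair_mem_prod]
      exact ⟨fun h => h.2.2, fun h => ⟨⟨hn, hn⟩, rfl, h⟩⟩
    obtain ⟨n', hn', h5, h6⟩ := h4 _ ((hPw' _).2 ⟨hzC, fun p hp => (ZFSet.mem_sep.1 hp).1⟩)
      ⟨n, hSω hn, (mz n (hSω hn)).2 hn⟩
    refine ⟨n', (mz n' hn').1 h5, fun k hk h7 h8 => h6 k hk h7 ((mz k hk).2 h8)⟩
  have hcl := cl_spec hM hyC hwf
  have hdcl := dfn_cl hM hyC
  set F : ZFSet.{0} → ZFSet.{0} := cl C y with hF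
  have hFinj : ∀ u : ZFSet.{0}, ∀ n ∈ ZFSet.omega, ∀ n' ∈ ZFSet.omega, F n = u → F n' = u →
      n = n' := by
    intro u
    induction u using ZFSet.inductionOn with
    | _ u ih =>
    intro n hn n' hn' h5 h6
    apply b1 n hn n' hn'
    intro k hk
    constructor
    · intro h7
      have h8 : F k ∈ F n' := by
        rw [h6, ← h5]
        exact (hcl n hn _).2 ⟨k, hk, h7, rfl⟩
      obtain ⟨k', hk', h9, h10⟩ := (hcl n' hn' _).1 h8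
      rw [ih (F k) (h6 ▸ h8) k hk k' hk' rfl h10.symm]
      exact h9
    · intro h7
      have h8 : F k ∈ F n := by
        rw [h5, ← h6]
        exact (hcl n' hn' _).2 ⟨k, hk, h7, rfl⟩
      obtain ⟨k', hk', h9, h10⟩ := (hcl n hn _).1 h8
      rw [ih (F k) (h5 ▸ h8) k hk k' hk' rfl h10.symm]
      exact h9
  have hFR : ∀ k ∈ ZFSet.omega, ∀ l ∈ ZFSet.omega, (pair k l ∈ y ↔ F k ∈ F l) := by
    intro k hk l hl
    rw [hcl l hl]
    constructor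
    · exact fun h => ⟨k, hk, h, rfl⟩
    · rintro ⟨k', hk', h5, h6⟩
      rw [hFinj _ k hk k' hk' rfl h6.symm]
      exact h5
  have hNC : im F ZFSet.omega ∈ C := hM.im_mem hom hdcl
  have hNt : ∀ u ∈ im F ZFSet.omega, ∀ w ∈ u, w ∈ im F ZFSet.omega := by
    intro u hu w hw
    obtain ⟨n, hn, rfl⟩ := mem_im.1 hu
    obtain ⟨k, hk, -, rfl⟩ := (hcl n hn _).1 hw
    exact mem_im.2 ⟨k, hk, rfl⟩
  -- the embedding
  have hemb : ∀ t : ZFSet.{0}, ∀ m ∈ ZFSet.omega, ∀ n ∈ ZFSet.omega, ap i m = t →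
      pair m n ∈ g → F n = t := by
    intro t
    induction t using ZFSet.inductionOn with
    | _ t ih =>
    intro m hm n hn h5 h6
    ext w
    constructor
    · intro hw
      obtain ⟨k, hk, h7, rfl⟩ := (hcl n hn _).1 hw
      obtain ⟨m', hm', h8⟩ := b4 m hm n hn k hk h6 h7
      have h9 := (b3 m' hm' m hm k hk n hn h8 h6).2 h7
      rw [mem_E0 hm' hm, h5] at h9
      rw [ih _ h9 m' hm' k hk rfl h8]
      exact h9
    · intro hw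
      obtain ⟨m', hm', h7⟩ := i2 w (hTt _ (h5 ▸ i1 m hm) w hw)
      obtain ⟨k, hk, h8⟩ := b2 m' hm'
      have h9 : pair m' m ∈ E0 i := (mem_E0 hm' hm).2 (by rw [h7, h5]; exact hw)
      have h10 := (b3 m' hm' m hm k hk n hn h8 h6).1 h9
      rw [← ih w hw m' hm' k hk h7 h8]
      exact (hcl n hn _).2 ⟨k, hk, h10, rfl⟩
  have hFb : F b = A := hemb A b' hb' b hb (h1 ▸ haA) h2
  obtain ⟨m, hm, h5⟩ := b5
  have hFm : F m = c := by
    ext w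
    rw [hcl m hm]
    constructor
    · rintro ⟨k, hk, h6, rfl⟩
      obtain ⟨n, hn, h7, h8⟩ := (h5 k hk).1 h6
      rw [hemb _ n hn k hk rfl h8]
      exact (mx n hn).1 h7
    · intro hw
      obtain ⟨n, hn, h6⟩ := i2 w (hcT hw)
      obtain ⟨k, hk, h7⟩ := b2 n hn
      refine ⟨k, hk, (h5 k hk).2 ⟨n, hn, (mx n hn).2 (h6 ▸ hw), h7⟩, ?_⟩
      rw [hemb _ n hn k hk h6 h7]
  obtain ⟨f, hf, h6⟩ := h3 m hm
  rw [satR_psi (F := F) (N := im F ZFSet.omega) (fun n hn => mem_im.2 ⟨n, hn, rfl⟩)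
    (fun u hu => by
      obtain ⟨n, hn, rfl⟩ := mem_im.1 hu
      exact ⟨n, hn, rfl⟩) hFR (fun k hk l hl h => hFinj _ k hk l hl h rfl) hNt hf hm hb' hb,
    hFb, hFm] at h6
  obtain ⟨ξ, X, h7, h8, h9⟩ := h6.spec
  have h10 : F f ∈ C := hM.trans _ hNC _ (mem_im.2 ⟨f, hf, rfl⟩)
  exact ⟨ξ, (hM.of_pair_mem (hM.trans _ h10 _ h7)).1, h8, h9⟩

end Pool.Agent.W868
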