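import Pool.Agent.W868.Amg

/-!
# The statement in models of constructibility
-/

set_option autoImplicit false
set_option linter.unreachableTactic false
set_option linter.unusedTactic false

namespace Pool.Agent.W868

open ZFSet (pair)

/-- The formula. -/
noncomputable def psi0 : Fml Empty 3 := d0_Psi.choose

theorem psi0_spec {M : Set ZFSet.{0}} (hM : ∀ x ∈ M, ∀ y ∈ x, y ∈ M) {A x f : ZFSet.{0}}
    (hA : A ∈ M) (hx : x ∈ M) (hf : f ∈ M) :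
    Sat M Empty.elim psi0 ![A, x, f] ↔ Psi A x f := by
  refine d0_Psi.choose_spec M hM _ ?_
  intro i
  fin_cases i
  exacts [hA, hx, hf]

theorem satR_iso {R : ZFSet.{0} → ZFSet.{0} → Prop} {F : ZFSet.{0} → ZFSet.{0}} {N : ZFSet.{0}}
    (h1 : ∀ n ∈ ZFSet.omega, F n ∈ N) (h2 : ∀ u ∈ N, ∃ n ∈ ZFSet.omega, F n = u)
    (h3 : ∀ k ∈ ZFSet.omega, ∀ l ∈ ZFSet.omega, (R k l ↔ F k ∈ F l))
    (h4 : ∀ k ∈ ZFSet.omega, ∀ l ∈ ZFSet.omega, F k = F l → k = l) : {n : ℕ} →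
    (φ : Fml Empty n) → (v : Fin n → ZFSet.{0}) → (∀ i, v i ∈ ZFSet.omega) →
    (SatR R φ v ↔ Sat {x | x ∈ N} Empty.elim φ fun i => F (v i))
  | n, .mem (Sum.inl i) (Sum.inl j), v, hv => h3 _ (hv i) _ (hv j)
  | n, .eq (Sum.inl i) (Sum.inl j), v, hv =>
    ⟨fun h => congrArg F h, fun h => h4 _ (hv i) _ (hv j) h⟩
  | n, .neg φ, v, hv => not_congr (satR_iso h1 h2 h3 h4 φ v hv)
  | n, .and φ ψ, v, hv =>
    and_congr (satR_iso h1 h2 h3 h4 φ v hv) (satR_iso h1 h2 h3 h4 ψ v hv)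
  | n, .ex φ, v, hv => by
    have hc : ∀ a ∈ ZFSet.omega, ∀ k, (Fin.cons a v : Fin (n + 1) → ZFSet.{0}) k ∈
        ZFSet.omega := by
      intro a ha k
      refine Fin.cases ?_ (fun k => ?_) k
      · exact ha
      · exact hv k
    have he : ∀ a, (Fin.cons (F a) (fun i => F (v i)) : Fin (n + 1) → ZFSet.{0}) =
        fun i => F ((Fin.cons a v : Fin (n + 1) → ZFSet.{0}) i) := by
      intro a
      funext i
      refine Fin.cases ?_ (fun i => ?_) i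
      · rfl
      · rfl
    constructor
    · rintro ⟨a, ha, h⟩
      refine ⟨F a, h1 a ha, ?_⟩
      rw [he]
      exact (satR_iso h1 h2 h3 h4 φ _ (hc a ha)).1 h
    · rintro ⟨b, hb, h⟩
      obtain ⟨a, ha, rfl⟩ := h2 b hb
      rw [he] at h
      exact ⟨a, ha, (satR_iso h1 h2 h3 h4 φ _ (hc a ha)).2 h⟩

theorem satR_psi {R : ZFSet.{0} → ZFSet.{0} → Prop} {F : ZFSet.{0} → ZFSet.{0}} {N : ZFSet.{0}}
    (h1 : ∀ n ∈ ZFSet.omega, F n ∈ N) (h2 : ∀ u ∈ N, ∃ n ∈ ZFSet.omega, F n = u)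
    (h3 : ∀ k ∈ ZFSet.omega, ∀ l ∈ ZFSet.omega, (R k l ↔ F k ∈ F l))
    (h4 : ∀ k ∈ ZFSet.omega, ∀ l ∈ ZFSet.omega, F k = F l → k = l)
    (hN : ∀ x ∈ N, ∀ y ∈ x, y ∈ N) {f u b' b : ZFSet.{0}} (hf : f ∈ ZFSet.omega)
    (hu : u ∈ ZFSet.omega) (hb' : b' ∈ ZFSet.omega) (hb : b ∈ ZFSet.omega) :
    SatR R (psi0.subst fun i => Sum.inl ((![3, 1, 0] : Fin 3 → Fin 4) i)) ![f, u, b', b] ↔
      Psi (F b) (F u) (F f) := by
  rw [satR_iso h1 h2 h3 h4 _ _ (by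
    intro i
    fin_cases i
    exacts [hf, hu, hb', hb]), sat_subst]
  have h5 : (fun k => Sum.elim (fun i => F ((![f, u, b', b] : Fin 4 → ZFSet.{0}) i)) Empty.elim
      (Sum.inl ((![3, 1, 0] : Fin 3 → Fin 4) k))) = ![F b, F u, F f] := by
    funext i
    fin_cases i <;> rfl
  rw [h5]
  exact psi0_spec hN (h1 b hb) (h1 u hu) (h1 f hf)

theorem bij_ap {x y f : ZFSet.{0}} (h : IsBij x y f) : (∀ a ∈ x, ap f a ∈ y) ∧
    (∀ b ∈ y, ∃ a ∈ x, ap f a = b) ∧ ∀ a ∈ x, ∀ a' ∈ x, ap f a = ap f a' → a = a' := by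
  have h1 : ∀ a ∈ x, ap f a ∈ y ∧ pair a (ap f a) ∈ f := by
    intro a ha
    obtain ⟨b, hb, h1⟩ := fun_exists h.1.1 ha
    rw [ap_func h.1.1 h1]
    exact ⟨hb, h1⟩
  refine ⟨fun a ha => (h1 a ha).1, fun b hb => ?_, fun a ha a' ha' h2 => ?_⟩
  · obtain ⟨a, ha, h2⟩ := h.2 b hb
    exact ⟨a, ha, ap_func h.1.1 h2⟩
  · have h3 := (h1 a ha).2
    rw [h2] at h3
    exact h.1.2 _ _ _ h3 (h1 a' ha').2

section

variable {M : Set ZFSet.{0}} (hM : IsZF M)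

include hM

theorem isInfCard_omega : IsInfCard M ZFSet.omega := by
  refine ⟨⟨hM.infinity, isOrdinal_omega, ?_⟩, fun _ h => h⟩
  rintro β hβ ⟨g, -, hg⟩
  obtain ⟨n, rfl⟩ := mem_omega_iff.1 hβ
  exact not_le_nat (fun _ h => h) (card_le_of_isInj hg) (card_nat n).le

/-- A countable infinite set is enumerated by a bijection. -/
theorem exists_enum {N : ZFSet.{0}} (hN : N ∈ M) (h1 : Inj M N ZFSet.omega)
    (h2 : ZFSet.omega ⊆ N) : ∃ j ∈ M, IsBij ZFSet.omega N j :=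
  (bij_card' hM hN (isInfCard_omega hM).1 h1 (Inj.of_subset hM hM.infinity hN h2)).symm hM hN
    hM.infinity

end

/-- The code of a transitive set. -/
noncomputable def E0 (i : ZFSet.{0}) : ZFSet.{0} :=
  ZFSet.sep (fun p => ap i (fs p) ∈ ap i (sn p)) (ZFSet.prod ZFSet.omega ZFSet.omega)

theorem mem_E0 {i k l : ZFSet.{0}} (hk : k ∈ ZFSet.omega) (hl : l ∈ ZFSet.omega) :
    pair k l ∈ E0 i ↔ ap i k ∈ ap i l := by
  rw [E0, ZFSet.mem_sep, fs_pair, sn_pair, ZFSet.pair_mem_prod]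
  exact ⟨fun h => h.2, fun h => ⟨⟨hk, hl⟩, h⟩⟩

theorem E0_mem {M : Set ZFSet.{0}} (hM : IsZF M) {i : ZFSet.{0}} (hi : i ∈ M) : E0 i ∈ M := by
  refine hM.sep_mem (Q := fun p => ap i (fs p) ∈ ap i (sn p)) ?_
    (hM.prod_mem hM.infinity hM.infinity)
  exact Dfn.mem (hM.ap' (DfnF.const hi) (hM.fs' (DfnF.proj 0)))
    (hM.ap' (DfnF.const hi) (hM.sn' (DfnF.proj 0)))

/-- The statement is true in models of constructibility. -/
theorem st_true {A : ZFSet.{0}} {C : Set ZFSet.{0}} (hL : IsLA A C) {T i Pw a : ZFSet.{0}}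
    (hT : T ∈ C) (hTt : ∀ x ∈ T, ∀ y ∈ x, y ∈ T) (hAT : A ∈ T) (hTω : Inj C T ZFSet.omega)
    (hωT : ZFSet.omega ⊆ T) (hi : i ∈ C) (hib : IsBij ZFSet.omega T i)
    (ha : a ∈ ZFSet.omega) (haA : ap i a = A)
    (hPw' : ∀ z, z ∈ Pw ↔ z ∈ C ∧ z ⊆ ZFSet.prod ZFSet.omega ZFSet.omega) :
    St psi0 Pw (E0 i) a := by
  have hM := hL.zf
  have hB := hM.base
  have hg := hL.gc
  have hom := hM.infinity
  obtain ⟨i1, i2, i3⟩ := bij_ap hib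
  intro x hx
  have hxC := ((hPw' x).1 hx).1
  -- the set that x represents
  have hQ : Dfn C C fun w : Fin 1 → ZFSet.{0} => ∃ n ∈ ZFSet.omega, pair n n ∈ x ∧
      ap i n = w 0 := by
    apply hB.bex (DfnF.const hom)
    apply Dfn.and
    · exact Dfn.mem (hB.pair' (DfnF.proj 0) (DfnF.proj 0)) (DfnF.const hxC)
    · exact Dfn.eq (hM.ap' (DfnF.const hi) (DfnF.proj 0)) (DfnF.proj 1)
  set s : ZFSet.{0} := ZFSet.sep (fun y => ∃ n ∈ ZFSet.omega, pair n n ∈ x ∧ ap i n = y) T with hs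
  have hsC : s ∈ C := hM.sep_mem (Q := fun y => ∃ n ∈ ZFSet.omega, pair n n ∈ x ∧ ap i n = y) hQ hT
  have hsT : s ⊆ T := fun y hy => (ZFSet.mem_sep.1 hy).1
  have hins : (insert s T : ZFSet.{0}) ∈ C := hM.insert_mem hsC hT
  obtain ⟨N, hN, hNt, haN, hNω, hΨ⟩ := condensation hL hom isOrdinal_omega (fun _ h => h)
    hins (by
      intro x hx z hz
      rcases ZFSet.mem_insert_iff.1 hx with rfl | hx
      · exact ZFSet.mem_insert_of_mem _ (hsT hz)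
      · exact ZFSet.mem_insert_of_mem _ (hTt x hx z hz))
    (ZFSet.mem_insert_of_mem _ hAT)
    (Inj.insert hM hg hom isOrdinal_omega (fun _ h => h) hsC hT hTω)
  have hTN : T ⊆ N := fun y hy => haN (ZFSet.mem_insert_of_mem _ hy)
  obtain ⟨j, hj, hjb⟩ := exists_enum hM hN hNω fun y hy => hTN (hωT hy)
  obtain ⟨j1, j2, j3⟩ := bij_ap hjb
  have hyC : E0 j ∈ C := E0_mem hM hj
  have hgQ : Dfn C C fun w : Fin 1 → ZFSet.{0} => ap i (fs (w 0)) = ap j (sn (w 0)) :=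
    Dfn.eq (hM.ap' (DfnF.const hi) (hM.fs' (DfnF.proj 0)))
      (hM.ap' (DfnF.const hj) (hM.sn' (DfnF.proj 0)))
  set g : ZFSet.{0} := ZFSet.sep (fun p => ap i (fs p) = ap j (sn p))
    (ZFSet.prod ZFSet.omega ZFSet.omega) with hgdef
  have hgC : g ∈ C := hM.sep_mem (Q := fun p => ap i (fs p) = ap j (sn p)) hgQ
    (hM.prod_mem hom hom)
  have mg : ∀ k ∈ ZFSet.omega, ∀ l ∈ ZFSet.omega, (pair k l ∈ g ↔ ap i k = ap j l) := by
    intro k hk l hl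
    rw [hgdef, ZFSet.mem_sep, fs_pair, sn_pair, ZFSet.pair_mem_prod]
    exact ⟨fun h => h.2, fun h => ⟨⟨hk, hl⟩, h⟩⟩
  refine ⟨E0 j, (hPw' _).2 ⟨hyC, fun p hp => (ZFSet.mem_sep.1 hp).1⟩, g,
    (hPw' _).2 ⟨hgC, fun p hp => (ZFSet.mem_sep.1 hp).1⟩, ⟨?_, ?_, ?_, ?_, ?_⟩, ?_, ?_⟩
  · intro k hk l hl h
    apply j3 k hk l hl
    ext u
    constructor
    · intro hu
      obtain ⟨n, hn, rfl⟩ := j2 u (hNt _ (j1 k hk) u hu)
      exact (mem_E0 hn hl).1 ((h n hn).1 ((mem_E0 hn hk).2 hu))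
    · intro hu
      obtain ⟨n, hn, rfl⟩ := j2 u (hNt _ (j1 l hl) u hu)
      exact (mem_E0 hn hk).1 ((h n hn).2 ((mem_E0 hn hl).2 hu))
  · intro m hm
    obtain ⟨n, hn, h⟩ := j2 _ (hTN (i1 m hm))
    exact ⟨n, hn, (mg m hm n hn).2 h.symm⟩
  · intro m hm m' hm' n hn n' hn' h1 h2
    rw [mg m hm n hn] at h1
    rw [mg m' hm' n' hn'] at h2
    beta_reduce
    rw [mem_E0 hm hm', mem_E0 hn hn', h1, h2]
  · intro m hm n hn n' hn' h1 h2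
    rw [mg m hm n hn] at h1
    rw [mem_E0 hn' hn, ← h1] at h2
    obtain ⟨m', hm', h3⟩ := i2 _ (hTt _ (i1 m hm) _ h2)
    exact ⟨m', hm', (mg m' hm' n' hn').2 h3⟩
  · obtain ⟨m, hm, h⟩ := j2 s (haN (ZFSet.mem_insert _ _))
    refine ⟨m, hm, fun k hk => ?_⟩
    beta_reduce
    rw [mem_E0 hk hm, h, hs, ZFSet.mem_sep]
    constructor
    · rintro ⟨-, n, hn, h1, h2⟩
      exact ⟨n, hn, h1, (mg n hn k hk).2 h2⟩
    · rintro ⟨n, hn, h1, h2⟩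
      rw [mg n hn k hk] at h2
      exact ⟨h2 ▸ i1 n hn, n, hn, h1, h2⟩
  · obtain ⟨b, hb, h⟩ := j2 A (hTN hAT)
    refine ⟨b, hb, a, ha, rfl, (mg a ha b hb).2 (haA.trans h.symm), fun u hu => ?_⟩
    obtain ⟨f', hf', h1⟩ := hΨ _ (j1 u hu)
    obtain ⟨f, hf, rfl⟩ := j2 f' hf'
    refine ⟨f, hf, ?_⟩
    rw [satR_psi j1 j2 (fun k hk l hl => mem_E0 hk hl) j3 hNt hf hu ha hb, h]
    exact h1
  · rintro z - ⟨n, hn, h1⟩
    have hne : {u : ZFSet.{0} | ∃ n ∈ ZFSet.omega, pair n n ∈ z ∧ ap j n = u}.Nonempty :=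
      ⟨_, n, hn, h1, rfl⟩
    obtain ⟨n', hn', h2, h3⟩ := ZFSet.mem_wf.min_mem _ hne
    refine ⟨n', hn', h2, fun k hk h4 h5 => ?_⟩
    beta_reduce at h4
    rw [mem_E0 hk hn', h3] at h4
    exact ZFSet.mem_wf.not_lt_min
      {u : ZFSet.{0} | ∃ n ∈ ZFSet.omega, pair n n ∈ z ∧ ap j n = u} ⟨k, hk, h5, rfl⟩ h4

end Pool.Agent.W868
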