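import Pool.Agent.W868.Tool

/-!
# The satisfaction relation in a transitive model
-/

set_option autoImplicit false
set_option linter.unreachableTactic false
set_option linter.unusedTactic false

namespace Pool.Agent.W868

open ZFSet (pair)

/-- The pair `p` is a formula with its context, and the constituents are in `F`. -/
def Form (M : Set ZFSet.{0}) (F p : ZFSet.{0}) : Prop :=
  ∃ ψ n, p = pair ψ n ∧ n ∈ ZFSet.omega ∧
    ((∃ k ∈ ZFSet.omega, ∃ i ∈ n, ψ = cP k i) ∨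
     (∃ i ∈ n, ∃ j ∈ n, ψ = cEq i j) ∨
     (∃ χ, ψ = cNot χ ∧ pair χ n ∈ F) ∨
     (∃ Φ, ψ = cAnd Φ ∧ (∃ f ∈ M, IsInj Φ ZFSet.omega f) ∧ ∀ χ ∈ Φ, pair χ n ∈ F) ∨
     (∃ χ, ψ = cEx χ ∧ pair χ (insert n n) ∈ F))

theorem isFmlSet_iff {M : Set ZFSet.{0}} {F : ZFSet.{0}} :
    IsFmlSet M F ↔ ∀ p ∈ F, Form M F p := Iff.rfl

theorem Form.mono {M : Set ZFSet.{0}} {F F' p : ZFSet.{0}} (h : Form M F p) (hF : F ⊆ F') :
    Form M F' p := by
  obtain ⟨ψ, n, h1, h2, h3⟩ := h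
  refine ⟨ψ, n, h1, h2, ?_⟩
  rcases h3 with h3 | h3 | ⟨χ, h3, h4⟩ | ⟨Φ, h3, h4, h5⟩ | ⟨χ, h3, h4⟩
  · exact Or.inl h3
  · exact Or.inr (Or.inl h3)
  · exact Or.inr (Or.inr (Or.inl ⟨χ, h3, hF h4⟩))
  · exact Or.inr (Or.inr (Or.inr (Or.inl ⟨Φ, h3, h4, fun χ hχ => hF (h5 χ hχ)⟩)))
  · exact Or.inr (Or.inr (Or.inr (Or.inr ⟨χ, h3, hF h4⟩)))

theorem nat_ne {m n : ℕ} (h : m ≠ n) : nat m ≠ nat n := fun h' => h (nat_injective h')

/-! ### Tarski's clauses for the different kinds of formulas -/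

theorem clause_P {D c T k i n s : ZFSet.{0}} :
    Clause D c T (cP k i) n s ↔ ∃ d, pair i d ∈ s ∧ pair d k ∈ c := by
  constructor
  · rintro (⟨k', i', d, h, h1⟩ | ⟨i', j', d, h, h1⟩ | ⟨χ, h, h1⟩ | ⟨Φ, h, h1⟩ | ⟨χ, h, h1⟩)
    · obtain ⟨-, h2⟩ := ZFSet.pair_inj.1 h
      obtain ⟨rfl, rfl⟩ := ZFSet.pair_inj.1 h2
      exact ⟨d, h1⟩
    · exact absurd (ZFSet.pair_inj.1 h).1 (nat_ne (by decide))
    · exact absurd (ZFSet.pair_inj.1 h).1 (nat_ne (by decide))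
    · exact absurd (ZFSet.pair_inj.1 h).1 (nat_ne (by decide))
    · exact absurd (ZFSet.pair_inj.1 h).1 (nat_ne (by decide))
  · rintro ⟨d, h1⟩
    exact Or.inl ⟨k, i, d, rfl, h1⟩

theorem clause_Eq {D c T i j n s : ZFSet.{0}} :
    Clause D c T (cEq i j) n s ↔ ∃ d, pair i d ∈ s ∧ pair j d ∈ s := by
  constructor
  · rintro (⟨k', i', d, h, h1⟩ | ⟨i', j', d, h, h1⟩ | ⟨χ, h, h1⟩ | ⟨Φ, h, h1⟩ | ⟨χ, h, h1⟩)
    · exact absurd (ZFSet.pair_inj.1 h).1 (nat_ne (by decide))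
    · obtain ⟨-, h2⟩ := ZFSet.pair_inj.1 h
      obtain ⟨rfl, rfl⟩ := ZFSet.pair_inj.1 h2
      exact ⟨d, h1⟩
    · exact absurd (ZFSet.pair_inj.1 h).1 (nat_ne (by decide))
    · exact absurd (ZFSet.pair_inj.1 h).1 (nat_ne (by decide))
    · exact absurd (ZFSet.pair_inj.1 h).1 (nat_ne (by decide))
  · rintro ⟨d, h1⟩
    exact Or.inr (Or.inl ⟨i, j, d, rfl, h1⟩)

theorem clause_Not {D c T χ n s : ZFSet.{0}} :
    Clause D c T (cNot χ) n s ↔ pair (pair χ n) s ∉ T := by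
  constructor
  · rintro (⟨k', i', d, h, h1⟩ | ⟨i', j', d, h, h1⟩ | ⟨χ', h, h1⟩ | ⟨Φ, h, h1⟩ | ⟨χ', h, h1⟩)
    · exact absurd (ZFSet.pair_inj.1 h).1 (nat_ne (by decide))
    · exact absurd (ZFSet.pair_inj.1 h).1 (nat_ne (by decide))
    · obtain ⟨-, rfl⟩ := ZFSet.pair_inj.1 h
      exact h1
    · exact absurd (ZFSet.pair_inj.1 h).1 (nat_ne (by decide))
    · exact absurd (ZFSet.pair_inj.1 h).1 (nat_ne (by decide))
  · intro h1
    exact Or.inr (Or.inr (Or.inl ⟨χ, rfl, h1⟩))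

theorem clause_And {D c T Φ n s : ZFSet.{0}} :
    Clause D c T (cAnd Φ) n s ↔ ∀ χ ∈ Φ, pair (pair χ n) s ∈ T := by
  constructor
  · rintro (⟨k', i', d, h, h1⟩ | ⟨i', j', d, h, h1⟩ | ⟨χ', h, h1⟩ | ⟨Φ', h, h1⟩ | ⟨χ', h, h1⟩)
    · exact absurd (ZFSet.pair_inj.1 h).1 (nat_ne (by decide))
    · exact absurd (ZFSet.pair_inj.1 h).1 (nat_ne (by decide))
    · exact absurd (ZFSet.pair_inj.1 h).1 (nat_ne (by decide))
    · obtain ⟨-, rfl⟩ := ZFSet.pair_inj.1 h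
      exact h1
    · exact absurd (ZFSet.pair_inj.1 h).1 (nat_ne (by decide))
  · intro h1
    exact Or.inr (Or.inr (Or.inr (Or.inl ⟨Φ, rfl, h1⟩)))

theorem clause_Ex {D c T χ n s : ZFSet.{0}} : Clause D c T (cEx χ) n s ↔
    ∃ d ∈ D, pair (pair χ (insert n n)) (insert (pair n d) s) ∈ T := by
  constructor
  · rintro (⟨k', i', d, h, h1⟩ | ⟨i', j', d, h, h1⟩ | ⟨χ', h, h1⟩ | ⟨Φ', h, h1⟩ | ⟨χ', h, h1⟩)
    · exact absurd (ZFSet.pair_inj.1 h).1 (nat_ne (by decide))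
    · exact absurd (ZFSet.pair_inj.1 h).1 (nat_ne (by decide))
    · exact absurd (ZFSet.pair_inj.1 h).1 (nat_ne (by decide))
    · exact absurd (ZFSet.pair_inj.1 h).1 (nat_ne (by decide))
    · obtain ⟨-, rfl⟩ := ZFSet.pair_inj.1 h
      exact h1
  · intro h1
    exact Or.inr (Or.inr (Or.inr (Or.inr ⟨χ, rfl, h1⟩)))

/-! ### Constituents -/

theorem mem_not {M : Set ZFSet.{0}} {F χ n : ZFSet.{0}} (hF : IsFmlSet M F)
    (h : pair (cNot χ) n ∈ F) : pair χ n ∈ F := by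
  obtain ⟨ψ, m, h1, -, h2⟩ := hF _ h
  obtain ⟨rfl, rfl⟩ := ZFSet.pair_inj.1 h1
  rcases h2 with ⟨k, -, i, -, h2⟩ | ⟨i, -, j, -, h2⟩ | ⟨χ', h2, h3⟩ | ⟨Φ, h2, -⟩ | ⟨χ', h2, -⟩
  · exact absurd (ZFSet.pair_inj.1 h2).1 (nat_ne (by decide))
  · exact absurd (ZFSet.pair_inj.1 h2).1 (nat_ne (by decide))
  · obtain ⟨-, rfl⟩ := ZFSet.pair_inj.1 h2
    exact h3
  · exact absurd (ZFSet.pair_inj.1 h2).1 (nat_ne (by decide))
  · exact absurd (ZFSet.pair_inj.1 h2).1 (nat_ne (by decide))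

theorem mem_and {M : Set ZFSet.{0}} {F Φ n : ZFSet.{0}} (hF : IsFmlSet M F)
    (h : pair (cAnd Φ) n ∈ F) : ∀ χ ∈ Φ, pair χ n ∈ F := by
  obtain ⟨ψ, m, h1, -, h2⟩ := hF _ h
  obtain ⟨rfl, rfl⟩ := ZFSet.pair_inj.1 h1
  rcases h2 with ⟨k, -, i, -, h2⟩ | ⟨i, -, j, -, h2⟩ | ⟨χ', h2, h3⟩ | ⟨Φ, h2, -, h3⟩ | ⟨χ', h2, -⟩
  · exact absurd (ZFSet.pair_inj.1 h2).1 (nat_ne (by decide))
  · exact absurd (ZFSet.pair_inj.1 h2).1 (nat_ne (by decide))
  · exact absurd (ZFSet.pair_inj.1 h2).1 (nat_ne (by decide))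
  · obtain ⟨-, rfl⟩ := ZFSet.pair_inj.1 h2
    exact h3
  · exact absurd (ZFSet.pair_inj.1 h2).1 (nat_ne (by decide))

theorem mem_ex {M : Set ZFSet.{0}} {F χ n : ZFSet.{0}} (hF : IsFmlSet M F)
    (h : pair (cEx χ) n ∈ F) : pair χ (insert n n) ∈ F := by
  obtain ⟨ψ, m, h1, -, h2⟩ := hF _ h
  obtain ⟨rfl, rfl⟩ := ZFSet.pair_inj.1 h1
  rcases h2 with ⟨k, -, i, -, h2⟩ | ⟨i, -, j, -, h2⟩ | ⟨χ', h2, h3⟩ | ⟨Φ, h2, -, h3⟩ | ⟨χ', h2, h3⟩
  · exact absurd (ZFSet.pair_inj.1 h2).1 (nat_ne (by decide))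
  · exact absurd (ZFSet.pair_inj.1 h2).1 (nat_ne (by decide))
  · exact absurd (ZFSet.pair_inj.1 h2).1 (nat_ne (by decide))
  · exact absurd (ZFSet.pair_inj.1 h2).1 (nat_ne (by decide))
  · obtain ⟨-, rfl⟩ := ZFSet.pair_inj.1 h2
    exact h3

/-! ### Assignments -/

theorem isFunc_empty (D : ZFSet.{0}) : ZFSet.IsFunc ∅ D ∅ :=
  ⟨fun _ h => absurd h (ZFSet.notMem_empty _), fun _ h => absurd h (ZFSet.notMem_empty _)⟩

theorem isFunc_insert {n D s d : ZFSet.{0}} (h : ZFSet.IsFunc n D s) (hd : d ∈ D) :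
    ZFSet.IsFunc (insert n n) D (insert (pair n d) s) := by
  refine ⟨fun p hp => ?_, fun z hz => ?_⟩
  · rcases ZFSet.mem_insert_iff.1 hp with rfl | hp
    · exact ZFSet.pair_mem_prod.2 ⟨ZFSet.mem_insert _ _, hd⟩
    · obtain ⟨a, ha, b, hb, rfl⟩ := ZFSet.mem_prod.1 (h.1 hp)
      exact ZFSet.pair_mem_prod.2 ⟨ZFSet.mem_insert_of_mem _ ha, hb⟩
  · by_cases hzn : z = n
    · subst hzn
      refine ⟨d, ZFSet.mem_insert _ _, fun w hw => ?_⟩
      rcases ZFSet.mem_insert_iff.1 hw with hw | hw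
      · exact (ZFSet.pair_inj.1 hw).2
      · exact absurd (ZFSet.pair_mem_prod.1 (h.1 hw)).1 (ZFSet.mem_irrefl _)
    · have hz' : z ∈ n := (ZFSet.mem_insert_iff.1 hz).resolve_left hzn
      obtain ⟨w, hw, huniq⟩ := h.2 z hz'
      refine ⟨w, ZFSet.mem_insert_of_mem _ hw, fun w' hw' => ?_⟩
      rcases ZFSet.mem_insert_iff.1 hw' with hw' | hw'
      · exact absurd (ZFSet.pair_inj.1 hw').1 hzn
      · exact huniq w' hw'

/-! ### Existence of satisfaction relations -/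

/-- The set of formulas `F` has a satisfaction relation for every structure. -/
def Good (M : Set ZFSet.{0}) (F : ZFSet.{0}) : Prop :=
  F ∈ M ∧ IsFmlSet M F ∧ ∀ D ∈ M, ∀ c ∈ M, ∃ T ∈ M, IsTruth M F D c T

theorem good_empty {M : Set ZFSet.{0}} (hM : IsZF M) : Good M ∅ := by
  refine ⟨hM.empty_mem, fun p hp => absurd hp (ZFSet.notMem_empty _), fun D _ c _ =>
    ⟨∅, hM.empty_mem, fun ψ n h => absurd h (ZFSet.notMem_empty _)⟩⟩

theorem clause_congr {M : Set ZFSet.{0}} {F D c T T' ψ n s : ZFSet.{0}}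
    (hp : Form M F (pair ψ n)) (hs : ZFSet.IsFunc n D s) (hsM : s ∈ M) (hM : IsZF M) (hD : D ∈ M)
    (h : ∀ χ m, pair χ m ∈ F → ∀ s ∈ M, ZFSet.IsFunc m D s →
      (pair (pair χ m) s ∈ T ↔ pair (pair χ m) s ∈ T')) :
    Clause D c T ψ n s ↔ Clause D c T' ψ n s := by
  obtain ⟨ψ', n', h1, h2, h3⟩ := hp
  obtain ⟨rfl, rfl⟩ := ZFSet.pair_inj.1 h1
  have hnM := hM.trans _ hM.infinity _ h2
  rcases h3 with ⟨k, -, i, -, rfl⟩ | ⟨i, -, j, -, rfl⟩ | ⟨χ, rfl, h4⟩ | ⟨Φ, rfl, -, h4⟩ |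
    ⟨χ, rfl, h4⟩
  · rw [clause_P, clause_P]
  · rw [clause_Eq, clause_Eq]
  · rw [clause_Not, clause_Not, h χ n h4 s hsM hs]
  · rw [clause_And, clause_And]
    exact forall₂_congr fun χ hχ => h χ n (h4 χ hχ) s hsM hs
  · rw [clause_Ex, clause_Ex]
    refine exists_congr fun d => and_congr_right fun hd => ?_
    exact h χ _ h4 _ (hM.insert_mem (hM.pair_mem hnM (hM.trans _ hD _ hd)) hsM)
      (isFunc_insert hs hd)

theorem dfn_clause {M : Set ZFSet.{0}} (hM : IsZF M) {D c T : ZFSet.{0}} (hD : D ∈ M)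
    (hc : c ∈ M) (hT : T ∈ M) : Dfn M M fun w : Fin 3 → ZFSet.{0} =>
      Clause D c T (w 0) (w 1) (w 2) := by
  have hB := hM.base
  have h0 := hM.nat_mem 0
  have h1 := hM.nat_mem 1
  have h2 := hM.nat_mem 2
  have h3 := hM.nat_mem 3
  have h4 := hM.nat_mem 4
  have hd : Dfn M M fun w : Fin 3 → ZFSet.{0} =>
      (∃ k ∈ M, ∃ i ∈ M, ∃ d ∈ M, w 0 = pair (nat 0) (pair k i) ∧ pair i d ∈ w 2 ∧
        pair d k ∈ c) ∨
      (∃ i ∈ M, ∃ j ∈ M, ∃ d ∈ M, w 0 = pair (nat 1) (pair i j) ∧ pair i d ∈ w 2 ∧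
        pair j d ∈ w 2) ∨
      (∃ χ ∈ M, w 0 = pair (nat 2) χ ∧ ¬ pair (pair χ (w 1)) (w 2) ∈ T) ∨
      (∃ Φ ∈ M, w 0 = pair (nat 3) Φ ∧ ∀ χ ∈ Φ, pair (pair χ (w 1)) (w 2) ∈ T) ∨
      (∃ χ ∈ M, w 0 = pair (nat 4) χ ∧ ∃ d ∈ D,
        pair (pair χ (insert (w 1) (w 1))) (insert (pair (w 1) d) (w 2)) ∈ T) := by
    (repeat' first
      | assumption
      | exact DfnF.proj _
      | exact DfnF.const (by assumption)
      | exact DfnF.const' (by first | assumption | trivial) (by first | assumption | trivial)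
      | exact Dfn.prop _
      | apply hB.isFunc' | apply hB.isInj' | apply hB.isBij' | apply hB.subset' | apply hB.pair' | apply hB.single' | apply hB.upair' | apply hB.insert' | apply hB.union'
      | apply Dfn.not | apply Dfn.and | apply Dfn.or | apply Dfn.imp | apply Dfn.iff
      | apply hB.bex | apply hB.ball | apply Dfn.ex | apply Dfn.all
      | apply Dfn.eq | apply Dfn.mem | apply hB.pair')
  refine hd.congr fun v hv => ?_
  unfold Clause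
  refine or_congr ?_ (or_congr ?_ (or_congr ?_ (or_congr ?_ ?_)))
  · constructor
    · rintro ⟨k, -, i, -, d, -, h⟩
      exact ⟨k, i, d, h⟩
    · rintro ⟨k, i, d, h, h', h''⟩
      have h7 := hv 0
      rw [h] at h7
      have h5 : pair k i ∈ M := (hM.of_pair_mem h7).2
      have h6 := hM.of_pair_mem (hM.trans _ (hv 2) _ h')
      exact ⟨k, (hM.of_pair_mem h5).1, i, (hM.of_pair_mem h5).2, d, h6.2, h, h', h''⟩
  · constructor
    · rintro ⟨k, -, i, -, d, -, h⟩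
      exact ⟨k, i, d, h⟩
    · rintro ⟨k, i, d, h, h', h''⟩
      have h7 := hv 0
      rw [h] at h7
      have h5 : pair k i ∈ M := (hM.of_pair_mem h7).2
      have h6 := hM.of_pair_mem (hM.trans _ (hv 2) _ h')
      exact ⟨k, (hM.of_pair_mem h5).1, i, (hM.of_pair_mem h5).2, d, h6.2, h, h', h''⟩
  · constructor
    · rintro ⟨χ, -, h⟩
      exact ⟨χ, h⟩
    · rintro ⟨χ, h, h'⟩
      have h7 := hv 0
      rw [h] at h7
      exact ⟨χ, (hM.of_pair_mem h7).2, h, h'⟩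
  · constructor
    · rintro ⟨χ, -, h⟩
      exact ⟨χ, h⟩
    · rintro ⟨χ, h, h'⟩
      have h7 := hv 0
      rw [h] at h7
      exact ⟨χ, (hM.of_pair_mem h7).2, h, h'⟩
  · constructor
    · rintro ⟨χ, -, h⟩
      exact ⟨χ, h⟩
    · rintro ⟨χ, h, h'⟩
      have h7 := hv 0
      rw [h] at h7
      exact ⟨χ, (hM.of_pair_mem h7).2, h, h'⟩

theorem Good.extend {M : Set ZFSet.{0}} (hM : IsZF M) {F G : ZFSet.{0}} (h : Good M F)
    (hG : G ∈ M) (hGF : ∀ p ∈ G, Form M F p) : Good M (F ∪ G) := by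
  have hB := hM.base
  obtain ⟨hF, h1, h2⟩ := h
  have hFG : F ∪ G ∈ M := hM.union_mem hF hG
  have hall : ∀ p ∈ F ∪ G, Form M F p := by
    intro p hp
    rcases ZFSet.mem_union.1 hp with hp | hp
    · exact h1 p hp
    · exact hGF p hp
  have hsub : F ⊆ F ∪ G := fun x hx => ZFSet.mem_union.2 (Or.inl hx)
  refine ⟨hFG, fun p hp => (hall p hp).mono hsub, fun D hD c hc => ?_⟩
  obtain ⟨T, hT, h3⟩ := h2 D hD c hc
  obtain ⟨S, hS, hS'⟩ := hM.power _ (hM.prod_mem hM.infinity hD)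
  have hd : Dfn M M fun w : Fin 2 → ZFSet.{0} => ∃ ψ ∈ M, ∃ n ∈ M, w 0 = pair ψ n ∧
      ZFSet.IsFunc n D (w 1) ∧ Clause D c T ψ n (w 1) := by
    apply Dfn.ex
    apply Dfn.ex
    apply Dfn.and
    · (repeat' first
      | assumption
      | exact DfnF.proj _
      | exact DfnF.const (by assumption)
      | exact DfnF.const' (by first | assumption | trivial) (by first | assumption | trivial)
      | exact Dfn.prop _
      | apply hB.isFunc' | apply hB.isInj' | apply hB.isBij' | apply hB.subset' | apply hB.pair' | apply hB.single' | apply hB.upair' | apply hB.insert' | apply hB.union'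
      | apply Dfn.not | apply Dfn.and | apply Dfn.or | apply Dfn.imp | apply Dfn.iff
      | apply hB.bex | apply hB.ball | apply Dfn.ex | apply Dfn.all
      | apply Dfn.eq | apply Dfn.mem | apply hB.pair')
    apply Dfn.and
    · (repeat' first
      | assumption
      | exact DfnF.proj _
      | exact DfnF.const (by assumption)
      | exact DfnF.const' (by first | assumption | trivial) (by first | assumption | trivial)
      | exact Dfn.prop _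
      | apply hB.isFunc' | apply hB.isInj' | apply hB.isBij' | apply hB.subset' | apply hB.pair' | apply hB.single' | apply hB.upair' | apply hB.insert' | apply hB.union'
      | apply Dfn.not | apply Dfn.and | apply Dfn.or | apply Dfn.imp | apply Dfn.iff
      | apply hB.bex | apply hB.ball | apply Dfn.ex | apply Dfn.all
      | apply Dfn.eq | apply Dfn.mem | apply hB.pair')
    · exact Dfn.comp3 (Q := fun a b e => Clause D c T a b e) (dfn_clause hM hD hc hT)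
        (DfnF.proj 1) (DfnF.proj 0) (DfnF.proj 3)
  obtain ⟨T', hT', -, h4⟩ := hM.rel_mem hFG hS (Q := fun p s => ∃ ψ ∈ M, ∃ n ∈ M,
    p = pair ψ n ∧ ZFSet.IsFunc n D s ∧ Clause D c T ψ n s) hd
  have key : ∀ ψ n, pair ψ n ∈ F ∪ G → ∀ s ∈ M, ZFSet.IsFunc n D s →
      (pair (pair ψ n) s ∈ T' ↔ Clause D c T ψ n s) := by
    intro ψ n hp s hs hsf
    rw [h4]
    constructor
    · rintro ⟨-, -, ψ', -, n', -, h5, -, h6⟩
      obtain ⟨rfl, rfl⟩ := ZFSet.pair_inj.1 h5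
      exact h6
    · intro h5
      have h6 := hM.of_pair_mem (hM.trans _ hFG _ hp)
      obtain ⟨ψ', n', h7, h8, -⟩ := hall _ hp
      obtain ⟨rfl, rfl⟩ := ZFSet.pair_inj.1 h7
      refine ⟨hp, (hS' s).2 ⟨hs, fun q hq => ?_⟩, ψ, h6.1, n, h6.2, rfl, hsf, h5⟩
      obtain ⟨a, ha, b, hb, rfl⟩ := ZFSet.mem_prod.1 (hsf.1 hq)
      refine ZFSet.pair_mem_prod.2 ⟨?_, hb⟩
      obtain ⟨m, rfl⟩ := mem_omega_iff.1 h8
      rw [nat_eq] at ha
      obtain ⟨o, ho, rfl⟩ := Ordinal.mem_toZFSet_iff.1 ha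
      obtain ⟨l, rfl⟩ := Ordinal.lt_omega0.1 (ho.trans (Ordinal.natCast_lt_omega0 m))
      exact mem_omega_iff.2 ⟨l, (nat_eq l).symm⟩
  refine ⟨T', hT', fun ψ n hp s hs hsf => ?_⟩
  rw [key ψ n hp s hs hsf]
  refine clause_congr (hall _ hp) hsf hs hM hD ?_
  intro χ m hχ s' hs' hsf'
  rw [h3 χ m hχ s' hs' hsf', key χ m (hsub hχ) s' hs' hsf']

end Pool.Agent.W868
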