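import Pool.Agent.W868.Pkg

/-!
# The generic extension and the truth lemma
-/

set_option autoImplicit false

namespace Pool.Agent.W868

open PName

variable {P : Type} [Preorder P] [OrderTop P]

namespace Pkg

/-- The value of a name. -/
noncomputable def val (π : Pkg P) : PName P → ZFSet.{0}
  | .mk ι x c => ZFSet.range fun i : {i : ι // x i ∈ π.N ∧ ∃ n, π.g n ≤ c i} => π.val (x i.1)

/-- The generic extension. -/
def W (π : Pkg P) : Set ZFSet.{0} := π.val '' π.N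

variable (π : Pkg P)

theorem mem_val {x : PName P} {z : ZFSet.{0}} : z ∈ π.val x ↔
    ∃ y ∈ π.N, ∃ c, El x y c ∧ (∃ n, π.g n ≤ c) ∧ π.val y = z := by
  cases x with
  | mk ι x c =>
    rw [val, ZFSet.mem_range]
    constructor
    · rintro ⟨⟨i, hi, hn⟩, rfl⟩
      exact ⟨x i, hi, c i, ⟨i, rfl, rfl⟩, hn, rfl⟩
    · rintro ⟨_, hy, _, ⟨i, rfl, rfl⟩, hn, rfl⟩
      exact ⟨⟨i, hy, hn⟩, rfl⟩

theorem val_mem_val {x y : PName P} {c : P} {n : ℕ} (hy : y ∈ π.N) (h : El x y c)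
    (hn : π.g n ≤ c) : π.val y ∈ π.val x :=
  (mem_val (π := π)).2 ⟨y, hy, c, h, ⟨n, hn⟩, rfl⟩

theorem g_anti : Antitone π.g := antitone_nat_of_succ_le π.anti

theorem g_le_left (m n : ℕ) : π.g (max m n) ≤ π.g m := π.g_anti (le_max_left _ _)

theorem g_le_right (m n : ℕ) : π.g (max m n) ≤ π.g n := π.g_anti (le_max_right _ _)

/-- The elements of the extension. -/
theorem val_mem_W {x : PName P} (hx : x ∈ π.N) : π.val x ∈ π.W := ⟨x, hx, rfl⟩

theorem trans_W {x y : ZFSet.{0}} (hx : x ∈ π.W) (hy : y ∈ x) : y ∈ π.W := by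
  obtain ⟨a, ha, rfl⟩ := hx
  obtain ⟨b, hb, -, -, -, rfl⟩ := π.mem_val.1 hy
  exact π.val_mem_W hb

theorem gen_mem {x y : PName P} (hx : x ∈ π.N) (hy : y ∈ π.N) {n : ℕ}
    (h : Fmem x y (π.g n)) :
    ∃ z ∈ π.N, ∃ c k, El y z c ∧ π.g k ≤ c ∧ Feq x z (π.g k) := by
  obtain ⟨k, h1, h2⟩ := π.gen ⟨0, .mem (Sum.inr x) (Sum.inr y), Fin.elim0, ⊤⟩
    ⟨⟨tOver_inr.2 hx, tOver_inr.2 hy⟩, fun i => i.elim0⟩
  have h3 : Fmem x y (π.g k) := by
    rcases h1 with h1 | h1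
    · exact h1
    · exact absurd (h.mono (π.g_le_right k n)) (h1 _ (π.g_le_left k n))
  obtain ⟨z, hz, c, hc⟩ := h2 h3
  exact ⟨z, hz, c, k, hc⟩

theorem gen_eq {x y : PName P} (hx : x ∈ π.N) (hy : y ∈ π.N) :
    ∃ k, Feq x y (π.g k) ∨ ∃ z ∈ π.N, Wit x y z (π.g k) ∨ Wit y x z (π.g k) := by
  obtain ⟨k, -, h2⟩ := π.gen ⟨0, .eq (Sum.inr x) (Sum.inr y), Fin.elim0, ⊤⟩
    ⟨⟨tOver_inr.2 hx, tOver_inr.2 hy⟩, fun i => i.elim0⟩
  exact ⟨k, h2⟩

theorem val_eq_iff {x y : PName P} (hx : x ∈ π.N) (hy : y ∈ π.N) :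
    π.val x = π.val y ↔ ∃ n, Feq x y (π.g n) := by
  induction x using el_ind generalizing y with
  | h x ih =>
    constructor
    · intro h
      obtain ⟨k, h1 | ⟨z, hz, h1 | h1⟩⟩ := π.gen_eq hx hy
      · exact ⟨k, h1⟩
      · exfalso
        obtain ⟨⟨c, hc, hkc⟩, hn⟩ := h1
        have h2 : π.val z ∈ π.val x := π.val_mem_val hz hc hkc
        rw [h] at h2
        obtain ⟨w, hw, d, hd, ⟨m, hm⟩, he⟩ := π.mem_val.1 h2
        obtain ⟨n, hn'⟩ := (ih z c hc hz hw).1 he.symm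
        exact hn (π.g (max k (max m n))) (π.g_le_left _ _) w d hd
          ((π.g_le_right _ _).trans ((π.g_le_left _ _).trans hm))
          (hn'.mono ((π.g_le_right _ _).trans (π.g_le_right _ _)))
      · exfalso
        obtain ⟨⟨c, hc, hkc⟩, hn⟩ := h1
        have h2 : π.val z ∈ π.val y := π.val_mem_val hz hc hkc
        rw [← h] at h2
        obtain ⟨w, hw, d, hd, ⟨m, hm⟩, he⟩ := π.mem_val.1 h2
        obtain ⟨n, hn'⟩ := (ih w d hd hw hz).1 he
        exact hn (π.g (max k (max m n))) (π.g_le_left _ _) w d hd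
          ((π.g_le_right _ _).trans ((π.g_le_left _ _).trans hm))
          (hn'.mono ((π.g_le_right _ _).trans (π.g_le_right _ _))).symm
    · rintro ⟨n, hn⟩
      rw [feq_iff'] at hn
      ext z
      constructor
      · intro hz
        obtain ⟨a, ha, c, hc, ⟨m, hm⟩, rfl⟩ := π.mem_val.1 hz
        have h1 : Fmem a y (π.g (max n m)) := by
          rw [fmem_iff]
          intro q hq
          exact hn.1 a c hc q (hq.trans (π.g_le_left _ _)) (hq.trans ((π.g_le_right _ _).trans hm))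
        obtain ⟨b, hb, d, k, hd, hk, he⟩ := π.gen_mem ha hy h1
        rw [(ih a c hc ha hb).2 ⟨k, he⟩]
        exact π.val_mem_val hb hd hk
      · intro hz
        obtain ⟨a, ha, c, hc, ⟨m, hm⟩, rfl⟩ := π.mem_val.1 hz
        have h1 : Fmem a x (π.g (max n m)) := by
          rw [fmem_iff]
          intro q hq
          obtain ⟨s, hs, z, c, h2, h3, h4⟩ :=
            hn.2 a c hc q (hq.trans (π.g_le_left _ _)) (hq.trans ((π.g_le_right _ _).trans hm))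
          exact ⟨s, hs, z, c, h2, h3, h4.symm⟩
        obtain ⟨b, hb, d, k, hd, hk, he⟩ := π.gen_mem ha hx h1
        rw [← (ih b d hd hb ha).2 ⟨k, he.symm⟩]
        exact π.val_mem_val hb hd hk

theorem val_mem_iff {x y : PName P} (hx : x ∈ π.N) (hy : y ∈ π.N) :
    π.val x ∈ π.val y ↔ ∃ n, Fmem x y (π.g n) := by
  constructor
  · intro h
    obtain ⟨z, hz, c, hc, ⟨m, hm⟩, he⟩ := π.mem_val.1 h
    obtain ⟨n, hn⟩ := (π.val_eq_iff hx hz).1 he.symm
    refine ⟨max m n, fmem_iff.2 fun q hq => ⟨q, le_rfl, z, c, hc, ?_, ?_⟩⟩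
    · exact hq.trans ((π.g_le_left _ _).trans hm)
    · exact hn.mono (hq.trans (π.g_le_right _ _))
  · rintro ⟨n, hn⟩
    obtain ⟨z, hz, c, k, hc, hk, he⟩ := π.gen_mem hx hy hn
    rw [(π.val_eq_iff hx hz).2 ⟨k, he⟩]
    exact π.val_mem_val hz hc hk

theorem tv_mem {n : ℕ} {v : Fin n → PName P} (hv : ∀ i, v i ∈ π.N) {s : Fin n ⊕ PName P}
    (hs : TOver π.N s) : tv v s ∈ π.N := by
  cases s with
  | inl i => exact hv i
  | inr a => exact hs a rfl

theorem elim_val {n : ℕ} (v : Fin n → PName P) (s : Fin n ⊕ PName P) :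
    Sum.elim (π.val ∘ v) π.val s = π.val (tv v s) := by
  cases s <;> rfl

omit [Preorder P] [OrderTop P] in
theorem comp_cons {n : ℕ} (f : PName P → ZFSet.{0}) (v : Fin n → PName P) (x : PName P) :
    f ∘ (Fin.cons x v : Fin (n + 1) → PName P) = Fin.cons (f x) (f ∘ v) := by
  funext i
  refine Fin.cases ?_ (fun i => ?_) i
  · rfl
  · rfl

theorem cons_mem {α : Type*} {S : Set α} {n : ℕ} {v : Fin n → α} {x : α} (hx : x ∈ S)
    (hv : ∀ i, v i ∈ S) : ∀ i, (Fin.cons x v : Fin (n + 1) → α) i ∈ S := by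
  intro i
  refine Fin.cases ?_ (fun i => ?_) i
  · exact hx
  · exact hv i

/-- The truth lemma. -/
theorem sat_iff : {n : ℕ} → (φ : Fml (PName P) n) → φ.Over π.N → (v : Fin n → PName P) →
    (∀ i, v i ∈ π.N) → (Sat π.W π.val φ (π.val ∘ v) ↔ ∃ k, Forces φ v (π.g k))
  | _, .mem s t, hφ, v, hv => by
    simp only [Sat, elim_val, Forces]
    exact π.val_mem_iff (π.tv_mem hv hφ.1) (π.tv_mem hv hφ.2)
  | _, .eq s t, hφ, v, hv => by
    simp only [Sat, elim_val, Forces]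
    exact π.val_eq_iff (π.tv_mem hv hφ.1) (π.tv_mem hv hφ.2)
  | n, .neg φ, hφ, v, hv => by
    simp only [Sat, Forces]
    rw [sat_iff φ hφ v hv]
    constructor
    · intro h
      obtain ⟨k, h1 | h1, -⟩ := π.gen ⟨n, φ, v, ⊤⟩ ⟨hφ, hv⟩
      · exact absurd ⟨k, h1⟩ h
      · exact ⟨k, h1⟩
    · rintro ⟨k, hk⟩ ⟨m, hm⟩
      exact hk _ (π.g_le_left k m) (hm.mono (π.g_le_right k m))
  | _, .and φ ψ, hφ, v, hv => by
    simp only [Sat, Forces]
    rw [sat_iff φ hφ.1 v hv, sat_iff ψ hφ.2 v hv]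
    constructor
    · rintro ⟨⟨k, hk⟩, ⟨m, hm⟩⟩
      exact ⟨max k m, hk.mono (π.g_le_left k m), hm.mono (π.g_le_right k m)⟩
    · rintro ⟨k, h1, h2⟩
      exact ⟨⟨k, h1⟩, ⟨k, h2⟩⟩
  | n, .ex φ, hφ, v, hv => by
    have ih := fun x (hx : x ∈ π.N) => sat_iff φ hφ (Fin.cons x v) (cons_mem hx hv)
    simp only [comp_cons] at ih
    simp only [Sat]
    constructor
    · rintro ⟨_, ⟨x, hx, rfl⟩, hs⟩
      obtain ⟨k, hk⟩ := (ih x hx).1 hs
      exact ⟨k, fun q hq => ⟨q, le_rfl, x, hk.mono hq⟩⟩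
    · rintro ⟨k, hk⟩
      obtain ⟨m, h1, h2⟩ := π.gen ⟨n, .ex φ, v, ⊤⟩ ⟨hφ, hv⟩
      have h3 : Forces (.ex φ) v (π.g m) := by
        rcases h1 with h1 | h1
        · exact h1
        · exact absurd (Forces.mono hk (π.g_le_right m k)) (h1 _ (π.g_le_left m k))
      obtain ⟨x, hx, h4⟩ := h2 h3
      exact ⟨_, π.val_mem_W hx, (ih x hx).2 ⟨m, h4⟩⟩

end Pkg

end Pool.Agent.W868
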